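import Pool.Agent.GamI.AP

/-! # AD: from `FDRep k G` to a Sylow subgroup -/

set_option autoImplicit false

open scoped TensorProduct
open Module CategoryTheory MonoidalCategory

noncomputable section

namespace Pool.Agent.GamI

variable {k : Type} [Field k] {G : Type} [Group G]

/-- the bundled representation underlying an object of `FDRep k G` -/
def ofFD (X : FDRep k G) : Mo k G := ⟨X, X.ρ⟩

lemma ofFD_tens (X M : FDRep k G) : ofFD (X ⊗ M) = (ofFD X).tens (ofFD M) := by
  rfl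

lemma ofFD_iter (M X : FDRep k G) (n : ℕ) :
    ofFD ((fun X : FDRep k G => X ⊗ M)^[n] X) = Tn (ofFD M) n (ofFD X) := by
  induction n generalizing X with
  | zero => rfl
  | succ n ih =>
    rw [Function.iterate_succ_apply, ih, ofFD_tens]
    rfl

lemma ofFD_unit : Iso (ofFD (𝟙_ (FDRep k G))) (triv k G) := by
  refine ⟨LinearEquiv.refl k k, ?_⟩
  intro g v
  rfl

/-- an equivariant linear map as a morphism of `FDRep` -/
def AD_hom {X Y : FDRep k G} (f : X →ₗ[k] Y) (hf : IsH (ofFD X) (ofFD Y) f) : X ⟶ Y :=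
  ⟨InducedCategory.homMk (ModuleCat.ofHom f), fun g => by
    ext x
    exact (hf g x)⟩

/-- the linear map underlying a morphism of `FDRep` -/
def AD_lin {X Y : FDRep k G} (f : X ⟶ Y) : X →ₗ[k] Y := f.hom.hom.hom

lemma AD_lin_hom {X Y : FDRep k G} (f : X →ₗ[k] Y) (hf : IsH (ofFD X) (ofFD Y) f) :
    AD_lin (AD_hom f hf) = f := rfl

lemma AD_lin_isH {X Y : FDRep k G} (f : X ⟶ Y) : IsH (ofFD X) (ofFD Y) (AD_lin f) := by
  intro g x
  have h := f.comm g
  exact congrArg (fun φ : X.V ⟶ Y.V => φ.hom.hom x) h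

lemma AD_lin_comp {X Y Z : FDRep k G} (f : X ⟶ Y) (g : Y ⟶ Z) :
    AD_lin (f ≫ g) = AD_lin g ∘ₗ AD_lin f := rfl

lemma AD_lin_id (X : FDRep k G) : AD_lin (𝟙 X) = LinearMap.id := rfl

lemma AD_lin_inj {X Y : FDRep k G} {f g : X ⟶ Y} (h : AD_lin f = AD_lin g) : f = g := by
  apply Action.Hom.ext
  apply InducedCategory.hom_ext
  exact ModuleCat.hom_ext h

/-- retracts in `FDRep` -/
lemma fd_retr_iff (X Y : FDRep k G) :
    (∃ (i : X ⟶ Y) (r : Y ⟶ X), i ≫ r = 𝟙 X) ↔ Retr (ofFD X) (ofFD Y) := by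
  constructor
  · rintro ⟨i, r, h⟩
    refine ⟨AD_lin i, AD_lin r, AD_lin_isH i, AD_lin_isH r, ?_⟩
    have h1 := congrArg AD_lin h
    rw [AD_lin_comp, AD_lin_id] at h1
    exact h1
  · rintro ⟨i, r, hi, hr, h⟩
    refine ⟨AD_hom (X := X) (Y := Y) i hi, AD_hom (X := Y) (Y := X) r hr, ?_⟩
    apply AD_lin_inj
    rw [AD_lin_comp, AD_lin_id]
    exact h

lemma exists_fd (A : Mo k G) : ∃ X : FDRep k G, ofFD X = A :=
  ⟨FDRep.of A.ρ, rfl⟩

/-- epimorphisms are surjective -/
lemma AD_epi {X Y : FDRep k G} (e : X ⟶ Y) [Epi e] : Function.Surjective (AD_lin e) := by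
  have hinv : ∀ g, LinearMap.range (AD_lin e) ≤
      (LinearMap.range (AD_lin e)).comap ((ofFD Y).ρ g) := by
    rintro g _ ⟨x, rfl⟩
    exact ⟨(ofFD X).ρ g x, AD_lin_isH e g x⟩
  set Q : Mo k G := (ofFD Y).quo (LinearMap.range (AD_lin e)) hinv with hQ
  let Z : FDRep k G := FDRep.of Q.ρ
  let q : Y ⟶ Z := AD_hom (X := Y) (Y := Z) (LinearMap.range (AD_lin e)).mkQ (by
    intro g v
    rfl)
  let o : Y ⟶ Z := AD_hom (X := Y) (Y := Z) 0 (by
    intro g v
    exact (map_zero ((ofFD Z).ρ g)).symm)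
  have h1 : e ≫ q = e ≫ o := by
    apply AD_lin_inj
    rw [AD_lin_comp, AD_lin_comp]
    apply LinearMap.ext
    intro x
    show (LinearMap.range (AD_lin e)).mkQ (AD_lin e x) = 0
    rw [Submodule.mkQ_apply, Submodule.Quotient.mk_eq_zero]
    exact ⟨x, rfl⟩
  have h2 : q = o := (cancel_epi e).1 h1
  have h3 : (LinearMap.range (AD_lin e)).mkQ = 0 := congrArg AD_lin h2
  intro y
  have h4 : (LinearMap.range (AD_lin e)).mkQ y = 0 := by rw [h3]; rfl
  rw [Submodule.mkQ_apply, Submodule.Quotient.mk_eq_zero] at h4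
  exact h4

/-- surjective morphisms are epimorphisms -/
lemma AD_epi_of {X Y : FDRep k G} (e : X ⟶ Y) (h : Function.Surjective (AD_lin e)) : Epi e := by
  constructor
  intro Z f g hfg
  apply AD_lin_inj
  have h1 := congrArg AD_lin hfg
  rw [AD_lin_comp, AD_lin_comp] at h1
  exact (LinearMap.cancel_right h).1 h1

/-- the map `A ⊗ k[G] → A` -/
lemma AD_reg [Finite G] (A : Mo k G) : ∃ f : (A.tens (perm k G G)).V →ₗ[k] A.V,
    IsH (A.tens (perm k G G)) A f ∧ Function.Surjective f := by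
  classical
  have := Fintype.ofFinite G
  let c : (G → k) →ₗ[k] k := ∑ g : G, LinearMap.proj g
  have hc : ∀ f : G → k, c f = ∑ g : G, f g := by
    intro f
    simp [c]
  let F : A.V ⊗[k] (G → k) →ₗ[k] A.V :=
    TensorProduct.lift (LinearMap.mk₂ k (fun (x : A.V) (f : G → k) => c f • x)
      (fun x y f => smul_add _ _ _) (fun a x f => smul_comm _ _ _)
      (fun x f g => by rw [map_add, add_smul]) (fun a x f => by
        rw [map_smul, smul_eq_mul, mul_smul]))
  have hF : ∀ (x : A.V) (f : G → k), F (x ⊗ₜ[k] f) = c f • x := fun x f => rfl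
  have key : ∀ (g : G) (v : A.V ⊗[k] (G → k)),
      F ((A.ρ.tprod (permRep k G G)) g v) = A.ρ g (F v) := by
    intro g v
    induction v using TensorProduct.induction_on with
    | zero => rw [map_zero, map_zero, map_zero]
    | add v w hv hw => rw [map_add, map_add, hv, hw, map_add, map_add]
    | tmul x f =>
      have h1 : (A.ρ.tprod (permRep k G G)) g (x ⊗ₜ[k] f) = A.ρ g x ⊗ₜ[k] (permRep k G G g f) :=
        rfl
      rw [h1, hF, hF, map_smul, hc, hc]
      congr 1
      show ∑ h : G, f (g⁻¹ • h) = ∑ h : G, f h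
      exact Fintype.sum_equiv (MulAction.toPerm g⁻¹) _ _ (fun h => rfl)
  have hsurj : ∀ x : A.V, ∃ v : A.V ⊗[k] (G → k), F v = x := by
    intro x
    refine ⟨x ⊗ₜ[k] (Pi.single 1 1 : G → k), ?_⟩
    rw [hF, hc, Finset.sum_pi_single']
    simp
  refine ⟨F, ?_, ?_⟩
  · intro g v
    exact key g v
  · intro x
    exact hsurj x

/-- Higman's criterion -/
theorem projective_iff [Finite G] (X : FDRep k G) : Projective X ↔ Proj (ofFD X) := by
  constructor
  · intro hX
    obtain ⟨F, hF⟩ := exists_fd ((ofFD X).tens (perm k G G))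
    obtain ⟨f, hf, hfs⟩ := AD_reg (ofFD X)
    have hFP : Proj (ofFD F) := by
      rw [hF]
      exact ProjOn.tens_l proj_perm (ofFD X)
    have hs : ∃ f' : (ofFD F).V →ₗ[k] (ofFD X).V, IsH (ofFD F) (ofFD X) f' ∧
        Function.Surjective f' := by
      rw [hF]
      exact ⟨f, hf, hfs⟩
    obtain ⟨f', hf', hfs'⟩ := hs
    let e : F ⟶ X := AD_hom (X := F) (Y := X) f' hf'
    have he : Epi e := AD_epi_of e hfs'
    have h1 : Projective.factorThru (𝟙 X) e ≫ e = 𝟙 X := Projective.factorThru_comp _ _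
    have h2 := (fd_retr_iff X F).1 ⟨_, _, h1⟩
    exact ProjOn.retr h2 hFP
  · intro hX
    constructor
    intro E Y f e he
    have hs := AD_epi e
    obtain ⟨f', hf', hcomp⟩ := Proj.lift (A := ofFD X) (B := ofFD E) (C := ofFD Y) hX
      (AD_lin e) (AD_lin_isH e) hs (AD_lin f) (AD_lin_isH f)
    refine ⟨AD_hom (X := X) (Y := E) f' hf', ?_⟩
    apply AD_lin_inj
    rw [AD_lin_comp]
    exact hcomp

end Pool.Agent.GamI
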