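import Pool.Agent.GamI.AP

/-! # AE: the core dimension over `G` and over a Sylow subgroup -/

set_option autoImplicit false

open scoped TensorProduct
open Module

noncomputable section

namespace Pool.Agent.GamI

variable {p : ℕ} [Fact p.Prime] {k : Type} [Field k] [CharP k p] {G : Type} [Group G] [Finite G]

/-- lower bound: removing a projective retract leaves at least the core of the restriction -/
theorem core_lower (S : Sylow p G) (N P : Mo k G) (hP : Proj P) (h : Retr P N) :
    cT (N.res (S : Subgroup G).subtype) ≤ finrank k N.V - finrank k P.V := by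
  obtain ⟨C, hC⟩ := h.compl
  have h1 : Iso (N.res (S : Subgroup G).subtype)
      ((P.res (S : Subgroup G).subtype).prod (C.res (S : Subgroup G).subtype)) :=
    hC.res (S : Subgroup G).subtype
  have h2 : cT (P.res (S : Subgroup G).subtype) = 0 :=
    cT_proj S.isPGroup' ((projOn_iff _ _).1 (hP.projOn _))
  have h3 : cT (C.res (S : Subgroup G).subtype) ≤ finrank k C.V := Nat.sub_le _ _
  have h4 : finrank k N.V = finrank k P.V + finrank k C.V := by
    rw [hC.finrank]
    exact Module.finrank_prod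
  rw [cT_iso h1, cT_prod S.isPGroup', h2]
  omega

/-- the decomposition of a group into cosets -/
def AEev (H : Subgroup G) : (G ⧸ H) × H ≃ G where
  toFun x := x.1.out * (x.2 : G)
  invFun g := ((g : G ⧸ H), ⟨(g : G ⧸ H).out⁻¹ * g, by
    rw [← QuotientGroup.eq]
    exact Quotient.out_eq' _⟩)
  left_inv x := by
    obtain ⟨q, h⟩ := x
    have h1 : ((q.out * (h : G) : G) : G ⧸ H) = q := by
      rw [QuotientGroup.mk_mul_of_mem _ h.2]
      exact Quotient.out_eq' _
    refine Prod.ext h1 (Subtype.ext ?_)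
    simp only [h1]
    group
  right_inv g := by
    simp only
    group

theorem AE_subFin_top {G : Type} [Group G] [Finite G] [Fintype G] :
    subFin (⊤ : Subgroup G) = Finset.univ := by
  ext g
  simp [mem_subFin]

omit [Finite G] in
theorem AE_cj_sum {A B : Mo k G} {ι : Type} (s : Finset ι) (g : G) (f : ι → A.V →ₗ[k] B.V) :
    cj A B g (∑ i ∈ s, f i) = ∑ i ∈ s, cj A B g (f i) := by
  apply LinearMap.ext
  intro v
  simp only [cj, LinearMap.comp_apply, LinearMap.sum_apply, map_sum]

theorem AE_tr_aux {X F : Mo k G} (π : X.V →ₗ[k] F.V) (ι : F.V →ₗ[k] X.V) (hπ : IsH X F π)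
    (hι : IsH F X ι) (θF : F.V →ₗ[k] F.V) (h : trH ⊤ F F θF = LinearMap.id) :
    trH ⊤ X X (ι ∘ₗ (θF ∘ₗ π)) = ι ∘ₗ π := by
  rw [trH_comp_l ⊤ (θF ∘ₗ π) ι (IsHOn_top.2 hι), trH_comp_r ⊤ θF π (IsHOn_top.2 hπ), h,
    LinearMap.id_comp]

omit [Finite G] in
theorem AE_range_aux {X A' F : Mo k G} (e0 : X.V ≃ₗ[k] (A'.prod F).V) :
    finrank k (LinearMap.range (LinearMap.id -
      (e0.symm.toLinearMap ∘ₗ (LinearMap.inr k A'.V F.V)) ∘ₗ
        ((LinearMap.snd k A'.V F.V) ∘ₗ e0.toLinearMap) : X.V →ₗ[k] X.V)) ≤ finrank k A'.V := by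
  have h5 : LinearMap.range (LinearMap.id -
      (e0.symm.toLinearMap ∘ₗ (LinearMap.inr k A'.V F.V)) ∘ₗ
        ((LinearMap.snd k A'.V F.V) ∘ₗ e0.toLinearMap) : X.V →ₗ[k] X.V) ≤
      LinearMap.range (e0.symm.toLinearMap ∘ₗ (LinearMap.inl k A'.V F.V)) := by
    rintro _ ⟨v, rfl⟩
    refine ⟨(e0 v).1, ?_⟩
    change e0.symm ((e0 v).1, (0 : F.V)) = v - e0.symm ((0 : A'.V), (e0 v).2)
    apply e0.injective
    rw [map_sub]
    have h6 : e0 (e0.symm ((e0 v).1, (0 : F.V))) = ((e0 v).1, (0 : F.V)) :=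
      e0.apply_symm_apply _
    have h7 : e0 (e0.symm ((0 : A'.V), (e0 v).2)) = ((0 : A'.V), (e0 v).2) :=
      e0.apply_symm_apply _
    rw [h6, h7]
    refine Prod.ext ?_ ?_
    · change (e0 v).1 = (e0 v).1 - 0
      rw [sub_zero]
    · change (0 : F.V) = (e0 v).2 - (e0 v).2
      rw [sub_self]
  exact (Submodule.finrank_mono h5).trans (LinearMap.finrank_range_le _)

theorem AE_tr {A B : Mo k G} (H : Subgroup G) [Fintype (G ⧸ H)] (θ : A.V →ₗ[k] B.V) :
    trH ⊤ A B θ = ∑ q : G ⧸ H, cj A B q.out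
      (trH ⊤ (A.res H.subtype) (B.res H.subtype) θ) := by
  classical
  have : Fintype G := Fintype.ofFinite G
  have : Fintype H := Fintype.ofFinite H
  unfold trH
  rw [AE_subFin_top, AE_subFin_top, ← (AEev H).sum_comp, Fintype.sum_prod_type]
  refine Finset.sum_congr rfl fun q _ => ?_
  have h1 : ∀ h : H, cj A B (AEev H (q, h)) θ =
      cj A B q.out (cj (A.res H.subtype) (B.res H.subtype) h θ) := by
    intro h
    apply LinearMap.ext
    intro v
    change B.ρ (q.out * (h : G)) (θ (A.ρ (q.out * (h : G))⁻¹ v)) =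
      B.ρ q.out (B.ρ (h : G) (θ (A.ρ ((h⁻¹ : H) : G) (A.ρ q.out⁻¹ v))))
    rw [map_mul, mul_inv_rev, map_mul]
    rfl
  rw [Finset.sum_congr rfl fun h _ => h1 h]
  exact (AE_cj_sum Finset.univ q.out
    (fun h : H => (cj (A.res H.subtype) (B.res H.subtype) h θ : A.V →ₗ[k] B.V))).symm

theorem AE_rank_sum {V W ι : Type} [AddCommGroup V] [Module k V] [Module.Finite k V]
    [AddCommGroup W] [Module k W] [Module.Finite k W] (s : Finset ι) (f : ι → V →ₗ[k] W) (n : ℕ)
    (hn : ∀ i ∈ s, finrank k (LinearMap.range (f i)) ≤ n) :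
    finrank k (LinearMap.range (∑ i ∈ s, f i)) ≤ s.card * n := by
  classical
  induction s using Finset.induction_on with
  | empty =>
    rw [Finset.sum_empty, LinearMap.range_zero, finrank_bot]
    exact Nat.zero_le _
  | insert a s ha ih =>
    rw [Finset.sum_insert ha, Finset.card_insert_of_notMem ha]
    have h1 : LinearMap.range (f a + ∑ i ∈ s, f i) ≤
        LinearMap.range (f a) ⊔ LinearMap.range (∑ i ∈ s, f i) := by
      rintro _ ⟨v, rfl⟩
      exact Submodule.add_mem_sup ⟨v, rfl⟩ ⟨v, rfl⟩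
    have h2 := Submodule.finrank_mono h1
    have h3 := Submodule.finrank_add_le_finrank_add_finrank (LinearMap.range (f a))
      (LinearMap.range (∑ i ∈ s, f i))
    have h4 := hn a (Finset.mem_insert_self _ _)
    have h5 := ih fun i hi => hn i (Finset.mem_insert_of_mem hi)
    have h6 : (s.card + 1) * n = s.card * n + n := by ring
    omega

omit [Finite G] in
theorem AE_rank_cj (N : Mo k G) (g : G) (f : N.V →ₗ[k] N.V) :
    finrank k (LinearMap.range (cj N N g f)) ≤ finrank k (LinearMap.range f) := by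
  have h1 : LinearMap.range (cj N N g f) ≤ (LinearMap.range f).map (N.ρ g) := by
    rintro _ ⟨v, rfl⟩
    exact ⟨f (N.ρ g⁻¹ v), ⟨_, rfl⟩, rfl⟩
  exact (Submodule.finrank_mono h1).trans (Submodule.finrank_map_le _ _)

/-- Fitting's lemma for an endomorphism which is a trace -/
theorem AE_fit (N : Mo k G) (θ : N.V →ₗ[k] N.V) :
    ∃ P : Mo k G, Proj P ∧ Retr P N ∧
      finrank k N.V - finrank k P.V ≤
        finrank k (LinearMap.range (LinearMap.id - trH ⊤ N N θ)) := by
  set b : N.V →ₗ[k] N.V := trH ⊤ N N θ with hb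
  have hbH : IsH N N b := trH_isH θ
  obtain ⟨m₀, hm₀⟩ := Filter.eventually_atTop.1
    (LinearMap.eventually_isCompl_ker_pow_range_pow (R := k) (M := N.V) b)
  obtain ⟨m, hm⟩ : ∃ m, m = m₀ + 1 := ⟨_, rfl⟩
  have hcompl := hm₀ m (by omega)
  set c : N.V →ₗ[k] N.V := (b : Module.End k N.V) ^ m with hc
  have hcH : IsH N N c := by
    have : ∀ n : ℕ, IsH N N ((b : Module.End k N.V) ^ n : Module.End k N.V) := by
      intro n
      induction n with
      | zero => exact IsH.id N
      | succ n ih =>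
        rw [pow_succ]
        exact IsH.comp ih hbH
    exact this m
  have hinv : ∀ g, LinearMap.range c ≤ (LinearMap.range c).comap (N.ρ g) := by
    rintro g _ ⟨v, rfl⟩
    exact ⟨N.ρ g v, hcH g v⟩
  have hbc : ∀ v, b (c v) = c (b v) := by
    intro v
    have : (b : Module.End k N.V) * (b : Module.End k N.V) ^ m =
        (b : Module.End k N.V) ^ m * (b : Module.End k N.V) := by
      rw [← pow_succ', ← pow_succ]
    exact LinearMap.congr_fun this v
  have hcb : ∀ v, b v = 0 → c v = 0 := by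
    intro v hv
    have h1 : c v = ((b : Module.End k N.V) ^ m₀) (b v) := by
      rw [hc, hm, pow_succ]
      rfl
    rw [h1, hv, map_zero]
  have hdisj : ∀ v, v ∈ LinearMap.range c → c v = 0 → v = 0 := by
    intro v hv h0
    have h1 := (Submodule.disjoint_def.1 hcompl.disjoint) v (LinearMap.mem_ker.2 h0) hv
    exact h1
  set P : Mo k G := N.sub (LinearMap.range c) hinv with hP
  let i : P.V →ₗ[k] N.V := (LinearMap.range c).subtype
  have hiH : IsH P N i := fun g v => rfl
  have hi : ∀ x : P.V, i x ∈ LinearMap.range c := fun x => x.2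
  have hiinj : Function.Injective i := Subtype.val_injective
  let cr : N.V →ₗ[k] P.V := c.rangeRestrict
  have hcr : ∀ v, i (cr v) = c v := fun v => rfl
  have hcrH : IsH N P cr := by
    intro g v
    apply hiinj
    rw [hcr, hiH, hcr, hcH]
  let bP : P.V →ₗ[k] P.V := (b ∘ₗ i).codRestrict (LinearMap.range c) (by
    intro x
    obtain ⟨v, hv⟩ := hi x
    exact ⟨b v, by rw [LinearMap.comp_apply, ← hv, hbc]⟩)
  have hbP : ∀ x, i (bP x) = b (i x) := fun x => rfl
  have hbPinj : Function.Injective bP := by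
    rw [injective_iff_map_eq_zero]
    intro x hx
    apply hiinj
    rw [map_zero]
    apply hdisj _ (hi x)
    apply hcb
    rw [← hbP, hx, map_zero]
  have hcPinj : Function.Injective (cr ∘ₗ i) := by
    rw [injective_iff_map_eq_zero]
    intro x hx
    apply hiinj
    rw [map_zero]
    apply hdisj _ (hi x)
    rw [← hcr]
    have : cr (i x) = 0 := hx
    rw [this, map_zero]
  let eb : P.V ≃ₗ[k] P.V := LinearEquiv.ofInjectiveEndo bP hbPinj
  have heb : ∀ x, eb x = bP x := fun x => rfl
  let ec : P.V ≃ₗ[k] P.V := LinearEquiv.ofInjectiveEndo (cr ∘ₗ i) hcPinj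
  have hec : ∀ x, ec x = cr (i x) := fun x => rfl
  have hebH : IsH P P eb.toLinearMap := by
    intro g x
    apply hiinj
    change i (bP (P.ρ g x)) = i (P.ρ g (bP x))
    rw [hbP, hiH, hbH, hiH, hbP]
  have hecH : IsH P P ec.toLinearMap := by
    intro g x
    change cr (i (P.ρ g x)) = P.ρ g (cr (i x))
    rw [hiH, hcrH]
  have hebS := hebH.symm
  have hecS := hecH.symm
  let r : N.V →ₗ[k] P.V := ec.symm.toLinearMap ∘ₗ cr
  have hrH : IsH N P r := IsH.comp hecS hcrH
  have hri : r ∘ₗ i = LinearMap.id := by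
    apply LinearMap.ext
    intro x
    change ec.symm (cr (i x)) = x
    rw [← hec]
    exact ec.symm_apply_apply x
  refine ⟨P, ⟨(eb.symm.toLinearMap ∘ₗ r) ∘ₗ (θ ∘ₗ i), ?_⟩, ⟨i, r, hiH, hrH, hri⟩, ?_⟩
  · rw [trH_comp_l ⊤ (θ ∘ₗ i) (eb.symm.toLinearMap ∘ₗ r) (IsHOn_top.2 (IsH.comp hebS hrH)),
      trH_comp_r ⊤ θ i (IsHOn_top.2 hiH), ← hb]
    apply LinearMap.ext
    intro x
    change eb.symm (r (b (i x))) = x
    have h1 : r (b (i x)) = eb x := by
      rw [← hbP, heb]
      exact LinearMap.congr_fun hri (bP x)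
    rw [h1]
    exact eb.symm_apply_apply x
  · have h1 : finrank k P.V + finrank k (LinearMap.ker c) = finrank k N.V :=
      LinearMap.finrank_range_add_finrank_ker c
    have h2 : finrank k (LinearMap.ker c) ≤
        finrank k (LinearMap.range (LinearMap.id - b)) := by
      refine LinearMap.finrank_le_finrank_of_injective
        (f := (LinearMap.id - b).rangeRestrict ∘ₗ (LinearMap.ker c).subtype) ?_
      rw [injective_iff_map_eq_zero]
      intro x hx
      have h3 : (LinearMap.id - b : N.V →ₗ[k] N.V) (x : N.V) = 0 := congrArg Subtype.val hx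
      have h4 : b (x : N.V) = x := by
        have h5 : (x : N.V) - b x = 0 := h3
        exact (sub_eq_zero.1 h5).symm
      have h6 : c (x : N.V) = x := by
        have : ∀ n : ℕ, ((b : Module.End k N.V) ^ n) (x : N.V) = x := by
          intro n
          induction n with
          | zero => rfl
          | succ n ih =>
            rw [pow_succ]
            change ((b : Module.End k N.V) ^ n) (b (x : N.V)) = x
            rw [h4, ih]
        exact this m
      apply Subtype.ext
      rw [← h6]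
      exact x.2
    omega

/-- upper bound: there is a projective retract with small complement -/
theorem core_upper (S : Sylow p G) (N : Mo k G) :
    ∃ P : Mo k G, Proj P ∧ Retr P N ∧
      finrank k N.V - finrank k P.V ≤ (S : Subgroup G).index *
        cT (N.res (S : Subgroup G).subtype) := by
  classical
  set H : Subgroup G := (S : Subgroup G) with hH
  have : Fintype (G ⧸ H) := Fintype.ofFinite _
  obtain ⟨A', F, ⟨θF, hθF⟩, ⟨e0, he0⟩, hA', -⟩ :=
    split_free (p := p) S.isPGroup' (N.res H.subtype)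
  have he0s := he0.symm
  let π : (N.res H.subtype).V →ₗ[k] F.V := (LinearMap.snd k A'.V F.V) ∘ₗ e0.toLinearMap
  let ι : F.V →ₗ[k] (N.res H.subtype).V := e0.symm.toLinearMap ∘ₗ (LinearMap.inr k A'.V F.V)
  have hπ : IsH (N.res H.subtype) F π := by
    intro g v
    have := he0 g v
    change (e0 ((N.res H.subtype).ρ g v)).2 = F.ρ g (e0 v).2
    have h1 : e0 ((N.res H.subtype).ρ g v) = (A'.prod F).ρ g (e0 v) := this
    rw [h1]
    rfl
  have hι : IsH F (N.res H.subtype) ι := by
    intro g v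
    have := he0s g ((0 : A'.V), v)
    change e0.symm ((0 : A'.V), F.ρ g v) = (N.res H.subtype).ρ g (e0.symm ((0 : A'.V), v))
    have h1 : e0.symm ((A'.prod F).ρ g ((0 : A'.V), v)) =
      (N.res H.subtype).ρ g (e0.symm ((0 : A'.V), v)) := this
    rw [← h1]
    congr 1
    change _ = (A'.ρ g 0, F.ρ g v)
    rw [map_zero]
  set θ : N.V →ₗ[k] N.V := ι ∘ₗ (θF ∘ₗ π) with hθ
  obtain ⟨e', he'⟩ : ∃ e' : N.V →ₗ[k] N.V, e' = (ι ∘ₗ π : (N.res H.subtype).V →ₗ[k] _) := ⟨_, rfl⟩
  have htr : trH ⊤ (N.res H.subtype) (N.res H.subtype) θ = e' := by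
    rw [he']
    exact AE_tr_aux π ι hπ hι θF hθF
  -- the index is invertible
  have hidx : ((H.index : ℕ) : k) ≠ 0 := by
    intro h0
    rw [CharP.cast_eq_zero_iff k p] at h0
    exact S.not_dvd_index h0
  set c : k := ((H.index : ℕ) : k)⁻¹ with hc
  obtain ⟨P, hP, hPN, hle⟩ := AE_fit N (c • θ)
  refine ⟨P, hP, hPN, hle.trans ?_⟩
  have h1 : LinearMap.id - trH ⊤ N N (c • θ) =
      c • ∑ q : G ⧸ H, cj N N q.out (LinearMap.id - e') := by
    rw [trH_smul, AE_tr H θ, htr]
    have h2 : ∀ q : G ⧸ H, cj N N q.out (LinearMap.id - e') =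
        LinearMap.id - cj N N q.out e' := by
      intro q
      apply LinearMap.ext
      intro v
      change N.ρ q.out (N.ρ q.out⁻¹ v - e' (N.ρ q.out⁻¹ v)) =
        v - N.ρ q.out (e' (N.ρ q.out⁻¹ v))
      rw [map_sub]
      congr 1
      rw [← Module.End.mul_apply, ← map_mul, mul_inv_cancel, map_one]
      rfl
    rw [Finset.sum_congr rfl fun q _ => h2 q, Finset.sum_sub_distrib, smul_sub, Finset.sum_const,
      Finset.card_univ, ← Nat.card_eq_fintype_card, ← Subgroup.index]
    congr 1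
    rw [← Nat.cast_smul_eq_nsmul k, smul_smul, hc, inv_mul_cancel₀ hidx, one_smul]
  rw [h1]
  have h3 : finrank k (LinearMap.range (c • ∑ q : G ⧸ H, cj N N q.out (LinearMap.id - e'))) ≤
      finrank k (LinearMap.range (∑ q : G ⧸ H, cj N N q.out (LinearMap.id - e'))) := by
    apply Submodule.finrank_mono
    rintro _ ⟨v, rfl⟩
    exact ⟨c • v, by rw [map_smul]; rfl⟩
  refine h3.trans ?_
  have h4 : finrank k (LinearMap.range (LinearMap.id - e' : N.V →ₗ[k] N.V)) ≤
      cT (N.res H.subtype) := by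
    rw [← hA']
    rw [he']
    exact AE_range_aux e0
  have h7 : ∀ q : G ⧸ H, finrank k (LinearMap.range (cj N N q.out (LinearMap.id - e'))) ≤
      cT (N.res H.subtype) := fun q => (AE_rank_cj N q.out (LinearMap.id - e')).trans h4
  have h8 := AE_rank_sum (k := k) (Finset.univ : Finset (G ⧸ H))
    (fun q => cj N N q.out (LinearMap.id - e')) (cT (N.res H.subtype))
    (fun q _ => h7 q)
  refine h8.trans (le_of_eq ?_)
  rw [Finset.card_univ, ← Nat.card_eq_fintype_card]
  rfl

end Pool.Agent.GamI
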