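import Pool.Agent.GamI.AD
import Pool.Agent.GamI.AE

/-! # AF: the frozen sequence -/

set_option autoImplicit false

open scoped TensorProduct
open Module CategoryTheory MonoidalCategory

noncomputable section

namespace Pool.Agent.GamI

variable {p : ℕ} [Fact p.Prime] {k : Type} [Field k] [CharP k p] {G : Type} [Group G] [Finite G]

/-- the frozen sequence, for `FDRep` -/
def coreDim (M : FDRep k G) (n : ℕ) : ℕ :=
  sInf {d : ℕ | ∃ P : FDRep k G, Projective P ∧
          ∃ (i : P ⟶ (fun X : FDRep k G => X ⊗ M)^[n] (𝟙_ (FDRep k G)))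
            (r : (fun X : FDRep k G => X ⊗ M)^[n] (𝟙_ (FDRep k G)) ⟶ P),
            i ≫ r = 𝟙 P ∧
            d = Module.finrank k ((fun X : FDRep k G => X ⊗ M)^[n] (𝟙_ (FDRep k G)))
                - Module.finrank k P}

/-- restriction of isomorphisms -/
lemma AF_iso_res {k : Type} [Field k] {G H : Type} [Group G] [Group H] {A B : Mo k G}
    (h : Iso A B) (j : H →* G) : Iso (A.res j) (B.res j) := by
  obtain ⟨e, he⟩ := h
  exact ⟨e, fun g v => he (j g) v⟩

/-- the core dimension of the restriction of the tensor power -/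
lemma AF_cT (S : Sylow p G) (M : FDRep k G) (n : ℕ) :
    cT ((ofFD ((fun X : FDRep k G => X ⊗ M)^[n] (𝟙_ (FDRep k G)))).res
      (S : Subgroup G).subtype) =
    cT (Tn ((ofFD M).res (S : Subgroup G).subtype) n (triv k (S : Subgroup G))) := by
  rw [ofFD_iter, Tn_res]
  apply cT_iso
  exact Tn_iso _ n (AF_iso_res (ofFD_unit (k := k) (G := G)) (S : Subgroup G).subtype)

lemma AF_nonempty (S : Sylow p G) (M : FDRep k G) (n : ℕ) :
    ∃ d ∈ {d : ℕ | ∃ P : FDRep k G, Projective P ∧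
          ∃ (i : P ⟶ (fun X : FDRep k G => X ⊗ M)^[n] (𝟙_ (FDRep k G)))
            (r : (fun X : FDRep k G => X ⊗ M)^[n] (𝟙_ (FDRep k G)) ⟶ P),
            i ≫ r = 𝟙 P ∧
            d = Module.finrank k ((fun X : FDRep k G => X ⊗ M)^[n] (𝟙_ (FDRep k G)))
                - Module.finrank k P},
      d ≤ (S : Subgroup G).index *
      cT (Tn ((ofFD M).res (S : Subgroup G).subtype) n (triv k (S : Subgroup G))) := by
  obtain ⟨P, hP, hR, hd⟩ := core_upper S
    (ofFD ((fun X : FDRep k G => X ⊗ M)^[n] (𝟙_ (FDRep k G))))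
  rw [AF_cT] at hd
  obtain ⟨X, rfl⟩ := exists_fd P
  obtain ⟨i, r, hir⟩ := (fd_retr_iff X _).2 hR
  exact ⟨_, ⟨X, (projective_iff X).2 hP, i, r, hir, rfl⟩, hd⟩

theorem coreDim_bounds (S : Sylow p G) (M : FDRep k G) (n : ℕ) :
    cT (Tn ((ofFD M).res (S : Subgroup G).subtype) n (triv k (S : Subgroup G))) ≤ coreDim M n ∧
    coreDim M n ≤ (S : Subgroup G).index *
      cT (Tn ((ofFD M).res (S : Subgroup G).subtype) n (triv k (S : Subgroup G))) := by
  obtain ⟨d, hd, hd'⟩ := AF_nonempty S M n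
  constructor
  · unfold coreDim
    apply le_csInf ⟨d, hd⟩
    rintro e ⟨P, hP, i, r, hir, rfl⟩
    rw [← AF_cT]
    exact core_lower S _ (ofFD P) ((projective_iff P).1 hP) ((fd_retr_iff P _).1 ⟨i, r, hir⟩)
  · unfold coreDim
    exact le_trans (Nat.sInf_le hd) hd'

/-- the limsup is `0` or the growth rate over the Sylow subgroup -/
theorem limsup_coreDim (S : Sylow p G) (M : FDRep k G) (γ : ℝ) (hγ : 1 ≤ γ)
    (h1 : ∀ n, γ ^ n ≤ cT (Tn ((ofFD M).res (S : Subgroup G).subtype) n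
      (triv k (S : Subgroup G))))
    (h2 : Filter.Tendsto (fun n : ℕ => (cT (Tn ((ofFD M).res (S : Subgroup G).subtype) n
      (triv k (S : Subgroup G))) : ℝ) ^ ((1 : ℝ) / (n : ℝ))) Filter.atTop (nhds γ)) :
    Filter.limsup (fun n : ℕ => (coreDim M n : ℝ) ^ ((1 : ℝ) / (n : ℝ))) Filter.atTop = γ := by
  apply Filter.Tendsto.limsup_eq
  have hI : 0 < (((S : Subgroup G).index : ℕ) : ℝ) := by
    have : (S : Subgroup G).index ≠ 0 := Subgroup.index_ne_zero_of_finite
    exact_mod_cast Nat.pos_of_ne_zero this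
  have h3 : Filter.Tendsto (fun n : ℕ => (((S : Subgroup G).index : ℕ) : ℝ) ^
      ((1 : ℝ) / (n : ℝ))) Filter.atTop (nhds 1) := by
    have h4 : Filter.Tendsto (fun n : ℕ => (1 : ℝ) / (n : ℝ)) Filter.atTop (nhds 0) :=
      tendsto_one_div_atTop_nhds_zero_nat
    have h5 := (Real.continuous_const_rpow hI.ne').tendsto (0 : ℝ)
    rw [Real.rpow_zero] at h5
    exact h5.comp h4
  have h6 := h3.mul h2
  rw [one_mul] at h6
  refine tendsto_of_tendsto_of_tendsto_of_le_of_le h2 h6 ?_ ?_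
  · intro n
    apply Real.rpow_le_rpow (Nat.cast_nonneg _) _ (by positivity)
    exact_mod_cast (coreDim_bounds S M n).1
  · intro n
    show _ ≤ (((S : Subgroup G).index : ℕ) : ℝ) ^ ((1 : ℝ) / (n : ℝ)) * _
    rw [← Real.mul_rpow hI.le (Nat.cast_nonneg _)]
    apply Real.rpow_le_rpow (Nat.cast_nonneg _) _ (by positivity)
    exact_mod_cast (coreDim_bounds S M n).2

theorem limsup_coreDim_zero (S : Sylow p G) (M : FDRep k G)
    (h : ∃ n₀, ∀ n, n₀ ≤ n → cT (Tn ((ofFD M).res (S : Subgroup G).subtype) n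
      (triv k (S : Subgroup G))) = 0) :
    Filter.limsup (fun n : ℕ => (coreDim M n : ℝ) ^ ((1 : ℝ) / (n : ℝ))) Filter.atTop = 0 := by
  obtain ⟨n₀, hn₀⟩ := h
  apply Filter.Tendsto.limsup_eq
  apply tendsto_const_nhds.congr'
  filter_upwards [Filter.eventually_ge_atTop (max n₀ 1)] with n hn
  have h1 : n₀ ≤ n := le_trans (le_max_left _ _) hn
  have h2 : 1 ≤ n := le_trans (le_max_right _ _) hn
  have h3 : coreDim M n = 0 := by
    have := (coreDim_bounds S M n).2
    rw [hn₀ n h1, mul_zero] at this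
    exact Nat.le_zero.1 this
  rw [h3, Nat.cast_zero, Real.zero_rpow]
  positivity

end Pool.Agent.GamI
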