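import Pool.Agent.GamI.AP

/-! # AG: growth of the cores of tensor powers -/

set_option autoImplicit false

open scoped TensorProduct
open Module

noncomputable section

namespace Pool.Agent.GamI

variable {p : ℕ} [Fact p.Prime] {k : Type} [Field k] [CharP k p] {G : Type} [Group G] [Finite G]

lemma AG_mul (hG : IsPGroup p G) (M : Mo k G) (m n : ℕ) :
    cT (Tn M (m + n) (triv k G)) ≤ cT (Tn M m (triv k G)) * cT (Tn M n (triv k G)) := by
  rw [Tn_add]
  exact cT_Tn' hG M n (Tn M m (triv k G))

/-- growth of `cT (M^{⊗ n})` -/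
theorem growth (hG : IsPGroup p G) (M : Mo k G) :
    (∃ n₀, ∀ n, n₀ ≤ n → cT (Tn M n (triv k G)) = 0) ∨
    (∃ γ : ℝ, 1 ≤ γ ∧ (∀ n, γ ^ n ≤ cT (Tn M n (triv k G))) ∧
      Filter.Tendsto (fun n : ℕ => (cT (Tn M n (triv k G)) : ℝ) ^ ((1 : ℝ) / (n : ℝ)))
        Filter.atTop (nhds γ)) := by
  by_cases h0 : ∃ n₀, cT (Tn M n₀ (triv k G)) = 0
  · left
    obtain ⟨n₀, h0⟩ := h0
    refine ⟨n₀, fun n hn => ?_⟩
    have h1 := AG_mul hG M n₀ (n - n₀)
    rw [h0, zero_mul, Nat.add_sub_cancel' hn] at h1
    omega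
  · right
    push Not at h0
    have hpos : ∀ n, (1 : ℝ) ≤ (cT (Tn M n (triv k G)) : ℝ) := fun n => by
      exact_mod_cast Nat.one_le_iff_ne_zero.mpr (h0 n)
    have hsub : Subadditive fun n => Real.log (cT (Tn M n (triv k G)) : ℝ) := by
      intro m n
      have h1 : (cT (Tn M (m + n) (triv k G)) : ℝ) ≤
          (cT (Tn M m (triv k G)) : ℝ) * (cT (Tn M n (triv k G)) : ℝ) := by
        exact_mod_cast AG_mul hG M m n
      have hm := hpos m
      have hn := hpos n
      have hmn := hpos (m + n)
      rw [← Real.log_mul (by positivity) (by positivity)]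
      exact Real.log_le_log (by linarith) h1
    have hnn : ∀ n : ℕ, 0 ≤ Real.log (cT (Tn M n (triv k G)) : ℝ) / n := fun n =>
      div_nonneg (Real.log_nonneg (hpos n)) (Nat.cast_nonneg n)
    have hbdd : BddBelow (Set.range fun n : ℕ =>
        Real.log (cT (Tn M n (triv k G)) : ℝ) / n) := by
      refine ⟨0, ?_⟩
      rintro _ ⟨n, rfl⟩
      exact hnn n
    have hlim := hsub.tendsto_lim hbdd
    refine ⟨Real.exp hsub.lim, ?_, ?_, ?_⟩
    · rw [Real.one_le_exp_iff]
      exact ge_of_tendsto' hlim hnn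
    · intro n
      rcases Nat.eq_zero_or_pos n with rfl | hn
      · rw [pow_zero]
        exact hpos 0
      · have h1 := hsub.lim_le_div hbdd hn.ne'
        have hn' : (0 : ℝ) < n := by exact_mod_cast hn
        rw [le_div_iff₀ hn'] at h1
        have h2 := hpos n
        rw [← Real.exp_nat_mul]
        calc Real.exp ((n : ℝ) * hsub.lim) ≤
              Real.exp (Real.log (cT (Tn M n (triv k G)) : ℝ)) := by
              apply Real.exp_le_exp.mpr
              rw [mul_comm]
              exact h1
          _ = _ := Real.exp_log (by linarith)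
    · have h1 : Filter.Tendsto (fun n : ℕ =>
          Real.exp (Real.log (cT (Tn M n (triv k G)) : ℝ) / n)) Filter.atTop
          (nhds (Real.exp hsub.lim)) := (Real.continuous_exp.tendsto _).comp hlim
      refine h1.congr fun n => ?_
      have h2 := hpos n
      rw [Real.rpow_def_of_pos (by linarith)]
      congr 1
      ring

end Pool.Agent.GamI
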