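import Mathlib

/-! # AL: a generalised limit (Abel means along an ultrafilter) -/

set_option autoImplicit false

noncomputable section

namespace Pool.Agent.GamI

/-- sequences dominated by `D` -/
def Dom (D r : ℕ → ℝ) : Prop := ∃ c : ℝ, ∀ n, |r n| ≤ c * D n

open Filter Topology

theorem exists_genlim (D : ℕ → ℝ) (γ : ℝ) (hγ : 1 ≤ γ) (hD : ∀ n, 0 ≤ D n)
    (hlow : ∃ c > 0, ∀ n, c * γ ^ n ≤ D n)
    (hup : ∀ t : ℝ, 0 < t → t * γ < 1 → Summable fun n => t ^ n * D n) :
    ∃ L : (ℕ → ℝ) → ℝ,
      (∀ r r', Dom D r → Dom D r' → L (fun n => r n + r' n) = L r + L r') ∧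
      (∀ (c : ℝ) r, Dom D r → L (fun n => c * r n) = c * L r) ∧
      (∀ r r', Dom D r → Dom D r' → (∀ n, r n ≤ r' n) → L r ≤ L r') ∧
      (∀ r, Dom D r → Dom D (fun n => r (n + 1)) → L (fun n => r (n + 1)) = γ * L r) ∧
      L D = 1 := by
  have hγ0 : 0 < γ := lt_of_lt_of_le one_pos hγ
  obtain ⟨c, hc, hlow⟩ := hlow
  set t : ℕ → ℝ := fun m => (1 - 1 / ((m : ℝ) + 2)) / γ with ht
  have hm2 : ∀ m : ℕ, (0 : ℝ) < (m : ℝ) + 2 := fun m => by positivity
  have hfrac : ∀ m : ℕ, 1 / ((m : ℝ) + 2) ≤ 1 / 2 := fun m => by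
    apply one_div_le_one_div_of_le (by norm_num)
    have : (0 : ℝ) ≤ m := Nat.cast_nonneg m
    linarith
  have htpos : ∀ m, 0 < t m := by
    intro m
    apply div_pos _ hγ0
    have := hfrac m
    linarith
  have htγ : ∀ m, t m * γ = 1 - 1 / ((m : ℝ) + 2) := fun m => div_mul_cancel₀ _ hγ0.ne'
  have htlt : ∀ m, t m * γ < 1 := by
    intro m
    rw [htγ]
    have : 0 < 1 / ((m : ℝ) + 2) := one_div_pos.2 (hm2 m)
    linarith
  have hsumD : ∀ m, Summable fun n => t m ^ n * D n := fun m => hup _ (htpos m) (htlt m)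
  set Den : ℕ → ℝ := fun m => ∑' n, t m ^ n * D n with hDen
  have hDenlow : ∀ m : ℕ, c * ((m : ℝ) + 2) ≤ Den m := by
    intro m
    have h1 : Summable fun n : ℕ => c * (t m * γ) ^ n := by
      apply Summable.mul_left
      exact summable_geometric_of_lt_one (mul_pos (htpos m) hγ0).le (htlt m)
    have h2 : ∑' n : ℕ, c * (t m * γ) ^ n = c * ((m : ℝ) + 2) := by
      rw [tsum_mul_left, tsum_geometric_of_lt_one (mul_pos (htpos m) hγ0).le (htlt m), htγ]
      have := (hm2 m).ne'
      field_simp
      ring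
    rw [← h2]
    apply h1.tsum_le_tsum _ (hsumD m)
    intro n
    rw [mul_pow]
    have := hlow n
    have h3 : 0 ≤ t m ^ n := pow_nonneg (htpos m).le n
    nlinarith
  have hDenpos : ∀ m, 0 < Den m := fun m =>
    lt_of_lt_of_le (mul_pos hc (hm2 m)) (hDenlow m)
  have hsum : ∀ r, Dom D r → ∀ m, Summable fun n => t m ^ n * r n := by
    rintro r ⟨C, hC⟩ m
    apply Summable.of_norm_bounded ((hsumD m).mul_left C)
    intro n
    rw [Real.norm_eq_abs, abs_mul, abs_of_nonneg (pow_nonneg (htpos m).le n)]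
    have h3 : 0 ≤ t m ^ n := pow_nonneg (htpos m).le n
    calc t m ^ n * |r n| ≤ t m ^ n * (C * D n) := mul_le_mul_of_nonneg_left (hC n) h3
      _ = C * (t m ^ n * D n) := by ring
  set q : (ℕ → ℝ) → ℕ → ℝ := fun r m => (∑' n, t m ^ n * r n) / Den m with hq
  set F : Filter ℕ := (hyperfilter ℕ : Filter ℕ) with hF
  have hlim : ∀ r, Dom D r → Tendsto (q r) F (𝓝 (limUnder F (q r))) := by
    rintro r ⟨C, hC⟩
    have hb : ∀ m, q r m ∈ Set.Icc (-C) C := by
      intro m
      have h1 := hsum r ⟨C, hC⟩ m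
      have h2 : |∑' n, t m ^ n * r n| ≤ C * Den m := by
        rw [← tsum_mul_left]
        have h3 := norm_tsum_le_tsum_norm h1.norm
        rw [Real.norm_eq_abs] at h3
        refine h3.trans (h1.norm.tsum_le_tsum (fun n => ?_) ((hsumD m).mul_left C))
        rw [Real.norm_eq_abs, abs_mul, abs_of_nonneg (pow_nonneg (htpos m).le n)]
        have h3 : 0 ≤ t m ^ n := pow_nonneg (htpos m).le n
        calc t m ^ n * |r n| ≤ t m ^ n * (C * D n) := mul_le_mul_of_nonneg_left (hC n) h3
          _ = C * (t m ^ n * D n) := by ring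
      rw [Set.mem_Icc, ← abs_le]
      change |(∑' n, t m ^ n * r n) / Den m| ≤ C
      rw [abs_div, abs_of_pos (hDenpos m), div_le_iff₀ (hDenpos m)]
      exact h2
    obtain ⟨x, -, hx⟩ := (isCompact_Icc (a := -C) (b := C)).ultrafilter_le_nhds
      ((hyperfilter ℕ).map (q r)) (by
        rw [le_principal_iff, Ultrafilter.mem_coe, Ultrafilter.mem_map]
        exact Filter.Eventually.of_forall hb)
    exact tendsto_nhds_limUnder ⟨x, hx⟩
  have hFat : F ≤ atTop := by
    rw [← Nat.cofinite_eq_atTop]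
    exact hyperfilter_le_cofinite
  have hDenT : Tendsto Den atTop atTop := by
    apply tendsto_atTop_mono hDenlow
    apply Tendsto.const_mul_atTop hc
    exact tendsto_atTop_add_const_right _ _ tendsto_natCast_atTop_atTop
  have htT : Tendsto t atTop (𝓝 (1 / γ)) := by
    have h1 : Tendsto (fun m : ℕ => 1 / ((m : ℝ) + 2)) atTop (𝓝 0) := by
      apply Tendsto.const_div_atTop
      exact tendsto_atTop_add_const_right _ _ tendsto_natCast_atTop_atTop
    have h2 : Tendsto (fun m : ℕ => (1 - 1 / ((m : ℝ) + 2)) / γ) atTop (𝓝 ((1 - 0) / γ)) :=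
      (tendsto_const_nhds.sub h1).div_const γ
    rw [sub_zero] at h2
    exact h2
  refine ⟨fun r => limUnder F (q r), ?_, ?_, ?_, ?_, ?_⟩
  · intro r r' hr hr'
    have h1 : q (fun n => r n + r' n) = fun m => q r m + q r' m := by
      funext m
      change (∑' n, t m ^ n * (r n + r' n)) / Den m =
        (∑' n, t m ^ n * r n) / Den m + (∑' n, t m ^ n * r' n) / Den m
      rw [← add_div, ← (hsum r hr m).tsum_add (hsum r' hr' m)]
      congr 2
      funext n
      ring
    change limUnder F (q (fun n => r n + r' n)) = _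
    rw [h1]
    exact ((hlim r hr).add (hlim r' hr')).limUnder_eq
  · intro a r hr
    have h1 : q (fun n => a * r n) = fun m => a * q r m := by
      funext m
      change (∑' n, t m ^ n * (a * r n)) / Den m = a * ((∑' n, t m ^ n * r n) / Den m)
      rw [← mul_div_assoc, ← tsum_mul_left]
      congr 2
      funext n
      ring
    change limUnder F (q (fun n => a * r n)) = _
    rw [h1]
    exact ((hlim r hr).const_mul a).limUnder_eq
  · intro r r' hr hr' hle
    refine le_of_tendsto_of_tendsto' (hlim r hr) (hlim r' hr') fun m => ?_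
    apply div_le_div_of_nonneg_right _ (hDenpos m).le
    apply (hsum r hr m).tsum_le_tsum _ (hsum r' hr' m)
    intro n
    exact mul_le_mul_of_nonneg_left (hle n) (pow_nonneg (htpos m).le n)
  · intro r hr hr'
    have h1 : q (fun n => r (n + 1)) = fun m => (q r m - r 0 / Den m) / t m := by
      funext m
      change (∑' n, t m ^ n * r (n + 1)) / Den m =
        ((∑' n, t m ^ n * r n) / Den m - r 0 / Den m) / t m
      have h2 := (hsum r hr m).tsum_eq_zero_add
      rw [h2, ← sub_div, div_right_comm]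
      congr 1
      have h3 : ∑' n : ℕ, t m ^ (n + 1) * r (n + 1) = t m * ∑' n : ℕ, t m ^ n * r (n + 1) := by
        rw [← tsum_mul_left]
        congr 1
        funext n
        ring
      rw [h3]
      have := (htpos m).ne'
      field_simp
      ring
    change limUnder F (q (fun n => r (n + 1))) = _
    rw [h1]
    have h4 : Tendsto (fun m => r 0 / Den m) F (𝓝 0) :=
      (Tendsto.const_div_atTop hDenT (r 0)).mono_left hFat
    have h5 := ((hlim r hr).sub h4).div (htT.mono_left hFat) (one_div_ne_zero hγ0.ne')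
    have h6 : (limUnder F (q r) - 0) / (1 / γ) = γ * limUnder F (q r) := by
      rw [sub_zero, one_div, div_inv_eq_mul, mul_comm]
    rw [h6] at h5
    exact h5.limUnder_eq
  · have h1 : q D = fun _ => (1 : ℝ) := by
      funext m
      exact div_self (hDenpos m).ne'
    change limUnder F (q D) = 1
    rw [h1]
    exact (tendsto_const_nhds (x := (1 : ℝ)) (f := F)).limUnder_eq

end Pool.Agent.GamI
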