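import Pool.Agent.GamI.Defs

/-! # TE: tensor products, isomorphisms, retracts, short exact sequences -/

set_option autoImplicit false

open scoped TensorProduct
open Module

noncomputable section

namespace Pool.Agent.GamI

variable {k : Type} [Field k] {G : Type} [Group G]
variable {A A' B B' C C' D : Mo k G}

lemma IsH.id (A : Mo k G) : IsH A A LinearMap.id := fun _ _ => rfl

lemma IsH.zero (A B : Mo k G) : IsH A B 0 := fun g v => by simp

lemma IsH.comp {f : A.V →ₗ[k] B.V} {g : B.V →ₗ[k] C.V} (hg : IsH B C g) (hf : IsH A B f) :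
    IsH A C (g ∘ₗ f) := fun x v => by
  rw [LinearMap.comp_apply, LinearMap.comp_apply, hf, hg]

lemma IsH.add {f g : A.V →ₗ[k] B.V} (hf : IsH A B f) (hg : IsH A B g) : IsH A B (f + g) :=
  fun x v => by
  rw [LinearMap.add_apply, LinearMap.add_apply, hf, hg, map_add]

lemma IsH.sub {f g : A.V →ₗ[k] B.V} (hf : IsH A B f) (hg : IsH A B g) : IsH A B (f - g) :=
  fun x v => by
  rw [LinearMap.sub_apply, LinearMap.sub_apply, hf, hg, map_sub]

lemma IsH.neg {f : A.V →ₗ[k] B.V} (hf : IsH A B f) : IsH A B (-f) := fun x v => by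
  rw [LinearMap.neg_apply, LinearMap.neg_apply, hf, map_neg]

lemma IsH.smul {f : A.V →ₗ[k] B.V} (c : k) (hf : IsH A B f) : IsH A B (c • f) := fun x v => by
  rw [LinearMap.smul_apply, LinearMap.smul_apply, hf, map_smul]

lemma IsH.symm {e : A.V ≃ₗ[k] B.V} (h : IsH A B e.toLinearMap) : IsH B A e.symm.toLinearMap :=
  fun x v => by
  apply e.injective
  have h1 := h x (e.symm v)
  simp only [LinearEquiv.coe_coe] at h1 ⊢
  rw [h1, LinearEquiv.apply_symm_apply, LinearEquiv.apply_symm_apply]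

lemma IsH.prodMap {f : A.V →ₗ[k] B.V} {g : C.V →ₗ[k] D.V} (hf : IsH A B f) (hg : IsH C D g) :
    IsH (A.prod C) (B.prod D) (f.prodMap g) := fun x v => by
  exact Prod.ext (hf x v.1) (hg x v.2)

lemma TE_isH_of_comp {f : A.V →ₗ[k] B.V} (h : ∀ g, f ∘ₗ A.ρ g = B.ρ g ∘ₗ f) : IsH A B f :=
  fun g v => LinearMap.congr_fun (h g) v

lemma IsH.TE_comp {f : A.V →ₗ[k] B.V} (h : IsH A B f) (g : G) : f ∘ₗ A.ρ g = B.ρ g ∘ₗ f :=
  LinearMap.ext fun v => h g v

lemma IsH.map {f : A.V →ₗ[k] A'.V} {g : B.V →ₗ[k] B'.V} (hf : IsH A A' f) (hg : IsH B B' g) :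
    IsH (A.tens B) (A'.tens B') (TensorProduct.map f g) := by
  apply TE_isH_of_comp
  intro x
  show TensorProduct.map f g ∘ₗ TensorProduct.map (A.ρ x) (B.ρ x) =
    TensorProduct.map (A'.ρ x) (B'.ρ x) ∘ₗ TensorProduct.map f g
  rw [← TensorProduct.map_comp, ← TensorProduct.map_comp, hf.TE_comp, hg.TE_comp]

lemma IsH.rT {f : A.V →ₗ[k] B.V} (hf : IsH A B f) (C : Mo k G) :
    IsH (A.tens C) (B.tens C) (f.rTensor C.V) := hf.map (IsH.id C)

lemma IsH.lT {f : A.V →ₗ[k] B.V} (hf : IsH A B f) (C : Mo k G) :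
    IsH (C.tens A) (C.tens B) (f.lTensor C.V) := (IsH.id C).map hf

lemma IsH.res {H : Type} [Group H] (j : H →* G) {f : A.V →ₗ[k] B.V} (hf : IsH A B f) :
    IsH (A.res j) (B.res j) f := fun x v => hf (j x) v

lemma cj_isH {g : G} {f : A.V →ₗ[k] B.V} (hf : IsH A B f) : cj A B g f = f := by
  ext v
  show B.ρ g (f (A.ρ g⁻¹ v)) = f v
  rw [← hf]
  simp

lemma isH_iff_cj {f : A.V →ₗ[k] B.V} : IsH A B f ↔ ∀ g, cj A B g f = f := by
  constructor
  · intro h g
    exact cj_isH h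
  · intro h g v
    have h1 := LinearMap.congr_fun (h g) (A.ρ g v)
    rw [← h1]
    show B.ρ g (f (A.ρ g⁻¹ (A.ρ g v))) = _
    simp

lemma Iso.refl (A : Mo k G) : Iso A A := ⟨LinearEquiv.refl k A.V, fun _ _ => rfl⟩

lemma Iso.symm (h : Iso A B) : Iso B A := by
  obtain ⟨e, he⟩ := h
  exact ⟨e.symm, he.symm⟩

lemma Iso.trans (h : Iso A B) (h' : Iso B C) : Iso A C := by
  obtain ⟨e, he⟩ := h
  obtain ⟨e', he'⟩ := h'
  refine ⟨e.trans e', ?_⟩
  rw [LinearEquiv.coe_trans]
  exact he'.comp he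

lemma Iso.tens (h : Iso A A') (h' : Iso B B') : Iso (A.tens B) (A'.tens B') := by
  obtain ⟨e, he⟩ := h
  obtain ⟨e', he'⟩ := h'
  exact ⟨TensorProduct.congr e e', he.map he'⟩

lemma Iso.prod (h : Iso A A') (h' : Iso B B') : Iso (A.prod B) (A'.prod B') := by
  obtain ⟨e, he⟩ := h
  obtain ⟨e', he'⟩ := h'
  exact ⟨e.prodCongr e', fun x v => Prod.ext (he x v.1) (he' x v.2)⟩

lemma Iso.res {H : Type} [Group H] (j : H →* G) (h : Iso A B) : Iso (A.res j) (B.res j) := by
  obtain ⟨e, he⟩ := h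
  exact ⟨e, he.res j⟩

lemma Iso.finrank (h : Iso A B) : finrank k A.V = finrank k B.V := by
  obtain ⟨e, -⟩ := h
  exact e.finrank_eq

lemma iso_of_bij (f : A.V →ₗ[k] B.V) (hf : IsH A B f) (h : Function.Bijective f) : Iso A B :=
  ⟨LinearEquiv.ofBijective f h, hf⟩

lemma iso_assoc (A B C : Mo k G) : Iso ((A.tens B).tens C) (A.tens (B.tens C)) := by
  refine ⟨TensorProduct.assoc k A.V B.V C.V, TE_isH_of_comp fun x => ?_⟩
  apply TensorProduct.ext_threefold
  intro a b c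
  rfl

lemma iso_comm (A B : Mo k G) : Iso (A.tens B) (B.tens A) := by
  refine ⟨TensorProduct.comm k A.V B.V, TE_isH_of_comp fun x => ?_⟩
  apply TensorProduct.ext'
  intro a b
  rfl

lemma iso_triv_tens (A : Mo k G) : Iso ((triv k G).tens A) A := by
  refine ⟨TensorProduct.lid k A.V, TE_isH_of_comp fun x => ?_⟩
  apply TensorProduct.ext'
  intro a b
  show a • (A.ρ x b) = A.ρ x (a • b)
  rw [map_smul]

lemma iso_tens_triv (A : Mo k G) : Iso (A.tens (triv k G)) A :=
  (iso_comm A (triv k G)).trans (iso_triv_tens A)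

lemma iso_prod_comm (A B : Mo k G) : Iso (A.prod B) (B.prod A) :=
  ⟨LinearEquiv.prodComm k A.V B.V, fun _ _ => rfl⟩

lemma iso_prod_tens (A B C : Mo k G) :
    Iso ((A.prod B).tens C) ((A.tens C).prod (B.tens C)) := by
  refine ⟨TensorProduct.prodLeft k k A.V B.V C.V, TE_isH_of_comp fun x => ?_⟩
  apply TensorProduct.ext'
  rintro ⟨a, b⟩ c
  rfl

lemma iso_tens_prod (A B C : Mo k G) :
    Iso (A.tens (B.prod C)) ((A.tens B).prod (A.tens C)) :=
  (iso_comm A (B.prod C)).trans ((iso_prod_tens B C A).trans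
    ((iso_comm B A).prod (iso_comm C A)))

/-- `Hom(A,B) ≅ A* ⊗ B` -/
lemma iso_hom (A B : Mo k G) : Iso (A.hom B) ((A.hom (triv k G)).tens B) := by
  apply Iso.symm
  refine ⟨dualTensorHomEquiv k A.V B.V, TE_isH_of_comp fun x => ?_⟩
  apply TensorProduct.ext'
  intro φ b
  change A.V →ₗ[k] k at φ
  refine (LinearMap.ext fun a => ?_ : (_ : A.V →ₗ[k] B.V) = _)
  show (φ (A.ρ x⁻¹ a)) • (B.ρ x b) = B.ρ x (φ (A.ρ x⁻¹ a) • b)
  rw [map_smul]

lemma res_tens {H : Type} [Group H] (j : H →* G) (A B : Mo k G) :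
    (A.tens B).res j = (A.res j).tens (B.res j) := rfl

lemma res_triv {H : Type} [Group H] (j : H →* G) : (triv k G).res j = triv k H := rfl

lemma Iso.retr (h : Iso A B) : Retr A B := by
  obtain ⟨e, he⟩ := h
  refine ⟨e.toLinearMap, e.symm.toLinearMap, he, he.symm, ?_⟩
  ext v
  simp

lemma Retr.refl (A : Mo k G) : Retr A A := (Iso.refl A).retr

lemma Retr.trans (h : Retr A B) (h' : Retr B C) : Retr A C := by
  obtain ⟨i, r, hi, hr, h1⟩ := h
  obtain ⟨i', r', hi', hr', h2⟩ := h'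
  refine ⟨i' ∘ₗ i, r ∘ₗ r', hi'.comp hi, hr.comp hr', LinearMap.ext fun v => ?_⟩
  show r (r' (i' (i v))) = v
  have h3 : r' (i' (i v)) = i v := LinearMap.congr_fun h2 (i v)
  have h4 : r (i v) = v := LinearMap.congr_fun h1 v
  rw [h3, h4]

lemma Retr.tens (h : Retr A A') (h' : Retr B B') : Retr (A.tens B) (A'.tens B') := by
  obtain ⟨i, r, hi, hr, h1⟩ := h
  obtain ⟨i', r', hi', hr', h2⟩ := h'
  refine ⟨TensorProduct.map i i', TensorProduct.map r r', hi.map hi', hr.map hr', ?_⟩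
  show TensorProduct.map r r' ∘ₗ TensorProduct.map i i' = LinearMap.id
  rw [← TensorProduct.map_comp, h1, h2, TensorProduct.map_id]

lemma retr_prod_left (A B : Mo k G) : Retr A (A.prod B) :=
  ⟨LinearMap.inl k A.V B.V, LinearMap.fst k A.V B.V,
    fun x v => Prod.ext rfl (by show (0 : B.V) = B.ρ x 0; simp), fun _ _ => rfl, by ext v; rfl⟩

lemma retr_prod_right (A B : Mo k G) : Retr B (A.prod B) :=
  ⟨LinearMap.inr k A.V B.V, LinearMap.snd k A.V B.V,
    fun x v => Prod.ext (by show (0 : A.V) = A.ρ x 0; simp) rfl, fun _ _ => rfl, by ext v; rfl⟩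

/-- a retract is a direct summand -/
lemma Retr.compl (h : Retr A B) : ∃ C : Mo k G, Iso B (A.prod C) := by
  obtain ⟨i, r, hi, hr, h1⟩ := h
  have h1' : ∀ v, r (i v) = v := fun v => LinearMap.congr_fun h1 v
  have hinv : ∀ g, LinearMap.ker r ≤ (LinearMap.ker r).comap (B.ρ g) := by
    intro g v hv
    rw [Submodule.mem_comap, LinearMap.mem_ker, hr, LinearMap.mem_ker.1 hv, map_zero]
  have hinj : Function.Injective (LinearMap.coprod i (LinearMap.ker r).subtype) := by
    rw [← LinearMap.ker_eq_bot, LinearMap.ker_eq_bot']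
    rintro ⟨v, w⟩ hvw
    have h2 : i v + (w : B.V) = 0 := by simpa using hvw
    have h3 : v = 0 := by
      have := congrArg r h2
      rw [map_add, h1', LinearMap.mem_ker.1 w.2, add_zero, map_zero] at this
      exact this
    subst h3
    rw [map_zero, zero_add] at h2
    exact Prod.ext rfl (Subtype.ext h2)
  have hsurj : Function.Surjective (LinearMap.coprod i (LinearMap.ker r).subtype) := by
    intro b
    refine ⟨(r b, ⟨b - i (r b), ?_⟩), ?_⟩
    · rw [LinearMap.mem_ker, map_sub, h1', sub_self]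
    · simp
  have heq : ∀ (x : G) (v : A.V × LinearMap.ker r),
      i (A.ρ x v.1) + B.ρ x (v.2 : B.V) = B.ρ x (i v.1 + (v.2 : B.V)) := by
    intro x v
    rw [hi, map_add]
  refine ⟨B.sub (LinearMap.ker r) hinv, Iso.symm ?_⟩
  exact iso_of_bij (A := A.prod (B.sub (LinearMap.ker r) hinv))
    (LinearMap.coprod i (LinearMap.ker r).subtype) heq ⟨hinj, hsurj⟩

/-- `X` is a retract of `X ⊗ End(X)` -/
lemma retr_tens_hom (X : Mo k G) : Retr X (X.tens (X.hom X)) := by
  refine ⟨(TensorProduct.mk k X.V (X.V →ₗ[k] X.V)).flip LinearMap.id,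
    TensorProduct.lift (LinearMap.applyₗ), ?_, ?_, ?_⟩
  · intro x v
    show (X.ρ x v) ⊗ₜ[k] (LinearMap.id : X.V →ₗ[k] X.V) =
      (X.ρ x v) ⊗ₜ[k] ((X.ρ x) ∘ₗ LinearMap.id ∘ₗ (X.ρ x⁻¹))
    congr 1
    ext w
    simp
  · apply TE_isH_of_comp
    intro x
    apply TensorProduct.ext'
    intro v θ
    change X.V →ₗ[k] X.V at θ
    show X.ρ x (θ (X.ρ x⁻¹ (X.ρ x v))) = X.ρ x (θ v)
    simp
  · ext v
    rfl

lemma IsSES.rT {f : A.V →ₗ[k] B.V} {g : B.V →ₗ[k] C.V} (h : IsSES A B C f g) (D : Mo k G) :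
    IsSES (A.tens D) (B.tens D) (C.tens D) (f.rTensor D.V) (g.rTensor D.V) where
  hf := h.hf.rT D
  hg := h.hg.rT D
  inj := Module.Flat.rTensor_preserves_injective_linearMap f h.inj
  surj := LinearMap.rTensor_surjective D.V h.surj
  exact := by
    have h1 : Function.Exact f g := LinearMap.exact_iff.2 h.exact.symm
    exact (LinearMap.exact_iff.1 (rTensor_exact D.V h1 h.surj)).symm

lemma IsSES.lT {f : A.V →ₗ[k] B.V} {g : B.V →ₗ[k] C.V} (h : IsSES A B C f g) (D : Mo k G) :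
    IsSES (D.tens A) (D.tens B) (D.tens C) (f.lTensor D.V) (g.lTensor D.V) where
  hf := h.hf.lT D
  hg := h.hg.lT D
  inj := Module.Flat.lTensor_preserves_injective_linearMap f h.inj
  surj := LinearMap.lTensor_surjective D.V h.surj
  exact := by
    have h1 : Function.Exact f g := LinearMap.exact_iff.2 h.exact.symm
    exact (LinearMap.exact_iff.1 (lTensor_exact D.V h1 h.surj)).symm

lemma IsSES.res {H : Type} [Group H] (j : H →* G) {f : A.V →ₗ[k] B.V} {g : B.V →ₗ[k] C.V}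
    (h : IsSES A B C f g) : IsSES (A.res j) (B.res j) (C.res j) f g where
  hf := h.hf.res j
  hg := h.hg.res j
  inj := h.inj
  surj := h.surj
  exact := h.exact

lemma IsSES.finrank {f : A.V →ₗ[k] B.V} {g : B.V →ₗ[k] C.V} (h : IsSES A B C f g) :
    finrank k A.V + finrank k C.V = finrank k B.V := by
  have h1 := LinearMap.finrank_range_add_finrank_ker g
  rw [LinearMap.range_eq_top.2 h.surj, finrank_top, ← h.exact,
    LinearMap.finrank_range_of_inj h.inj] at h1
  omega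

lemma IsSES.of_iso {f : A.V →ₗ[k] B.V} {g : B.V →ₗ[k] C.V} (h : IsSES A B C f g)
    (hA : Iso A A') (hB : Iso B B') (hC : Iso C C') :
    ∃ (f' : A'.V →ₗ[k] B'.V) (g' : B'.V →ₗ[k] C'.V), IsSES A' B' C' f' g' := by
  obtain ⟨a, ha⟩ := hA
  obtain ⟨b, hb⟩ := hB
  obtain ⟨c, hc⟩ := hC
  refine ⟨b.toLinearMap ∘ₗ f ∘ₗ a.symm.toLinearMap, c.toLinearMap ∘ₗ g ∘ₗ b.symm.toLinearMap,
    ?_, ?_, ?_, ?_, ?_⟩
  · exact hb.comp (h.hf.comp ha.symm)
  · exact hc.comp (h.hg.comp hb.symm)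
  · intro x y hxy
    exact a.symm.injective (h.inj (b.injective hxy))
  · intro z
    obtain ⟨y, hy⟩ := h.surj (c.symm z)
    refine ⟨b y, ?_⟩
    show c (g (b.symm (b y))) = z
    rw [LinearEquiv.symm_apply_apply, hy, LinearEquiv.apply_symm_apply]
  · ext y
    constructor
    · rintro ⟨x, rfl⟩
      rw [LinearMap.mem_ker]
      show c (g (b.symm (b (f (a.symm x))))) = 0
      have h2 : f (a.symm x) ∈ LinearMap.ker g := h.exact ▸ ⟨a.symm x, rfl⟩
      rw [LinearEquiv.symm_apply_apply, LinearMap.mem_ker.1 h2, map_zero]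
    · intro hy
      have h2 : c (g (b.symm y)) = 0 := hy
      have h3 : g (b.symm y) = 0 := by
        apply c.injective
        rw [h2, map_zero]
      have h4 : b.symm y ∈ LinearMap.range f := by
        rw [h.exact]
        exact h3
      obtain ⟨x, hx⟩ := h4
      refine ⟨a x, ?_⟩
      show b (f (a.symm (a x))) = y
      rw [LinearEquiv.symm_apply_apply, hx, LinearEquiv.apply_symm_apply]

lemma IsSES.prod_split (A C : Mo k G) :
    IsSES A (A.prod C) C (LinearMap.inl k A.V C.V) (LinearMap.snd k A.V C.V) where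
  hf := fun x v => Prod.ext rfl (by show (0 : C.V) = C.ρ x 0; simp)
  hg := fun _ _ => rfl
  inj := LinearMap.inl_injective
  surj := LinearMap.snd_surjective
  exact := LinearMap.range_inl k A.V C.V

/-- kernel of a surjection -/
lemma ses_ker (g : B.V →ₗ[k] C.V) (hg : IsH B C g) (hs : Function.Surjective g) :
    ∃ (A : Mo k G) (f : A.V →ₗ[k] B.V), IsSES A B C f g := by
  have hinv : ∀ x, LinearMap.ker g ≤ (LinearMap.ker g).comap (B.ρ x) := by
    intro x v hv
    rw [Submodule.mem_comap, LinearMap.mem_ker, hg, LinearMap.mem_ker.1 hv, map_zero]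
  exact ⟨B.sub (LinearMap.ker g) hinv, (LinearMap.ker g).subtype,
    { hf := fun _ _ => rfl
      hg := hg
      inj := Subtype.val_injective
      surj := hs
      exact := Submodule.range_subtype _ }⟩

/-- cokernel of an injection -/
lemma ses_coker (f : A.V →ₗ[k] B.V) (hf : IsH A B f) (hi : Function.Injective f) :
    ∃ (C : Mo k G) (g : B.V →ₗ[k] C.V), IsSES A B C f g := by
  have hinv : ∀ x, LinearMap.range f ≤ (LinearMap.range f).comap (B.ρ x) := by
    rintro x _ ⟨v, rfl⟩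
    rw [Submodule.mem_comap, ← hf]
    exact ⟨_, rfl⟩
  exact ⟨B.quo (LinearMap.range f) hinv, (LinearMap.range f).mkQ,
    { hf := hf
      hg := fun _ _ => rfl
      inj := hi
      surj := Submodule.mkQ_surjective _
      exact := (Submodule.ker_mkQ _).symm }⟩

/-- pullback of a short exact sequence: for `g : B → C` surjective and any `h : D → C` -/
lemma ses_pullback {f : A.V →ₗ[k] B.V} {g : B.V →ₗ[k] C.V} (h : IsSES A B C f g)
    (u : D.V →ₗ[k] C.V) (hu : IsH D C u) :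
    ∃ (Z : Mo k G) (i : A.V →ₗ[k] Z.V) (q : Z.V →ₗ[k] D.V) (v : Z.V →ₗ[k] B.V),
      IsSES A Z D i q ∧ IsH Z B v ∧ g ∘ₗ v = u ∘ₗ q ∧ v ∘ₗ i = f ∧
      (Function.Surjective u → Function.Surjective v) ∧
      (∀ z, v z = 0 → q z = 0 → z = 0) := by
  let W : Submodule k (B.V × D.V) :=
    LinearMap.ker (g ∘ₗ LinearMap.fst k B.V D.V - u ∘ₗ LinearMap.snd k B.V D.V)
  have hW : ∀ z : B.V × D.V, z ∈ W ↔ g z.1 = u z.2 := by
    intro z
    rw [LinearMap.mem_ker]
    exact sub_eq_zero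
  have hinv : ∀ x, W ≤ W.comap ((B.prod D).ρ x) := by
    intro x z hz
    refine (hW ((B.ρ x z.1), (D.ρ x z.2))).2 ?_
    show g (B.ρ x z.1) = u (D.ρ x z.2)
    rw [h.hg, hu, (hW z).1 hz]
  have hfker : ∀ a, g (f a) = 0 := by
    intro a
    have h2 : f a ∈ LinearMap.ker g := h.exact ▸ ⟨a, rfl⟩
    exact h2
  refine ⟨(B.prod D).sub W hinv,
    LinearMap.codRestrict W (LinearMap.inl k B.V D.V ∘ₗ f) (fun a => ?_),
    LinearMap.snd k B.V D.V ∘ₗ W.subtype, LinearMap.fst k B.V D.V ∘ₗ W.subtype,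
    ?_, ?_, ?_, ?_, ?_, ?_⟩
  · rw [hW]
    show g (f a) = u 0
    rw [hfker, map_zero]
  · refine ⟨?_, ?_, ?_, ?_, ?_⟩
    · intro x a
      apply Subtype.ext
      refine Prod.ext (h.hf x a) ?_
      show (0 : D.V) = D.ρ x 0
      simp
    · intro x z
      rfl
    · intro a a' haa
      have h2 := congrArg (fun z : W => z.1.1) haa
      exact h.inj h2
    · intro d
      obtain ⟨b, hb⟩ := h.surj (u d)
      exact ⟨⟨(b, d), (hW _).2 hb⟩, rfl⟩
    · ext z
      constructor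
      · rintro ⟨a, rfl⟩
        rfl
      · intro hz
        have h2 : z.1.2 = 0 := hz
        have h3 := (hW z.1).1 z.2
        rw [h2, map_zero] at h3
        have h4 : z.1.1 ∈ LinearMap.range f := by
          rw [h.exact]
          exact h3
        obtain ⟨a, ha⟩ := h4
        refine ⟨a, ?_⟩
        apply Subtype.ext
        exact Prod.ext ha h2.symm
  · intro x z
    rfl
  · ext z
    exact (hW z.1).1 z.2
  · ext a
    rfl
  · intro hus b
    obtain ⟨d, hd⟩ := hus (g b)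
    exact ⟨⟨(b, d), (hW _).2 hd.symm⟩, rfl⟩
  · intro z hv hq
    apply Subtype.ext
    exact Prod.ext hv hq

end Pool.Agent.GamI
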