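import Pool.Agent.GamI.Defs
import Pool.Agent.GamI.TE

/-! # PG: `p`-groups in characteristic `p` -/

set_option autoImplicit false

open scoped TensorProduct
open Module

noncomputable section

namespace Pool.Agent.GamI

variable {p : ℕ} [Fact p.Prime] {k : Type} [Field k] [CharP k p] {G : Type} [Group G] [Finite G]

/-- a nonzero representation (of any dimension) of a finite `p`-group in characteristic `p` has a
nonzero fixed vector -/
theorem exists_fixed (hG : IsPGroup p G) {V : Type} [AddCommGroup V] [Module k V] [Nontrivial V]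
    (ρ : Representation k G V) : ∃ v : V, v ≠ 0 ∧ ∀ g, ρ g v = v := by
  obtain ⟨v₀, hv₀⟩ := exists_ne (0 : V)
  have hp : ∀ x : V, p • x = 0 := by
    intro x
    rw [← Nat.cast_smul_eq_nsmul k, CharP.cast_eq_zero, zero_smul]
  let W : AddSubgroup V := AddSubgroup.closure (Set.range fun g => ρ g v₀)
  have hfg : AddGroup.FG W := by
    have : Finite (Set.range fun g => ρ g v₀) := (Set.finite_range _).to_subtype
    exact AddGroup.closure_finite_fg _
  have hfin : Finite W := by
    apply AddCommGroup.finite_of_fg_isAddTorsion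
    intro x
    rw [isOfFinAddOrder_iff_nsmul_eq_zero]
    refine ⟨p, (Fact.out : p.Prime).pos, Subtype.ext ?_⟩
    exact hp x
  have hW : ∀ g : G, ∀ w : V, w ∈ W → ρ g w ∈ W := by
    intro g w hw
    refine AddSubgroup.closure_induction (p := fun w _ => ρ g w ∈ W) ?_ ?_ ?_ ?_ hw
    · rintro x ⟨h, rfl⟩
      apply AddSubgroup.subset_closure
      refine ⟨g * h, ?_⟩
      simp
    · simp
    · intro x y _ _ hx hy
      rw [map_add]
      exact W.add_mem hx hy
    · intro x _ hx
      rw [map_neg]
      exact W.neg_mem hx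
  let _ : MulAction G W :=
    { smul := fun g w => ⟨ρ g w, hW g w w.2⟩
      one_smul := fun w => Subtype.ext (by
        show ρ 1 (w : V) = w
        simp)
      mul_smul := fun g h w => Subtype.ext (by
        show ρ (g * h) (w : V) = ρ g (ρ h w)
        simp) }
  have hsm : ∀ (g : G) (w : W), ((g • w : W) : V) = ρ g w := fun _ _ => rfl
  have hcard : p ∣ Nat.card W := by
    have hne : (⟨v₀, AddSubgroup.subset_closure ⟨1, by simp⟩⟩ : W) ≠ 0 := by
      intro h
      exact hv₀ (congrArg Subtype.val h)
    have h0 : addOrderOf (⟨v₀, AddSubgroup.subset_closure ⟨1, by simp⟩⟩ : W) = p := by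
      apply addOrderOf_eq_prime
      · apply Subtype.ext
        exact hp v₀
      · exact hne
    rw [← h0]
    exact addOrderOf_dvd_natCard _
  obtain ⟨b, hb, hb0⟩ := hG.exists_fixed_point_of_prime_dvd_card_of_fixed_point W hcard
    (a := (0 : W)) (by
      intro g
      apply Subtype.ext
      rw [hsm]
      simp)
  refine ⟨b, ?_, ?_⟩
  · intro h
    exact hb0 (Subtype.ext h.symm)
  · intro g
    have := congrArg Subtype.val (hb g)
    exact this

theorem exists_triv_sub (hG : IsPGroup p G) (B : Mo k G) (hB : 0 < finrank k B.V) :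
    ∃ (C : Mo k G) (f : (triv k G).V →ₗ[k] B.V) (g : B.V →ₗ[k] C.V),
      IsSES (triv k G) B C f g ∧ finrank k C.V + 1 = finrank k B.V := by
  have : Nontrivial B.V := Module.nontrivial_of_finrank_pos hB
  obtain ⟨v, hv0, hv⟩ := exists_fixed hG B.ρ
  obtain ⟨C, g, h⟩ := ses_coker (A := triv k G) (B := B)
    (LinearMap.toSpanSingleton k B.V v) (by
      intro x c
      show c • v = B.ρ x (c • v)
      rw [map_smul, hv]) (by
      intro a b hab
      have h1 : a • v = b • v := hab
      exact smul_left_injective k hv0 h1)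
  refine ⟨C, _, g, h, ?_⟩
  have h1 := h.finrank
  have h2 : finrank k (triv k G).V = 1 := finrank_self k
  omega

theorem exists_triv_quo (hG : IsPGroup p G) (B : Mo k G) (hB : 0 < finrank k B.V) :
    ∃ (A : Mo k G) (f : A.V →ₗ[k] B.V) (g : B.V →ₗ[k] (triv k G).V),
      IsSES A B (triv k G) f g ∧ finrank k A.V + 1 = finrank k B.V := by
  have : Nontrivial B.V := Module.nontrivial_of_finrank_pos hB
  have : Nontrivial (B.hom (triv k G)).V :=
    (inferInstance : Nontrivial (Module.Dual k B.V))
  obtain ⟨φ, hφ0, hφ⟩ := exists_fixed hG (B.hom (triv k G)).ρ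
  have hfix : IsH B (triv k G) φ := by
    rw [isH_iff_cj]
    intro g
    exact hφ g
  have hsurj : ∀ ψ : B.V →ₗ[k] (triv k G).V, ψ ≠ 0 → Function.Surjective ψ := by
    intro ψ hψ
    exact LinearMap.surjective (f := (show B.V →ₗ[k] k from ψ)) hψ
  obtain ⟨A, f, h⟩ := ses_ker (B := B) (C := triv k G) φ hfix (hsurj φ hφ0)
  refine ⟨A, f, _, h, ?_⟩
  have h1 := h.finrank
  have h2 : finrank k (triv k G).V = 1 := finrank_self k
  omega

/-- subadditive functions are bounded by the dimension times the value on the trivial module -/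
theorem pg_le (hG : IsPGroup p G) (φ : Mo k G → ℝ) (h0 : ∀ A : Mo k G, finrank k A.V = 0 → φ A ≤ 0)
    (hs : ∀ (A B C : Mo k G) (f : A.V →ₗ[k] B.V) (g : B.V →ₗ[k] C.V), IsSES A B C f g →
      φ B ≤ φ A + φ C) (A : Mo k G) : φ A ≤ finrank k A.V * φ (triv k G) := by
  induction hn : finrank k A.V generalizing A with
  | zero => simpa using h0 A hn
  | succ n ih =>
    obtain ⟨C, f, g, h, hC⟩ := exists_triv_sub hG A (by omega)
    have h1 := hs _ _ _ f g h
    have h2 := ih C (by omega)
    push_cast
    linarith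

end Pool.Agent.GamI
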