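import Pool.Agent.GamI.Defs
import Pool.Agent.GamI.TE

/-! # TR: traces, Higman's criterion -/

set_option autoImplicit false

open scoped TensorProduct
open Module

noncomputable section

namespace Pool.Agent.GamI

variable {k : Type} [Field k] {G : Type} [Group G] [Finite G]
variable {A A' B B' C C' D : Mo k G}

lemma mem_subFin (H : Subgroup G) (g : G) : g ∈ subFin H ↔ g ∈ H := by
  simp [subFin]

lemma IsHOn_top {f : A.V →ₗ[k] B.V} : IsHOn ⊤ A B f ↔ IsH A B f :=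
  ⟨fun h g v => h g (Subgroup.mem_top g) v, fun h g _ v => h g v⟩

lemma IsH.on {f : A.V →ₗ[k] B.V} (h : IsH A B f) (H : Subgroup G) : IsHOn H A B f :=
  fun g _ v => h g v

lemma trH_apply (H : Subgroup G) (θ : A.V →ₗ[k] B.V) (v : A.V) :
    trH H A B θ v = ∑ h ∈ subFin H, B.ρ h (θ (A.ρ h⁻¹ v)) := by
  unfold trH
  rw [LinearMap.sum_apply]
  rfl

omit [Finite G] in
lemma rho_mul_apply (A : Mo k G) (g h : G) (v : A.V) : A.ρ (g * h) v = A.ρ g (A.ρ h v) := by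
  rw [map_mul]
  rfl

omit [Finite G] in
lemma rho_inv_apply (A : Mo k G) (g : G) (v : A.V) : A.ρ g⁻¹ (A.ρ g v) = v := by
  rw [← rho_mul_apply, inv_mul_cancel, map_one]
  rfl

omit [Finite G] in
lemma rho_apply_inv (A : Mo k G) (g : G) (v : A.V) : A.ρ g (A.ρ g⁻¹ v) = v := by
  rw [← rho_mul_apply, mul_inv_cancel, map_one]
  rfl

lemma trH_isHOn (H : Subgroup G) (θ : A.V →ₗ[k] B.V) : IsHOn H A B (trH H A B θ) := by
  intro g hg v
  rw [trH_apply, trH_apply, map_sum]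
  refine Finset.sum_nbij' (fun h => g⁻¹ * h) (fun h => g * h) ?_ ?_ ?_ ?_ ?_
  · intro h hh
    rw [mem_subFin] at hh ⊢
    exact H.mul_mem (H.inv_mem hg) hh
  · intro h hh
    rw [mem_subFin] at hh ⊢
    exact H.mul_mem hg hh
  · intro h _
    simp
  · intro h _
    simp
  · intro h _
    rw [← rho_mul_apply, ← rho_mul_apply, mul_inv_cancel_left, mul_inv_rev, inv_inv]

lemma trH_isH (θ : A.V →ₗ[k] B.V) : IsH A B (trH ⊤ A B θ) :=
  IsHOn_top.1 (trH_isHOn ⊤ θ)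

lemma trH_add (H : Subgroup G) (θ θ' : A.V →ₗ[k] B.V) :
    trH H A B (θ + θ') = trH H A B θ + trH H A B θ' := by
  refine LinearMap.ext fun v => ?_
  rw [LinearMap.add_apply, trH_apply, trH_apply, trH_apply, ← Finset.sum_add_distrib]
  refine Finset.sum_congr rfl fun h _ => ?_
  rw [LinearMap.add_apply, map_add]

lemma trH_smul (H : Subgroup G) (c : k) (θ : A.V →ₗ[k] B.V) :
    trH H A B (c • θ) = c • trH H A B θ := by
  refine LinearMap.ext fun v => ?_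
  rw [LinearMap.smul_apply, trH_apply, trH_apply, Finset.smul_sum]
  refine Finset.sum_congr rfl fun h _ => ?_
  rw [LinearMap.smul_apply, map_smul]

lemma trH_comp_l (H : Subgroup G) (θ : A.V →ₗ[k] B.V) (f : B.V →ₗ[k] C.V) (hf : IsHOn H B C f) :
    trH H A C (f ∘ₗ θ) = f ∘ₗ trH H A B θ := by
  refine LinearMap.ext fun v => ?_
  rw [LinearMap.comp_apply, trH_apply, trH_apply, map_sum]
  refine Finset.sum_congr rfl fun h hh => ?_
  rw [LinearMap.comp_apply, hf h ((mem_subFin H h).1 hh)]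

lemma trH_comp_r (H : Subgroup G) (θ : B.V →ₗ[k] C.V) (f : A.V →ₗ[k] B.V) (hf : IsHOn H A B f) :
    trH H A C (θ ∘ₗ f) = trH H B C θ ∘ₗ f := by
  refine LinearMap.ext fun v => ?_
  rw [LinearMap.comp_apply, trH_apply, trH_apply]
  refine Finset.sum_congr rfl fun h hh => ?_
  rw [LinearMap.comp_apply, hf h⁻¹ (H.inv_mem ((mem_subFin H h).1 hh))]

lemma trH_tens_r (H : Subgroup G) (θ : A.V →ₗ[k] A.V) (B : Mo k G) :
    trH H (A.tens B) (A.tens B) (θ.rTensor B.V) = (trH H A A θ).rTensor B.V := by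
  refine TensorProduct.ext' fun x y => ?_
  have key : (∑ h ∈ subFin H, (A.ρ h (θ (A.ρ h⁻¹ x))) ⊗ₜ[k] (B.ρ h (B.ρ h⁻¹ y)) : A.V ⊗[k] B.V)
      = (trH H A A θ x) ⊗ₜ[k] y := by
    rw [trH_apply, TensorProduct.sum_tmul]
    refine Finset.sum_congr rfl fun h _ => ?_
    rw [rho_apply_inv]
  exact (trH_apply (A := A.tens B) (B := A.tens B) H (θ.rTensor B.V) (x ⊗ₜ[k] y)).trans key

lemma trH_tens_l (H : Subgroup G) (θ : A.V →ₗ[k] A.V) (B : Mo k G) :
    trH H (B.tens A) (B.tens A) (θ.lTensor B.V) = (trH H A A θ).lTensor B.V := by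
  refine TensorProduct.ext' fun x y => ?_
  have key : (∑ h ∈ subFin H, (B.ρ h (B.ρ h⁻¹ x)) ⊗ₜ[k] (A.ρ h (θ (A.ρ h⁻¹ y))) : B.V ⊗[k] A.V)
      = x ⊗ₜ[k] (trH H A A θ y) := by
    rw [trH_apply, TensorProduct.tmul_sum]
    refine Finset.sum_congr rfl fun h _ => ?_
    rw [rho_apply_inv]
  exact (trH_apply (A := B.tens A) (B := B.tens A) H (θ.lTensor B.V) (x ⊗ₜ[k] y)).trans key

/-- an `H`-equivariant map out of an `H`-projective module is a trace -/
lemma ProjOn.map_eq_tr {H : Subgroup G} {θ : A.V →ₗ[k] A.V} (hθ : trH H A A θ = LinearMap.id)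
    (f : A.V →ₗ[k] B.V) (hf : IsHOn H A B f) : trH H A B (f ∘ₗ θ) = f := by
  rw [trH_comp_l H θ f hf, hθ, LinearMap.comp_id]

lemma ProjOn.retr {H : Subgroup G} (h : Retr A B) (hB : ProjOn H B) : ProjOn H A := by
  obtain ⟨i, r, hi, hr, hri⟩ := h
  obtain ⟨θ, hθ⟩ := hB
  refine ⟨r ∘ₗ θ ∘ₗ i, ?_⟩
  rw [trH_comp_l H (θ ∘ₗ i) r (hr.on H), trH_comp_r H θ i (hi.on H), hθ, LinearMap.id_comp, hri]

lemma ProjOn.tens_r {H : Subgroup G} (hA : ProjOn H A) (B : Mo k G) : ProjOn H (A.tens B) := by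
  obtain ⟨θ, hθ⟩ := hA
  refine ⟨θ.rTensor B.V, ?_⟩
  rw [trH_tens_r, hθ]
  exact LinearMap.rTensor_id _ _

lemma ProjOn.tens_l {H : Subgroup G} (hA : ProjOn H A) (B : Mo k G) : ProjOn H (B.tens A) := by
  obtain ⟨θ, hθ⟩ := hA
  refine ⟨θ.lTensor B.V, ?_⟩
  rw [trH_tens_l, hθ]
  exact LinearMap.lTensor_id _ _

lemma trH_prodMap (H : Subgroup G) (θ : A.V →ₗ[k] A.V) (θ' : B.V →ₗ[k] B.V) :
    trH H (A.prod B) (A.prod B) (θ.prodMap θ') = (trH H A A θ).prodMap (trH H B B θ') := by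
  refine LinearMap.ext fun (v : A.V × B.V) => ?_
  have key : (∑ h ∈ subFin H, ((A.ρ h (θ (A.ρ h⁻¹ v.1))), (B.ρ h (θ' (B.ρ h⁻¹ v.2)))) :
      A.V × B.V) = (trH H A A θ v.1, trH H B B θ' v.2) := by
    rw [trH_apply, trH_apply]
    refine Prod.ext ?_ ?_
    · exact Prod.fst_sum
    · exact Prod.snd_sum
  exact (trH_apply (A := A.prod B) (B := A.prod B) H (θ.prodMap θ') v).trans key

lemma ProjOn.prod {H : Subgroup G} (hA : ProjOn H A) (hB : ProjOn H B) : ProjOn H (A.prod B) := by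
  obtain ⟨θ, hθ⟩ := hA
  obtain ⟨θ', hθ'⟩ := hB
  refine ⟨θ.prodMap θ', ?_⟩
  rw [trH_prodMap, hθ, hθ']
  rfl

lemma Proj.projOn (hA : Proj A) (H : Subgroup G) : ProjOn H A := by
  classical
  obtain ⟨θ, hθ⟩ := hA
  have := Fintype.ofFinite G
  obtain ⟨S, hS, -⟩ := H.exists_isComplement_right 1
  have := Fintype.ofFinite H
  have := Fintype.ofFinite S
  refine ⟨∑ s : S, cj A A (s : G) θ, ?_⟩
  rw [← hθ]
  refine LinearMap.ext fun v => ?_
  rw [trH_apply, trH_apply, Finset.sum_subtype (subFin H) (fun x => mem_subFin H x)]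
  rw [Finset.sum_subtype (p := fun _ => True) (subFin (⊤ : Subgroup G))
    (fun x => by simp [mem_subFin])]
  have e1 : ∑ x : Subtype (fun _ : G => True), A.ρ (x : G) (θ (A.ρ (x : G)⁻¹ v))
      = ∑ g : G, A.ρ g (θ (A.ρ g⁻¹ v)) :=
    Fintype.sum_bijective (fun x : Subtype (fun _ : G => True) => (x : G))
      ⟨Subtype.coe_injective, fun g => ⟨⟨g, trivial⟩, rfl⟩⟩ _ _ (fun _ => rfl)
  rw [e1]
  have e2 : ∑ x : H × S, A.ρ ((x.1 : G) * (x.2 : G)) (θ (A.ρ ((x.1 : G) * (x.2 : G))⁻¹ v))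
      = ∑ g : G, A.ρ g (θ (A.ρ g⁻¹ v)) :=
    Fintype.sum_bijective (fun x : H × S => (x.1 : G) * (x.2 : G)) hS _ _ (fun _ => rfl)
  rw [← e2, Fintype.sum_prod_type]
  refine Finset.sum_congr rfl fun h _ => ?_
  rw [LinearMap.sum_apply, map_sum]
  refine Finset.sum_congr rfl fun s _ => ?_
  rw [mul_inv_rev, rho_mul_apply, rho_mul_apply]
  rfl

lemma trH_res_inj {H : Type} [Group H] [Finite H] (j : H →* G) (hj : Function.Injective j)
    (A : Mo k G) (θ : A.V →ₗ[k] A.V) :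
    trH ⊤ (A.res j) (A.res j) θ = trH j.range A A θ := by
  classical
  refine LinearMap.ext fun (v : A.V) => ?_
  have key : ∑ h ∈ subFin (⊤ : Subgroup H), A.ρ (j h) (θ (A.ρ (j h⁻¹) v))
      = trH j.range A A θ v := by
    rw [trH_apply]
    refine Finset.sum_nbij (fun h => j h) ?_ ?_ ?_ ?_
    · intro h _
      rw [mem_subFin]
      exact ⟨h, rfl⟩
    · intro a _ b _ hab
      exact hj hab
    · intro g hg
      rw [Finset.mem_coe, mem_subFin] at hg
      obtain ⟨h, rfl⟩ := hg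
      exact ⟨h, by rw [Finset.mem_coe, mem_subFin]; exact Subgroup.mem_top _, rfl⟩
    · intro h _
      rw [map_inv]
  exact (trH_apply (A := A.res j) (B := A.res j) ⊤ θ v).trans key

/-- restriction along an injective homomorphism -/
lemma proj_res_inj {H : Type} [Group H] [Finite H] (j : H →* G) (hj : Function.Injective j)
    (A : Mo k G) : Proj (A.res j) ↔ ProjOn j.range A := by
  constructor
  · rintro ⟨θ, hθ⟩
    exact ⟨θ, (trH_res_inj j hj A θ).symm.trans hθ⟩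
  · rintro ⟨θ, hθ⟩
    exact ⟨θ, (trH_res_inj j hj A θ).trans hθ⟩

lemma projOn_iff (H : Subgroup G) (A : Mo k G) : ProjOn H A ↔ Proj (A.res H.subtype) := by
  rw [proj_res_inj H.subtype Subtype.coe_injective, H.range_subtype]

lemma Proj.iso (h : Iso A B) (hB : Proj B) : Proj A :=
  ProjOn.retr h.retr hB

lemma proj_of_finrank_zero (h : finrank k A.V = 0) : Proj A := by
  have h1 : Subsingleton A.V := Module.finrank_zero_iff.1 h
  exact ⟨LinearMap.id, LinearMap.ext fun v => Subsingleton.elim _ _⟩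

/-- the regular representation -/
lemma proj_perm : Proj (perm k G G) := by
  classical
  let θ : (G → k) →ₗ[k] (G → k) := (LinearMap.single k (fun _ : G => k) 1) ∘ₗ (LinearMap.proj 1)
  refine ⟨θ, ?_⟩
  refine LinearMap.ext fun (f : G → k) => ?_
  refine (trH_apply (A := perm k G G) (B := perm k G G) ⊤ θ f).trans ?_
  refine funext fun x => ?_
  refine (Finset.sum_apply (M := fun _ : G => k) x _ _).trans ?_
  rw [Finset.sum_eq_single x]
  · show (Pi.single (M := fun _ : G => k) 1 (f (x⁻¹⁻¹ • (1:G)))) (x⁻¹ • x) = f x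
    simp
  · intro g _ hg
    show (Pi.single (M := fun _ : G => k) 1 (f (g⁻¹⁻¹ • (1:G)))) (g⁻¹ • x) = 0
    rw [Pi.single_eq_of_ne]
    intro h
    apply hg
    rw [smul_eq_mul, inv_mul_eq_one] at h
    exact h
  · intro h
    exact absurd ((mem_subFin ⊤ x).2 (Subgroup.mem_top x)) h

/-- lifting through surjections -/
lemma Proj.lift (hA : Proj A) (g : B.V →ₗ[k] C.V) (hg : IsH B C g) (hs : Function.Surjective g)
    (f : A.V →ₗ[k] C.V) (hf : IsH A C f) : ∃ f' : A.V →ₗ[k] B.V, IsH A B f' ∧ g ∘ₗ f' = f := by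
  obtain ⟨θ, hθ⟩ := hA
  obtain ⟨σ, hσ⟩ := g.exists_rightInverse_of_surjective (LinearMap.range_eq_top.2 hs)
  refine ⟨trH ⊤ A B (σ ∘ₗ f ∘ₗ θ), trH_isH _, ?_⟩
  rw [← trH_comp_l ⊤ (σ ∘ₗ f ∘ₗ θ) g (hg.on ⊤), ← LinearMap.comp_assoc, hσ, LinearMap.id_comp]
  exact ProjOn.map_eq_tr hθ f (hf.on ⊤)

/-- extension along injections -/
lemma Proj.ext (hC : Proj C) (g : A.V →ₗ[k] B.V) (hg : IsH A B g) (hi : Function.Injective g)
    (f : A.V →ₗ[k] C.V) (hf : IsH A C f) : ∃ f' : B.V →ₗ[k] C.V, IsH B C f' ∧ f' ∘ₗ g = f := by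
  obtain ⟨θ, hθ⟩ := hC
  obtain ⟨τ, hτ⟩ := g.exists_leftInverse_of_injective (LinearMap.ker_eq_bot.2 hi)
  refine ⟨trH ⊤ B C (θ ∘ₗ f ∘ₗ τ), trH_isH _, ?_⟩
  rw [← trH_comp_r ⊤ (θ ∘ₗ f ∘ₗ τ) g (hg.on ⊤)]
  have h1 : (θ ∘ₗ f ∘ₗ τ) ∘ₗ g = θ ∘ₗ f := by
    rw [LinearMap.comp_assoc, LinearMap.comp_assoc, hτ, LinearMap.comp_id]
  rw [h1, trH_comp_r ⊤ θ f (hf.on ⊤), hθ, LinearMap.id_comp]

/-- a representation is a retract of `A ⊗ k[G]` if it satisfies Higman's criterion -/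
lemma Proj.retr_reg (hA : Proj A) : Retr A (A.tens (perm k G G)) := by
  classical
  have := Fintype.ofFinite G
  let σ : (G → k) →ₗ[k] k := ∑ x : G, LinearMap.proj x
  have hσ : ∀ f : G → k, σ f = ∑ x, f x := by
    intro f
    simp only [σ, LinearMap.sum_apply, LinearMap.proj_apply]
  let r : (A.V ⊗[k] (G → k)) →ₗ[k] A.V :=
    (TensorProduct.rid k A.V).toLinearMap ∘ₗ (σ.lTensor A.V)
  have hr : ∀ (a : A.V) (f : G → k), r (a ⊗ₜ[k] f) = (∑ x, f x) • a := by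
    intro a f
    simp only [r, LinearMap.comp_apply, LinearMap.lTensor_tmul, LinearEquiv.coe_coe,
      TensorProduct.rid_tmul, hσ]
  have hrH : IsH (A.tens (perm k G G)) A r := by
    intro g v
    have h1 : r ∘ₗ ((A.tens (perm k G G)).ρ g) = (A.ρ g) ∘ₗ r := by
      refine TensorProduct.ext' fun (a : A.V) (f : G → k) => ?_
      show r (A.ρ g a ⊗ₜ[k] (permRep k G G g f)) = A.ρ g (r (a ⊗ₜ[k] f))
      rw [hr, hr, map_smul]
      congr 1
      exact Fintype.sum_bijective (fun x : G => g⁻¹ * x) (Group.mulLeft_bijective g⁻¹) _ _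
        (fun _ => rfl)
    exact congrArg (fun L => L v) h1
  have hsurj : Function.Surjective r := by
    intro a
    refine ⟨a ⊗ₜ[k] (Pi.single 1 1), ?_⟩
    rw [hr]
    simp
  obtain ⟨i, hi, hri⟩ := hA.lift (B := A.tens (perm k G G)) (C := A) r hrH hsurj LinearMap.id
    (fun _ _ => rfl)
  exact ⟨i, r, hi, hrH, hri⟩

end Pool.Agent.GamI
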