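import Pool.Agent.GamI.Defs3
import Pool.Agent.GamI.TE
import Pool.Agent.GamI.TR

/-! # TN: iterated tensoring with `M` -/

set_option autoImplicit false

open scoped TensorProduct
open Module

noncomputable section

namespace Pool.Agent.GamI

variable {k : Type} [Field k] {G : Type} [Group G] (M : Mo k G)
variable {A A' B B' C D : Mo k G}

lemma Tn_iso (n : ℕ) (h : Iso A B) : Iso (Tn M n A) (Tn M n B) := by
  induction n generalizing A B with
  | zero => exact h
  | succ n ih => exact ih (h.tens (Iso.refl M))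

lemma Tn_tens (n : ℕ) (A : Mo k G) : Iso (Tn M n A) (A.tens (Tn M n (triv k G))) := by
  induction n generalizing A with
  | zero => exact (iso_tens_triv A).symm
  | succ n ih =>
    have h1 : Iso (Tn M (n + 1) (triv k G)) (M.tens (Tn M n (triv k G))) :=
      (Tn_iso M n (iso_triv_tens M)).trans (ih M)
    have h2 : Iso (Tn M (n + 1) A) ((A.tens M).tens (Tn M n (triv k G))) := ih (A.tens M)
    exact h2.trans ((iso_assoc _ _ _).trans ((Iso.refl A).tens h1.symm))

lemma Tn_add (m n : ℕ) (A : Mo k G) : Tn M (m + n) A = Tn M n (Tn M m A) := by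
  induction m generalizing A with
  | zero => rw [Nat.zero_add]; rfl
  | succ m ih =>
    rw [show m + 1 + n = m + n + 1 by omega]
    exact ih (A.tens M)

lemma Tn_res {H : Type} [Group H] (j : H →* G) (n : ℕ) (A : Mo k G) :
    (Tn M n A).res j = Tn (M.res j) n (A.res j) := by
  induction n generalizing A with
  | zero => rfl
  | succ n ih =>
    have h1 := ih (A.tens M)
    rw [res_tens] at h1
    exact h1

lemma TnMap_id (n : ℕ) : TnMap M n (LinearMap.id : A.V →ₗ[k] A.V) = LinearMap.id := by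
  induction n generalizing A with
  | zero => rfl
  | succ n ih =>
    have h1 : TnMap M (n + 1) (LinearMap.id : A.V →ₗ[k] A.V) =
        TnMap M n (A := A.tens M) (B := A.tens M) ((LinearMap.id : A.V →ₗ[k] A.V).rTensor M.V) :=
      rfl
    rw [h1, LinearMap.rTensor_id]
    exact ih

lemma TnMap_comp (n : ℕ) (f : A.V →ₗ[k] B.V) (g : B.V →ₗ[k] C.V) :
    TnMap M n (g ∘ₗ f) = TnMap M n g ∘ₗ TnMap M n f := by
  induction n generalizing A B C with
  | zero => rfl
  | succ n ih =>
    have h1 : TnMap M (n + 1) (g ∘ₗ f) =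
        TnMap M n (A := A.tens M) (B := C.tens M) ((g ∘ₗ f).rTensor M.V) := rfl
    rw [h1, LinearMap.rTensor_comp]
    exact ih (A := A.tens M) (B := B.tens M) (C := C.tens M) _ _

lemma TnMap_isH (n : ℕ) {f : A.V →ₗ[k] B.V} (hf : IsH A B f) :
    IsH (Tn M n A) (Tn M n B) (TnMap M n f) := by
  induction n generalizing A B with
  | zero => exact hf
  | succ n ih => exact ih (hf.rT M)

lemma TnMap_ses (n : ℕ) {f : A.V →ₗ[k] B.V} {g : B.V →ₗ[k] C.V} (h : IsSES A B C f g) :
    IsSES (Tn M n A) (Tn M n B) (Tn M n C) (TnMap M n f) (TnMap M n g) := by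
  induction n generalizing A B C with
  | zero => exact h
  | succ n ih => exact ih (h.rT M)

/-! auxiliary: the canonical isomorphisms -/

/-- functoriality on isomorphisms -/
def TN_me (n : ℕ) (t : A.V ≃ₗ[k] B.V) : (Tn M n A).V ≃ₗ[k] (Tn M n B).V :=
  LinearEquiv.ofLinear (TnMap M n t.toLinearMap) (TnMap M n t.symm.toLinearMap)
    (by rw [← TnMap_comp, LinearEquiv.comp_symm, TnMap_id])
    (by rw [← TnMap_comp, LinearEquiv.symm_comp, TnMap_id])

lemma TN_me_coe (n : ℕ) (t : A.V ≃ₗ[k] B.V) :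
    (TN_me M n t).toLinearMap = TnMap M n t.toLinearMap := rfl

/-- `(A × C) ⊗ M ≃ A ⊗ M × C ⊗ M` -/
def TN_t (A C : Mo k G) : ((A.prod C).tens M).V ≃ₗ[k] ((A.tens M).prod (C.tens M)).V :=
  TensorProduct.prodLeft k k A.V C.V M.V

lemma TN_t_isH (A C : Mo k G) :
    IsH ((A.prod C).tens M) ((A.tens M).prod (C.tens M)) (TN_t M A C).toLinearMap := by
  intro g v
  have key : (TensorProduct.prodLeft k k A.V C.V M.V).toLinearMap ∘ₗ
      TensorProduct.map ((A.ρ g).prodMap (C.ρ g)) (M.ρ g) =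
      ((TensorProduct.map (A.ρ g) (M.ρ g)).prodMap (TensorProduct.map (C.ρ g) (M.ρ g))) ∘ₗ
        (TensorProduct.prodLeft k k A.V C.V M.V).toLinearMap :=
    TensorProduct.ext' fun x m => rfl
  exact LinearMap.congr_fun key v

lemma TN_t_nat (A C B D : Mo k G) (f : A.V →ₗ[k] B.V) (g : C.V →ₗ[k] D.V) :
    (TN_t M B D).toLinearMap ∘ₗ (f.prodMap g).rTensor M.V =
      ((f.rTensor M.V).prodMap (g.rTensor M.V)) ∘ₗ (TN_t M A C).toLinearMap := by
  have key : (TensorProduct.prodLeft k k B.V D.V M.V).toLinearMap ∘ₗ (f.prodMap g).rTensor M.V =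
      ((f.rTensor M.V).prodMap (g.rTensor M.V)) ∘ₗ
        (TensorProduct.prodLeft k k A.V C.V M.V).toLinearMap :=
    TensorProduct.ext' fun x m => rfl
  exact key

/-- the canonical isomorphism -/
def TN_e : (n : ℕ) → (A C : Mo k G) →
    (Tn M n (A.prod C)).V ≃ₗ[k] ((Tn M n A).prod (Tn M n C)).V
  | 0, A, C => LinearEquiv.refl k (A.prod C).V
  | n + 1, A, C => (TN_me M n (A := (A.prod C).tens M) (B := (A.tens M).prod (C.tens M))
      (TN_t M A C)).trans (TN_e n (A.tens M) (C.tens M))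

lemma TN_e_isH (n : ℕ) (A C : Mo k G) : IsH _ _ (TN_e M n A C).toLinearMap := by
  induction n generalizing A C with
  | zero => exact fun g v => rfl
  | succ n ih =>
    have h1 := TnMap_isH M n (TN_t_isH M A C)
    exact IsH.comp (ih (A.tens M) (C.tens M)) h1

lemma TN_e_nat (n : ℕ) (A C B D : Mo k G) (f : A.V →ₗ[k] B.V) (g : C.V →ₗ[k] D.V) :
    (TN_e M n B D).toLinearMap ∘ₗ TnMap M n (A := A.prod C) (B := B.prod D) (f.prodMap g) =
      ((TnMap M n f).prodMap (TnMap M n g)) ∘ₗ (TN_e M n A C).toLinearMap := by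
  induction n generalizing A B C D with
  | zero => rfl
  | succ n ih =>
    refine LinearMap.ext fun v => ?_
    have h4 := LinearMap.congr_fun (TnMap_comp M n (A := (A.prod C).tens M)
      (B := (B.prod D).tens M) (C := (B.tens M).prod (D.tens M)) ((f.prodMap g).rTensor M.V)
      (TN_t M B D).toLinearMap) v
    have h5 := LinearMap.congr_fun (TnMap_comp M n (A := (A.prod C).tens M)
      (B := (A.tens M).prod (C.tens M)) (C := (B.tens M).prod (D.tens M))
      (TN_t M A C).toLinearMap ((f.rTensor M.V).prodMap (g.rTensor M.V))) v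
    have h6 := LinearMap.congr_fun (ih (A.tens M) (C.tens M) (B.tens M) (D.tens M)
      (f.rTensor M.V) (g.rTensor M.V)) (TnMap M n (A := (A.prod C).tens M)
        (B := (A.tens M).prod (C.tens M)) (TN_t M A C).toLinearMap v)
    have h7 : TnMap M n (A := (A.prod C).tens M) (B := (B.tens M).prod (D.tens M))
        ((TN_t M B D).toLinearMap ∘ₗ (f.prodMap g).rTensor M.V) v =
        TnMap M n (A := (A.prod C).tens M) (B := (B.tens M).prod (D.tens M))
        (((f.rTensor M.V).prodMap (g.rTensor M.V)) ∘ₗ (TN_t M A C).toLinearMap) v :=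
      congrArg (fun z => TnMap M n (A := (A.prod C).tens M) (B := (B.tens M).prod (D.tens M)) z v)
        (TN_t_nat M A C B D f g)
    exact (congrArg (fun z => TN_e M n (B.tens M) (D.tens M) z)
      (h4.symm.trans (h7.trans h5))).trans h6

/-- compatibility with direct sums, naturally -/
lemma Tn_prod (n : ℕ) (A C : Mo k G) :
    ∃ e : (Tn M n (A.prod C)).V ≃ₗ[k] ((Tn M n A).prod (Tn M n C)).V,
      IsH _ _ e.toLinearMap ∧ ∀ (B D : Mo k G), ∃ e' : (Tn M n (B.prod D)).V ≃ₗ[k]
        ((Tn M n B).prod (Tn M n D)).V, IsH _ _ e'.toLinearMap ∧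
        ∀ (f : A.V →ₗ[k] B.V) (g : C.V →ₗ[k] D.V),
          e'.toLinearMap ∘ₗ TnMap M n (A := A.prod C) (B := B.prod D) (f.prodMap g) =
            ((TnMap M n f).prodMap (TnMap M n g)) ∘ₗ e.toLinearMap :=
  ⟨TN_e M n A C, TN_e_isH M n A C, fun B D => ⟨TN_e M n B D, TN_e_isH M n B D,
    fun f g => TN_e_nat M n A C B D f g⟩⟩

lemma Tn_proj [Finite G] (n : ℕ) (hA : Proj A) : Proj (Tn M n A) := by
  induction n generalizing A with
  | zero => exact hA
  | succ n ih =>
    have h1 : ProjOn ⊤ (A.tens M) := ProjOn.tens_r (H := ⊤) hA M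
    exact ih h1

end Pool.Agent.GamI
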