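import Pool.Agent.GamI.AT
import Pool.Agent.GamI.PG
import Pool.Agent.GamI.TN

/-! # AP: cores for `p`-groups -/

set_option autoImplicit false

open scoped TensorProduct
open Module

noncomputable section

namespace Pool.Agent.GamI

variable {p : ℕ} [Fact p.Prime] {k : Type} [Field k] [CharP k p] {G : Type} [Group G] [Finite G]
variable {A B C D : Mo k G}

/-! auxiliary lemmas (prefix `AP_`) -/

lemma AP_nuT_apply (A : Mo k G) (v : A.V) : nuT A v = ∑ g ∈ subFin (⊤ : Subgroup G), A.ρ g v := by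
  simp [nuT, LinearMap.sum_apply]

lemma AP_nuT_comm {f : A.V →ₗ[k] B.V} (hf : IsH A B f) (v : A.V) : f (nuT A v) = nuT B (f v) := by
  rw [AP_nuT_apply, AP_nuT_apply, map_sum]
  exact Finset.sum_congr rfl fun g _ => hf g v

lemma AP_nuT_prod (A B : Mo k G) (v : A.V × B.V) :
    nuT (A.prod B) v = ((nuT A v.1, nuT B v.2) : A.V × B.V) := by
  have h1 := AP_nuT_comm (A := A.prod B) (B := A) (f := LinearMap.fst k A.V B.V)
    (fun g v => rfl) v
  have h2 := AP_nuT_comm (A := A.prod B) (B := B) (f := LinearMap.snd k A.V B.V)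
    (fun g v => rfl) v
  exact Prod.ext h1 h2

lemma AP_nrm_iso (h : Iso A B) : finrank k ↥(nrmT A) = finrank k ↥(nrmT B) := by
  obtain ⟨e, he⟩ := h
  have h1 : (nrmT A).map e.toLinearMap = nrmT B := by
    apply le_antisymm
    · rintro _ ⟨_, ⟨v, rfl⟩, rfl⟩
      exact ⟨e v, (AP_nuT_comm he v).symm⟩
    · rintro _ ⟨w, rfl⟩
      refine ⟨nuT A (e.symm w), ⟨_, rfl⟩, ?_⟩
      rw [AP_nuT_comm he]
      simp
  rw [← h1]
  exact (LinearEquiv.finrank_map_eq e (nrmT A)).symm

/-- submodules of a product -/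
def AP_prodEq {V W : Type} [AddCommGroup V] [Module k V] [AddCommGroup W] [Module k W]
    (P : Submodule k V) (Q : Submodule k W) : ↥(P.prod Q) ≃ₗ[k] (P × Q) where
  toFun x := (⟨x.1.1, x.2.1⟩, ⟨x.1.2, x.2.2⟩)
  invFun y := ⟨(y.1.1, y.2.1), ⟨y.1.2, y.2.2⟩⟩
  map_add' _ _ := rfl
  map_smul' _ _ := rfl
  left_inv _ := rfl
  right_inv _ := rfl

lemma AP_nrm_prod (A B : Mo k G) : finrank k ↥(nrmT (A.prod B)) =
    finrank k ↥(nrmT A) + finrank k ↥(nrmT B) := by
  have h1 : nrmT (A.prod B) = (nrmT A).prod (nrmT B) := by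
    apply le_antisymm
    · rintro _ ⟨v, rfl⟩
      rw [AP_nuT_prod]
      exact ⟨⟨_, rfl⟩, ⟨_, rfl⟩⟩
    · rintro ⟨a, b⟩ ⟨⟨v, hv⟩, ⟨w, hw⟩⟩
      refine ⟨((v, w) : A.V × B.V), ?_⟩
      rw [AP_nuT_prod]
      exact Prod.ext hv hw
  have h2 : finrank k ↥((nrmT A).prod (nrmT B)) = finrank k (↥(nrmT A) × ↥(nrmT B)) :=
    LinearEquiv.finrank_eq (AP_prodEq _ _)
  rw [Module.finrank_prod] at h2
  rw [h1]
  exact h2

lemma AP_finrank_prod (A B : Mo k G) :
    finrank k (A.prod B).V = finrank k A.V + finrank k B.V :=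
  Module.finrank_prod (R := k) (M := A.V) (M' := B.V)

/-- an invariant subspace without nonzero fixed vectors is zero -/
lemma AP_no_fixed (hG : IsPGroup p G) (A : Mo k G) (W : Submodule k A.V)
    (hW : ∀ g, W ≤ W.comap (A.ρ g)) (h : ∀ v ∈ W, (∀ g, A.ρ g v = v) → v = 0) : W = ⊥ := by
  by_contra hne
  have hnt : Nontrivial W := Submodule.nontrivial_iff_ne_bot.mpr hne
  obtain ⟨v, hv0, hv⟩ := exists_fixed hG (A.ρ.subrepresentation W hW)
  apply hv0
  apply Subtype.ext
  refine h v.1 v.2 fun g => ?_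
  have := congrArg Subtype.val (hv g)
  exact this

/-- the map from the regular representation -/
def AP_phi (A : Mo k G) (a : A.V) : (perm k G G).V →ₗ[k] A.V where
  toFun f := ∑ x ∈ subFin (⊤ : Subgroup G), (f x : k) • A.ρ x a
  map_add' f g := by
    rw [← Finset.sum_add_distrib]
    exact Finset.sum_congr rfl fun x _ => add_smul _ _ _
  map_smul' c f := by
    rw [Finset.smul_sum]
    refine Finset.sum_congr rfl fun x _ => ?_
    rw [RingHom.id_apply, smul_smul]
    rfl

lemma AP_phi_apply (A : Mo k G) (a : A.V) (f : G → k) :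
    AP_phi A a f = ∑ x ∈ subFin (⊤ : Subgroup G), (f x : k) • A.ρ x a := rfl

lemma AP_phi_isH (A : Mo k G) (a : A.V) : IsH (perm k G G) A (AP_phi A a) := by
  intro g f
  rw [AP_phi_apply, AP_phi_apply, map_sum]
  refine Finset.sum_bij' (fun x _ => g⁻¹ * x) (fun x _ => g * x)
    (fun x _ => (mem_subFin _ _).mpr (Subgroup.mem_top _))
    (fun x _ => (mem_subFin _ _).mpr (Subgroup.mem_top _))
    (fun x _ => by simp) (fun x _ => by simp) ?_
  intro x _
  rw [map_smul]
  have h1 : A.ρ g (A.ρ (g⁻¹ * x) a) = A.ρ x a := by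
    rw [← Module.End.mul_apply, ← map_mul]
    congr 2
    group
  rw [h1]
  rfl

lemma AP_phi_inj (hG : IsPGroup p G) (A : Mo k G) (a : A.V) (ha : nuT A a ≠ 0) :
    Function.Injective (AP_phi A a) := by
  rw [← LinearMap.ker_eq_bot]
  refine AP_no_fixed hG (perm k G G) _ ?_ ?_
  · intro g f hf
    rw [Submodule.mem_comap, LinearMap.mem_ker, AP_phi_isH, LinearMap.mem_ker.mp hf, map_zero]
  · intro f hf hfix
    have hconst : ∀ x : G, (f : G → k) x = (f : G → k) 1 := by
      intro x
      have h1 := congrFun (hfix x) x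
      have h2 : ((perm k G G).ρ x f : G → k) x = (f : G → k) (x⁻¹ • x) := rfl
      rw [h2] at h1
      rw [smul_eq_mul, inv_mul_cancel] at h1
      exact h1.symm
    have h3 : AP_phi A a f = (f : G → k) 1 • nuT A a := by
      rw [AP_phi_apply, AP_nuT_apply, Finset.smul_sum]
      exact Finset.sum_congr rfl fun x _ => by rw [hconst x]
    rw [LinearMap.mem_ker, h3, smul_eq_zero] at hf
    rcases hf with h4 | h4
    · funext x
      rw [hconst x, h4]
      rfl
    · exact absurd h4 ha

lemma AP_nrm_reg (k : Type) [Field k] (G : Type) [Group G] [Finite G] :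
    finrank k ↥(nrmT (perm k G G)) = 1 := by
  classical
  have h0 : ∀ (f : G → k) (x : G), (nuT (perm k G G) f : G → k) x =
      ∑ g ∈ subFin (⊤ : Subgroup G), f (g⁻¹ * x) := by
    intro f x
    rw [AP_nuT_apply]
    have h := map_sum (LinearMap.proj x : (G → k) →ₗ[k] k) (fun g => (perm k G G).ρ g f)
      (subFin (⊤ : Subgroup G))
    exact h
  let o : (perm k G G).V := (fun _ => 1 : G → k)
  have h1 : nrmT (perm k G G) = Submodule.span k {o} := by
    apply le_antisymm
    · rintro _ ⟨f, rfl⟩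
      refine Submodule.mem_span_singleton.mpr ⟨∑ g ∈ subFin (⊤ : Subgroup G), (f : G → k) g, ?_⟩
      funext x
      rw [h0]
      change (∑ g ∈ subFin (⊤ : Subgroup G), (f : G → k) g) * 1 = _
      rw [mul_one]
      refine Finset.sum_bij' (fun y _ => x * y⁻¹) (fun y _ => y⁻¹ * x)
        (fun y _ => (mem_subFin _ _).mpr (Subgroup.mem_top _))
        (fun y _ => (mem_subFin _ _).mpr (Subgroup.mem_top _))
        (fun y _ => by simp) (fun y _ => by simp) ?_
      intro y _
      congr 1
      simp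
    · refine (Submodule.span_singleton_le_iff_mem _ _).mpr ⟨(Pi.single 1 1 : G → k), ?_⟩
      funext x
      rw [h0, Finset.sum_eq_single x]
      · simp [o]
      · intro g _ hg
        rw [Pi.single_eq_of_ne]
        intro h
        apply hg
        rw [inv_mul_eq_one] at h
        exact h
      · intro h
        exact absurd ((mem_subFin _ _).mpr (Subgroup.mem_top _)) h
  rw [h1]
  exact finrank_span_singleton (v := o) (fun h => one_ne_zero (congrFun h 1 : (1 : k) = 0))

lemma AP_finrank_reg (k : Type) [Field k] (G : Type) [Group G] [Finite G] :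
    finrank k (perm k G G).V = Nat.card G := by
  have := Fintype.ofFinite G
  have h : finrank k (G → k) = Fintype.card G := Module.finrank_fintype_fun_eq_card k
  rw [Nat.card_eq_fintype_card]
  exact h

/-- the zero module -/
def AP_zero (k : Type) [Field k] (G : Type) [Group G] : Mo k G := ⟨PUnit, 1⟩

lemma AP_zero_finrank (k : Type) [Field k] (G : Type) [Group G] :
    finrank k (AP_zero k G).V = 0 := by
  have : Subsingleton (AP_zero k G).V := inferInstanceAs (Subsingleton PUnit)
  exact Module.finrank_zero_of_subsingleton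

lemma AP_iso_zero (A : Mo k G) : Iso A (A.prod (AP_zero k G)) := by
  refine ⟨{ toFun := fun a => ((a, PUnit.unit) : A.V × PUnit)
            map_add' := fun _ _ => rfl
            map_smul' := fun _ _ => rfl
            invFun := fun x => Prod.fst (α := A.V) (β := PUnit) x
            left_inv := fun _ => rfl
            right_inv := fun _ => rfl }, fun _ _ => rfl⟩

theorem AP_split (hG : IsPGroup p G) (n : ℕ) : ∀ A : Mo k G, finrank k A.V ≤ n →
    ∃ A' F : Mo k G, Proj F ∧ Iso A (A'.prod F) ∧ finrank k ↥(nrmT A') = 0 ∧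
      finrank k F.V = Nat.card G * finrank k ↥(nrmT A) := by
  induction n with
  | zero =>
    intro A hA
    have h1 : finrank k ↥(nrmT A) = 0 := by
      have := Submodule.finrank_le (nrmT A)
      omega
    refine ⟨A, AP_zero k G, proj_of_finrank_zero (AP_zero_finrank k G), AP_iso_zero A, h1, ?_⟩
    rw [h1, AP_zero_finrank, mul_zero]
  | succ n ih =>
    intro A hA
    by_cases h0 : nrmT A = ⊥
    · have h1 : finrank k ↥(nrmT A) = 0 := by rw [h0]; exact finrank_bot k A.V
      refine ⟨A, AP_zero k G, proj_of_finrank_zero (AP_zero_finrank k G), AP_iso_zero A, h1, ?_⟩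
      rw [h1, AP_zero_finrank, mul_zero]
    · obtain ⟨w, ⟨a, rfl⟩, hw⟩ := Submodule.exists_mem_ne_zero_of_ne_bot h0
      obtain ⟨r, hr, hr2⟩ := Proj.ext (proj_perm (k := k) (G := G)) (AP_phi A a) (AP_phi_isH A a)
        (AP_phi_inj hG A a hw) LinearMap.id (IsH.id _)
      have hret : Retr (perm k G G) A := ⟨AP_phi A a, r, AP_phi_isH A a, hr, hr2⟩
      obtain ⟨C, hC⟩ := hret.compl
      have hdim := hC.finrank
      rw [AP_finrank_prod, AP_finrank_reg] at hdim
      have hpos : 0 < Nat.card G := Nat.card_pos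
      obtain ⟨C', F, hF, hiso, hn, hd⟩ := ih C (by omega)
      refine ⟨C', F.prod (perm k G G), ?_, ?_, hn, ?_⟩
      · have h1 : ProjOn ⊤ (F.prod (perm k G G)) :=
          ProjOn.prod (H := ⊤) hF (proj_perm (k := k) (G := G))
        exact h1
      · refine hC.trans ((iso_prod_comm _ _).trans ((hiso.prod (Iso.refl _)).trans ?_))
        refine ⟨{ toFun := fun x => ((x.1.1, (x.1.2, x.2)) : C'.V × (F.V × (perm k G G).V))
                  map_add' := fun _ _ => rfl
                  map_smul' := fun _ _ => rfl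
                  invFun := fun y => (((y.1, y.2.1), y.2.2) : (C'.V × F.V) × (perm k G G).V)
                  left_inv := fun _ => rfl
                  right_inv := fun _ => rfl }, fun _ _ => rfl⟩
      · rw [AP_finrank_prod, AP_finrank_reg, hd]
        have h2 : finrank k ↥(nrmT A) = finrank k ↥(nrmT C) + 1 := by
          rw [AP_nrm_iso hC, AP_nrm_prod, AP_nrm_reg, add_comm]
        rw [h2]
        ring

/-- splitting off the free part -/
theorem split_free (hG : IsPGroup p G) (A : Mo k G) :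
    ∃ A' F : Mo k G, Proj F ∧ Iso A (A'.prod F) ∧ finrank k A'.V = cT A ∧
      finrank k F.V = Nat.card G * finrank k ↥(nrmT A) := by
  obtain ⟨A', F, hF, hiso, hn, hd⟩ := AP_split hG _ A le_rfl
  refine ⟨A', F, hF, hiso, ?_, hd⟩
  have h1 := hiso.finrank
  rw [AP_finrank_prod] at h1
  rw [cT]
  omega

lemma AP_split_free' (hG : IsPGroup p G) (A : Mo k G) :
    ∃ A' F : Mo k G, Proj F ∧ Iso A (A'.prod F) ∧ finrank k A'.V = cT A ∧
      finrank k ↥(invT A') = hT A := by
  obtain ⟨A', F, hF, hiso, hn, hd⟩ := AP_split hG _ A le_rfl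
  refine ⟨A', F, hF, hiso, ?_, ?_⟩
  · have h1 := hiso.finrank
    rw [AP_finrank_prod] at h1
    rw [cT]
    omega
  · have h1 : hT (A'.prod F) = hT A' + hT F := by
      have h2 := rT_prod (A := A') (B := A') (C := F) (D := F) LinearMap.id LinearMap.id
        (IsH.id _) (IsH.id _)
      rw [LinearMap.prodMap_id] at h2
      exact h2
    rw [hT_iso hiso, h1, hT_proj hF, add_zero]
    have h3 := hT_eq A'
    omega

lemma card_mul_le (hG : IsPGroup p G) (A : Mo k G) :
    Nat.card G * finrank k ↥(nrmT A) ≤ finrank k A.V := by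
  obtain ⟨A', F, hF, hiso, hn, hd⟩ := split_free hG A
  have h1 := hiso.finrank
  rw [AP_finrank_prod] at h1
  omega

lemma finrank_le_inv (hG : IsPGroup p G) (A : Mo k G) :
    finrank k A.V ≤ Nat.card G * finrank k ↥(invT A) := by
  have := Fintype.ofFinite G
  obtain ⟨π, hπ⟩ := (invT A).subtype.exists_leftInverse_of_injective (invT A).ker_subtype
  let Ψ : A.V →ₗ[k] (G → ↥(invT A)) := LinearMap.pi fun x => π ∘ₗ A.ρ x⁻¹
  have hΨ : ∀ a x, Ψ a x = π (A.ρ x⁻¹ a) := fun a x => rfl
  have hker : LinearMap.ker Ψ = ⊥ := by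
    refine AP_no_fixed hG A _ ?_ ?_
    · intro g a ha
      rw [Submodule.mem_comap, LinearMap.mem_ker]
      funext x
      rw [hΨ, ← Module.End.mul_apply, ← map_mul]
      have h1 := congrFun (LinearMap.mem_ker.mp ha) (g⁻¹ * x)
      rw [hΨ] at h1
      rw [show x⁻¹ * g = (g⁻¹ * x)⁻¹ by group]
      exact h1
    · intro v hv hfix
      have h1 := congrFun (LinearMap.mem_ker.mp hv) 1
      rw [hΨ, hfix] at h1
      have h2 : v ∈ invT A := fun g => hfix g
      have h3 := LinearMap.congr_fun hπ ⟨v, h2⟩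
      have h4 : π v = ⟨v, h2⟩ := h3
      rw [h4] at h1
      exact congrArg Subtype.val h1
  have h1 := LinearMap.finrank_le_finrank_of_injective (LinearMap.ker_eq_bot.mp hker)
  rw [Module.finrank_pi_fintype] at h1
  rw [Finset.sum_const, Finset.card_univ, smul_eq_mul] at h1
  rw [Nat.card_eq_fintype_card]
  exact h1

lemma cT_le (hG : IsPGroup p G) (A : Mo k G) : cT A ≤ Nat.card G * hT A := by
  obtain ⟨A', F, hF, hiso, hd, hi⟩ := AP_split_free' hG A
  rw [← hd, ← hi]
  exact finrank_le_inv hG A'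

lemma hT_le_cT (hG : IsPGroup p G) (A : Mo k G) : hT A ≤ cT A := by
  obtain ⟨A', F, hF, hiso, hd, hi⟩ := AP_split_free' hG A
  rw [← hd, ← hi]
  exact Submodule.finrank_le _

lemma cT_iso (h : Iso A B) : cT A = cT B := by
  rw [cT, cT, h.finrank, AP_nrm_iso h]

lemma cT_prod (hG : IsPGroup p G) (A B : Mo k G) : cT (A.prod B) = cT A + cT B := by
  have h1 := card_mul_le hG A
  have h2 := card_mul_le hG B
  rw [cT, cT, cT, AP_finrank_prod, AP_nrm_prod, mul_add]
  omega

lemma cT_proj (hG : IsPGroup p G) (h : Proj A) : cT A = 0 := by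
  have h1 := cT_le hG A
  rw [hT_proj h, mul_zero] at h1
  omega

lemma cT_ses (hG : IsPGroup p G) (f : A.V →ₗ[k] B.V) (g : B.V →ₗ[k] C.V) (h : IsSES A B C f g) :
    cT B ≤ cT A + cT C := by
  have hr : finrank k ↥(nrmT A) + finrank k ↥(nrmT C) ≤ finrank k ↥(nrmT B) := by
    have h1 := LinearMap.finrank_range_add_finrank_ker (g.domRestrict (nrmT B))
    have h2 : finrank k ↥(nrmT C) ≤ finrank k ↥(LinearMap.range (g.domRestrict (nrmT B))) := by
      apply Submodule.finrank_mono
      rintro _ ⟨c, rfl⟩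
      obtain ⟨b, rfl⟩ := h.surj c
      refine ⟨⟨nuT B b, ⟨b, rfl⟩⟩, ?_⟩
      change g (nuT B b) = _
      exact AP_nuT_comm h.hg b
    have h3 : finrank k ↥(nrmT A) ≤ finrank k ↥(LinearMap.ker (g.domRestrict (nrmT B))) := by
      have hmem : ∀ a : ↥(nrmT A), f a.1 ∈ nrmT B := by
        rintro ⟨_, ⟨a, rfl⟩⟩
        exact ⟨f a, (AP_nuT_comm h.hf a).symm⟩
      have hk : ∀ a : A.V, g (f a) = 0 := by
        intro a
        have : f a ∈ LinearMap.ker g := h.exact ▸ ⟨a, rfl⟩
        exact this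
      let φ : ↥(nrmT A) →ₗ[k] ↥(LinearMap.ker (g.domRestrict (nrmT B))) :=
        { toFun := fun a => ⟨⟨f a.1, hmem a⟩, hk a.1⟩
          map_add' := fun x y => by
            apply Subtype.ext
            apply Subtype.ext
            exact map_add f x.1 y.1
          map_smul' := fun c x => by
            apply Subtype.ext
            apply Subtype.ext
            exact map_smul f c x.1 }
      apply LinearMap.finrank_le_finrank_of_injective (f := φ)
      intro x y hxy
      apply Subtype.ext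
      apply h.inj
      exact congrArg (fun z => z.1.1) hxy
    omega
  have hdim := h.finrank
  have h1 := card_mul_le hG A
  have h2 := card_mul_le hG C
  have h3 := Nat.mul_le_mul_left (Nat.card G) hr
  rw [mul_add] at h3
  rw [cT, cT, cT]
  omega

lemma AP_Tn_zero (M : Mo k G) (n : ℕ) (A : Mo k G) (h : finrank k A.V = 0) :
    Proj (Tn M n A) := Tn_proj M n (proj_of_finrank_zero h)

lemma cT_Tn (hG : IsPGroup p G) (M : Mo k G) (n : ℕ) (A : Mo k G) :
    cT (Tn M n A) ≤ finrank k A.V * cT (Tn M n (triv k G)) := by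
  have h := pg_le hG (fun B : Mo k G => (cT (Tn M n B) : ℝ)) ?_ ?_ A
  · exact_mod_cast h
  · intro A hA
    rw [cT_proj hG (AP_Tn_zero M n A hA)]
    simp
  · intro A B C f g hs
    exact_mod_cast cT_ses hG _ _ (TnMap_ses M n hs)

/-- submultiplicativity -/
theorem cT_Tn' (hG : IsPGroup p G) (M : Mo k G) (n : ℕ) (A : Mo k G) :
    cT (Tn M n A) ≤ cT A * cT (Tn M n (triv k G)) := by
  obtain ⟨A', F, hF, hiso, hd, -⟩ := split_free hG A
  obtain ⟨e, he, -⟩ := Tn_prod M n A' F
  rw [cT_iso (Tn_iso M n hiso), cT_iso ⟨e, he⟩, cT_prod hG, cT_proj hG (Tn_proj M n hF), add_zero,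
    ← hd]
  exact cT_Tn hG M n A'

lemma hT_Tn (hG : IsPGroup p G) (M : Mo k G) (n : ℕ) (A : Mo k G) :
    hT (Tn M n A) ≤ finrank k A.V * hT (Tn M n (triv k G)) := by
  have h := pg_le hG (fun B : Mo k G => (hT (Tn M n B) : ℝ)) ?_ ?_ A
  · exact_mod_cast h
  · intro A hA
    rw [hT_proj (AP_Tn_zero M n A hA)]
    simp
  · intro A B C f g hs
    exact_mod_cast hT_ses _ _ (TnMap_ses M n hs)

/-- restriction to a subgroup -/
lemma cT_res (hG : IsPGroup p G) (H : Subgroup G) (A : Mo k G) :
    cT (A.res H.subtype) ≤ cT A := by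
  obtain ⟨A', F, hF, hiso, hd, -⟩ := split_free hG A
  have hH : IsPGroup p H := hG.to_subgroup H
  have h1 : Iso (A.res H.subtype) ((A'.res H.subtype).prod (F.res H.subtype)) :=
    hiso.res H.subtype
  rw [cT_iso h1, cT_prod hH, cT_proj hH ((projOn_iff H F).mp (hF.projOn H)), add_zero, ← hd, cT]
  exact Nat.sub_le _ _

end Pool.Agent.GamI
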