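import Pool.Agent.GamI.AT
import Pool.Agent.GamI.TN

/-! # AS: Shapiro's lemma for permutation modules -/

set_option autoImplicit false

open scoped TensorProduct
open Module

noncomputable section

namespace Pool.Agent.GamI

variable {k : Type} [Field k] {G : Type} [Group G] [Finite G]

section ASaux

/-- evaluation of the first factor at `x` -/
def AS_ev (K : Subgroup G) (N : Mo k G) (x : G ⧸ K) :
    ((perm k G (G ⧸ K)).tens N).V →ₗ[k] N.V :=
  (TensorProduct.lid k N.V).toLinearMap ∘ₗ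
    LinearMap.rTensor N.V (LinearMap.proj x : (G ⧸ K → k) →ₗ[k] k)

/-- pure tensors -/
def AS_t (K : Subgroup G) (N : Mo k G) (f : G ⧸ K → k) : N.V →ₗ[k]
    ((perm k G (G ⧸ K)).tens N).V := TensorProduct.mk k (G ⧸ K → k) N.V f

lemma AS_ev_t (K : Subgroup G) (N : Mo k G) (x : G ⧸ K) (f : G ⧸ K → k) (n : N.V) :
    AS_ev K N x (AS_t K N f n) = f x • n := rfl

lemma AS_ind (K : Subgroup G) (N : Mo k G) {Q : ((perm k G (G ⧸ K)).tens N).V → Prop}
    (h0 : Q 0) (ht : ∀ f n, Q (AS_t K N f n)) (ha : ∀ x y, Q x → Q y → Q (x + y)) (t) : Q t :=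
  TensorProduct.induction_on t h0 ht ha

lemma AS_rho_t (K : Subgroup G) (N : Mo k G) (g : G) (f : G ⧸ K → k) (n : N.V) :
    ((perm k G (G ⧸ K)).tens N).ρ g (AS_t K N f n) =
      AS_t K N (fun x => f (g⁻¹ • x)) (N.ρ g n) := rfl

lemma AS_ev_rho (K : Subgroup G) (N : Mo k G) (g : G) (x : G ⧸ K)
    (t : ((perm k G (G ⧸ K)).tens N).V) :
    AS_ev K N x (((perm k G (G ⧸ K)).tens N).ρ g t) = N.ρ g (AS_ev K N (g⁻¹ • x) t) := by
  refine AS_ind K N (Q := fun t => AS_ev K N x (((perm k G (G ⧸ K)).tens N).ρ g t) =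
    N.ρ g (AS_ev K N (g⁻¹ • x) t)) ?_ ?_ ?_ t
  · simp only [map_zero]
  · intro f n
    rw [AS_rho_t, AS_ev_t, AS_ev_t, map_smul]
  · intro a b ha hb
    simp only [map_add, ha, hb]

open Classical in
lemma AS_decomp (K : Subgroup G) [Fintype (G ⧸ K)] (N : Mo k G)
    (t : ((perm k G (G ⧸ K)).tens N).V) :
    t = ∑ x : G ⧸ K, AS_t K N (Pi.single x 1) (AS_ev K N x t) := by
  refine AS_ind K N (Q := fun t => t = ∑ x : G ⧸ K, AS_t K N (Pi.single x 1)
    (AS_ev K N x t)) ?_ ?_ ?_ t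
  · simp only [map_zero, Finset.sum_const_zero]
  · intro f n
    have h1 : ∀ x : G ⧸ K, AS_t K N (Pi.single x 1) (AS_ev K N x (AS_t K N f n)) =
        AS_t K N (f x • Pi.single x 1) n := by
      intro x
      rw [AS_ev_t]
      exact (TensorProduct.smul_tmul (f x) (Pi.single x 1 : G ⧸ K → k) n).symm
    rw [Finset.sum_congr rfl fun x _ => h1 x]
    have h2 : f = ∑ x : G ⧸ K, f x • (Pi.single x 1 : G ⧸ K → k) := by
      funext z
      rw [Finset.sum_apply, Finset.sum_eq_single z]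
      · simp
      · intro y _ hy
        simp [Pi.single_eq_of_ne hy.symm]
      · intro h
        exact absurd (Finset.mem_univ _) h
    have h3 : (∑ x : G ⧸ K, f x • (Pi.single x 1 : G ⧸ K → k)) ⊗ₜ[k] n =
        ∑ x : G ⧸ K, (f x • (Pi.single x 1 : G ⧸ K → k)) ⊗ₜ[k] n := TensorProduct.sum_tmul _ _ _
    rw [← h2] at h3
    exact h3
  · intro a b ha hb
    simp only [map_add, Finset.sum_add_distrib]
    rw [← ha, ← hb]

lemma AS_inj (K : Subgroup G) (N : Mo k G) (t : ((perm k G (G ⧸ K)).tens N).V)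
    (h : ∀ x, AS_ev K N x t = 0) : t = 0 := by
  classical
  have : Fintype (G ⧸ K) := Fintype.ofFinite _
  rw [AS_decomp K N t]
  apply Finset.sum_eq_zero
  intro x _
  rw [h x, map_zero]

lemma AS_mem_inv {A : Mo k G} {v : A.V} : v ∈ invT A ↔ ∀ g, A.ρ g v = v := Iff.rfl

/-- evaluation at the trivial coset -/
abbrev AS_e (K : Subgroup G) (N : Mo k G) : ((perm k G (G ⧸ K)).tens N).V →ₗ[k] N.V :=
  AS_ev K N ((1 : G) : G ⧸ K)

lemma AS_smul_one (K : Subgroup G) (g : G) : g • ((1 : G) : G ⧸ K) = (g : G ⧸ K) := by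
  show ((g * 1 : G) : G ⧸ K) = _
  rw [mul_one]

lemma AS_e_inj (K : Subgroup G) (N : Mo k G) (t : ((perm k G (G ⧸ K)).tens N).V)
    (ht : t ∈ invT ((perm k G (G ⧸ K)).tens N)) (h : AS_e K N t = 0) : t = 0 := by
  apply AS_inj K N t
  intro x
  induction x using QuotientGroup.induction_on with
  | H g =>
    have h1 := AS_ev_rho K N g (g : G ⧸ K) t
    rw [AS_mem_inv.1 ht g, ← AS_smul_one K g, inv_smul_smul] at h1
    rw [← AS_smul_one K g, h1]
    show N.ρ g (AS_e K N t) = 0
    rw [h, map_zero]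

lemma AS_map_inv (K : Subgroup G) (N : Mo k G) :
    Submodule.map (AS_e K N) (invT ((perm k G (G ⧸ K)).tens N)) = invT (N.res K.subtype) := by
  classical
  have : Fintype (G ⧸ K) := Fintype.ofFinite _
  apply le_antisymm
  · rintro _ ⟨t, ht, rfl⟩
    refine (AS_mem_inv (A := N.res K.subtype)).2 ?_
    rintro ⟨h, hh⟩
    show N.ρ h (AS_e K N t) = AS_e K N t
    have h1 := AS_ev_rho K N h ((1 : G) : G ⧸ K) t
    rw [AS_mem_inv.1 ht h] at h1
    have h2 : h⁻¹ • ((1 : G) : G ⧸ K) = ((1 : G) : G ⧸ K) := by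
      rw [AS_smul_one, QuotientGroup.eq]
      simpa using hh
    rw [h2] at h1
    exact h1.symm
  · intro n hn
    have hn' : ∀ h ∈ K, N.ρ h n = n := fun h hh =>
      (AS_mem_inv (A := N.res K.subtype)).1 hn ⟨h, hh⟩
    have hout : ∀ (g : G), N.ρ (g : G ⧸ K).out n = N.ρ g n := by
      intro g
      obtain ⟨h, hh⟩ := QuotientGroup.mk_out_eq_mul K g
      rw [hh, map_mul, Module.End.mul_apply, hn' h h.2]
    refine ⟨∑ x : G ⧸ K, AS_t K N (Pi.single x 1) (N.ρ x.out n), ?_, ?_⟩
    · show _ ∈ invT ((perm k G (G ⧸ K)).tens N)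
      rw [AS_mem_inv]
      intro g
      rw [map_sum]
      refine Fintype.sum_equiv (MulAction.toPerm g) _ _ fun x => ?_
      rw [AS_rho_t]
      have h1 : (fun z : G ⧸ K => (Pi.single x 1 : G ⧸ K → k) (g⁻¹ • z)) =
          Pi.single (g • x) 1 := by
        funext z
        by_cases hz : z = g • x
        · subst hz
          simp
        · rw [Pi.single_eq_of_ne hz, Pi.single_eq_of_ne]
          intro h2
          apply hz
          rw [← h2, smul_inv_smul]
      rw [h1]
      show _ = AS_t K N (Pi.single (g • x) 1) (N.ρ (g • x).out n)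
      congr 1
      induction x using QuotientGroup.induction_on with
      | H a =>
        rw [hout a]
        have h3 : g • (a : G ⧸ K) = ((g * a : G) : G ⧸ K) := rfl
        rw [h3, hout, map_mul]
        rfl
    · rw [map_sum, Finset.sum_eq_single ((1 : G) : G ⧸ K)]
      · rw [AS_ev_t, Pi.single_eq_same, one_smul, hout, map_one]
        rfl
      · intro x _ hx
        rw [AS_ev_t, Pi.single_eq_of_ne hx.symm, zero_smul]
      · intro h
        exact absurd (Finset.mem_univ _) h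

lemma AS_nu_apply (A : Mo k G) (v : A.V) :
    nuT A v = ∑ g ∈ subFin (⊤ : Subgroup G), A.ρ g v := by
  unfold nuT
  rw [LinearMap.sum_apply]

lemma AS_nu_rho (A : Mo k G) (g : G) (v : A.V) : nuT A (A.ρ g v) = nuT A v := by
  unfold nuT
  rw [LinearMap.sum_apply, LinearMap.sum_apply]
  refine Finset.sum_bij (fun x _ => x * g) ?_ ?_ ?_ ?_
  · intro a _
    rw [mem_subFin]
    exact Subgroup.mem_top _
  · intro a _ b _ h
    exact mul_right_cancel h
  · intro b _
    refine ⟨b * g⁻¹, ?_, ?_⟩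
    · rw [mem_subFin]
      exact Subgroup.mem_top _
    · group
  · intro a _
    rw [map_mul]
    rfl

open Classical in
lemma AS_e_nu (K : Subgroup G) (N : Mo k G) (n : N.V) :
    AS_e K N (nuT ((perm k G (G ⧸ K)).tens N) (AS_t K N (Pi.single ((1 : G) : G ⧸ K) 1) n)) =
      nuT (N.res K.subtype) n := by
  rw [AS_nu_apply, map_sum]
  have h0 : nuT (N.res K.subtype) n = ∑ h ∈ subFin (⊤ : Subgroup K), N.ρ h.1 n :=
    AS_nu_apply (N.res K.subtype) n
  rw [h0]
  have h1 : ∀ g : G, AS_e K N (((perm k G (G ⧸ K)).tens N).ρ g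
      (AS_t K N (Pi.single ((1 : G) : G ⧸ K) 1) n)) = if g ∈ K then N.ρ g n else 0 := by
    intro g
    rw [AS_rho_t, AS_ev_t]
    have h2 : g⁻¹ • ((1 : G) : G ⧸ K) = ((g⁻¹ : G) : G ⧸ K) := AS_smul_one K g⁻¹
    rw [h2]
    split_ifs with h
    · have h3 : ((g⁻¹ : G) : G ⧸ K) = ((1 : G) : G ⧸ K) := by
        rw [QuotientGroup.eq]
        simpa using h
      rw [h3, Pi.single_eq_same, one_smul]
    · have h3 : ((g⁻¹ : G) : G ⧸ K) ≠ ((1 : G) : G ⧸ K) := by
        intro h3
        rw [QuotientGroup.eq] at h3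
        apply h
        simpa using h3
      rw [Pi.single_eq_of_ne h3, zero_smul]
  rw [Finset.sum_congr rfl fun g _ => h1 g, ← Finset.sum_filter]
  refine Finset.sum_bij' (fun g hg => ⟨g, (Finset.mem_filter.1 hg).2⟩) (fun h _ => h.1)
    ?_ ?_ ?_ ?_ ?_
  · intro g hg
    rw [mem_subFin]
    exact Subgroup.mem_top _
  · intro h _
    rw [Finset.mem_filter, mem_subFin]
    exact ⟨Subgroup.mem_top _, h.2⟩
  · intro g _
    rfl
  · intro h _
    rfl
  · intro g _
    rfl

lemma AS_map_nrm (K : Subgroup G) (N : Mo k G) :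
    Submodule.map (AS_e K N) (nrmT ((perm k G (G ⧸ K)).tens N)) = nrmT (N.res K.subtype) := by
  classical
  have : Fintype (G ⧸ K) := Fintype.ofFinite _
  apply le_antisymm
  · rintro _ ⟨_, ⟨t, rfl⟩, rfl⟩
    rw [AS_decomp K N t, map_sum, map_sum]
    apply Submodule.sum_mem
    intro x _
    have h1 : AS_t K N (Pi.single x 1) (AS_ev K N x t) =
        ((perm k G (G ⧸ K)).tens N).ρ x.out (AS_t K N (Pi.single ((1 : G) : G ⧸ K) 1)
          (N.ρ x.out⁻¹ (AS_ev K N x t))) := by
      rw [AS_rho_t, ← Module.End.mul_apply, ← map_mul, mul_inv_cancel, map_one,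
        Module.End.one_apply]
      congr 2
      funext z
      by_cases hz : z = x
      · subst hz
        rw [Pi.single_eq_same]
        have h2 : z.out⁻¹ • z = ((1 : G) : G ⧸ K) := by
          have h3 : z = z.out • ((1 : G) : G ⧸ K) := by
            rw [AS_smul_one, QuotientGroup.out_eq']
          rw [inv_smul_eq_iff]
          exact h3
        rw [h2, Pi.single_eq_same]
      · rw [Pi.single_eq_of_ne hz, Pi.single_eq_of_ne]
        intro h2
        apply hz
        rw [inv_smul_eq_iff, AS_smul_one, QuotientGroup.out_eq'] at h2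
        exact h2
    rw [h1, AS_nu_rho]
    exact ⟨_, (AS_e_nu K N _).symm⟩
  · rintro _ ⟨n, rfl⟩
    exact ⟨_, ⟨_, rfl⟩, AS_e_nu K N n⟩

lemma AS_finrank {V W : Type} [AddCommGroup V] [Module k V] [AddCommGroup W] [Module k W]
    (f : V →ₗ[k] W) (p : Submodule k V) (h : ∀ v ∈ p, f v = 0 → v = 0) :
    finrank k ↥(Submodule.map f p) = finrank k ↥p := by
  have h1 : Function.Injective (f.domRestrict p) := by
    rw [injective_iff_map_eq_zero]
    rintro ⟨v, hv⟩ h2
    exact Subtype.ext (h v hv h2)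
  have h2 := LinearMap.finrank_range_of_inj h1
  rw [LinearMap.range_domRestrict] at h2
  exact h2

end ASaux

lemma hT_perm_tens (K : Subgroup G) (N : Mo k G) :
    hT ((perm k G (G ⧸ K)).tens N) = hT (N.res K.subtype) := by
  have h1 := hT_eq ((perm k G (G ⧸ K)).tens N)
  have h2 := hT_eq (N.res K.subtype)
  have h3 : finrank k ↥(invT ((perm k G (G ⧸ K)).tens N)) =
      finrank k ↥(invT (N.res K.subtype)) := by
    rw [← AS_map_inv K N]
    exact (AS_finrank _ _ fun v hv h => AS_e_inj K N v hv h).symm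
  have h4 : finrank k ↥(nrmT ((perm k G (G ⧸ K)).tens N)) =
      finrank k ↥(nrmT (N.res K.subtype)) := by
    rw [← AS_map_nrm K N]
    exact (AS_finrank _ _ fun v hv h => AS_e_inj K N v (nrmT_le_invT _ hv) h).symm
  omega

lemma hT_Tn_perm (K : Subgroup G) (M : Mo k G) (n : ℕ) :
    hT (Tn M n (perm k G (G ⧸ K))) = hT (Tn (M.res K.subtype) n (triv k K)) := by
  rw [hT_iso (Tn_tens M n (perm k G (G ⧸ K))), hT_perm_tens, Tn_res, res_triv]

end Pool.Agent.GamI
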