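import Pool.Agent.GamI.Defs3
import Pool.Agent.GamI.TE
import Pool.Agent.GamI.TR

/-! # AT: ranks on Tate cohomology in degree zero -/

set_option autoImplicit false

open scoped TensorProduct
open Module

noncomputable section

namespace Pool.Agent.GamI

/-! ### linear algebra -/

section LA

variable {k : Type} [Field k] {V W U : Type} [AddCommGroup V] [Module k V] [AddCommGroup W]
  [Module k W] [AddCommGroup U] [Module k U]

private lemma la_map_add [Module.Finite k V] (φ : V →ₗ[k] W) (S : Submodule k V) :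
    finrank k ↥(S.map φ) + finrank k ↥(S ⊓ LinearMap.ker φ) = finrank k ↥S := by
  have h := LinearMap.finrank_range_add_finrank_ker (φ.domRestrict S)
  rw [LinearMap.range_domRestrict] at h
  have h2 : finrank k ↥(LinearMap.ker (φ.domRestrict S)) = finrank k ↥(S ⊓ LinearMap.ker φ) := by
    have e1 : LinearMap.ker (φ.domRestrict S) = (S ⊓ LinearMap.ker φ).comap S.subtype := by
      ext x
      simp
    rw [e1]
    exact (Submodule.comapSubtypeEquivOfLe inf_le_left).finrank_eq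
  omega

private lemma la_sup [Module.Finite k V] (N S : Submodule k V) :
    finrank k ↥(S.map N.mkQ) + finrank k ↥N = finrank k ↥(S ⊔ N) := by
  have h := la_map_add N.mkQ (S ⊔ N)
  have e1 : (S ⊔ N) ⊓ LinearMap.ker N.mkQ = N := by
    rw [Submodule.ker_mkQ]
    exact inf_eq_right.2 le_sup_right
  have e2 : (S ⊔ N).map N.mkQ = S.map N.mkQ := by
    rw [Submodule.map_sup]
    rw [Submodule.mkQ_map_self, sup_bot_eq]
  rw [e1, e2] at h
  exact h

private lemma la_prod [Module.Finite k V] [Module.Finite k W] (S : Submodule k V)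
    (T : Submodule k W) : finrank k ↥(S.prod T) = finrank k ↥S + finrank k ↥T := by
  have e : ↥(S.prod T) ≃ₗ[k] (↥S × ↥T) :=
    { toFun := fun x => (⟨x.1.1, x.2.1⟩, ⟨x.1.2, x.2.2⟩)
      invFun := fun y => ⟨(y.1.1, y.2.1), ⟨y.1.2, y.2.2⟩⟩
      map_add' := fun x y => rfl
      map_smul' := fun c x => rfl
      left_inv := fun x => rfl
      right_inv := fun y => rfl }
  rw [e.finrank_eq, Module.finrank_prod]

private lemma la_frob [Module.Finite k V] [Module.Finite k W] (φ : V →ₗ[k] W)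
    (Y Z : Submodule k V) (h : Y ≤ Z) :
    finrank k ↥Y + finrank k ↥(Z.map φ) ≤ finrank k ↥Z + finrank k ↥(Y.map φ) := by
  have h1 := la_map_add φ Y
  have h2 := la_map_add φ Z
  have h3 : finrank k ↥(Y ⊓ LinearMap.ker φ) ≤ finrank k ↥(Z ⊓ LinearMap.ker φ) :=
    Submodule.finrank_mono (inf_le_inf_right _ h)
  omega

end LA

variable {k : Type} [Field k] {G : Type} [Group G] [Finite G]
variable {A B C D : Mo k G}

lemma AT_mem_invT (A : Mo k G) (x : A.V) : x ∈ invT A ↔ ∀ g, A.ρ g x = x := Iff.rfl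

lemma AT_nuT_apply (A : Mo k G) (x : A.V) :
    nuT A x = ∑ g ∈ subFin (⊤ : Subgroup G), A.ρ g x := by
  simp [nuT]

lemma AT_nuT_inv (A : Mo k G) (g : G) (x : A.V) : A.ρ g (nuT A x) = nuT A x := by
  rw [AT_nuT_apply, map_sum]
  refine Finset.sum_bij (fun h _ => g * h) ?_ ?_ ?_ ?_
  · intro h _
    rw [mem_subFin]
    trivial
  · intro a _ b _ hab
    exact mul_left_cancel hab
  · intro b _
    refine ⟨g⁻¹ * b, ?_, by simp⟩
    rw [mem_subFin]
    trivial
  · intro h _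
    rw [map_mul]
    rfl

lemma AT_nuT_comm {f : A.V →ₗ[k] B.V} (hf : IsH A B f) (x : A.V) : f (nuT A x) = nuT B (f x) := by
  rw [AT_nuT_apply, AT_nuT_apply, map_sum]
  exact Finset.sum_congr rfl fun g _ => hf g x

lemma nrmT_le_invT (A : Mo k G) : nrmT A ≤ invT A := by
  rintro x ⟨y, rfl⟩
  intro g
  exact AT_nuT_inv A g y

lemma AT_nrm_le {f : A.V →ₗ[k] B.V} (hf : IsH A B f) : nrmT A ≤ (nrmT B).comap f := by
  rintro x ⟨y, rfl⟩
  exact ⟨f y, (AT_nuT_comm hf y).symm⟩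

lemma AT_inv_le {f : A.V →ₗ[k] B.V} (hf : IsH A B f) : invT A ≤ (invT B).comap f := by
  intro x hx g
  rw [← hf g x, hx g]

/-- the space `A^G / ν A` as a subspace of `A / ν A` -/
def AT_H (A : Mo k G) : Submodule k (A.V ⧸ nrmT A) := (invT A).map (nrmT A).mkQ

/-- the induced map -/
def AT_m {f : A.V →ₗ[k] B.V} (hf : IsH A B f) : (A.V ⧸ nrmT A) →ₗ[k] (B.V ⧸ nrmT B) :=
  Submodule.mapQ (nrmT A) (nrmT B) f (AT_nrm_le hf)

lemma AT_m_comp {f : A.V →ₗ[k] B.V} (hf : IsH A B f) {g : B.V →ₗ[k] C.V} (hg : IsH B C g)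
    (hgf : IsH A C (g ∘ₗ f)) (S : Submodule k (A.V ⧸ nrmT A)) :
    S.map (AT_m hgf) = (S.map (AT_m hf)).map (AT_m hg) := by
  rw [← Submodule.map_comp]
  congr 1
  apply Submodule.linearMap_qext
  ext x
  rfl

lemma AT_m_H {f : A.V →ₗ[k] B.V} (hf : IsH A B f) : (AT_H A).map (AT_m hf) ≤ AT_H B := by
  rintro _ ⟨_, ⟨x, hx, rfl⟩, rfl⟩
  exact ⟨f x, AT_inv_le hf hx, rfl⟩

lemma AT_rT {f : A.V →ₗ[k] B.V} (hf : IsH A B f) :
    rT A B f = finrank k ↥((AT_H A).map (AT_m hf)) := by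
  have h1 : (AT_H A).map (AT_m hf) = ((invT A).map f).map (nrmT B).mkQ := by
    rw [AT_H, ← Submodule.map_comp, ← Submodule.map_comp]
    rfl
  have h2 := la_sup (nrmT B) ((invT A).map f)
  rw [h1, rT]
  omega

lemma AT_hT (A : Mo k G) : hT A = finrank k ↥(AT_H A) := by
  have h1 := la_sup (nrmT A) (invT A)
  have h2 : Submodule.map LinearMap.id (invT A) = invT A := Submodule.map_id _
  rw [hT, rT, h2, AT_H]
  omega

lemma hT_eq (A : Mo k G) : hT A + finrank k ↥(nrmT A) = finrank k ↥(invT A) := by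
  rw [AT_hT, AT_H, la_sup, sup_eq_left.2 (nrmT_le_invT A)]

lemma rT_comp_r (f : A.V →ₗ[k] B.V) (g : B.V →ₗ[k] C.V) (hf : IsH A B f) (hg : IsH B C g) :
    rT A C (g ∘ₗ f) ≤ rT A B f := by
  rw [AT_rT hf, AT_rT (hg.comp hf), AT_m_comp hf hg]
  exact Submodule.finrank_map_le _ _

lemma rT_comp_l (f : A.V →ₗ[k] B.V) (g : B.V →ₗ[k] C.V) (hf : IsH A B f) (hg : IsH B C g) :
    rT A C (g ∘ₗ f) ≤ rT B C g := by
  rw [AT_rT hg, AT_rT (hg.comp hf), AT_m_comp hf hg]
  exact Submodule.finrank_mono (Submodule.map_mono (AT_m_H hf))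

lemma rT_prod (f : A.V →ₗ[k] B.V) (g : C.V →ₗ[k] D.V) (hf : IsH A B f) (hg : IsH C D g) :
    rT (A.prod C) (B.prod D) (f.prodMap g) = rT A B f + rT C D g := by
  have h1 : invT (A.prod C) = (invT A).prod (invT C) := by
    ext x
    constructor
    · intro hx
      exact ⟨fun g => congrArg Prod.fst (hx g), fun g => congrArg Prod.snd (hx g)⟩
    · intro hx g
      exact Prod.ext (hx.1 g) (hx.2 g)
  have hnu : ∀ x : (B.prod D).V, nuT (B.prod D) x = (nuT B x.1, nuT D x.2) := by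
    intro x
    rw [AT_nuT_apply, AT_nuT_apply, AT_nuT_apply]
    apply Prod.ext
    · exact map_sum (LinearMap.fst k B.V D.V) (fun g => (B.prod D).ρ g x) _
    · exact map_sum (LinearMap.snd k B.V D.V) (fun g => (B.prod D).ρ g x) _
  have h2 : nrmT (B.prod D) = (nrmT B).prod (nrmT D) := by
    ext x
    constructor
    · rintro ⟨y, rfl⟩
      rw [hnu]
      exact ⟨⟨_, rfl⟩, ⟨_, rfl⟩⟩
    · rintro ⟨⟨y, hy⟩, ⟨z, hz⟩⟩
      exact ⟨(y, z), (hnu (y, z)).trans (Prod.ext hy hz)⟩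
  have h3 : Submodule.map (f.prodMap g) ((invT A).prod (invT C)) ⊔ (nrmT B).prod (nrmT D) =
      ((invT A).map f ⊔ nrmT B).prod ((invT C).map g ⊔ nrmT D) := by
    rw [← Submodule.prod_sup_prod]
    congr 1
    ext x
    constructor
    · rintro ⟨y, hy, rfl⟩
      exact ⟨⟨y.1, hy.1, rfl⟩, ⟨y.2, hy.2, rfl⟩⟩
    · rintro ⟨⟨y, hy, h⟩, ⟨z, hz, h'⟩⟩
      exact ⟨(y, z), ⟨hy, hz⟩, Prod.ext h h'⟩
  unfold rT
  rw [h1, h2]
  change finrank k ↥(Submodule.map (f.prodMap g) ((invT A).prod (invT C)) ⊔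
    (nrmT B).prod (nrmT D)) - _ = _
  rw [h3]
  erw [la_prod, la_prod]
  have h4 : finrank k ↥(nrmT B) ≤ finrank k ↥((invT A).map f ⊔ nrmT B) :=
    Submodule.finrank_mono le_sup_right
  have h5 : finrank k ↥(nrmT D) ≤ finrank k ↥((invT C).map g ⊔ nrmT D) :=
    Submodule.finrank_mono le_sup_right
  omega

lemma rT_iso (f : A.V →ₗ[k] B.V) (hf : IsH A B f) (e : C.V ≃ₗ[k] A.V) (he : IsH C A e.toLinearMap)
    (e' : B.V ≃ₗ[k] D.V) (he' : IsH B D e'.toLinearMap) :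
    rT C D (e'.toLinearMap ∘ₗ f ∘ₗ e.toLinearMap) = rT A B f := by
  apply le_antisymm
  · exact (rT_comp_r _ _ (hf.comp he) he').trans (rT_comp_l _ _ he hf)
  · have h1 : f = e'.symm.toLinearMap ∘ₗ (e'.toLinearMap ∘ₗ f ∘ₗ e.toLinearMap) ∘ₗ
        e.symm.toLinearMap := by
      ext x
      simp
    conv_lhs => rw [h1]
    have h2 : IsH C D (e'.toLinearMap ∘ₗ f ∘ₗ e.toLinearMap) := he'.comp (hf.comp he)
    exact (rT_comp_r _ _ (h2.comp he.symm) he'.symm).trans (rT_comp_l _ _ he.symm h2)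

lemma hT_iso (h : Iso A B) : hT A = hT B := by
  obtain ⟨e, he⟩ := h
  have h1 := rT_iso (LinearMap.id : A.V →ₗ[k] A.V) (IsH.id A) e.symm he.symm e he
  have h2 : e.toLinearMap ∘ₗ LinearMap.id ∘ₗ e.symm.toLinearMap = LinearMap.id := by
    ext x
    simp
  rw [h2] at h1
  exact h1.symm

lemma hT_proj (h : Proj A) : hT A = 0 := by
  obtain ⟨θ, hθ⟩ := h
  have h1 : invT A ≤ nrmT A := by
    intro x hx
    refine ⟨θ x, ?_⟩
    have h2 := LinearMap.congr_fun hθ x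
    rw [AT_nuT_apply]
    rw [trH, LinearMap.sum_apply] at h2
    rw [LinearMap.id_apply] at h2
    refine Eq.trans ?_ h2
    refine Finset.sum_congr rfl fun g _ => ?_
    simp only [cj, LinearMap.comp_apply]
    rw [hx g⁻¹]
  have h3 := hT_eq A
  have h4 : finrank k ↥(invT A) ≤ finrank k ↥(nrmT A) := Submodule.finrank_mono h1
  omega

lemma rT_ses (f : A.V →ₗ[k] B.V) (g : B.V →ₗ[k] C.V) (h : IsSES A B C f g) :
    rT A B f + rT B C g = hT B := by
  rw [AT_rT h.hf, AT_rT h.hg, AT_hT]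
  have h1 := la_map_add (AT_m h.hg) (AT_H B)
  have h2 : AT_H B ⊓ LinearMap.ker (AT_m h.hg) = (AT_H A).map (AT_m h.hf) := by
    apply le_antisymm
    · rintro _ ⟨⟨x, hx, rfl⟩, hx2⟩
      have h3 : (nrmT C).mkQ (g x) = 0 := hx2
      rw [Submodule.mkQ_apply, Submodule.Quotient.mk_eq_zero] at h3
      obtain ⟨c, hc⟩ := h3
      obtain ⟨b, rfl⟩ := h.surj c
      have h4 : x - nuT B b ∈ LinearMap.ker g := by
        rw [LinearMap.mem_ker, map_sub, AT_nuT_comm h.hg, hc, sub_self]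
      rw [← h.exact] at h4
      obtain ⟨a, ha⟩ := h4
      have h5 : a ∈ invT A := by
        intro y
        apply h.inj
        rw [h.hf, ha, map_sub, hx y, AT_nuT_inv]
      refine ⟨(nrmT A).mkQ a, ⟨a, h5, rfl⟩, ?_⟩
      change (nrmT B).mkQ (f a) = (nrmT B).mkQ x
      rw [ha, map_sub, sub_eq_self, Submodule.mkQ_apply, Submodule.Quotient.mk_eq_zero]
      exact ⟨b, rfl⟩
    · rintro _ ⟨_, ⟨x, hx, rfl⟩, rfl⟩
      refine ⟨⟨f x, AT_inv_le h.hf hx, rfl⟩, ?_⟩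
      change (nrmT C).mkQ (g (f x)) = 0
      have h3 : g (f x) = 0 := by
        have : f x ∈ LinearMap.ker g := by
          rw [← h.exact]
          exact ⟨x, rfl⟩
        exact this
      rw [h3, map_zero]
  rw [h2] at h1
  omega

lemma rT_le (f : A.V →ₗ[k] B.V) (hf : IsH A B f) : rT A B f ≤ hT A := by
  have := rT_comp_l LinearMap.id f (IsH.id A) hf
  have h2 := rT_comp_r (LinearMap.id : A.V →ₗ[k] A.V) f (IsH.id A) hf
  exact h2

lemma AT_rT_le_cod (f : A.V →ₗ[k] B.V) (hf : IsH A B f) : rT A B f ≤ hT B := by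
  have h2 := rT_comp_l f (LinearMap.id : B.V →ₗ[k] B.V) hf (IsH.id B)
  exact h2

lemma hT_ses (f : A.V →ₗ[k] B.V) (g : B.V →ₗ[k] C.V) (h : IsSES A B C f g) :
    hT B ≤ hT A + hT C := by
  have h1 := rT_ses f g h
  have h2 := rT_le f h.hf
  have h3 := AT_rT_le_cod g h.hg
  omega

lemma rT_frob (f : A.V →ₗ[k] B.V) (g : B.V →ₗ[k] C.V) (u : C.V →ₗ[k] D.V) (hf : IsH A B f)
    (hg : IsH B C g) (hu : IsH C D u) :
    rT A C (g ∘ₗ f) + rT B D (u ∘ₗ g) ≤ rT B C g + rT A D (u ∘ₗ g ∘ₗ f) := by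
  rw [AT_rT hg, AT_rT (hg.comp hf), AT_rT (hu.comp hg), AT_rT (hu.comp (hg.comp hf)),
    AT_m_comp hg hu, AT_m_comp (hg.comp hf) hu]
  refine la_frob (AT_m hu) _ _ ?_
  rw [AT_m_comp hf hg]
  exact Submodule.map_mono (AT_m_H hf)

end Pool.Agent.GamI
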