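import Pool.Agent.GamI.Defs
import Pool.Agent.GamI.TE
import Pool.Agent.GamI.TR

/-! # RF: formal consequences of the axioms of a rank functional -/

set_option autoImplicit false

open scoped TensorProduct
open Module

noncomputable section

namespace Pool.Agent.GamI

namespace RankFn

variable {k : Type} [Field k] {G : Type} [Group G] [Finite G] (s : RankFn k G)
variable {A B C D : Mo k G}

lemma val_nonneg (A : Mo k G) : 0 ≤ s.val A := s.nonneg _ _ _

lemma le_dom {f : A.V →ₗ[k] B.V} (hf : IsH A B f) : s.s A B f ≤ s.val A :=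
  s.comp_le_r A A B LinearMap.id f (IsH.id A) hf

lemma le_cod {f : A.V →ₗ[k] B.V} (hf : IsH A B f) : s.s A B f ≤ s.val B :=
  s.comp_le_l A B B f LinearMap.id hf (IsH.id B)

lemma val_of_finrank_zero (h : finrank k A.V = 0) : s.val A = 0 :=
  s.proj A (proj_of_finrank_zero h)

lemma s_zero (A B : Mo k G) : s.s A B 0 = 0 := by
  let Z : Mo k G := ⟨Unit, 1⟩
  have hZ : s.val Z = 0 := by
    apply s.val_of_finrank_zero
    have : Subsingleton Z.V := inferInstanceAs (Subsingleton Unit)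
    exact Module.finrank_zero_of_subsingleton
  have h1 : s.s A B ((0 : Z.V →ₗ[k] B.V) ∘ₗ (0 : A.V →ₗ[k] Z.V)) ≤ s.s A Z 0 :=
    s.comp_le_r A Z B 0 0 (IsH.zero A Z) (IsH.zero Z B)
  have h2 : s.s A Z 0 ≤ s.val Z := s.le_cod (IsH.zero A Z)
  rw [LinearMap.comp_zero] at h1
  exact le_antisymm (by linarith) (s.nonneg _ _ _)

lemma comp_iso_l {f : A.V →ₗ[k] B.V} (hf : IsH A B f) (e : B.V ≃ₗ[k] C.V)
    (he : IsH B C e.toLinearMap) : s.s A C (e.toLinearMap ∘ₗ f) = s.s A B f := by
  refine le_antisymm (s.comp_le_r A B C f e.toLinearMap hf he) ?_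
  have h1 := s.comp_le_r A C B (e.toLinearMap ∘ₗ f) e.symm.toLinearMap (he.comp hf) he.symm
  have h2 : e.symm.toLinearMap ∘ₗ (e.toLinearMap ∘ₗ f) = f := by
    refine LinearMap.ext fun v => ?_
    exact e.symm_apply_apply (f v)
  rw [h2] at h1
  exact h1

lemma comp_iso_r {f : B.V →ₗ[k] C.V} (hf : IsH B C f) (e : A.V ≃ₗ[k] B.V)
    (he : IsH A B e.toLinearMap) : s.s A C (f ∘ₗ e.toLinearMap) = s.s B C f := by
  refine le_antisymm (s.comp_le_l A B C e.toLinearMap f he hf) ?_
  have h1 := s.comp_le_l B A C e.symm.toLinearMap (f ∘ₗ e.toLinearMap) he.symm (hf.comp he)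
  have h2 : (f ∘ₗ e.toLinearMap) ∘ₗ e.symm.toLinearMap = f := by
    refine LinearMap.ext fun v => ?_
    exact congrArg f (e.apply_symm_apply v)
  rw [h2] at h1
  exact h1

lemma val_iso (h : Iso A B) : s.val A = s.val B := by
  obtain ⟨e, he⟩ := h
  have h1 := s.comp_iso_l (IsH.id A) e he
  have h2 := s.comp_iso_r (IsH.id B) e he
  rw [LinearMap.comp_id] at h1
  rw [LinearMap.id_comp] at h2
  exact h1.symm.trans h2

lemma s_iso (e : A.V ≃ₗ[k] B.V) (he : IsH A B e.toLinearMap) :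
    s.s A B e.toLinearMap = s.val A := by
  have h1 := s.comp_iso_l (IsH.id A) e he
  rw [LinearMap.comp_id] at h1
  exact h1

lemma val_prod (A B : Mo k G) : s.val (A.prod B) = s.val A + s.val B := by
  have h := s.prod A A B B LinearMap.id LinearMap.id (IsH.id A) (IsH.id B)
  rw [LinearMap.prodMap_id] at h
  exact h

lemma val_retr (h : Retr A B) : s.val A ≤ s.val B := by
  obtain ⟨i, r, hi, hr, hri⟩ := h
  have h1 := s.comp_le_r A B A i r hi hr
  rw [hri] at h1
  exact h1.trans (s.le_cod hi)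

lemma s_neg {f : A.V →ₗ[k] B.V} (hf : IsH A B f) : s.s A B (-f) = s.s A B f := by
  have h1 := s.comp_iso_l hf (LinearEquiv.neg k) (fun g v => by
    show -(B.ρ g v) = B.ρ g (-v)
    rw [map_neg])
  have h2 : (LinearEquiv.neg k : B.V ≃ₗ[k] B.V).toLinearMap ∘ₗ f = -f := by
    refine LinearMap.ext fun v => ?_
    rfl
  rw [h2] at h1
  exact h1

lemma add_le {f g : A.V →ₗ[k] B.V} (hf : IsH A B f) (hg : IsH A B g) :
    s.s A B (f + g) ≤ s.s A B f + s.s A B g := by
  let δ : A.V →ₗ[k] (A.prod A).V := LinearMap.prod LinearMap.id LinearMap.id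
  let σ : (B.prod B).V →ₗ[k] B.V := LinearMap.coprod LinearMap.id LinearMap.id
  have hδ : IsH A (A.prod A) δ := fun h v => rfl
  have hσ : IsH (B.prod B) B σ := by
    intro h (v : B.V × B.V)
    show B.ρ h v.1 + B.ρ h v.2 = B.ρ h (v.1 + v.2)
    rw [map_add]
  have hP : IsH (A.prod A) (B.prod B) (f.prodMap g) := hf.prodMap hg
  have h1 := s.comp_le_r A (B.prod B) B ((f.prodMap g) ∘ₗ δ) σ (hP.comp hδ) hσ
  have h2 := s.comp_le_l A (A.prod A) (B.prod B) δ (f.prodMap g) hδ hP
  have h3 : σ ∘ₗ ((f.prodMap g) ∘ₗ δ) = f + g := by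
    refine LinearMap.ext fun v => ?_
    rfl
  rw [h3] at h1
  rw [s.prod A B A B f g hf hg] at h2
  exact h1.trans h2

lemma sub_le {f g : A.V →ₗ[k] B.V} (hf : IsH A B f) (hg : IsH A B g) :
    s.s A B (f - g) ≤ s.s A B f + s.s A B g := by
  have h := s.add_le hf hg.neg
  rw [s.s_neg hg, ← sub_eq_add_neg] at h
  exact h

lemma eq_of_sub_null {f g : A.V →ₗ[k] B.V} (hf : IsH A B f) (hg : IsH A B g)
    (h : s.s A B (f - g) = 0) : s.s A B f = s.s A B g := by
  have h1 := s.add_le hg (hf.sub hg)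
  rw [h, add_sub_cancel] at h1
  have h2 := s.sub_le hf (hf.sub hg)
  rw [h, sub_sub_cancel] at h2
  linarith

/-- Sylvester's inequality -/
lemma sylv {f : A.V →ₗ[k] B.V} {g : B.V →ₗ[k] C.V} (hf : IsH A B f) (hg : IsH B C g) :
    s.s A B f + s.s B C g ≤ s.val B + s.s A C (g ∘ₗ f) :=
  s.frob A B B C f LinearMap.id g hf (IsH.id B) hg

lemma val_of_proj (h : Proj A) : s.val A = 0 := s.proj A h

lemma ses_val {f : A.V →ₗ[k] B.V} {g : B.V →ₗ[k] C.V} (h : IsSES A B C f g) :
    s.val B ≤ s.val A + s.val C := by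
  have h1 : s.s A B f + s.s B C g = s.val B := s.ses A B C f g h
  have h2 := s.le_dom h.hf
  have h3 := s.le_cod h.hg
  linarith

lemma ses_inj_null {f : A.V →ₗ[k] B.V} {g : B.V →ₗ[k] C.V} (h : IsSES A B C f g)
    (hC : s.val C = 0) : s.s A B f = s.val B := by
  have h1 : s.s A B f + s.s B C g = s.val B := s.ses A B C f g h
  have h3 := s.le_cod h.hg
  have h4 := s.nonneg B C g
  linarith

lemma ses_surj_null {f : A.V →ₗ[k] B.V} {g : B.V →ₗ[k] C.V} (h : IsSES A B C f g)
    (hA : s.val A = 0) : s.s B C g = s.val B := by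
  have h1 : s.s A B f + s.s B C g = s.val B := s.ses A B C f g h
  have h3 := s.le_dom h.hf
  have h4 := s.nonneg A B f
  linarith

omit [Finite G] in
/-- distributivity, natural and equivariant -/
lemma prodLeft_isH (A C J : Mo k G) : IsH ((A.prod C).tens J) ((A.tens J).prod (C.tens J))
    (TensorProduct.prodLeft k k A.V C.V J.V).toLinearMap := by
  intro g v
  have h : (TensorProduct.prodLeft k k A.V C.V J.V).toLinearMap ∘ₗ (((A.prod C).tens J).ρ g)
      = (((A.tens J).prod (C.tens J)).ρ g) ∘ₗ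
        (TensorProduct.prodLeft k k A.V C.V J.V).toLinearMap := by
    refine TensorProduct.ext' fun (a : A.V × C.V) (j : J.V) => ?_
    rfl
  exact congrArg (fun L => L v) h

/-- the sum of two rank functionals composed with an exact functor: here simply the functional
`f ↦ s(f ⊗ J)` -/
lemma exists_tens (J : Mo k G) : ∃ s' : RankFn k G, ∀ (A B : Mo k G) (f : A.V →ₗ[k] B.V),
    s'.s A B f = s.s A B f + s.s (A.tens J) (B.tens J) (f.rTensor J.V) := by
  refine ⟨{
    s := fun A B f => s.s A B f + s.s (A.tens J) (B.tens J) (f.rTensor J.V)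
    nonneg := fun A B f => add_nonneg (s.nonneg _ _ _) (s.nonneg _ _ _)
    comp_le_r := ?_
    comp_le_l := ?_
    prod := ?_
    proj := ?_
    ses := ?_
    frob := ?_ }, fun A B f => rfl⟩
  · intro A B C f g hf hg
    have h1 := s.comp_le_r A B C f g hf hg
    have h2 := s.comp_le_r (A.tens J) (B.tens J) (C.tens J) (f.rTensor J.V) (g.rTensor J.V)
      (hf.rT J) (hg.rT J)
    have h3 : (g ∘ₗ f).rTensor J.V = (g.rTensor J.V) ∘ₗ (f.rTensor J.V) :=
      LinearMap.rTensor_comp _ _ _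
    rw [h3]
    exact add_le_add h1 h2
  · intro A B C f g hf hg
    have h1 := s.comp_le_l A B C f g hf hg
    have h2 := s.comp_le_l (A.tens J) (B.tens J) (C.tens J) (f.rTensor J.V) (g.rTensor J.V)
      (hf.rT J) (hg.rT J)
    have h3 : (g ∘ₗ f).rTensor J.V = (g.rTensor J.V) ∘ₗ (f.rTensor J.V) :=
      LinearMap.rTensor_comp _ _ _
    rw [h3]
    exact add_le_add h1 h2
  · intro A B C D f g hf hg
    have h1 := s.prod A B C D f g hf hg
    have h2 := s.prod (A.tens J) (B.tens J) (C.tens J) (D.tens J) (f.rTensor J.V)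
      (g.rTensor J.V) (hf.rT J) (hg.rT J)
    have hP : IsH (A.prod C) (B.prod D) (f.prodMap g) := hf.prodMap hg
    have h3 := s.comp_iso_l (hP.rT J) (C := (B.tens J).prod (D.tens J))
      (TensorProduct.prodLeft k k B.V D.V J.V) (prodLeft_isH B D J)
    have h4 := s.comp_iso_r ((hf.rT J).prodMap (hg.rT J)) (A := (A.prod C).tens J)
      (TensorProduct.prodLeft k k A.V C.V J.V) (prodLeft_isH A C J)
    have h5 : (TensorProduct.prodLeft k k B.V D.V J.V).toLinearMap ∘ₗ
        ((f.prodMap g).rTensor J.V) = ((f.rTensor J.V).prodMap (g.rTensor J.V)) ∘ₗ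
        (TensorProduct.prodLeft k k A.V C.V J.V).toLinearMap := by
      refine TensorProduct.ext' fun (a : A.V × C.V) (j : J.V) => ?_
      rfl
    have h6 : s.s ((A.prod C).tens J) ((B.prod D).tens J) ((f.prodMap g).rTensor J.V)
        = s.s (A.tens J) (B.tens J) (f.rTensor J.V)
          + s.s (C.tens J) (D.tens J) (g.rTensor J.V) := by
      refine h3.symm.trans (Eq.trans ?_ (h4.trans h2))
      exact congrArg (s.s ((A.prod C).tens J) ((B.tens J).prod (D.tens J))) h5
    show s.s (A.prod C) (B.prod D) (f.prodMap g)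
      + s.s ((A.prod C).tens J) ((B.prod D).tens J) ((f.prodMap g).rTensor J.V) = _
    rw [h6, h1]
    ring
  · intro A hA
    have h1 := s.proj A hA
    have h2 := s.proj (A.tens J) (ProjOn.tens_r hA J)
    have h3 : (LinearMap.id : A.V →ₗ[k] A.V).rTensor J.V = LinearMap.id :=
      LinearMap.rTensor_id _ _
    rw [h1, h3, zero_add]
    exact h2
  · intro A B C f g h
    have h1 := s.ses A B C f g h
    have h2 := s.ses (A.tens J) (B.tens J) (C.tens J) _ _ (h.rT J)
    have h3 : (LinearMap.id : B.V →ₗ[k] B.V).rTensor J.V = LinearMap.id :=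
      LinearMap.rTensor_id _ _
    rw [h3]
    calc _ = (s.s A B f + s.s B C g) + (s.s (A.tens J) (B.tens J) (f.rTensor J.V)
          + s.s (B.tens J) (C.tens J) (g.rTensor J.V)) := by ring
      _ = _ := congrArg₂ (· + ·) h1 h2
  · intro A B C D f g h hf hg hh
    have h1 := s.frob A B C D f g h hf hg hh
    have h2 := s.frob (A.tens J) (B.tens J) (C.tens J) (D.tens J) (f.rTensor J.V)
      (g.rTensor J.V) (h.rTensor J.V) (hf.rT J) (hg.rT J) (hh.rT J)
    have h3 : (g ∘ₗ f).rTensor J.V = (g.rTensor J.V) ∘ₗ (f.rTensor J.V) :=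
      LinearMap.rTensor_comp _ _ _
    have h4 : (h ∘ₗ g).rTensor J.V = (h.rTensor J.V) ∘ₗ (g.rTensor J.V) :=
      LinearMap.rTensor_comp _ _ _
    have h5 : (h ∘ₗ g ∘ₗ f).rTensor J.V
        = (h.rTensor J.V) ∘ₗ (g.rTensor J.V) ∘ₗ (f.rTensor J.V) := by
      rw [LinearMap.rTensor_comp, LinearMap.rTensor_comp]
    rw [h3, h4, h5]
    exact (le_of_eq (add_add_add_comm _ _ _ _)).trans
      ((add_le_add h1 h2).trans (le_of_eq (add_add_add_comm _ _ _ _)))

end RankFn

end Pool.Agent.GamI
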