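import Pool.Agent.GamI.AP
import Pool.Agent.GamI.AS
import Pool.Agent.GamI.AL
import Pool.Agent.GamI.RF

/-! # AU: the rank functionals attached to the growth of `M^{⊗ n}` -/

set_option autoImplicit false

open scoped TensorProduct
open Module

noncomputable section

namespace Pool.Agent.GamI

namespace AUAux

/-- the properties of a generalised limit -/
structure IsGL (D : ℕ → ℝ) (γ : ℝ) (L : (ℕ → ℝ) → ℝ) : Prop where
  add : ∀ r r', Dom D r → Dom D r' → L (fun n => r n + r' n) = L r + L r'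
  smul : ∀ (c : ℝ) r, Dom D r → L (fun n => c * r n) = c * L r
  mono : ∀ r r', Dom D r → Dom D r' → (∀ n, r n ≤ r' n) → L r ≤ L r'
  shift : ∀ r, Dom D r → Dom D (fun n => r (n + 1)) → L (fun n => r (n + 1)) = γ * L r
  one : L D = 1

lemma IsGL.zero {D : ℕ → ℝ} {γ : ℝ} {L : (ℕ → ℝ) → ℝ} (h : IsGL D γ L) (hD : Dom D (fun _ => 0)) :
    L (fun _ => 0) = 0 := by
  have h1 := h.smul 0 _ hD
  simpa using h1

variable {k : Type} [Field k] {G : Type} [Group G] [Finite G]

/-- the sequence of ranks attached to a map -/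
def sq (M A B : Mo k G) (f : A.V →ₗ[k] B.V) : ℕ → ℝ :=
  fun n => (rT (Tn M n A) (Tn M n B) (TnMap M n f) : ℝ)

lemma Dom.add {D r r' : ℕ → ℝ} (h : Dom D r) (h' : Dom D r') : Dom D (fun n => r n + r' n) := by
  obtain ⟨c, hc⟩ := h
  obtain ⟨c', hc'⟩ := h'
  refine ⟨c + c', fun n => ?_⟩
  calc |r n + r' n| ≤ |r n| + |r' n| := abs_add_le _ _
    _ ≤ c * D n + c' * D n := add_le_add (hc n) (hc' n)
    _ = (c + c') * D n := by ring

lemma Dom.zero {D : ℕ → ℝ} : Dom D (fun _ => 0) := ⟨0, fun n => by simp⟩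

lemma rT_conj {A B C D : Mo k G} (F : C.V →ₗ[k] D.V) (f : A.V →ₗ[k] B.V) (hf : IsH A B f)
    (e : C.V ≃ₗ[k] A.V) (he : IsH C A e.toLinearMap) (e' : D.V ≃ₗ[k] B.V)
    (he' : IsH D B e'.toLinearMap) (h : e'.toLinearMap ∘ₗ F = f ∘ₗ e.toLinearMap) :
    rT C D F = rT A B f := by
  rw [← rT_iso f hf e he e'.symm he'.symm]
  congr 1
  rw [← h]
  ext v
  simp

lemma rT_Tn_prod (M : Mo k G) (n : ℕ) {A B C E : Mo k G} (f : A.V →ₗ[k] B.V) (g : C.V →ₗ[k] E.V)
    (hf : IsH A B f) (hg : IsH C E g) :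
    rT (Tn M n (A.prod C)) (Tn M n (B.prod E))
      (TnMap M n (A := A.prod C) (B := B.prod E) (f.prodMap g)) =
      rT (Tn M n A) (Tn M n B) (TnMap M n f) + rT (Tn M n C) (Tn M n E) (TnMap M n g) := by
  obtain ⟨e, he, h1⟩ := Tn_prod M n A C
  obtain ⟨e', he', h2⟩ := h1 B E
  have h3 := rT_conj (A := (Tn M n A).prod (Tn M n C)) (B := (Tn M n B).prod (Tn M n E))
    (TnMap M n (A := A.prod C) (B := B.prod E) (f.prodMap g))
    ((TnMap M n f).prodMap (TnMap M n g)) ((TnMap_isH M n hf).prodMap (TnMap_isH M n hg))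
    e he e' he' (h2 f g)
  exact h3.trans (rT_prod _ _ (TnMap_isH M n hf) (TnMap_isH M n hg))

open Classical in
/-- the rank functional attached to a generalised limit -/
def mkRank (M : Mo k G) (D : ℕ → ℝ) (γ : ℝ) (L : (ℕ → ℝ) → ℝ) (hL : IsGL D γ L)
    (hdom : ∀ (A B : Mo k G) (f : A.V →ₗ[k] B.V), IsH A B f → Dom D (sq M A B f)) :
    RankFn k G where
  s A B f := if IsH A B f then L (sq M A B f) else 0
  nonneg A B f := by
    split_ifs with h
    · rw [← hL.zero Dom.zero]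
      exact hL.mono _ _ Dom.zero (hdom A B f h) (fun n => Nat.cast_nonneg _)
    · exact le_rfl
  comp_le_r A B C f g hf hg := by
    rw [if_pos (hg.comp hf), if_pos hf]
    refine hL.mono _ _ (hdom _ _ _ (hg.comp hf)) (hdom _ _ _ hf) (fun n => ?_)
    simp only [sq]
    rw [TnMap_comp]
    exact_mod_cast rT_comp_r _ _ (TnMap_isH M n hf) (TnMap_isH M n hg)
  comp_le_l A B C f g hf hg := by
    rw [if_pos (hg.comp hf), if_pos hg]
    refine hL.mono _ _ (hdom _ _ _ (hg.comp hf)) (hdom _ _ _ hg) (fun n => ?_)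
    simp only [sq]
    rw [TnMap_comp]
    exact_mod_cast rT_comp_l _ _ (TnMap_isH M n hf) (TnMap_isH M n hg)
  prod A B C E f g hf hg := by
    rw [if_pos (hf.prodMap hg), if_pos hf, if_pos hg, ← hL.add _ _ (hdom _ _ _ hf) (hdom _ _ _ hg)]
    congr 1
    funext n
    simp only [sq]
    exact_mod_cast rT_Tn_prod M n f g hf hg
  proj A hA := by
    rw [if_pos (IsH.id A)]
    have h1 : sq M A A LinearMap.id = fun _ => 0 := by
      funext n
      simp only [sq]
      rw [TnMap_id]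
      exact_mod_cast hT_proj (Tn_proj M n hA)
    rw [h1]
    exact hL.zero Dom.zero
  ses A B C f g h := by
    rw [if_pos h.hf, if_pos h.hg, if_pos (IsH.id B),
      ← hL.add _ _ (hdom _ _ _ h.hf) (hdom _ _ _ h.hg)]
    congr 1
    funext n
    simp only [sq]
    rw [TnMap_id]
    exact_mod_cast rT_ses _ _ (TnMap_ses M n h)
  frob A B C E f g u hf hg hu := by
    have hgf := hg.comp hf
    have hug := hu.comp hg
    have hugf : IsH A E (u ∘ₗ g ∘ₗ f) := hu.comp hgf
    rw [if_pos hgf, if_pos hug, if_pos hg, if_pos hugf,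
      ← hL.add _ _ (hdom _ _ _ hgf) (hdom _ _ _ hug),
      ← hL.add _ _ (hdom _ _ _ hg) (hdom _ _ _ hugf)]
    refine hL.mono _ _ (Dom.add (hdom _ _ _ hgf) (hdom _ _ _ hug))
      (Dom.add (hdom _ _ _ hg) (hdom _ _ _ hugf)) (fun n => ?_)
    simp only [sq]
    rw [TnMap_comp, TnMap_comp, TnMap_comp, TnMap_comp]
    exact_mod_cast rT_frob _ _ _ (TnMap_isH M n hf) (TnMap_isH M n hg) (TnMap_isH M n hu)


lemma mkRank_s (M : Mo k G) (D : ℕ → ℝ) (γ : ℝ) (L : (ℕ → ℝ) → ℝ) (hL : IsGL D γ L)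
    (hdom : ∀ (A B : Mo k G) (f : A.V →ₗ[k] B.V), IsH A B f → Dom D (sq M A B f))
    (A B : Mo k G) (f : A.V →ₗ[k] B.V) (hf : IsH A B f) :
    (mkRank M D γ L hL hdom).s A B f = L (sq M A B f) := if_pos hf

lemma mkRank_val (M : Mo k G) (D : ℕ → ℝ) (γ : ℝ) (L : (ℕ → ℝ) → ℝ) (hL : IsGL D γ L)
    (hdom : ∀ (A B : Mo k G) (f : A.V →ₗ[k] B.V), IsH A B f → Dom D (sq M A B f))
    (A : Mo k G) :
    (mkRank M D γ L hL hdom).val A = L (fun n => (hT (Tn M n A) : ℝ)) := by
  have h1 : (mkRank M D γ L hL hdom).val A = L (sq M A A LinearMap.id) :=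
    mkRank_s M D γ L hL hdom A A LinearMap.id (IsH.id A)
  rw [h1]
  congr 1
  funext n
  simp only [sq]
  rw [TnMap_id]
  rfl

variable {p : ℕ} [Fact p.Prime] [CharP k p]

/-- restriction along a bijective homomorphism does not change the invariants -/
lemma hT_res_bij {H : Type} [Group H] [Finite H] (j : H →* G) (hj : Function.Bijective j)
    (A : Mo k G) : hT (A.res j) = hT A := by
  have h1 : invT (A.res j) = invT A := by
    ext v
    change (∀ h : H, A.ρ (j h) v = v) ↔ (∀ g : G, A.ρ g v = v)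
    constructor
    · intro h g
      obtain ⟨x, rfl⟩ := hj.2 g
      exact h x
    · intro h x
      exact h (j x)
  have h2 : nuT (A.res j) = nuT A := by
    unfold nuT
    refine Finset.sum_bij (fun h _ => j h) ?_ ?_ ?_ ?_
    · intro a _
      rw [mem_subFin]
      exact Subgroup.mem_top _
    · intro a _ b _ hab
      exact hj.1 hab
    · intro b _
      obtain ⟨a, rfl⟩ := hj.2 b
      exact ⟨a, (mem_subFin _ _).2 (Subgroup.mem_top _), rfl⟩
    · intro a _
      rfl
  unfold hT rT nrmT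
  rw [h1, h2]
  rfl

lemma dom_sq {S : Type} [Group S] [Finite S] (hS : IsPGroup p S) (M : Mo k S) (H : Subgroup S)
    (A B : Mo k H) (f : A.V →ₗ[k] B.V) (hf : IsH A B f) :
    Dom (fun n => (hT (Tn M n (triv k S)) : ℝ)) (sq (M.res H.subtype) A B f) := by
  refine ⟨finrank k A.V * Nat.card S, fun n => ?_⟩
  rw [abs_of_nonneg (Nat.cast_nonneg _)]
  have hH : IsPGroup p H := hS.to_subgroup H
  have h1 : rT (Tn (M.res H.subtype) n A) (Tn (M.res H.subtype) n B)
      (TnMap (M.res H.subtype) n f) ≤ hT (Tn (M.res H.subtype) n A) :=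
    rT_le _ (TnMap_isH _ n hf)
  have h2 := hT_Tn hH (M.res H.subtype) n A
  have h3 := hT_le_cT hH (Tn (M.res H.subtype) n (triv k H))
  have h4 : Tn (M.res H.subtype) n (triv k H) = (Tn M n (triv k S)).res H.subtype := by
    rw [Tn_res, res_triv]
  have h5 := cT_res hS H (Tn M n (triv k S))
  rw [← h4] at h5
  have h6 := cT_le hS (Tn M n (triv k S))
  have h7 : rT (Tn (M.res H.subtype) n A) (Tn (M.res H.subtype) n B)
      (TnMap (M.res H.subtype) n f) ≤
      finrank k A.V * (Nat.card S * hT (Tn M n (triv k S))) :=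
    h1.trans (h2.trans (Nat.mul_le_mul le_rfl (h3.trans (h5.trans h6))))
  change ((rT (Tn (M.res H.subtype) n A) (Tn (M.res H.subtype) n B)
      (TnMap (M.res H.subtype) n f) : ℕ) : ℝ) ≤ _
  calc ((rT (Tn (M.res H.subtype) n A) (Tn (M.res H.subtype) n B)
      (TnMap (M.res H.subtype) n f) : ℕ) : ℝ)
      ≤ ((finrank k A.V * (Nat.card S * hT (Tn M n (triv k S))) : ℕ) : ℝ) := by exact_mod_cast h7
    _ = _ := by push_cast; ring

end AUAux

open AUAux

variable {p : ℕ} [Fact p.Prime] {k : Type} [Field k] [CharP k p] {S : Type} [Group S] [Finite S]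

/-- a rank functional for each subgroup -/
theorem exists_family (hS : IsPGroup p S) (M : Mo k S) (γ : ℝ) (hγ : 1 ≤ γ)
    (h1 : ∀ n, γ ^ n ≤ cT (Tn M n (triv k S)))
    (h2 : Filter.Tendsto (fun n : ℕ => (cT (Tn M n (triv k S)) : ℝ) ^ ((1 : ℝ) / (n : ℝ)))
      Filter.atTop (nhds γ)) :
    ∃ F : (H : Subgroup S) → RankFn k H,
      (∀ H, (F H).Eig (M.res H.subtype) γ) ∧ (F ⊤).val (triv k (⊤ : Subgroup S)) ≠ 0 ∧
      ∀ (H : Subgroup S) (K : Subgroup H), (F H).val (perm k H (H ⧸ K)) =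
        (F (K.map H.subtype)).val (triv k (K.map H.subtype : Subgroup S)) := by
  have hγ0 : 0 < γ := lt_of_lt_of_le one_pos hγ
  set D : ℕ → ℝ := fun n => (hT (Tn M n (triv k S)) : ℝ) with hD
  have hcard : (0 : ℝ) < Nat.card S := by exact_mod_cast Nat.card_pos
  obtain ⟨L, hLa, hLs, hLm, hLsh, hL1⟩ := exists_genlim D γ hγ (fun n => Nat.cast_nonneg _)
    (by
      refine ⟨(Nat.card S : ℝ)⁻¹, inv_pos.2 hcard, fun n => ?_⟩
      have h3 : (cT (Tn M n (triv k S)) : ℝ) ≤ Nat.card S * hT (Tn M n (triv k S)) := by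
        exact_mod_cast cT_le hS (Tn M n (triv k S))
      rw [inv_mul_le_iff₀ hcard]
      exact (h1 n).trans h3)
    (by
      intro t ht htγ
      have h3 : γ < t⁻¹ := by
        rw [lt_inv_comm₀ hγ0 ht, inv_eq_one_div, lt_div_iff₀ hγ0]
        exact htγ
      obtain ⟨γ', hγ1, hγ2⟩ := exists_between h3
      have hγ'0 : 0 < γ' := hγ0.trans hγ1
      have h4 : ∀ᶠ n : ℕ in Filter.atTop,
          (cT (Tn M n (triv k S)) : ℝ) ^ ((1 : ℝ) / (n : ℝ)) < γ' :=
        h2.eventually (gt_mem_nhds hγ1)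
      have h5 : t * γ' < 1 := by
        rw [← mul_inv_cancel₀ ht.ne']
        exact mul_lt_mul_of_pos_left hγ2 ht
      have h6 : Summable fun n : ℕ => (t * γ') ^ n :=
        summable_geometric_of_lt_one (by positivity) h5
      refine Summable.of_norm_bounded_eventually_nat h6 ?_
      filter_upwards [h4, Filter.eventually_gt_atTop 0] with n hn hn0
      have hn0' : (n : ℝ) ≠ 0 := by
        have : (0 : ℝ) < n := by exact_mod_cast hn0
        exact this.ne'
      have h7 : (cT (Tn M n (triv k S)) : ℝ) ≤ γ' ^ n := by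
        have h8 : (cT (Tn M n (triv k S)) : ℝ) =
            ((cT (Tn M n (triv k S)) : ℝ) ^ ((1 : ℝ) / (n : ℝ))) ^ n := by
          rw [← Real.rpow_natCast, ← Real.rpow_mul (Nat.cast_nonneg _), one_div,
            inv_mul_cancel₀ hn0', Real.rpow_one]
        rw [h8]
        exact pow_le_pow_left₀ (Real.rpow_nonneg (Nat.cast_nonneg _) _) hn.le n
      have h9 : D n ≤ γ' ^ n := by
        refine le_trans ?_ h7
        change (hT (Tn M n (triv k S)) : ℝ) ≤ _
        exact_mod_cast hT_le_cT hS (Tn M n (triv k S))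
      rw [Real.norm_of_nonneg (mul_nonneg (pow_nonneg ht.le n) (Nat.cast_nonneg _)), mul_pow]
      exact mul_le_mul_of_nonneg_left h9 (pow_nonneg ht.le n))
  have hL : IsGL D γ L := ⟨hLa, hLs, hLm, hLsh, hL1⟩
  have hdom := fun (H : Subgroup S) (A B : Mo k H) (f : A.V →ₗ[k] B.V) (hf : IsH A B f) =>
    dom_sq (p := p) hS M H A B f hf
  refine ⟨fun H => mkRank (M.res H.subtype) D γ L hL (hdom H), ?_, ?_, ?_⟩
  · intro H A B f hf
    rw [mkRank_s _ _ _ _ _ _ _ _ _ (hf.rT _), mkRank_s _ _ _ _ _ _ _ _ _ hf]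
    exact hL.shift (sq (M.res H.subtype) A B f) (hdom H A B f hf)
      (hdom H (A.tens (M.res H.subtype)) (B.tens (M.res H.subtype)) _ (hf.rT _))
  · rw [mkRank_val]
    have h3 : (fun n => (hT (Tn (M.res (⊤ : Subgroup S).subtype) n
        (triv k (⊤ : Subgroup S))) : ℝ)) = D := by
      funext n
      have h4 : Tn (M.res (⊤ : Subgroup S).subtype) n (triv k (⊤ : Subgroup S)) =
          (Tn M n (triv k S)).res (⊤ : Subgroup S).subtype := by
        rw [Tn_res, res_triv]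
      rw [h4, hT_res_bij (⊤ : Subgroup S).subtype
        ⟨Subtype.val_injective, fun g => ⟨⟨g, Subgroup.mem_top g⟩, rfl⟩⟩]
    rw [h3, hL.one]
    exact one_ne_zero
  · intro H K
    rw [mkRank_val, mkRank_val]
    congr 1
    funext n
    rw [hT_Tn_perm]
    let j : K →* (K.map H.subtype : Subgroup S) :=
      { toFun := fun x => ⟨H.subtype x.1, Subgroup.mem_map_of_mem H.subtype x.2⟩
        map_one' := rfl
        map_mul' := fun a b => rfl }
    have hj : Function.Bijective j := by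
      constructor
      · intro a b hab
        apply Subtype.ext
        apply Subtype.ext
        exact congrArg (fun z : (K.map H.subtype : Subgroup S) => z.1) hab
      · rintro ⟨g, hg⟩
        obtain ⟨x, hx, rfl⟩ := hg
        exact ⟨⟨x, hx⟩, rfl⟩
    rw [← hT_res_bij j hj, Tn_res, res_triv]
    rfl

/-- (choose `H` minimal with `F_H(k) ≠ 0`) -/
theorem exists_rankFn (hS : IsPGroup p S) (M : Mo k S) (γ : ℝ) (hγ : 1 ≤ γ)
    (h1 : ∀ n, γ ^ n ≤ cT (Tn M n (triv k S)))
    (h2 : Filter.Tendsto (fun n : ℕ => (cT (Tn M n (triv k S)) : ℝ) ^ ((1 : ℝ) / (n : ℝ)))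
      Filter.atTop (nhds γ)) :
    ∃ (H : Subgroup S) (s : RankFn k H), 0 < s.val (triv k H) ∧
      s.Eig (M.res H.subtype) γ ∧ s.NullPerm := by
  classical
  obtain ⟨F, hF1, hF2, hF3⟩ := exists_family hS M γ hγ h1 h2
  obtain ⟨H, hH, hmin⟩ := (Set.toFinite {H : Subgroup S | (F H).val (triv k H) ≠ 0}).exists_minimal
    ⟨⊤, hF2⟩
  refine ⟨H, F H, lt_of_le_of_ne ((F H).val_nonneg _) (Ne.symm hH), hF1 H, ?_⟩
  intro K hK
  rw [hF3]
  by_contra hne
  have h3 : K.map H.subtype ≤ H := by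
    rintro _ ⟨x, -, rfl⟩
    exact x.2
  have h4 := hmin hne h3
  apply hK
  rw [eq_top_iff]
  intro x _
  obtain ⟨y, hy, hyx⟩ := h4 x.2
  have : y = x := Subtype.ext hyx
  rwa [← this]

end Pool.Agent.GamI
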