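import Pool.Agent.GamI.Defs2
import Pool.Agent.GamI.TE
import Pool.Agent.GamI.RF

/-! # BE: functoriality of the families `XM` -/

set_option autoImplicit false

open scoped TensorProduct
open Module Polynomial

noncomputable section

namespace Pool.Agent.GamI

variable {k : Type} [Field k] {E : Type} [Group E]

/-- coefficients of a translate -/
lemma BEAux.coeff_taylor {R : Type} [CommRing R] (n : ℕ) (r : R) (f : R[X])
    (hf : ∀ i, n ≤ i → f.coeff i = 0) (j : ℕ) :
    (taylor r f).coeff j = ∑ i ∈ Finset.range n, (i.choose j) • (r ^ (i - j) * f.coeff i) := by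
  have hf' : f = ∑ i ∈ Finset.range n, monomial i (f.coeff i) := by
    apply Polynomial.ext
    intro l
    simp only [finsetSum_coeff, coeff_monomial]
    rw [Finset.sum_ite_eq' (Finset.range n) l]
    split_ifs with h
    · rfl
    · exact hf l (by simpa using h)
  conv_lhs => rw [hf']
  rw [map_sum, finsetSum_coeff]
  refine Finset.sum_congr rfl fun i _ => ?_
  rw [taylor_monomial, coeff_C_mul, coeff_X_add_C_pow, nsmul_eq_mul]
  ring

/-- a short exact sequence of graded modules `R₁(-e) → R → R₂` gives one of the families -/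
theorem xses_map (D₁ D D₂ : GA k E) (e : ℤ) (φ : D₁.R →ₗ[k] D.R) (ψ : D.R →+* D₂.R)
    (hψ : ∀ c x, ψ (c • x) = (c : k) • ψ x)
    (hφl : ∀ (g : E) (x : D₁.R), φ ((D₁.lam g).toAdd * x) = (D.lam g).toAdd * φ x)
    (hψl : ∀ g : E, ψ (D.lam g).toAdd = (D₂.lam g).toAdd)
    (hinj : Function.Injective φ)
    (hφg : ∀ m x, x ∈ D₁.gr m → φ x ∈ D.gr (m + e))
    (hψg : ∀ m x, x ∈ D.gr m → ψ x ∈ D₂.gr m)
    (hψs : ∀ m y, y ∈ D₂.gr m → ∃ x ∈ D.gr m, ψ x = y)
    (hex : ∀ m x, x ∈ D.gr m → (ψ x = 0 ↔ ∃ y ∈ D₁.gr (m - e), φ y = x)) (n : ℕ) (d : ℤ) :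
    ∃ (f : (D₁.XM n (d - e)).V →ₗ[k] (D.XM n d).V) (g : (D.XM n d).V →ₗ[k] (D₂.XM n d).V),
      IsSES (D₁.XM n (d - e)) (D.XM n d) (D₂.XM n d) f g ∧
      (∀ v (j : ℕ), ((f v).1 : D.R[X]).coeff j = φ ((v.1 : D₁.R[X]).coeff j)) := by
  -- the coefficientwise maps
  let F : D₁.R[X] →ₗ[k] D.R[X] := ∑ i ∈ Finset.range n,
    ((monomial i : D.R →ₗ[D.R] D.R[X]).restrictScalars k) ∘ₗ φ ∘ₗ
      ((lcoeff D₁.R i).restrictScalars k)
  have hF : ∀ v : D₁.R[X], F v = ∑ i ∈ Finset.range n, monomial i (φ (v.coeff i)) := by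
    intro v
    simp [F, LinearMap.sum_apply]
  have hFc : ∀ v ∈ D₁.XS n (d - e), ∀ j, (F v).coeff j = φ (v.coeff j) := by
    intro v hv j
    rw [hF]
    simp only [finsetSum_coeff, coeff_monomial]
    rw [Finset.sum_ite_eq' (Finset.range n) j]
    split_ifs with h
    · rfl
    · rw [hv.1 j (by simpa using h), map_zero]
  have hFm : ∀ v ∈ D₁.XS n (d - e), F v ∈ D.XS n d := by
    intro v hv
    refine ⟨fun j hj => ?_, fun j => ?_⟩
    · rw [hFc v hv, hv.1 j hj, map_zero]
    · rw [hFc v hv]
      have h := hφg _ _ (hv.2 j)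
      have h4 : d - e - (j : ℤ) + e = d - j := by ring
      rwa [h4] at h
  let Ψ : D.R[X] →ₗ[k] D₂.R[X] :=
    { toFun := fun v => v.map ψ
      map_add' := fun v w => by simp
      map_smul' := fun c v => by
        apply Polynomial.ext
        intro j
        simp [coeff_map, hψ] }
  have hΨc : ∀ (v : D.R[X]) (j : ℕ), (Ψ v).coeff j = ψ (v.coeff j) := by
    intro v j
    exact coeff_map _ _
  have hΨm : ∀ v ∈ D.XS n d, Ψ v ∈ D₂.XS n d := by
    intro v hv
    refine ⟨fun j hj => ?_, fun j => ?_⟩
    · rw [hΨc, hv.1 j hj, map_zero]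
    · rw [hΨc]
      exact hψg _ _ (hv.2 j)
  have hφp : ∀ (g : E) (i : ℕ) (x : D₁.R),
      φ ((D₁.lam g).toAdd ^ i * x) = (D.lam g).toAdd ^ i * φ x := by
    intro g i
    induction i with
    | zero => intro x; simp
    | succ i ih =>
      intro x
      rw [pow_succ, mul_assoc, ih, hφl, pow_succ, mul_assoc]
  let f : (D₁.XM n (d - e)).V →ₗ[k] (D.XM n d).V := F.restrict hFm
  let g : (D.XM n d).V →ₗ[k] (D₂.XM n d).V := Ψ.restrict hΨm
  refine ⟨f, g, ?_, fun v j => hFc v.1 v.2 j⟩
  refine { hf := ?_, hg := ?_, inj := ?_, surj := ?_, exact := ?_ }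
  · intro γ v
    apply Subtype.ext
    change F (taylor (D₁.lam γ).toAdd v.1) = taylor (D.lam γ).toAdd (F v.1)
    apply Polynomial.ext
    intro j
    rw [hFc _ (D₁.XS_taylor n _ γ v.1 v.2), BEAux.coeff_taylor n _ _ v.2.1,
      BEAux.coeff_taylor n _ _ (hFm v.1 v.2).1, map_sum]
    refine Finset.sum_congr rfl fun i _ => ?_
    rw [map_nsmul, hφp, hFc v.1 v.2]
  · intro γ v
    apply Subtype.ext
    change Ψ (taylor (D.lam γ).toAdd v.1) = taylor (D₂.lam γ).toAdd (Ψ v.1)
    apply Polynomial.ext
    intro j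
    rw [hΨc, BEAux.coeff_taylor n _ _ v.2.1,
      BEAux.coeff_taylor n _ _ (hΨm v.1 v.2).1, map_sum]
    refine Finset.sum_congr rfl fun i _ => ?_
    rw [map_nsmul, map_mul, map_pow, hψl, hΨc]
  · intro v w h
    apply Subtype.ext
    apply Polynomial.ext
    intro j
    apply hinj
    rw [← hFc v.1 v.2, ← hFc w.1 w.2]
    exact congrArg (fun q : (D.XM n d).V => (q.1 : D.R[X]).coeff j) h
  · rintro ⟨y, hy⟩
    choose! c hc1 hc2 using hψs
    let x : D.R[X] := ∑ i ∈ Finset.range n, monomial i (c (d - i) (y.coeff i))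
    have hx : ∀ i, i < n → x.coeff i = c (d - i) (y.coeff i) := by
      intro i hi
      simp only [x, finsetSum_coeff, coeff_monomial]
      rw [Finset.sum_ite_eq' (Finset.range n) i, if_pos (Finset.mem_range.2 hi)]
    have hx' : ∀ i, n ≤ i → x.coeff i = 0 := by
      intro i hi
      simp only [x, finsetSum_coeff, coeff_monomial]
      rw [Finset.sum_ite_eq' (Finset.range n) i, if_neg (by simpa using hi)]
    have hxm : x ∈ D.XS n d := by
      refine ⟨hx', fun j => ?_⟩
      by_cases hj : j < n
      · rw [hx j hj]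
        exact hc1 _ _ (hy.2 j)
      · rw [hx' j (not_lt.1 hj)]
        exact (D.gr _).zero_mem
    refine ⟨⟨x, hxm⟩, ?_⟩
    apply Subtype.ext
    change Ψ x = y
    apply Polynomial.ext
    intro j
    rw [hΨc]
    by_cases hj : j < n
    · rw [hx j hj]
      exact hc2 _ _ (hy.2 j)
    · rw [hx' j (not_lt.1 hj), map_zero, hy.1 j (not_lt.1 hj)]
  · ext v
    rw [LinearMap.mem_range, LinearMap.mem_ker]
    constructor
    · rintro ⟨w, rfl⟩
      apply Subtype.ext
      change Ψ (F w.1) = 0
      apply Polynomial.ext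
      intro j
      rw [hΨc, coeff_zero]
      have h1 := (hFm w.1 w.2).2 j
      rw [hex _ _ h1]
      refine ⟨w.1.coeff j, ?_, (hFc w.1 w.2 j).symm⟩
      have h2 := w.2.2 j
      have h4 : d - e - (j : ℤ) = d - j - e := by ring
      rwa [h4] at h2
    · intro hv
      have h1 : ∀ j, ψ (v.1.coeff j) = 0 := by
        intro j
        rw [← hΨc]
        have h2 : Ψ v.1 = 0 := congrArg Subtype.val hv
        rw [h2, coeff_zero]
      have h2 : ∀ j : ℕ, ∃ y ∈ D₁.gr (d - j - e), φ y = v.1.coeff j := fun j =>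
        (hex _ _ (v.2.2 j)).1 (h1 j)
      choose c hc1 hc2 using h2
      let x : D₁.R[X] := ∑ i ∈ Finset.range n, monomial i (c i)
      have hx : ∀ i, i < n → x.coeff i = c i := by
        intro i hi
        simp only [x, finsetSum_coeff, coeff_monomial]
        rw [Finset.sum_ite_eq' (Finset.range n) i, if_pos (Finset.mem_range.2 hi)]
      have hx' : ∀ i, n ≤ i → x.coeff i = 0 := by
        intro i hi
        simp only [x, finsetSum_coeff, coeff_monomial]
        rw [Finset.sum_ite_eq' (Finset.range n) i, if_neg (by simpa using hi)]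
      have hxm : x ∈ D₁.XS n (d - e) := by
        refine ⟨hx', fun j => ?_⟩
        by_cases hj : j < n
        · rw [hx j hj]
          have h4 : d - e - (j : ℤ) = d - j - e := by ring
          rw [h4]
          exact hc1 j
        · rw [hx' j (not_lt.1 hj)]
          exact (D₁.gr _).zero_mem
      refine ⟨⟨x, hxm⟩, ?_⟩
      apply Subtype.ext
      change F x = v.1
      apply Polynomial.ext
      intro j
      rw [hFc x hxm]
      by_cases hj : j < n
      · rw [hx j hj, hc2]
      · rw [hx' j (not_lt.1 hj), map_zero, v.2.1 j (not_lt.1 hj)]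

/-- the value on a representation with trivial action -/
lemma BEAux.val_trivial [Finite E] (s : RankFn k E) : ∀ (N : ℕ) (A : Mo k E),
    finrank k A.V = N → (∀ g v, A.ρ g v = v) → s.val A = N * s.val (triv k E) := by
  intro N
  induction N with
  | zero =>
    intro A hA _
    rw [s.val_of_finrank_zero hA]
    simp
  | succ N ih =>
    intro A hA hg
    let B : Mo k E := ⟨Fin N → k, 1⟩
    have hB : finrank k B.V = N := by
      change finrank k (Fin N → k) = N
      simp
    have hfin : finrank k A.V = finrank k ((triv k E).prod B).V := by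
      change finrank k A.V = finrank k (k × (Fin N → k))
      rw [hA, Module.finrank_prod]
      simp [add_comm]
    have hiso : Iso A ((triv k E).prod B) := by
      refine ⟨LinearEquiv.ofFinrankEq A.V ((triv k E).prod B).V hfin, ?_⟩
      intro g v
      rw [hg]
      rfl
    rw [s.val_iso hiso, s.val_prod, ih B hB (fun g v => rfl)]
    push_cast
    ring

/-- the family with one coefficient is trivial -/
theorem xm_one [Finite E] (D : GA k E) (d : ℤ) (s : RankFn k E) :
    s.val (D.XM 1 d) = finrank k (D.gr d) * s.val (triv k E) := by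
  have hconst : ∀ v ∈ D.XS 1 d, v = C (v.coeff 0) := by
    intro v hv
    apply Polynomial.ext
    intro j
    rcases Nat.eq_zero_or_pos j with rfl | hj
    · simp
    · rw [hv.1 j hj, coeff_C, if_neg (by omega)]
  have hd : d - ((0 : ℕ) : ℤ) = d := by simp
  let e : (D.XM 1 d).V ≃ₗ[k] D.gr d :=
    { toFun := fun v => ⟨(v.1 : D.R[X]).coeff 0, by
        have := v.2.2 0
        rwa [hd] at this⟩
      map_add' := fun v w => by
        apply Subtype.ext
        exact coeff_add _ _ _
      map_smul' := fun c v => by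
        apply Subtype.ext
        exact coeff_smul _ _ _
      invFun := fun x => ⟨C x.1, by
        refine ⟨fun j hj => ?_, fun j => ?_⟩
        · rw [coeff_C, if_neg (by omega)]
        · rw [coeff_C]
          split_ifs with h
          · subst h
            rw [hd]
            exact x.2
          · exact (D.gr _).zero_mem⟩
      left_inv := fun v => by
        apply Subtype.ext
        exact (hconst v.1 v.2).symm
      right_inv := fun x => by
        apply Subtype.ext
        exact coeff_C_zero }
  have := BEAux.val_trivial s (finrank k (D.gr d)) (D.XM 1 d) e.finrank_eq (by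
    intro g v
    apply Subtype.ext
    change taylor (D.lam g).toAdd v.1 = v.1
    rw [hconst v.1 v.2, taylor_C])
  exact this

/-- the family vanishes when the pieces vanish -/
theorem xm_zero (D : GA k E) (n : ℕ) (d : ℤ) (h : ∀ j : ℕ, j < n → D.gr (d - j) = ⊥) :
    finrank k (D.XM n d).V = 0 := by
  have : Subsingleton (D.XM n d).V := by
    refine ⟨fun v w => ?_⟩
    have hz : ∀ u : (D.XM n d).V, u = 0 := by
      intro u
      apply Subtype.ext
      apply Polynomial.ext
      intro j
      change (u.1 : D.R[X]).coeff j = 0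
      by_cases hj : j < n
      · have h2 := u.2.2 j
        rw [h j hj] at h2
        exact (Submodule.mem_bot k).1 h2
      · exact u.2.1 j (not_lt.1 hj)
    rw [hz v, hz w]
  exact finrank_zero_of_subsingleton

end Pool.Agent.GamI
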