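import Pool.Agent.GamI.RF
import Pool.Agent.GamI.PG

/-! # RP: rank functionals on `p`-groups: null objects, rotation, null sums -/

set_option autoImplicit false

open scoped TensorProduct
open Module

noncomputable section

namespace Pool.Agent.GamI

lemma RP_zero {k : Type} [Field k] {G : Type} [Group G] {A B C : Mo k G}
    {f : A.V →ₗ[k] B.V} {g : B.V →ₗ[k] C.V} (h : IsSES A B C f g) (a : A.V) : g (f a) = 0 := by
  have : f a ∈ LinearMap.ker g := by
    rw [← h.exact]
    exact ⟨a, rfl⟩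
  exact this

lemma RP_ex {k : Type} [Field k] {G : Type} [Group G] {A B C : Mo k G}
    {f : A.V →ₗ[k] B.V} {g : B.V →ₗ[k] C.V} (h : IsSES A B C f g) (b : B.V) (hb : g b = 0) :
    ∃ a, f a = b := by
  have : b ∈ LinearMap.range f := by
    rw [h.exact]
    exact hb
  exact this

lemma RP_mk {k : Type} [Field k] {G : Type} [Group G] {A B C : Mo k G}
    {f : A.V →ₗ[k] B.V} {g : B.V →ₗ[k] C.V} (hf : IsH A B f) (hg : IsH B C g)
    (hi : Function.Injective f) (hs : Function.Surjective g) (h0 : ∀ a, g (f a) = 0)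
    (h1 : ∀ b, g b = 0 → ∃ a, f a = b) : IsSES A B C f g := by
  refine ⟨hf, hg, hi, hs, le_antisymm ?_ ?_⟩
  · rintro _ ⟨a, rfl⟩
    exact h0 a
  · intro b hb
    exact h1 b hb

/-- replace the quotient by an isomorphic one -/
lemma RP_iso_r {k : Type} [Field k] {G : Type} [Group G] {A B C C' : Mo k G}
    {f : A.V →ₗ[k] B.V} {g : B.V →ₗ[k] C.V} (h : IsSES A B C f g) (e : C.V ≃ₗ[k] C'.V)
    (he : IsH C C' e.toLinearMap) : IsSES A B C' f (e.toLinearMap ∘ₗ g) := by
  refine RP_mk h.hf (he.comp h.hg) h.inj (e.surjective.comp h.surj) ?_ ?_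
  · intro a
    show e (g (f a)) = 0
    rw [RP_zero h, map_zero]
  · intro b hb
    have hb' : e (g b) = 0 := hb
    exact RP_ex h b (e.injective (hb'.trans (map_zero e).symm))

/-- replace the kernel by an isomorphic one -/
lemma RP_iso_l {k : Type} [Field k] {G : Type} [Group G] {A A' B C : Mo k G}
    {f : A.V →ₗ[k] B.V} {g : B.V →ₗ[k] C.V} (h : IsSES A B C f g) (e : A'.V ≃ₗ[k] A.V)
    (he : IsH A' A e.toLinearMap) : IsSES A' B C (f ∘ₗ e.toLinearMap) g := by
  refine RP_mk (h.hf.comp he) h.hg (h.inj.comp e.injective) h.surj ?_ ?_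
  · intro a
    show g (f (e a)) = 0
    rw [RP_zero h]
  · intro b hb
    obtain ⟨a, ha⟩ := RP_ex h b hb
    refine ⟨e.symm a, ?_⟩
    show f (e (e.symm a)) = b
    rw [e.apply_symm_apply, ha]

/-- two short exact sequences with the same injection have isomorphic quotients -/
lemma RP_quo_unique {k : Type} [Field k] {G : Type} [Group G] {A B C C' : Mo k G}
    {f : A.V →ₗ[k] B.V} {g : B.V →ₗ[k] C.V} {g' : B.V →ₗ[k] C'.V} (h : IsSES A B C f g)
    (h' : IsSES A B C' f g') : Iso C C' := by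
  have hk : LinearMap.ker g = LinearMap.ker g' := by rw [← h.exact, ← h'.exact]
  let e : C.V ≃ₗ[k] C'.V :=
    ((LinearMap.quotKerEquivOfSurjective g h.surj).symm.trans
      (Submodule.quotEquivOfEq _ _ hk)).trans (LinearMap.quotKerEquivOfSurjective g' h'.surj)
  have he : ∀ b, e (g b) = g' b := by
    intro b
    have h1 : (LinearMap.quotKerEquivOfSurjective g h.surj).symm (g b) =
        Submodule.Quotient.mk b := by
      rw [LinearEquiv.symm_apply_eq]
      rfl
    show (LinearMap.quotKerEquivOfSurjective g' h'.surj)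
      ((Submodule.quotEquivOfEq _ _ hk)
        ((LinearMap.quotKerEquivOfSurjective g h.surj).symm (g b))) = g' b
    rw [h1]
    rfl
  refine ⟨e, ?_⟩
  intro x c
  obtain ⟨b, rfl⟩ := h.surj c
  show e (C.ρ x (g b)) = C'.ρ x (e (g b))
  rw [← h.hg, he, he, h'.hg]

/-- two short exact sequences with the same surjection have isomorphic kernels -/
lemma RP_sub_unique {k : Type} [Field k] {G : Type} [Group G] {A A' B C : Mo k G}
    {f : A.V →ₗ[k] B.V} {f' : A'.V →ₗ[k] B.V} {g : B.V →ₗ[k] C.V} (h : IsSES A B C f g)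
    (h' : IsSES A' B C f' g) : Iso A A' := by
  have hk : LinearMap.range f = LinearMap.range f' := by rw [h.exact, h'.exact]
  let e : A.V ≃ₗ[k] A'.V :=
    ((LinearEquiv.ofInjective f h.inj).trans (LinearEquiv.ofEq _ _ hk)).trans
      (LinearEquiv.ofInjective f' h'.inj).symm
  have he : ∀ a, f' (e a) = f a := by
    intro a
    have h1 : ∀ y : LinearMap.range f', f' ((LinearEquiv.ofInjective f' h'.inj).symm y) = y := by
      intro y
      have := congrArg Subtype.val ((LinearEquiv.ofInjective f' h'.inj).apply_symm_apply y)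
      exact this
    have h2 := h1 ((LinearEquiv.ofEq _ _ hk) ((LinearEquiv.ofInjective f h.inj) a))
    exact h2
  refine ⟨e, ?_⟩
  intro x a
  apply h'.inj
  show f' (e (A.ρ x a)) = f' (A'.ρ x (e a))
  rw [he, h'.hf, he, h.hf]

/-- the augmentation sequence of the regular representation, tensored with `C` -/
lemma RP_aug {k : Type} [Field k] {G : Type} [Group G] [Finite G] (C : Mo k G) :
    ∃ (Q I : Mo k G) (i : (C.tens I).V →ₗ[k] Q.V) (π : Q.V →ₗ[k] C.V), Proj Q ∧
      finrank k I.V ≤ Nat.card G ∧ IsSES (C.tens I) Q C i π := by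
  classical
  have := Fintype.ofFinite G
  let ε : (perm k G G).V →ₗ[k] (triv k G).V := Fintype.linearCombination k (fun _ : G => (1 : k))
  have hε : ∀ φ : G → k, ε φ = ∑ x, φ x := by
    intro φ
    show Fintype.linearCombination k (fun _ : G => (1 : k)) φ = _
    rw [Fintype.linearCombination_apply]
    simp
  have hεH : IsH (perm k G G) (triv k G) ε := by
    intro g φ
    show ε ((perm k G G).ρ g φ) = ε φ
    rw [hε, hε]
    show ∑ x, φ (g⁻¹ • x) = ∑ x, φ x
    exact Fintype.sum_equiv (MulAction.toPerm g⁻¹) _ _ (fun x => rfl)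
  have hεs : Function.Surjective ε := by
    intro c
    refine ⟨(Pi.single 1 c : G → k), ?_⟩
    rw [hε]
    simp
  obtain ⟨I, j, hj⟩ := ses_ker (B := perm k G G) (C := triv k G) ε hεH hεs
  have h1 := hj.lT C
  obtain ⟨e, he⟩ := iso_tens_triv C
  refine ⟨C.tens (perm k G G), I, j.lTensor C.V, e.toLinearMap ∘ₗ ε.lTensor C.V, ?_, ?_, ?_⟩
  · exact ProjOn.tens_l proj_perm C
  · have h2 := hj.finrank
    have h3 : finrank k (perm k G G).V = Nat.card G := by
      show finrank k (G → k) = _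
      rw [finrank_fintype_fun_eq_card, Nat.card_eq_fintype_card]
    omega
  · exact RP_iso_r h1 e he

/-- the coaugmentation sequence of the regular representation, tensored with `A` -/
lemma RP_coaug {k : Type} [Field k] {G : Type} [Group G] [Finite G] (A : Mo k G) :
    ∃ (Q J : Mo k G) (i : A.V →ₗ[k] Q.V) (π : Q.V →ₗ[k] (A.tens J).V), Proj Q ∧
      finrank k J.V ≤ Nat.card G ∧ IsSES A Q (A.tens J) i π := by
  classical
  have := Fintype.ofFinite G
  let η : (triv k G).V →ₗ[k] (perm k G G).V := LinearMap.pi (fun _ : G => LinearMap.id)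
  have hη : ∀ (c : k) (x : G), (η c : G → k) x = c := fun _ _ => rfl
  have hηH : IsH (triv k G) (perm k G G) η := by
    intro g c
    funext x
    rfl
  have hηi : Function.Injective η := by
    intro a b hab
    have := congrFun (hab : (η a : G → k) = η b) 1
    exact this
  obtain ⟨J, q, hq⟩ := ses_coker (A := triv k G) (B := perm k G G) η hηH hηi
  have h1 := hq.lT A
  obtain ⟨e, he⟩ := (iso_tens_triv A).symm
  refine ⟨A.tens (perm k G G), J, η.lTensor A.V ∘ₗ e.toLinearMap, q.lTensor A.V, ?_, ?_, ?_⟩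
  · exact ProjOn.tens_l proj_perm A
  · have h2 := hq.finrank
    have h3 : finrank k (perm k G G).V = Nat.card G := by
      show finrank k (G → k) = _
      rw [finrank_fintype_fun_eq_card, Nat.card_eq_fintype_card]
    omega
  · exact RP_iso_l h1 e he

namespace RankFn

variable {p : ℕ} [Fact p.Prime] {k : Type} [Field k] [CharP k p] {G : Type} [Group G] [Finite G]
variable (s : RankFn k G) {A B C D : Mo k G}

theorem val_tens_le (hG : IsPGroup p G) (A B : Mo k G) :
    s.val (A.tens B) ≤ finrank k B.V * s.val A := by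
  have h := pg_le hG (fun X => s.val (A.tens X)) (by
    intro X hX
    have h0 : finrank k (A.tens X).V = 0 := by
      show finrank k (A.V ⊗[k] X.V) = 0
      rw [finrank_tensorProduct, hX, mul_zero]
    exact (s.val_of_finrank_zero h0).le) (by
    intro X Y Z f g hs
    exact s.ses_val (hs.lT A)) B
  have h2 := s.val_iso (iso_tens_triv A)
  rw [← h2]
  exact h

theorem null_tens (hG : IsPGroup p G) (hA : s.val A = 0) (B : Mo k G) : s.val (A.tens B) = 0 := by
  have h := s.val_tens_le hG A B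
  rw [hA, mul_zero] at h
  exact le_antisymm h (s.val_nonneg _)

theorem null_tens' (hG : IsPGroup p G) (hA : s.val A = 0) (B : Mo k G) : s.val (B.tens A) = 0 := by
  rw [s.val_iso (iso_comm B A)]
  exact s.null_tens hG hA B

/-- rotation: `A` is bounded by `B` and `C` -/
theorem rot1 (hG : IsPGroup p G) {f : A.V →ₗ[k] B.V} {g : B.V →ₗ[k] C.V} (h : IsSES A B C f g) :
    s.val A ≤ s.val B + Nat.card G * s.val C := by
  obtain ⟨Q, I, i, π, hQ, hI, hs⟩ := RP_aug C
  -- lift `π` to `v : Q → B`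
  obtain ⟨v, hv, hgv⟩ := hQ.lift g h.hg h.surj π hs.hg
  have hgv' : ∀ q, g (v q) = π q := fun q => LinearMap.congr_fun hgv q
  have hgf : ∀ a, g (f a) = 0 := RP_zero h
  -- the surjection `A × Q → B`
  let w : (A.prod Q).V →ₗ[k] B.V := LinearMap.coprod f v
  have hw : ∀ x : (A.prod Q).V, w x = f x.1 + v x.2 := fun x => rfl
  have hwH : IsH (A.prod Q) B w := by
    intro x y
    rw [hw, hw, map_add, ← h.hf, ← hv]
    rfl
  have hws : Function.Surjective w := by
    intro b
    obtain ⟨q, hq⟩ := hs.surj (g b)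
    have h1 : g (b - v q) = 0 := by
      rw [map_sub, hgv', hq, sub_self]
    obtain ⟨a, ha⟩ := RP_ex h _ h1
    refine ⟨(a, q), ?_⟩
    rw [hw, ha]
    exact sub_add_cancel b (v q)
  obtain ⟨K, κ, hK⟩ := ses_ker (B := A.prod Q) (C := B) w hwH hws
  have hwκ : ∀ a, w (κ a) = 0 := RP_zero hK
  -- `K → Q → C` is exact
  let κ2 : K.V →ₗ[k] Q.V := LinearMap.snd k A.V Q.V ∘ₗ κ
  have hκ2 : ∀ a, κ2 a = (κ a).2 := fun _ => rfl
  have hKs : IsSES K Q C κ2 π := by
    refine RP_mk ?_ hs.hg ?_ hs.surj ?_ ?_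
    · intro x a
      rw [hκ2, hκ2, hK.hf]
      rfl
    · intro a b hab
      apply hK.inj
      rw [hκ2, hκ2] at hab
      have h1 := hwκ a
      have h2 := hwκ b
      rw [hw] at h1 h2
      rw [hab] at h1
      have h3 : f (κ a).1 = f (κ b).1 := by
        have := h1.trans h2.symm
        exact add_right_cancel this
      exact Prod.ext (h.inj h3) hab
    · intro a
      rw [hκ2, ← hgv']
      have h1 := hwκ a
      rw [hw] at h1
      have h2 : v (κ a).2 = f (-(κ a).1) := by
        rw [map_neg]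
        exact eq_neg_of_add_eq_zero_right h1
      rw [h2, hgf]
    · intro q hq
      rw [← hgv'] at hq
      obtain ⟨a, ha⟩ := RP_ex h _ hq
      obtain ⟨c, hc⟩ := RP_ex hK ((-a, q) : (A.prod Q).V) (by
        show f (-a) + v q = 0
        rw [map_neg, ha]
        exact neg_add_cancel _)
      exact ⟨c, congrArg Prod.snd hc⟩
  have h1 : s.val K = s.val (C.tens I) := s.val_iso (RP_sub_unique hKs hs)
  have h2 : s.val (A.prod Q) ≤ s.val K + s.val B := s.ses_val hK
  rw [s.val_prod, s.val_of_proj hQ, add_zero, h1] at h2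
  have h3 := s.val_tens_le hG C I
  have h4 : (finrank k I.V : ℝ) * s.val C ≤ Nat.card G * s.val C :=
    mul_le_mul_of_nonneg_right (by exact_mod_cast hI) (s.val_nonneg C)
  linarith

theorem rot2 (hG : IsPGroup p G) {f : A.V →ₗ[k] B.V} {g : B.V →ₗ[k] C.V} (h : IsSES A B C f g) :
    s.val C ≤ s.val B + Nat.card G * s.val A := by
  obtain ⟨Q, J, i, π, hQ, hJ, hs⟩ := RP_coaug A
  -- extend `i` to `u : B → Q`
  obtain ⟨u, hu, huf⟩ := hQ.ext f h.hf h.inj i hs.hf
  have huf' : ∀ a, u (f a) = i a := fun a => LinearMap.congr_fun huf a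
  have hgf : ∀ a, g (f a) = 0 := RP_zero h
  let w : B.V →ₗ[k] (C.prod Q).V := LinearMap.prod g u
  have hw : ∀ b, w b = (g b, u b) := fun _ => rfl
  have hwH : IsH B (C.prod Q) w := by
    intro x b
    rw [hw, hw, h.hg, hu]
    rfl
  have hwi : Function.Injective w := by
    rw [injective_iff_map_eq_zero]
    intro b hb
    rw [hw] at hb
    have hb1 : g b = 0 := congrArg Prod.fst hb
    have hb2 : u b = 0 := congrArg Prod.snd hb
    obtain ⟨a, rfl⟩ := RP_ex h b hb1
    rw [huf'] at hb2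
    have : a = 0 := hs.inj (by rw [hb2, map_zero])
    rw [this, map_zero]
  obtain ⟨T, τ, hT⟩ := ses_coker (A := B) (B := C.prod Q) w hwH hwi
  have hτw : ∀ b, τ (w b) = 0 := RP_zero hT
  let τ2 : Q.V →ₗ[k] T.V := τ ∘ₗ LinearMap.inr k C.V Q.V
  have hτ2 : ∀ q, τ2 q = τ ((0, q) : (C.prod Q).V) := fun _ => rfl
  have hTs : IsSES A Q T i τ2 := by
    refine RP_mk hs.hf ?_ hs.inj ?_ ?_ ?_
    · intro x q
      rw [hτ2, hτ2, ← hT.hg]
      congr 1
      exact Prod.ext (map_zero (C.ρ x)).symm rfl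
    · intro t
      obtain ⟨⟨c, q⟩, rfl⟩ := hT.surj t
      obtain ⟨b, rfl⟩ := h.surj c
      refine ⟨q - u b, ?_⟩
      have h1 : ∀ x y : (C.prod Q).V, x.1 = 0 → x.2 = q - u b → y = (g b, q) →
          τ x = τ y := by
        intro x y hx1 hx2 hy
        have h2 : x = y - w b := by
          rw [hw, hy]
          exact Prod.ext (hx1.trans (sub_self _).symm) hx2
        rw [h2, map_sub, hτw, sub_zero]
      exact h1 ((0, q - u b) : C.V × Q.V) ((g b, q) : C.V × Q.V) rfl rfl rfl
    · intro a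
      have h1 : ((0, i a) : (C.prod Q).V) = w (f a) := by
        rw [hw, hgf, huf']
      show τ ((0, i a) : (C.prod Q).V) = 0
      rw [h1, hτw]
    · intro q hq
      have hq' : τ ((0, q) : (C.prod Q).V) = 0 := hq
      obtain ⟨b, hb⟩ := RP_ex hT _ hq'
      have hb1 : g b = 0 := congrArg Prod.fst hb
      have hb2 : u b = q := congrArg Prod.snd hb
      obtain ⟨a, rfl⟩ := RP_ex h b hb1
      exact ⟨a, by rw [← hb2, huf']⟩
  have h1 : s.val T = s.val (A.tens J) := s.val_iso (RP_quo_unique hTs hs)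
  have h2 : s.val (C.prod Q) ≤ s.val B + s.val T := s.ses_val hT
  rw [s.val_prod, s.val_of_proj hQ, add_zero, h1] at h2
  have h3 := s.val_tens_le hG A J
  have h4 : (finrank k J.V : ℝ) * s.val A ≤ Nat.card G * s.val A :=
    mul_le_mul_of_nonneg_right (by exact_mod_cast hJ) (s.val_nonneg A)
  linarith

theorem ses_null_r (hG : IsPGroup p G) {f : A.V →ₗ[k] B.V} {g : B.V →ₗ[k] C.V}
    (h : IsSES A B C f g) (hC : s.val C = 0) : s.val A = s.val B ∧ s.s A B f = s.val B := by
  refine ⟨le_antisymm ?_ ?_, s.ses_inj_null h hC⟩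
  · have := s.rot1 hG h
    rwa [hC, mul_zero, add_zero] at this
  · have := s.ses_val h
    rwa [hC, add_zero] at this

theorem ses_null_l (hG : IsPGroup p G) {f : A.V →ₗ[k] B.V} {g : B.V →ₗ[k] C.V}
    (h : IsSES A B C f g) (hA : s.val A = 0) : s.val C = s.val B ∧ s.s B C g = s.val B := by
  refine ⟨le_antisymm ?_ ?_, s.ses_surj_null h hA⟩
  · have := s.rot2 hG h
    rwa [hA, mul_zero, add_zero] at this
  · have := s.ses_val h
    rwa [hA, zero_add] at this

/-- two short exact sequences with null middle and the same quotient -/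
theorem shift_unique (hG : IsPGroup p G) {A₁ B₁ A₂ B₂ : Mo k G}
    {f₁ : A₁.V →ₗ[k] B₁.V} {g₁ : B₁.V →ₗ[k] C.V} {f₂ : A₂.V →ₗ[k] B₂.V} {g₂ : B₂.V →ₗ[k] C.V}
    (h₁ : IsSES A₁ B₁ C f₁ g₁) (h₂ : IsSES A₂ B₂ C f₂ g₂) (hB₁ : s.val B₁ = 0)
    (hB₂ : s.val B₂ = 0) : s.val A₁ = s.val A₂ := by
  obtain ⟨Z, i, q, v, hZ, hv, hgv, hvi, hvs, hinj⟩ := ses_pullback h₁ g₂ h₂.hg
  have hvs' := hvs h₂.surj
  have hgv' : ∀ z, g₁ (v z) = g₂ (q z) := fun z => LinearMap.congr_fun hgv z
  obtain ⟨K, κ, hK⟩ := ses_ker (B := Z) (C := B₁) v hv hvs'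
  have hvκ : ∀ a, v (κ a) = 0 := RP_zero hK
  -- `K → B₂ → C`
  let κ2 : K.V →ₗ[k] B₂.V := q ∘ₗ κ
  have hκ2 : ∀ a, κ2 a = q (κ a) := fun _ => rfl
  have hκinj : Function.Injective κ2 := by
    rw [injective_iff_map_eq_zero]
    intro a ha
    apply hK.inj
    rw [map_zero]
    exact hinj _ (hvκ a) ha
  have hle : LinearMap.range κ2 ≤ LinearMap.ker g₂ := by
    rintro _ ⟨a, rfl⟩
    rw [LinearMap.mem_ker, hκ2, ← hgv', hvκ, map_zero]
  have hdim : finrank k K.V = finrank k A₂.V := by
    have e1 := hK.finrank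
    have e2 := hZ.finrank
    have e3 := h₁.finrank
    have e4 := h₂.finrank
    omega
  have hKs : IsSES K B₂ C κ2 g₂ := by
    refine ⟨?_, h₂.hg, hκinj, h₂.surj, ?_⟩
    · intro x a
      rw [hκ2, hκ2, hK.hf, hZ.hg]
    · apply Submodule.eq_of_le_of_finrank_eq hle
      rw [LinearMap.finrank_range_of_inj hκinj, ← h₂.exact,
        LinearMap.finrank_range_of_inj h₂.inj, hdim]
  have hiso : s.val K = s.val A₂ := s.val_iso (RP_sub_unique hKs h₂)
  have e1 := (s.ses_null_r hG hZ hB₂).1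
  have e2 := (s.ses_null_r hG hK hB₁).1
  rw [e1, ← e2, hiso]

end RankFn

end Pool.Agent.GamI
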