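import Pool.Agent.GamI.BD
import Pool.Agent.GamI.BE
import Pool.Agent.GamI.RP

/-! # BG: the family is not negligible -/

set_option autoImplicit false

open scoped TensorProduct
open Module Polynomial

noncomputable section

namespace Pool.Agent.GamI

variable {p : ℕ} [Fact p.Prime] {k : Type} [Field k] [CharP k p] {E : Type} [Group E] [Finite E]

/-! auxiliary lemmas (prefix `BG_`) -/

omit [Fact p.Prime] [CharP k p] in
lemma BG_finrank_hom (m d : ℕ) :
    finrank k ↥(MvPolynomial.homogeneousSubmodule (Fin (m + 1)) k d) = (d + m).choose m := by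
  classical
  have h1 : finrank k ↥(MvPolynomial.homogeneousSubmodule (Fin (m + 1)) k d) =
      Nat.card ↥{e : Fin (m + 1) →₀ ℕ | e.degree = d} := by
    rw [MvPolynomial.homogeneousSubmodule_eq_finsupp_supported]
    exact Module.finrank_eq_nat_card_basis
      (MvPolynomial.basisRestrictSupport k {e : Fin (m + 1) →₀ ℕ | e.degree = d})
  have h2 : {e : Fin (m + 1) →₀ ℕ | e.degree = d} =
      ↑(Finset.finsuppAntidiag (Finset.univ : Finset (Fin (m + 1))) d) := by
    ext e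
    rw [Set.mem_setOf_eq, Finset.mem_coe, Finset.mem_finsuppAntidiag, Finsupp.degree_eq_sum]
    simp
  rw [h1, h2, Nat.card_coe_set_eq, Set.ncard_coe_finset,
    Finset.card_finsuppAntidiag_nat_eq_choose, Finset.card_univ, Fintype.card_fin]
  rw [show m + 1 + d - 1 = d + m by omega]
  exact (Nat.choose_symm_add (a := m) (b := d) |> fun h => by rw [add_comm d m]; exact h.symm)

lemma BG_gr_neg (m : ℕ) (x : Fin (m + 1) → (E →* Multiplicative (ZMod p))) (d : ℤ) (hd : d < 0) :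
    (gq (k := k) x ⊥).gr d = ⊥ := by
  exact if_neg (not_le.mpr hd)

/-- dimension of the graded pieces of the polynomial ring -/
theorem finrank_gr_bot (m : ℕ) (x : Fin (m + 1) → (E →* Multiplicative (ZMod p))) (d : ℕ) :
    finrank k ((gq (k := k) x ⊥).gr (d : ℤ)) = (d + m).choose m := by
  have h : (gq (k := k) x ⊥).gr (d : ℤ) =
      (MvPolynomial.homogeneousSubmodule (Fin (m + 1)) k d).map
        (Ideal.Quotient.mkₐ k (⊥ : Ideal (MvPolynomial (Fin (m + 1)) k))).toLinearMap := by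
    exact if_pos (e := (⊥ : Submodule k (MvPolynomial (Fin (m + 1)) k ⧸
      (⊥ : Ideal (MvPolynomial (Fin (m + 1)) k))))) (Int.natCast_nonneg d)
  rw [h]
  have hinj : Function.Injective
      (Ideal.Quotient.mkₐ k (⊥ : Ideal (MvPolynomial (Fin (m + 1)) k))).toLinearMap := by
    intro a b hab
    have h1 : Ideal.Quotient.mk (⊥ : Ideal (MvPolynomial (Fin (m + 1)) k)) a =
        Ideal.Quotient.mk ⊥ b := hab
    rw [Ideal.Quotient.eq, Ideal.mem_bot, sub_eq_zero] at h1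
    exact h1
  exact (LinearEquiv.finrank_eq (Submodule.equivMapOfInjective _ hinj
    (MvPolynomial.homogeneousSubmodule (Fin (m + 1)) k d))).symm.trans (BG_finrank_hom m d)

lemma BG_bdd (f g : ℤ → ℝ) (a b d₀ : ℤ) (hb : 1 ≤ b) (hf : ∀ d < 0, f d = 0)
    (hg : ∀ d ≥ d₀, g d = 0) (h : ∀ d, f d ≤ g d + g (d - a) + f (d - b)) (ha : 0 ≤ a) :
    ∃ C : ℝ, 0 ≤ C ∧ ∀ d, f d ≤ C := by
  set N : ℤ := max (d₀ + a) 0 with hN
  refine ⟨∑ i ∈ Finset.Ico 0 N, |f i|, Finset.sum_nonneg fun i _ => abs_nonneg _, ?_⟩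
  have hC : 0 ≤ ∑ i ∈ Finset.Ico 0 N, |f i| := Finset.sum_nonneg fun i _ => abs_nonneg _
  have key : ∀ n : ℕ, ∀ d : ℤ, d < n → f d ≤ ∑ i ∈ Finset.Ico 0 N, |f i| := by
    intro n
    induction n with
    | zero =>
      intro d hd
      rw [hf d (by exact_mod_cast hd)]
      exact hC
    | succ n ih =>
      intro d hd
      rcases lt_or_ge d 0 with h0 | h0
      · rw [hf d h0]
        exact hC
      rcases lt_or_ge d N with h1 | h1
      · exact (le_abs_self _).trans (Finset.single_le_sum (f := fun i => |f i|)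
          (fun i _ => abs_nonneg _) (Finset.mem_Ico.mpr ⟨h0, h1⟩))
      · have h2 : d₀ + a ≤ d := (le_max_left _ _).trans h1
        have h3 := h d
        rw [hg d (by omega), hg (d - a) (by omega), zero_add, zero_add] at h3
        refine h3.trans (ih _ ?_)
        push_cast at hd
        omega
  intro d
  exact key (d.toNat + 1) d (by push_cast; omega)

lemma BG_grow (f g : ℤ → ℝ) (a b : ℤ) (hb : 1 ≤ b) (ha : 0 ≤ a) (hf : ∀ d < 0, f d = 0)
    (hg0 : ∀ d < 0, g d = 0) (C : ℝ) (hC : 0 ≤ C) (e : ℕ)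
    (hg : ∀ d : ℤ, 0 ≤ d → g d ≤ C * ((d : ℝ) + 1) ^ e)
    (h : ∀ d, f d ≤ g d + g (d - a) + f (d - b)) :
    ∀ d : ℤ, 0 ≤ d → f d ≤ 2 * C * ((d : ℝ) + 1) ^ (e + 1) := by
  have key : ∀ n : ℕ, ∀ d : ℤ, 0 ≤ d → d < n → f d ≤ 2 * C * ((d : ℝ) + 1) ^ (e + 1) := by
    intro n
    induction n with
    | zero =>
      intro d h0 hd
      push_cast at hd
      omega
    | succ n ih =>
      intro d h0 hd
      have hd0 : (0 : ℝ) ≤ (d : ℝ) := by exact_mod_cast h0
      have h1 := hg d h0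
      have h2 : g (d - a) ≤ C * ((d : ℝ) + 1) ^ e := by
        rcases lt_or_ge (d - a) 0 with h3 | h3
        · rw [hg0 _ h3]
          positivity
        · refine (hg _ h3).trans ?_
          have h4 : (0 : ℝ) ≤ ((d - a : ℤ) : ℝ) := by exact_mod_cast h3
          have h5 : (0 : ℝ) ≤ (a : ℝ) := by exact_mod_cast ha
          have h6 : ((d - a : ℤ) : ℝ) ≤ (d : ℝ) := by push_cast; linarith
          gcongr
      have h3 : f (d - b) ≤ 2 * C * ((d : ℝ) * ((d : ℝ) + 1) ^ e) := by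
        rcases lt_or_ge (d - b) 0 with h3 | h3
        · rw [hf _ h3]
          positivity
        · refine (ih _ h3 (by push_cast at hd; omega)).trans ?_
          have h4 : (0 : ℝ) ≤ ((d - b : ℤ) : ℝ) := by exact_mod_cast h3
          have h5 : (1 : ℝ) ≤ (b : ℝ) := by exact_mod_cast hb
          have h6 : ((d - b : ℤ) : ℝ) + 1 ≤ (d : ℝ) := by push_cast; linarith
          rw [pow_succ, mul_comm (((d - b : ℤ) : ℝ) + 1 |> fun z => z ^ e)]
          have h7 : (((d - b : ℤ) : ℝ) + 1) ^ e ≤ ((d : ℝ) + 1) ^ e := by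
            gcongr
            linarith
          have h8 : (((d - b : ℤ) : ℝ) + 1) * (((d - b : ℤ) : ℝ) + 1) ^ e ≤
              (d : ℝ) * ((d : ℝ) + 1) ^ e := by
            apply mul_le_mul h6 h7 (by positivity) hd0
          exact mul_le_mul_of_nonneg_left h8 (by positivity)
      calc f d ≤ g d + g (d - a) + f (d - b) := h d
        _ ≤ C * ((d : ℝ) + 1) ^ e + C * ((d : ℝ) + 1) ^ e + 2 * C * ((d : ℝ) * ((d : ℝ) + 1) ^ e) :=
          add_le_add (add_le_add h1 h2) h3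
        _ = 2 * C * ((d : ℝ) + 1) ^ (e + 1) := by ring
  intro d hd
  exact key (d.toNat + 1) d hd (by push_cast; omega)

lemma BG_rec (s : RankFn k E) (hs : s.Shift) (D : GA k E) (j : ℕ) (d : ℤ) :
    s.val (D.XM (p ^ j) d) ≤ s.val (D.XM (p ^ (j + 1)) d) +
      s.val (D.XM (p ^ (j + 1)) (d - (p : ℤ) ^ j)) +
      s.val (D.XM (p ^ j) (d - (p : ℤ) ^ (j + 1))) := by
  have hp : 1 ≤ p := (Fact.out : p.Prime).one_lt.le
  obtain ⟨f, g, h1⟩ := xses_hasse (p := p) D 1 j hp d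
  obtain ⟨f', g', h2⟩ := xses_hasse (p := p) D (p - 1) j (Nat.sub_le _ _) (d - (p : ℤ) ^ j)
  have h3 := (hs _ _ _ _ _ h1).1
  have h4 := (hs _ _ _ _ _ h2).1
  rw [Nat.sub_sub_self hp] at h4
  have e1 : d - ((1 : ℕ) : ℤ) * (p : ℤ) ^ j = d - (p : ℤ) ^ j := by push_cast; ring
  have e2 : d - (p : ℤ) ^ j - ((p - 1 : ℕ) : ℤ) * (p : ℤ) ^ j = d - (p : ℤ) ^ (j + 1) := by
    rw [Nat.cast_sub hp]
    push_cast
    ring
  rw [e1, one_mul] at h3
  rw [e2, one_mul] at h4
  linarith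

theorem not_negligible (s : RankFn k E) (hs : s.Shift) (h0 : 0 < s.val (triv k E)) (m : ℕ)
    (x : Fin (m + 1) → (E →* Multiplicative (ZMod p))) (d₀ : ℤ) :
    ∃ d ≥ d₀, s.val ((gq (k := k) x ⊥).XM (p ^ m) d) ≠ 0 := by
  have hone : ∀ d : ℕ, s.val ((gq (k := k) x ⊥).XM (p ^ 0) (d : ℤ)) =
      ((d + m).choose m : ℝ) * s.val (triv k E) := by
    intro d
    rw [pow_zero, xm_one, finrank_gr_bot]
  rcases Nat.eq_zero_or_pos m with rfl | hm
  · refine ⟨(d₀.toNat : ℤ), Int.self_le_toNat d₀, ?_⟩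
    rw [hone]
    simp only [add_zero, Nat.choose_zero_right, Nat.cast_one, one_mul]
    exact h0.ne'
  by_contra hcon
  push Not at hcon
  set D : GA k E := gq (k := k) x ⊥ with hD
  have hneg : ∀ (n : ℕ) (d : ℤ), d < 0 → s.val (D.XM n d) = 0 := by
    intro n d hd
    apply RankFn.val_of_finrank_zero
    apply xm_zero
    intro j _
    exact BG_gr_neg m x _ (by omega)
  have hpow : ∀ j : ℕ, (1 : ℤ) ≤ (p : ℤ) ^ j := by
    intro j
    have hp : 1 ≤ p := (Fact.out : p.Prime).one_lt.le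
    exact_mod_cast Nat.one_le_pow j p hp
  have hQ : ∀ i : ℕ, i < m → ∃ C : ℝ, 0 ≤ C ∧ ∀ d : ℤ, 0 ≤ d →
      s.val (D.XM (p ^ (m - 1 - i)) d) ≤ C * ((d : ℝ) + 1) ^ i := by
    intro i
    induction i with
    | zero =>
      intro _
      have hrec : ∀ d : ℤ, s.val (D.XM (p ^ (m - 1)) d) ≤ s.val (D.XM (p ^ m) d) +
          s.val (D.XM (p ^ m) (d - (p : ℤ) ^ (m - 1))) +
          s.val (D.XM (p ^ (m - 1)) (d - (p : ℤ) ^ m)) := by
        intro d
        have h2 := BG_rec (p := p) s hs D (m - 1) d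
        rw [Nat.sub_add_cancel hm] at h2
        exact h2
      obtain ⟨C, hC, h1⟩ := BG_bdd (fun d => s.val (D.XM (p ^ (m - 1)) d))
        (fun d => s.val (D.XM (p ^ m) d)) ((p : ℤ) ^ (m - 1)) ((p : ℤ) ^ m) d₀ (hpow m)
        (fun d hd => hneg _ d hd) (fun d hd => hcon d hd) hrec
        (zero_le_one.trans (hpow _))
      refine ⟨C, hC, fun d _ => ?_⟩
      rw [pow_zero, mul_one, Nat.sub_zero]
      exact h1 d
    | succ i ih =>
      intro hi
      obtain ⟨C, hC, h1⟩ := ih (by omega)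
      refine ⟨2 * C, by positivity, ?_⟩
      have e1 : m - 1 - i = m - 1 - (i + 1) + 1 := by omega
      rw [e1] at h1
      exact BG_grow (fun d => s.val (D.XM (p ^ (m - 1 - (i + 1))) d))
        (fun d => s.val (D.XM (p ^ (m - 1 - (i + 1) + 1)) d)) ((p : ℤ) ^ (m - 1 - (i + 1)))
        ((p : ℤ) ^ (m - 1 - (i + 1) + 1)) (hpow _) (zero_le_one.trans (hpow _))
        (fun d hd => hneg _ d hd) (fun d hd => hneg _ d hd) C hC i h1
        (fun d => BG_rec (p := p) s hs D _ d)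
  obtain ⟨C, hC, hb⟩ := hQ (m - 1) (by omega)
  rw [Nat.sub_self] at hb
  set v := s.val (triv k E) with hv
  have hfin : ∀ d : ℕ, ((d : ℝ) + 1) * v ≤ (m.factorial : ℝ) * C := by
    intro d
    have h1 := hb (d : ℤ) (Int.natCast_nonneg d)
    rw [hone] at h1
    have h2 : ((d : ℝ) + 1) ^ m ≤ (m.factorial : ℝ) * ((d + m).choose m : ℝ) := by
      have h3 : (d + 1) ^ m ≤ (d + 1).ascFactorial m := Nat.pow_succ_le_ascFactorial (d + 1) m
      rw [Nat.ascFactorial_eq_factorial_mul_choose] at h3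
      exact_mod_cast h3
    have h4 : ((d : ℝ) + 1) ^ m * v ≤ (m.factorial : ℝ) * (C * ((d : ℝ) + 1) ^ (m - 1)) := by
      calc ((d : ℝ) + 1) ^ m * v ≤ (m.factorial : ℝ) * ((d + m).choose m : ℝ) * v :=
            mul_le_mul_of_nonneg_right h2 h0.le
        _ = (m.factorial : ℝ) * (((d + m).choose m : ℝ) * v) := by ring
        _ ≤ _ := by
            apply mul_le_mul_of_nonneg_left _ (by positivity)
            simpa using h1
    have h5 : ((d : ℝ) + 1) ^ m = ((d : ℝ) + 1) ^ (m - 1) * ((d : ℝ) + 1) := by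
      rw [← pow_succ, Nat.sub_add_cancel hm]
    rw [h5] at h4
    have h6 : 0 < ((d : ℝ) + 1) ^ (m - 1) := by positivity
    have h7 : ((d : ℝ) + 1) ^ (m - 1) * (((d : ℝ) + 1) * v) ≤
        ((d : ℝ) + 1) ^ (m - 1) * ((m.factorial : ℝ) * C) := by
      calc ((d : ℝ) + 1) ^ (m - 1) * (((d : ℝ) + 1) * v) =
            ((d : ℝ) + 1) ^ (m - 1) * ((d : ℝ) + 1) * v := by ring
        _ ≤ _ := h4
        _ = _ := by ring
    exact le_of_mul_le_mul_left h7 h6
  obtain ⟨N, hN⟩ := exists_nat_gt ((m.factorial : ℝ) * C / v)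
  have h1 := hfin N
  rw [div_lt_iff₀ h0] at hN
  nlinarith

end Pool.Agent.GamI
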