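import Pool.Agent.GamI.Defs2
import Pool.Agent.GamI.TE

/-! # BD: exact sequences for the families `XM`; pieces of small length -/

set_option autoImplicit false

open scoped TensorProduct
open Module Polynomial

noncomputable section

namespace Pool.Agent.GamI

variable {p : ℕ} [Fact p.Prime] {k : Type} [Field k] [CharP k p] {E : Type} [Group E]

omit [Fact p.Prime] in
/-- the divided derivatives commute with translations -/
lemma BDAux.hasse_taylor {R : Type} [CommRing R] (n : ℕ) (r : R) (f : R[X]) :
    hasseDeriv n (taylor r f) = taylor r (hasseDeriv n f) := by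
  ext m
  rw [hasseDeriv_coeff, taylor_coeff, taylor_coeff]
  have h := congrArg (fun q : R[X] →ₗ[R] R[X] => (q f).eval r) (hasseDeriv_comp (R := R) m n)
  simp only [LinearMap.comp_apply, LinearMap.smul_apply, eval_smul] at h
  rw [h, nsmul_eq_mul, Nat.choose_symm_add]

/-- Lucas: the relevant binomial coefficients are units -/
lemma BDAux.choose_ndvd (p : ℕ) [hp : Fact p.Prime] (a j l : ℕ) (h1 : a * p ^ j ≤ l)
    (h2 : l < p ^ (j + 1)) : ¬ p ∣ l.choose (a * p ^ j) := by
  have hpp := hp.out
  have hpos : 0 < p ^ j := pow_pos hpp.pos _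
  have key := Choose.choose_modEq_choose_mul_prod_range_choose (n := l) (k := a * p ^ j) (p := p) j
  have hprod : ∏ i ∈ Finset.range j, (l / p ^ i % p).choose (a * p ^ j / p ^ i % p) = 1 := by
    refine Finset.prod_eq_one fun i hi => ?_
    have hij : i < j := Finset.mem_range.1 hi
    have : a * p ^ j / p ^ i % p = 0 := by
      have h3 : p ^ j = p ^ i * (p ^ (j - i - 1) * p) := by
        rw [← pow_succ, ← pow_add]
        congr 1
        omega
      rw [h3, show a * (p ^ i * (p ^ (j - i - 1) * p)) = p ^ i * (a * p ^ (j - i - 1) * p) by ring,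
        Nat.mul_div_cancel_left _ (pow_pos hpp.pos _), Nat.mul_mod_left]
    rw [this, Nat.choose_zero_right]
  have hprod' : ((∏ i ∈ Finset.range j, ((l / p ^ i % p).choose (a * p ^ j / p ^ i % p) : ℤ))) = 1 := by
    exact_mod_cast hprod
  rw [Nat.mul_div_cancel _ hpos] at key
  simp only [Nat.cast_prod] at key
  rw [hprod', mul_one] at key
  intro hd
  have h4 : (p : ℤ) ∣ ((l / p ^ j).choose a : ℤ) := by
    have h5 : (p : ℤ) ∣ (l.choose (a * p ^ j) : ℤ) := by exact_mod_cast hd
    exact (Int.ModEq.dvd_iff key).1 h5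
  have h6 : p ∣ (l / p ^ j).choose a := by exact_mod_cast h4
  have h7 : l / p ^ j < p := by
    rw [Nat.div_lt_iff_lt_mul hpos]
    rwa [pow_succ', ] at h2
  have h8 : a ≤ l / p ^ j := by
    rw [Nat.le_div_iff_mul_le hpos]
    exact h1
  have h9 : p ∣ (l / p ^ j).factorial := by
    rw [← Nat.choose_mul_factorial_mul_factorial h8]
    exact Dvd.dvd.mul_right (Dvd.dvd.mul_right h6 _) _
  exact absurd ((hpp.dvd_factorial).1 h9) (by omega)

/-- the divided derivative of order `a p^j`:
`0 → X(a p^j)_d → X(p^{j+1})_d → X((p-a) p^j)_{d - a p^j} → 0` -/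
theorem xses_hasse (D : GA k E) (a j : ℕ) (ha : a ≤ p) (d : ℤ) :
    ∃ (f : (D.XM (a * p ^ j) d).V →ₗ[k] (D.XM (p ^ (j + 1)) d).V)
      (g : (D.XM (p ^ (j + 1)) d).V →ₗ[k] (D.XM ((p - a) * p ^ j) (d - a * p ^ j)).V),
      IsSES (D.XM (a * p ^ j) d) (D.XM (p ^ (j + 1)) d)
        (D.XM ((p - a) * p ^ j) (d - a * p ^ j)) f g := by
  have hle : a * p ^ j ≤ p ^ (j + 1) := by
    rw [pow_succ']
    exact Nat.mul_le_mul_right _ ha
  have hsub : a * p ^ j + (p - a) * p ^ j = p ^ (j + 1) := by
    rw [← add_mul, Nat.add_sub_cancel' ha, pow_succ']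
  set n := a * p ^ j with hn
  have hz : ((a : ℤ) * (p : ℤ) ^ j) = ((n : ℕ) : ℤ) := by
    rw [hn]
    push_cast
    ring
  have hinc : D.XS n d ≤ D.XS (p ^ (j + 1)) d := by
    rintro f ⟨h1, h2⟩
    exact ⟨fun i hi => h1 i (hle.trans hi), h2⟩
  have hder : ∀ f ∈ D.XS (p ^ (j + 1)) d,
      hasseDeriv n f ∈ D.XS ((p - a) * p ^ j) (d - (a : ℤ) * (p : ℤ) ^ j) := by
    rintro f ⟨h1, h2⟩
    refine ⟨fun i hi => ?_, fun i => ?_⟩
    · rw [hasseDeriv_coeff, h1 (i + n) (by omega), mul_zero]
    · have h5 : (((i + n).choose n : ℕ) : D.R) * f.coeff (i + n) =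
          ((i + n).choose n) • f.coeff (i + n) := by rw [nsmul_eq_mul]
      rw [hasseDeriv_coeff, h5]
      have h3 := h2 (i + n)
      have h4 : d - ((i + n : ℕ) : ℤ) = d - (a : ℤ) * (p : ℤ) ^ j - (i : ℤ) := by
        rw [hz]
        push_cast
        ring
      rw [h4] at h3
      exact nsmul_mem h3 _
  let f : (D.XM n d).V →ₗ[k] (D.XM (p ^ (j + 1)) d).V := Submodule.inclusion hinc
  let g : (D.XM (p ^ (j + 1)) d).V →ₗ[k]
      (D.XM ((p - a) * p ^ j) (d - (a : ℤ) * (p : ℤ) ^ j)).V :=
    ((hasseDeriv (R := D.R) n).restrictScalars k).restrict hder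
  have hfv : ∀ v, (f v).1 = v.1 := fun v => rfl
  have hgv : ∀ v, (g v).1 = hasseDeriv n v.1 := fun v => rfl
  refine ⟨f, g, ?_⟩
  refine { hf := ?_, hg := ?_, inj := ?_, surj := ?_, exact := ?_ }
  · intro e v
    rfl
  · intro e v
    apply Subtype.ext
    exact BDAux.hasse_taylor n _ _
  · intro v w h
    apply Subtype.ext
    have := congrArg Subtype.val h
    exact this
  · rintro ⟨y, hy1, hy2⟩
    -- coefficients of the preimage
    let c : ℕ → D.R := fun i =>
      if n ≤ i ∧ i < p ^ (j + 1) then ((i.choose n : k))⁻¹ • y.coeff (i - n) else 0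
    let x : D.R[X] := ∑ i ∈ Finset.range (p ^ (j + 1)), monomial i (c i)
    have hx : ∀ i, x.coeff i = c i := by
      intro i
      simp only [x, finsetSum_coeff, coeff_monomial]
      rw [Finset.sum_ite_eq' (Finset.range (p ^ (j + 1))) i]
      split_ifs with h
      · rfl
      · simp only [c]
        rw [if_neg (by rw [Finset.mem_range] at h; omega)]
    have hxm : x ∈ D.XS (p ^ (j + 1)) d := by
      refine ⟨fun i hi => ?_, fun i => ?_⟩
      · rw [hx]
        simp only [c]
        rw [if_neg (by omega)]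
      · rw [hx]
        simp only [c]
        split_ifs with h
        · refine (D.gr _).smul_mem _ ?_
          have h3 := hy2 (i - n)
          have h4 : d - (a : ℤ) * (p : ℤ) ^ j - ((i - n : ℕ) : ℤ) = d - (i : ℤ) := by
            rw [hz]
            push_cast [Nat.cast_sub h.1]
            ring
          rwa [h4] at h3
        · exact (D.gr _).zero_mem
    refine ⟨⟨x, hxm⟩, ?_⟩
    apply Subtype.ext
    change hasseDeriv n x = y
    apply Polynomial.ext
    intro i
    rw [hasseDeriv_coeff]
    simp only [hx]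
    by_cases hi : i + n < p ^ (j + 1)
    · simp only [c]
      rw [if_pos ⟨by omega, hi⟩, Nat.add_sub_cancel]
      have hne : (((i + n).choose n : ℕ) : k) ≠ 0 := by
        intro h0
        have := (CharP.cast_eq_zero_iff k p _).1 h0
        exact BDAux.choose_ndvd p a j (i + n) (by omega) hi this
      rw [← nsmul_eq_mul, ← Nat.cast_smul_eq_nsmul k, smul_smul, mul_inv_cancel₀ hne, one_smul]
    · simp only [c]
      rw [if_neg (by omega), mul_zero]
      exact (hy1 i (by omega)).symm
  · ext v
    rw [LinearMap.mem_range, LinearMap.mem_ker]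
    constructor
    · rintro ⟨w, rfl⟩
      apply Subtype.ext
      rw [hgv, hfv]
      apply Polynomial.ext
      intro i
      rw [hasseDeriv_coeff]
      rw [w.2.1 (i + n) (by omega), mul_zero]
      rfl
    · intro hv
      have h1 : hasseDeriv n v.1 = 0 := by
        rw [← hgv, hv]
        rfl
      have h2 : ∀ i, n ≤ i → v.1.coeff i = 0 := by
        intro i hi
        by_cases hi2 : i < p ^ (j + 1)
        · have h3 := congrArg (fun q : D.R[X] => q.coeff (i - n)) h1
          simp only [hasseDeriv_coeff, coeff_zero] at h3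
          rw [Nat.sub_add_cancel hi] at h3
          have hne : ((i.choose n : ℕ) : k) ≠ 0 := by
            intro h0
            have := (CharP.cast_eq_zero_iff k p _).1 h0
            exact BDAux.choose_ndvd p a j i hi hi2 this
          rw [← nsmul_eq_mul, ← Nat.cast_smul_eq_nsmul k] at h3
          exact (smul_eq_zero.1 h3).resolve_left hne
        · exact v.2.1 i (by omega)
      exact ⟨⟨v.1, h2, v.2.2⟩, Subtype.ext rfl⟩

end Pool.Agent.GamI
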