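import Pool.Agent.GamI.Defs3
import Pool.Agent.GamI.TE
import Pool.Agent.GamI.BD

/-! # CR: exact sequences of polynomial modules in characteristic `p` -/

set_option autoImplicit false
open scoped TensorProduct
open Module Polynomial
noncomputable section
namespace Pool.Agent.GamI
namespace CRaux

/-- an element of `P K n` -/
def mk (K : Type) [Field K] (n : ℕ) (f : K[X]) (h : f ∈ degreeLT K n) : (P K n).V := ⟨f, h⟩

/-- the underlying polynomial -/
def pol {K : Type} [Field K] {n : ℕ} (v : (P K n).V) : K[X] := (degreeLT K n).subtype v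

lemma pol_mk (K : Type) [Field K] (n : ℕ) (f : K[X]) (h : f ∈ degreeLT K n) :
    pol (mk K n f h) = f := rfl

lemma pol_mem {K : Type} [Field K] {n : ℕ} (v : (P K n).V) : pol v ∈ degreeLT K n := v.2

lemma mk_pol {K : Type} [Field K] {n : ℕ} (v : (P K n).V) : mk K n (pol v) (pol_mem v) = v := rfl

lemma pol_inj {K : Type} [Field K] {n : ℕ} {v w : (P K n).V} (h : pol v = pol w) : v = w :=
  Subtype.ext h

lemma pol_rho {K : Type} [Field K] {n : ℕ} (t : Multiplicative K) (v : (P K n).V) :
    pol ((P K n).ρ t v) = taylor t.toAdd (pol v) := rfl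

lemma pol_zero {K : Type} [Field K] {n : ℕ} : pol (0 : (P K n).V) = 0 := rfl

lemma pol_add {K : Type} [Field K] {n : ℕ} (v w : (P K n).V) : pol (v + w) = pol v + pol w := rfl

lemma pol_smul {K : Type} [Field K] {n : ℕ} (c : K) (v : (P K n).V) :
    pol (c • v) = c • pol v := rfl

/-- a linear map between `P K n` and `P K m` from a linear map of polynomials -/
def lm {K : Type} [Field K] {n m : ℕ} (F : K[X] →ₗ[K] K[X])
    (hF : ∀ f ∈ degreeLT K n, F f ∈ degreeLT K m) : (P K n).V →ₗ[K] (P K m).V where
  toFun v := mk K m (F (pol v)) (hF _ (pol_mem v))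
  map_add' v w := pol_inj (by rw [pol_mk, pol_add, pol_add, pol_mk, pol_mk, map_add])
  map_smul' c v := pol_inj (by rw [RingHom.id_apply, pol_mk, pol_smul, pol_smul, pol_mk, map_smul])

lemma pol_lm {K : Type} [Field K] {n m : ℕ} (F : K[X] →ₗ[K] K[X])
    (hF : ∀ f ∈ degreeLT K n, F f ∈ degreeLT K m) (v : (P K n).V) :
    pol (lm F hF v) = F (pol v) := rfl


lemma lm_isH {K : Type} [Field K] {n m : ℕ} (F : K[X] →ₗ[K] K[X])
    (hF : ∀ f ∈ degreeLT K n, F f ∈ degreeLT K m)
    (h : ∀ (t : K) (f : K[X]), F (taylor t f) = taylor t (F f)) :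
    IsH (P K n) (P K m) (lm F hF) := by
  intro t v
  apply pol_inj
  rw [pol_lm, pol_rho, pol_rho, pol_lm, h]

/-- the divided derivative gives a short exact sequence when the binomial coefficients are units -/
theorem hses (K : Type) [Field K] (n m : ℕ)
    (h : ∀ l, n ≤ l → l < n + m → ((l.choose n : ℕ) : K) ≠ 0) :
    ∃ (f : (P K n).V →ₗ[K] (P K (n + m)).V) (g : (P K (n + m)).V →ₗ[K] (P K m).V),
      IsSES (P K n) (P K (n + m)) (P K m) f g := by
  have hinc : ∀ f ∈ degreeLT K n, (LinearMap.id : K[X] →ₗ[K] K[X]) f ∈ degreeLT K (n + m) := by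
    intro f hf
    rw [mem_degreeLT] at hf ⊢
    exact lt_of_lt_of_le hf (by exact_mod_cast Nat.le_add_right n m)
  have hder : ∀ f ∈ degreeLT K (n + m), hasseDeriv n f ∈ degreeLT K m := by
    intro f hf
    rw [mem_degreeLT, degree_lt_iff_coeff_zero] at hf ⊢
    intro i hi
    rw [hasseDeriv_coeff, hf (i + n) (by omega), mul_zero]
  refine ⟨lm LinearMap.id hinc, lm (hasseDeriv n) hder, ?_⟩
  have hf1 := lm_isH LinearMap.id hinc (fun _ _ => rfl)
  have hg1 := lm_isH (hasseDeriv n) hder (BDAux.hasse_taylor n)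
  refine { hf := hf1, hg := hg1, inj := ?_, surj := ?_, exact := ?_ }
  · intro v w h'
    apply pol_inj
    have h2 := congrArg pol h'
    rwa [pol_lm, pol_lm] at h2
  · intro y
    have hy' := (degree_lt_iff_coeff_zero _ _).1 (mem_degreeLT.1 (pol_mem y))
    have hz : (∑ i ∈ Finset.range m, monomial (i + n) ((((i + n).choose n : ℕ) : K)⁻¹ *
        (pol y).coeff i)) ∈ degreeLT K (n + m) := by
      refine Submodule.sum_mem _ fun i hi => ?_
      rw [mem_degreeLT]
      refine lt_of_le_of_lt (degree_monomial_le _ _) ?_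
      have := Finset.mem_range.1 hi
      exact_mod_cast (by omega : i + n < n + m)
    refine ⟨mk K _ _ hz, ?_⟩
    apply pol_inj
    rw [pol_lm, pol_mk]
    apply Polynomial.ext
    intro i
    rw [hasseDeriv_coeff, finsetSum_coeff]
    by_cases hi : i < m
    · rw [Finset.sum_eq_single i]
      · rw [coeff_monomial, if_pos rfl, ← mul_assoc, mul_inv_cancel₀ (h _ (by omega) (by omega)),
          one_mul]
      · intro b _ hb
        rw [coeff_monomial, if_neg (by omega)]
      · intro h'
        exact absurd (Finset.mem_range.2 hi) h'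
    · rw [Finset.sum_eq_zero, mul_zero]
      · exact (hy' i (not_lt.1 hi)).symm
      · intro b hb
        have := Finset.mem_range.1 hb
        rw [coeff_monomial, if_neg (by omega)]
  · ext v
    constructor
    · rintro ⟨w, rfl⟩
      rw [LinearMap.mem_ker]
      apply pol_inj
      rw [pol_lm, pol_lm, pol_zero]
      apply Polynomial.ext
      intro i
      have hw := (degree_lt_iff_coeff_zero _ _).1 (mem_degreeLT.1 (pol_mem w))
      rw [LinearMap.id_apply, hasseDeriv_coeff, hw (i + n) (Nat.le_add_left _ _), mul_zero,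
        coeff_zero]
    · intro hv
      have h0 : hasseDeriv n (pol v) = 0 := by
        have := congrArg pol (LinearMap.mem_ker.1 hv)
        rwa [pol_lm, pol_zero] at this
      have hm : pol v ∈ degreeLT K n := by
        rw [mem_degreeLT, degree_lt_iff_coeff_zero]
        intro i hi
        by_cases hi' : i < n + m
        · have h1 := congrArg (fun P : K[X] => P.coeff (i - n)) h0
          simp only [hasseDeriv_coeff, coeff_zero] at h1
          rw [Nat.sub_add_cancel hi] at h1
          exact (mul_eq_zero.1 h1).resolve_left (h i hi hi')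
        · exact (degree_lt_iff_coeff_zero _ _).1 (mem_degreeLT.1 (pol_mem v)) i (not_lt.1 hi')
      refine ⟨mk K n _ hm, ?_⟩
      apply pol_inj
      rw [pol_lm, pol_mk, LinearMap.id_apply]

end CRaux

/-- `0 → P_2^{(1)} → P_{p+1} → P_{p-1} → 0` (`a + b T ↦ a + b T^p`, derivative) -/
theorem pses_frob (p : ℕ) [Fact p.Prime] (K : Type) [Field K] [CharP K p] :
    ∃ (f : ((P K 2).res (tw p 1 (MonoidHom.id (Multiplicative K)))).V →ₗ[K] (P K (p + 1)).V)
      (g : (P K (p + 1)).V →ₗ[K] (P K (p - 1)).V),
      IsSES ((P K 2).res (tw p 1 (MonoidHom.id (Multiplicative K)))) (P K (p + 1))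
        (P K (p - 1)) f g := by
  have hp : p.Prime := Fact.out
  have hp1 := hp.one_lt
  have hexp : ∀ f ∈ degreeLT K 2, (expand K p).toLinearMap f ∈ degreeLT K (p + 1) := by
    intro f hf
    rw [AlgHom.toLinearMap_apply]
    rw [mem_degreeLT, degree_lt_iff_coeff_zero] at hf ⊢
    intro i hi
    rw [coeff_expand hp.pos]
    split_ifs with h
    · obtain ⟨c, rfl⟩ := h
      rw [Nat.mul_div_cancel_left _ hp.pos]
      apply hf
      by_contra h2
      have : p * c ≤ p * 1 := Nat.mul_le_mul_left p (by omega)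
      omega
    · rfl
  have hder : ∀ f ∈ degreeLT K (p + 1), derivative f ∈ degreeLT K (p - 1) := by
    intro f hf
    rw [mem_degreeLT, degree_lt_iff_coeff_zero] at hf ⊢
    intro i hi
    rw [coeff_derivative]
    by_cases h : i = p - 1
    · have : ((i : K) + 1) = 0 := by
        rw [h]
        have h1 : ((p - 1 : ℕ) : K) + 1 = (p : K) := by
          rw [Nat.cast_sub hp.pos]
          simp
        rw [h1]
        exact CharP.cast_eq_zero K p
      rw [this, mul_zero]
    · rw [hf (i + 1) (by omega), zero_mul]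
  have hf1 : IsH ((P K 2).res (tw p 1 (MonoidHom.id (Multiplicative K)))) (P K (p + 1))
      (CRaux.lm (expand K p).toLinearMap hexp) := by
    intro t v
    apply CRaux.pol_inj
    have e1 : CRaux.pol (n := 2)
        (((P K 2).res (tw p 1 (MonoidHom.id (Multiplicative K)))).ρ t v) =
        taylor (t.toAdd ^ p ^ 1) (CRaux.pol (n := 2) v) := rfl
    rw [CRaux.pol_rho]
    erw [CRaux.pol_lm, CRaux.pol_lm]
    rw [e1, AlgHom.toLinearMap_apply, AlgHom.toLinearMap_apply, pow_one, taylor_apply,
      taylor_apply, expand_eq_comp_X_pow, expand_eq_comp_X_pow, comp_assoc, comp_assoc]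
    congr 1
    simp only [add_comp, X_comp, C_comp, pow_comp]
    rw [add_pow_char, C_pow]
  have hg1 : IsH (P K (p + 1)) (P K (p - 1)) (CRaux.lm derivative hder) := by
    refine CRaux.lm_isH derivative hder fun t f => ?_
    have := BDAux.hasse_taylor 1 t f
    rwa [hasseDeriv_one] at this
  refine ⟨CRaux.lm (expand K p).toLinearMap hexp, CRaux.lm derivative hder, ?_⟩
  refine { hf := hf1, hg := hg1, inj := ?_, surj := ?_, exact := ?_ }
  · intro v w h
    apply CRaux.pol_inj
    have h2 : expand K p (CRaux.pol (n := 2) v) = expand K p (CRaux.pol (n := 2) w) :=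
      congrArg CRaux.pol h
    exact expand_injective hp.pos h2
  · intro y
    have hy' := (degree_lt_iff_coeff_zero _ _).1 (mem_degreeLT.1 (CRaux.pol_mem y))
    have hz : (∑ i ∈ Finset.range (p - 1), monomial (i + 1) (((i : K) + 1)⁻¹ *
        (CRaux.pol y).coeff i)) ∈ degreeLT K (p + 1) := by
      refine Submodule.sum_mem _ fun i hi => ?_
      rw [mem_degreeLT]
      refine lt_of_le_of_lt (degree_monomial_le _ _) ?_
      have := Finset.mem_range.1 hi
      exact_mod_cast (by omega : i + 1 < p + 1)
    refine ⟨CRaux.mk K _ _ hz, ?_⟩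
    apply CRaux.pol_inj
    rw [CRaux.pol_lm, CRaux.pol_mk]
    apply Polynomial.ext
    intro i
    rw [coeff_derivative, finsetSum_coeff]
    by_cases hi : i < p - 1
    · have hne : ((i : K) + 1) ≠ 0 := by
        have h1 : ((i : K) + 1) = ((i + 1 : ℕ) : K) := by push_cast; rfl
        rw [h1, Ne, CharP.cast_eq_zero_iff K p]
        intro h2
        have := Nat.le_of_dvd (Nat.succ_pos i) h2
        omega
      rw [Finset.sum_eq_single i]
      · rw [coeff_monomial, if_pos rfl, mul_comm, ← mul_assoc, mul_inv_cancel₀ hne, one_mul]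
      · intro b _ hb
        rw [coeff_monomial, if_neg (by omega)]
      · intro h'
        exact absurd (Finset.mem_range.2 hi) h'
    · rw [Finset.sum_eq_zero, zero_mul]
      · exact (hy' i (not_lt.1 hi)).symm
      · intro b hb
        have := Finset.mem_range.1 hb
        rw [coeff_monomial, if_neg (by omega)]
  · ext v
    constructor
    · rintro ⟨w, rfl⟩
      rw [LinearMap.mem_ker]
      apply CRaux.pol_inj
      rw [CRaux.pol_lm, CRaux.pol_zero]
      erw [CRaux.pol_lm]
      rw [AlgHom.toLinearMap_apply, derivative_expand, CharP.cast_eq_zero, zero_mul, mul_zero]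
    · intro hv
      have h0 : derivative (CRaux.pol v) = 0 := by
        have := congrArg CRaux.pol (LinearMap.mem_ker.1 hv)
        rwa [CRaux.pol_lm, CRaux.pol_zero] at this
      have hv' := (degree_lt_iff_coeff_zero _ _).1 (mem_degreeLT.1 (CRaux.pol_mem v))
      have hm : contract p (CRaux.pol v) ∈ degreeLT K 2 := by
        rw [mem_degreeLT, degree_lt_iff_coeff_zero]
        intro i hi
        rw [coeff_contract hp.ne_zero]
        apply hv'
        have : 2 * p ≤ i * p := Nat.mul_le_mul_right p hi
        omega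
      refine ⟨CRaux.mk K 2 _ hm, ?_⟩
      apply CRaux.pol_inj
      erw [CRaux.pol_lm]
      rw [CRaux.pol_mk, AlgHom.toLinearMap_apply]
      exact expand_contract p h0 hp.ne_zero

/-- `0 → P_{p-c} → P_p → P_c → 0` (divided derivative of order `p - c`) -/
theorem pses_comp (p : ℕ) [Fact p.Prime] (K : Type) [Field K] [CharP K p] (c : ℕ) (hc : c ≤ p) :
    ∃ (f : (P K (p - c)).V →ₗ[K] (P K p).V) (g : (P K p).V →ₗ[K] (P K c).V),
      IsSES (P K (p - c)) (P K p) (P K c) f g := by
  have h := CRaux.hses K (p - c) c (fun l h1 h2 => by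
    rw [Ne, CharP.cast_eq_zero_iff K p]
    have := BDAux.choose_ndvd p (p - c) 0 l (by simpa using h1) (by simp; omega)
    simpa using this)
  rwa [Nat.sub_add_cancel hc] at h

/-- `0 → P_{p^j n} → P_{p^j (n+1)} → P_{p^j} → 0` -/
theorem pses_block (p : ℕ) [Fact p.Prime] (K : Type) [Field K] [CharP K p] (j n : ℕ) :
    ∃ (f : (P K (p ^ j * n)).V →ₗ[K] (P K (p ^ j * (n + 1))).V)
      (g : (P K (p ^ j * (n + 1))).V →ₗ[K] (P K (p ^ j)).V),
      IsSES (P K (p ^ j * n)) (P K (p ^ j * (n + 1))) (P K (p ^ j)) f g := by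
  have hp : p.Prime := Fact.out
  have h := CRaux.hses K (p ^ j * n) (p ^ j) (fun l h1 h2 => by
    rw [Ne, CharP.cast_eq_zero_iff K p]
    intro hd
    have hpos : 0 < p ^ j := pow_pos hp.pos _
    have key := Choose.choose_modEq_choose_mul_prod_range_choose (n := l) (k := p ^ j * n)
      (p := p) j
    have e1 : l / p ^ j = n := by
      apply Nat.div_eq_of_lt_le
      · rw [mul_comm]; exact h1
      · rw [mul_comm, mul_add, mul_one]; exact h2
    have e2 : p ^ j * n / p ^ j = n := Nat.mul_div_cancel_left _ hpos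
    have hprod : ∏ i ∈ Finset.range j, (l / p ^ i % p).choose (p ^ j * n / p ^ i % p) = 1 := by
      refine Finset.prod_eq_one fun i hi => ?_
      have hij : i < j := Finset.mem_range.1 hi
      have : p ^ j * n / p ^ i % p = 0 := by
        have h3 : p ^ j = p ^ i * (p ^ (j - i - 1) * p) := by
          rw [← pow_succ, ← pow_add]
          congr 1
          omega
        rw [h3, show p ^ i * (p ^ (j - i - 1) * p) * n = p ^ i * (n * p ^ (j - i - 1) * p) by ring,
          Nat.mul_div_cancel_left _ (pow_pos hp.pos _), Nat.mul_mod_left]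
      rw [this, Nat.choose_zero_right]
    rw [e1, e2, Nat.choose_self] at key
    have hprod' : ((∏ i ∈ Finset.range j,
        ((l / p ^ i % p).choose (p ^ j * n / p ^ i % p) : ℤ))) = 1 := by
      exact_mod_cast hprod
    simp only [Nat.cast_prod, Nat.cast_one, one_mul] at key
    rw [hprod'] at key
    have h5 : (p : ℤ) ∣ (l.choose (p ^ j * n) : ℤ) := by exact_mod_cast hd
    have h6 := (Int.ModEq.dvd_iff key).1 h5
    have h7 : (p : ℤ) ≤ 1 := Int.le_of_dvd one_pos h6
    have := hp.one_lt
    omega)
  have e : p ^ j * n + p ^ j = p ^ j * (n + 1) := by ring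
  rwa [e] at h

end Pool.Agent.GamI
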