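import Pool.Agent.GamI.Defs3
import Pool.Agent.GamI.TE
import Pool.Agent.GamI.TR
import Pool.Agent.GamI.CR

/-! # CP: exact sequences of polynomial modules -/

set_option autoImplicit false

open scoped TensorProduct
open Module Polynomial

noncomputable section

namespace Pool.Agent.GamI

variable {p : ℕ} [Fact p.Prime] {K : Type} [Field K] [CharP K p]

lemma finrank_P (K : Type) [Field K] (n : ℕ) : finrank K (P K n).V = n := by
  have h := (degreeLTEquiv K n).finrank_eq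
  rw [finrank_fin_fun] at h
  exact h

lemma iso_P_one (K : Type) [Field K] : Iso (P K 1) (triv K (Multiplicative K)) := by
  have hc : ∀ v : (P K 1).V, CRaux.pol v = C ((CRaux.pol v).coeff 0) := by
    intro v
    apply eq_C_of_degree_le_zero
    have h := mem_degreeLT.1 (CRaux.pol_mem v)
    by_contra h2
    have h3 : (0 : WithBot ℕ) < (CRaux.pol v).degree := not_le.1 h2
    by_cases h0 : CRaux.pol v = 0
    · rw [h0, degree_zero] at h3
      exact absurd h3 (by simp)
    · rw [degree_eq_natDegree h0] at h h3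
      have h4 : (CRaux.pol v).natDegree < 1 := by exact_mod_cast h
      have h5 : 0 < (CRaux.pol v).natDegree := by exact_mod_cast h3
      omega
  let f : (P K 1).V →ₗ[K] (triv K (Multiplicative K)).V := lcoeff K 0 ∘ₗ (degreeLT K 1).subtype
  have hfv : ∀ v, f v = (CRaux.pol v).coeff 0 := fun v => rfl
  refine iso_of_bij f ?_ ⟨?_, ?_⟩
  · intro t v
    change (CRaux.pol ((P K 1).ρ t v)).coeff 0 = (CRaux.pol v).coeff 0
    rw [CRaux.pol_rho, hc v, taylor_C]
  · intro v w h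
    apply CRaux.pol_inj
    rw [hfv, hfv] at h
    rw [hc v, hc w, h]
  · intro c0
    obtain ⟨c, hc0⟩ : ∃ c : K, c = c0 := ⟨c0, rfl⟩
    have hm : C c ∈ degreeLT K 1 := by
      rw [mem_degreeLT]
      exact lt_of_le_of_lt degree_C_le (by norm_num)
    refine ⟨CRaux.mk K 1 (C c) hm, ?_⟩
    refine (hfv _).trans ?_
    rw [CRaux.pol_mk]
    have h7 : (C c : K[X]).coeff 0 = c := coeff_C_zero
    exact h7.trans hc0

lemma finrank_P_zero (K : Type) [Field K] : finrank K (P K 0).V = 0 := finrank_P K 0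

/-- constants, leading coefficient: `0 → P_n → P_{n+1} → k → 0` -/
theorem pses_lead (K : Type) [Field K] (n : ℕ) :
    ∃ (f : (P K n).V →ₗ[K] (P K (n + 1)).V)
      (g : (P K (n + 1)).V →ₗ[K] (triv K (Multiplicative K)).V),
      IsSES (P K n) (P K (n + 1)) (triv K (Multiplicative K)) f g := by
  obtain ⟨f, g, h⟩ := CRaux.hses K n 1 (fun l h1 h2 => by
    obtain rfl : l = n := by omega
    simp)
  exact h.of_iso (Iso.refl _) (Iso.refl _) (iso_P_one K)

namespace CPaux

lemma one_mem {K : Type} [Field K] : (1 : K[X]) ∈ degreeLT K 2 := by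
  rw [mem_degreeLT]
  exact lt_of_le_of_lt degree_one_le (by norm_num)

lemma X_mem {K : Type} [Field K] : (X : K[X]) ∈ degreeLT K 2 := by
  rw [mem_degreeLT]
  exact lt_of_le_of_lt degree_X_le (by norm_num)

lemma mulX_mem {K : Type} [Field K] (n : ℕ) : ∀ f ∈ degreeLT K n,
    LinearMap.mulLeft K (X : K[X]) f ∈ degreeLT K (n + 1) := by
  intro f hf
  rw [LinearMap.mulLeft_apply]
  rw [mem_degreeLT, degree_lt_iff_coeff_zero] at hf ⊢
  intro i hi
  obtain ⟨j, rfl⟩ : ∃ j, i = j + 1 := ⟨i - 1, by omega⟩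
  rw [coeff_X_mul]
  exact hf j (by omega)

lemma inc_mem {K : Type} [Field K] (n : ℕ) : ∀ f ∈ degreeLT K n,
    (LinearMap.id : K[X] →ₗ[K] K[X]) f ∈ degreeLT K (n + 1) := by
  intro f hf
  rw [mem_degreeLT] at hf ⊢
  exact lt_of_lt_of_le hf (by exact_mod_cast Nat.le_succ n)

/-- the first map -/
def f1 (K : Type) [Field K] (n : ℕ) : (P K n).V →ₗ[K] (P K 2).V ⊗[K] (P K (n + 1)).V :=
  (TensorProduct.mk K (P K 2).V (P K (n + 1)).V (CRaux.mk K 2 1 one_mem)) ∘ₗ
      CRaux.lm (LinearMap.mulLeft K (X : K[X])) (mulX_mem n) -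
    (TensorProduct.mk K (P K 2).V (P K (n + 1)).V (CRaux.mk K 2 X X_mem)) ∘ₗ
      CRaux.lm LinearMap.id (inc_mem n)

lemma f1_apply (K : Type) [Field K] (n : ℕ) (v : (P K n).V) :
    f1 K n v = (CRaux.mk K 2 1 one_mem) ⊗ₜ[K] CRaux.lm (LinearMap.mulLeft K (X : K[X]))
      (mulX_mem n) v - (CRaux.mk K 2 X X_mem) ⊗ₜ[K] CRaux.lm LinearMap.id (inc_mem n) v := rfl

lemma mul_mem {K : Type} [Field K] (n : ℕ) (a : (P K 2).V) (b : (P K (n + 1)).V) :
    CRaux.pol a * CRaux.pol b ∈ degreeLT K (n + 2) := by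
  have ha := CRaux.pol_mem a
  have hb := CRaux.pol_mem b
  by_cases h1 : CRaux.pol a = 0
  · rw [h1, zero_mul]; exact Submodule.zero_mem _
  by_cases h2 : CRaux.pol b = 0
  · rw [h2, mul_zero]; exact Submodule.zero_mem _
  rw [mem_degreeLT, degree_eq_natDegree (mul_ne_zero h1 h2), natDegree_mul h1 h2]
  rw [mem_degreeLT, degree_eq_natDegree h1] at ha
  rw [mem_degreeLT, degree_eq_natDegree h2] at hb
  have ha' : (CRaux.pol a).natDegree < 2 := by exact_mod_cast ha
  have hb' : (CRaux.pol b).natDegree < n + 1 := by exact_mod_cast hb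
  exact_mod_cast (by omega : (CRaux.pol a).natDegree + (CRaux.pol b).natDegree < n + 2)

/-- the multiplication -/
def g1 (K : Type) [Field K] (n : ℕ) : (P K 2).V ⊗[K] (P K (n + 1)).V →ₗ[K] (P K (n + 2)).V :=
  TensorProduct.lift (LinearMap.mk₂ K (fun a b => CRaux.mk K (n + 2) _ (mul_mem n a b))
    (fun a a' b => CRaux.pol_inj (by
      rw [CRaux.pol_mk, CRaux.pol_add, CRaux.pol_add, CRaux.pol_mk, CRaux.pol_mk, add_mul]))
    (fun c a b => CRaux.pol_inj (by
      rw [CRaux.pol_mk, CRaux.pol_smul, CRaux.pol_smul, CRaux.pol_mk, smul_mul_assoc]))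
    (fun a b b' => CRaux.pol_inj (by
      rw [CRaux.pol_mk, CRaux.pol_add, CRaux.pol_add, CRaux.pol_mk, CRaux.pol_mk, mul_add]))
    (fun c a b => CRaux.pol_inj (by
      rw [CRaux.pol_mk, CRaux.pol_smul, CRaux.pol_smul, CRaux.pol_mk, mul_smul_comm])))

lemma pol_g1 (K : Type) [Field K] (n : ℕ) (a : (P K 2).V) (b : (P K (n + 1)).V) :
    CRaux.pol (g1 K n (a ⊗ₜ[K] b)) = CRaux.pol a * CRaux.pol b := rfl

lemma g1_isH (K : Type) [Field K] (n : ℕ) :
    IsH ((P K 2).tens (P K (n + 1))) (P K (n + 2)) (g1 K n) := by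
  intro t v
  change g1 K n (TensorProduct.map ((P K 2).ρ t) ((P K (n + 1)).ρ t) v) =
    (P K (n + 2)).ρ t (g1 K n v)
  induction v using TensorProduct.induction_on with
  | zero => rw [map_zero, map_zero, map_zero]
  | add x y hx hy => rw [map_add, map_add, hx, hy, map_add, map_add]
  | tmul a b =>
    apply CRaux.pol_inj
    rw [TensorProduct.map_tmul, pol_g1, CRaux.pol_rho, CRaux.pol_rho, CRaux.pol_rho, pol_g1,
      taylor_mul]

lemma f1_isH (K : Type) [Field K] (n : ℕ) :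
    IsH (P K n) ((P K 2).tens (P K (n + 1))) (f1 K n) := by
  intro t v
  change f1 K n ((P K n).ρ t v) = TensorProduct.map ((P K 2).ρ t) ((P K (n + 1)).ρ t) (f1 K n v)
  rw [f1_apply, f1_apply, map_sub, TensorProduct.map_tmul, TensorProduct.map_tmul]
  have e1 : (P K 2).ρ t (CRaux.mk K 2 1 one_mem) = CRaux.mk K 2 1 one_mem := by
    apply CRaux.pol_inj
    rw [CRaux.pol_rho, CRaux.pol_mk, taylor_one, C_1]
  have e2 : (P K 2).ρ t (CRaux.mk K 2 X X_mem) = CRaux.mk K 2 X X_mem +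
      t.toAdd • CRaux.mk K 2 1 one_mem := by
    apply CRaux.pol_inj
    rw [CRaux.pol_rho, CRaux.pol_add, CRaux.pol_smul, CRaux.pol_mk, CRaux.pol_mk, taylor_X,
      Polynomial.smul_eq_C_mul, mul_one]
  have e3 : (P K (n + 1)).ρ t (CRaux.lm LinearMap.id (inc_mem n) v) =
      CRaux.lm LinearMap.id (inc_mem n) ((P K n).ρ t v) := by
    apply CRaux.pol_inj
    rw [CRaux.pol_rho, CRaux.pol_lm, CRaux.pol_lm, CRaux.pol_rho, LinearMap.id_apply,
      LinearMap.id_apply]
  have e4 : (P K (n + 1)).ρ t (CRaux.lm (LinearMap.mulLeft K (X : K[X])) (mulX_mem n) v) =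
      CRaux.lm (LinearMap.mulLeft K (X : K[X])) (mulX_mem n) ((P K n).ρ t v) +
        t.toAdd • CRaux.lm LinearMap.id (inc_mem n) ((P K n).ρ t v) := by
    apply CRaux.pol_inj
    rw [CRaux.pol_rho, CRaux.pol_add, CRaux.pol_smul, CRaux.pol_lm, CRaux.pol_lm, CRaux.pol_lm,
      CRaux.pol_rho, LinearMap.id_apply, LinearMap.mulLeft_apply, LinearMap.mulLeft_apply,
      taylor_mul, taylor_X, Polynomial.smul_eq_C_mul]
    ring
  rw [e1, e2, e3, e4, TensorProduct.tmul_add, TensorProduct.add_tmul, TensorProduct.tmul_smul,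
    TensorProduct.smul_tmul']
  abel

lemma f1_inj (K : Type) [Field K] (n : ℕ) : Function.Injective (f1 K n) := by
  rw [← LinearMap.ker_eq_bot, LinearMap.ker_eq_bot']
  intro v hv
  let c1 : (P K 2).V →ₗ[K] K := lcoeff K 1 ∘ₗ (degreeLT K 2).subtype
  have h1 : c1 (CRaux.mk K 2 1 one_mem) = 0 := by
    change (1 : K[X]).coeff 1 = 0
    rw [coeff_one, if_neg one_ne_zero]
  have h2 : c1 (CRaux.mk K 2 X X_mem) = 1 := by
    change (X : K[X]).coeff 1 = 1
    exact coeff_X_one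
  have h3 := congrArg ((TensorProduct.lid K (P K (n + 1)).V).toLinearMap ∘ₗ c1.rTensor (P K (n + 1)).V) hv
  rw [map_zero, f1_apply, map_sub] at h3
  simp only [LinearMap.comp_apply, LinearMap.rTensor_tmul, h1, h2] at h3
  have h4 : (0 : (P K (n + 1)).V) - CRaux.lm LinearMap.id (inc_mem n) v = 0 := by
    simpa using h3
  have h5 : CRaux.lm LinearMap.id (inc_mem n) v = 0 := by
    rw [zero_sub, neg_eq_zero] at h4
    exact h4
  apply CRaux.pol_inj
  have h6 := congrArg CRaux.pol h5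
  rwa [CRaux.pol_lm, LinearMap.id_apply, CRaux.pol_zero] at h6

lemma g1_surj (K : Type) [Field K] (n : ℕ) : Function.Surjective (g1 K n) := by
  intro y
  have hy := (degree_lt_iff_coeff_zero _ _).1 (mem_degreeLT.1 (CRaux.pol_mem y))
  have h1 : divX (CRaux.pol y) ∈ degreeLT K (n + 1) := by
    rw [mem_degreeLT, degree_lt_iff_coeff_zero]
    intro i hi
    rw [coeff_divX]
    exact hy (i + 1) (by omega)
  have h2 : C ((CRaux.pol y).coeff 0) ∈ degreeLT K (n + 1) := by
    rw [mem_degreeLT]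
    refine lt_of_le_of_lt degree_C_le ?_
    exact_mod_cast Nat.succ_pos n
  refine ⟨(CRaux.mk K 2 X X_mem) ⊗ₜ[K] (CRaux.mk K (n + 1) _ h1) +
    (CRaux.mk K 2 1 one_mem) ⊗ₜ[K] (CRaux.mk K (n + 1) _ h2), ?_⟩
  apply CRaux.pol_inj
  rw [map_add, CRaux.pol_add, pol_g1, pol_g1, CRaux.pol_mk, CRaux.pol_mk, CRaux.pol_mk,
    CRaux.pol_mk, one_mul, mul_comm]
  exact divX_mul_X_add _

lemma g1_f1 (K : Type) [Field K] (n : ℕ) (v : (P K n).V) : g1 K n (f1 K n v) = 0 := by
  apply CRaux.pol_inj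
  rw [f1_apply, map_sub]
  have : ∀ a b : (P K (n + 2)).V, CRaux.pol (a - b) = CRaux.pol a - CRaux.pol b := fun _ _ => rfl
  rw [this, pol_g1, pol_g1, CRaux.pol_mk, CRaux.pol_mk, CRaux.pol_lm, CRaux.pol_lm,
    LinearMap.mulLeft_apply, LinearMap.id_apply, one_mul, sub_self, CRaux.pol_zero]

end CPaux

/-- `0 → P_n → P_2 ⊗ P_{n+1} → P_{n+2} → 0` (multiplication) -/
theorem pses_mult (K : Type) [Field K] (n : ℕ) :
    ∃ (f : (P K n).V →ₗ[K] ((P K 2).tens (P K (n + 1))).V)
      (g : ((P K 2).tens (P K (n + 1))).V →ₗ[K] (P K (n + 2)).V),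
      IsSES (P K n) ((P K 2).tens (P K (n + 1))) (P K (n + 2)) f g := by
  refine ⟨CPaux.f1 K n, CPaux.g1 K n, ?_⟩
  have hex : LinearMap.range (CPaux.f1 K n) = LinearMap.ker (CPaux.g1 K n) := by
    apply Submodule.eq_of_le_of_finrank_eq
    · rintro _ ⟨v, rfl⟩
      exact CPaux.g1_f1 K n v
    · have h1 := LinearMap.finrank_range_of_inj (CPaux.f1_inj K n)
      have h2 := LinearMap.finrank_range_add_finrank_ker (CPaux.g1 K n)
      rw [LinearMap.range_eq_top.2 (CPaux.g1_surj K n), finrank_top, finrank_tensorProduct] at h2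
      rw [finrank_P] at h1
      rw [finrank_P, finrank_P, finrank_P] at h2
      omega
  exact { hf := CPaux.f1_isH K n, hg := CPaux.g1_isH K n, inj := CPaux.f1_inj K n, surj := CPaux.g1_surj K n, exact := hex }

end Pool.Agent.GamI
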