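import Pool.Agent.GamI.Defs3
import Pool.Agent.GamI.TE
import Pool.Agent.GamI.TR
import Pool.Agent.GamI.CR

/-! # CV: polynomial modules are free (Vandermonde) -/

set_option autoImplicit false
set_option linter.unusedSectionVars false

open scoped TensorProduct
open Module Polynomial

noncomputable section

namespace Pool.Agent.GamI

namespace CVaux

variable {K : Type} [Field K]

/-- Lagrange interpolation at the points of a finite subgroup -/
lemma lag (V : Finset K) (h0 : (0 : K) ∈ V) (hV : ∀ v ∈ V, ∀ w ∈ V, v - w ∈ V) :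
    ∃ L : K[X], L.degree < V.card ∧ ∀ f : K[X], f.degree < V.card →
      ∑ v ∈ V, C (f.eval (-v)) * taylor v L = f := by
  classical
  have hpos : 0 < V.card := Finset.card_pos.2 ⟨0, h0⟩
  refine ⟨Lagrange.basis V id 0, ?_, ?_⟩
  · rw [Lagrange.degree_basis (Set.injOn_id _) h0]
    exact_mod_cast Nat.sub_lt hpos one_pos
  · intro f hf
    have hbd : (Lagrange.basis V id (0 : K)).degree < V.card := by
      rw [Lagrange.degree_basis (Set.injOn_id _) h0]
      exact_mod_cast Nat.sub_lt hpos one_pos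
    refine Polynomial.eq_of_degrees_lt_of_eval_index_eq (s := V) (v := fun v => -v)
      (neg_injective.injOn) ?_ hf ?_
    · refine lt_of_le_of_lt (degree_sum_le _ _) ?_
      rw [Finset.sup_lt_iff (WithBot.bot_lt_coe _)]
      intro v _
      refine lt_of_le_of_lt (degree_mul_le _ _) ?_
      rw [degree_taylor]
      refine lt_of_le_of_lt (add_le_add degree_C_le le_rfl) ?_
      rw [zero_add]
      exact hbd
    · intro w hw
      rw [eval_finsetSum, Finset.sum_eq_single w]
      · rw [eval_mul, eval_C, taylor_eval, neg_add_cancel]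
        have : (Lagrange.basis V id (0 : K)).eval (id 0) = 1 :=
          Lagrange.eval_basis_self (Set.injOn_id _) h0
        rw [id] at this
        rw [this, mul_one]
      · intro v hv hvw
        rw [eval_mul, taylor_eval]
        have h1 : -w + v = v - w := by ring
        have h2 : v - w ≠ 0 := sub_ne_zero.2 hvw
        have : (Lagrange.basis V id (0 : K)).eval (id (v - w)) = 0 :=
          Lagrange.eval_basis_of_ne h2.symm (hV v hv w hw)
        rw [id] at this
        rw [h1, this, mul_zero]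
      · intro h
        exact absurd hw h

/-- the operator `f ↦ f(0) L` -/
def th (q : ℕ) (L : K[X]) (hL : L ∈ degreeLT K q) : (P K q).V →ₗ[K] (P K q).V :=
  LinearMap.smulRight ((leval (0 : K)) ∘ₗ (degreeLT K q).subtype) (CRaux.mk K q L hL)

lemma pol_th (q : ℕ) (L : K[X]) (hL : L ∈ degreeLT K q) (v : (P K q).V) :
    CRaux.pol (th q L hL v) = (CRaux.pol v).eval 0 • L := rfl

lemma pol_cj_th {E : Type} [Group E] (q : ℕ) (L : K[X]) (hL : L ∈ degreeLT K q)
    (μ : E →* Multiplicative K) (e : E) (v : (P K q).V) :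
    CRaux.pol (n := q) (cj (Pm q μ) (Pm q μ) e (th q L hL) v) =
      C ((CRaux.pol v).eval (-(μ e).toAdd)) * taylor (μ e).toAdd L := by
  have e1 : cj (Pm q μ) (Pm q μ) e (th q L hL) v =
      (P K q).ρ (μ e) (th q L hL ((P K q).ρ (μ e⁻¹) v)) := rfl
  rw [e1, CRaux.pol_rho, pol_th, CRaux.pol_rho, taylor_eval, zero_add, map_inv, toAdd_inv,
    map_smul, Polynomial.smul_eq_C_mul]

lemma pol_sum {q : ℕ} {ι : Type} (S : Finset ι) (f : ι → (P K q).V) :
    CRaux.pol (∑ i ∈ S, f i) = ∑ i ∈ S, CRaux.pol (f i) :=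
  map_sum (degreeLT K q).subtype f S

end CVaux

open CVaux

variable {p : ℕ} [Fact p.Prime] {K : Type} [Field K] [CharP K p]

/-- over a subgroup -/
theorem projOn_P (E : Type) [Group E] [Finite E] (μ : E →* Multiplicative K) (E' : Subgroup E)
    (hμ : ∀ e ∈ E', μ e = 1 → e = 1) (s : ℕ) (hA : Nat.card E' = p ^ s) :
    ProjOn E' (Pm (p ^ s) μ) := by
  classical
  let V : Finset K := (subFin E').image fun e => (μ e).toAdd
  have hinj : Set.InjOn (fun e => (μ e).toAdd) (subFin E' : Set E) := by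
    intro a ha b hb hab
    have ha' : a ∈ E' := (mem_subFin E' a).1 ha
    have hb' : b ∈ E' := (mem_subFin E' b).1 hb
    have h1 : μ a = μ b := Multiplicative.toAdd.injective hab
    have h2 : a * b⁻¹ = 1 := hμ _ (E'.mul_mem ha' (E'.inv_mem hb')) (by
      rw [map_mul, map_inv, h1, mul_inv_cancel])
    exact mul_inv_eq_one.1 h2
  have hcardS : (subFin E').card = p ^ s := by
    rw [← hA]
    exact ((Nat.card_coe_set_eq (E' : Set E)).trans (Set.ncard_eq_toFinset_card _ _)).symm
  have hcard : V.card = p ^ s := by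
    rw [← hcardS]
    exact Finset.card_image_of_injOn hinj
  have h0 : (0 : K) ∈ V := Finset.mem_image.2 ⟨1, (mem_subFin E' 1).2 E'.one_mem, by simp⟩
  have hV : ∀ v ∈ V, ∀ w ∈ V, v - w ∈ V := by
    intro v hv w hw
    obtain ⟨a, ha, rfl⟩ := Finset.mem_image.1 hv
    obtain ⟨b, hb, rfl⟩ := Finset.mem_image.1 hw
    refine Finset.mem_image.2 ⟨a * b⁻¹, (mem_subFin E' _).2 (E'.mul_mem ((mem_subFin E' a).1 ha)
      (E'.inv_mem ((mem_subFin E' b).1 hb))), ?_⟩
    rw [map_mul, map_inv, toAdd_mul, toAdd_inv, sub_eq_add_neg]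
  obtain ⟨L, hL, hsum⟩ := lag V h0 hV
  rw [hcard] at hL hsum
  have hLm : L ∈ degreeLT K (p ^ s) := mem_degreeLT.2 hL
  refine ⟨th (p ^ s) L hLm, ?_⟩
  refine LinearMap.ext fun v => ?_
  apply CRaux.pol_inj
  have e1 : trH E' (Pm (p ^ s) μ) (Pm (p ^ s) μ) (th (p ^ s) L hLm) v =
      ∑ e ∈ subFin E', cj (Pm (p ^ s) μ) (Pm (p ^ s) μ) e (th (p ^ s) L hLm) v := by
    exact LinearMap.sum_apply _ _ _
  rw [e1]
  refine (pol_sum _ _).trans ?_
  refine (Finset.sum_congr rfl fun e _ => pol_cj_th (p ^ s) L hLm μ e v).trans ?_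
  have h2 := hsum (CRaux.pol (n := p ^ s) v) (mem_degreeLT.1 (CRaux.pol_mem v))
  rw [Finset.sum_image hinj] at h2
  exact h2

theorem proj_P (A : Type) [Group A] [Finite A] (μ : A →* Multiplicative K)
    (hμ : Function.Injective μ) (s : ℕ) (hA : Nat.card A = p ^ s) : Proj (Pm (p ^ s) μ) := by
  refine projOn_P A μ ⊤ (fun e _ he => hμ (he.trans (map_one μ).symm)) s ?_
  rw [← hA]
  exact Nat.card_congr (Subgroup.topEquiv (G := A)).toEquiv

/-- relative version: if `μ` has kernel `E₀` and `E/E₀` has order `p^s`, the identity of `P_{p^s}`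
is the trace relative to `E₀` -/
theorem relProj_P (E : Type) [Group E] [Finite E] (μ : E →* Multiplicative K) (s : ℕ)
    (hA : Nat.card (E ⧸ μ.ker) = p ^ s) :
    ∃ θ : (Pm (p ^ s) μ).V →ₗ[K] (Pm (p ^ s) μ).V, IsHOn μ.ker (Pm (p ^ s) μ) (Pm (p ^ s) μ) θ ∧
      ∑ᶠ q : E ⧸ μ.ker, cj (Pm (p ^ s) μ) (Pm (p ^ s) μ) q.out θ = LinearMap.id := by
  classical
  have : Fintype (E ⧸ μ.ker) := Fintype.ofFinite _
  have hout : ∀ e : E, μ ((e : E ⧸ μ.ker).out) = μ e := by
    intro e
    have h1 : (((e : E ⧸ μ.ker).out : E) : E ⧸ μ.ker) = (e : E ⧸ μ.ker) := QuotientGroup.out_eq' _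
    have h2 := QuotientGroup.eq.1 h1
    rw [MonoidHom.mem_ker, map_mul, map_inv] at h2
    exact inv_mul_eq_one.1 h2
  let nd : E ⧸ μ.ker → K := fun q => (μ q.out).toAdd
  have hinj : Function.Injective nd := by
    intro a b hab
    have h1 : μ a.out = μ b.out := Multiplicative.toAdd.injective hab
    rw [← QuotientGroup.out_eq' a, ← QuotientGroup.out_eq' b, QuotientGroup.eq, MonoidHom.mem_ker,
      map_mul, map_inv, h1, inv_mul_cancel]
  let V : Finset K := Finset.univ.image nd
  have hcard : V.card = p ^ s := by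
    rw [← hA, Finset.card_image_of_injective _ hinj, Finset.card_univ, Nat.card_eq_fintype_card]
  have hmem : ∀ e : E, (μ e).toAdd ∈ V := fun e =>
    Finset.mem_image.2 ⟨(e : E ⧸ μ.ker), Finset.mem_univ _, congrArg Multiplicative.toAdd (hout e)⟩
  have h0 : (0 : K) ∈ V := by
    have := hmem 1
    rwa [map_one, toAdd_one] at this
  have hV : ∀ v ∈ V, ∀ w ∈ V, v - w ∈ V := by
    intro v hv w hw
    obtain ⟨a, -, rfl⟩ := Finset.mem_image.1 hv
    obtain ⟨b, -, rfl⟩ := Finset.mem_image.1 hw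
    have := hmem (a.out * b.out⁻¹)
    rwa [map_mul, map_inv, toAdd_mul, toAdd_inv, ← sub_eq_add_neg] at this
  obtain ⟨L, hL, hsum⟩ := lag V h0 hV
  rw [hcard] at hL hsum
  have hLm : L ∈ degreeLT K (p ^ s) := mem_degreeLT.2 hL
  refine ⟨th (p ^ s) L hLm, ?_, ?_⟩
  · intro e he v
    have h1 : μ e = 1 := he
    have h2 : ∀ w : (Pm (p ^ s) μ).V, (Pm (p ^ s) μ).ρ e w = w := by
      intro w
      change (P K (p ^ s)).ρ (μ e) w = w
      rw [h1, map_one]
      rfl
    rw [h2]
    exact (h2 _).symm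
  · rw [finsum_eq_sum_of_fintype]
    refine LinearMap.ext fun v => ?_
    rw [LinearMap.sum_apply]
    apply CRaux.pol_inj
    refine (pol_sum _ _).trans ?_
    refine (Finset.sum_congr rfl fun q _ => pol_cj_th (p ^ s) L hLm μ q.out v).trans ?_
    have h2 := hsum (CRaux.pol (n := p ^ s) v) (mem_degreeLT.1 (CRaux.pol_mem v))
    rw [Finset.sum_image hinj.injOn] at h2
    exact h2

end Pool.Agent.GamI
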