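import Pool.Agent.GamI.BJ
import Pool.Agent.GamI.CV
import Pool.Agent.GamI.CP
import Pool.Agent.GamI.CR

/-! # BI: properties of `hatK`; injectivity of the additive function at the generic point -/

set_option autoImplicit false

open scoped TensorProduct
open Module Polynomial

noncomputable section

namespace Pool.Agent.GamI

variable {p : ℕ} [Fact p.Prime] {k : Type} [Field k] [CharP k p] {E : Type} [Group E] [Finite E]
variable {K : Type} [Field K] [Algebra k K] (s : RankFn k E)

namespace BIAux

/-- restriction of scalars of a linear map -/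
def rsMap (k : Type) [Field k] {K : Type} [Field K] [Algebra k K] {G : Type} [Group G]
    {A B : Mo K G} (f : A.V →ₗ[K] B.V) :
    letI := rsMod k A; letI := rsMod k B; A.V →ₗ[k] B.V :=
  letI := rsMod k A; letI := rsMod k B
  { toFun := f
    map_add' := f.map_add
    map_smul' := fun c v => f.map_smul (algebraMap k K c) v }

/-- restriction of scalars of a linear equivalence -/
def rsEquiv (k : Type) [Field k] {K : Type} [Field K] [Algebra k K] {G : Type} [Group G]
    {A B : Mo K G} (f : A.V ≃ₗ[K] B.V) :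
    letI := rsMod k A; letI := rsMod k B; A.V ≃ₗ[k] B.V :=
  letI := rsMod k A; letI := rsMod k B
  { f.toAddEquiv with
    map_smul' := fun c v => f.map_smul (algebraMap k K c) v }

theorem cancel_map {k K V W : Type} [Field k] [Field K] [Algebra k K] [AddCommGroup V]
    [Module K V] [Module k V] [IsScalarTower k K V] [AddCommGroup W] [Module k W]
    (a : V →ₗ[K] V) (m : W →ₗ[k] W) (v : V ⊗[K] (K ⊗[k] W)) :
    TensorProduct.AlgebraTensorModule.cancelBaseChange k K K V W
      (TensorProduct.map a (m.baseChange K) v) =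
    TensorProduct.map (a.restrictScalars k) m
      (TensorProduct.AlgebraTensorModule.cancelBaseChange k K K V W v) := by
  induction v using TensorProduct.induction_on with
  | zero => simp only [map_zero]
  | add x y hx hy => rw [map_add, map_add, map_add, map_add, hx, hy]
  | tmul a w =>
    induction w using TensorProduct.induction_on with
    | zero => simp only [TensorProduct.tmul_zero, map_zero]
    | add x y hx hy => rw [TensorProduct.tmul_add, map_add, map_add, map_add, map_add, hx, hy]
    | tmul x m =>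
      simp [TensorProduct.AlgebraTensorModule.cancelBaseChange_tmul]

end BIAux

open BIAux

lemma hatK_iso {A B : Mo K E} (h : Iso A B) : hatK k s A = hatK k s B := by
  obtain ⟨e, he⟩ := h
  let := rsMod k A
  let := rsMod k B
  exact hatS_iso s (rsRep k A) (rsRep k B) (rsEquiv k e) (fun g v => he g v)

lemma hatK_retr {A B : Mo K E} (h : Retr A B) : hatK k s A ≤ hatK k s B := by
  obtain ⟨i, r, hi, hr, hri⟩ := h
  let := rsMod k A
  let := rsMod k B
  exact hatS_retr s (rsRep k A) (rsRep k B) (rsMap k i) (rsMap k r) (fun g v => hi g v)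
    (fun g v => hr g v) (LinearMap.ext fun v => LinearMap.congr_fun hri v)

lemma hatK_prod (A B : Mo K E) : hatK k s (A.prod B) = hatK k s A + hatK k s B := by
  let := rsMod k A
  let := rsMod k B
  exact hatS_prod s (rsRep k A) (rsRep k B)

lemma hatK_ses {A B C : Mo K E} {f : A.V →ₗ[K] B.V} {g : B.V →ₗ[K] C.V} (h : IsSES A B C f g) :
    hatK k s B ≤ hatK k s A + hatK k s C := by
  let := rsMod k A
  let := rsMod k B
  let := rsMod k C
  refine hatS_ses s (rsRep k A) (rsRep k B) (rsRep k C) (rsMap k f) (rsMap k g)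
    (fun e v => h.hf e v) (fun e v => h.hg e v) h.inj h.surj ?_
  ext v
  have := h.exact
  have h1 : v ∈ LinearMap.range f ↔ v ∈ LinearMap.ker g := by rw [this]
  exact h1

lemma hatK_tens (M : Mo k E) (γ : ℝ) (hγ : 0 ≤ γ) (he : s.Eig M γ) (A : Mo K E) :
    hatK k s (A.tens (baseCh k K M)) = ENNReal.ofReal γ * hatK k s A := by
  let := rsMod k A
  have : IsScalarTower k K A.V := ⟨fun a b c => by
    change (a • b) • c = (algebraMap k K a) • b • c
    rw [Algebra.smul_def, mul_smul]⟩
  let := rsMod k (A.tens (baseCh k K M))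
  rw [show hatK k s A = hatS s (rsRep k A) from rfl, ← hatS_tens s M γ hγ he (rsRep k A)]
  let e0 : A.V ⊗[K] (K ⊗[k] M.V) ≃ₗ[K] A.V ⊗[k] M.V :=
    TensorProduct.AlgebraTensorModule.cancelBaseChange k K K A.V M.V
  let e : (A.tens (baseCh k K M)).V ≃ₗ[k] A.V ⊗[k] M.V :=
    { e0.toAddEquiv with
      map_smul' := fun c v => by
        exact (e0.map_smul (algebraMap k K c) v).trans (algebraMap_smul K c (e0 v)) }
  refine hatS_iso s (rsRep k (A.tens (baseCh k K M))) ((rsRep k A).tprod M.ρ) e ?_
  intro g v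
  exact cancel_map (A.ρ g) (M.ρ g) v

lemma hatK_rel (hG : IsPGroup p E) (hs : s.NullPerm) (A : Mo K E) (H : Subgroup E) (hH : H ≠ ⊤)
    (θ : A.V →ₗ[K] A.V) (hθ : IsHOn H A A θ)
    (h1 : ∑ᶠ q : E ⧸ H, cj A A q.out θ = LinearMap.id) : hatK k s A = 0 := by
  let := rsMod k A
  refine hatS_rel s hG hs (rsRep k A) H hH (rsMap k θ) (fun h hh => ?_) ?_
  · exact LinearMap.ext fun v => (hθ h hh v).symm
  · have : Fintype (E ⧸ H) := Fintype.ofFinite _
    rw [finsum_eq_sum_of_fintype] at h1 ⊢
    refine LinearMap.ext fun v => ?_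
    have h2 := LinearMap.congr_fun h1 v
    rw [LinearMap.sum_apply] at h2 ⊢
    exact h2

lemma hatK_proj [Nontrivial E] (hG : IsPGroup p E) (hs : s.NullPerm) (A : Mo K E) (hA : Proj A) :
    hatK k s A = 0 := by
  obtain ⟨θ, hθ⟩ := hA
  refine hatK_rel s hG hs A ⊥ bot_ne_top θ ?_ ?_
  · intro h hh v
    rw [Subgroup.mem_bot] at hh
    rw [hh, map_one]
    rfl
  · have : Fintype (E ⧸ (⊥ : Subgroup E)) := Fintype.ofFinite _
    have : Fintype E := Fintype.ofFinite _
    rw [finsum_eq_sum_of_fintype, ← hθ]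
    have h1 : subFin (⊤ : Subgroup E) = Finset.univ := by
      ext g
      rw [mem_subFin]
      simp
    unfold trH
    rw [h1]
    have hout : ∀ g : E, ((QuotientGroup.mk g : E ⧸ (⊥ : Subgroup E))).out = g := by
      intro g
      have h2 : (QuotientGroup.mk g : E ⧸ (⊥ : Subgroup E)) =
          QuotientGroup.mk ((QuotientGroup.mk g : E ⧸ (⊥ : Subgroup E)).out) :=
        (QuotientGroup.out_eq' _).symm
      rw [QuotientGroup.eq, Subgroup.mem_bot] at h2
      exact (inv_mul_eq_one.1 h2).symm
    symm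
    refine Fintype.sum_bijective (fun g : E => (QuotientGroup.mk g : E ⧸ (⊥ : Subgroup E)))
      ⟨fun a b hab => ?_, QuotientGroup.mk_surjective⟩ _ _ (fun g => ?_)
    · have h3 := congrArg Quotient.out hab
      exact (hout a).symm.trans (h3.trans (hout b))
    · rw [hout]

lemma hatK_zero (A : Mo K E) (h : finrank K A.V = 0) : hatK k s A = 0 := by
  let := rsMod k A
  have hss : Subsingleton A.V := Module.finrank_zero_iff.1 h
  change hatS s (rsRep k A) = 0
  unfold hatS
  rw [← bot_eq_zero, eq_bot_iff]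
  refine iSup_le fun F => ?_
  refine (iInf_le _ ⟨F, le_rfl⟩).trans ?_
  have hssF : Subsingleton F.mo.V := by
    constructor
    intro a b
    exact Subtype.ext (Subsingleton.elim _ _)
  have h1 : (Submodule.inclusion (le_refl F.F) : F.mo.V →ₗ[k] F.mo.V) = LinearMap.id :=
    LinearMap.ext fun v => Subsingleton.elim _ _
  have h2 : s.s F.mo F.mo LinearMap.id = 0 :=
    s.proj F.mo (proj_of_finrank_zero (Module.finrank_zero_of_subsingleton))
  change ENNReal.ofReal (s.s F.mo F.mo (Submodule.inclusion (le_refl F.F))) ≤ ⊥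
  erw [h1, h2]
  simp

/-- filtration by trivial modules -/
lemma hatK_tens_le [CharP K p] (hG : IsPGroup p E) (X N : Mo K E) :
    hatK k s (X.tens N) ≤ finrank K N.V * hatK k s X := by
  obtain ⟨d, hd⟩ : ∃ d, finrank K N.V = d := ⟨_, rfl⟩
  induction d generalizing N with
  | zero =>
    have h1 : finrank K (X.tens N).V = 0 := by
      have : finrank K (X.tens N).V = finrank K X.V * finrank K N.V := finrank_tensorProduct
      rw [this, hd, mul_zero]
    rw [hatK_zero s _ h1]
    exact zero_le
  | succ d ih =>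
    obtain ⟨A, f, g, h1, h2⟩ := exists_triv_quo (p := p) hG N (by omega)
    have h3 := hatK_ses s (h1.lT X) (k := k)
    have h4 := ih A (by omega)
    have h5 : hatK k s (X.tens (triv K E)) = hatK k s X := hatK_iso s (iso_tens_triv X)
    have h6 : finrank K A.V = d := by omega
    rw [h5] at h3
    rw [h6] at h4
    rw [hd]
    refine h3.trans ?_
    push_cast
    rw [add_mul, one_mul]
    gcongr

/-- `P_{q₀ n}` is filtered by `n` copies of `P_{q₀}`, `q₀` a power of `p` -/
lemma hatK_Pm_mul [CharP K p] (μ : E →* Multiplicative K) (j n : ℕ) :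
    hatK k s (Pm (p ^ j * n) μ) ≤ n * hatK k s (Pm (p ^ j) μ) := by
  induction n with
  | zero =>
    have h1 : finrank K (Pm (p ^ j * 0) μ).V = 0 := by
      rw [mul_zero]
      exact finrank_P_zero K
    rw [hatK_zero s _ h1]
    exact zero_le
  | succ n ih =>
    obtain ⟨f, g, h⟩ := pses_block p K j n
    have h3 := hatK_ses s (h.res μ) (k := k)
    refine h3.trans ?_
    push_cast
    rw [add_mul, one_mul]
    gcongr

theorem injective_of_pos [CharP K p] (hG : IsPGroup p E) (hs : s.NullPerm) (m : ℕ)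
    (hE : Nat.card E = p ^ (m + 1)) (μ : E →* Multiplicative K) (hμ : ∃ e, μ e ≠ 1)
    (h : hatK k s (Pm (p ^ m) μ) ≠ 0) : Function.Injective μ := by
  have hp : p.Prime := Fact.out
  rw [← MonoidHom.ker_eq_bot_iff]
  by_contra hne
  apply h
  have hcard := Subgroup.card_eq_card_quotient_mul_card_subgroup μ.ker
  rw [hE] at hcard
  obtain ⟨t, ht, hts⟩ := (Nat.dvd_prime_pow hp).1 (Dvd.intro _ hcard.symm)
  have htm : t ≤ m := by
    by_contra hlt
    have h1 : t = m + 1 := by omega
    rw [hts, h1] at hcard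
    have h2 : Nat.card μ.ker = 1 :=
      Nat.eq_of_mul_eq_mul_left (pow_pos hp.pos (m + 1)) (by rw [← hcard, mul_one])
    exact hne (Subgroup.card_eq_one.1 h2)
  obtain ⟨θ, hθ, hθ1⟩ := relProj_P E μ t hts
  have hkt : μ.ker ≠ ⊤ := by
    intro hk
    obtain ⟨e, he⟩ := hμ
    apply he
    have : e ∈ μ.ker := by rw [hk]; exact Subgroup.mem_top e
    exact this
  have h0 := hatK_rel s hG hs (Pm (p ^ t) μ) μ.ker hkt θ hθ hθ1
  have h1 := hatK_Pm_mul (p := p) s (k := k) μ t (p ^ (m - t))
  rw [h0, mul_zero, ← pow_add, Nat.add_sub_cancel' htm] at h1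
  exact le_antisymm h1 (zero_le)

end Pool.Agent.GamI
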