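import Pool.Agent.GamI.Defs2
import Pool.Agent.GamI.RP

/-! # BH: rank functionals on infinite-dimensional representations -/

set_option autoImplicit false

open scoped TensorProduct
open Module

noncomputable section

namespace Pool.Agent.GamI

section Tools

variable {k G : Type} [Field k] [Group G]
variable {W W' W'' : Type} [AddCommGroup W] [Module k W] [AddCommGroup W'] [Module k W']
  [AddCommGroup W''] [Module k W'']

/-- the image of an invariant subspace -/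
def FS.img {ρ : Representation k G W} {ρ' : Representation k G W'} (F : FS ρ) (f : W →ₗ[k] W')
    (hf : Eqv ρ ρ' f) : FS ρ' where
  F := F.F.map f
  fin := by
    have := F.fin
    infer_instance
  inv g := by
    rintro _ ⟨x, hx, rfl⟩
    exact ⟨ρ g x, F.inv g hx, hf g x⟩

/-- the sum of two invariant subspaces -/
def FS.sup {ρ : Representation k G W} (F F' : FS ρ) : FS ρ where
  F := F.F ⊔ F'.F
  fin := by
    have := F.fin
    have := F'.fin
    infer_instance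
  inv g := by
    apply sup_le
    · exact (F.inv g).trans (Submodule.comap_mono le_sup_left)
    · exact (F'.inv g).trans (Submodule.comap_mono le_sup_right)

/-- the product of two invariant subspaces -/
def FS.prod {ρ : Representation k G W} {ρ' : Representation k G W'} (F : FS ρ) (F' : FS ρ') :
    FS (ρ.prod ρ') where
  F := F.F.prod F'.F
  fin := by
    have := F.fin
    have := F'.fin
    let e : ↥(F.F.prod F'.F) ≃ₗ[k] (↥F.F × ↥F'.F) :=
      { toFun := fun x => (⟨x.1.1, x.2.1⟩, ⟨x.1.2, x.2.2⟩)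
        invFun := fun y => ⟨(y.1.1, y.2.1), ⟨y.1.2, y.2.2⟩⟩
        map_add' := fun x y => rfl
        map_smul' := fun c x => rfl
        left_inv := fun x => rfl
        right_inv := fun y => rfl }
    exact Module.Finite.equiv e.symm
  inv g := by
    rintro x ⟨hx, hx'⟩
    exact ⟨F.inv g hx, F'.inv g hx'⟩

/-- the map between subrepresentations induced by a map -/
def FS.hom {ρ : Representation k G W} {ρ' : Representation k G W'} (F : FS ρ) (F' : FS ρ')
    (f : W →ₗ[k] W') (h : ∀ x ∈ F.F, f x ∈ F'.F) : F.mo.V →ₗ[k] F'.mo.V :=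
  f.restrict h

lemma FS.hom_isH {ρ : Representation k G W} {ρ' : Representation k G W'} (F : FS ρ) (F' : FS ρ')
    (f : W →ₗ[k] W') (hf : Eqv ρ ρ' f) (h : ∀ x ∈ F.F, f x ∈ F'.F) :
    IsH F.mo F'.mo (F.hom F' f h) := by
  intro g v
  apply Subtype.ext
  exact hf g v.1

lemma FS.incl_isH {ρ : Representation k G W} (F F' : FS ρ) (h : F.F ≤ F'.F) :
    IsH F.mo F'.mo (Submodule.inclusion h) := by
  intro g v
  apply Subtype.ext
  rfl

lemma FS.exists_sup [Finite G] (ρ : Representation k G W) (F : Submodule k W)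
    [Module.Finite k F] : ∃ F' : FS ρ, F ≤ F'.F := by
  refine ⟨⟨⨆ g : G, F.map (ρ g), ?_, ?_⟩, ?_⟩
  · have : ∀ g : G, Module.Finite k ↥(F.map (ρ g)) := fun g => inferInstance
    exact Submodule.finiteDimensional_iSup (fun g : G => F.map (ρ g))
  · intro g
    apply iSup_le
    intro h
    rintro _ ⟨x, hx, rfl⟩
    refine Submodule.mem_iSup_of_mem (g * h) ⟨x, hx, ?_⟩
    rw [map_mul]
    rfl
  · intro x hx
    refine Submodule.mem_iSup_of_mem 1 ⟨x, hx, ?_⟩
    rw [map_one]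
    rfl

/-- the inclusion between two invariant subspaces -/
def FS.inc {ρ : Representation k G W} (F F' : FS ρ) (h : F.F ≤ F'.F) : F.mo.V →ₗ[k] F'.mo.V :=
  Submodule.inclusion h

lemma FS.inc_isH {ρ : Representation k G W} (F F' : FS ρ) (h : F.F ≤ F'.F) :
    IsH F.mo F'.mo (F.inc F' h) := F.incl_isH F' h

lemma FS.inc_comp {ρ : Representation k G W} (F F' F'' : FS ρ) (h : F.F ≤ F'.F)
    (h' : F'.F ≤ F''.F) : F'.inc F'' h' ∘ₗ F.inc F' h = F.inc F'' (h.trans h') := rfl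

lemma FS.inc_self {ρ : Representation k G W} (F : FS ρ) (h : F.F ≤ F.F) :
    F.inc F h = LinearMap.id := rfl

variable [Finite G] (s : RankFn k G)

/-- larger target, smaller value -/
lemma FS.s_mono_r {ρ : Representation k G W} (F F₁ F₂ : FS ρ) (h : F.F ≤ F₁.F)
    (h' : F₁.F ≤ F₂.F) : s.s F.mo F₂.mo (F.inc F₂ (h.trans h')) ≤
      s.s F.mo F₁.mo (F.inc F₁ h) :=
  s.comp_le_r F.mo F₁.mo F₂.mo (F.inc F₁ h) (F₁.inc F₂ h')
    (F.inc_isH F₁ h) (F₁.inc_isH F₂ h')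

/-- smaller source, smaller value -/
lemma FS.s_mono_l {ρ : Representation k G W} (F F₁ F₂ : FS ρ) (h : F.F ≤ F₁.F)
    (h' : F₁.F ≤ F₂.F) : s.s F.mo F₂.mo (F.inc F₂ (h.trans h')) ≤
      s.s F₁.mo F₂.mo (F₁.inc F₂ h') :=
  s.comp_le_l F.mo F₁.mo F₂.mo (F.inc F₁ h) (F₁.inc F₂ h')
    (F.inc_isH F₁ h) (F₁.inc_isH F₂ h')

lemma FS.s_le_val {ρ : Representation k G W} (F F₁ : FS ρ) (h : F.F ≤ F₁.F) :
    s.s F.mo F₁.mo (F.inc F₁ h) ≤ s.val F₁.mo :=
  s.comp_le_l F.mo F₁.mo F₁.mo (F.inc F₁ h) LinearMap.id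
    (F.inc_isH F₁ h) (IsH.id _)

/-- the subrepresentation on a product is the product -/
def FS.eprod {ρ : Representation k G W} {ρ' : Representation k G W'} (A : FS ρ) (B : FS ρ') :
    (A.prod B).mo.V ≃ₗ[k] (A.mo.prod B.mo).V :=
  { toFun := fun x => (⟨x.1.1, x.2.1⟩, ⟨x.1.2, x.2.2⟩)
    invFun := fun y => ⟨(y.1.1, y.2.1), ⟨y.1.2, y.2.2⟩⟩
    map_add' := fun x y => rfl
    map_smul' := fun c x => rfl
    left_inv := fun x => rfl
    right_inv := fun y => rfl }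

lemma FS.eprod_isH {ρ : Representation k G W} {ρ' : Representation k G W'} (A : FS ρ)
    (B : FS ρ') : IsH (A.prod B).mo (A.mo.prod B.mo) (A.eprod B).toLinearMap := fun _ _ => rfl

lemma FS.s_prod {ρ : Representation k G W} {ρ' : Representation k G W'} (F F₁ : FS ρ)
    (F' F₁' : FS ρ') (h : F.F ≤ F₁.F) (h' : F'.F ≤ F₁'.F)
    (hh : (F.prod F').F ≤ (F₁.prod F₁').F) :
    s.s (F.prod F').mo (F₁.prod F₁').mo ((F.prod F').inc _ hh) =
      s.s F.mo F₁.mo (F.inc F₁ h) + s.s F'.mo F₁'.mo (F'.inc F₁' h') := by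
  have hp : IsH (F.mo.prod F'.mo) (F₁.mo.prod F₁'.mo)
      ((F.inc F₁ h).prodMap (F'.inc F₁' h')) :=
    IsH.prodMap (F.inc_isH F₁ h) (F'.inc_isH F₁' h')
  have h2 := s.comp_iso_l (hp.comp (F.eprod_isH F')) (F₁.eprod F₁').symm (F₁.eprod_isH F₁').symm
  have h3 := s.comp_iso_r hp (F.eprod F') (F.eprod_isH F')
  have h4 := s.prod _ _ _ _ _ _ (F.inc_isH F₁ h) (F'.inc_isH F₁' h')
  exact h2.trans (h3.trans h4)

lemma FS.s_prod' {ρ : Representation k G W} {ρ' : Representation k G W'} (F F₁ : FS ρ)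
    (F' F₁' : FS ρ') (h : F.F ≤ F₁.F) (h' : F'.F ≤ F₁'.F)
    (hh : (F.prod F').F ≤ (F₁.prod F₁').F) :
    ENNReal.ofReal (s.s (F.prod F').mo (F₁.prod F₁').mo ((F.prod F').inc _ hh)) =
      ENNReal.ofReal (s.s F.mo F₁.mo (F.inc F₁ h)) +
        ENNReal.ofReal (s.s F'.mo F₁'.mo (F'.inc F₁' h')) := by
  rw [FS.s_prod s F F₁ F' F₁' h h' hh, ENNReal.ofReal_add (s.nonneg _ _ _) (s.nonneg _ _ _)]

/-- the inner infimum -/
def hatI {ρ : Representation k G W} (F : FS ρ) : ENNReal :=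
  ⨅ F' : {F' : FS ρ // F.F ≤ F'.F}, ENNReal.ofReal (s.s F.mo F'.1.mo (F.inc F'.1 F'.2))

lemma hatS_eq (ρ : Representation k G W) : hatS s ρ = ⨆ F : FS ρ, hatI s F := rfl

lemma hatI_le {ρ : Representation k G W} (F F' : FS ρ) (h : F.F ≤ F'.F) :
    hatI s F ≤ ENNReal.ofReal (s.s F.mo F'.mo (F.inc F' h)) :=
  iInf_le (fun F' : {F' : FS ρ // F.F ≤ F'.F} =>
    ENNReal.ofReal (s.s F.mo F'.1.mo (F.inc F'.1 F'.2))) ⟨F', h⟩

lemma le_hatI {ρ : Representation k G W} (F : FS ρ) (c : ENNReal)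
    (h : ∀ (F' : FS ρ) (h : F.F ≤ F'.F), c ≤ ENNReal.ofReal (s.s F.mo F'.mo (F.inc F' h))) :
    c ≤ hatI s F :=
  le_iInf fun F' => h F'.1 F'.2

lemma hatI_le_hatS {ρ : Representation k G W} (F : FS ρ) : hatI s F ≤ hatS s ρ :=
  le_iSup (fun F : FS ρ => hatI s F) F

instance FS.instNonempty (ρ : Representation k G W) : Nonempty (FS ρ) := by
  obtain ⟨F, -⟩ := FS.exists_sup ρ (⊥ : Submodule k W)
  exact ⟨F⟩

end Tools

variable {p : ℕ} [Fact p.Prime] {k G : Type} [Field k] [CharP k p] [Group G] [Finite G]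
variable {W W' W'' : Type} [AddCommGroup W] [Module k W] [AddCommGroup W'] [Module k W']
  [AddCommGroup W''] [Module k W'']
variable (s : RankFn k G)

/-- every finite-dimensional subspace is contained in an invariant one -/
lemma exists_FS (ρ : Representation k G W) (F : Submodule k W) [Module.Finite k F] :
    ∃ F' : FS ρ, F ≤ F'.F :=
  FS.exists_sup ρ F

/-- retracts -/
lemma hatS_retr (ρ : Representation k G W) (ρ' : Representation k G W') (i : W →ₗ[k] W')
    (r : W' →ₗ[k] W) (hi : Eqv ρ ρ' i) (hr : Eqv ρ' ρ r) (h : r ∘ₗ i = LinearMap.id) :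
    hatS s ρ ≤ hatS s ρ' := by
  rw [hatS_eq]
  refine iSup_le fun F => ?_
  refine le_trans ?_ (hatI_le_hatS s (F.img i hi))
  refine le_hatI s _ _ fun F1' hF => ?_
  have hle : F.F ≤ (F1'.img r hr).F := by
    intro x hx
    refine ⟨i x, hF ⟨x, hx, rfl⟩, ?_⟩
    exact LinearMap.congr_fun h x
  refine le_trans (hatI_le s F _ hle) ?_
  apply ENNReal.ofReal_le_ofReal
  let a : F.mo.V →ₗ[k] (F.img i hi).mo.V := F.hom (F.img i hi) i fun x hx => ⟨x, hx, rfl⟩
  let b : (F.img i hi).mo.V →ₗ[k] F1'.mo.V := (F.img i hi).inc F1' hF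
  let c : F1'.mo.V →ₗ[k] (F1'.img r hr).mo.V :=
    F1'.hom (F1'.img r hr) r fun x hx => ⟨x, hx, rfl⟩
  have ha : IsH _ _ a := F.hom_isH (F.img i hi) i hi _
  have hb : IsH _ _ b := FS.inc_isH _ _ hF
  have hc : IsH _ _ c := F1'.hom_isH (F1'.img r hr) r hr _
  have h1 : F.inc (F1'.img r hr) hle = c ∘ₗ (b ∘ₗ a) := by
    apply LinearMap.ext
    intro x
    apply Subtype.ext
    exact (LinearMap.congr_fun h x.1).symm
  rw [h1]
  exact (s.comp_le_r _ _ _ _ _ (hb.comp ha) hc).trans (s.comp_le_l _ _ _ _ _ ha hb)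

lemma hatS_iso (ρ : Representation k G W) (ρ' : Representation k G W') (e : W ≃ₗ[k] W')
    (he : Eqv ρ ρ' e.toLinearMap) : hatS s ρ = hatS s ρ' := by
  have he' : Eqv ρ' ρ e.symm.toLinearMap := by
    intro g v
    apply e.injective
    have := he g (e.symm v)
    simp only [LinearEquiv.coe_coe, LinearEquiv.apply_symm_apply] at this ⊢
    exact this.symm
  apply le_antisymm
  · exact hatS_retr s ρ ρ' e.toLinearMap e.symm.toLinearMap he he' (by ext; simp)
  · exact hatS_retr s ρ' ρ e.symm.toLinearMap e.toLinearMap he' he (by ext; simp)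

lemma hatS_prod (ρ : Representation k G W) (ρ' : Representation k G W') :
    hatS s (ρ.prod ρ') = hatS s ρ + hatS s ρ' := by
  have hfst : Eqv (ρ.prod ρ') ρ (LinearMap.fst k W W') := fun g v => rfl
  have hsnd : Eqv (ρ.prod ρ') ρ' (LinearMap.snd k W W') := fun g v => rfl
  apply le_antisymm
  · rw [hatS_eq]
    refine iSup_le fun H => ?_
    let F := H.img (LinearMap.fst k W W') hfst
    let F' := H.img (LinearMap.snd k W W') hsnd
    have hle : H.F ≤ (F.prod F').F := fun x hx => ⟨⟨x, hx, rfl⟩, ⟨x, hx, rfl⟩⟩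
    refine le_trans ?_ (add_le_add (hatI_le_hatS s F) (hatI_le_hatS s F'))
    refine ENNReal.le_iInf_add_iInf fun F₁ F₁' => ?_
    have hh : (F.prod F').F ≤ (F₁.1.prod F₁'.1).F := fun x hx => ⟨F₁.2 hx.1, F₁'.2 hx.2⟩
    rw [← FS.s_prod' s F F₁.1 F' F₁'.1 F₁.2 F₁'.2 hh]
    refine le_trans (hatI_le s H _ (hle.trans hh)) ?_
    apply ENNReal.ofReal_le_ofReal
    exact FS.s_mono_l s H _ _ hle hh
  · rw [hatS_eq s ρ, hatS_eq s ρ']
    refine ENNReal.iSup_add_iSup_le fun F F' => ?_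
    refine le_trans ?_ (hatI_le_hatS s (F.prod F'))
    refine le_hatI s _ _ fun H hH => ?_
    let F₁ := H.img (LinearMap.fst k W W') hfst
    let F₁' := H.img (LinearMap.snd k W W') hsnd
    have hle : H.F ≤ (F₁.prod F₁').F := fun x hx => ⟨⟨x, hx, rfl⟩, ⟨x, hx, rfl⟩⟩
    have h1 : F.F ≤ F₁.F := fun x hx => ⟨(x, 0), hH ⟨hx, F'.F.zero_mem⟩, rfl⟩
    have h2 : F'.F ≤ F₁'.F := fun x hx => ⟨(0, x), hH ⟨F.F.zero_mem, hx⟩, rfl⟩
    have hh : (F.prod F').F ≤ (F₁.prod F₁').F := hH.trans hle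
    refine le_trans (add_le_add (hatI_le s F F₁ h1) (hatI_le s F' F₁' h2)) ?_
    rw [← FS.s_prod' s F F₁ F' F₁' h1 h2 hh]
    apply ENNReal.ofReal_le_ofReal
    exact FS.s_mono_r s (F.prod F') H _ hH hle

/-- evaluation on a cofinal family -/
lemma hatS_eval (ρ : Representation k G W) {ι : Type} [Nonempty ι] (F : ι → FS ρ)
    (hF : ∀ F' : FS ρ, ∃ i, F'.F ≤ (F i).F) (c : ℝ)
    (hc : ∀ i, ∀ F' : FS ρ, (h : (F i).F ≤ F'.F) → ∃ j, ∃ h' : F'.F ≤ (F j).F,
      s.s (F i).mo (F j).mo (Submodule.inclusion (h.trans h')) = c)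
    (hc' : ∀ i, s.val (F i).mo = c) : hatS s ρ = ENNReal.ofReal c := by
  apply le_antisymm
  · rw [hatS_eq]
    refine iSup_le fun F' => ?_
    obtain ⟨i, hi⟩ := hF F'
    refine le_trans (hatI_le s F' _ hi) ?_
    apply ENNReal.ofReal_le_ofReal
    rw [← hc' i]
    exact FS.s_le_val s F' (F i) hi
  · obtain ⟨i⟩ := ‹Nonempty ι›
    refine le_trans ?_ (hatI_le_hatS s (F i))
    refine le_hatI s _ _ fun F' hF' => ?_
    obtain ⟨j, hj, h1⟩ := hc i F' hF'
    apply ENNReal.ofReal_le_ofReal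
    rw [← h1]
    exact FS.s_mono_r s (F i) F' (F j) hF' hj

end Pool.Agent.GamI
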