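import Pool.Agent.GamI.BN
import Pool.Agent.GamI.BH

/-! # BK: the generic point -/

set_option autoImplicit false
set_option linter.unusedSectionVars false

open scoped TensorProduct
open Module Polynomial

noncomputable section

namespace Pool.Agent.GamI

namespace BKaux

variable {k : Type} [Field k] {E : Type} [Group E]

/-- the grading is multiplicative -/
structure Good (D : GA k E) : Prop where
  mul : ∀ m n a b, a ∈ D.gr m → b ∈ D.gr n → a * b ∈ D.gr (m + n)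
  one : (1 : D.R) ∈ D.gr 0

variable {D : GA k E} [IsDomain D.R]

/-- the inclusion in the fraction field -/
abbrev io (D : GA k E) [IsDomain D.R] : D.R →+* FractionRing D.R := algebraMap D.R (FractionRing D.R)

lemma io_inj : Function.Injective (io D) := IsFractionRing.injective D.R (FractionRing D.R)

lemma io_ne {b : D.R} (hb : b ≠ 0) : io D b ≠ 0 := by
  intro h
  exact hb (io_inj (by rw [h, map_zero]))

/-- the field of fractions of degree zero -/
def KS (hD : Good D) : IntermediateField k (FractionRing D.R) where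
  carrier := {z | ∃ n : ℤ, ∃ a ∈ D.gr n, ∃ b ∈ D.gr n, b ≠ 0 ∧ z = io D a / io D b}
  mul_mem' := by
    rintro z z' ⟨n, a, ha, b, hb, hb0, rfl⟩ ⟨n', a', ha', b', hb', hb0', rfl⟩
    refine ⟨n + n', a * a', hD.mul _ _ _ _ ha ha', b * b', hD.mul _ _ _ _ hb hb',
      mul_ne_zero hb0 hb0', ?_⟩
    rw [map_mul, map_mul, div_mul_div_comm]
  add_mem' := by
    rintro z z' ⟨n, a, ha, b, hb, hb0, rfl⟩ ⟨n', a', ha', b', hb', hb0', rfl⟩
    refine ⟨n + n', a * b' + b * a', (D.gr _).add_mem (hD.mul _ _ _ _ ha hb')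
      (hD.mul _ _ _ _ hb ha'), b * b', hD.mul _ _ _ _ hb hb', mul_ne_zero hb0 hb0', ?_⟩
    rw [map_add, map_mul, map_mul, map_mul, div_add_div _ _ (io_ne hb0) (io_ne hb0')]
  algebraMap_mem' := by
    intro c
    refine ⟨0, algebraMap k D.R c, ?_, 1, hD.one, one_ne_zero, ?_⟩
    · rw [Algebra.algebraMap_eq_smul_one]
      exact (D.gr 0).smul_mem c hD.one
    · rw [map_one, div_one]
      rw [IsScalarTower.algebraMap_apply k D.R (FractionRing D.R)]
  inv_mem' := by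
    rintro z ⟨n, a, ha, b, hb, hb0, rfl⟩
    by_cases h0 : a = 0
    · refine ⟨0, 0, (D.gr 0).zero_mem, 1, hD.one, one_ne_zero, ?_⟩
      rw [h0, map_zero, zero_div, inv_zero, zero_div]
    · exact ⟨n, b, hb, a, ha, h0, by rw [inv_div]⟩

lemma lam_mem (hD : Good D) (e : E) : (D.lam e).toAdd ∈ D.gr 1 := by
  have := D.hlam e 0 1 hD.one
  rwa [mul_one, zero_add] at this

/-- the additive function at the generic point -/
def mu (hD : Good D) (t : D.R) (ht : t ∈ D.gr 1) (ht0 : t ≠ 0) : E →* Multiplicative (KS hD) where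
  toFun e := Multiplicative.ofAdd ⟨io D (D.lam e).toAdd / io D t, 1, _, lam_mem hD e, t, ht, ht0, rfl⟩
  map_one' := by
    rw [← ofAdd_zero]
    congr 1
    apply Subtype.ext
    simp
  map_mul' e e' := by
    rw [← ofAdd_add]
    congr 1
    apply Subtype.ext
    change io D (D.lam (e * e')).toAdd / io D t =
      io D (D.lam e).toAdd / io D t + io D (D.lam e').toAdd / io D t
    rw [map_mul, toAdd_mul, map_add, add_div]

lemma mu_val (hD : Good D) (t : D.R) (ht : t ∈ D.gr 1) (ht0 : t ≠ 0) (e : E) :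
    ((mu hD t ht ht0 e).toAdd : FractionRing D.R) = io D (D.lam e).toAdd / io D t := rfl

lemma pow_mem (hD : Good D) (t : D.R) (ht : t ∈ D.gr 1) (j : ℕ) : t ^ j ∈ D.gr j := by
  induction j with
  | zero => simpa using hD.one
  | succ j ih =>
    rw [pow_succ]
    push_cast
    exact hD.mul _ _ _ _ ih ht

/-- the coefficients -/
def cf (hD : Good D) (t : D.R) (ht : t ∈ D.gr 1) (q : ℕ) (d : ℤ) (b : D.R) (hb : b ∈ D.gr d)
    (hb0 : b ≠ 0) (f : D.XS q d) (j : ℕ) : KS hD :=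
  ⟨io D (f.1.coeff j * t ^ j) / io D b, d, _, by
    have := hD.mul _ _ _ _ (f.2.2 j) (pow_mem hD t ht j)
    rwa [sub_add_cancel] at this, b, hb, hb0, rfl⟩

/-- the polynomial `f(tT)/b` -/
def ep (hD : Good D) (t : D.R) (ht : t ∈ D.gr 1) (q : ℕ) (d : ℤ) (b : D.R) (hb : b ∈ D.gr d)
    (hb0 : b ≠ 0) (f : D.XS q d) : (KS hD)[X] :=
  ∑ j ∈ Finset.range q, monomial j (cf hD t ht q d b hb hb0 f j)

lemma ep_coeff (hD : Good D) (t : D.R) (ht : t ∈ D.gr 1) (q : ℕ) (d : ℤ) (b : D.R)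
    (hb : b ∈ D.gr d) (hb0 : b ≠ 0) (f : D.XS q d) (j : ℕ) :
    ((ep hD t ht q d b hb hb0 f).coeff j : FractionRing D.R) =
      io D (f.1.coeff j * t ^ j) / io D b := by
  rw [ep, finsetSum_coeff]
  simp only [coeff_monomial]
  rw [Finset.sum_ite_eq']
  split_ifs with h
  · rfl
  · rw [f.2.1 j (by simpa using h)]
    simp

lemma ep_mem (hD : Good D) (t : D.R) (ht : t ∈ D.gr 1) (q : ℕ) (d : ℤ) (b : D.R)
    (hb : b ∈ D.gr d) (hb0 : b ≠ 0) (f : D.XS q d) :
    ep hD t ht q d b hb hb0 f ∈ degreeLT (KS hD) q := by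
  refine Submodule.sum_mem _ fun j hj => ?_
  rw [mem_degreeLT]
  refine lt_of_le_of_lt (degree_monomial_le _ _) ?_
  exact_mod_cast Finset.mem_range.1 hj

/-- the inclusion of `K` in the fraction field -/
abbrev nu (hD : Good D) : KS hD →+* FractionRing D.R := algebraMap (KS hD) (FractionRing D.R)

lemma nu_inj (hD : Good D) : Function.Injective (nu hD) := (nu hD).injective

lemma ep_map (hD : Good D) (t : D.R) (ht : t ∈ D.gr 1) (q : ℕ) (d : ℤ) (b : D.R)
    (hb : b ∈ D.gr d) (hb0 : b ≠ 0) (f : D.XS q d) :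
    (ep hD t ht q d b hb hb0 f).map (nu hD) =
      C (io D b)⁻¹ * ((f.1.map (io D)).comp (C (io D t) * X)) := by
  apply Polynomial.ext
  intro j
  rw [coeff_map, coeff_C_mul, comp_C_mul_X_coeff, coeff_map]
  refine (ep_coeff hD t ht q d b hb hb0 f j).trans ?_
  rw [map_mul, map_pow]
  field_simp


lemma taylor_map_nu (hD : Good D) (a : KS hD) (f : (KS hD)[X]) :
    (taylor a f).map (nu hD) = taylor (nu hD a) (f.map (nu hD)) := by
  rw [taylor_apply, taylor_apply, Polynomial.map_comp]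
  simp

lemma ep_taylor (hD : Good D) (t : D.R) (ht : t ∈ D.gr 1) (ht0 : t ≠ 0) (q : ℕ) (d : ℤ) (b : D.R)
    (hb : b ∈ D.gr d) (hb0 : b ≠ 0) (e : E) (f : D.XS q d) :
    ep hD t ht q d b hb hb0 ⟨taylor (D.lam e).toAdd f.1, D.XS_taylor q d e f.1 f.2⟩ =
      taylor (mu hD t ht ht0 e).toAdd (ep hD t ht q d b hb hb0 f) := by
  apply Polynomial.map_injective _ (nu_inj hD)
  rw [taylor_map_nu, ep_map, ep_map]
  have h1 : nu hD (mu hD t ht ht0 e).toAdd = io D (D.lam e).toAdd / io D t := rfl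
  rw [h1]
  simp only [taylor_apply, Polynomial.map_comp, mul_comp, C_comp]
  congr 1
  rw [comp_assoc, comp_assoc]
  congr 1
  simp only [Polynomial.map_add, map_X, map_C, add_comp, X_comp, C_comp, mul_comp]
  rw [mul_add, ← C_mul, mul_div_cancel₀ _ (io_ne ht0)]

lemma ep_inj (hD : Good D) (t : D.R) (ht : t ∈ D.gr 1) (ht0 : t ≠ 0) (q : ℕ) (d : ℤ) (b : D.R)
    (hb : b ∈ D.gr d) (hb0 : b ≠ 0) (f g : D.XS q d)
    (h : ep hD t ht q d b hb hb0 f = ep hD t ht q d b hb hb0 g) : f = g := by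
  apply Subtype.ext
  apply Polynomial.ext
  intro j
  have h1 := congrArg (fun P => ((P.coeff j : KS hD) : FractionRing D.R)) h
  simp only [ep_coeff] at h1
  have h2 := (div_left_inj' (io_ne hb0)).1 h1
  have h3 := io_inj h2
  exact mul_right_cancel₀ (pow_ne_zero j ht0) h3

lemma ep_add (hD : Good D) (t : D.R) (ht : t ∈ D.gr 1) (q : ℕ) (d : ℤ) (b : D.R)
    (hb : b ∈ D.gr d) (hb0 : b ≠ 0) (f g : D.XS q d) :
    ep hD t ht q d b hb hb0 (f + g) = ep hD t ht q d b hb hb0 f + ep hD t ht q d b hb hb0 g := by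
  apply Polynomial.ext
  intro j
  apply Subtype.ext
  rw [coeff_add]
  change _ = ((ep hD t ht q d b hb hb0 f).coeff j : FractionRing D.R) +
    ((ep hD t ht q d b hb hb0 g).coeff j : FractionRing D.R)
  rw [ep_coeff, ep_coeff, ep_coeff, ← add_div, ← map_add, ← add_mul]
  rfl

lemma ep_smul (hD : Good D) (t : D.R) (ht : t ∈ D.gr 1) (q : ℕ) (d : ℤ) (b : D.R)
    (hb : b ∈ D.gr d) (hb0 : b ≠ 0) (c : k) (f : D.XS q d) :
    ep hD t ht q d b hb hb0 (c • f) = algebraMap k (KS hD) c • ep hD t ht q d b hb hb0 f := by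
  apply Polynomial.ext
  intro j
  apply Subtype.ext
  rw [coeff_smul]
  change _ = algebraMap k (FractionRing D.R) c *
    ((ep hD t ht q d b hb hb0 f).coeff j : FractionRing D.R)
  rw [ep_coeff, ep_coeff, IsScalarTower.algebraMap_apply k D.R (FractionRing D.R),
    ← mul_div_assoc, ← map_mul, ← mul_assoc]
  have : ((c • f : D.XS q d).1 : D.R[X]).coeff j = algebraMap k D.R c * f.1.coeff j := by
    rw [Submodule.coe_smul, coeff_smul, Algebra.smul_def]
  rw [← this]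

/-- cofinality for one monomial -/
lemma ep_monomial (hD : Good D) (t : D.R) (ht : t ∈ D.gr 1) (ht0 : t ≠ 0) (q : ℕ) (z : KS hD)
    (j : ℕ) (hj : j < q) (d₁ : ℤ) :
    ∃ (d : ℤ) (b : D.R) (hb : b ∈ D.gr d) (hb0 : b ≠ 0) (f : D.XS q d), d₁ ≤ d ∧
      ep hD t ht q d b hb hb0 f = monomial j z := by
  obtain ⟨n, a, ha, b, hb, hb0, hz⟩ := z.2
  let N : ℕ := j + (d₁ - n).toNat
  have hN : d₁ ≤ n + N := by
    have := Int.self_le_toNat (d₁ - n)
    push_cast [N]
    omega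
  have hf : monomial j (a * t ^ (N - j)) ∈ D.XS q (n + N) := by
    refine ⟨fun l hl => ?_, fun l => ?_⟩
    · rw [coeff_monomial, if_neg (by omega)]
    · rw [coeff_monomial]
      split_ifs with h
      · subst h
        have := hD.mul _ _ _ _ ha (pow_mem hD t ht (N - j))
        have e1 : n + ((N - j : ℕ) : ℤ) = n + N - j := by
          have : j ≤ N := Nat.le_add_right _ _
          push_cast [Nat.cast_sub this]
          ring
        rwa [e1] at this
      · exact (D.gr _).zero_mem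
  refine ⟨n + N, b * t ^ N, hD.mul _ _ _ _ hb (pow_mem hD t ht N),
    mul_ne_zero hb0 (pow_ne_zero _ ht0), ⟨_, hf⟩, hN, ?_⟩
  apply Polynomial.ext
  intro l
  apply Subtype.ext
  rw [ep_coeff, coeff_monomial, coeff_monomial]
  split_ifs with h
  · subst h
    rw [hz, mul_assoc, ← pow_add, Nat.sub_add_cancel (Nat.le_add_right _ _), map_mul, map_mul,
      mul_div_mul_right _ _ (io_ne (pow_ne_zero _ ht0))]
  · rw [zero_mul, map_zero, zero_div]
    rfl

/-- multiplication by a homogeneous element -/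
def mulX (hD : Good D) (q : ℕ) (d d' : ℤ) (b : D.R) (hb : b ∈ D.gr d') :
    D.XS q d →ₗ[k] D.XS q (d + d') where
  toFun f := ⟨C b * f.1, fun j hj => by rw [coeff_C_mul, f.2.1 j hj, mul_zero], fun j => by
    rw [coeff_C_mul]
    have := hD.mul _ _ _ _ hb (f.2.2 j)
    have e1 : d' + (d - j) = d + d' - j := by ring
    rwa [e1] at this⟩
  map_add' f g := by
    apply Subtype.ext
    change C b * (f.1 + g.1) = C b * f.1 + C b * g.1
    ring
  map_smul' c f := by
    apply Subtype.ext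
    change C b * (c • f.1) = c • (C b * f.1)
    rw [mul_smul_comm]

lemma ep_mulX (hD : Good D) (t : D.R) (ht : t ∈ D.gr 1) (q : ℕ) (d d' : ℤ) (b b' : D.R)
    (hb : b ∈ D.gr d) (hb0 : b ≠ 0) (hb' : b' ∈ D.gr d') (hb0' : b' ≠ 0)
    (f : D.XS q d) (hm : b * b' ∈ D.gr (d + d')) :
    ep hD t ht q (d + d') (b * b') hm (mul_ne_zero hb0 hb0') (mulX hD q d d' b' hb' f) =
      ep hD t ht q d b hb hb0 f := by
  apply Polynomial.ext
  intro j
  apply Subtype.ext
  rw [ep_coeff, ep_coeff]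
  have : (mulX hD q d d' b' hb' f).1.coeff j = b' * f.1.coeff j := coeff_C_mul _
  rw [this, map_mul, map_mul, map_mul, map_mul]
  have h1 := io_ne hb0
  have h2 := io_ne hb0'
  field_simp

lemma mulX_isH (hD : Good D) (q : ℕ) (d d' : ℤ) (b : D.R) (hb : b ∈ D.gr d') :
    IsH (D.XM q d) (D.XM q (d + d')) (mulX hD q d d' b hb) := by
  intro e f
  apply Subtype.ext
  change C b * taylor (D.lam e).toAdd f.1 = taylor (D.lam e).toAdd (C b * f.1)
  rw [taylor_mul, taylor_C]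

section Main

variable (hD : Good D) (t : D.R) (ht : t ∈ D.gr 1) (ht0 : t ≠ 0) (q : ℕ)

/-- the module at the generic point -/
abbrev AM : Mo (KS hD) E := Pm q (mu hD t ht ht0)

/-- the linear map `f ↦ f(tT)/b` -/
def eL (d : ℤ) (b : D.R) (hb : b ∈ D.gr d) (hb0 : b ≠ 0) :
    letI := rsMod k (AM hD t ht ht0 q)
    (D.XM q d).V →ₗ[k] (AM hD t ht ht0 q).V :=
  let _ := rsMod k (AM hD t ht ht0 q)
  { toFun := fun f => ⟨ep hD t ht q d b hb hb0 f, ep_mem hD t ht q d b hb hb0 f⟩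
    map_add' := fun f g => Subtype.ext (ep_add hD t ht q d b hb hb0 f g)
    map_smul' := fun c f => Subtype.ext (ep_smul hD t ht q d b hb hb0 c f) }

/-- the finite-dimensional invariant subspace `F_b` -/
def Fb [Finite E] (d : ℤ) (b : D.R) (hb : b ∈ D.gr d) (hb0 : b ≠ 0) :
    letI := rsMod k (AM hD t ht ht0 q)
    FS (rsRep k (AM hD t ht ht0 q)) :=
  let _ := rsMod k (AM hD t ht ht0 q)
  { F := LinearMap.range (eL hD t ht ht0 q d b hb hb0)
    fin := inferInstance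
    inv := by
      intro e
      rintro _ ⟨f, rfl⟩
      refine ⟨(D.XM q d).ρ e f, ?_⟩
      apply Subtype.ext
      exact ep_taylor hD t ht ht0 q d b hb hb0 e f }

lemma mem_Fb [Finite E] (d : ℤ) (b : D.R) (hb : b ∈ D.gr d) (hb0 : b ≠ 0)
    (z : (AM hD t ht ht0 q).V) :
    letI := rsMod k (AM hD t ht ht0 q)
    z ∈ (Fb hD t ht ht0 q d b hb hb0).F ↔ ∃ f : D.XS q d, ep hD t ht q d b hb hb0 f = z.1 := by
  let _ := rsMod k (AM hD t ht ht0 q)
  constructor
  · rintro ⟨f, hf⟩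
    exact ⟨f, congrArg Subtype.val hf⟩
  · rintro ⟨f, hf⟩
    exact ⟨f, Subtype.ext hf⟩

lemma Fb_le [Finite E] (d d' : ℤ) (b b' : D.R) (hb : b ∈ D.gr d) (hb0 : b ≠ 0)
    (hb' : b' ∈ D.gr d') (hb0' : b' ≠ 0) (hm : b * b' ∈ D.gr (d + d')) :
    letI := rsMod k (AM hD t ht ht0 q)
    (Fb hD t ht ht0 q d b hb hb0).F ≤
      (Fb hD t ht ht0 q (d + d') (b * b') hm (mul_ne_zero hb0 hb0')).F := by
  let _ := rsMod k (AM hD t ht ht0 q)
  intro z hz
  rw [mem_Fb] at hz ⊢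
  obtain ⟨f, hf⟩ := hz
  exact ⟨mulX hD q d d' b' hb' f, (ep_mulX hD t ht q d d' b b' hb hb0 hb' hb0' f hm).trans hf⟩

/-- cofinality -/
lemma cofinal [Finite E] (d₁ : ℤ) (S : Finset (AM hD t ht ht0 q).V) :
    letI := rsMod k (AM hD t ht ht0 q)
    ∃ (d : ℤ) (b : D.R) (hb : b ∈ D.gr d) (hb0 : b ≠ 0), d₁ ≤ d ∧
      ∀ z ∈ S, z ∈ (Fb hD t ht ht0 q d b hb hb0).F := by
  classical
  let _ := rsMod k (AM hD t ht ht0 q)
  -- monotonicity in both directions
  have hdir : ∀ (d d' : ℤ) (b b' : D.R) (hb : b ∈ D.gr d) (hb0 : b ≠ 0) (hb' : b' ∈ D.gr d')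
      (hb0' : b' ≠ 0), d₁ ≤ d → d₁ ≤ d' → ∃ (d'' : ℤ) (b'' : D.R) (hb'' : b'' ∈ D.gr d'')
      (hb0'' : b'' ≠ 0), d₁ ≤ d'' ∧ (Fb hD t ht ht0 q d b hb hb0).F ≤
        (Fb hD t ht ht0 q d'' b'' hb'' hb0'').F ∧ (Fb hD t ht ht0 q d' b' hb' hb0').F ≤
        (Fb hD t ht ht0 q d'' b'' hb'' hb0'').F := by
    intro d d' b b' hb hb0 hb' hb0' hd hd'
    -- multiply by a power of `t` to make the degree large
    have hN : d₁ ≤ d + d' + ((d₁ - d - d').toNat : ℤ) := by
      have := Int.self_le_toNat (d₁ - d - d')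
      omega
    have htN := pow_mem hD t ht (d₁ - d - d').toNat
    have htN0 : t ^ (d₁ - d - d').toNat ≠ 0 := pow_ne_zero _ ht0
    have hm := hD.mul _ _ _ _ hb hb'
    have hm' : b' * b ∈ D.gr (d' + d) := hD.mul _ _ _ _ hb' hb
    have hmm := hD.mul _ _ _ _ hm htN
    refine ⟨_, _, hmm, mul_ne_zero (mul_ne_zero hb0 hb0') htN0, hN, ?_, ?_⟩
    · exact (Fb_le hD t ht ht0 q d d' b b' hb hb0 hb' hb0' hm).trans
        (Fb_le hD t ht ht0 q _ _ _ _ hm _ htN htN0 hmm)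
    · have h1 := Fb_le hD t ht ht0 q d' d b' b hb' hb0' hb hb0 hm'
      have h2 : (Fb hD t ht ht0 q (d' + d) (b' * b) hm' (mul_ne_zero hb0' hb0)).F =
          (Fb hD t ht ht0 q (d + d') (b * b') hm (mul_ne_zero hb0 hb0')).F := by
        congr 2
        · ring
        · ring
      rw [h2] at h1
      exact h1.trans (Fb_le hD t ht ht0 q _ _ _ _ hm _ htN htN0 hmm)
  have hfin : ∀ T : Finset (AM hD t ht ht0 q).V,
      (∀ z ∈ T, ∃ (d : ℤ) (b : D.R) (hb : b ∈ D.gr d) (hb0 : b ≠ 0), d₁ ≤ d ∧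
        z ∈ (Fb hD t ht ht0 q d b hb hb0).F) →
      ∃ (d : ℤ) (b : D.R) (hb : b ∈ D.gr d) (hb0 : b ≠ 0), d₁ ≤ d ∧
        ∀ z ∈ T, z ∈ (Fb hD t ht ht0 q d b hb hb0).F := by
    intro T
    induction T using Finset.induction_on with
    | empty =>
      intro _
      exact ⟨_, _, pow_mem hD t ht d₁.toNat, pow_ne_zero _ ht0, Int.self_le_toNat _,
        fun z hz => absurd hz (Finset.notMem_empty z)⟩
    | insert z T hz ih =>
      intro h
      obtain ⟨d, b, hb, hb0, hd, h1⟩ := ih fun y hy => h y (Finset.mem_insert_of_mem hy)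
      obtain ⟨d', b', hb', hb0', hd', h1'⟩ := h z (Finset.mem_insert_self z T)
      obtain ⟨d'', b'', hb'', hb0'', hd'', h2, h3⟩ := hdir d d' b b' hb hb0 hb' hb0' hd hd'
      refine ⟨d'', b'', hb'', hb0'', hd'', fun y hy => ?_⟩
      rcases Finset.mem_insert.1 hy with rfl | hy
      · exact h3 h1'
      · exact h2 (h1 y hy)
  apply hfin
  intro z _
  have hz := z.2
  let mz : Fin q → (AM hD t ht ht0 q).V := fun j => ⟨monomial j ((z.1 : (KS hD)[X]).coeff j), by
    rw [mem_degreeLT]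
    refine lt_of_le_of_lt (degree_monomial_le _ _) ?_
    exact_mod_cast j.2⟩
  obtain ⟨d, b, hb, hb0, hd, h1⟩ := hfin (Finset.univ.image mz) (by
    intro y hy
    obtain ⟨j, -, rfl⟩ := Finset.mem_image.1 hy
    obtain ⟨d, b, hb, hb0, f, hd, hf⟩ := ep_monomial hD t ht ht0 q
      ((z.1 : (KS hD)[X]).coeff j) j j.2 d₁
    exact ⟨d, b, hb, hb0, hd, (mem_Fb hD t ht ht0 q d b hb hb0 _).2 ⟨f, hf⟩⟩)
  refine ⟨d, b, hb, hb0, hd, ?_⟩
  have h2 : z = ∑ j : Fin q, mz j := by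
    apply Subtype.ext
    have h3 : ((∑ j : Fin q, mz j : (AM hD t ht ht0 q).V).1 : (KS hD)[X]) =
        ∑ j : Fin q, monomial (j : ℕ) ((z.1 : (KS hD)[X]).coeff j) := by
      erw [AddSubmonoidClass.coe_finsetSum]
    rw [h3]
    apply Polynomial.ext
    intro l
    rw [finsetSum_coeff]
    by_cases hl : l < q
    · rw [Finset.sum_eq_single (⟨l, hl⟩ : Fin q)]
      · rw [coeff_monomial, if_pos rfl]
      · intro j _ hj
        rw [coeff_monomial, if_neg]
        intro h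
        exact hj (Fin.ext h)
      · intro h
        exact absurd (Finset.mem_univ _) h
    · rw [Finset.sum_eq_zero]
      · exact coeff_eq_zero_of_degree_lt (lt_of_lt_of_le (mem_degreeLT.1 hz)
          (by exact_mod_cast not_lt.1 hl))
      · intro j _
        rw [coeff_monomial, if_neg]
        intro h
        exact hl (h ▸ j.2)
  rw [h2]
  exact Submodule.sum_mem _ fun j _ => h1 _ (Finset.mem_image_of_mem _ (Finset.mem_univ j))

/-- the isomorphism of `X_d` with `F_b` -/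
lemma exists_iso [Finite E] (d : ℤ) (b : D.R) (hb : b ∈ D.gr d) (hb0 : b ≠ 0) :
    letI := rsMod k (AM hD t ht ht0 q)
    ∃ e : (D.XM q d).V ≃ₗ[k] (Fb hD t ht ht0 q d b hb hb0).mo.V,
      IsH (D.XM q d) (Fb hD t ht ht0 q d b hb hb0).mo e.toLinearMap ∧
      ∀ f : (D.XM q d).V, (Fb hD t ht ht0 q d b hb hb0).F.subtype (e f) =
        eL hD t ht ht0 q d b hb hb0 f := by
  let _ := rsMod k (AM hD t ht ht0 q)
  have hinj : Function.Injective (eL hD t ht ht0 q d b hb hb0) := by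
    intro f g h
    exact ep_inj hD t ht ht0 q d b hb hb0 f g (congrArg Subtype.val h)
  refine ⟨LinearEquiv.ofInjective _ hinj, ?_, fun f => rfl⟩
  intro e f
  apply Subtype.ext
  apply Subtype.ext
  exact ep_taylor hD t ht ht0 q d b hb hb0 e f

end Main

variable {p : ℕ} [Fact p.Prime] [CharP k p] {r : ℕ} (x : Fin r → (E →* Multiplicative (ZMod p)))

lemma gr_pos (𝔭 : Ideal (MvPolynomial (Fin r) k)) (d : ℤ) (h : 0 ≤ d) (b : (gq x 𝔭).R) :
    b ∈ (gq x 𝔭).gr d ↔ ∃ f : MvPolynomial (Fin r) k, f.IsHomogeneous d.toNat ∧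
      gqmk x 𝔭 f = b := by
  have h1 : (gq x 𝔭).gr d = Submodule.map (Ideal.Quotient.mkₐ k 𝔭).toLinearMap
    (MvPolynomial.homogeneousSubmodule (Fin r) k d.toNat) := if_pos h
  rw [h1]
  exact Iff.rfl

lemma gr_neg (𝔭 : Ideal (MvPolynomial (Fin r) k)) (d : ℤ) (h : ¬ 0 ≤ d) (b : (gq x 𝔭).R) :
    b ∈ (gq x 𝔭).gr d ↔ b = 0 := by
  have h1 : (gq x 𝔭).gr d = ⊥ := if_neg h
  rw [h1]
  exact Iff.rfl

lemma good_gq (𝔭 : Ideal (MvPolynomial (Fin r) k)) : Good (gq x 𝔭) := by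
  constructor
  · intro m n a b ha hb
    by_cases h1 : 0 ≤ m
    · by_cases h2 : 0 ≤ n
      · rw [gr_pos x 𝔭 m h1] at ha
        rw [gr_pos x 𝔭 n h2] at hb
        rw [gr_pos x 𝔭 (m + n) (by omega)]
        obtain ⟨f, hf, rfl⟩ := ha
        obtain ⟨g, hg, rfl⟩ := hb
        refine ⟨f * g, ?_, map_mul (Ideal.Quotient.mk 𝔭) f g⟩
        have h3 : (m + n).toNat = m.toNat + n.toNat := by omega
        rw [h3]
        exact hf.mul hg
      · rw [gr_neg x 𝔭 n h2] at hb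
        rw [hb, mul_zero]
        exact Submodule.zero_mem _
    · rw [gr_neg x 𝔭 m h1] at ha
      rw [ha, zero_mul]
      exact Submodule.zero_mem _
  · rw [gr_pos x 𝔭 0 le_rfl]
    exact ⟨1, MvPolynomial.isHomogeneous_one (Fin r) k, map_one (Ideal.Quotient.mk 𝔭)⟩

lemma exists_rep (𝔭 : Ideal (MvPolynomial (Fin r) k)) (d : ℤ) (b : (gq x 𝔭).R)
    (hb : b ∈ (gq x 𝔭).gr d) (hb0 : b ≠ 0) :
    ∃ (e : ℕ) (f : MvPolynomial (Fin r) k), (e : ℤ) = d ∧ f.IsHomogeneous e ∧ f ∉ 𝔭 ∧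
      gqmk x 𝔭 f = b := by
  by_cases h : 0 ≤ d
  · rw [gr_pos x 𝔭 d h] at hb
    obtain ⟨f, hf, rfl⟩ := hb
    refine ⟨d.toNat, f, by omega, hf, ?_, rfl⟩
    intro hf'
    exact hb0 (Ideal.Quotient.eq_zero_iff_mem.2 hf')
  · exact absurd ((gr_neg x 𝔭 d h b).1 hb) hb0

end BKaux

open BKaux

variable {p : ℕ} [Fact p.Prime] {k : Type} [Field k] [CharP k p] {E : Type} [Group E] [Finite E]

theorem exists_generic (s : RankFn k E) {r : ℕ}
    (x : Fin r → (E →* Multiplicative (ZMod p))) (q : ℕ)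
    (hx : ∀ i, ∃ e : E, ∀ j, (x j e).toAdd = if j = i then 1 else 0)
    (𝔭 : Ideal (MvPolynomial (Fin r) k)) (c : ℝ) (d₁ : ℤ) (h : PrimeData s x q 𝔭 c d₁) :
    ∃ (K : Type) (_ : Field K) (_ : Algebra k K) (μ : E →* Multiplicative K),
      (∃ e, μ e ≠ 1) ∧ hatK k s (Pm q μ) = ENNReal.ofReal c := by
  obtain ⟨hprime, hhom, ⟨i, hi⟩, hc, hval, hmul⟩ := h
  have : IsDomain (gq (k := k) x 𝔭).R := Ideal.Quotient.isDomain 𝔭
  have hD := good_gq (k := k) x 𝔭
  let t : (gq (k := k) x 𝔭).R := gqmk x 𝔭 (MvPolynomial.X i)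
  have ht : t ∈ (gq (k := k) x 𝔭).gr 1 := by
    rw [gr_pos x 𝔭 1 (by norm_num)]
    exact ⟨MvPolynomial.X i, MvPolynomial.isHomogeneous_X k i, rfl⟩
  have ht0 : t ≠ 0 := by
    intro h0
    exact hi (Ideal.Quotient.eq_zero_iff_mem.1 h0)
  refine ⟨KS hD, inferInstance, inferInstance, mu hD t ht ht0, ?_, ?_⟩
  · obtain ⟨e, he⟩ := hx i
    refine ⟨e, ?_⟩
    intro h1
    have h2 := congrArg (fun z : Multiplicative (KS hD) => ((z.toAdd : KS hD) :
      FractionRing (gq (k := k) x 𝔭).R)) h1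
    change io _ ((gq (k := k) x 𝔭).lam e).toAdd / io _ t = 0 at h2
    have h3 : ((gq (k := k) x 𝔭).lam e).toAdd = t := by
      change Ideal.Quotient.mk 𝔭 (linF x e) = Ideal.Quotient.mk 𝔭 (MvPolynomial.X i)
      congr 1
      rw [linF, Finset.sum_eq_single i]
      · rw [he i, if_pos rfl, map_one, one_smul]
      · intro j _ hj
        rw [he j, if_neg hj, map_zero, zero_smul]
      · intro h
        exact absurd (Finset.mem_univ _) h
    rw [h3, div_self (io_ne ht0)] at h2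
    exact one_ne_zero h2
  · let A := AM hD t ht ht0 q
    let _ : Module k A.V := rsMod k A
    change hatS s (rsRep k A) = _
    let ι : Type := {y : ℤ × (gq (k := k) x 𝔭).R // y.2 ∈ (gq (k := k) x 𝔭).gr y.1 ∧ y.2 ≠ 0 ∧
      d₁ ≤ y.1}
    let F : ι → FS (rsRep k A) := fun y => Fb hD t ht ht0 q y.1.1 y.1.2 y.2.1 y.2.2.1
    have hcof : ∀ F' : FS (rsRep k A), ∃ y : ι, F'.F ≤ (F y).F := by
      intro F'
      have hfg : F'.F.FG := Module.Finite.iff_fg.1 F'.fin
      obtain ⟨S, hS⟩ := hfg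
      obtain ⟨d, b, hb, hb0, hd, h1⟩ := cofinal hD t ht ht0 q d₁ S
      refine ⟨⟨(d, b), hb, hb0, hd⟩, ?_⟩
      rw [← hS, Submodule.span_le]
      exact h1
    have hne : Nonempty ι := by
      obtain ⟨d, b, hb, hb0, hd, -⟩ := cofinal hD t ht ht0 q d₁ ∅
      exact ⟨⟨(d, b), hb, hb0, hd⟩⟩
    refine hatS_eval s (rsRep k A) F hcof c ?_ ?_
    · intro y F' hF'
      obtain ⟨⟨⟨d', b'⟩, hb', hb0', hd'⟩, hy'⟩ := hcof F'
      obtain ⟨⟨d, b⟩, hb, hb0, hd⟩ := y
      simp only at hb hb0 hd hb' hb0' hd'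
      have hm := hD.mul _ _ _ _ hb hb'
      have hm' := hD.mul _ _ _ _ hb' hb
      obtain ⟨e, f, he, hf, hfp, hfb⟩ := exists_rep x 𝔭 d' b' hb' hb0'
      have hd'0 : 0 ≤ d' := by omega
      have hle : (F ⟨(d', b'), hb', hb0', hd'⟩).F ≤
          (Fb hD t ht ht0 q (d + d') (b * b') hm (mul_ne_zero hb0 hb0')).F := by
        have h1 := Fb_le hD t ht ht0 q d' d b' b hb' hb0' hb hb0 hm'
        have h2 : (Fb hD t ht ht0 q (d' + d) (b' * b) hm' (mul_ne_zero hb0' hb0)).F =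
            (Fb hD t ht ht0 q (d + d') (b * b') hm (mul_ne_zero hb0 hb0')).F := by
          congr 2
          · ring
          · ring
        rw [h2] at h1
        exact h1
      refine ⟨⟨(d + d', b * b'), hm, mul_ne_zero hb0 hb0', by simp only; omega⟩, hy'.trans hle, ?_⟩
      subst he
      obtain ⟨e1, he1, he1'⟩ := exists_iso hD t ht ht0 q d b hb hb0
      obtain ⟨e2, he2, he2'⟩ := exists_iso hD t ht ht0 q (d + (e : ℤ)) (b * b') hm
        (mul_ne_zero hb0 hb0')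
      let φ : ((gq (k := k) x 𝔭).XM q d).V →ₗ[k] ((gq (k := k) x 𝔭).XM q (d + (e : ℤ))).V :=
        mulX hD q d (e : ℤ) b' hb'
      have hφ : IsH ((gq (k := k) x 𝔭).XM q d) ((gq (k := k) x 𝔭).XM q (d + (e : ℤ))) φ :=
        mulX_isH hD q d (e : ℤ) b' hb'
      have hφc : s.s _ _ φ = c := hmul e f hf hfp d hd φ fun v => by
        rw [hfb]
        rfl
      have hincl : ∀ (h' : (Fb hD t ht ht0 q d b hb hb0).F ≤
          (Fb hD t ht ht0 q (d + (e : ℤ)) (b * b') hm (mul_ne_zero hb0 hb0')).F),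
          s.s (Fb hD t ht ht0 q d b hb hb0).mo
            (Fb hD t ht ht0 q (d + (e : ℤ)) (b * b') hm (mul_ne_zero hb0 hb0')).mo
            (Submodule.inclusion h') = c := by
        intro h'
        let I : (Fb hD t ht ht0 q d b hb hb0).mo.V →ₗ[k]
          (Fb hD t ht ht0 q (d + (e : ℤ)) (b * b') hm (mul_ne_zero hb0 hb0')).mo.V :=
          Submodule.inclusion h'
        have hI : IsH (Fb hD t ht ht0 q d b hb hb0).mo
            (Fb hD t ht ht0 q (d + (e : ℤ)) (b * b') hm (mul_ne_zero hb0 hb0')).mo I :=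
          fun g v => rfl
        have hcomp : I ∘ₗ e1.toLinearMap = e2.toLinearMap ∘ₗ φ := by
          refine LinearMap.ext fun v => ?_
          apply Submodule.subtype_injective
            (Fb hD t ht ht0 q (d + (e : ℤ)) (b * b') hm (mul_ne_zero hb0 hb0')).F
          refine (he1' v).trans ?_
          refine Eq.trans ?_ (he2' (φ v)).symm
          apply Subtype.ext
          exact (ep_mulX hD t ht q d (e : ℤ) b b' hb hb0 hb' hb0' v hm).symm
        have h1 : s.s _ _ (I ∘ₗ e1.toLinearMap) = s.s _ _ I := s.comp_iso_r hI e1 he1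
        have h2 : s.s _ _ (e2.toLinearMap ∘ₗ φ) = s.s _ _ φ := s.comp_iso_l hφ e2 he2
        change s.s _ _ I = c
        rw [← h1, hcomp, h2, hφc]
      exact hincl _
    · rintro ⟨⟨d, b⟩, hb, hb0, hd⟩
      obtain ⟨e1, he1, -⟩ := exists_iso hD t ht ht0 q d b hb hb0
      rw [← hval d hd]
      exact (s.val_iso ⟨e1, he1⟩).symm

end Pool.Agent.GamI
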