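import Pool.Agent.GamI.BS
import Pool.Agent.GamI.BG
import Pool.Agent.GamI.BK
import Pool.Agent.GamI.BI

/-! # BA: assembly of the localisation part -/

set_option autoImplicit false

open scoped TensorProduct
open Module Polynomial

noncomputable section

namespace Pool.Agent.GamI

theorem BA_basis {p : ℕ} [Fact p.Prime] (V : Type) [AddCommGroup V] [Module (ZMod p) V]
    [Finite V] (m : ℕ) (hc : Nat.card V = p ^ (m + 1)) :
    Nonempty (Basis (Fin (m + 1)) (ZMod p) V) := by
  have hfin : Module.Finite (ZMod p) V := Module.Finite.of_finite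
  have hcard : Nat.card V = p ^ finrank (ZMod p) V := by
    rw [Module.natCard_eq_pow_finrank (K := ZMod p) (V := V), Nat.card_zmod]
  have hfr : finrank (ZMod p) V = m + 1 := by
    rw [hcard] at hc
    exact Nat.pow_right_injective (Fact.out : p.Prime).two_le hc
  exact ⟨Module.finBasisOfFinrankEq _ _ hfr⟩

theorem BA_dual {p : ℕ} [Fact p.Prime] (V : Type) [AddCommGroup V] [Module (ZMod p) V]
    [Finite V] (m : ℕ) (hc : Nat.card V = p ^ (m + 1)) :
    ∃ x : Fin (m + 1) → (V →+ ZMod p), ∀ i, ∃ e : V, ∀ j, x j e = if j = i then 1 else 0 := by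
  obtain ⟨b⟩ := BA_basis (p := p) V m hc
  refine ⟨fun i => (b.coord i).toAddMonoidHom, fun i => ⟨b i, fun j => ?_⟩⟩
  change b.repr (b i) j = _
  rw [b.repr_self, Finsupp.single_apply]
  by_cases h : j = i
  · rw [if_pos h, if_pos h.symm]
  · rw [if_neg h, if_neg (fun h' => h h'.symm)]

/-- coordinates on an elementary abelian group -/
theorem exists_coord {p : ℕ} [Fact p.Prime] (E : Type) [CommGroup E] [Finite E]
    (hE : ∀ e : E, e ^ p = 1) (m : ℕ) (hc : Nat.card E = p ^ (m + 1)) :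
    ∃ x : Fin (m + 1) → (E →* Multiplicative (ZMod p)),
      ∀ i, ∃ e : E, ∀ j, (x j e).toAdd = if j = i then 1 else 0 := by
  have h0 : ∀ x : Additive E, p • x = 0 := by
    intro x
    have h1 := hE x.toMul
    apply Additive.toMul.injective
    rw [toMul_nsmul, h1]
    rfl
  have hfinA : Finite (Additive E) := inferInstanceAs (Finite E)
  obtain ⟨x, hx⟩ := @BA_dual p _ (Additive E) _ (AddCommGroup.zmodModule h0) hfinA m hc
  refine ⟨fun i =>
    { toFun := fun e => Multiplicative.ofAdd (x i (Additive.ofMul e))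
      map_one' := by
        rw [ofMul_one, map_zero]
        rfl
      map_mul' := fun e e' => by
        rw [ofMul_mul, map_add]
        rfl }, fun i => ?_⟩
  obtain ⟨e, he⟩ := hx i
  exact ⟨e.toMul, he⟩

theorem localise {p : ℕ} [Fact p.Prime] {k : Type} [Field k] [CharP k p] {E : Type}
    [CommGroup E] [Finite E] (hE : ∀ e : E, e ^ p = 1) (m : ℕ) (hc : Nat.card E = p ^ (m + 1))
    (M : Mo k E) (γ : ℝ) (hγ : 0 ≤ γ) (s : RankFn k E) (h0 : 0 < s.val (triv k E))
    (hn : s.NullPerm) (he : s.Eig M γ) :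
    ∃ (K : Type) (_ : Field K) (_ : CharP K p) (_ : Algebra k K) (lam : E →* Multiplicative K)
      (σ : Mo K E → ℝ), Function.Injective lam ∧ IsSigma σ ∧
      (∀ A : Mo K E, σ (A.tens (baseCh k K M)) = γ * σ A) ∧
      0 < σ ((Pm (p ^ m) lam).hom (Pm (p ^ m) lam)) := by
  have hG : IsPGroup p E := IsPGroup.of_card hc
  have hnt : Nontrivial E := by
    rw [← Finite.one_lt_card_iff_nontrivial, hc]
    exact Nat.one_lt_pow (Nat.succ_ne_zero m) (Fact.out : p.Prime).one_lt
  obtain ⟨s', h0', hn', he', hs'⟩ := shift_exists hE M γ s h0 hn he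
  obtain ⟨x, hx⟩ := exists_coord E hE m hc
  obtain ⟨𝔭, c, d₁, hpd⟩ := exists_prime hG s' hs' x (p ^ m)
    (fun d₀ => not_negligible s' hs' h0' m x d₀)
  obtain ⟨K, hK, hA, μ, hμ, hval⟩ := exists_generic s' x (p ^ m) hx 𝔭 c d₁ hpd
  have hc0 : 0 < c := hpd.2.2.2.1
  have hchar : CharP K p := charP_of_injective_algebraMap (algebraMap k K).injective p
  have hinj : Function.Injective μ := by
    refine injective_of_pos s' hG hn' m hc μ hμ ?_
    rw [hval]
    exact (ENNReal.ofReal_pos.2 hc0).ne'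
  have hfin : ∀ N : Mo K E, hatK k s' ((Pm (p ^ m) μ).tens N) ≠ ⊤ := by
    intro N
    have h1 := hatK_tens_le s' hG (Pm (p ^ m) μ) N
    rw [hval] at h1
    refine ne_top_of_le_ne_top ?_ h1
    exact ENNReal.mul_ne_top (ENNReal.natCast_ne_top _) ENNReal.ofReal_ne_top
  refine ⟨K, hK, hchar, hA, μ, fun N => (hatK k s' ((Pm (p ^ m) μ).tens N)).toReal, hinj,
    ⟨?_, ?_, ?_⟩, ?_, ?_⟩
  · intro A B hAB
    change (hatK k s' ((Pm (p ^ m) μ).tens A)).toReal = (hatK k s' ((Pm (p ^ m) μ).tens B)).toReal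
    rw [hatK_iso s' (Iso.tens (Iso.refl _) hAB)]
  · intro A B
    change (hatK k s' ((Pm (p ^ m) μ).tens (A.prod B))).toReal =
      (hatK k s' ((Pm (p ^ m) μ).tens A)).toReal + (hatK k s' ((Pm (p ^ m) μ).tens B)).toReal
    rw [hatK_iso s' (iso_tens_prod (Pm (p ^ m) μ) A B), hatK_prod,
      ENNReal.toReal_add (hfin A) (hfin B)]
  · intro A hA'
    change (hatK k s' ((Pm (p ^ m) μ).tens A)).toReal = 0
    have h1 : Proj ((Pm (p ^ m) μ).tens A) := ProjOn.tens_l (H := ⊤) hA' (Pm (p ^ m) μ)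
    rw [hatK_proj s' hG hn' _ h1]
    rfl
  · intro A
    change (hatK k s' ((Pm (p ^ m) μ).tens (A.tens (baseCh k K M)))).toReal =
      γ * (hatK k s' ((Pm (p ^ m) μ).tens A)).toReal
    rw [← hatK_iso s' (iso_assoc (Pm (p ^ m) μ) A (baseCh k K M)), hatK_tens s' M γ hγ he',
      ENNReal.toReal_mul, ENNReal.toReal_ofReal hγ]
  · change 0 < (hatK k s' ((Pm (p ^ m) μ).tens ((Pm (p ^ m) μ).hom (Pm (p ^ m) μ)))).toReal
    rw [ENNReal.toReal_pos_iff]
    refine ⟨?_, (hfin _).lt_top⟩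
    refine lt_of_lt_of_le ?_ (hatK_retr s' (retr_tens_hom (Pm (p ^ m) μ)))
    rw [hval]
    exact ENNReal.ofReal_pos.2 hc0

end Pool.Agent.GamI
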