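import Pool.Agent.GamI.RP

/-! # RQ: rank functionals on `p`-groups: permutation modules, null sums, relative projectivity -/

set_option autoImplicit false

open scoped TensorProduct
open Module

noncomputable section

namespace Pool.Agent.GamI

namespace RankFn

variable {p : ℕ} [Fact p.Prime] {k : Type} [Field k] [CharP k p] {G : Type} [Group G] [Finite G]
variable (s : RankFn k G) {A B C D : Mo k G}

namespace RQAux

/-- the complement of an orbit -/
def compl {X : Type} [MulAction G X] (x : X) : SubMulAction G X where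
  carrier := (MulAction.orbit G x)ᶜ
  smul_mem' := by
    intro g y hy h
    apply hy
    have := MulAction.mem_orbit_of_mem_orbit g⁻¹ h
    rwa [inv_smul_smul] at this

omit [Finite G] in
lemma permRep_apply {X : Type} [MulAction G X] (g : G) (f : X → k) (x : X) :
    permRep k G X g f x = f (g⁻¹ • x) := rfl

omit [Finite G] in
lemma perm_split {X : Type} [Finite X] [MulAction G X] (x : X) [Finite (G ⧸ MulAction.stabilizer G x)] :
    Iso (perm k G X) ((perm k G (G ⧸ MulAction.stabilizer G x)).prod (perm k G (compl (G := G) x))) := by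
  let F : (X → k) →ₗ[k] ((G ⧸ MulAction.stabilizer G x) → k) × ((compl (G := G) x) → k) :=
    { toFun := fun f => (fun q => f (MulAction.ofQuotientStabilizer G x q), fun n => f n.1)
      map_add' := fun _ _ => rfl
      map_smul' := fun _ _ => rfl }
  refine iso_of_bij (A := perm k G X)
    (B := (perm k G (G ⧸ MulAction.stabilizer G x)).prod (perm k G (compl (G := G) x))) F ?_ ⟨?_, ?_⟩
  · intro g f
    refine Prod.ext ?_ ?_
    · funext q
      change f (g⁻¹ • MulAction.ofQuotientStabilizer G x q) =
        f (MulAction.ofQuotientStabilizer G x (g⁻¹ • q))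
      rw [MulAction.ofQuotientStabilizer_smul]
    · rfl
  · have h0 : ∀ f f' : X → k, F f = F f' → f = f' := by
      intro f f' h
      funext y
      by_cases hy : y ∈ MulAction.orbit G x
      · obtain ⟨g, rfl⟩ := hy
        have := congrFun (congrArg Prod.fst h) (g : G ⧸ MulAction.stabilizer G x)
        exact this
      · exact congrFun (congrArg Prod.snd h) ⟨y, hy⟩
    exact fun f f' => h0 f f'
  · have h0 : ∀ b : ((G ⧸ MulAction.stabilizer G x) → k) × ((compl (G := G) x) → k),
        ∃ a : X → k, F a = b := by
      classical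
      rintro ⟨b, c⟩
      refine ⟨fun y => if hy : y ∈ MulAction.orbit G x then
        b (MulAction.orbitEquivQuotientStabilizer G x ⟨y, hy⟩) else c ⟨y, hy⟩, ?_⟩
      refine Prod.ext ?_ ?_
      · funext q
        have hq : MulAction.ofQuotientStabilizer G x q ∈ MulAction.orbit G x :=
          MulAction.ofQuotientStabilizer_mem_orbit G x q
        change (if hy : MulAction.ofQuotientStabilizer G x q ∈ MulAction.orbit G x then
          b (MulAction.orbitEquivQuotientStabilizer G x ⟨_, hy⟩) else c ⟨_, hy⟩) = b q
        rw [dif_pos hq]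
        congr 1
        rw [← Equiv.eq_symm_apply]
        apply Subtype.ext
        obtain ⟨g, rfl⟩ := QuotientGroup.mk_surjective q
        rw [MulAction.orbitEquivQuotientStabilizer_symm_apply]
        rfl
      · funext n
        change (if hy : n.1 ∈ MulAction.orbit G x then
          b (MulAction.orbitEquivQuotientStabilizer G x ⟨_, hy⟩) else c ⟨_, hy⟩) = c n
        rw [dif_neg n.2]
    exact h0

end RQAux

open RQAux

/-- a permutation module on a finite `G`-set without fixed points is null -/
theorem perm_null (hG : IsPGroup p G) (hs : s.NullPerm) (X : Type) [Finite X] [MulAction G X]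
    (hX : ∀ x : X, ∃ g : G, g • x ≠ x) : s.val (perm k G X) = 0 := by
  have main : ∀ (n : ℕ) (X : Type) [Finite X] [MulAction G X] (_ : ∀ x : X, ∃ g : G, g • x ≠ x),
      Nat.card X = n → s.val (perm k G X) = 0 := by
    intro n
    induction n using Nat.strong_induction_on with
    | _ n ih =>
      intro X _ _ hX hn
      rcases isEmpty_or_nonempty X with hE | ⟨⟨x⟩⟩
      · apply s.val_of_finrank_zero
        change finrank k (X → k) = 0
        have : Fintype X := Fintype.ofFinite X
        rw [Module.finrank_fintype_fun_eq_card, Fintype.card_eq_zero]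
      · rw [s.val_iso (perm_split x), s.val_prod]
        have h1 : MulAction.stabilizer G x ≠ ⊤ := by
          intro h
          obtain ⟨g, hg⟩ := hX x
          apply hg
          have : g ∈ MulAction.stabilizer G x := by rw [h]; trivial
          exact this
        rw [hs _ h1, zero_add]
        refine ih (Nat.card (compl (G := G) x)) ?_ _ ?_ rfl
        · rw [← hn]
          have : Nat.card (compl (G := G) x) = ((MulAction.orbit G x)ᶜ : Set X).ncard := rfl
          rw [this, ← Set.ncard_univ]
          refine Set.ncard_lt_ncard ?_ (Set.toFinite _)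
          rw [Set.ssubset_univ_iff, Ne, Set.compl_univ_iff]
          exact (MulAction.nonempty_orbit x).ne_empty
        · rintro ⟨y, hy⟩
          obtain ⟨g, hg⟩ := hX y
          refine ⟨g, fun h => hg ?_⟩
          exact congrArg Subtype.val h
  exact main _ X hX rfl

/-- null sums: a map which is a sum of linear maps permuted without fixed points is null -/
theorem null_sum (hG : IsPGroup p G) (hs : s.NullPerm) (X : Type) [Fintype X] [MulAction G X]
    (hX : ∀ x : X, ∃ g : G, g • x ≠ x) (f : X → (A.V →ₗ[k] B.V))
    (hf : ∀ g x, cj A B g (f x) = f (g • x)) : s.s A B (∑ x, f x) = 0 := by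
  let i : A.V →ₗ[k] A.V ⊗[k] (X → k) := (TensorProduct.mk k A.V (X → k)).flip (fun _ => 1)
  let r0 : A.V →ₗ[k] (X → k) →ₗ[k] B.V :=
    LinearMap.mk₂ k (fun a φ => ∑ x, φ x • f x a)
      (fun a a' φ => by simp [Finset.sum_add_distrib])
      (fun c a φ => by simp [Finset.smul_sum, smul_comm c])
      (fun a φ φ' => by simp [Finset.sum_add_distrib, add_smul])
      (fun c a φ => by simp [Finset.smul_sum, mul_smul])
  let r : A.V ⊗[k] (X → k) →ₗ[k] B.V := TensorProduct.lift r0
  have hr : ∀ (a : A.V) (φ : X → k), r (a ⊗ₜ φ) = ∑ x, φ x • f x a := by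
    intro a φ
    simp [r, r0]
  have hi : IsH A (A.tens (perm k G X)) i := by
    intro g a
    change A.ρ g a ⊗ₜ[k] (fun _ => (1 : k)) = A.ρ g a ⊗ₜ[k] (permRep k G X g (fun _ => 1))
    rfl
  have hrH : IsH (A.tens (perm k G X)) B r := by
    intro g
    have key : r ∘ₗ TensorProduct.map (A.ρ g) (permRep k G X g) = B.ρ g ∘ₗ r := by
      apply TensorProduct.ext'
      intro a φ
      rw [LinearMap.comp_apply, LinearMap.comp_apply, TensorProduct.map_tmul, hr, hr, map_sum,
        ← Equiv.sum_comp (MulAction.toPerm g)]
      refine Finset.sum_congr rfl fun x _ => ?_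
      rw [MulAction.toPerm_apply, permRep_apply, inv_smul_smul, map_smul, ← hf]
      congr 1
      change B.ρ g (f x (A.ρ g⁻¹ (A.ρ g a))) = _
      rw [← Module.End.mul_apply, ← map_mul, inv_mul_cancel, map_one, Module.End.one_apply]
    intro v
    exact LinearMap.congr_fun key v
  have hri : r ∘ₗ i = ∑ x, f x := by
    refine LinearMap.ext fun a => ?_
    change r (a ⊗ₜ fun _ => 1) = _
    rw [hr]
    simp
  have hnull : s.val (A.tens (perm k G X)) = 0 :=
    s.null_tens' hG (s.perm_null hG hs X hX) A
  have h1 := s.comp_le_r _ _ _ _ _ hi hrH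
  have h2 := s.le_cod hi
  have h3 := s.nonneg A B (∑ x, f x)
  rw [hnull] at h2
  rw [← hri]
  rw [← hri] at h3
  exact le_antisymm (h1.trans h2) h3

/-- relative projectivity: if the identity is the relative trace of an `H`-equivariant map, for a
proper subgroup `H`, then `A` and all `B ⊗ A` are null -/
theorem rel_null (hG : IsPGroup p G) (hs : s.NullPerm) (H : Subgroup G) (hH : H ≠ ⊤)
    (θ : A.V →ₗ[k] A.V) (hθ : IsHOn H A A θ)
    (h1 : ∑ᶠ q : G ⧸ H, cj A A q.out θ = LinearMap.id) : s.val A = 0 := by
  have : Fintype (G ⧸ H) := Fintype.ofFinite _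
  rw [finsum_eq_sum_of_fintype] at h1
  have hcjmul : ∀ (g h : G) (f : A.V →ₗ[k] A.V), cj A A (g * h) f = cj A A g (cj A A h f) := by
    intro g h f
    simp only [cj, mul_inv_rev, map_mul]
    rfl
  have hcjH : ∀ h ∈ H, cj A A h θ = θ := by
    intro h hh
    refine LinearMap.ext fun v => ?_
    change A.ρ h (θ (A.ρ h⁻¹ v)) = θ v
    have h5 : A.ρ h (A.ρ h⁻¹ v) = v := by
      rw [← Module.End.mul_apply, ← map_mul, mul_inv_cancel, map_one, Module.End.one_apply]
    rw [← hθ h hh, h5]
  have key : ∀ (g : G) (q : G ⧸ H), cj A A g (cj A A q.out θ) = cj A A (g • q).out θ := by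
    intro g q
    have h1 : (q.out⁻¹ * g⁻¹ * (g • q).out) ∈ H := by
      have h2 : ((g * q.out : G) : G ⧸ H) = (((g • q).out : G) : G ⧸ H) := by
        rw [QuotientGroup.out_eq']
        conv_rhs => rw [← QuotientGroup.out_eq' q]
        rfl
      have := QuotientGroup.eq.1 h2
      simpa [mul_inv_rev, mul_assoc] using this
    have h3 : (g • q).out = g * q.out * (q.out⁻¹ * g⁻¹ * (g • q).out) := by group
    rw [h3, hcjmul, hcjmul, hcjH _ h1]
  have h2 := s.null_sum hG hs (G ⧸ H) (A := A) (B := A) ?_ (fun q => cj A A q.out θ) key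
  · rw [h1] at h2
    exact h2
  · intro q
    by_contra hcon
    push Not at hcon
    apply hH
    rw [Subgroup.eq_top_iff']
    intro g
    obtain ⟨x, rfl⟩ := QuotientGroup.mk_surjective q
    have h3 := hcon (x * g * x⁻¹)
    have h4 : ((x * g * x⁻¹) • (x : G ⧸ H)) = ((x * g * x⁻¹ * x : G) : G ⧸ H) := rfl
    rw [h4] at h3
    have h5 := QuotientGroup.eq.1 h3.symm
    simpa [mul_assoc] using h5

end RankFn

end Pool.Agent.GamI
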