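import Pool.Agent.GamI.BH
import Pool.Agent.GamI.RQ

/-! # BJ: rank functionals on infinite-dimensional representations: exact sequences, tensor
products, relative projectivity -/

set_option autoImplicit false

open scoped TensorProduct
open Module

noncomputable section

namespace Pool.Agent.GamI

section TwoStep

variable {k G : Type} [Field k] [Group G] [Finite G] (s : RankFn k G)

/-- the two-step inequality -/
lemma two_step {A B C F H : Mo k G} (i : A.V →ₗ[k] B.V) (q : B.V →ₗ[k] C.V)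
    (hs : IsSES A B C i q) (a : F.V →ₗ[k] B.V) (ha : IsH F B a) (b : B.V →ₗ[k] H.V)
    (hb : IsH B H b) : s.s F H (b ∘ₗ a) ≤ s.s A H (b ∘ₗ i) + s.s F C (q ∘ₗ a) := by
  let σ : (F.prod A).V →ₗ[k] B.V := LinearMap.coprod a i
  have hσ : IsH (F.prod A) B σ := by
    intro g v
    change a (F.ρ g v.1) + i (A.ρ g v.2) = B.ρ g (a v.1 + i v.2)
    rw [ha, hs.hf, map_add]
  let inr : A.V →ₗ[k] (F.prod A).V := LinearMap.inr k F.V A.V
  have hinr : IsH A (F.prod A) inr := by
    intro g v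
    change ((0 : F.V), A.ρ g v) = (F.ρ g 0, A.ρ g v)
    rw [map_zero]
  let inl : F.V →ₗ[k] (F.prod A).V := LinearMap.inl k F.V A.V
  have hinl : IsH F (F.prod A) inl := by
    intro g v
    change (F.ρ g v, (0 : A.V)) = (F.ρ g v, A.ρ g 0)
    rw [map_zero]
  let fst : (F.prod A).V →ₗ[k] F.V := LinearMap.fst k F.V A.V
  have hfst : IsH (F.prod A) F fst := fun g v => rfl
  have e1 : σ ∘ₗ inr = i := LinearMap.coprod_inr a i
  have e2 : σ ∘ₗ inl = a := LinearMap.coprod_inl a i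
  have e3 : q ∘ₗ σ = (q ∘ₗ a) ∘ₗ fst := by
    apply LinearMap.ext
    intro v
    change q (a v.1 + i v.2) = q (a v.1)
    have : q (i v.2) = 0 := by
      have h : i v.2 ∈ LinearMap.ker q := by
        rw [← hs.exact]
        exact ⟨v.2, rfl⟩
      exact h
    rw [map_add, this, add_zero]
  have h1 := s.frob _ _ _ _ inr σ b hinr hσ hb
  rw [e1] at h1
  have h2 := s.sylv hσ hs.hg
  rw [e3] at h2
  have h3 := s.comp_le_l _ _ _ fst (q ∘ₗ a) hfst (hs.hg.comp ha)
  have h4 := s.ses _ _ _ _ _ hs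
  have h5 := s.comp_le_r _ _ _ inl (b ∘ₗ σ) hinl (hb.comp hσ)
  have h5' := s.comp_le_l _ _ _ inl (b ∘ₗ σ) hinl (hb.comp hσ)
  have e4 : (b ∘ₗ σ) ∘ₗ inl = b ∘ₗ a := by
    rw [LinearMap.comp_assoc, e2]
  rw [e4] at h5'
  have h6 : s.val B = s.s B B LinearMap.id := rfl
  linarith

end TwoStep

variable {p : ℕ} [Fact p.Prime] {k G : Type} [Field k] [CharP k p] [Group G] [Finite G]
variable {W W' W'' : Type} [AddCommGroup W] [Module k W] [AddCommGroup W'] [Module k W']
  [AddCommGroup W''] [Module k W'']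
variable (s : RankFn k G)

lemma hatS_ses (ρ : Representation k G W) (ρ' : Representation k G W')
    (ρ'' : Representation k G W'') (f : W →ₗ[k] W') (g : W' →ₗ[k] W'') (hf : Eqv ρ ρ' f)
    (hg : Eqv ρ' ρ'' g) (hi : Function.Injective f) (hs : Function.Surjective g)
    (hfg : LinearMap.range f = LinearMap.ker g) : hatS s ρ' ≤ hatS s ρ + hatS s ρ'' := by
  rw [hatS_eq]
  refine iSup_le fun F' => ?_
  let F'' : FS ρ'' := F'.img g hg
  refine le_trans ?_ (add_le_add_right (hatI_le_hatS s F'') (hatS s ρ))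
  unfold hatI
  rw [ENNReal.add_iInf]
  refine le_iInf fun G₀ => ?_
  -- a finite-dimensional invariant `G'` containing `F'` and mapping onto something above `G₀`
  obtain ⟨G', hG1, hG2⟩ : ∃ G' : FS ρ', F'.F ≤ G'.F ∧ G₀.1.F ≤ G'.F.map g := by
    obtain ⟨t, ht⟩ := hs.hasRightInverse
    have hfin := G₀.1.fin
    obtain ⟨S, hS⟩ := Module.Finite.iff_fg.1 hfin
    have hfin2 : Module.Finite k (Submodule.span k (t '' (S : Set W''))) :=
      FiniteDimensional.span_of_finite k (S.finite_toSet.image t)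
    obtain ⟨L, hL⟩ := FS.exists_sup ρ' (Submodule.span k (t '' (S : Set W'')))
    refine ⟨F'.sup L, le_sup_left, ?_⟩
    rw [← hS, Submodule.span_le]
    intro x hx
    refine ⟨t x, ?_, ht x⟩
    exact Submodule.mem_sup_right (hL (Submodule.subset_span ⟨x, hx, rfl⟩))
  -- the preimage
  let A : FS ρ :=
    { F := G'.F.comap f
      fin := by
        have := G'.fin
        let φ : ↥(G'.F.comap f) →ₗ[k] ↥G'.F := f.restrict fun x hx => hx
        refine Module.Finite.of_injective φ ?_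
        intro x y hxy
        exact Subtype.ext (hi (congrArg Subtype.val hxy))
      inv := by
        intro a x hx
        change f (ρ a x) ∈ G'.F
        rw [hf]
        exact G'.inv a hx }
  let C : FS ρ'' := G'.img g hg
  let i : A.mo.V →ₗ[k] G'.mo.V := A.hom G' f fun x hx => hx
  have hi' : IsH _ _ i := A.hom_isH G' f hf _
  let q : G'.mo.V →ₗ[k] C.mo.V := G'.hom C g fun x hx => ⟨x, hx, rfl⟩
  have hq' : IsH _ _ q := G'.hom_isH C g hg _
  have hses : IsSES A.mo G'.mo C.mo i q := by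
    refine ⟨hi', hq', ?_, ?_, ?_⟩
    · intro x y hxy
      exact Subtype.ext (hi (congrArg Subtype.val hxy))
    · rintro ⟨_, ⟨x, hx, rfl⟩⟩
      exact ⟨⟨x, hx⟩, rfl⟩
    · apply le_antisymm
      · rintro _ ⟨x, rfl⟩
        apply Subtype.ext
        have h1 : f x.1 ∈ LinearMap.ker g := by
          rw [← hfg]
          exact ⟨x.1, rfl⟩
        exact h1
      · intro x hx
        have h1 : g x.1 = 0 := congrArg Subtype.val hx
        have h2 : x.1 ∈ LinearMap.range f := by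
          rw [hfg]
          exact h1
        obtain ⟨y, hy⟩ := h2
        have hyA : y ∈ A.F := by
          change f y ∈ G'.F
          rw [hy]
          exact x.2
        exact ⟨⟨y, hyA⟩, Subtype.ext hy⟩
  -- reduce to a fixed `H₀`
  have key : ∀ (H₀ : FS ρ) (hH : A.F ≤ H₀.F), hatI s F' ≤
      ENNReal.ofReal (s.s A.mo H₀.mo (A.inc H₀ hH)) +
        ENNReal.ofReal (s.s F''.mo G₀.1.mo (F''.inc G₀.1 G₀.2)) := by
    intro H₀ hH
    let H' : FS ρ' := G'.sup (H₀.img f hf)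
    have hGH : G'.F ≤ H'.F := le_sup_left
    refine le_trans (hatI_le s F' H' (hG1.trans hGH)) ?_
    rw [← ENNReal.ofReal_add (s.nonneg _ _ _) (s.nonneg _ _ _)]
    apply ENNReal.ofReal_le_ofReal
    have h1 := two_step s i q hses (F'.inc G' hG1) (F'.inc_isH G' hG1) (G'.inc H' hGH)
      (G'.inc_isH H' hGH)
    rw [FS.inc_comp] at h1
    refine h1.trans (add_le_add ?_ ?_)
    · let j : H₀.mo.V →ₗ[k] H'.mo.V := H₀.hom H' f fun x hx =>
        Submodule.mem_sup_right ⟨x, hx, rfl⟩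
      have hj : IsH _ _ j := H₀.hom_isH H' f hf _
      have e1 : G'.inc H' hGH ∘ₗ i = j ∘ₗ A.inc H₀ hH := rfl
      rw [e1]
      exact s.comp_le_r _ _ _ _ _ (A.inc_isH H₀ hH) hj
    · let a : F'.mo.V →ₗ[k] F''.mo.V := F'.hom F'' g fun x hx => ⟨x, hx, rfl⟩
      have ha : IsH _ _ a := F'.hom_isH F'' g hg _
      have hGC : G₀.1.F ≤ C.F := hG2
      have e1 : q ∘ₗ F'.inc G' hG1 = G₀.1.inc C hGC ∘ₗ (F''.inc G₀.1 G₀.2 ∘ₗ a) := rfl
      rw [e1]
      exact (s.comp_le_r _ _ _ _ _ ((F''.inc_isH G₀.1 G₀.2).comp ha) (G₀.1.inc_isH C hGC)).trans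
        (s.comp_le_l _ _ _ _ _ ha (F''.inc_isH G₀.1 G₀.2))
  refine le_trans ?_ (add_le_add_left (hatI_le_hatS s A) _)
  conv_rhs => unfold hatI
  rw [ENNReal.iInf_add]
  exact le_iInf fun H₀ => key H₀.1 H₀.2

/-- the invariant subspace `F ⊗ M` -/
def FS.tens {ρ : Representation k G W} (F : FS ρ) (M : Mo k G) : FS (ρ.tprod M.ρ) where
  F := LinearMap.range (F.F.subtype.rTensor M.V)
  fin := by
    have := F.fin
    infer_instance
  inv g := by
    rintro _ ⟨x, rfl⟩
    let φ : ↥F.F →ₗ[k] ↥F.F := F.mo.ρ g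
    refine ⟨TensorProduct.map φ (M.ρ g) x, ?_⟩
    induction x using TensorProduct.induction_on with
    | zero => simp
    | tmul a b => rfl
    | add a b ha hb => simp only [map_add, ha, hb]

/-- `F.mo ⊗ M` is the subrepresentation `F ⊗ M` -/
def FS.etens {ρ : Representation k G W} (F : FS ρ) (M : Mo k G) :
    (F.mo.tens M).V ≃ₗ[k] (F.tens M).mo.V :=
  LinearEquiv.ofInjective (F.F.subtype.rTensor M.V)
    (Module.Flat.rTensor_preserves_injective_linearMap _ F.F.injective_subtype)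

/-- the embedding of an invariant subspace -/
def FS.emb {ρ : Representation k G W} (F : FS ρ) : F.mo.V →ₗ[k] W := F.F.subtype

lemma FS.etens_coe {ρ : Representation k G W} (F : FS ρ) (M : Mo k G)
    (x : F.mo.V ⊗[k] M.V) :
    ((F.etens M x : (F.tens M).mo.V) : ↥(F.tens M).F).1 = F.emb.rTensor M.V x := rfl

lemma FS.etens_isH {ρ : Representation k G W} (F : FS ρ) (M : Mo k G) :
    IsH (F.mo.tens M) (F.tens M).mo (F.etens M).toLinearMap := by
  intro g x
  apply Subtype.ext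
  have h : F.emb.rTensor M.V ∘ₗ TensorProduct.map (F.mo.ρ g) (M.ρ g) =
      TensorProduct.map (ρ g) (M.ρ g) ∘ₗ F.emb.rTensor M.V := by
    apply TensorProduct.ext'
    intro a b
    rfl
  exact LinearMap.congr_fun h x

lemma FS.tens_mono {ρ : Representation k G W} (F F' : FS ρ) (h : F.F ≤ F'.F) (M : Mo k G) :
    (F.tens M).F ≤ (F'.tens M).F := by
  rintro _ ⟨x, rfl⟩
  refine ⟨(Submodule.inclusion h).rTensor M.V x, ?_⟩
  rw [← LinearMap.comp_apply, ← LinearMap.rTensor_comp]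
  rfl

lemma FS.s_tens {ρ : Representation k G W} (F F' : FS ρ) (h : F.F ≤ F'.F) (M : Mo k G) (γ : ℝ)
    (he : s.Eig M γ) : s.s (F.tens M).mo (F'.tens M).mo ((F.tens M).inc (F'.tens M)
      (F.tens_mono F' h M)) = γ * s.s F.mo F'.mo (F.inc F' h) := by
  have hr : IsH (F.mo.tens M) (F'.mo.tens M) ((F.inc F' h).rTensor M.V) :=
    (F.inc_isH F' h).rT M
  have h1 := he _ _ _ (F.inc_isH F' h)
  have h2 := s.comp_iso_l hr (F'.etens M) (F'.etens_isH M)
  have h3 := s.comp_iso_r ((F.tens M).inc_isH (F'.tens M) (F.tens_mono F' h M)) (F.etens M)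
    (F.etens_isH M)
  have h4 : (F'.etens M).toLinearMap ∘ₗ (F.inc F' h).rTensor M.V =
      (F.tens M).inc (F'.tens M) (F.tens_mono F' h M) ∘ₗ (F.etens M).toLinearMap := by
    apply LinearMap.ext
    intro x
    apply Subtype.ext
    have h5 : F'.emb.rTensor M.V ∘ₗ (F.inc F' h).rTensor M.V = F.emb.rTensor M.V := by
      apply TensorProduct.ext'
      intro a b
      rfl
    exact LinearMap.congr_fun h5 x
  rw [← h1]
  refine Eq.trans h3.symm (Eq.trans ?_ h2)
  exact congrArg _ h4.symm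

lemma FS.tens_cofinal (ρ : Representation k G W) (M : Mo k G) (H : FS (ρ.tprod M.ρ)) :
    ∃ F : FS ρ, H.F ≤ (F.tens M).F := by
  have hfin := H.fin
  obtain ⟨S, hS⟩ := Module.Finite.iff_fg.1 hfin
  obtain ⟨N, hN, hSN⟩ := TensorProduct.exists_finite_submodule_left_of_setFinite
    (S : Set (W ⊗[k] M.V)) S.finite_toSet
  obtain ⟨F, hF⟩ := FS.exists_sup ρ N
  refine ⟨F, ?_⟩
  rw [← hS, Submodule.span_le]
  refine hSN.trans ?_
  rintro _ ⟨x, rfl⟩
  refine ⟨(Submodule.inclusion hF).rTensor M.V x, ?_⟩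
  rw [← LinearMap.comp_apply, ← LinearMap.rTensor_comp]
  rfl

lemma hatS_tens (M : Mo k G) (γ : ℝ) (hγ : 0 ≤ γ) (he : s.Eig M γ) (ρ : Representation k G W) :
    hatS s (ρ.tprod M.ρ) = ENNReal.ofReal γ * hatS s ρ := by
  apply le_antisymm
  · rw [hatS_eq]
    refine iSup_le fun H => ?_
    obtain ⟨F, hF⟩ := FS.tens_cofinal ρ M H
    refine le_trans ?_ (mul_le_mul_right (hatI_le_hatS s F) _)
    have : Nonempty {F' : FS ρ // F.F ≤ F'.F} := ⟨⟨F, le_rfl⟩⟩
    unfold hatI
    rw [ENNReal.mul_iInf (fun h => absurd h ENNReal.ofReal_ne_top)]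
    refine le_iInf fun F' => ?_
    refine le_trans (hatI_le s H _ (hF.trans (F.tens_mono F'.1 F'.2 M))) ?_
    rw [← ENNReal.ofReal_mul hγ, ← FS.s_tens s F F'.1 F'.2 M γ he]
    apply ENNReal.ofReal_le_ofReal
    exact FS.s_mono_l s H _ _ hF (F.tens_mono F'.1 F'.2 M)
  · rw [hatS_eq s ρ, ENNReal.mul_iSup]
    refine iSup_le fun F => ?_
    refine le_trans ?_ (hatI_le_hatS s (F.tens M))
    refine le_hatI s _ _ fun H hH => ?_
    obtain ⟨F₁, hF₁⟩ := FS.tens_cofinal ρ M H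
    have h1 : F.F ≤ (F.sup F₁).F := le_sup_left
    have h2 : F₁.F ≤ (F.sup F₁).F := le_sup_right
    refine le_trans (mul_le_mul_right (hatI_le s F (F.sup F₁) h1) _) ?_
    rw [← ENNReal.ofReal_mul hγ, ← FS.s_tens s F _ h1 M γ he]
    apply ENNReal.ofReal_le_ofReal
    exact FS.s_mono_r s (F.tens M) H _ hH (hF₁.trans (F₁.tens_mono _ h2 M))

/-- relatively projective modules, `H` proper -/
lemma hatS_rel (hG : IsPGroup p G) (hs : s.NullPerm) (ρ : Representation k G W) (H : Subgroup G)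
    (hH : H ≠ ⊤) (θ : W →ₗ[k] W) (hθ : ∀ h ∈ H, ρ h ∘ₗ θ = θ ∘ₗ ρ h)
    (h1 : ∑ᶠ q : G ⧸ H, ρ q.out ∘ₗ θ ∘ₗ ρ q.out⁻¹ = LinearMap.id) : hatS s ρ = 0 := by
  set fq : G ⧸ H → (W →ₗ[k] W) := fun q => ρ q.out ∘ₗ θ ∘ₗ ρ q.out⁻¹ with hfq
  have hmk : ∀ a : G, fq (a : G ⧸ H) = ρ a ∘ₗ θ ∘ₗ ρ a⁻¹ := by
    intro a
    obtain ⟨h, hh⟩ := QuotientGroup.mk_out_eq_mul H a
    have h2 := hθ h.1 h.2
    rw [hfq]
    simp only
    rw [hh, mul_inv_rev, map_mul, map_mul]
    have h3 : ρ h.1 ∘ₗ θ ∘ₗ ρ (h.1)⁻¹ = θ := by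
      rw [← LinearMap.comp_assoc, h2, LinearMap.comp_assoc]
      have : ρ h.1 ∘ₗ ρ (h.1)⁻¹ = LinearMap.id := by
        have := (map_mul ρ h.1 (h.1)⁻¹).symm
        rw [mul_inv_cancel, map_one] at this
        exact this
      rw [this, LinearMap.comp_id]
    apply LinearMap.ext
    intro x
    have h4 := LinearMap.congr_fun h3 (ρ a⁻¹ x)
    exact congrArg (ρ a) h4
  have hgq : ∀ (g : G) (q : G ⧸ H) (x : W), ρ g (fq q x) = fq (g • q) (ρ g x) := by
    intro g q x
    obtain ⟨a, rfl⟩ := QuotientGroup.mk_surjective q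
    have e1 : g • (a : G ⧸ H) = ((g * a : G) : G ⧸ H) := rfl
    rw [e1, hmk, hmk]
    simp only [LinearMap.comp_apply]
    rw [mul_inv_rev, map_mul, map_mul]
    simp only [Module.End.mul_apply]
    rw [← Module.End.mul_apply (ρ g⁻¹) (ρ g) x, ← map_mul, inv_mul_cancel, map_one]
    rfl
  have hfix : ∀ q : G ⧸ H, ∃ g : G, g • q ≠ q := by
    intro q
    by_contra hcon
    push Not at hcon
    apply hH
    rw [eq_top_iff]
    intro x _
    obtain ⟨a, rfl⟩ := QuotientGroup.mk_surjective q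
    have h2 := hcon (a * x * a⁻¹)
    have e1 : (a * x * a⁻¹) • (a : G ⧸ H) = ((a * x * a⁻¹ * a : G) : G ⧸ H) := rfl
    rw [e1, inv_mul_cancel_right] at h2
    have h3 := QuotientGroup.eq.1 h2
    rw [mul_inv_rev, mul_assoc, inv_mul_cancel, mul_one] at h3
    simpa using H.inv_mem h3
  have : Fintype (G ⧸ H) := Fintype.ofFinite _
  have hsum : ∀ x : W, ∑ q, fq q x = x := by
    intro x
    rw [finsum_eq_sum_of_fintype] at h1
    have := LinearMap.congr_fun h1 x
    rw [LinearMap.sum_apply] at this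
    exact this
  apply le_antisymm _ bot_le
  rw [hatS_eq]
  refine iSup_le fun F => ?_
  have hF := F.fin
  let F' : FS ρ :=
    { F := F.F ⊔ ⨆ q : G ⧸ H, F.F.map (fq q)
      fin := by
        have h3 : ∀ q : G ⧸ H, Module.Finite k ↥(F.F.map (fq q)) := fun q => inferInstance
        have h4 := Submodule.finiteDimensional_iSup (fun q : G ⧸ H => F.F.map (fq q))
        exact Submodule.finite_sup _ _
      inv := by
        intro g
        apply sup_le
        · exact (F.inv g).trans (Submodule.comap_mono le_sup_left)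
        · refine iSup_le fun q => ?_
          rintro _ ⟨x, hx, rfl⟩
          change ρ g (fq q x) ∈ (F.F ⊔ ⨆ q : G ⧸ H, F.F.map (fq q))
          rw [hgq]
          exact Submodule.mem_sup_right
            (Submodule.mem_iSup_of_mem (g • q) ⟨ρ g x, F.inv g hx, rfl⟩) }
  have hFF : F.F ≤ F'.F := le_sup_left
  refine le_trans (hatI_le s F F' hFF) ?_
  let f : G ⧸ H → (F.mo.V →ₗ[k] F'.mo.V) := fun q => F.hom F' (fq q) fun x hx =>
    Submodule.mem_sup_right (Submodule.mem_iSup_of_mem q ⟨x, hx, rfl⟩)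
  have h5 : ∑ q, f q = F.inc F' hFF := by
    apply LinearMap.ext
    intro x
    apply Subtype.ext
    rw [LinearMap.sum_apply]
    have h6 : F'.F.subtype (∑ q, f q x) = ∑ q, fq q x.1 :=
      map_sum F'.F.subtype (fun q => f q x) _
    exact h6.trans (hsum x.1)
  have h7 := s.null_sum hG hs (G ⧸ H) hfix f (by
    intro g q
    apply LinearMap.ext
    intro x
    apply Subtype.ext
    change ρ g (fq q (ρ g⁻¹ x.1)) = fq (g • q) x.1
    rw [hgq, ← Module.End.mul_apply (ρ g) (ρ g⁻¹) x.1, ← map_mul, mul_inv_cancel, map_one]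
    rfl)
  rw [h5] at h7
  rw [h7]
  simp

end Pool.Agent.GamI
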