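import Pool.Agent.GamI.BE
import Pool.Agent.GamI.RP

/-! # BN: Noetherian induction: a homogeneous prime at which the family is generically constant -/

set_option autoImplicit false

open scoped TensorProduct
open Module Polynomial

noncomputable section

namespace Pool.Agent.GamI

variable {p : ℕ} [Fact p.Prime] {k : Type} [Field k] [CharP k p] {E : Type} [Group E]

/-- homogeneous ideals of the polynomial ring -/
def HomIdeal {r : ℕ} (𝔞 : Ideal (MvPolynomial (Fin r) k)) : Prop :=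
  ∀ f ∈ 𝔞, ∀ n : ℕ, MvPolynomial.homogeneousComponent n f ∈ 𝔞

namespace BNAux

open MvPolynomial in
/-- homogeneous of integer degree -/
def HD {r : ℕ} (f : MvPolynomial (Fin r) k) (m : ℤ) : Prop :=
  (0 ≤ m ∧ f.IsHomogeneous m.toNat) ∨ f = 0

lemma gqmk_add {r : ℕ} (x : Fin r → (E →* Multiplicative (ZMod p)))
    (𝔞 : Ideal (MvPolynomial (Fin r) k)) (f g : MvPolynomial (Fin r) k) :
    gqmk x 𝔞 (f + g) = gqmk x 𝔞 f + gqmk x 𝔞 g := (Ideal.Quotient.mk 𝔞).map_add f g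

lemma gqmk_mul {r : ℕ} (x : Fin r → (E →* Multiplicative (ZMod p)))
    (𝔞 : Ideal (MvPolynomial (Fin r) k)) (f g : MvPolynomial (Fin r) k) :
    gqmk x 𝔞 (f * g) = gqmk x 𝔞 f * gqmk x 𝔞 g := (Ideal.Quotient.mk 𝔞).map_mul f g

lemma gqmk_zero {r : ℕ} (x : Fin r → (E →* Multiplicative (ZMod p)))
    (𝔞 : Ideal (MvPolynomial (Fin r) k)) :
    gqmk x 𝔞 0 = 0 := (Ideal.Quotient.mk 𝔞).map_zero

lemma gqmk_eq_zero {r : ℕ} (x : Fin r → (E →* Multiplicative (ZMod p)))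
    (𝔞 : Ideal (MvPolynomial (Fin r) k)) (f : MvPolynomial (Fin r) k) :
    gqmk x 𝔞 f = 0 ↔ f ∈ 𝔞 := Ideal.Quotient.eq_zero_iff_mem

lemma gqmk_surj {r : ℕ} (x : Fin r → (E →* Multiplicative (ZMod p)))
    (𝔞 : Ideal (MvPolynomial (Fin r) k)) (y : (gq x 𝔞).R) :
    ∃ f, gqmk x 𝔞 f = y := Ideal.Quotient.mk_surjective y

lemma gqmk_smul {r : ℕ} (x : Fin r → (E →* Multiplicative (ZMod p)))
    (𝔞 : Ideal (MvPolynomial (Fin r) k)) (c : k) (f : MvPolynomial (Fin r) k) :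
    gqmk x 𝔞 (c • f) = c • gqmk x 𝔞 f := map_smul (Ideal.Quotient.mkₐ k 𝔞) c f

lemma gq_lam {r : ℕ} (x : Fin r → (E →* Multiplicative (ZMod p)))
    (𝔞 : Ideal (MvPolynomial (Fin r) k)) (g : E) :
    ((gq x 𝔞).lam g).toAdd = gqmk x 𝔞 (linF x g) := rfl

lemma mem_gr {r : ℕ} (x : Fin r → (E →* Multiplicative (ZMod p)))
    (𝔞 : Ideal (MvPolynomial (Fin r) k)) (m : ℤ) (y : (gq x 𝔞).R) :
    y ∈ (gq x 𝔞).gr m ↔ ∃ f, HD f m ∧ gqmk x 𝔞 f = y := by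
  change y ∈ (if 0 ≤ m then
    (MvPolynomial.homogeneousSubmodule (Fin r) k m.toNat).map
      (Ideal.Quotient.mkₐ k 𝔞).toLinearMap else ⊥) ↔ _
  split_ifs with h
  · constructor
    · rintro ⟨f, hf, rfl⟩
      exact ⟨f, Or.inl ⟨h, hf⟩, rfl⟩
    · rintro ⟨f, hf, rfl⟩
      rcases hf with ⟨_, hf⟩ | rfl
      · exact ⟨f, hf, rfl⟩
      · exact ⟨0, Submodule.zero_mem _, rfl⟩
  · constructor
    · intro hy
      have hy' : y = 0 := (Submodule.mem_bot k).1 hy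
      exact ⟨0, Or.inr rfl, by rw [hy', gqmk_zero]⟩
    · rintro ⟨f, hf, rfl⟩
      rcases hf with ⟨h', _⟩ | rfl
      · exact absurd h' h
      · exact (Submodule.mem_bot k (M := MvPolynomial (Fin r) k ⧸ 𝔞)).2 (gqmk_zero x 𝔞)

lemma HD.mul {r : ℕ} {f g : MvPolynomial (Fin r) k} {e : ℕ} {m : ℤ} (hf : f.IsHomogeneous e)
    (hg : HD g m) : HD (f * g) (m + e) := by
  rcases hg with ⟨h, hg⟩ | rfl
  · refine Or.inl ⟨by omega, ?_⟩
    have h1 : (m + e).toNat = e + m.toNat := by omega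
    rw [h1]
    exact hf.mul hg
  · exact Or.inr (mul_zero _)

/-- the homogeneous component of integer degree -/
def hcZ {r : ℕ} (m : ℤ) (f : MvPolynomial (Fin r) k) : MvPolynomial (Fin r) k :=
  if 0 ≤ m then MvPolynomial.homogeneousComponent m.toNat f else 0

lemma hcZ_add {r : ℕ} (m : ℤ) (f g : MvPolynomial (Fin r) k) :
    hcZ m (f + g) = hcZ m f + hcZ m g := by
  unfold hcZ
  split_ifs <;> simp

lemma hcZ_HD {r : ℕ} (m : ℤ) (f : MvPolynomial (Fin r) k) : HD (hcZ m f) m := by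
  unfold hcZ
  split_ifs with h
  · exact Or.inl ⟨h, MvPolynomial.homogeneousComponent_isHomogeneous _ _⟩
  · exact Or.inr rfl

lemma hcZ_of_HD {r : ℕ} {m : ℤ} {f : MvPolynomial (Fin r) k} (hf : HD f m) : hcZ m f = f := by
  unfold hcZ
  rcases hf with ⟨h, hf⟩ | rfl
  · rw [if_pos h, MvPolynomial.homogeneousComponent_of_mem hf, if_pos rfl]
  · simp

lemma homComp_mul {r : ℕ} {f : MvPolynomial (Fin r) k} {e : ℕ} (hf : f.IsHomogeneous e) (n : ℕ)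
    (b : MvPolynomial (Fin r) k) :
    MvPolynomial.homogeneousComponent n (f * b) =
      if e ≤ n then f * MvPolynomial.homogeneousComponent (n - e) b else 0 := by
  conv_lhs => rw [← MvPolynomial.sum_homogeneousComponent b]
  rw [Finset.mul_sum, map_sum]
  have key : ∀ i, MvPolynomial.homogeneousComponent n
      (f * MvPolynomial.homogeneousComponent i b) =
      if e + i = n then f * MvPolynomial.homogeneousComponent i b else 0 := by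
    intro i
    rw [MvPolynomial.homogeneousComponent_of_mem
      (hf.mul (MvPolynomial.homogeneousComponent_isHomogeneous i b))]
    simp only [eq_comm]
  simp only [key]
  split_ifs with h
  · have h2 : ∀ i, (e + i = n) = (i = n - e) := by
      intro i
      rw [eq_iff_iff]
      omega
    simp only [h2]
    rw [Finset.sum_ite_eq']
    split_ifs with h3
    · rfl
    · rw [MvPolynomial.homogeneousComponent_eq_zero, mul_zero]
      simp only [Finset.mem_range, not_lt] at h3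
      omega
  · refine Finset.sum_eq_zero fun i _ => ?_
    rw [if_neg (by omega)]

lemma hcZ_mul {r : ℕ} {f : MvPolynomial (Fin r) k} {e : ℕ} (hf : f.IsHomogeneous e) (m : ℤ)
    (b : MvPolynomial (Fin r) k) : hcZ m (f * b) = f * hcZ (m - e) b := by
  unfold hcZ
  by_cases h : 0 ≤ m
  · rw [if_pos h, homComp_mul hf]
    by_cases h2 : (e : ℤ) ≤ m
    · rw [if_pos (by omega), if_pos (by omega)]
      have h3 : m.toNat - e = (m - (e : ℤ)).toNat := by omega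
      rw [h3]
    · rw [if_neg (by omega), if_neg (by omega), mul_zero]
  · rw [if_neg h, if_neg (by omega), mul_zero]

lemma hcZ_mem {r : ℕ} {𝔭 : Ideal (MvPolynomial (Fin r) k)} (hp : HomIdeal 𝔭)
    {f : MvPolynomial (Fin r) k} (hf : f ∈ 𝔭) (m : ℤ) : hcZ m f ∈ 𝔭 := by
  unfold hcZ
  split_ifs
  · exact hp f hf _
  · exact 𝔭.zero_mem

/-- the basic short exact sequence -/
theorem ses_mul {r : ℕ} (x : Fin r → (E →* Multiplicative (ZMod p)))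
    (𝔭 𝔠 : Ideal (MvPolynomial (Fin r) k)) (hp : HomIdeal 𝔭)
    (f : MvPolynomial (Fin r) k) (e : ℕ) (hf : f.IsHomogeneous e)
    (hc : ∀ g, g ∈ 𝔠 ↔ f * g ∈ 𝔭) (n : ℕ) (d : ℤ) :
    ∃ (F : ((gq x 𝔠).XM n d).V →ₗ[k] ((gq x 𝔭).XM n (d + e)).V)
      (G : ((gq x 𝔭).XM n (d + e)).V →ₗ[k] ((gq x (𝔭 ⊔ Ideal.span {f})).XM n (d + e)).V),
      IsSES ((gq x 𝔠).XM n d) ((gq x 𝔭).XM n (d + e)) ((gq x (𝔭 ⊔ Ideal.span {f})).XM n (d + e))
        F G ∧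
      ∀ v (j : ℕ) (g : MvPolynomial (Fin r) k), (v.1 : (gq x 𝔠).R[X]).coeff j = gqmk x 𝔠 g →
        ((F v).1 : (gq x 𝔭).R[X]).coeff j = gqmk x 𝔭 (f * g) := by
  set 𝔟 := 𝔭 ⊔ Ideal.span {f} with h𝔟
  have hle : 𝔭 ≤ 𝔟 := le_sup_left
  let φ₀ : (MvPolynomial (Fin r) k ⧸ 𝔠) →ₗ[MvPolynomial (Fin r) k]
      (MvPolynomial (Fin r) k ⧸ 𝔭) :=
    Submodule.mapQ 𝔠 𝔭 (LinearMap.mulLeft (MvPolynomial (Fin r) k) f) (fun g hg => (hc g).1 hg)
  let φ : (gq x 𝔠).R →ₗ[k] (gq x 𝔭).R := φ₀.restrictScalars k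
  let ψ : (gq x 𝔭).R →+* (gq x 𝔟).R := Ideal.Quotient.factor hle
  have hφmk : ∀ g, φ (gqmk x 𝔠 g) = gqmk x 𝔭 (f * g) := fun g => rfl
  have hψmk : ∀ g, ψ (gqmk x 𝔭 g) = gqmk x 𝔟 g := fun g => rfl
  have main := xses_map (gq x 𝔠) (gq x 𝔭) (gq x 𝔟) (e : ℤ) φ ψ
    (by
      intro c y
      obtain ⟨g, rfl⟩ := gqmk_surj x 𝔭 y
      rw [← gqmk_smul, hψmk, hψmk, gqmk_smul])
    (by
      intro g y
      obtain ⟨h, rfl⟩ := gqmk_surj x 𝔠 y
      rw [gq_lam, gq_lam, ← gqmk_mul, hφmk, hφmk, ← gqmk_mul]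
      congr 1
      ring)
    (fun g => rfl)
    (by
      rw [injective_iff_map_eq_zero]
      intro y hy
      obtain ⟨h, rfl⟩ := gqmk_surj x 𝔠 y
      rw [hφmk, gqmk_eq_zero, ← hc] at hy
      rwa [gqmk_eq_zero])
    (by
      intro m y hy
      rw [mem_gr] at hy
      obtain ⟨h, hh, rfl⟩ := hy
      rw [mem_gr]
      exact ⟨f * h, HD.mul hf hh, (hφmk h).symm⟩)
    (by
      intro m y hy
      rw [mem_gr] at hy
      obtain ⟨h, hh, rfl⟩ := hy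
      rw [mem_gr]
      exact ⟨h, hh, (hψmk h).symm⟩)
    (by
      intro m y hy
      rw [mem_gr] at hy
      obtain ⟨h, hh, rfl⟩ := hy
      refine ⟨gqmk x 𝔭 h, ?_, hψmk h⟩
      rw [mem_gr]
      exact ⟨h, hh, rfl⟩)
    (by
      intro m y hy
      rw [mem_gr] at hy
      obtain ⟨h, hh, rfl⟩ := hy
      rw [hψmk, gqmk_eq_zero]
      constructor
      · intro h1
        rw [h𝔟, Submodule.mem_sup] at h1
        obtain ⟨a, ha, b', hb', hab⟩ := h1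
        obtain ⟨b, rfl⟩ := Ideal.mem_span_singleton'.1 hb'
        refine ⟨gqmk x 𝔠 (hcZ (m - e) b), ?_, ?_⟩
        · rw [mem_gr]
          exact ⟨_, hcZ_HD _ _, rfl⟩
        · rw [hφmk, ← hcZ_mul hf]
          have h2 : h = hcZ m a + hcZ m (f * b) := by
            rw [← hcZ_add, mul_comm f b, hab, hcZ_of_HD hh]
          conv_rhs => rw [h2]
          rw [gqmk_add, (gqmk_eq_zero x 𝔭 (hcZ m a)).2 (hcZ_mem hp ha m), zero_add]
      · rintro ⟨y, hy, hy2⟩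
        obtain ⟨g, rfl⟩ := gqmk_surj x 𝔠 y
        rw [hφmk] at hy2
        have h3 : h - f * g ∈ 𝔭 := by
          rw [← gqmk_eq_zero x 𝔭]
          have : gqmk x 𝔭 (h - f * g) = gqmk x 𝔭 h - gqmk x 𝔭 (f * g) :=
            (Ideal.Quotient.mk 𝔭).map_sub h (f * g)
          rw [this, hy2, sub_self]
        have h4 : h = (h - f * g) + f * g := by ring
        rw [h4]
        exact 𝔟.add_mem (hle h3)
          (𝔟.mul_mem_right g (le_sup_right (a := 𝔭) (Ideal.mem_span_singleton_self f))))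
    n (d + e)
  rw [add_sub_cancel_right] at main
  obtain ⟨F, G, hS, hF⟩ := main
  refine ⟨F, G, hS, fun v j g hg => ?_⟩
  rw [hF, hg, hφmk]


/-- an ideal is big when it is homogeneous and the family does not vanish eventually -/
def Big [Finite E] (s : RankFn k E) {r : ℕ} (x : Fin r → (E →* Multiplicative (ZMod p))) (q : ℕ)
    (𝔞 : Ideal (MvPolynomial (Fin r) k)) : Prop :=
  HomIdeal 𝔞 ∧ ∀ d₀ : ℤ, ∃ d ≥ d₀, s.val ((gq (k := k) x 𝔞).XM q d) ≠ 0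

lemma homIdeal_bot {r : ℕ} : HomIdeal (⊥ : Ideal (MvPolynomial (Fin r) k)) := by
  intro f hf n
  rw [Ideal.mem_bot] at hf ⊢
  rw [hf, map_zero]

lemma homIdeal_sup {r : ℕ} {𝔭 : Ideal (MvPolynomial (Fin r) k)} (hp : HomIdeal 𝔭)
    {f : MvPolynomial (Fin r) k} {e : ℕ} (hf : f.IsHomogeneous e) :
    HomIdeal (𝔭 ⊔ Ideal.span {f}) := by
  intro h hh n
  rw [Submodule.mem_sup] at hh
  obtain ⟨a, ha, b', hb', rfl⟩ := hh
  obtain ⟨b, rfl⟩ := Ideal.mem_span_singleton'.1 hb'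
  rw [map_add, mul_comm b f, homComp_mul hf]
  refine Ideal.add_mem _ (le_sup_left (a := 𝔭) (hp a ha n)) ?_
  split_ifs
  · exact Ideal.mul_mem_right _ _ (le_sup_right (a := 𝔭) (Ideal.mem_span_singleton_self f))
  · exact Ideal.zero_mem _

/-- the colon ideal -/
def col {r : ℕ} (𝔭 : Ideal (MvPolynomial (Fin r) k)) (f : MvPolynomial (Fin r) k) :
    Ideal (MvPolynomial (Fin r) k) where
  carrier := {g | f * g ∈ 𝔭}
  zero_mem' := by simp
  add_mem' := by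
    intro a b ha hb
    change f * (a + b) ∈ 𝔭
    rw [mul_add]
    exact 𝔭.add_mem ha hb
  smul_mem' := by
    intro c a ha
    change f * (c * a) ∈ 𝔭
    have h1 : f * (c * a) = c * (f * a) := by ring
    rw [h1]
    exact 𝔭.mul_mem_left c ha

lemma mem_col {r : ℕ} {𝔭 : Ideal (MvPolynomial (Fin r) k)} {f g : MvPolynomial (Fin r) k} :
    g ∈ col 𝔭 f ↔ f * g ∈ 𝔭 := Iff.rfl

lemma homIdeal_col {r : ℕ} {𝔭 : Ideal (MvPolynomial (Fin r) k)} (hp : HomIdeal 𝔭)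
    {f : MvPolynomial (Fin r) k} {e : ℕ} (hf : f.IsHomogeneous e) :
    HomIdeal (col 𝔭 f) := by
  intro g hg n
  rw [mem_col] at hg ⊢
  have h1 := hp _ hg (n + e)
  rw [homComp_mul hf, if_pos (by omega), Nat.add_sub_cancel] at h1
  exact h1

section Prime

attribute [local instance] MvPolynomial.gradedAlgebra

/-- a homogeneous ideal with the homogeneous primality property is prime -/
lemma prime_of_hom {r : ℕ} {𝔭 : Ideal (MvPolynomial (Fin r) k)} (hp : HomIdeal 𝔭) (htop : 𝔭 ≠ ⊤)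
    (h : ∀ (e : ℕ) (f : MvPolynomial (Fin r) k), f.IsHomogeneous e → f ∉ 𝔭 → ∀ g, f * g ∈ 𝔭 →
      g ∈ 𝔭) : 𝔭.IsPrime := by
  have hI : 𝔭.IsHomogeneous (MvPolynomial.homogeneousSubmodule (Fin r) k) := by
    intro i f hf
    have h1 := hp f hf i
    rw [← MvPolynomial.decomposition.decompose'_apply] at h1
    exact h1
  refine hI.isPrime_of_homogeneous_mem_or_mem htop ?_
  rintro a b ⟨i, ha⟩ _ hab
  by_cases h1 : a ∈ 𝔭
  · exact Or.inl h1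
  · exact Or.inr (h i a ha h1 b hab)

end Prime

lemma val_zero_of [Finite E] (s : RankFn k E) {r : ℕ}
    (x : Fin r → (E →* Multiplicative (ZMod p))) (q : ℕ)
    (𝔭 : Ideal (MvPolynomial (Fin r) k)) (d : ℤ)
    (h : ∀ j : ℕ, j < q → ∀ f : MvPolynomial (Fin r) k, HD f (d - j) → f ∈ 𝔭) :
    s.val ((gq (k := k) x 𝔭).XM q d) = 0 := by
  apply s.val_of_finrank_zero
  apply xm_zero
  intro j hj
  rw [eq_bot_iff]
  intro y hy
  rw [mem_gr] at hy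
  obtain ⟨f, hf, rfl⟩ := hy
  rw [(gqmk_eq_zero x 𝔭 f).2 (h j hj f hf)]
  exact Submodule.zero_mem _

/-- multiplication by the class of `f` -/
def IsMul {r : ℕ} (x : Fin r → (E →* Multiplicative (ZMod p)))
    (𝔭 : Ideal (MvPolynomial (Fin r) k)) (q : ℕ) (f : MvPolynomial (Fin r) k) {d d' : ℤ}
    (φ : ((gq x 𝔭).XM q d).V →ₗ[k] ((gq x 𝔭).XM q d').V) : Prop :=
  ∀ v, ((φ v).1 : (gq x 𝔭).R[X]) = C (gqmk x 𝔭 f) * v.1

lemma IsMul.isH {r : ℕ} {x : Fin r → (E →* Multiplicative (ZMod p))}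
    {𝔭 : Ideal (MvPolynomial (Fin r) k)} {q : ℕ} {f : MvPolynomial (Fin r) k} {d d' : ℤ}
    {φ : ((gq x 𝔭).XM q d).V →ₗ[k] ((gq x 𝔭).XM q d').V} (hφ : IsMul x 𝔭 q f φ) :
    IsH ((gq x 𝔭).XM q d) ((gq x 𝔭).XM q d') φ := by
  intro g v
  apply Subtype.ext
  rw [hφ]
  change C (gqmk x 𝔭 f) * taylor ((gq x 𝔭).lam g).toAdd v.1 =
    taylor ((gq x 𝔭).lam g).toAdd (φ v).1
  rw [hφ, taylor_mul, taylor_C]

lemma IsMul.ext {r : ℕ} {x : Fin r → (E →* Multiplicative (ZMod p))}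
    {𝔭 : Ideal (MvPolynomial (Fin r) k)} {q : ℕ} {f : MvPolynomial (Fin r) k} {d d' : ℤ}
    {φ ψ : ((gq x 𝔭).XM q d).V →ₗ[k] ((gq x 𝔭).XM q d').V} (hφ : IsMul x 𝔭 q f φ)
    (hψ : IsMul x 𝔭 q f ψ) : φ = ψ := by
  apply LinearMap.ext
  intro v
  apply Subtype.ext
  rw [hφ, hψ]

lemma IsMul.comp {r : ℕ} {x : Fin r → (E →* Multiplicative (ZMod p))}
    {𝔭 : Ideal (MvPolynomial (Fin r) k)} {q : ℕ} {f g : MvPolynomial (Fin r) k} {d d' d'' : ℤ}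
    {φ : ((gq x 𝔭).XM q d).V →ₗ[k] ((gq x 𝔭).XM q d').V}
    {ψ : ((gq x 𝔭).XM q d').V →ₗ[k] ((gq x 𝔭).XM q d'').V} (hφ : IsMul x 𝔭 q f φ)
    (hψ : IsMul x 𝔭 q g ψ) : IsMul x 𝔭 q (g * f) (ψ ∘ₗ φ) := by
  intro v
  rw [LinearMap.comp_apply, hψ, hφ, gqmk_mul, C_mul, mul_assoc]

/-- the consequences of maximality -/
lemma key [Finite E] (hE : IsPGroup p E) (s : RankFn k E) {r : ℕ}
    (x : Fin r → (E →* Multiplicative (ZMod p))) (q : ℕ) (𝔭 : Ideal (MvPolynomial (Fin r) k))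
    (hp : Big s x q 𝔭) (hmax : ∀ 𝔟, Big s x q 𝔟 → ¬ 𝔭 < 𝔟) (e : ℕ)
    (f : MvPolynomial (Fin r) k) (hf : f.IsHomogeneous e) (hfp : f ∉ 𝔭) :
    (∀ g, f * g ∈ 𝔭 → g ∈ 𝔭) ∧
    (∀ d d' : ℤ, d' = d + e → ∃ φ : ((gq x 𝔭).XM q d).V →ₗ[k] ((gq x 𝔭).XM q d').V,
      IsMul x 𝔭 q f φ) ∧
    ∃ d₀ : ℤ, ∀ d ≥ d₀, ∀ d' : ℤ, d' = d + e →
      s.val ((gq x 𝔭).XM q d) = s.val ((gq x 𝔭).XM q d') ∧
      ∀ φ : ((gq x 𝔭).XM q d).V →ₗ[k] ((gq x 𝔭).XM q d').V, IsMul x 𝔭 q f φ →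
        s.s ((gq x 𝔭).XM q d) ((gq x 𝔭).XM q d') φ = s.val ((gq x 𝔭).XM q d') := by
  have h1 : ¬ Big s x q (𝔭 ⊔ Ideal.span {f}) := by
    intro hb
    refine hmax _ hb ?_
    rw [left_lt_sup]
    intro hle
    exact hfp (hle (Ideal.mem_span_singleton_self f))
  have h2 : ∃ d₀ : ℤ, ∀ d ≥ d₀, s.val ((gq x (𝔭 ⊔ Ideal.span {f})).XM q d) = 0 := by
    by_contra hcon
    apply h1
    refine ⟨homIdeal_sup hp.1 hf, fun d₀ => ?_⟩
    by_contra hcon2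
    apply hcon
    refine ⟨d₀, fun d hd => ?_⟩
    by_contra hcon3
    exact hcon2 ⟨d, hd, hcon3⟩
  obtain ⟨d₀, hd₀⟩ := h2
  have h3 : ∀ d ≥ d₀, s.val ((gq x (col 𝔭 f)).XM q d) = s.val ((gq x 𝔭).XM q (d + e)) := by
    intro d hd
    obtain ⟨F, G, hS, -⟩ := ses_mul x 𝔭 (col 𝔭 f) hp.1 f e hf (fun g => mem_col) q d
    exact (s.ses_null_r hE hS (hd₀ (d + e) (by omega))).1
  have h4 : Big s x q (col 𝔭 f) := by
    refine ⟨homIdeal_col hp.1 hf, fun d₁ => ?_⟩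
    obtain ⟨d, hd, hne⟩ := hp.2 (max d₀ d₁ + e)
    refine ⟨d - e, ?_, ?_⟩
    · have := le_max_right d₀ d₁
      change d₁ ≤ d - e
      linarith
    · rw [h3 (d - e) (by
        have := le_max_left d₀ d₁
        change d₀ ≤ d - e
        linarith), sub_add_cancel]
      exact hne
  have h5 : 𝔭 ≤ col 𝔭 f := fun g hg => 𝔭.mul_mem_left f hg
  have h6 : col 𝔭 f = 𝔭 := by
    by_contra hne
    exact hmax _ h4 (lt_of_le_of_ne h5 (Ne.symm hne))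
  have h7 : ∀ g, g ∈ 𝔭 ↔ f * g ∈ 𝔭 := by
    intro g
    rw [← mem_col, h6]
  have h8 : ∀ d : ℤ, ∃ F : ((gq x 𝔭).XM q d).V →ₗ[k] ((gq x 𝔭).XM q (d + e)).V,
      IsMul x 𝔭 q f F ∧ (d ≥ d₀ → s.val ((gq x 𝔭).XM q d) = s.val ((gq x 𝔭).XM q (d + e)) ∧
        s.s ((gq x 𝔭).XM q d) ((gq x 𝔭).XM q (d + e)) F = s.val ((gq x 𝔭).XM q (d + e))) := by
    intro d
    obtain ⟨F, G, hS, hF⟩ := ses_mul x 𝔭 𝔭 hp.1 f e hf h7 q d
    refine ⟨F, ?_, fun hd => s.ses_null_r hE hS (hd₀ (d + e) (by omega))⟩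
    intro v
    apply Polynomial.ext
    intro j
    obtain ⟨g, hg⟩ := gqmk_surj x 𝔭 ((v.1 : (gq x 𝔭).R[X]).coeff j)
    rw [hF v j g hg.symm, coeff_C_mul, ← hg, gqmk_mul]
  refine ⟨fun g hg => (h7 g).2 hg, ?_, d₀, ?_⟩
  · rintro d d' rfl
    obtain ⟨F, hF, -⟩ := h8 d
    exact ⟨F, hF⟩
  · rintro d hd d' rfl
    obtain ⟨F, hF, h9⟩ := h8 d
    refine ⟨(h9 hd).1, fun φ hφ => ?_⟩
    rw [hφ.ext hF]
    exact (h9 hd).2

end BNAux

open BNAux

variable [Finite E]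

/-- what the Noetherian induction produces -/
def PrimeData (s : RankFn k E) {r : ℕ} (x : Fin r → (E →* Multiplicative (ZMod p))) (q : ℕ)
    (𝔭 : Ideal (MvPolynomial (Fin r) k)) (c : ℝ) (d₁ : ℤ) : Prop :=
  𝔭.IsPrime ∧ HomIdeal 𝔭 ∧
  (∃ i, MvPolynomial.X i ∉ 𝔭) ∧ 0 < c ∧
  (∀ d ≥ d₁, s.val ((gq x 𝔭).XM q d) = c) ∧
  ∀ (e : ℕ) (f : MvPolynomial (Fin r) k), f.IsHomogeneous e → f ∉ 𝔭 → ∀ d ≥ d₁,
    ∀ φ : ((gq x 𝔭).XM q d).V →ₗ[k] ((gq x 𝔭).XM q (d + e)).V,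
      (∀ v, ((φ v).1 : (gq x 𝔭).R[X]) = C (gqmk x 𝔭 f) * v.1) →
      s.s ((gq x 𝔭).XM q d) ((gq x 𝔭).XM q (d + e)) φ = c

theorem exists_prime (hE : IsPGroup p E) (s : RankFn k E) (hs : s.Shift) {r : ℕ}
    (x : Fin r → (E →* Multiplicative (ZMod p))) (q : ℕ)
    (h : ∀ d₀ : ℤ, ∃ d ≥ d₀, s.val ((gq (k := k) x ⊥).XM q d) ≠ 0) :
    ∃ (𝔭 : Ideal (MvPolynomial (Fin r) k)) (c : ℝ) (d₁ : ℤ), PrimeData s x q 𝔭 c d₁ := by
  classical
  obtain ⟨(𝔭 : Ideal (MvPolynomial (Fin r) k)), hp, hmax⟩ := set_has_maximal_iff_noetherian.2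
    (inferInstance : IsNoetherian (MvPolynomial (Fin r) k) (MvPolynomial (Fin r) k))
    {𝔞 : Ideal (MvPolynomial (Fin r) k) | Big s x q 𝔞} ⟨⊥, homIdeal_bot, h⟩
  have hp : Big s x q 𝔭 := hp
  have hmax : ∀ 𝔟, Big s x q 𝔟 → ¬ 𝔭 < 𝔟 := fun 𝔟 hb => hmax 𝔟 hb
  have hkey := key hE s x q 𝔭 hp hmax
  have htop : 𝔭 ≠ ⊤ := by
    rintro rfl
    obtain ⟨d, -, hd⟩ := hp.2 0
    exact hd (val_zero_of s x q _ d (fun _ _ _ _ => Submodule.mem_top))
  have hprime : 𝔭.IsPrime := prime_of_hom hp.1 htop (fun e f hf hfp g hg =>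
    (hkey e f hf hfp).1 g hg)
  have hX : ∃ i, MvPolynomial.X i ∉ 𝔭 := by
    by_contra hcon
    push Not at hcon
    obtain ⟨d, hd, hne⟩ := hp.2 q
    apply hne
    apply val_zero_of
    intro j hj f hf
    rcases hf with ⟨h0, hf⟩ | rfl
    · have h1 : f ∈ Ideal.span ((MvPolynomial.X : Fin r → MvPolynomial (Fin r) k) '' Set.univ) := by
        rw [MvPolynomial.mem_ideal_span_X_image]
        intro m hm
        have h2 := hf (MvPolynomial.mem_support_iff.1 hm)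
        by_contra hcon2
        push Not at hcon2
        have h3 : m = 0 := by
          ext i
          exact hcon2 i (Set.mem_univ i)
        rw [h3, map_zero] at h2
        omega
      refine Ideal.span_le.2 ?_ h1
      rintro _ ⟨i, -, rfl⟩
      exact hcon i
    · exact 𝔭.zero_mem
  obtain ⟨i, hi⟩ := hX
  obtain ⟨-, -, d₁, hd₁⟩ := hkey 1 (MvPolynomial.X i) (MvPolynomial.isHomogeneous_X k i) hi
  set c := s.val ((gq x 𝔭).XM q d₁) with hc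
  have hval : ∀ d ≥ d₁, s.val ((gq x 𝔭).XM q d) = c := by
    intro d hd
    induction d, hd using Int.leInduction with
    | base => rfl
    | succ d hd ih => rw [← (hd₁ d hd (d + 1) (by simp)).1, ih]
  have hc0 : 0 < c := by
    obtain ⟨d, hd, hne⟩ := hp.2 d₁
    rw [hval d hd] at hne
    exact lt_of_le_of_ne (s.val_nonneg _) (Ne.symm hne)
  have hpow : ∀ (n : ℕ) (d d' : ℤ), d ≥ d₁ → d' = d + n →
      ∃ φ : ((gq x 𝔭).XM q d).V →ₗ[k] ((gq x 𝔭).XM q d').V,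
        IsMul x 𝔭 q ((MvPolynomial.X i) ^ n) φ ∧
        s.s ((gq x 𝔭).XM q d) ((gq x 𝔭).XM q d') φ = c := by
    intro n
    induction n with
    | zero =>
      intro d d' hd hd'
      obtain rfl : d' = d := by simpa using hd'
      refine ⟨LinearMap.id, ?_, hval d' hd⟩
      intro v
      have h1 : gqmk x 𝔭 (MvPolynomial.X i ^ 0) = 1 := by
        rw [pow_zero]
        exact (Ideal.Quotient.mk 𝔭).map_one
      rw [h1, C_1, one_mul]
      rfl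
    | succ n ih =>
      intro d d' hd hd'
      obtain ⟨φ, hφ, hφs⟩ := ih d (d + n) hd rfl
      obtain ⟨ψ, hψ⟩ := (hkey 1 (MvPolynomial.X i) (MvPolynomial.isHomogeneous_X k i) hi).2.1
        (d + n) d' (by push_cast at hd' ⊢; linarith)
      have hψs := (hd₁ (d + n) (by omega) d' (by push_cast at hd' ⊢; linarith)).2 ψ hψ
      refine ⟨ψ ∘ₗ φ, ?_, ?_⟩
      · have := hφ.comp hψ
        rwa [← pow_succ'] at this
      · have h1 := s.sylv hφ.isH hψ.isH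
        have h2 := s.comp_le_r _ _ _ φ ψ hφ.isH hψ.isH
        rw [hval d' (by omega)] at hψs
        rw [hval (d + n) (by omega)] at h1
        linarith
  refine ⟨𝔭, c, d₁, hprime, hp.1, ⟨i, hi⟩, hc0, hval, ?_⟩
  intro e f hf hfp d hd φ hφ
  have hφ' : IsMul x 𝔭 q f φ := hφ
  obtain ⟨-, hex, d₂, hd₂⟩ := hkey e f hf hfp
  obtain ⟨n, hn⟩ : ∃ n : ℕ, d + n ≥ d₂ := ⟨(d₂ - d).toNat, by omega⟩
  obtain ⟨α, hα, hαs⟩ := hpow n d (d + n) hd rfl
  obtain ⟨β, hβ⟩ := hex (d + n) (d + n + e) rfl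
  have hβs := (hd₂ (d + n) hn (d + n + e) rfl).2 β hβ
  rw [hval _ (by omega)] at hβs
  obtain ⟨γ, hγ, -⟩ := hpow n (d + e) (d + n + e) (by omega) (by ring)
  have heq : γ ∘ₗ φ = β ∘ₗ α := by
    have h1 := hφ'.comp hγ
    have h2 := hα.comp hβ
    rw [mul_comm] at h2
    exact h1.ext h2
  have h1 := s.sylv hα.isH hβ.isH
  have h2 := s.comp_le_r _ _ _ φ γ hφ'.isH hγ.isH
  have h3 := s.le_dom hφ'.isH
  rw [hval _ (by omega)] at h1 h3
  rw [heq] at h2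
  apply le_antisymm h3
  linarith

end Pool.Agent.GamI
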