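import Pool.Agent.GamI.RQ
import Pool.Agent.GamI.CP
import Pool.Agent.GamI.CR
import Pool.Agent.GamI.CV

/-! # BS: symmetrising a rank functional under the shift -/

set_option autoImplicit false

open scoped TensorProduct
open Module

noncomputable section

namespace Pool.Agent.GamI

private lemma BS_fun {p : ℕ} [Fact p.Prime] {V : Type} [AddCommGroup V] [Nontrivial V]
    [Module (ZMod p) V] : ∃ F : V →+ ZMod p, Function.Surjective F := by
  obtain ⟨x, hx⟩ := exists_ne (0 : V)
  have h1 : ¬ ∀ φ : Dual (ZMod p) V, φ x = 0 := fun h =>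
    hx ((Module.forall_dual_apply_eq_zero_iff (ZMod p) x).1 h)
  push Not at h1
  obtain ⟨φ, hφ⟩ := h1
  refine ⟨φ.toAddMonoidHom, ?_⟩
  intro c
  refine ⟨(c * (φ x)⁻¹) • x, ?_⟩
  change φ ((c * (φ x)⁻¹) • x) = c
  rw [map_smul, smul_eq_mul, mul_assoc, inv_mul_cancel₀ hφ, mul_one]

private lemma BS_char {p : ℕ} [Fact p.Prime] {k : Type} [Field k] [CharP k p] {E : Type}
    [CommGroup E] [Finite E] [Nontrivial E] (hE : ∀ e : E, e ^ p = 1) :
    ∃ χ : E →* Multiplicative k, Nat.card (E ⧸ χ.ker) = p := by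
  letI : Module (ZMod p) (Additive E) := AddCommGroup.zmodModule (fun x => by
    have := hE x.toMul
    change Additive.ofMul (x.toMul ^ p) = 0
    rw [this]
    rfl)
  obtain ⟨φ, hsurj⟩ := BS_fun (p := p) (V := Additive E)
  let ψ : ZMod p →+* k := ZMod.castHom (dvd_refl p) k
  have hψ : Function.Injective ψ := ψ.injective
  let F : Additive E →+ k := (ψ : ZMod p →+ k).comp φ
  let χ : E →* Multiplicative k := AddMonoidHom.toMultiplicativeRight F
  refine ⟨χ, ?_⟩
  have e1 : Nat.card (E ⧸ χ.ker) = Nat.card χ.range :=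
    Nat.card_congr (QuotientGroup.quotientKerEquivRange χ).toEquiv
  rw [e1]
  have e2 : Nat.card (ZMod p) = p := Nat.card_zmod p
  refine Eq.trans ?_ e2
  symm
  apply Nat.card_congr
  refine Equiv.ofBijective (fun c : ZMod p => ⟨Multiplicative.ofAdd (ψ c), ?_⟩) ⟨?_, ?_⟩
  · obtain ⟨y, hy⟩ := hsurj c
    refine ⟨y.toMul, ?_⟩
    change Multiplicative.ofAdd (ψ (φ y)) = Multiplicative.ofAdd (ψ c)
    rw [hy]
  · intro a b hab
    have := congrArg (fun z : χ.range => (z : Multiplicative k).toAdd) hab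
    exact hψ this
  · rintro ⟨_, ⟨y, rfl⟩⟩
    exact ⟨φ (Additive.ofMul y), rfl⟩

section

variable {p : ℕ} [Fact p.Prime] {k : Type} [Field k] [CharP k p] {E : Type}
    [CommGroup E] [Finite E]

/-- the two sequences through the pullback -/
private lemma BS_pull {A B C J Q : Mo k E} {f : A.V →ₗ[k] B.V} {g : B.V →ₗ[k] C.V}
    (h : IsSES A B C f g) {j : J.V →ₗ[k] Q.V} {u : Q.V →ₗ[k] C.V} (hu : IsSES J Q C j u) :
    ∃ (Z : Mo k E) (i : A.V →ₗ[k] Z.V) (q : Z.V →ₗ[k] Q.V) (i' : J.V →ₗ[k] Z.V)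
      (v : Z.V →ₗ[k] B.V), IsSES A Z Q i q ∧ IsSES J Z B i' v := by
  obtain ⟨Z, i, q, v, hZ, hv, hgv, hvi, hsv, hinj⟩ := ses_pullback h u hu.hg
  have hsurjv := hsv hu.surj
  obtain ⟨A', f', hA'⟩ := ses_ker v hv hsurjv
  -- the map A' → J
  have hmem : ∀ x : A'.V, q (f' x) ∈ LinearMap.range j := by
    intro x
    rw [hu.exact, LinearMap.mem_ker]
    have h1 : v (f' x) = 0 := by
      rw [← LinearMap.mem_ker, ← hA'.exact]
      exact ⟨x, rfl⟩
    have h2 := LinearMap.congr_fun hgv (f' x)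
    change g (v (f' x)) = u (q (f' x)) at h2
    rw [← h2, h1, map_zero]
  let e : A'.V →ₗ[k] J.V := (LinearEquiv.ofInjective j hu.inj).symm.toLinearMap ∘ₗ
    (LinearMap.codRestrict (LinearMap.range j) (q ∘ₗ f') hmem)
  have he : ∀ x, j (e x) = q (f' x) := by
    intro x
    have := LinearEquiv.apply_symm_apply (LinearEquiv.ofInjective j hu.inj)
      (⟨q (f' x), hmem x⟩ : LinearMap.range j)
    exact congrArg Subtype.val this
  have heH : IsH A' J e := by
    intro g' x
    apply hu.inj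
    rw [he, hu.hf, he, hA'.hf, hZ.hg]
  have heinj : Function.Injective e := by
    rw [← LinearMap.ker_eq_bot, LinearMap.ker_eq_bot']
    intro x hx
    have h1 : q (f' x) = 0 := by rw [← he, hx, map_zero]
    have h2 : v (f' x) = 0 := by
      rw [← LinearMap.mem_ker, ← hA'.exact]
      exact ⟨x, rfl⟩
    have h3 := hinj _ h2 h1
    exact hA'.inj (by rw [h3, map_zero])
  have hdim : finrank k A'.V = finrank k J.V := by
    have d1 := hZ.finrank
    have d2 := hA'.finrank
    have d3 := h.finrank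
    have d4 := hu.finrank
    omega
  have hebij : Function.Bijective e :=
    ⟨heinj, (LinearMap.injective_iff_surjective_of_finrank_eq_finrank hdim).1 heinj⟩
  have hiso : Iso A' J := iso_of_bij e heH hebij
  let E' : A'.V ≃ₗ[k] J.V := LinearEquiv.ofBijective e hebij
  have hE' : IsH A' J E'.toLinearMap := heH
  refine ⟨Z, i, q, f' ∘ₗ E'.symm.toLinearMap, v, hZ, ?_⟩
  refine ⟨IsH.comp hA'.hf (IsH.symm hE'), hA'.hg, ?_, hA'.surj, ?_⟩
  · exact hA'.inj.comp E'.symm.injective
  · rw [← hA'.exact]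
    apply le_antisymm
    · rintro _ ⟨x, rfl⟩
      exact ⟨E'.symm x, rfl⟩
    · rintro _ ⟨x, rfl⟩
      exact ⟨E' x, by
        change f' (E'.symm (E' x)) = f' x
        rw [E'.symm_apply_apply]⟩

end

theorem shift_exists {p : ℕ} [Fact p.Prime] {k : Type} [Field k] [CharP k p] {E : Type}
    [CommGroup E] [Finite E] [Nontrivial E] (hE : ∀ e : E, e ^ p = 1) (M : Mo k E) (γ : ℝ)
    (s : RankFn k E) (h0 : 0 < s.val (triv k E)) (hn : s.NullPerm) (he : s.Eig M γ) :
    ∃ s' : RankFn k E, 0 < s'.val (triv k E) ∧ s'.NullPerm ∧ s'.Eig M γ ∧ s'.Shift := by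
  have hp := (Fact.out : p.Prime)
  have hG : IsPGroup p E := fun g => ⟨1, by rw [pow_one]; exact hE g⟩
  obtain ⟨χ, hχ⟩ := BS_char (p := p) (k := k) hE
  have hker : χ.ker ≠ ⊤ := by
    intro h
    rw [h] at hχ
    have h1 : Nat.card (E ⧸ (⊤ : Subgroup E)) = 1 := by
      rw [← Subgroup.index_eq_card, Subgroup.index_top]
    rw [h1] at hχ
    exact hp.one_lt.ne hχ
  set J : Mo k E := Pm (p - 1) χ with hJ
  set Q : Mo k E := Pm p χ with hQ
  have hQ0 : s.val Q = 0 := by
    obtain ⟨θ, hθ, h1⟩ := relProj_P (p := p) (K := k) E χ 1 (by rw [hχ, pow_one])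
    have h2 := s.rel_null hG hn χ.ker hker θ hθ h1
    have h3 : (Pm (p ^ 1) χ : Mo k E) = Q := by rw [hQ, pow_one]
    rw [h3] at h2
    exact h2
  have hXQ : ∀ X : Mo k E, s.val (X.tens Q) = 0 := fun X => s.null_tens' hG hQ0 X
  -- the two basic sequences
  have hone : Iso (Pm 1 χ : Mo k E) (triv k E) := by
    have h1 := (iso_P_one k).res χ
    rw [res_triv] at h1
    exact h1
  have hP1 : ∀ X : Mo k E, Iso (X.tens (Pm 1 χ : Mo k E)) X := fun X =>
    ((Iso.refl X).tens hone).trans (iso_tens_triv X)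
  have seqA : ∀ X : Mo k E, ∃ (f : X.V →ₗ[k] (X.tens Q).V) (g : (X.tens Q).V →ₗ[k] (X.tens J).V),
      IsSES X (X.tens Q) (X.tens J) f g := by
    intro X
    have h0 := pses_comp p k (p - 1) (Nat.sub_le p 1)
    have h1 : p - (p - 1) = 1 := by have := hp.one_lt; omega
    rw [h1] at h0
    obtain ⟨f, g, h⟩ := h0
    exact ((h.res χ).lT X).of_iso (hP1 X) (Iso.refl _) (Iso.refl _)
  have seqB : ∀ X : Mo k E, ∃ (f : (X.tens J).V →ₗ[k] (X.tens Q).V) (g : (X.tens Q).V →ₗ[k] X.V),
      IsSES (X.tens J) (X.tens Q) X f g := by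
    intro X
    obtain ⟨f, g, h⟩ := pses_comp p k 1 hp.one_lt.le
    exact ((h.res χ).lT X).of_iso (Iso.refl _) (Iso.refl _) (hP1 X)
  have hJJ : ∀ X : Mo k E, s.val ((X.tens J).tens J) = s.val X := by
    intro X
    obtain ⟨f1, g1, h1⟩ := seqA X
    obtain ⟨f2, g2, h2⟩ := seqB (X.tens J)
    exact s.shift_unique hG h2 h1 (hXQ _) (hXQ _)
  have star : ∀ (A B C : Mo k E) (f : A.V →ₗ[k] B.V) (g : B.V →ₗ[k] C.V), IsSES A B C f g →
      s.val A ≤ s.val (C.tens J) + s.val B := by
    intro A B C f g h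
    obtain ⟨j, u, hu⟩ := seqB C
    obtain ⟨Z, i, q, i', v, hZ, hZ'⟩ := BS_pull h hu
    rw [(s.ses_null_r hG hZ (hXQ _)).1]
    exact s.ses_val hZ'
  have star2 : ∀ (A B C : Mo k E) (f : A.V →ₗ[k] B.V) (g : B.V →ₗ[k] C.V), IsSES A B C f g →
      s.val (C.tens J) ≤ s.val A + s.val (B.tens J) := by
    intro A B C f g h
    obtain ⟨j, u, hu⟩ := seqB C
    obtain ⟨Z, i, q, i', v, hZ, hZ'⟩ := BS_pull h hu
    rw [(s.ses_null_r hG hZ (hXQ _)).1, add_comm]
    exact star _ _ _ _ _ hZ'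
  obtain ⟨s', hs'⟩ := s.exists_tens J
  have hval : ∀ X : Mo k E, s'.val X = s.val X + s.val (X.tens J) := by
    intro X
    rw [RankFn.val, hs']
    congr 1
    rw [LinearMap.rTensor_id]
    rfl
  refine ⟨s', ?_, ?_, ?_, ?_⟩
  · rw [hval]
    have := s.val_nonneg ((triv k E).tens J)
    linarith
  · intro K hK
    rw [hval, hn K hK, s.null_tens hG (hn K hK), add_zero]
  · intro A B f hf
    rw [hs', hs', he A B f hf, mul_add]
    congr 1
    rw [← he (A.tens J) (B.tens J) (f.rTensor J.V) (hf.rT J)]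
    have hAe : IsH ((A.tens M).tens J) ((A.tens J).tens M)
        (TensorProduct.rightComm k A.V M.V J.V).toLinearMap := by
      intro g v
      change (TensorProduct.rightComm k A.V M.V J.V).toLinearMap
        ((TensorProduct.map (TensorProduct.map (A.ρ g) (M.ρ g)) (J.ρ g)) v) =
        (TensorProduct.map (TensorProduct.map (A.ρ g) (J.ρ g)) (M.ρ g))
        ((TensorProduct.rightComm k A.V M.V J.V).toLinearMap v)
      rw [← LinearMap.comp_apply, ← LinearMap.comp_apply]
      congr 1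
      ext a m j
      rfl
    have hBe : IsH ((B.tens M).tens J) ((B.tens J).tens M)
        (TensorProduct.rightComm k B.V M.V J.V).toLinearMap := by
      intro g v
      change (TensorProduct.rightComm k B.V M.V J.V).toLinearMap
        ((TensorProduct.map (TensorProduct.map (B.ρ g) (M.ρ g)) (J.ρ g)) v) =
        (TensorProduct.map (TensorProduct.map (B.ρ g) (J.ρ g)) (M.ρ g))
        ((TensorProduct.rightComm k B.V M.V J.V).toLinearMap v)
      rw [← LinearMap.comp_apply, ← LinearMap.comp_apply]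
      congr 1
      ext a m j
      rfl
    have e1 := s.comp_iso_l (C := (B.tens J).tens M) ((hf.rT M).rT J)
      (TensorProduct.rightComm k B.V M.V J.V) hBe
    have e2 := s.comp_iso_r (A := (A.tens M).tens J) ((hf.rT J).rT M)
      (TensorProduct.rightComm k A.V M.V J.V) hAe
    rw [← e1, ← e2]
    congr 1
    apply TensorProduct.ext_threefold
    intro a m j
    rfl
  · intro A B C f g h
    obtain hJs := h.rT J
    have a1 := star _ _ _ _ _ h
    have a2 := star2 _ _ _ _ _ h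
    have a3 := star _ _ _ _ _ hJs
    have a4 := star2 _ _ _ _ _ hJs
    rw [hJJ] at a3 a4
    rw [hJJ] at a4
    rw [hval, hval, hval]
    constructor <;> linarith

end Pool.Agent.GamI
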