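import Pool.Agent.GamI.Defs3
import Pool.Agent.GamI.TE
import Pool.Agent.GamI.TR
import Pool.Agent.GamI.PG

/-! # CB: stable dimension counts -/

set_option autoImplicit false

open scoped TensorProduct
open Module

noncomputable section

namespace Pool.Agent.GamI

section aux

/-- the rank formula for the restriction of a linear map to a subspace -/
lemma CB_rank {K : Type} [Field K] {V W : Type} [AddCommGroup V] [Module K V] [AddCommGroup W]
    [Module K W] [FiniteDimensional K V] (φ : V →ₗ[K] W) (S : Submodule K V) :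
    finrank K (S.map φ) + finrank K ↥(S ⊓ LinearMap.ker φ) = finrank K S := by
  have h1 := (φ.domRestrict S).finrank_range_add_finrank_ker
  rw [LinearMap.range_domRestrict, LinearMap.ker_domRestrict] at h1
  have h2 : finrank K ↥(S ⊓ LinearMap.ker φ) =
      finrank K ↥((LinearMap.ker φ).submoduleOf S) := by
    have h3 := Submodule.finrank_map_subtype_eq S ((LinearMap.ker φ).submoduleOf S)
    have h4 : S ⊓ LinearMap.ker φ = Submodule.map S.subtype ((LinearMap.ker φ).submoduleOf S) := by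
      unfold Submodule.submoduleOf
      rw [Submodule.map_comap_subtype]
    rw [← h3, h4]
  rw [h2]
  exact h1

lemma CB_rank_inj {K : Type} [Field K] {V W : Type} [AddCommGroup V] [Module K V] [AddCommGroup W]
    [Module K W] [FiniteDimensional K V] (φ : V →ₗ[K] W) (hφ : Function.Injective φ)
    (S : Submodule K V) : finrank K (S.map φ) = finrank K S := by
  have h := CB_rank φ S
  rw [LinearMap.ker_eq_bot.2 hφ, inf_bot_eq, finrank_bot, add_zero] at h
  exact h

end aux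

variable {K : Type} [Field K] {E : Type} [Group E] [Finite E]
variable {U W W' A B C F : Mo K E}

/-- postcomposition as a linear map -/
def CB_post (U : Mo K E) {B C : Mo K E} (g : B.V →ₗ[K] C.V) :
    (U.V →ₗ[K] B.V) →ₗ[K] (U.V →ₗ[K] C.V) where
  toFun ξ := g ∘ₗ ξ
  map_add' _ _ := LinearMap.comp_add _ _ _
  map_smul' _ _ := LinearMap.comp_smul _ _ _

omit [Finite E] in
lemma CB_post_apply (g : B.V →ₗ[K] C.V) (ξ : U.V →ₗ[K] B.V) : CB_post U g ξ = g ∘ₗ ξ := rfl

omit [Finite E] in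
lemma CB_mem_homE {ξ : U.V →ₗ[K] B.V} : ξ ∈ homE U B ↔ IsH U B ξ := Iff.rfl

omit [Finite E] in
lemma CB_post_inj (U : Mo K E) {g : B.V →ₗ[K] C.V} (hg : Function.Injective g) :
    Function.Injective (CB_post U g) := by
  intro a b h
  ext u
  apply hg
  exact LinearMap.congr_fun h u

omit [Finite E] in
lemma CB_post_surj (U : Mo K E) {g : B.V →ₗ[K] C.V} (hg : Function.Surjective g) :
    Function.Surjective (CB_post U g) := by
  intro ζ
  obtain ⟨s, hs⟩ := g.exists_rightInverse_of_surjective (LinearMap.range_eq_top.2 hg)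
  refine ⟨s ∘ₗ ζ, ?_⟩
  rw [CB_post_apply, ← LinearMap.comp_assoc, hs, LinearMap.id_comp]

omit [Finite E] in
lemma CB_map_homE (U : Mo K E) {g : B.V →ₗ[K] C.V} (hg : IsH B C g) :
    (homE U B).map (CB_post U g) ≤ homE U C := by
  rintro _ ⟨ξ, hξ, rfl⟩
  exact IsH.comp hg hξ

lemma CB_post_TrM (U : Mo K E) {g : B.V →ₗ[K] C.V} (hg : IsH B C g) (θ : U.V →ₗ[K] B.V) :
    CB_post U g (TrM U B θ) = TrM U C (CB_post U g θ) := by
  change g ∘ₗ trH ⊤ U B θ = trH ⊤ U C (g ∘ₗ θ)
  rw [trH_comp_l ⊤ θ g (hg.on ⊤)]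

lemma CB_map_TrM_le (U : Mo K E) {g : B.V →ₗ[K] C.V} (hg : IsH B C g) :
    (LinearMap.range (TrM U B)).map (CB_post U g) ≤ LinearMap.range (TrM U C) := by
  rintro _ ⟨_, ⟨θ, rfl⟩, rfl⟩
  exact ⟨CB_post U g θ, (CB_post_TrM U hg θ).symm⟩

lemma CB_map_TrM (U : Mo K E) {g : B.V →ₗ[K] C.V} (hg : IsH B C g)
    (hs : Function.Surjective g) :
    (LinearMap.range (TrM U B)).map (CB_post U g) = LinearMap.range (TrM U C) := by
  refine le_antisymm (CB_map_TrM_le U hg) ?_
  rintro _ ⟨θ, rfl⟩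
  obtain ⟨θ', rfl⟩ := CB_post_surj U hs θ
  exact ⟨TrM U B θ', ⟨θ', rfl⟩, CB_post_TrM U hg θ'⟩

omit [Finite E] in
lemma CB_exact {f : A.V →ₗ[K] B.V} {g : B.V →ₗ[K] C.V} (h : IsSES A B C f g) (U : Mo K E) :
    homE U B ⊓ LinearMap.ker (CB_post U g) = (homE U A).map (CB_post U f) := by
  apply le_antisymm
  · rintro ξ ⟨hξ, hξ0⟩
    have hξ0' : g ∘ₗ ξ = 0 := hξ0
    obtain ⟨r, hr⟩ := f.exists_leftInverse_of_injective (LinearMap.ker_eq_bot.2 h.inj)
    have hfr : f ∘ₗ (r ∘ₗ ξ) = ξ := by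
      ext u
      have h1 : ξ u ∈ LinearMap.ker g := LinearMap.congr_fun hξ0' u
      rw [← h.exact] at h1
      obtain ⟨a, ha⟩ := h1
      change f (r (ξ u)) = ξ u
      rw [← ha]
      have : r (f a) = a := LinearMap.congr_fun hr a
      rw [this]
    refine ⟨r ∘ₗ ξ, ?_, hfr⟩
    intro e u
    apply h.inj
    have h2 : ∀ v, f ((r ∘ₗ ξ) v) = ξ v := fun v => LinearMap.congr_fun hfr v
    rw [h2, h.hf, h2]
    exact hξ e u
  · rintro _ ⟨η, hη, rfl⟩
    refine ⟨IsH.comp h.hf hη, ?_⟩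
    change g ∘ₗ (f ∘ₗ η) = 0
    ext u
    change g (f (η u)) = 0
    have : f (η u) ∈ LinearMap.ker g := by
      rw [← h.exact]
      exact ⟨_, rfl⟩
    exact this

lemma range_TrM_le (U W : Mo K E) : LinearMap.range (TrM U W) ≤ homE U W := by
  rintro _ ⟨θ, rfl⟩
  exact trH_isH θ

lemma CB_rr_le (U W : Mo K E) : rr U W ≤ kk U W :=
  Submodule.finrank_mono (range_TrM_le U W)

lemma nn_add (U W : Mo K E) : nn U W + rr U W = kk U W :=
  Nat.sub_add_cancel (CB_rr_le U W)

lemma kk_iso (U : Mo K E) (h : Iso W W') : kk U W = kk U W' := by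
  obtain ⟨e, he⟩ := h
  have h1 : (homE U W).map (CB_post U e.toLinearMap) = homE U W' := by
    refine le_antisymm (CB_map_homE U he) ?_
    intro ζ hζ
    refine ⟨e.symm.toLinearMap ∘ₗ ζ, IsH.comp he.symm hζ, ?_⟩
    ext u
    exact e.apply_symm_apply (ζ u)
  unfold kk
  rw [← h1, CB_rank_inj _ (CB_post_inj U e.injective)]

lemma rr_iso (U : Mo K E) (h : Iso W W') : rr U W = rr U W' := by
  obtain ⟨e, he⟩ := h
  unfold rr
  rw [← CB_map_TrM U he e.surjective, CB_rank_inj _ (CB_post_inj U e.injective)]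

lemma nn_iso (U : Mo K E) (h : Iso W W') : nn U W = nn U W' := by
  unfold nn
  rw [kk_iso U h, rr_iso U h]

omit [Finite E] in
lemma CB_kk {f : A.V →ₗ[K] B.V} {g : B.V →ₗ[K] C.V} (h : IsSES A B C f g) (U : Mo K E) :
    finrank K ((homE U B).map (CB_post U g)) + kk U A = kk U B := by
  have h1 := CB_rank (CB_post U g) (homE U B)
  rw [CB_exact h U, CB_rank_inj _ (CB_post_inj U h.inj)] at h1
  exact h1

lemma kk_ses {f : A.V →ₗ[K] B.V} {g : B.V →ₗ[K] C.V} (h : IsSES A B C f g) (U : Mo K E) :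
    kk U B ≤ kk U A + kk U C := by
  have h1 := CB_kk h U
  have h2 : finrank K ((homE U B).map (CB_post U g)) ≤ kk U C :=
    Submodule.finrank_mono (CB_map_homE U h.hg)
  omega

lemma rr_ses {f : A.V →ₗ[K] B.V} {g : B.V →ₗ[K] C.V} (h : IsSES A B C f g) (U : Mo K E) :
    rr U A + rr U C ≤ rr U B := by
  have h1 := CB_rank (CB_post U g) (LinearMap.range (TrM U B))
  rw [CB_map_TrM U h.hg h.surj] at h1
  have h2 : (LinearMap.range (TrM U A)).map (CB_post U f) ≤
      LinearMap.range (TrM U B) ⊓ LinearMap.ker (CB_post U g) := by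
    refine le_inf (CB_map_TrM_le U h.hf) ?_
    have h3 : (LinearMap.range (TrM U A)).map (CB_post U f) ≤ (homE U A).map (CB_post U f) :=
      Submodule.map_mono (range_TrM_le U A)
    rw [← CB_exact h U] at h3
    exact h3.trans inf_le_right
  have h3 := Submodule.finrank_mono h2
  rw [CB_rank_inj _ (CB_post_inj U h.inj)] at h3
  unfold rr
  omega

lemma nn_ses {f : A.V →ₗ[K] B.V} {g : B.V →ₗ[K] C.V} (h : IsSES A B C f g) (U : Mo K E) :
    nn U B ≤ nn U A + nn U C := by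
  have h1 := kk_ses h U
  have h2 := rr_ses h U
  have h3 := nn_add U A
  have h4 := nn_add U B
  have h5 := nn_add U C
  omega

/-- lifting criterion -/
lemma kk_eq_iff {f : A.V →ₗ[K] B.V} {g : B.V →ₗ[K] C.V} (h : IsSES A B C f g) (U : Mo K E) :
    kk U B = kk U A + kk U C ↔
      ∀ ζ : U.V →ₗ[K] C.V, IsH U C ζ → ∃ ξ : U.V →ₗ[K] B.V, IsH U B ξ ∧ g ∘ₗ ξ = ζ := by
  have h1 := CB_kk h U
  constructor
  · intro h2
    have h3 : finrank K ((homE U B).map (CB_post U g)) = finrank K (homE U C) := by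
      have : kk U C = finrank K (homE U C) := rfl
      omega
    have h4 := Submodule.eq_of_le_of_finrank_eq (CB_map_homE U h.hg) h3
    intro ζ hζ
    have h5 : ζ ∈ (homE U B).map (CB_post U g) := by
      rw [h4]
      exact hζ
    obtain ⟨ξ, hξ, hξ'⟩ := h5
    exact ⟨ξ, hξ, hξ'⟩
  · intro h2
    have h3 : (homE U B).map (CB_post U g) = homE U C := by
      refine le_antisymm (CB_map_homE U h.hg) ?_
      intro ζ hζ
      obtain ⟨ξ, hξ, hξ'⟩ := h2 ζ hζ
      exact ⟨ξ, hξ, hξ'⟩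
    rw [h3] at h1
    have : kk U C = finrank K (homE U C) := rfl
    omega

lemma lift_of_nn_ge {f : A.V →ₗ[K] B.V} {g : B.V →ₗ[K] C.V} (h : IsSES A B C f g) (U : Mo K E)
    (hn : nn U A + nn U C ≤ nn U B) :
      ∀ ζ : U.V →ₗ[K] C.V, IsH U C ζ → ∃ ξ : U.V →ₗ[K] B.V, IsH U B ξ ∧ g ∘ₗ ξ = ζ := by
  rw [← kk_eq_iff h U]
  have h1 := kk_ses h U
  have h2 := rr_ses h U
  have h3 := nn_add U A
  have h4 := nn_add U B
  have h5 := nn_add U C
  omega

/-- if the middle term is stably invisible -/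
lemma kk_mid {f : A.V →ₗ[K] F.V} {g : F.V →ₗ[K] C.V} (h : IsSES A F C f g) (U : Mo K E)
    (hF : nn U F = 0) : kk U F = kk U A + rr U C := by
  have h1 := CB_kk h U
  have h2 := nn_add U F
  have h3 : finrank K (LinearMap.range (TrM U F)) = finrank K (homE U F) := by
    have e1 : kk U F = finrank K (homE U F) := rfl
    have e2 : rr U F = finrank K (LinearMap.range (TrM U F)) := rfl
    omega
  have h4 := Submodule.eq_of_le_of_finrank_eq (range_TrM_le U F) h3
  rw [← h4, CB_map_TrM U h.hg h.surj] at h1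
  have e1 : rr U C = finrank K (LinearMap.range (TrM U C)) := rfl
  omega

/-- the counting lemma -/
theorem nn_double {L F L' VL VF VL' U : Mo K E}
    {f : L.V →ₗ[K] F.V} {g : F.V →ₗ[K] L'.V} (h : IsSES L F L' f g)
    {f' : VL.V →ₗ[K] VF.V} {g' : VF.V →ₗ[K] VL'.V} (h' : IsSES VL VF VL' f' g')
    {a : L.V →ₗ[K] VL.V} {b : VL.V →ₗ[K] L.V} (h1 : IsSES L VL L a b)
    {a' : F.V →ₗ[K] VF.V} {b' : VF.V →ₗ[K] F.V} (h2 : IsSES F VF F a' b')
    {a'' : L'.V →ₗ[K] VL'.V} {b'' : VL'.V →ₗ[K] L'.V} (h3 : IsSES L' VL' L' a'' b'')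
    (hF : nn U F = 0) (hVF : nn U VF = 0) (hL : kk U VL = 2 * kk U L)
    (hL' : kk U VL' = 2 * kk U L') : nn U VL' = 2 * nn U L' := by
  have e1 := kk_mid h U hF
  have e2 := kk_mid h' U hVF
  have e3 := rr_ses h2 U
  have e4 := kk_ses h2 U
  have e5 := nn_add U F
  have e6 := nn_add U VF
  have e7 := nn_add U VL'
  have e8 := nn_add U L'
  omega

/-- vanishing on the trivial module -/
theorem nn_zero_of_triv {p : ℕ} [Fact p.Prime] [CharP K p] (hE : IsPGroup p E) (U : Mo K E)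
    (h : nn U (triv K E) = 0) (W : Mo K E) : nn U W = 0 := by
  have h1 := pg_le hE (fun A : Mo K E => (nn U A : ℝ)) (by
    intro A hA
    have h2 : kk U A ≤ finrank K (U.V →ₗ[K] A.V) := Submodule.finrank_le _
    rw [Module.finrank_linearMap, hA, mul_zero] at h2
    have h3 := nn_add U A
    have h4 : nn U A = 0 := by omega
    change ((nn U A : ℕ) : ℝ) ≤ 0
    rw [h4, Nat.cast_zero]) (by
    intro A B C f g hs
    have := nn_ses hs U
    exact_mod_cast this) W
  change ((nn U W : ℕ) : ℝ) ≤ (finrank K W.V : ℝ) * ((nn U (triv K E) : ℕ) : ℝ) at h1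
  rw [h, Nat.cast_zero, mul_zero] at h1
  have : nn U W ≤ 0 := by exact_mod_cast h1
  omega

lemma CB_nn_zero_iff (U W : Mo K E) : nn U W = 0 ↔ homE U W ≤ LinearMap.range (TrM U W) := by
  constructor
  · intro h
    have h2 := nn_add U W
    have h3 : finrank K (LinearMap.range (TrM U W)) = finrank K (homE U W) := by
      have e1 : kk U W = finrank K (homE U W) := rfl
      have e2 : rr U W = finrank K (LinearMap.range (TrM U W)) := rfl
      omega
    exact (Submodule.eq_of_le_of_finrank_eq (range_TrM_le U W) h3).ge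
  · intro h
    have h2 : kk U W ≤ rr U W := Submodule.finrank_mono h
    unfold nn
    omega

theorem proj_of_nn (U : Mo K E) (h : nn U U = 0) : Proj U := by
  obtain ⟨θ, hθ⟩ := (CB_nn_zero_iff U U).1 h (show LinearMap.id ∈ homE U U from IsH.id U)
  exact ⟨θ, hθ⟩

theorem nn_proj_l (U W : Mo K E) (h : Proj U) : nn U W = 0 := by
  rw [CB_nn_zero_iff]
  intro f hf
  obtain ⟨θ, hθ⟩ := h
  exact ⟨f ∘ₗ θ, ProjOn.map_eq_tr hθ f (IsH.on hf ⊤)⟩

end Pool.Agent.GamI
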