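import Pool.Agent.GamI.Defs3
import Pool.Agent.GamI.TE

/-! # CE: additive polynomials -/

set_option autoImplicit false

open scoped TensorProduct
open Module Polynomial

noncomputable section

namespace Pool.Agent.GamI

variable {p : ℕ} [Fact p.Prime] {K : Type} [Field K] [CharP K p]

namespace CEAux

/-- the value of an additive polynomial -/
def val (p : ℕ) (a : ℕ → K) (m : ℕ) (t : K) : K := ∑ i ∈ Finset.range (m + 1), a i * t ^ (p ^ i)

theorem val_add (a : ℕ → K) (m : ℕ) (s t : K) : val p a m (s + t) = val p a m s + val p a m t := by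
  unfold val
  rw [← Finset.sum_add_distrib]
  refine Finset.sum_congr rfl fun i _ => ?_
  rw [add_pow_char_pow, mul_add]

theorem val_zero (a : ℕ → K) (m : ℕ) : val p a m 0 = 0 := by
  have := val_add (p := p) a m 0 0
  rw [add_zero] at this
  simpa using this

theorem val_neg (a : ℕ → K) (m : ℕ) (t : K) : val p a m (-t) = - val p a m t := by
  have := val_add (p := p) a m t (-t)
  rw [add_neg_cancel, val_zero] at this
  exact eq_neg_of_add_eq_zero_right this.symm

theorem val_nsmul (a : ℕ → K) (m n : ℕ) (t : K) : val p a m ((n : K) * t) = n * val p a m t := by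
  induction n with
  | zero => simp [val_zero]
  | succ n ih => push_cast; rw [add_mul, one_mul, val_add, ih]; ring

theorem split {E : Type} [CommGroup E] [Finite E] (m : ℕ) (hE : Nat.card E = p ^ (m + 1)) :
    ∃ (E' : Subgroup E) (g : E), Nat.card E' = p ^ m ∧ E'.index = p ∧ g ∉ E' ∧
      ∀ e : E, ∃ n : ℕ, ∃ e' ∈ E', e = g ^ n * e' := by
  have hp : p.Prime := Fact.out
  obtain ⟨E', hE'⟩ := Sylow.exists_subgroup_card_pow_prime (G := E) p (n := m)
    (by rw [hE]; exact pow_dvd_pow p (Nat.le_succ m))
  have hidx : E'.index = p := by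
    have h1 := E'.card_mul_index
    rw [hE', hE, pow_succ] at h1
    exact Nat.eq_of_mul_eq_mul_left (pow_pos hp.pos m) h1
  obtain ⟨g, hg⟩ : ∃ g, g ∉ E' := by
    by_contra hcon
    push Not at hcon
    have h1 : E' = ⊤ := eq_top_iff.2 fun x _ => hcon x
    rw [h1, Subgroup.index_top] at hidx
    exact hp.one_lt.ne hidx
  refine ⟨E', g, hE', hidx, hg, fun e => ?_⟩
  have hcard : Nat.card (E ⧸ E') = p := hidx
  have hg1 : (g : E ⧸ E') ≠ 1 := by
    rw [Ne, QuotientGroup.eq_one_iff]
    exact hg
  have h2 : (e : E ⧸ E') ∈ Submonoid.powers (g : E ⧸ E') := mem_powers_of_prime_card hcard hg1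
  obtain ⟨n, hn⟩ := h2
  refine ⟨n, (g ^ n)⁻¹ * e, ?_, by group⟩
  rw [← QuotientGroup.eq]
  exact hn

theorem pow_eq_self (x : K) (hx : x ^ p = x) : ∃ n : ℕ, x = n := by
  have h1 := (Subfield.mem_bot_iff_pow_eq_self (F := K) (p := p)).2 hx
  rw [← ZMod.fieldRange_castHom_eq_bot p] at h1
  obtain ⟨y, hy⟩ := h1
  refine ⟨y.val, ?_⟩
  rw [← hy]
  conv_lhs => rw [← ZMod.natCast_zmod_val y]
  exact map_natCast _ _

end CEAux

open CEAux

/-- the additive polynomial vanishing on a finite subgroup of `(K,+)` -/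
theorem exists_addpoly (A : Type) [CommGroup A] [Finite A] (μ : A →* Multiplicative K)
    (hμ : Function.Injective μ) (m : ℕ) (hA : Nat.card A = p ^ m) :
    ∃ a : ℕ → K, a m = 1 ∧
      ∀ t : K, ∑ i ∈ Finset.range (m + 1), a i * t ^ (p ^ i) = 0 ↔
        ∃ e : A, (μ e).toAdd = t := by
  have hp : p.Prime := Fact.out
  induction m generalizing A with
  | zero =>
    refine ⟨fun _ => 1, rfl, fun t => ?_⟩
    rw [pow_zero] at hA
    have hss : Subsingleton A := (Nat.card_eq_one_iff_unique.1 hA).1
    simp only [zero_add, Finset.range_one, Finset.sum_singleton, pow_zero, pow_one, one_mul]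
    constructor
    · intro h
      exact ⟨1, by rw [map_one, h]; rfl⟩
    · rintro ⟨e, rfl⟩
      rw [Subsingleton.elim e 1, map_one]
      rfl
  | succ m ih =>
    obtain ⟨E', g, hE', -, hg, hgen⟩ := split m hA
    obtain ⟨a', ha', hz⟩ := ih E' (μ.comp E'.subtype)
      (hμ.comp Subtype.val_injective) hE'
    have hz' : ∀ t : K, val p a' m t = 0 ↔ ∃ e ∈ E', (μ e).toAdd = t := by
      intro t
      refine (hz t).trans ⟨?_, ?_⟩
      · rintro ⟨e, he⟩
        exact ⟨e.1, e.2, he⟩
      · rintro ⟨e, he, h⟩
        exact ⟨⟨e, he⟩, h⟩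
    set γ : K := (μ g).toAdd with hγ
    set c : K := val p a' m γ with hc
    have hc0 : c ≠ 0 := by
      intro h
      obtain ⟨e, he, h2⟩ := (hz' γ).1 h
      have h3 : e = g := hμ (Multiplicative.toAdd.injective h2)
      exact hg (h3 ▸ he)
    let a : ℕ → K := fun i => (if i = 0 then 0 else a' (i - 1) ^ p) -
      c ^ (p - 1) * (if i ≤ m then a' i else 0)
    have hval : ∀ t : K, ∑ i ∈ Finset.range (m + 1 + 1), a i * t ^ (p ^ i) =
        val p a' m t ^ p - c ^ (p - 1) * val p a' m t := by
      intro t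
      have h1 : ∀ i, a i * t ^ (p ^ i) = (if i = 0 then 0 else a' (i - 1) ^ p) * t ^ (p ^ i) -
          c ^ (p - 1) * ((if i ≤ m then a' i else 0) * t ^ (p ^ i)) := by
        intro i
        simp only [a]
        ring
      rw [Finset.sum_congr rfl fun i _ => h1 i, Finset.sum_sub_distrib, ← Finset.mul_sum]
      congr 1
      · rw [Finset.sum_range_succ' _ (m + 1)]
        unfold val
        rw [sum_pow_char]
        simp only [Nat.add_sub_cancel, if_true, zero_mul, add_zero, Nat.add_eq_zero_iff,
          one_ne_zero, and_false, if_false]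
        refine Finset.sum_congr rfl fun i _ => ?_
        rw [mul_pow, ← pow_mul, ← pow_succ]
      · congr 1
        rw [Finset.sum_range_succ _ (m + 1)]
        unfold val
        simp only [Nat.not_succ_le_self, if_false, zero_mul, add_zero]
        refine Finset.sum_congr rfl fun i hi => ?_
        rw [if_pos (Nat.lt_succ_iff.1 (Finset.mem_range.1 hi))]
    refine ⟨a, ?_, fun t => ?_⟩
    · simp [a, ha']
    · rw [hval]
      constructor
      · intro h
        have h1 : (val p a' m t / c) ^ p = val p a' m t / c := by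
          have h2 : val p a' m t ^ p = c ^ (p - 1) * val p a' m t := sub_eq_zero.1 h
          rw [div_pow, h2]
          have h3 : c ^ p = c ^ (p - 1) * c := by
            rw [← pow_succ, Nat.sub_add_cancel hp.one_le]
          rw [h3]
          have h4 : c ^ (p - 1) ≠ 0 := pow_ne_zero _ hc0
          field_simp
        obtain ⟨n, hn⟩ := pow_eq_self (p := p) _ h1
        have h5 : val p a' m (t - n * γ) = 0 := by
          rw [sub_eq_add_neg, val_add, val_neg, val_nsmul, ← hc]
          have h6 : val p a' m t = n * c := by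
            rw [← hn]; field_simp
          rw [h6]
          ring
        obtain ⟨e, he, h7⟩ := (hz' _).1 h5
        refine ⟨g ^ n * e, ?_⟩
        rw [map_mul, toAdd_mul, map_pow, toAdd_pow, h7, nsmul_eq_mul, ← hγ]
        ring
      · rintro ⟨e, rfl⟩
        obtain ⟨n, e', he', rfl⟩ := hgen e
        have h1 : val p a' m (μ (g ^ n * e')).toAdd = n * c := by
          rw [map_mul, toAdd_mul, map_pow, toAdd_pow, val_add, (hz' _).2 ⟨e', he', rfl⟩,
            nsmul_eq_mul, val_nsmul, add_zero]
        rw [h1, mul_pow]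
        have h2 : (n : K) ^ p = n := by
          have h3 : ((n : ZMod p) ^ p) = n := ZMod.pow_card _
          have h4 := congrArg (ZMod.castHom (dvd_refl p) K) h3
          rwa [map_pow, map_natCast] at h4
        have h3 : c ^ p = c ^ (p - 1) * c := by
          rw [← pow_succ, Nat.sub_add_cancel hp.one_le]
        rw [h2, h3]
        ring

/-- the data attached to an injective additive function on an elementary abelian group -/
theorem exists_env (E : Type) [CommGroup E] [Finite E] (lam : E →* Multiplicative K)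
    (hlam : Function.Injective lam) (m : ℕ) (hE : Nat.card E = p ^ (m + 1)) :
    ∃ (E' : Subgroup E) (g : E) (y : E →* Multiplicative K) (a : ℕ → K) (π : K[X]),
      Nat.card E' = p ^ m ∧ E'.index = p ∧ (∀ e, y e = 1 ↔ e ∈ E') ∧ g ∉ E' ∧
      (∀ e : E, ∃ n : ℕ, ∃ e' ∈ E', e = g ^ n * e') ∧
      (∀ e, (y e).toAdd = ∑ i ∈ Finset.range (m + 1), a i * (tw p i lam e).toAdd) ∧
      π.Monic ∧ π.natDegree = p ^ m ∧ (∀ t : K, taylor t π = π + C (π.eval t)) ∧
      (∀ e, (y e).toAdd = π.eval (lam e).toAdd) := by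
  have hp : p.Prime := Fact.out
  obtain ⟨E', g, hE', hidx, hg, hgen⟩ := split m hE
  obtain ⟨a, ha, hz⟩ := exists_addpoly (p := p) E' (lam.comp E'.subtype)
    (hlam.comp Subtype.val_injective) m hE'
  let y : E →* Multiplicative K := MonoidHom.mk'
    (fun e => Multiplicative.ofAdd (val p a m (lam e).toAdd)) (fun e e' => by
      rw [map_mul, toAdd_mul, val_add, ofAdd_add])
  have hy : ∀ e, (y e).toAdd = val p a m (lam e).toAdd := fun e => rfl
  let π : K[X] := ∑ i ∈ Finset.range (m + 1), C (a i) * X ^ (p ^ i)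
  have heval : ∀ t : K, π.eval t = val p a m t := by
    intro t
    simp only [π, eval_finsetSum, eval_mul, eval_C, eval_pow, eval_X, val]
  have hdeg : (∑ i ∈ Finset.range m, C (a i) * X ^ (p ^ i) : K[X]).degree < (p ^ m : ℕ) := by
    refine lt_of_le_of_lt (degree_sum_le _ _) ?_
    rw [Finset.sup_lt_iff (by exact WithBot.bot_lt_coe _)]
    intro i hi
    refine lt_of_le_of_lt (degree_C_mul_X_pow_le _ _) ?_
    have := Nat.pow_lt_pow_right hp.one_lt (Finset.mem_range.1 hi)
    exact_mod_cast this
  have hπ : π = X ^ (p ^ m) + ∑ i ∈ Finset.range m, C (a i) * X ^ (p ^ i) := by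
    simp only [π]
    rw [Finset.sum_range_succ, ha, C_1, one_mul, add_comm]
  refine ⟨E', g, y, a, π, hE', hidx, fun e => ?_, hg, hgen, fun e => ?_, ?_, ?_, fun t => ?_,
    fun e => ?_⟩
  · constructor
    · intro h
      have h1 : val p a m (lam e).toAdd = 0 := by rw [← hy, h]; rfl
      obtain ⟨e', he'⟩ := (hz _).1 h1
      have h2 : (e' : E) = e := hlam (Multiplicative.toAdd.injective he')
      rw [← h2]
      exact e'.2
    · intro h
      have h1 := (hz (lam e).toAdd).2 ⟨⟨e, h⟩, rfl⟩
      have h2 : (y e).toAdd = 0 := by rw [hy]; exact h1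
      exact Multiplicative.toAdd.injective h2
  · rw [hy]
    unfold val
    refine Finset.sum_congr rfl fun i _ => ?_
    congr 1
  · rw [hπ]
    exact monic_X_pow_add hdeg
  · rw [hπ]
    exact natDegree_eq_of_degree_eq_some (by
      rw [degree_add_eq_left_of_degree_lt (by rwa [degree_X_pow]), degree_X_pow])
  · rw [heval]
    simp only [π, map_sum]
    have h1 : ∀ i ∈ Finset.range (m + 1), taylor t (C (a i) * X ^ (p ^ i)) =
        C (a i) * X ^ (p ^ i) + C (a i * t ^ (p ^ i)) := by
      intro i _
      rw [taylor_mul, taylor_C, taylor_X_pow, add_pow_char_pow, mul_add, ← C_pow, ← C_mul]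
    rw [Finset.sum_congr rfl h1, Finset.sum_add_distrib]
    congr 1
    unfold val
    rw [map_sum]
  · rw [hy, heval]

end Pool.Agent.GamI
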