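import Pool.Agent.GamI.CB
import Pool.Agent.GamI.CV

/-! # CY: modules free over `E'` tensored with a free `E/E'`-module are projective -/

set_option autoImplicit false

open scoped TensorProduct
open Module

noncomputable section

namespace Pool.Agent.GamI

variable {p : ℕ} [Fact p.Prime] {K : Type} [Field K] [CharP K p] {E : Type} [CommGroup E] [Finite E]

section CYaux

variable {k : Type} [Field k] {G : Type} [Group G] {A A' B B' : Mo k G}

/-- the tensor product of two maps, between bundled representations -/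
def CY_mp (α : A.V →ₗ[k] A'.V) (β : B.V →ₗ[k] B'.V) : (A.tens B).V →ₗ[k] (A'.tens B').V :=
  TensorProduct.map α β

lemma CY_cj_mul (g h : G) (θ : A.V →ₗ[k] B.V) : cj A B (g * h) θ = cj A B g (cj A B h θ) := by
  unfold cj
  rw [mul_inv_rev, map_mul, map_mul]
  rfl

lemma CY_cj_sum {ι : Type} (s : Finset ι) (g : G) (θ : ι → (A.V →ₗ[k] B.V)) :
    cj A B g (∑ i ∈ s, θ i) = ∑ i ∈ s, cj A B g (θ i) := by
  unfold cj
  refine LinearMap.ext fun v => ?_
  simp only [LinearMap.comp_apply, LinearMap.sum_apply, map_sum]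

lemma CY_cj_map (g : G) (α : A.V →ₗ[k] A'.V) (β : B.V →ₗ[k] B'.V) :
    cj (A.tens B) (A'.tens B') g (CY_mp α β) =
      CY_mp (cj A A' g α) (cj B B' g β) := by
  apply TensorProduct.ext'
  intro x y
  rfl

lemma CY_cj_on {N : Subgroup G} {θ : A.V →ₗ[k] B.V} (hθ : IsHOn N A B θ) {h : G} (hh : h ∈ N) :
    cj A B h θ = θ := by
  refine LinearMap.ext fun v => ?_
  show B.ρ h (θ (A.ρ h⁻¹ v)) = θ v
  rw [← hθ h hh, ← Module.End.mul_apply, ← map_mul, mul_inv_cancel, map_one]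
  rfl

/-- the total trace as a sum over the cosets -/
lemma CY_tr [Finite G] (N : Subgroup G) (θ : A.V →ₗ[k] B.V) :
    trH ⊤ A B θ = ∑ᶠ q : G ⧸ N, cj A B q.out (trH N A B θ) := by
  classical
  have : Fintype (G ⧸ N) := Fintype.ofFinite _
  rw [finsum_eq_sum_of_fintype]
  have h1 : ∀ q : G ⧸ N, cj A B q.out (trH N A B θ) =
      ∑ h ∈ subFin N, cj A B (q.out * h) θ := by
    intro q
    unfold trH
    rw [CY_cj_sum]
    apply Finset.sum_congr rfl
    intro h _
    rw [CY_cj_mul]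
  rw [Finset.sum_congr rfl fun q _ => h1 q, ← Finset.sum_product']
  unfold trH
  symm
  refine Finset.sum_bij (fun x _ => x.1.out * x.2) ?_ ?_ ?_ ?_
  · intro x _
    rw [mem_subFin]
    exact Subgroup.mem_top _
  · rintro ⟨q, h⟩ hx ⟨q', h'⟩ hx' e
    rw [Finset.mem_product, mem_subFin] at hx hx'
    have e' : q.out * h = q'.out * h' := e
    have h2 : ∀ (q : G ⧸ N) (h : G), h ∈ N → ((q.out * h : G) : G ⧸ N) = q := by
      intro q h hh
      rw [QuotientGroup.mk_mul_of_mem _ hh, QuotientGroup.out_eq']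
    have h3 : q = q' := by rw [← h2 q h hx.2, ← h2 q' h' hx'.2, e']
    subst h3
    rw [mul_left_cancel e']
  · intro g _
    obtain ⟨h, hh⟩ := QuotientGroup.mk_out_eq_mul N g
    refine ⟨((g : G ⧸ N), (h : G)⁻¹), ?_, ?_⟩
    · rw [Finset.mem_product, mem_subFin]
      exact ⟨Finset.mem_univ _, N.inv_mem h.2⟩
    · show ((g : G ⧸ N)).out * (h : G)⁻¹ = g
      rw [hh]
      group
  · intro x _
    rfl

lemma CY_map_sum {ι : Type} (s : Finset ι) (α : A.V →ₗ[k] A'.V) (β : ι → (B.V →ₗ[k] B'.V)) :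
    (CY_mp α (∑ i ∈ s, β i) : (A.tens B).V →ₗ[k] (A'.tens B').V) = ∑ i ∈ s, CY_mp α (β i) := by
  classical
  induction s using Finset.induction_on with
  | empty =>
    rw [Finset.sum_empty, Finset.sum_empty]
    exact TensorProduct.map_zero_right α
  | insert i s hi ih =>
    rw [Finset.sum_insert hi, Finset.sum_insert hi, ← ih]
    exact TensorProduct.map_add_right α (β i) (∑ i ∈ s, β i)

lemma CY_sum_map {ι : Type} (s : Finset ι) (α : ι → (A.V →ₗ[k] A'.V)) (β : B.V →ₗ[k] B'.V) :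
    (CY_mp (∑ i ∈ s, α i) β : (A.tens B).V →ₗ[k] (A'.tens B').V) = ∑ i ∈ s, CY_mp (α i) β := by
  classical
  induction s using Finset.induction_on with
  | empty =>
    rw [Finset.sum_empty, Finset.sum_empty]
    exact TensorProduct.map_zero_left β
  | insert i s hi ih =>
    rw [Finset.sum_insert hi, Finset.sum_insert hi, ← ih]
    exact TensorProduct.map_add_left (α i) (∑ i ∈ s, α i) β

lemma CY_id : (CY_mp (LinearMap.id : A.V →ₗ[k] A.V) (LinearMap.id : B.V →ₗ[k] B.V) :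
    (A.tens B).V →ₗ[k] (A.tens B).V) = LinearMap.id := TensorProduct.map_id

end CYaux

lemma CY_rel (E' : Subgroup E) (y : E →* Multiplicative K) (hy : ∀ e, y e = 1 ↔ e ∈ E')
    (hi : E'.index = p) :
    ∃ θ : (Pm p y).V →ₗ[K] (Pm p y).V, IsHOn E' (Pm p y) (Pm p y) θ ∧
      ∑ᶠ q : E ⧸ E', cj (Pm p y) (Pm p y) q.out θ = LinearMap.id := by
  have h1 : E' = y.ker := by
    ext e
    rw [MonoidHom.mem_ker, hy]
  subst h1
  have h2 : Nat.card (E ⧸ y.ker) = p ^ 1 := by
    rw [pow_one]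
    exact hi
  have h3 := relProj_P (p := p) E y 1 h2
  rw [pow_one] at h3
  exact h3

theorem proj_tens_free (E' : Subgroup E) (U : Mo K E) (hU : ProjOn E' U)
    (y : E →* Multiplicative K) (hy : ∀ e, y e = 1 ↔ e ∈ E') (hi : E'.index = p) :
    Proj (U.tens (Pm p y)) := by
  obtain ⟨θ, hθ, hs⟩ := CY_rel E' y hy hi
  obtain ⟨η, hη⟩ := hU
  refine ⟨CY_mp η θ, ?_⟩
  have : Fintype (E ⧸ E') := Fintype.ofFinite _
  rw [finsum_eq_sum_of_fintype] at hs
  have h1 : trH E' (U.tens (Pm p y)) (U.tens (Pm p y)) (CY_mp η θ) =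
      CY_mp LinearMap.id θ := by
    rw [← hη]
    unfold trH
    rw [CY_sum_map]
    apply Finset.sum_congr rfl
    intro h hh
    rw [mem_subFin] at hh
    rw [CY_cj_map, CY_cj_on hθ hh]
  rw [CY_tr E', h1, finsum_eq_sum_of_fintype]
  have h2 : ∀ q : E ⧸ E', cj (U.tens (Pm p y)) (U.tens (Pm p y)) q.out
      (CY_mp LinearMap.id θ) =
      CY_mp LinearMap.id (cj (Pm p y) (Pm p y) q.out θ) := by
    intro q
    rw [CY_cj_map, cj_isH (IsH.id U)]
  rw [Finset.sum_congr rfl fun q _ => h2 q, ← CY_map_sum, hs, CY_id]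

theorem nn_free (E' : Subgroup E) (U : Mo K E) (hU : ProjOn E' U)
    (y : E →* Multiplicative K) (hy : ∀ e, y e = 1 ↔ e ∈ E') (hi : E'.index = p) (W : Mo K E) :
    nn U (W.tens (Pm p y)) = 0 := by
  obtain ⟨θ, hθ, hs⟩ := CY_rel E' y hy hi
  obtain ⟨η, hη⟩ := hU
  have : Fintype (E ⧸ E') := Fintype.ofFinite _
  rw [finsum_eq_sum_of_fintype] at hs
  have h1 : homE U (W.tens (Pm p y)) = LinearMap.range (TrM U (W.tens (Pm p y))) := by
    apply le_antisymm _ (range_TrM_le _ _)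
    intro f hf
    have hf' : IsH U (W.tens (Pm p y)) f := hf
    have hθ' : IsHOn E' (W.tens (Pm p y)) (W.tens (Pm p y))
        (CY_mp LinearMap.id θ) := by
      intro h hh v
      have h3 : cj (W.tens (Pm p y)) (W.tens (Pm p y)) h (CY_mp LinearMap.id θ) =
          CY_mp LinearMap.id θ := by
        rw [CY_cj_map, cj_isH (IsH.id W), CY_cj_on hθ hh]
      have h4 := congrArg (fun u => u ((W.tens (Pm p y)).ρ h v)) h3
      have h5 : (W.tens (Pm p y)).ρ h (CY_mp LinearMap.id θ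
        ((W.tens (Pm p y)).ρ h⁻¹ ((W.tens (Pm p y)).ρ h v))) =
          CY_mp LinearMap.id θ ((W.tens (Pm p y)).ρ h v) := h4
      rw [← Module.End.mul_apply ((W.tens (Pm p y)).ρ h⁻¹), ← map_mul, inv_mul_cancel,
        map_one] at h5
      exact h5.symm
    let f1 : U.V →ₗ[K] (W.tens (Pm p y)).V := CY_mp LinearMap.id θ ∘ₗ f
    have hf1 : IsHOn E' U (W.tens (Pm p y)) f1 := by
      intro h hh v
      show CY_mp LinearMap.id θ (f (U.ρ h v)) = _
      rw [hf' h v, hθ' h hh]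
      rfl
    refine ⟨f1 ∘ₗ η, ?_⟩
    show trH ⊤ U (W.tens (Pm p y)) (f1 ∘ₗ η) = f
    rw [CY_tr E', ProjOn.map_eq_tr hη f1 hf1, finsum_eq_sum_of_fintype]
    have h2 : ∀ q : E ⧸ E', cj U (W.tens (Pm p y)) q.out f1 =
        CY_mp LinearMap.id (cj (Pm p y) (Pm p y) q.out θ) ∘ₗ f := by
      intro q
      have h3 : cj (W.tens (Pm p y)) (W.tens (Pm p y)) q.out
        (CY_mp LinearMap.id θ) =
        CY_mp LinearMap.id (cj (Pm p y) (Pm p y) q.out θ) := by
        rw [CY_cj_map, cj_isH (IsH.id W)]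
      rw [← h3]
      refine LinearMap.ext fun v => ?_
      show (W.tens (Pm p y)).ρ q.out (CY_mp LinearMap.id θ (f (U.ρ q.out⁻¹ v))) =
        (W.tens (Pm p y)).ρ q.out (CY_mp LinearMap.id θ
          ((W.tens (Pm p y)).ρ q.out⁻¹ (f v)))
      rw [hf' q.out⁻¹ v]
    rw [Finset.sum_congr rfl fun q _ => h2 q]
    have h6 : ∑ q : E ⧸ E', CY_mp (LinearMap.id : W.V →ₗ[K] W.V)
        (cj (Pm p y) (Pm p y) q.out θ) ∘ₗ f = (∑ q : E ⧸ E', CY_mp
          (LinearMap.id : W.V →ₗ[K] W.V) (cj (Pm p y) (Pm p y) q.out θ)) ∘ₗ f := by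
      refine LinearMap.ext fun v => ?_
      simp only [LinearMap.sum_apply, LinearMap.comp_apply]
    rw [h6, ← CY_map_sum, hs, CY_id]
    rfl
  unfold nn kk rr
  rw [h1, Nat.sub_self]

end Pool.Agent.GamI
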