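import Pool.Agent.GamI.CO
import Pool.Agent.GamI.CE
import Pool.Agent.GamI.CY

/-! # CF: the finite type theorem -/

set_option autoImplicit false

open scoped TensorProduct
open Module Polynomial

noncomputable section

namespace Pool.Agent.GamI

variable {p : ℕ} [Fact p.Prime] {K : Type} [Field K] [CharP K p] {E : Type} [CommGroup E] [Finite E]

/-- the abstract conclusion: an indecomposable `U` on which `λ` does not kill `Hom(U,L)` is a
summand of `A`, if `A` is an `X`-split approximation of `L` with one-dimensional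
`λ · Hom(A,L)` -/
theorem summand_of_not_kill (lam y : E →* Multiplicative K) (E' : Subgroup E) (g : E)
    (hy : ∀ e, y e = 1 ↔ e ∈ E') (hg : g ∉ E') (hgen : ∀ e : E, ∃ n : ℕ, ∃ e' ∈ E', e = g ^ n * e')
    {X L A U : Mo K E} (hX : Iso X (X.hom (triv K E))) (hXp : ProjOn E' X)
    {ΘX ℓX : X.V →ₗ[K] X.V} (hTX : TL X lam y ΘX ℓX)
    {ι : L.V →ₗ[K] A.V} {φ : A.V →ₗ[K] L.V} (h : Approx X L A ι φ)
    {ΘA ℓA : A.V →ₗ[K] A.V} (hTA : TL A lam y ΘA ℓA) (hA : ProjOn E' A)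
    (ω : A.V →ₗ[K] L.V) (hω : IsHOn E' A L ω)
    (hone : ∀ ζ : A.V →ₗ[K] L.V, IsH A L ζ → ∃ t : K, ζ ∘ₗ ℓA - t • ω ∈ Bd E' g A L)
    (hU : InX X U) (hloc : Loc U) (hK : ¬ Kill U lam L) : Retr U A := by
  obtain ⟨W, i, r, hi, hr, hri⟩ := id hU
  obtain ⟨θU, hθU⟩ : ProjOn E' U := ProjOn.retr ⟨i, r, hi, hr, hri⟩ (ProjOn.tens_r hXp W)
  obtain ⟨θA, hθA⟩ := hA
  have hTU := TL_retr i r hi hr hri _ _ (TL_tens X W ΘX ℓX hTX)
  generalize r ∘ₗ ΘX.rTensor W.V ∘ₗ i = ΘU at hTU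
  generalize r ∘ₗ ℓX.rTensor W.V ∘ₗ i = ℓU at hTU
  obtain ⟨ζ, hζ, hζb⟩ : ∃ ζ : U.V →ₗ[K] L.V, IsH U L ζ ∧ ζ ∘ₗ ℓU ∉ Bd E' g U L := by
    by_contra hcon
    apply hK
    refine kill_of_bd E' g hy hg hgen hTU L fun ζ hζ => ?_
    by_contra hb
    exact hcon ⟨ζ, hζ, hb⟩
  have hξ : IsH U L (ζ ∘ₗ ℓU) := IsH.comp hζ hTU.1
  obtain ⟨η, hη, htr⟩ := pair_exists E' g hgen θU hθU (ζ ∘ₗ ℓU) (hξ.on E') hζb
  obtain ⟨β, hβ, hβι⟩ := approx_ext hX h hU η hη
  obtain ⟨κ, hκ, hφκ⟩ := approx_lift hX h hU ζ hζ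
  have hι : IsH L A ι := h.1
  have hφ : IsH A L φ := h.2.1
  -- the trace computed on `A`
  have h1 : LinearMap.trace K L.V ((ζ ∘ₗ ℓU) ∘ₗ β ∘ₗ θA ∘ₗ ι) ≠ 0 := by
    rw [pair_nat E' θA θU hθA hθU (ζ ∘ₗ ℓU) (hξ.on E') β (hβ.on E') ι (hι.on E'), hβι]
    exact htr
  have hβn := TL_nat E' g hy hg hTA hTU β hβ
  obtain ⟨t1, ht1⟩ := hone (ζ ∘ₗ β) (IsH.comp hζ hβ)
  have hbd1 : (ζ ∘ₗ ℓU) ∘ₗ β - t1 • ω ∈ Bd E' g A L := by
    have h2 := Bd_comp_l E' g _ hβn ζ hζ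
    have h3 := (Bd E' g A L).add_mem h2 ht1
    convert h3 using 1
    rw [LinearMap.comp_sub, LinearMap.comp_assoc, LinearMap.comp_assoc]
    abel
  have h4 : LinearMap.trace K L.V ((ζ ∘ₗ ℓU) ∘ₗ β ∘ₗ θA ∘ₗ ι) =
      t1 * LinearMap.trace K L.V (ω ∘ₗ θA ∘ₗ ι) := by
    have h5 := pair_bd E' g θA hθA _ hbd1 ι hι
    rw [LinearMap.sub_comp, map_sub, LinearMap.smul_comp, map_smul, smul_eq_mul, sub_eq_zero] at h5
    rw [← h5]
    rfl
  rw [h4] at h1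
  have ht1' : t1 ≠ 0 := left_ne_zero_of_mul h1
  have hωb : ω ∉ Bd E' g A L := fun hc => right_ne_zero_of_mul h1 (pair_bd E' g θA hθA _ hc ι hι)
  -- the endomorphism `N = κ β` of `A`
  obtain ⟨t0, ht0⟩ := hone φ hφ
  have hN : IsH A A (κ ∘ₗ β) := IsH.comp hκ hβ
  have hNn := TL_nat E' g hy hg hTA hTA (κ ∘ₗ β) hN
  have hbd2 : t1 • ω - t0 • (ω ∘ₗ κ ∘ₗ β) ∈ Bd E' g A L := by
    have h2 := Bd_comp_l E' g _ hNn φ hφ
    have h3 := Bd_comp_r E' g _ ht0 (κ ∘ₗ β) hN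
    have h6 := (Bd E' g A L).sub_mem ((Bd E' g A L).sub_mem h3 h2) ht1
    convert h6 using 1
    rw [← hφκ]
    simp only [LinearMap.comp_sub, LinearMap.sub_comp, LinearMap.comp_assoc, LinearMap.smul_comp]
    abel
  have ht0' : t0 ≠ 0 := by
    rintro rfl
    rw [zero_smul, sub_zero] at hbd2
    apply hωb
    have := (Bd E' g A L).smul_mem t1⁻¹ hbd2
    rwa [smul_smul, inv_mul_cancel₀ ht1', one_smul] at this
  have hbd3 : ω ∘ₗ κ ∘ₗ β - (t0⁻¹ * t1) • ω ∈ Bd E' g A L := by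
    have := (Bd E' g A L).smul_mem (-t0⁻¹) hbd2
    convert this using 1
    rw [smul_sub, smul_smul, smul_smul, neg_mul, neg_mul, inv_mul_cancel₀ ht0', neg_smul, neg_smul,
      one_smul]
    abel
  have hc : t0⁻¹ * t1 ≠ 0 := mul_ne_zero (inv_ne_zero ht0') ht1'
  set c := t0⁻¹ * t1 with hcdef
  have hpow : ∀ n : ℕ, IsH A A ((κ ∘ₗ β : Module.End K A.V) ^ n) ∧
      ω ∘ₗ ((κ ∘ₗ β : Module.End K A.V) ^ n) - c ^ n • ω ∈ Bd E' g A L := by
    intro n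
    induction n with
    | zero =>
      refine ⟨IsH.id A, ?_⟩
      rw [pow_zero, pow_zero, one_smul]
      have : ω ∘ₗ (1 : Module.End K A.V) = ω := rfl
      rw [this, sub_self]
      exact (Bd E' g A L).zero_mem
    | succ n ih =>
      refine ⟨?_, ?_⟩
      · rw [pow_succ]
        exact IsH.comp ih.1 hN
      · have h2 := Bd_comp_r E' g _ ih.2 (κ ∘ₗ β) hN
        have h3 := (Bd E' g A L).smul_mem (c ^ n) hbd3
        have h6 := (Bd E' g A L).add_mem h2 h3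
        convert h6 using 1
        rw [pow_succ, pow_succ, LinearMap.sub_comp, smul_sub, smul_smul, LinearMap.smul_comp]
        have : ω ∘ₗ ((κ ∘ₗ β : Module.End K A.V) ^ n * (κ ∘ₗ β)) =
          (ω ∘ₗ ((κ ∘ₗ β : Module.End K A.V) ^ n)) ∘ₗ (κ ∘ₗ β) := rfl
        rw [this]
        abel
  have hne : ∀ n : ℕ, (κ ∘ₗ β : Module.End K A.V) ^ n ≠ 0 := by
    intro n hn
    have h2 := (hpow n).2
    rw [hn, LinearMap.comp_zero, zero_sub] at h2
    apply hωb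
    have h3 := (Bd E' g A L).smul_mem (-(c ^ n)⁻¹) h2
    rwa [smul_neg, neg_smul, neg_neg, smul_smul, inv_mul_cancel₀ (pow_ne_zero n hc),
      one_smul] at h3
  have hf : IsH U U (β ∘ₗ κ) := IsH.comp hβ hκ
  rcases hloc.2 (β ∘ₗ κ) hf with ⟨n, hn⟩ | hbij
  · exfalso
    apply hne (n + 1)
    have hind : ∀ n : ℕ, (κ ∘ₗ β : Module.End K A.V) ^ (n + 1) =
        κ ∘ₗ ((β ∘ₗ κ : Module.End K U.V) ^ n) ∘ₗ β := by
      intro n
      induction n with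
      | zero => rfl
      | succ n ih =>
        rw [pow_succ, ih, pow_succ]
        rfl
    rw [hind, hn, LinearMap.zero_comp, LinearMap.comp_zero]
  · let e := LinearEquiv.ofBijective (β ∘ₗ κ) hbij
    have he : IsH U U e.symm.toLinearMap := IsH.symm (A := U) (B := U) (e := e) hf
    refine ⟨κ, e.symm.toLinearMap ∘ₗ β, hκ, IsH.comp he hβ, ?_⟩
    ext u
    exact e.symm_apply_apply u

/-- finite type -/
theorem finite_type (lam : E →* Multiplicative K) (hlam : Function.Injective lam) (m : ℕ)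
    (hE : Nat.card E = p ^ (m + 1)) :
    ∃ (ι : Type) (_ : Finite ι) (A : ι → Mo K E), ∀ U : Mo K E, InX (Pm (p ^ m) lam) U → Loc U →
      Proj U ∨ ∃ i, Retr U (A i) := by
  obtain ⟨E', g, y, a, π, hE', hidx, hy, hg, hgen, hya, hπ, hπd, hπa, hπy⟩ :=
    exists_env (p := p) E lam hlam m hE
  have hq : 0 < p ^ m := pow_pos (Fact.out (p := p.Prime)).pos m
  refine ⟨(Fin m → Fin (p + 1)) × Fin p, inferInstance, fun x =>
    (Pm (p ^ m) lam).tens (Lm p (compl p (List.ofFn fun i => ((x.1 i : Fin (p + 1)) : ℕ))) lam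
      (Pm (x.2 : ℕ) y)), fun U hU hloc => ?_⟩
  have hXp : ProjOn E' (Pm (p ^ m) lam) := projOn_P E lam E'
    (fun e _ h1 => hlam (h1.trans (map_one lam).symm)) m hE'
  have hUp : ProjOn E' U := by
    obtain ⟨W, hW⟩ := hU
    exact ProjOn.retr hW (ProjOn.tens_r hXp W)
  obtain ⟨ΘX, hTX⟩ := TL_P (p ^ m) hq π hπ hπd hπa lam y hπy
  by_cases hall : ∀ cs : List ℕ, cs.length = m → (∀ c ∈ cs, 1 ≤ c ∧ c ≤ p) → ∀ b, 1 ≤ b → b < p →
      Kill U lam (Lm p cs lam (Pm b y))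
  · left
    exact proj_of_kill (IsPGroup.of_card hE) U y
      (fun W => nn_free E' U hUp y hy hidx W) m lam a hya hall
  · right
    push Not at hall
    obtain ⟨cs, hl, hcs, b, hb, hb', hK⟩ := hall
    obtain ⟨ω, hω, hone⟩ := one_dim (p := p) lam hlam m E' g y hE' hE hy hg hq cs hl hcs b hb hb'
    have happ : ∃ (ι : (Lm p cs lam (Pm b y)).V →ₗ[K]
          ((Pm (p ^ m) lam).tens (Lm p (compl p cs) lam (Pm b y))).V)
        (φ : ((Pm (p ^ m) lam).tens (Lm p (compl p cs) lam (Pm b y))).V →ₗ[K]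
          (Lm p cs lam (Pm b y)).V),
        Approx (Pm (p ^ m) lam) (Lm p cs lam (Pm b y))
          ((Pm (p ^ m) lam).tens (Lm p (compl p cs) lam (Pm b y))) ι φ := by
      have := approx_exists (p := p) cs hcs lam (Pm b y)
      rwa [hl] at this
    obtain ⟨ι, φ, hιφ⟩ := happ
    have hret : Retr U ((Pm (p ^ m) lam).tens (Lm p (compl p cs) lam (Pm b y))) :=
      summand_of_not_kill lam y E' g hy hg hgen (selfdual_Pm (p := p) m lam) hXp hTX hιφ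
        (TL_tens (Pm (p ^ m) lam) (Lm p (compl p cs) lam (Pm b y)) _ _ hTX)
        (ProjOn.tens_r hXp _) ω hω hone hU hloc hK
    refine ⟨(fun i => ⟨cs.get (i.cast hl.symm), ?_⟩, ⟨b, hb'⟩), ?_⟩
    · have := (hcs _ (List.get_mem cs (i.cast hl.symm))).2
      omega
    · have hcs2 : (List.ofFn fun i : Fin m => cs.get (i.cast hl.symm)) = cs := by
        subst hl
        exact List.ofFn_get cs
      change Retr U ((Pm (p ^ m) lam).tens (Lm p (compl p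
        (List.ofFn fun i : Fin m => cs.get (i.cast hl.symm))) lam (Pm b y)))
      rw [hcs2]
      exact hret

end Pool.Agent.GamI
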