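import Pool.Agent.GamI.Defs

/-! # Definitions for the Tate cohomology part and for the finite type part -/

set_option autoImplicit false

open scoped TensorProduct
open Polynomial

noncomputable section

namespace Pool.Agent.GamI

section Tate

variable {k : Type} [Field k] {G : Type} [Group G] [Finite G]

/-- the invariants -/
def invT (A : Mo k G) : Submodule k A.V := A.ρ.invariants

/-- the norm operator `∑ g` -/
def nuT (A : Mo k G) : A.V →ₗ[k] A.V := ∑ g ∈ subFin (⊤ : Subgroup G), A.ρ g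

/-- the image of the norm -/
def nrmT (A : Mo k G) : Submodule k A.V := LinearMap.range (nuT A)

/-- the rank of the map induced by `f` on `A^G / ν A → B^G / ν B` -/
def rT (A B : Mo k G) (f : A.V →ₗ[k] B.V) : ℕ :=
  Module.finrank k ↥(Submodule.map f (invT A) ⊔ nrmT B) - Module.finrank k ↥(nrmT B)

/-- the dimension of `A^G / ν A` -/
def hT (A : Mo k G) : ℕ := rT A A LinearMap.id

/-- for a `p`-group in characteristic `p`: the dimension of the core, `dim A - |G| rank ν` -/
def cT (A : Mo k G) : ℕ := Module.finrank k A.V - Nat.card G * Module.finrank k ↥(nrmT A)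

/-- the action of tensoring with `M` (`n` times) on maps -/
def TnMap {G : Type} [Group G] (M : Mo k G) : (n : ℕ) → {A B : Mo k G} → (A.V →ₗ[k] B.V) →
    ((Tn M n A).V →ₗ[k] (Tn M n B).V)
  | 0, _, _, f => f
  | n + 1, A, B, f => TnMap M n (A := A.tens M) (B := B.tens M) (f.rTensor M.V)

end Tate

section Fin

variable {K : Type} [Field K] {E : Type} [Group E]

/-- equivariant maps -/
def homE (U W : Mo K E) : Submodule K (U.V →ₗ[K] W.V) where
  carrier := {f | IsH U W f}
  zero_mem' := by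
    intro g v
    simp
  add_mem' := by
    intro a b ha hb g v
    simp [ha g v, hb g v]
  smul_mem' := by
    intro c a ha g v
    simp [ha g v]

/-- the trace `θ ↦ ∑_{e ∈ E} e θ e⁻¹` as a linear map -/
def TrM [Finite E] (U W : Mo K E) : (U.V →ₗ[K] W.V) →ₗ[K] (U.V →ₗ[K] W.V) where
  toFun θ := trH ⊤ U W θ
  map_add' a b := by
    simp [trH, cj, LinearMap.add_comp, LinearMap.comp_add, Finset.sum_add_distrib]
  map_smul' c a := by
    simp [trH, cj, LinearMap.smul_comp, LinearMap.comp_smul, Finset.smul_sum]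

/-- `dim Hom_E(U,W)` -/
def kk (U W : Mo K E) : ℕ := Module.finrank K (homE U W)

/-- the dimension of the space of traces (maps factoring through projectives) -/
def rr [Finite E] (U W : Mo K E) : ℕ := Module.finrank K (LinearMap.range (TrM U W))

/-- the dimension of the stable homomorphism space -/
def nn [Finite E] (U W : Mo K E) : ℕ := kk U W - rr U W

/-- Multiplication by the class `μ ∈ H¹(E,K)` kills `Hom_E(U,L)`. -/
def Kill (U : Mo K E) (μ : E →* Multiplicative K) (L : Mo K E) : Prop :=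
  ∀ ζ : U.V →ₗ[K] L.V, IsH U L ζ → ∃ θ : U.V →ₗ[K] L.V, ∀ (e : E) (u : U.V),
    θ (U.ρ e u) = L.ρ e (θ u) + (μ e).toAdd • L.ρ e (ζ u)

/-- the test modules `⊗ P_{c_i}(μ^{p^i}) ⊗ Z` (`c_i` = number of coefficients) -/
def Lm (p : ℕ) [Fact p.Prime] [CharP K p] :
    List ℕ → (E →* Multiplicative K) → Mo K E → Mo K E
  | [], _, Z => Z
  | c :: cs, μ, Z => (Pm c μ).tens (Lm p cs (tw p 1 μ) Z)

/-- `U` is a direct summand of `X ⊗ W` for some `W`. -/
def InX (X U : Mo K E) : Prop := ∃ W : Mo K E, Retr U (X.tens W)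

/-- local type: nonzero and every endomorphism is nilpotent or bijective -/
def Loc (U : Mo K E) : Prop :=
  Nontrivial U.V ∧ ∀ f : U.V →ₗ[K] U.V, IsH U U f →
    (∃ n : ℕ, (f : Module.End K U.V) ^ n = 0) ∨ Function.Bijective f

/-- the pair `(Θ, ℓ)`: `e Θ e⁻¹ = Θ + λ(e) - y(e) ℓ` -/
def TL (U : Mo K E) (lam y : E →* Multiplicative K) (Θ ℓ : U.V →ₗ[K] U.V) : Prop :=
  IsH U U ℓ ∧ ∀ e : E, cj U U e Θ = Θ + (lam e).toAdd • LinearMap.id - (y e).toAdd • ℓ

/-- `(g - 1) ⋆ Hom_{E'}(U, L)` -/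
def Bd (E' : Subgroup E) (g : E) (U L : Mo K E) : Submodule K (U.V →ₗ[K] L.V) where
  carrier := {ξ' | ∃ ξ : U.V →ₗ[K] L.V, IsHOn E' U L ξ ∧ ξ' = cj U L g ξ - ξ}
  zero_mem' := ⟨0, fun h _ v => by simp, by simp [cj]⟩
  add_mem' := by
    rintro a b ⟨ξ, h1, rfl⟩ ⟨ξ', h2, rfl⟩
    refine ⟨ξ + ξ', fun h hh v => by simp [h1 h hh v, h2 h hh v], ?_⟩
    simp only [cj, LinearMap.add_comp, LinearMap.comp_add]
    abel
  smul_mem' := by
    rintro c a ⟨ξ, h1, rfl⟩
    refine ⟨c • ξ, fun h hh v => by simp [h1 h hh v], ?_⟩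
    simp only [cj, LinearMap.smul_comp, LinearMap.comp_smul, smul_sub]

/-- the leading coefficient functional `f ↦ coeff_{q-1}(f)`, as a map to constants -/
def ellq (K : Type) [Field K] (q : ℕ) (hq : 0 < q) : (P K q).V →ₗ[K] (P K q).V where
  toFun f := ⟨C (f.1.coeff (q - 1)), by
    rw [mem_degreeLT]
    exact lt_of_le_of_lt degree_C_le (by exact_mod_cast hq)⟩
  map_add' f g := by
    apply Subtype.ext
    change C ((f.1 + g.1).coeff (q - 1)) = C (f.1.coeff (q - 1)) + C (g.1.coeff (q - 1))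
    simp
  map_smul' c f := by
    apply Subtype.ext
    change C ((c • f.1).coeff (q - 1)) = c • C (f.1.coeff (q - 1))
    simp [smul_eq_C_mul]

/-- `ellq ⊗ 1` on `P_q(μ) ⊗ B` -/
def ellA {K : Type} [Field K] {E : Type} [Group E] (q : ℕ) (hq : 0 < q)
    (μ : E →* Multiplicative K) (B : Mo K E) :
    ((Pm q μ).tens B).V →ₗ[K] ((Pm q μ).tens B).V :=
  (ellq K q hq).rTensor B.V

/-- Filtrations by permutation modules `k[G/H]`, `H` proper. -/
inductive PF {k : Type} [Field k] {G : Type} [Group G] [Finite G] : Mo k G → Prop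
  | zero (A : Mo k G) : Module.finrank k A.V = 0 → PF A
  | ext (A B C : Mo k G) (f : A.V →ₗ[k] B.V) (g : B.V →ₗ[k] C.V) (H : Subgroup G) :
      IsSES A B C f g → PF A → H ≠ ⊤ → Iso C (perm k G (G ⧸ H)) → PF B

/-- The abstract functional on `K E`-modules produced by the localisation part. -/
structure IsSigma [Finite E] (σ : Mo K E → ℝ) : Prop where
  iso : ∀ A B : Mo K E, Iso A B → σ A = σ B
  prod : ∀ A B : Mo K E, σ (A.prod B) = σ A + σ B
  proj : ∀ A : Mo K E, Proj A → σ A = 0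

end Fin

end Pool.Agent.GamI
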