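import Pool.Agent.GamI.TIa
import Pool.Agent.GamI.RQ

/-! # TIb: tensor induction of short exact sequences -/

set_option autoImplicit false

open scoped TensorProduct
open Module

noncomputable section

namespace Pool.Agent.GamI

namespace TIbAux

section Abstract

variable {k : Type} [Field k] {S : Type} [Group S] [Finite S]
variable (M : Mo k S) {X : Type} [Fintype X] [MulAction S X] (deg : X → ℕ)
  (E : X → (M.V →ₗ[k] M.V))

/-- complete orthogonal idempotents, permuted by the group up to terms of smaller degree -/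
structure Tri : Prop where
  hdeg : ∀ (g : S) (x : X), deg (g • x) = deg x
  sum : ∀ w : M.V, ∑ x, E x w = w
  idem : ∀ (x : X) (w : M.V), E x (E x w) = E x w
  orth : ∀ (x y : X) (w : M.V), x ≠ y → E x (E y w) = 0
  tri : ∀ (g : S) (x y : X) (w : M.V), x ≠ g • y → deg y ≤ deg x → E x (M.ρ g (E y w)) = 0

/-- the part of degree `< j` -/
def W (j : ℕ) : Submodule k M.V where
  carrier := {w | ∀ x, j ≤ deg x → E x w = 0}
  zero_mem' := fun x _ => map_zero _
  add_mem' := fun {a b} ha hb x hx => by rw [map_add, ha x hx, hb x hx, add_zero]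
  smul_mem' := fun c a ha x hx => by rw [map_smul, ha x hx, smul_zero]

variable {M deg E}

lemma mem_W {j : ℕ} {w : M.V} : w ∈ W M deg E j ↔ ∀ x, j ≤ deg x → E x w = 0 := Iff.rfl

lemma W_mono {a b : ℕ} (h : a ≤ b) : W M deg E a ≤ W M deg E b :=
  fun _ hw x hx => hw x (h.trans hx)

lemma W_stable (hT : Tri M deg E) (j : ℕ) (g : S) :
    W M deg E j ≤ (W M deg E j).comap (M.ρ g) := by
  intro w hw x hx
  have h1 : E x (M.ρ g w) = ∑ y, E x (M.ρ g (E y w)) := by
    conv_lhs => rw [← hT.sum w]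
    rw [map_sum, map_sum]
  rw [h1]
  refine Finset.sum_eq_zero fun y _ => ?_
  by_cases hy : j ≤ deg y
  · rw [hw y hy, map_zero, map_zero]
  · refine hT.tri g x y w ?_ (by omega)
    rintro rfl
    rw [hT.hdeg] at hx
    omega

lemma rho_inv_self (A : Mo k S) (g : S) (v : A.V) : A.ρ g⁻¹ (A.ρ g v) = v := by
  have h := congrArg (fun f : A.V →ₗ[k] A.V => f v) (map_mul A.ρ g⁻¹ g)
  simpa using h.symm

lemma rho_self_inv (A : Mo k S) (g : S) (v : A.V) : A.ρ g (A.ρ g⁻¹ v) = v := by
  have h := congrArg (fun f : A.V →ₗ[k] A.V => f v) (map_mul A.ρ g g⁻¹)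
  simpa using h.symm

lemma conj_mem (hT : Tri M deg E) {j : ℕ} (g : S) {x : X} (hx : deg x = j) {w : M.V}
    (hw : w ∈ W M deg E (j + 1)) :
    M.ρ g (E x (M.ρ g⁻¹ w)) - E (g • x) w ∈ W M deg E j := by
  have h1 : E x (M.ρ g⁻¹ w) = E x (M.ρ g⁻¹ (E (g • x) w)) := by
    have h2 : E x (M.ρ g⁻¹ w) = ∑ y, E x (M.ρ g⁻¹ (E y w)) := by
      conv_lhs => rw [← hT.sum w]
      rw [map_sum, map_sum]
    rw [h2]
    refine Finset.sum_eq_single_of_mem (g • x) (Finset.mem_univ _) fun y _ hy => ?_
    by_cases hyj : j + 1 ≤ deg y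
    · rw [hw y hyj, map_zero, map_zero]
    · refine hT.tri g⁻¹ x y w ?_ (by omega)
      rintro rfl
      exact hy (by rw [smul_inv_smul])
  intro y hy
  rw [map_sub]
  by_cases hyx : y = g • x
  · subst hyx
    rw [hT.idem, h1]
    have h3 : E (g • x) (M.ρ g (M.ρ g⁻¹ (E (g • x) w))) =
        ∑ z, E (g • x) (M.ρ g (E z (M.ρ g⁻¹ (E (g • x) w)))) := by
      conv_lhs => rw [← hT.sum (M.ρ g⁻¹ (E (g • x) w))]
      rw [map_sum, map_sum]
    have h4 : ∑ z, E (g • x) (M.ρ g (E z (M.ρ g⁻¹ (E (g • x) w)))) =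
        E (g • x) (M.ρ g (E x (M.ρ g⁻¹ (E (g • x) w)))) := by
      refine Finset.sum_eq_single_of_mem x (Finset.mem_univ _) fun z _ hz => ?_
      by_cases hzd : deg z ≤ deg (g • x)
      · exact hT.tri g (g • x) z _ (fun h => hz (smul_left_cancel g h).symm) hzd
      · have h5 : E z (M.ρ g⁻¹ (E (g • x) w)) = 0 := by
          refine hT.tri g⁻¹ z (g • x) w ?_ (by omega)
          rw [inv_smul_smul]
          exact hz
        rw [h5, map_zero, map_zero]
    rw [← h4, ← h3, rho_self_inv, hT.idem, sub_self]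
  · rw [hT.orth y (g • x) w hyx, hT.tri g y x _ hyx (by omega), sub_zero]

/-- the step `W j` as a representation -/
def WM (hT : Tri M deg E) (j : ℕ) : Mo k S := M.sub (W M deg E j) (W_stable hT j)

/-- the underlying vector -/
def vl (hT : Tri M deg E) (j : ℕ) : (WM hT j).V →ₗ[k] M.V := (W M deg E j).subtype

lemma vl_inj (hT : Tri M deg E) (j : ℕ) : Function.Injective (vl hT j) :=
  (W M deg E j).injective_subtype

lemma vl_isH (hT : Tri M deg E) (j : ℕ) : IsH (WM hT j) M (vl hT j) := fun _ _ => rfl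

lemma vl_mem (hT : Tri M deg E) (j : ℕ) (w : (WM hT j).V) : vl hT j w ∈ W M deg E j :=
  Subtype.property (p := fun x => x ∈ W M deg E j) w

/-- build a vector of `W j` -/
def mk (hT : Tri M deg E) (j : ℕ) (v : M.V) (h : v ∈ W M deg E j) : (WM hT j).V :=
  (⟨v, h⟩ : ↥(W M deg E j))

lemma vl_mk (hT : Tri M deg E) (j : ℕ) (v : M.V) (h : v ∈ W M deg E j) :
    vl hT j (mk hT j v h) = v := rfl

/-- the inclusion of the steps of the filtration -/
def incl (hT : Tri M deg E) {a b : ℕ} (h : a ≤ b) : (WM hT a).V →ₗ[k] (WM hT b).V :=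
  Submodule.inclusion (W_mono h)

lemma vl_incl (hT : Tri M deg E) {a b : ℕ} (h : a ≤ b) (w : (WM hT a).V) :
    vl hT b (incl hT h w) = vl hT a w := rfl

lemma incl_isH (hT : Tri M deg E) {a b : ℕ} (h : a ≤ b) : IsH (WM hT a) (WM hT b) (incl hT h) := by
  intro g v
  apply vl_inj
  rw [vl_incl, vl_isH hT b, vl_incl, vl_isH hT a]

lemma incl_inj (hT : Tri M deg E) {a b : ℕ} (h : a ≤ b) : Function.Injective (incl hT h) :=
  Submodule.inclusion_injective (W_mono h)

/-- the restriction of an idempotent -/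
def rE (hT : Tri M deg E) (j : ℕ) (x : X) (hx : deg x = j) :
    (WM hT (j + 1)).V →ₗ[k] (WM hT (j + 1)).V :=
  LinearMap.codRestrict (W M deg E (j + 1)) (E x ∘ₗ (W M deg E (j + 1)).subtype) (by
      intro w y hy
      have hyx : y ≠ x := by
        rintro rfl
        omega
      exact hT.orth y x _ hyx)

lemma vl_rE (hT : Tri M deg E) (j : ℕ) (x : X) (hx : deg x = j) (w : (WM hT (j + 1)).V) :
    vl hT (j + 1) (rE hT j x hx w) = E x (vl hT (j + 1) w) := rfl

variable {p : ℕ} [Fact p.Prime] [CharP k p]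

/-- the quotient of two consecutive steps is null -/
lemma quo_null (hS : IsPGroup p S) (s : RankFn k S) (hs : s.NullPerm) (hT : Tri M deg E) (j : ℕ)
    (hfree : ∀ x : X, deg x = j → ∃ g : S, g • x ≠ x) (C : Mo k S)
    (q : (WM hT (j + 1)).V →ₗ[k] C.V)
    (hq : IsSES (WM hT j) (WM hT (j + 1)) C (incl hT (Nat.le_succ j)) q) :
    s.val C = 0 := by
  classical
  have hker : ∀ w : (WM hT (j + 1)).V,
      q w = 0 ↔ vl hT (j + 1) w ∈ W M deg E j := by
    intro w
    have h1 : q w = 0 ↔ w ∈ LinearMap.range (incl hT (Nat.le_succ j)) := by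
      rw [hq.exact]
      rfl
    rw [h1]
    constructor
    · rintro ⟨v, rfl⟩
      rw [vl_incl]
      exact vl_mem hT j v
    · intro hw
      refine ⟨mk hT j _ hw, ?_⟩
      apply vl_inj
      rw [vl_incl, vl_mk]
  -- the restricted idempotents
  let Er : {x : X // deg x = j} → ((WM hT (j + 1)).V →ₗ[k] (WM hT (j + 1)).V) := fun x =>
    rE hT j x.1 x.2
  have hEr : ∀ x w, vl hT (j + 1) (Er x w) = E x (vl hT (j + 1) w) := fun x w => rfl
  obtain ⟨τ, hτ⟩ := q.exists_rightInverse_of_surjective (LinearMap.range_eq_top.2 hq.surj)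
  have hτ' : ∀ c, q (τ c) = c := fun c => LinearMap.congr_fun hτ c
  let act : MulAction S {x : X // deg x = j} :=
    { smul := fun g x => ⟨g • x.1, by rw [hT.hdeg]; exact x.2⟩
      one_smul := fun x => Subtype.ext (one_smul S x.1)
      mul_smul := fun g h x => Subtype.ext (mul_smul g h x.1) }
  have hactv : ∀ (g : S) (x : {x : X // deg x = j}), ((g • x : {x : X // deg x = j}) : X) =
      g • x.1 := fun g x => rfl
  let F : {x : X // deg x = j} → (C.V →ₗ[k] C.V) := fun x => q ∘ₗ Er x ∘ₗ τ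
  have hF : ∀ (x : {x : X // deg x = j}) w, F x (q w) = q (Er x w) := by
    intro x w
    have h1 : (q (τ (q w) - w)) = 0 := by rw [map_sub, hτ', sub_self]
    have h2 := (hker _).1 h1
    have h3 : Er x (τ (q w) - w) = 0 := by
      apply vl_inj hT
      rw [hEr, map_zero]
      exact h2 x.1 x.2.ge
    change q (Er x (τ (q w))) = q (Er x w)
    rw [map_sub] at h3
    rw [sub_eq_zero.1 h3]
  have hsum : ∑ x, F x = LinearMap.id := by
    refine LinearMap.ext fun c => ?_
    obtain ⟨w, rfl⟩ := hq.surj c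
    rw [LinearMap.sum_apply]
    simp_rw [hF]
    rw [← map_sum, LinearMap.id_apply, ← sub_eq_zero, ← map_sub, hker]
    intro y hy
    have h1 : vl hT (j + 1) ((∑ x, Er x w) - w) =
        (∑ x : {x : X // deg x = j}, E x (vl hT (j + 1) w)) - vl hT (j + 1) w := by
      rw [map_sub, map_sum]
      rfl
    rw [h1, map_sub, map_sum]
    by_cases hyj : deg y = j
    · rw [Finset.sum_eq_single_of_mem (⟨y, hyj⟩ : {x : X // deg x = j}) (Finset.mem_univ _)]
      · rw [hT.idem, sub_self]
      · intro z _ hz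
        exact hT.orth y z _ fun h => hz (Subtype.ext h.symm)
    · rw [Finset.sum_eq_zero, zero_sub, vl_mem hT (j + 1) w y (by omega), neg_zero]
      intro z _
      refine hT.orth y z _ ?_
      rintro rfl
      exact hyj z.2
  have hcj : ∀ (g : S) (x : {x : X // deg x = j}), cj C C g (F x) = F (g • x) := by
    intro g x
    refine LinearMap.ext fun c => ?_
    obtain ⟨w, rfl⟩ := hq.surj c
    simp only [cj, LinearMap.comp_apply]
    rw [← hq.hg, hF, hF, ← hq.hg, ← sub_eq_zero, ← map_sub, hker]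
    have h1 : vl hT (j + 1) ((WM hT (j + 1)).ρ g (Er x ((WM hT (j + 1)).ρ g⁻¹ w)) -
        Er (g • x) w) = M.ρ g (E x (M.ρ g⁻¹ (vl hT (j + 1) w))) -
        E (g • x.1) (vl hT (j + 1) w) := by
      rw [map_sub, vl_isH, hEr, vl_isH, hEr, hactv]
    rw [h1]
    exact conj_mem hT g x.2 (vl_mem hT (j + 1) w)
  have h := RankFn.null_sum s hS hs {x : X // deg x = j} (A := C) (B := C) (fun x => by
    obtain ⟨g, hg⟩ := hfree x.1 x.2
    exact ⟨g, fun h => hg (congrArg Subtype.val h)⟩) F hcj
  rw [hsum] at h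
  exact h

/-- a chain of steps without fixed points -/
lemma chain (hS : IsPGroup p S) (s : RankFn k S) (hs : s.NullPerm) (hT : Tri M deg E) (a b : ℕ)
    (hab : a ≤ b) (hfree : ∀ x : X, a ≤ deg x → deg x < b → ∃ g : S, g • x ≠ x) :
    s.val (WM hT a) = s.val (WM hT b) ∧
      s.s (WM hT a) (WM hT b) (incl hT hab) = s.val (WM hT b) := by
  induction b, hab using Nat.le_induction with
  | base => exact ⟨rfl, rfl⟩
  | succ b hab ih =>
    obtain ⟨h1, h2⟩ := ih fun x hx hx' => hfree x hx (by omega)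
    obtain ⟨C, q, hq⟩ := ses_coker (incl hT (Nat.le_succ b)) (incl_isH hT _) (incl_inj hT _)
    have hC := quo_null hS s hs hT b (fun x hx => hfree x (by omega) (by omega)) C q hq
    obtain ⟨h3, h4⟩ := RankFn.ses_null_r s hS hq hC
    refine ⟨h1.trans h3, le_antisymm (RankFn.le_cod s (incl_isH hT _)) ?_⟩
    have h5 := RankFn.sylv s (incl_isH hT hab) (incl_isH hT (Nat.le_succ b))
    have h6 : incl hT (Nat.le_succ b) ∘ₗ incl hT hab = incl hT (hab.trans (Nat.le_succ b)) := rfl
    rw [h6, h2, h4] at h5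
    linarith

end Abstract

end TIbAux

open TIbAux Pointwise

variable {p : ℕ} [Fact p.Prime] {k : Type} [Field k] [CharP k p] {S : Type} [Group S] [Finite S]

theorem ti_ses (hS : IsPGroup p S) (s : RankFn k S) (hs : s.NullPerm) (H : Subgroup S)
    {A B C : Mo k H} {f : A.V →ₗ[k] B.V} {g : B.V →ₗ[k] C.V} (h : IsSES A B C f g) :
    s.val (ti H B) ≤ s.val (ti H A) + s.val (ti H C) ∧
    (s.val (ti H C) = 0 → s.s (ti H A) (ti H B) (tm H fun _ => f) = s.val (ti H B) ∧
      s.val (ti H A) = s.val (ti H B)) ∧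
    (s.val (ti H A) = 0 → s.s (ti H B) (ti H C) (tm H fun _ => g) = s.val (ti H B) ∧
      s.val (ti H C) = s.val (ti H B)) := by
  classical
  haveI : Fintype (S ⧸ H) := Fintype.ofFinite _
  obtain ⟨σ, hσ⟩ := g.exists_rightInverse_of_surjective (LinearMap.range_eq_top.2 h.surj)
  have hσ' : ∀ c, g (σ c) = c := fun c => LinearMap.congr_fun hσ c
  set eC : B.V →ₗ[k] B.V := σ ∘ₗ g with heC
  set eA : B.V →ₗ[k] B.V := LinearMap.id - eC with heA
  have hgA : ∀ x, g (eA x) = 0 := by
    intro x
    simp [heA, heC, hσ']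
  have hAA : ∀ x, g x = 0 → eA x = x := by
    intro x hx
    simp [heA, heC, hx]
  have hCC : ∀ x, eC x = σ (g x) := fun x => rfl
  -- the idempotents
  set E : Finset (S ⧸ H) → ((ti H B).V →ₗ[k] (ti H B).V) := fun J =>
    tm H (fun c => if c ∈ J then eC else eA) with hE
  have hcomp : ∀ I J : Finset (S ⧸ H), I ≠ J → E I ∘ₗ E J = 0 := by
    intro I J hIJ
    have hc : ∃ c, (c ∈ I ∧ c ∉ J) ∨ (c ∉ I ∧ c ∈ J) := by
      by_contra hcon
      push Not at hcon
      refine hIJ (Finset.ext fun c => ?_)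
      have := hcon c
      tauto
    obtain ⟨c, hc⟩ := hc
    simp only [hE]
    rw [← tm_comp]
    refine tm_eq_zero H _ c ?_
    refine LinearMap.ext fun x => ?_
    rcases hc with ⟨h1, h2⟩ | ⟨h1, h2⟩
    · simp only [h1, h2, if_true, if_false, LinearMap.comp_apply, LinearMap.zero_apply]
      rw [hCC, hgA, map_zero]
    · simp only [h1, h2, if_true, if_false, LinearMap.comp_apply, LinearMap.zero_apply]
      simp [heA, heC, hσ']
  have hidem : ∀ J, E J ∘ₗ E J = E J := by
    intro J
    simp only [hE]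
    rw [← tm_comp]
    congr 1
    funext c
    refine LinearMap.ext fun x => ?_
    by_cases hc : c ∈ J
    · simp only [hc, if_true, LinearMap.comp_apply]
      rw [hCC, hCC, hσ']
    · simp only [hc, if_false, LinearMap.comp_apply]
      rw [hAA _ (hgA x)]
  have hsum : ∑ J, E J = LinearMap.id := by
    have h1 := tm_add H (A := B) (B := B) (fun _ => eC) (fun _ => eA)
    have h2 : (fun _ : S ⧸ H => eC + eA) = fun _ => LinearMap.id := by
      funext c
      rw [heA]
      abel
    rw [h2, tm_id] at h1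
    exact h1.symm
  have htri : ∀ (t : S) (I J : Finset (S ⧸ H)) (w : (ti H B).V), I ≠ t • J → J.card ≤ I.card →
      E I ((ti H B).ρ t (E J w)) = 0 := by
    intro t I J w hne hcard
    obtain ⟨c, hcI, hcJ⟩ : ∃ c, c ∈ I ∧ c ∉ t • J := by
      by_contra hcon
      push Not at hcon
      refine hne (Finset.eq_of_subset_of_card_le hcon ?_)
      rw [Finset.card_smul_finset]
      exact hcard
    have h1 : (ti H B).ρ t (E J w) = cj (ti H B) (ti H B) t (E J) ((ti H B).ρ t w) := by
      simp only [cj, LinearMap.comp_apply]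
      rw [rho_inv_self]
    rw [h1]
    have h2 : E I ∘ₗ cj (ti H B) (ti H B) t (E J) = 0 := by
      simp only [hE]
      rw [tm_conj, ← tm_comp]
      refine tm_eq_zero H _ c ?_
      have hcJ' : t⁻¹ • c ∉ J := fun hh => hcJ (Finset.inv_smul_mem_iff.1 hh)
      simp only [hcI, hcJ', if_true, if_false]
      refine LinearMap.ext fun x => ?_
      simp only [LinearMap.comp_apply, cj, LinearMap.zero_apply]
      rw [hCC, h.hg, hgA, map_zero, map_zero]
    exact LinearMap.congr_fun h2 _
  have hT : Tri (ti H B) (fun J : Finset (S ⧸ H) => J.card) E :=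
    { hdeg := fun t J => Finset.card_smul_finset t J
      sum := fun w => by
        rw [← LinearMap.sum_apply, hsum, LinearMap.id_apply]
      idem := fun J w => LinearMap.congr_fun (hidem J) w
      orth := fun I J w hne => LinearMap.congr_fun (hcomp I J hne) w
      tri := htri }
  set n := Fintype.card (S ⧸ H) with hn
  have hn1 : 1 ≤ n := Fintype.card_pos
  -- no fixed points in the middle degrees
  have hfree : ∀ J : Finset (S ⧸ H), 1 ≤ J.card → J.card < n → ∃ t : S, t • J ≠ J := by
    intro J hJ1 hJn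
    obtain ⟨c, hc⟩ := Finset.card_pos.1 hJ1
    obtain ⟨d, hd⟩ : ∃ d, d ∉ J := by
      by_contra hcon
      push Not at hcon
      have : J = Finset.univ := Finset.eq_univ_iff_forall.2 hcon
      rw [this, Finset.card_univ] at hJn
      omega
    obtain ⟨t, ht⟩ := MulAction.exists_smul_eq S c d
    refine ⟨t, fun heq => hd ?_⟩
    rw [← heq, ← ht]
    exact Finset.smul_mem_smul_finset hc
  obtain ⟨hv, hi⟩ := chain hS s hs hT 1 n hn1 hfree
  -- `W 1` is the image of `tm f`
  have hf0 : tm H (fun _ => eA) ∘ₗ tm H (fun _ => f) = tm H (fun _ => f) := by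
    rw [← tm_comp]
    congr 1
    funext c
    refine LinearMap.ext fun x => ?_
    have hx : g (f x) = 0 := by
      have : f x ∈ LinearMap.ker g := by
        rw [← h.exact]
        exact ⟨x, rfl⟩
      exact this
    exact hAA _ hx
  obtain ⟨r, hr⟩ := f.exists_leftInverse_of_injective (LinearMap.ker_eq_bot.2 h.inj)
  have hr' : ∀ x, f (r (eA x)) = eA x := by
    intro x
    have h1 : eA x ∈ LinearMap.range f := by
      rw [h.exact]
      exact hgA x
    obtain ⟨a, ha⟩ := h1
    rw [← ha]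
    have : r (f a) = a := LinearMap.congr_fun hr a
    rw [this]
  have hE0 : E ∅ = tm H (fun _ => eA) := by
    simp [hE]
  have hEu : E Finset.univ = tm H (fun _ => eC) := by
    simp [hE]
  have hmem1 : ∀ v, tm H (fun _ => f) v ∈ W (ti H B) (fun J : Finset (S ⧸ H) => J.card) E 1 := by
    intro v J hJ
    have h1 : tm H (fun _ => f) v = E ∅ (tm H (fun _ => f) v) := by
      rw [hE0]
      exact (LinearMap.congr_fun hf0 v).symm
    rw [h1]
    refine LinearMap.congr_fun (hcomp J ∅ ?_) _
    rintro rfl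
    simp at hJ
  let e₀ : (ti H A).V →ₗ[k] (WM hT 1).V :=
    LinearMap.codRestrict (W (ti H B) (fun J : Finset (S ⧸ H) => J.card) E 1)
      (tm H (fun _ => f)) hmem1
  have he₀ : ∀ v, vl hT 1 (e₀ v) = tm H (fun _ => f) v := fun v => rfl
  have he₀i : Function.Injective e₀ := by
    intro a b hab
    have h1 := congrArg (vl hT 1) hab
    rw [he₀, he₀] at h1
    exact tm_inj H h.inj h1
  have he₀s : Function.Surjective e₀ := by
    intro w
    have h1 : vl hT 1 w = E ∅ (vl hT 1 w) := by
      conv_lhs => rw [← hT.sum (vl hT 1 w)]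
      refine Finset.sum_eq_single_of_mem ∅ (Finset.mem_univ _) fun J _ hJ => ?_
      exact vl_mem hT 1 w J (Finset.card_pos.2 (Finset.nonempty_iff_ne_empty.2 hJ))
    refine ⟨tm H (fun _ => r ∘ₗ eA) (vl hT 1 w), ?_⟩
    apply vl_inj
    rw [he₀, ← LinearMap.comp_apply, ← tm_comp]
    conv_rhs => rw [h1, hE0]
    congr 2
    funext c
    exact LinearMap.ext fun x => hr' x
  let e : (ti H A).V ≃ₗ[k] (WM hT 1).V := LinearEquiv.ofBijective e₀ ⟨he₀i, he₀s⟩
  have heH : IsH (ti H A) (WM hT 1) e.toLinearMap := by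
    intro t v
    apply vl_inj
    rw [vl_isH]
    change tm H (fun _ => f) ((ti H A).ρ t v) = (ti H B).ρ t (tm H (fun _ => f) v)
    exact tm_isH H h.hf t v
  have hvA : s.val (ti H A) = s.val (WM hT 1) := RankFn.val_iso s ⟨e, heH⟩
  -- `W n` is the kernel of `tm g`
  have hsesn : IsSES (WM hT n) (ti H B) (ti H C) (vl hT n) (tm H (fun _ => g)) :=
    { hf := vl_isH hT n
      hg := tm_isH H h.hg
      inj := vl_inj hT n
      surj := tm_surj H h.surj
      exact := by
        have hgu : tm H (fun _ => g) ∘ₗ tm H (fun _ => eC) = tm H (fun _ => g) := by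
          rw [← tm_comp]
          congr 1
          funext c
          refine LinearMap.ext fun x => ?_
          rw [LinearMap.comp_apply, hCC, hσ']
        have hug : tm H (fun _ => σ) ∘ₗ tm H (fun _ => g) = tm H (fun _ => eC) := by
          rw [← tm_comp]
        refine le_antisymm ?_ ?_
        · rintro _ ⟨w, rfl⟩
          rw [LinearMap.mem_ker, ← hgu, LinearMap.comp_apply, ← hEu,
            vl_mem hT n w Finset.univ (by rw [Finset.card_univ]), map_zero]
        · intro w hw
          have hw' : w ∈ W (ti H B) (fun J : Finset (S ⧸ H) => J.card) E n := by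
            intro J hJ
            have hJu : J = Finset.univ := by
              refine Finset.eq_univ_of_card J (le_antisymm ?_ hJ)
              exact Finset.card_le_univ J
            rw [hJu, hEu, ← hug, LinearMap.comp_apply, LinearMap.mem_ker.1 hw, map_zero]
          exact ⟨mk hT n w hw', vl_mk hT n w hw'⟩ }
  refine ⟨?_, ?_, ?_⟩
  · have h1 := RankFn.ses_val s hsesn
    rw [hvA, hv]
    exact h1
  · intro hC
    obtain ⟨h1, h2⟩ := RankFn.ses_null_r s hS hsesn hC
    refine ⟨?_, by rw [hvA, hv, h1]⟩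
    have h3 := RankFn.sylv s (incl_isH hT hn1) (vl_isH hT n)
    have h4 : IsH (WM hT 1) (ti H B) (vl hT n ∘ₗ incl hT hn1) :=
      (vl_isH hT n).comp (incl_isH hT hn1)
    have h5 := RankFn.comp_iso_r s h4 e heH
    have h6 : (vl hT n ∘ₗ incl hT hn1) ∘ₗ e.toLinearMap = tm H (fun _ => f) := rfl
    rw [h6] at h5
    rw [h5]
    refine le_antisymm (RankFn.le_cod s h4) ?_
    linarith
  · intro hA
    obtain ⟨h1, h2⟩ := RankFn.ses_null_l s hS hsesn (by rw [← hv, ← hvA, hA])
    exact ⟨h2, h1⟩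

end Pool.Agent.GamI
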