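import Pool.Agent.GamI.TIa
import Pool.Agent.GamI.TIb
import Pool.Agent.GamI.RQ
import Pool.Agent.GamI.Defs3

/-! # TIc: tensor induction is additive modulo null maps; permutation modules -/

set_option autoImplicit false

open scoped TensorProduct
open Module

noncomputable section

namespace Pool.Agent.GamI

variable {p : ℕ} [Fact p.Prime] {k : Type} [Field k] [CharP k p] {S : Type} [Group S] [Finite S]

namespace TIcAux

/-- proper nonempty subsets -/
def PS (Y : Type) [Fintype Y] : Type := {J : Finset Y // J ≠ ∅ ∧ J ≠ Finset.univ}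

instance (Y : Type) [Fintype Y] [DecidableEq Y] : Fintype (PS Y) :=
  inferInstanceAs (Fintype {J : Finset Y // J ≠ ∅ ∧ J ≠ Finset.univ})

instance (Y : Type) [Fintype Y] [MulAction S Y] : MulAction S (PS Y) where
  smul s J := ⟨J.1.map (MulAction.toPerm s).toEmbedding, by
    refine ⟨?_, ?_⟩
    · rw [Ne, Finset.map_eq_empty]
      exact J.2.1
    · intro h
      apply J.2.2
      rw [Finset.eq_univ_iff_forall] at h ⊢
      intro x
      have := h (s • x)
      rw [Finset.mem_map] at this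
      obtain ⟨y, hy, hyx⟩ := this
      have h2 : s • y = s • x := hyx
      rw [← smul_left_cancel s h2]
      exact hy⟩
  one_smul J := by
    apply Subtype.ext
    change J.1.map (MulAction.toPerm (1 : S)).toEmbedding = J.1
    ext x
    simp
  mul_smul s t J := by
    apply Subtype.ext
    change J.1.map (MulAction.toPerm (s * t)).toEmbedding =
      (J.1.map (MulAction.toPerm t).toEmbedding).map (MulAction.toPerm s).toEmbedding
    ext x
    simp [mul_smul]

omit [Finite S] in
lemma mem_smul_PS {Y : Type} [Fintype Y] [MulAction S Y] (s : S) (J : PS Y) (x : Y) :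
    x ∈ (s • J).1 ↔ s⁻¹ • x ∈ J.1 := by
  change x ∈ J.1.map (MulAction.toPerm s).toEmbedding ↔ _
  rw [Finset.mem_map]
  constructor
  · rintro ⟨y, hy, rfl⟩
    change s⁻¹ • s • y ∈ J.1
    rwa [inv_smul_smul]
  · intro h
    exact ⟨_, h, smul_inv_smul s x⟩

omit [Finite S] in
lemma exists_smul (H : Subgroup S) (c d : S ⧸ H) : ∃ s : S, s • c = d := by
  obtain ⟨x, rfl⟩ := QuotientGroup.mk_surjective c
  obtain ⟨y, rfl⟩ := QuotientGroup.mk_surjective d
  refine ⟨y * x⁻¹, ?_⟩
  change ((y * x⁻¹ * x : S) : S ⧸ H) = _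
  rw [inv_mul_cancel_right]

/-- functions with the twisted action -/
def TF (H : Subgroup S) (Z : Type) : Type := S ⧸ H → Z

instance (H : Subgroup S) (Z : Type) [MulAction H Z] : MulAction S (TF H Z) where
  smul s φ := fun c => hc H s (s⁻¹ • c) • φ (s⁻¹ • c)
  one_smul φ := by
    funext c
    change hc H 1 ((1 : S)⁻¹ • c) • φ ((1 : S)⁻¹ • c) = φ c
    rw [hc_one, one_smul, inv_one, one_smul]
  mul_smul s t φ := by
    funext c
    change hc H (s * t) ((s * t)⁻¹ • c) • φ ((s * t)⁻¹ • c) =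
      hc H s (s⁻¹ • c) • hc H t (t⁻¹ • s⁻¹ • c) • φ (t⁻¹ • s⁻¹ • c)
    have h1 : (s * t)⁻¹ • c = t⁻¹ • s⁻¹ • c := by rw [mul_inv_rev, mul_smul]
    rw [h1, hc_mul, mul_smul, smul_inv_smul]

end TIcAux

open TIcAux

theorem ti_add_null (hS : IsPGroup p S) (s : RankFn k S) (hs : s.NullPerm) (H : Subgroup S)
    {A B : Mo k H} (f g : A.V →ₗ[k] B.V) (hf : IsH A B f) (hg : IsH A B g) :
    s.s (ti H A) (ti H B) ((tm H fun _ => f + g) - (tm H fun _ => f) - (tm H fun _ => g)) = 0 := by
  classical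
  have : Fintype (S ⧸ H) := Fintype.ofFinite _
  let F : Finset (S ⧸ H) → ((ti H A).V →ₗ[k] (ti H B).V) :=
    fun J => tm H (fun c => if c ∈ J then f else g)
  have h1 : (tm H fun _ => f + g) = ∑ J : Finset (S ⧸ H), F J :=
    tm_add H (fun _ => f) (fun _ => g)
  have h2 : F Finset.univ = tm H fun _ => f := by simp [F]
  have h3 : F ∅ = tm H fun _ => g := by simp [F]
  have hne : (∅ : Finset (S ⧸ H)) ≠ Finset.univ := by
    intro h
    have : (((1 : S) : S ⧸ H)) ∈ (∅ : Finset (S ⧸ H)) := by rw [h]; exact Finset.mem_univ _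
    simp at this
  have h4 : ∑ J : Finset (S ⧸ H), F J = (∑ J : PS (S ⧸ H), F J.1) + (F ∅ + F Finset.univ) := by
    rw [← Finset.sum_filter_add_sum_filter_not Finset.univ (fun J => J ≠ ∅ ∧ J ≠ Finset.univ)]
    congr 1
    · exact (Finset.sum_subtype _ (fun J => by simp) F)
    · rw [← Finset.sum_pair hne]
      refine Finset.sum_congr ?_ fun _ _ => rfl
      ext J
      simp only [Finset.mem_filter, Finset.mem_univ, true_and, Finset.mem_insert,
        Finset.mem_singleton]
      tauto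
  have h5 : (tm H fun _ => f + g) - (tm H fun _ => f) - (tm H fun _ => g) =
      ∑ J : PS (S ⧸ H), F J.1 := by
    rw [h1, h4, h2, h3]
    abel
  rw [h5]
  refine s.null_sum hS hs (PS (S ⧸ H)) ?_ (fun J => F J.1) ?_
  · rintro ⟨J, hJ1, hJ2⟩
    by_contra hcon
    push Not at hcon
    obtain ⟨c, hc⟩ := Finset.nonempty_iff_ne_empty.2 hJ1
    apply hJ2
    rw [Finset.eq_univ_iff_forall]
    intro d
    obtain ⟨t, ht⟩ := exists_smul H c d
    have h6 := congrArg Subtype.val (hcon t)
    have h7 := (mem_smul_PS t (⟨J, hJ1, hJ2⟩ : PS (S ⧸ H)) d).2 (by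
      rw [← ht, inv_smul_smul]
      exact hc)
    rw [h6] at h7
    exact h7
  · intro t J
    change cj (ti H A) (ti H B) t (tm H _) = tm H _
    rw [tm_conj]
    congr 1
    funext c
    have h6 := mem_smul_PS t J c
    by_cases h7 : t⁻¹ • c ∈ J.1
    · rw [if_pos h7, if_pos (h6.2 h7), cj_isH hf]
    · rw [if_neg h7, if_neg (fun h => h7 (h6.1 h)), cj_isH hg]

theorem ti_perm (hS : IsPGroup p S) (s : RankFn k S) (hs : s.NullPerm) (H : Subgroup S)
    (K : Subgroup H) (hK : K ≠ ⊤) : s.val (ti H (perm k H (H ⧸ K))) = 0 := by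
  classical
  have : Fintype (S ⧸ H) := Fintype.ofFinite _
  have : Fintype (H ⧸ K) := Fintype.ofFinite _
  let _ : Fintype (TF H (H ⧸ K)) := inferInstanceAs (Fintype (S ⧸ H → H ⧸ K))
  let e' : (H ⧸ K) → ((H ⧸ K → k) →ₗ[k] (H ⧸ K → k)) :=
    fun x => (LinearMap.single k (fun _ : H ⧸ K => k) x) ∘ₗ (LinearMap.proj x)
  have he : ∀ (x : H ⧸ K) (f : H ⧸ K → k) (y : H ⧸ K),
      e' x f y = if y = x then f x else 0 := by
    intro x f y
    change (Pi.single x (f x) : H ⧸ K → k) y = _
    rw [Pi.single_apply]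
  have hsum' : ∑ x, e' x = LinearMap.id := by
    refine LinearMap.ext fun f => ?_
    rw [LinearMap.sum_apply]
    funext y
    rw [Finset.sum_apply, Finset.sum_eq_single y]
    · rw [he, if_pos rfl]
      rfl
    · intro b _ hb
      rw [he, if_neg (Ne.symm hb)]
    · simp
  let e : (H ⧸ K) → ((perm k H (H ⧸ K)).V →ₗ[k] (perm k H (H ⧸ K)).V) := e'
  have hsum : ∑ x, e x = LinearMap.id := hsum'
  have hconj : ∀ (h : H) (x : H ⧸ K),
      cj (perm k H (H ⧸ K)) (perm k H (H ⧸ K)) h (e x) = e (h • x) := by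
    intro h x
    refine LinearMap.ext fun f => ?_
    have h0 : ∀ (f : H ⧸ K → k) (y : H ⧸ K),
        (e' x (permRep k H (H ⧸ K) h⁻¹ f)) (h⁻¹ • y) = (e' (h • x) f) y := by
      intro f y
      rw [he, he]
      have h1 : (h⁻¹ • y = x) ↔ (y = h • x) := inv_smul_eq_iff
      have h2 : permRep k H (H ⧸ K) h⁻¹ f x = f (h • x) := by
        change f (h⁻¹⁻¹ • x) = _
        rw [inv_inv]
      rw [h2]
      by_cases h3 : y = h • x
      · rw [if_pos h3, if_pos (h1.2 h3)]
      · rw [if_neg h3, if_neg (fun h => h3 (h1.1 h))]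
    funext y
    exact h0 f y
  have h1 : (LinearMap.id : (ti H (perm k H (H ⧸ K))).V →ₗ[k] _) =
      ∑ φ : TF H (H ⧸ K), tm H (fun c => e (φ c)) := by
    rw [← tm_id]
    conv_lhs => rw [← hsum]
    exact tm_sum H e
  rw [RankFn.val, h1]
  refine s.null_sum hS hs (TF H (H ⧸ K)) ?_ (fun φ => tm H (fun c => e (φ c))) ?_
  · intro φ
    by_contra hcon
    push Not at hcon
    apply hK
    set c0 : S ⧸ H := ((1 : S) : S ⧸ H) with hc0
    have h2 : ∀ h : H, h • φ c0 = φ c0 := by
      intro h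
      set t := c0.out * h * c0.out⁻¹ with ht
      have h3 : t • c0 = c0 := by
        conv_lhs => rw [← QuotientGroup.out_eq' c0]
        conv_rhs => rw [← QuotientGroup.out_eq' c0]
        change ((t * c0.out : S) : S ⧸ H) = ((c0.out : S) : S ⧸ H)
        rw [ht, inv_mul_cancel_right]
        exact (QuotientGroup.eq.2 (by simp)).symm
      have h4 : t⁻¹ • c0 = c0 := by
        rw [inv_smul_eq_iff, h3]
      have h5 : hc H t c0 = h := by
        apply Subtype.ext
        rw [hc_coe, h3, ht]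
        group
      have h6 := congrFun (hcon t) c0
      change hc H t (t⁻¹ • c0) • φ (t⁻¹ • c0) = φ c0 at h6
      rw [h4, h5] at h6
      exact h6
    obtain ⟨x, hx⟩ := QuotientGroup.mk_surjective (φ c0)
    rw [← hx] at h2
    rw [Subgroup.eq_top_iff']
    intro g
    have h3 := h2 (x * g * x⁻¹)
    have h4 : ((x * g * x⁻¹) • (x : H ⧸ K)) = ((x * g * x⁻¹ * x : H) : H ⧸ K) := rfl
    rw [h4] at h3
    have h5 := QuotientGroup.eq.1 h3.symm
    simpa [mul_assoc] using h5
  · intro t φ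
    rw [tm_conj]
    congr 1
    funext c
    rw [hconj]
    rfl

/-- (uses `ti_ses`) -/
theorem ti_pf (hS : IsPGroup p S) (s : RankFn k S) (hs : s.NullPerm) (H : Subgroup S)
    (A : Mo k H) (hA : PF A) : s.val (ti H A) = 0 := by
  induction hA with
  | zero A h =>
    have h1 : (LinearMap.id : A.V →ₗ[k] A.V) = 0 := by
      have := Module.finrank_zero_iff.1 h
      refine LinearMap.ext fun v => Subsingleton.elim _ _
    have h2 : (LinearMap.id : (ti H A).V →ₗ[k] (ti H A).V) = 0 := by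
      rw [← tm_id]
      exact tm_eq_zero H _ ((1 : S) : S ⧸ H) h1
    rw [RankFn.val, h2, s.s_zero]
  | ext A B C f g K hses hA hK hiso ih =>
    have h1 := (ti_ses hS s hs H hses).1
    rw [ih, s.val_iso (ti_iso H hiso), ti_perm hS s hs H K hK, add_zero] at h1
    exact le_antisymm h1 (s.val_nonneg _)

end Pool.Agent.GamI
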