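import Pool.Agent.GamI.TIb
import Pool.Agent.GamI.TIc

/-! # CHa: a `p`-group with an element of order `p²` -/

set_option autoImplicit false

open scoped TensorProduct
open Module

noncomputable section

namespace Pool.Agent.GamI

variable {p : ℕ} [Fact p.Prime] {k : Type} [Field k] [CharP k p]

namespace CHaAux

/-- sequences supported on `{0, …, n-1}` -/
def Dn (k : Type) [Field k] (n : ℕ) : Submodule k (ℕ → k) where
  carrier := {f | ∀ i, n ≤ i → f i = 0}
  zero_mem' := by
    intro i _
    rfl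
  add_mem' := by
    intro a b ha hb i hi
    rw [Pi.add_apply, ha i hi, hb i hi, add_zero]
  smul_mem' := by
    intro c a ha i hi
    rw [Pi.smul_apply, ha i hi, smul_zero]

variable (k) in
/-- restriction to `Fin n` -/
def dnEquiv (n : ℕ) : Dn k n ≃ₗ[k] (Fin n → k) where
  toFun f i := f.1 i
  map_add' _ _ := rfl
  map_smul' _ _ := rfl
  invFun f := ⟨fun i => if h : i < n then f ⟨i, h⟩ else 0, fun i hi => by
    simp [not_lt.2 hi]⟩
  left_inv f := by
    apply Subtype.ext
    funext i
    by_cases h : i < n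
    · simp [h]
    · simp only [h, dif_neg, not_false_eq_true]
      exact (f.2 i (not_lt.1 h)).symm
  right_inv f := by
    funext i
    simp

instance (n : ℕ) : Module.Finite k (Dn k n) := Module.Finite.equiv (dnEquiv k n).symm

lemma finrank_Dn (n : ℕ) : finrank k (Dn k n) = n := by
  rw [(dnEquiv k n).finrank_eq, Module.finrank_fin_fun]

variable (k) in
/-- the shift from `Dn (n+1)` or `Dn n` to itself -/
def Nn (n : ℕ) : Module.End k (Dn k n) where
  toFun f := ⟨fun i => f.1 (i + 1), fun i hi => f.2 (i + 1) (by omega)⟩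
  map_add' _ _ := rfl
  map_smul' _ _ := rfl

lemma Nn_apply (n : ℕ) (f : Dn k n) (i : ℕ) : (Nn k n f).1 i = f.1 (i + 1) := rfl

lemma Nn_pow_apply (n m : ℕ) (f : Dn k n) (i : ℕ) : ((Nn k n ^ m) f).1 i = f.1 (i + m) := by
  induction m generalizing i with
  | zero => rfl
  | succ m ih =>
    rw [pow_succ', Module.End.mul_apply, Nn_apply, ih]
    have h : i + 1 + m = i + (m + 1) := by omega
    rw [h]

lemma Nn_pow_zero (n m : ℕ) (h : n ≤ m) : Nn k n ^ m = 0 := by
  refine LinearMap.ext fun f => Subtype.ext (funext fun i => ?_)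
  rw [Nn_pow_apply]
  exact f.2 _ (by omega)

lemma one_add_pow (n a : ℕ) : (1 + Nn k n) ^ (p ^ a) = 1 + Nn k n ^ (p ^ a) := by
  have h : (1 + (Polynomial.X : Polynomial k)) ^ (p ^ a) = 1 + Polynomial.X ^ (p ^ a) := by
    rw [add_pow_char_pow, one_pow]
  have h2 := congrArg (Polynomial.aeval (Nn k n)) h
  simpa using h2

lemma one_add_pow_eq (n a : ℕ) (h : n ≤ p ^ a) : (1 + Nn k n) ^ (p ^ a) = 1 := by
  rw [one_add_pow, Nn_pow_zero n _ h, add_zero]

/-- the operator as a unit -/
def uN (n : ℕ) (h : n ≤ p ^ 2) : (Module.End k (Dn k n))ˣ :=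
  Units.ofPowEqOne (1 + Nn k n) (p ^ 2) (one_add_pow_eq n 2 h)
    (pow_ne_zero _ (Fact.out : p.Prime).ne_zero)

lemma uN_pow (n : ℕ) (h : n ≤ p ^ 2) : (uN (k := k) n h) ^ (p ^ 2) = 1 :=
  Units.pow_ofPowEqOne _ _

lemma uN_coe (n : ℕ) (h : n ≤ p ^ 2) : ((uN (k := k) n h : (Module.End k (Dn k n))ˣ) :
    Module.End k (Dn k n)) = 1 + Nn k n := rfl

variable {H : Type} [Group H] [Finite H] {x : H}

/-- the representation -/
abbrev DR (hx : ∀ h : H, h ∈ Subgroup.zpowers x) (ho : orderOf x = p ^ 2) (n : ℕ)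
    (h : n ≤ p ^ 2) : Representation k H (Dn k n) :=
  (Units.coeHom _).comp (monoidHomOfForallMemZpowers hx (g' := uN (k := k) n h)
    (by rw [ho]; exact orderOf_dvd_of_pow_eq_one (uN_pow n h)))

/-- the representation -/
abbrev DM (hx : ∀ h : H, h ∈ Subgroup.zpowers x) (ho : orderOf x = p ^ 2) (n : ℕ)
    (h : n ≤ p ^ 2) : Mo k H where
  V := Dn k n
  ρ := DR hx ho n h

omit [Finite H] in
lemma DR_x (hx : ∀ h : H, h ∈ Subgroup.zpowers x) (ho : orderOf x = p ^ 2) (n : ℕ)
    (h : n ≤ p ^ 2) : DR (k := k) hx ho n h x = 1 + Nn k n := by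
  change ((monoidHomOfForallMemZpowers hx _ x : (Module.End k (Dn k n))ˣ) :
    Module.End k (Dn k n)) = _
  rw [monoidHomOfForallMemZpowers_apply_gen]
  rfl

omit [Finite H] in
lemma DR_x_apply (hx : ∀ h : H, h ∈ Subgroup.zpowers x) (ho : orderOf x = p ^ 2) (n : ℕ)
    (h : n ≤ p ^ 2) (f : Dn k n) (i : ℕ) :
    (DR (k := k) hx ho n h x f).1 i = f.1 i + f.1 (i + 1) := by
  rw [DR_x]
  rfl

omit [Finite H] in
lemma isH_of_gen [Finite H] (hx : ∀ h : H, h ∈ Subgroup.zpowers x) {A B : Mo k H}
    {f : A.V →ₗ[k] B.V} (hf : ∀ v, f (A.ρ x v) = B.ρ x (f v)) : IsH A B f := by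
  intro h
  have h1 : h ∈ Submonoid.powers x := mem_powers_iff_mem_zpowers.2 (hx h)
  obtain ⟨n, rfl⟩ := h1
  induction n with
  | zero => intro v; simp
  | succ n ih =>
    intro v
    simp only at ih ⊢
    rw [pow_succ, map_mul, map_mul, Module.End.mul_apply, Module.End.mul_apply, ih, hf]

/-- delta sequences -/
def dl (k : Type) [Field k] (n j : ℕ) (h : j < n) : Dn k n :=
  ⟨fun i => if i = j then 1 else 0, fun i hi => if_neg (by omega)⟩

lemma Nn_dl (n j : ℕ) (h : j + 1 < n) : Nn k n (dl k n (j + 1) h) = dl k n j (by omega) := by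
  apply Subtype.ext
  funext i
  rw [Nn_apply]
  simp [dl]

lemma span_dl (n : ℕ) (f : Dn k n) : f = ∑ j : Fin n, f.1 j • dl k n j j.2 := by
  apply (dnEquiv k n).injective
  rw [map_sum]
  funext i
  rw [Finset.sum_apply]
  simp [dnEquiv, dl]
  rw [Finset.sum_eq_single i]
  · simp
  · intro j _ hj
    rw [if_neg]
    exact fun h => hj (Fin.ext h.symm)
  · simp

/-- the module of dimension `p` is `k[H/⟨x^p⟩]` -/
lemma iso_perm (hx : ∀ h : H, h ∈ Subgroup.zpowers x) (ho : orderOf x = p ^ 2) (hp : p ≤ p ^ 2) :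
    Iso (DM (k := k) hx ho p hp) (perm k H (H ⧸ Subgroup.zpowers (x ^ p))) := by
  classical
  have hpp : p.Prime := Fact.out
  have hpos : 0 < p := hpp.pos
  have : Fintype (H ⧸ Subgroup.zpowers (x ^ p)) := Fintype.ofFinite _
  set K := Subgroup.zpowers (x ^ p) with hK
  set ρ := DR (k := k) hx ho p hp with hρ
  set a : Dn k p := dl k p (p - 1) (by omega) with ha
  -- `K` acts trivially
  have hK1 : ∀ κ ∈ K, ρ κ = 1 := by
    have h1 : ρ (x ^ p) = 1 := by
      rw [map_pow, hρ, DR_x]
      have := one_add_pow_eq (k := k) (p := p) p 1 (by rw [pow_one])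
      rwa [pow_one] at this
    intro κ hκ
    obtain ⟨n, rfl⟩ := (mem_powers_iff_mem_zpowers.2 hκ)
    simp only [map_pow] at h1 ⊢
    rw [h1, one_pow]
  let φ : (H ⧸ K → k) →ₗ[k] Dn k p := ∑ c, (LinearMap.proj c).smulRight (ρ c.out a)
  have hφ : ∀ f, φ f = ∑ c, f c • ρ c.out a := by
    intro f
    simp [φ]
  have key : ∀ (h : H) (c : H ⧸ K), ρ (h • c).out a = ρ h (ρ c.out a) := by
    intro h c
    have h1 : (c.out⁻¹ * h⁻¹ * (h • c).out) ∈ K := by
      have h2 : ((h * c.out : H) : H ⧸ K) = (((h • c).out : H) : H ⧸ K) := by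
        rw [QuotientGroup.out_eq']
        conv_rhs => rw [← QuotientGroup.out_eq' c]
        rfl
      have := QuotientGroup.eq.1 h2
      simpa [mul_inv_rev, mul_assoc] using this
    have h3 : (h • c).out = h * c.out * (c.out⁻¹ * h⁻¹ * (h • c).out) := by group
    rw [h3, map_mul, map_mul, hK1 _ h1, mul_one]
    rfl
  have hφH' : ∀ (h : H) (f : H ⧸ K → k), φ (permRep k H (H ⧸ K) h f) = ρ h (φ f) := by
    intro h f
    rw [hφ, hφ, map_sum]
    rw [← Equiv.sum_comp (MulAction.toPerm h)]
    refine Finset.sum_congr rfl fun c _ => ?_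
    rw [MulAction.toPerm_apply, key, map_smul]
    congr 1
    change f (h⁻¹ • h • c) = f c
    rw [inv_smul_smul]
  have hφH : IsH (perm k H (H ⧸ K)) (DM (k := k) hx ho p hp) φ := hφH'
  have hsur : Function.Surjective φ := by
    rw [← LinearMap.range_eq_top]
    have hst : ∀ f ∈ LinearMap.range φ, Nn k p f ∈ LinearMap.range φ := by
      rintro f ⟨f', rfl⟩
      refine ⟨permRep k H (H ⧸ K) x f' - f', ?_⟩
      rw [map_sub, hφH', hρ, DR_x]
      simp
    have hd : ∀ j, (hj : j < p) → dl k p (p - 1 - j) (by omega) ∈ LinearMap.range φ := by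
      intro j
      induction j with
      | zero =>
        intro _
        refine ⟨Pi.single ((1 : H) : H ⧸ K) 1, ?_⟩
        rw [hφ, Finset.sum_eq_single ((1 : H) : H ⧸ K)]
        · rw [Pi.single_eq_same, one_smul]
          have h1 : (((1 : H) : H ⧸ K).out) ∈ K := by
            have : (((1 : H) : H ⧸ K).out : H ⧸ K) = ((1 : H) : H ⧸ K) := QuotientGroup.out_eq' _
            have h2 := QuotientGroup.eq.1 this.symm
            simpa using h2
          rw [hK1 _ h1]
          rfl
        · intro b _ hb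
          rw [Pi.single_eq_of_ne hb, zero_smul]
        · simp
      | succ j ih =>
        intro hj
        have h1 := hst _ (ih (by omega))
        have h2 : dl k p (p - 1 - j) (by omega) = dl k p (p - 1 - (j + 1) + 1) (by omega) := by
          congr 1
          omega
        rw [h2, Nn_dl] at h1
        exact h1
    rw [eq_top_iff]
    intro f _
    rw [span_dl p f]
    refine Submodule.sum_mem _ fun j _ => Submodule.smul_mem _ _ ?_
    have h1 := hd (p - 1 - j) (by omega)
    have h2 : dl k p (j : ℕ) j.2 = dl k p (p - 1 - (p - 1 - j)) (by omega) := by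
      congr 1
      omega
    rw [h2]
    exact h1
  have hcard : finrank k (H ⧸ K → k) = p := by
    rw [Module.finrank_fintype_fun_eq_card, ← Nat.card_eq_fintype_card]
    have h1 := Subgroup.card_eq_card_quotient_mul_card_subgroup K
    have h2 : Nat.card H = p ^ 2 := by
      rw [← ho, ← Nat.card_zpowers]
      have h3 : Subgroup.zpowers x = ⊤ := (Subgroup.eq_top_iff' _).2 hx
      rw [h3, Subgroup.card_top]
    have h3 : Nat.card K = p := by
      rw [hK, Nat.card_zpowers, orderOf_pow_of_dvd hpos.ne' (by rw [ho]; exact dvd_pow_self p two_ne_zero), ho,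
        pow_two, Nat.mul_div_cancel _ hpos]
    rw [h2, h3, pow_two] at h1
    exact (Nat.eq_of_mul_eq_mul_right hpos h1).symm
  have hinj : Function.Injective φ := by
    rw [← LinearMap.ker_eq_bot]
    have h1 := LinearMap.finrank_range_add_finrank_ker φ
    rw [LinearMap.range_eq_top.2 hsur, finrank_top, finrank_Dn, hcard] at h1
    exact Submodule.finrank_eq_zero.1 (by omega)
  exact (iso_of_bij φ hφH ⟨hinj, hsur⟩).symm

end CHaAux

open CHaAux

/-- data for the cyclic group of order `p²`: `k → J_{p+1} → k` -/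
theorem cyclic_data (H : Type) [Group H] [Finite H] (x : H) (hx : ∀ h : H, h ∈ Subgroup.zpowers x)
    (ho : orderOf x = p ^ 2) :
    ∃ (J C A : Mo k H) (u : (triv k H).V →ₗ[k] J.V) (v : J.V →ₗ[k] (triv k H).V)
      (g : J.V →ₗ[k] C.V) (f : A.V →ₗ[k] J.V),
      IsSES (triv k H) J C u g ∧ IsSES A J (triv k H) f v ∧ v ∘ₗ u = 0 ∧
      (∃ K : Subgroup H, K ≠ ⊤ ∧ Iso C (perm k H (H ⧸ K)) ∧ Iso A (perm k H (H ⧸ K))) := by
  have hp : p.Prime := Fact.out
  have hp1 : p + 1 ≤ p ^ 2 := by nlinarith [hp.two_le]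
  have hp0 : p ≤ p ^ 2 := by nlinarith [hp.two_le]
  have hpos : 0 < p := hp.pos
  let u : k →ₗ[k] Dn k (p + 1) := LinearMap.toSpanSingleton k _ (dl k (p + 1) 0 (by omega))
  let v : Dn k (p + 1) →ₗ[k] k :=
    { toFun := fun f => f.1 p
      map_add' := fun _ _ => rfl
      map_smul' := fun _ _ => rfl }
  let g : Dn k (p + 1) →ₗ[k] Dn k p :=
    { toFun := fun f => ⟨fun i => f.1 (i + 1), fun i hi => f.2 _ (by omega)⟩
      map_add' := fun _ _ => rfl
      map_smul' := fun _ _ => rfl }
  let f : Dn k p →ₗ[k] Dn k (p + 1) :=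
    { toFun := fun f => ⟨f.1, fun i hi => f.2 _ (by omega)⟩
      map_add' := fun _ _ => rfl
      map_smul' := fun _ _ => rfl }
  have hu : ∀ (c : k) (i : ℕ), (u c).1 i = if i = 0 then c else 0 := by
    intro c i
    change (c • (dl k (p + 1) 0 (by omega))).1 i = _
    simp [dl]
  refine ⟨DM hx ho (p + 1) hp1, DM hx ho p hp0, DM hx ho p hp0, u, v, g, f, ?_, ?_, ?_,
    Subgroup.zpowers (x ^ p), ?_, iso_perm hx ho hp0, iso_perm hx ho hp0⟩
  · refine ⟨?_, ?_, ?_, ?_, ?_⟩
    · have h0 : ∀ c : k, u c = DR hx ho (p + 1) hp1 x (u c) := by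
        intro c
        apply Subtype.ext
        funext i
        rw [DR_x_apply, hu, hu]
        simp
      exact isH_of_gen hx h0
    · refine isH_of_gen hx fun c => ?_
      apply Subtype.ext
      funext i
      change (DR hx ho (p + 1) hp1 x c).1 (i + 1) = (DR hx ho p hp0 x (g c)).1 i
      rw [DR_x_apply, DR_x_apply]
      rfl
    · have h0 : ∀ a b : k, u a = u b → a = b := by
        intro a b hab
        have := congrArg (fun f : Dn k (p + 1) => f.1 0) hab
        simpa [hu] using this
      exact h0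
    · intro c
      refine ⟨⟨fun i => if i = 0 then 0 else c.1 (i - 1), ?_⟩, ?_⟩
      · intro i hi
        change (if i = 0 then (0 : k) else c.1 (i - 1)) = 0
        rw [if_neg (by omega)]
        exact c.2 _ (by omega)
      · apply Subtype.ext
        funext i
        change (if i + 1 = 0 then (0 : k) else c.1 (i + 1 - 1)) = c.1 i
        simp
    · have h0 : LinearMap.range u = LinearMap.ker g := by
        ext c
        rw [LinearMap.mem_ker]
        constructor
        · rintro ⟨d, rfl⟩
          apply Subtype.ext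
          funext i
          change (u d).1 (i + 1) = 0
          rw [hu]
          simp
        · intro h
          refine ⟨c.1 0, ?_⟩
          apply Subtype.ext
          funext i
          rw [hu]
          split_ifs with hi
          · rw [hi]
          · have := congrArg (fun f : Dn k p => f.1 (i - 1)) h
            change c.1 (i - 1 + 1) = 0 at this
            rw [Nat.sub_add_cancel (Nat.pos_of_ne_zero hi)] at this
            exact this.symm
      exact h0
  · refine ⟨?_, ?_, ?_, ?_, ?_⟩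
    · refine isH_of_gen hx fun c => ?_
      apply Subtype.ext
      funext i
      change (DR hx ho p hp0 x c).1 i = (DR hx ho (p + 1) hp1 x (f c)).1 i
      rw [DR_x_apply, DR_x_apply]
      rfl
    · refine isH_of_gen hx fun c => ?_
      change (DR hx ho (p + 1) hp1 x c).1 p = c.1 p
      rw [DR_x_apply, c.2 (p + 1) le_rfl, add_zero]
    · intro a b hab
      apply Subtype.ext
      exact congrArg (fun f : Dn k (p + 1) => f.1) hab
    · have h0 : ∀ c : k, ∃ f, v f = c := by
        intro c
        refine ⟨c • dl k (p + 1) p (by omega), ?_⟩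
        change (c • dl k (p + 1) p (by omega)).1 p = c
        simp [dl]
      exact h0
    · have h0 : LinearMap.range f = LinearMap.ker v := by
        ext c
        rw [LinearMap.mem_ker]
        constructor
        · rintro ⟨d, rfl⟩
          exact d.2 p le_rfl
        · intro h
          refine ⟨⟨c.1, fun i hi => ?_⟩, rfl⟩
          rcases Nat.lt_or_ge p i with h1 | h1
          · exact c.2 i (by omega)
          · have h2 : i = p := by omega
            rw [h2]
            exact h
      exact h0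
  · have h0 : v ∘ₗ u = 0 := by
      refine LinearMap.ext fun c => ?_
      change (u c).1 p = 0
      rw [hu, if_neg hpos.ne']
    exact h0
  · intro h
    have h1 : Nat.card (Subgroup.zpowers (x ^ p)) = p := by
      rw [Nat.card_zpowers, orderOf_pow_of_dvd hpos.ne'
        (by rw [ho]; exact dvd_pow_self p two_ne_zero), ho, pow_two, Nat.mul_div_cancel _ hpos]
    have h2 : Nat.card H = p ^ 2 := by
      rw [← ho, ← Nat.card_zpowers]
      have h3 : Subgroup.zpowers x = ⊤ := (Subgroup.eq_top_iff' _).2 hx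
      rw [h3, Subgroup.card_top]
    rw [h, Subgroup.card_top, h2] at h1
    nlinarith [hp.two_le]

theorem cyclic_case {S : Type} [Group S] [Finite S] (hS : IsPGroup p S) (s : RankFn k S)
    (hs : s.NullPerm) (x : S) (hx : orderOf x = p ^ 2) : s.val (triv k S) = 0 := by
  set H : Subgroup S := Subgroup.zpowers x with hH
  let x' : H := ⟨x, Subgroup.mem_zpowers x⟩
  have hx' : ∀ h : H, h ∈ Subgroup.zpowers x' := by
    rintro ⟨h, hh⟩
    obtain ⟨n, rfl⟩ := hh
    exact ⟨n, by apply Subtype.ext; simp [x']⟩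
  have ho : orderOf x' = p ^ 2 := by
    rw [← hx]
    exact Subgroup.orderOf_mk x _
  obtain ⟨J, C, A, u, v, g, f, h1, h2, h3, K, hK, hC, hA⟩ :=
    cyclic_data (p := p) (k := k) H x' hx' ho
  have hC0 : s.val (ti H C) = 0 := by
    rw [s.val_iso (ti_iso H hC)]
    exact ti_perm hS s hs H K hK
  have hA0 : s.val (ti H A) = 0 := by
    rw [s.val_iso (ti_iso H hA)]
    exact ti_perm hS s hs H K hK
  obtain ⟨h4, h5⟩ := (ti_ses hS s hs H h1).2.1 hC0
  obtain ⟨h6, h7⟩ := (ti_ses hS s hs H h2).2.2 hA0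
  have h8 := s.sylv (tm_isH H h1.hf) (tm_isH H h2.hg)
  have h9 : (tm H fun _ => v) ∘ₗ (tm H fun _ => u) = 0 := by
    rw [← tm_comp]
    exact tm_eq_zero H _ ((1 : S) : S ⧸ H) h3
  rw [h9, s.s_zero, h4, h6, add_zero] at h8
  have h10 := s.val_nonneg (ti H J)
  have h11 : s.val (ti H (triv k H)) = 0 := by
    rw [h5]
    linarith
  rw [← s.val_iso (ti_triv H)]
  exact h11

end Pool.Agent.GamI
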