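import Pool.Agent.GamI.Defs3
import Pool.Agent.GamI.TE

/-! # CHb: the module `N` for `(ℤ/p)²` -/

set_option autoImplicit false
set_option linter.unusedSectionVars false

open scoped TensorProduct
open Module

noncomputable section

namespace Pool.Agent.GamI

namespace CHbaux

variable {p : ℕ} [Fact p.Prime] {k : Type} [Field k]

/-- translation by `(c₁ h, c₂ h)` on functions on `(ℤ/p)²` -/
def rhoF (k : Type) [Field k] {H : Type} [Group H] (c₁ c₂ : H →* Multiplicative (ZMod p)) :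
    Representation k H (ZMod p × ZMod p → k) where
  toFun h := LinearMap.funLeft k k (fun x => (x.1 - (c₁ h).toAdd, x.2 - (c₂ h).toAdd))
  map_one' := by
    ext f x
    simp [LinearMap.funLeft]
  map_mul' g h := by
    refine LinearMap.ext fun f => funext fun x => ?_
    simp only [Module.End.mul_apply, LinearMap.funLeft_apply, map_mul, toAdd_mul]
    congr 1
    ext
    · change x.1 - _ = _
      ring
    · change x.2 - _ = _
      ring

/-- translation by `c₂ h` on functions on `ℤ/p` -/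
def rhoC (k : Type) [Field k] {H : Type} [Group H] (c₂ : H →* Multiplicative (ZMod p)) :
    Representation k H (ZMod p → k) where
  toFun h := LinearMap.funLeft k k (fun x => x - (c₂ h).toAdd)
  map_one' := by
    ext f x
    simp [LinearMap.funLeft]
  map_mul' g h := by
    refine LinearMap.ext fun f => funext fun x => ?_
    simp only [Module.End.mul_apply, LinearMap.funLeft_apply, map_mul, toAdd_mul]
    congr 1
    ring

/-- `a₁ - 1` -/
def X1 : (ZMod p × ZMod p → k) →ₗ[k] (ZMod p × ZMod p → k) where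
  toFun f x := f (x.1 - 1, x.2) - f x
  map_add' f g := by ext x; simp only [Pi.add_apply]; ring
  map_smul' c f := by ext x; simp only [Pi.smul_apply, smul_eq_mul, RingHom.id_apply]; ring

/-- `a₂ - 1` -/
def Y1 : (ZMod p × ZMod p → k) →ₗ[k] (ZMod p × ZMod p → k) where
  toFun f x := f (x.1, x.2 - 1) - f x
  map_add' f g := by ext x; simp only [Pi.add_apply]; ring
  map_smul' c f := by ext x; simp only [Pi.smul_apply, smul_eq_mul, RingHom.id_apply]; ring

lemma XY (f : ZMod p × ZMod p → k) : X1 (Y1 f) = Y1 (X1 f) := by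
  ext x
  simp only [X1, Y1, LinearMap.coe_mk, AddHom.coe_mk]
  ring

/-- the moments -/
def mom (n : ℕ) : (ZMod p × ZMod p → k) →ₗ[k] (ZMod p → k) where
  toFun f j := ∑ i : ZMod p, ((i.val.choose n : ℕ) : k) * f (i, j)
  map_add' f g := by
    ext j
    simp only [Pi.add_apply, mul_add, Finset.sum_add_distrib]
  map_smul' c f := by
    ext j
    simp only [Pi.smul_apply, smul_eq_mul, RingHom.id_apply, Finset.mul_sum]
    refine Finset.sum_congr rfl fun i _ => ?_
    ring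

lemma mom_apply (n : ℕ) (f : ZMod p × ZMod p → k) (j : ZMod p) :
    mom n f j = ∑ i : ZMod p, ((i.val.choose n : ℕ) : k) * f (i, j) := rfl

lemma pascal [CharP k p] (n : ℕ) (hn : n + 1 < p) (i : ZMod p) :
    (((i + 1).val.choose (n + 1) : ℕ) : k) =
      ((i.val.choose (n + 1) : ℕ) : k) + ((i.val.choose n : ℕ) : k) := by
  have hp : p.Prime := Fact.out
  have hval : (i + 1).val = (i.val + 1) % p := by
    rw [ZMod.val_add, ZMod.val_one'' (by omega)]
  have hi : i.val < p := ZMod.val_lt i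
  by_cases h : i.val + 1 < p
  · rw [hval, Nat.mod_eq_of_lt h, Nat.choose_succ_succ']
    push_cast
    ring
  · have h1 : i.val + 1 = p := by omega
    rw [hval, h1, Nat.mod_self, Nat.choose_eq_zero_of_lt (by omega)]
    have h2 : i.val.choose (n + 1) + i.val.choose n = (i.val + 1).choose (n + 1) := by
      rw [Nat.choose_succ_succ']
      ring
    rw [h1] at h2
    rw [← Nat.cast_add, h2, Nat.cast_zero]
    exact ((CharP.cast_eq_zero_iff k p _).2 (hp.dvd_choose_self (by omega) hn)).symm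

lemma mom_shift_sum (n : ℕ) (f : ZMod p × ZMod p → k) (j : ZMod p) :
    ∑ i : ZMod p, ((i.val.choose n : ℕ) : k) * f (i - 1, j) =
      ∑ i : ZMod p, (((i + 1).val.choose n : ℕ) : k) * f (i, j) := by
  refine (Fintype.sum_equiv (Equiv.addRight (1 : ZMod p)) _ _ fun i => ?_).symm
  simp

lemma mom_X_zero (f : ZMod p × ZMod p → k) : mom 0 (X1 f) = 0 := by
  ext j
  rw [mom_apply, Pi.zero_apply]
  have h1 : ∀ i : ZMod p, ((i.val.choose 0 : ℕ) : k) * X1 f (i, j) =
      ((i.val.choose 0 : ℕ) : k) * f (i - 1, j) - ((i.val.choose 0 : ℕ) : k) * f (i, j) := by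
    intro i
    simp only [X1, LinearMap.coe_mk, AddHom.coe_mk]
    ring
  rw [Finset.sum_congr rfl fun i _ => h1 i, Finset.sum_sub_distrib, mom_shift_sum]
  simp

lemma mom_X_succ [CharP k p] (n : ℕ) (hn : n + 1 < p) (f : ZMod p × ZMod p → k) :
    mom (n + 1) (X1 f) = mom n f := by
  ext j
  rw [mom_apply, mom_apply]
  have h1 : ∀ i : ZMod p, ((i.val.choose (n + 1) : ℕ) : k) * X1 f (i, j) =
      ((i.val.choose (n + 1) : ℕ) : k) * f (i - 1, j) -
        ((i.val.choose (n + 1) : ℕ) : k) * f (i, j) := by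
    intro i
    simp only [X1, LinearMap.coe_mk, AddHom.coe_mk]
    ring
  rw [Finset.sum_congr rfl fun i _ => h1 i, Finset.sum_sub_distrib, mom_shift_sum,
    ← Finset.sum_sub_distrib]
  refine Finset.sum_congr rfl fun i _ => ?_
  rw [pascal n hn]
  ring

lemma mom_Y (n : ℕ) (f : ZMod p × ZMod p → k) (j : ZMod p) :
    mom n (Y1 f) j = mom n f (j - 1) - mom n f j := by
  rw [mom_apply, mom_apply, mom_apply, ← Finset.sum_sub_distrib]
  refine Finset.sum_congr rfl fun i _ => ?_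
  simp only [Y1, LinearMap.coe_mk, AddHom.coe_mk]
  ring

lemma mom_pow [CharP k p] (l : ℕ) : ∀ n, n < p → ∀ f : ZMod p × ZMod p → k,
    mom n ((X1 ^ l : Module.End k _) f) = if n < l then 0 else mom (n - l) f := by
  induction l with
  | zero => intro n _ f; simp
  | succ l ih =>
    intro n hn f
    rw [pow_succ', Module.End.mul_apply]
    cases n with
    | zero => rw [mom_X_zero, if_pos (Nat.succ_pos l)]
    | succ n =>
      rw [mom_X_succ n hn, ih n (by omega)]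
      by_cases h : n < l
      · rw [if_pos h, if_pos (by omega)]
      · rw [if_neg h, if_neg (by omega), Nat.succ_sub_succ]

/-- all moments vanish implies zero -/
lemma eq_zero_of_mom (f : ZMod p × ZMod p → k) (h : ∀ n < p, mom n f = 0) : f = 0 := by
  have key : ∀ m ≤ p, ∀ i : ZMod p, p - m ≤ i.val → ∀ j, f (i, j) = 0 := by
    intro m
    induction m with
    | zero =>
      intro _ i hi j
      have := ZMod.val_lt i
      omega
    | succ m ih =>
      intro hm i hi j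
      by_cases h1 : p - m ≤ i.val
      · exact ih (by omega) i h1 j
      · have h2 : i.val = p - (m + 1) := by omega
        have h3 := congrFun (h i.val (ZMod.val_lt i)) j
        rw [mom_apply, Pi.zero_apply, Finset.sum_eq_single i] at h3
        · simpa using h3
        · intro b _ hb
          rcases lt_trichotomy b.val i.val with h4 | h4 | h4
          · rw [Nat.choose_eq_zero_of_lt h4]
            simp
          · exact absurd (ZMod.val_injective p h4) hb
          · rw [ih (by omega) b (by omega) j, mul_zero]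
        · intro h4
          exact absurd (Finset.mem_univ _) h4
  ext x
  exact key p le_rfl x.1 (by omega) x.2


section Rep

/-- the submodules `N_l` -/
def NL (k : Type) [Field k] (p : ℕ) [Fact p.Prime] (l : ℕ) :
    Submodule k ((ZMod p × ZMod p → k) × (ZMod p × ZMod p → k)) where
  carrier := {v | X1 v.1 + Y1 v.2 = 0 ∧ ∀ n < l, mom n v.2 = 0}
  zero_mem' := by simp
  add_mem' := by
    rintro a b ⟨h1, h2⟩ ⟨h3, h4⟩
    refine ⟨?_, fun n hn => ?_⟩
    · simp only [Prod.fst_add, Prod.snd_add, map_add]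
      calc X1 a.1 + X1 b.1 + (Y1 a.2 + Y1 b.2) = (X1 a.1 + Y1 a.2) + (X1 b.1 + Y1 b.2) := by abel
        _ = 0 := by rw [h1, h3, add_zero]
    · simp only [Prod.snd_add, map_add, h2 n hn, h4 n hn, add_zero]
  smul_mem' := by
    rintro c a ⟨h1, h2⟩
    refine ⟨?_, fun n hn => ?_⟩
    · simp only [Prod.smul_fst, Prod.smul_snd, map_smul]
      rw [← smul_add, h1, smul_zero]
    · simp only [Prod.smul_snd, map_smul, h2 n hn, smul_zero]

variable [CharP k p] {H : Type} [Group H] (c₁ c₂ : H →* Multiplicative (ZMod p))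

lemma rhoF_a1 (a : H) (h1 : c₁ a = Multiplicative.ofAdd 1) (h2 : c₂ a = 1)
    (f : ZMod p × ZMod p → k) : rhoF k c₁ c₂ a f = X1 f + f := by
  ext x
  simp only [rhoF, MonoidHom.coe_mk, OneHom.coe_mk, LinearMap.funLeft_apply, h1, h2, X1,
    LinearMap.coe_mk, AddHom.coe_mk, Pi.add_apply, toAdd_ofAdd, toAdd_one, sub_zero]
  ring

lemma rhoF_a2 (a : H) (h1 : c₁ a = 1) (h2 : c₂ a = Multiplicative.ofAdd 1)
    (f : ZMod p × ZMod p → k) : rhoF k c₁ c₂ a f = Y1 f + f := by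
  ext x
  simp only [rhoF, MonoidHom.coe_mk, OneHom.coe_mk, LinearMap.funLeft_apply, h1, h2, Y1,
    LinearMap.coe_mk, AddHom.coe_mk, Pi.add_apply, toAdd_ofAdd, toAdd_one, sub_zero]
  ring

/-- the situation -/
structure Sit (H : Type) [Group H] (c₁ c₂ : H →* Multiplicative (ZMod p)) (a₁ a₂ : H) : Prop where
  h11 : c₁ a₁ = Multiplicative.ofAdd 1
  h12 : c₂ a₁ = 1
  h21 : c₁ a₂ = 1
  h22 : c₂ a₂ = Multiplicative.ofAdd 1
  gen : ∀ h : H, ∃ i j : ℕ, h = a₁ ^ i * a₂ ^ j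

variable {c₁ c₂} {a₁ a₂ : H}

lemma Sit.ind (S : Sit H c₁ c₂ a₁ a₂) (Q : H → Prop) (h1 : Q 1) (ha : ∀ h, Q h → Q (a₁ * h))
    (hb : ∀ h, Q h → Q (a₂ * h)) (h : H) : Q h := by
  obtain ⟨i, j, rfl⟩ := S.gen h
  have hj : Q (a₂ ^ j) := by
    induction j with
    | zero => simpa using h1
    | succ j ih => rw [pow_succ']; exact hb _ ih
  induction i with
  | zero => simpa using hj
  | succ i ih => rw [pow_succ', mul_assoc]; exact ha _ ih

/-- the big representation -/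
def rho2 (k : Type) [Field k] {H : Type} [Group H] (c₁ c₂ : H →* Multiplicative (ZMod p)) :
    Representation k H ((ZMod p × ZMod p → k) × (ZMod p × ZMod p → k)) :=
  (rhoF k c₁ c₂).prod (rhoF k c₁ c₂)

lemma rho2_apply (h : H) (v : (ZMod p × ZMod p → k) × (ZMod p × ZMod p → k)) :
    rho2 k c₁ c₂ h v = (rhoF k c₁ c₂ h v.1, rhoF k c₁ c₂ h v.2) := rfl

lemma NL_inv (S : Sit H c₁ c₂ a₁ a₂) (l : ℕ) (hl : l ≤ p) (h : H) :
    NL k p l ≤ (NL k p l).comap (rho2 k c₁ c₂ h) := by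
  refine S.ind (fun h => NL k p l ≤ (NL k p l).comap (rho2 k c₁ c₂ h)) ?_ ?_ ?_ h
  · intro v hv
    simpa using hv
  · intro h hh v hv
    have h1 := hh hv
    rw [Submodule.mem_comap] at h1 ⊢
    rw [map_mul, Module.End.mul_apply]
    obtain ⟨h2, h3⟩ := h1
    set w := rho2 k c₁ c₂ h v
    rw [rho2_apply, rhoF_a1 c₁ c₂ a₁ S.h11 S.h12, rhoF_a1 c₁ c₂ a₁ S.h11 S.h12]
    refine ⟨?_, fun n hn => ?_⟩
    · simp only [map_add]
      rw [← XY]
      calc X1 (X1 w.1) + X1 w.1 + (X1 (Y1 w.2) + Y1 w.2) =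
          X1 (X1 w.1 + Y1 w.2) + (X1 w.1 + Y1 w.2) := by rw [map_add]; abel
        _ = 0 := by rw [h2, map_zero, add_zero]
    · simp only [map_add, h3 n hn, add_zero]
      cases n with
      | zero => exact mom_X_zero _
      | succ n =>
        rw [mom_X_succ n (by omega)]
        exact h3 n (by omega)
  · intro h hh v hv
    have h1 := hh hv
    rw [Submodule.mem_comap] at h1 ⊢
    rw [map_mul, Module.End.mul_apply]
    obtain ⟨h2, h3⟩ := h1
    set w := rho2 k c₁ c₂ h v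
    rw [rho2_apply, rhoF_a2 c₁ c₂ a₂ S.h21 S.h22, rhoF_a2 c₁ c₂ a₂ S.h21 S.h22]
    refine ⟨?_, fun n hn => ?_⟩
    · simp only [map_add]
      rw [XY]
      calc Y1 (X1 w.1) + X1 w.1 + (Y1 (Y1 w.2) + Y1 w.2) =
          Y1 (X1 w.1 + Y1 w.2) + (X1 w.1 + Y1 w.2) := by rw [map_add]; abel
        _ = 0 := by rw [h2, map_zero, add_zero]
    · simp only [map_add, h3 n hn, add_zero]
      ext j
      rw [mom_Y, h3 n hn]
      simp

/-- bundled -/
def NM (k : Type) [Field k] [CharP k p] (S : Sit H c₁ c₂ a₁ a₂) (l : ℕ) (hl : l ≤ p) : Mo k H :=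
  ⟨NL k p l, (rho2 k c₁ c₂).subrepresentation (NL k p l) (NL_inv S l hl)⟩

/-- the quotient pieces -/
def CM (k : Type) [Field k] {H : Type} [Group H] (c₂ : H →* Multiplicative (ZMod p)) : Mo k H :=
  ⟨ZMod p → k, rhoC k c₂⟩


lemma rhoC_a1 (a : H) (h2 : c₂ a = 1) (f : ZMod p → k) : rhoC k c₂ a f = f := by
  ext x
  simp only [rhoC, MonoidHom.coe_mk, OneHom.coe_mk, LinearMap.funLeft_apply, h2, toAdd_one,
    sub_zero]

lemma rhoC_a2 (a : H) (h2 : c₂ a = Multiplicative.ofAdd 1) (f : ZMod p → k) (j : ZMod p) :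
    rhoC k c₂ a f j = f (j - 1) := by
  simp only [rhoC, MonoidHom.coe_mk, OneHom.coe_mk, LinearMap.funLeft_apply, h2, toAdd_ofAdd]

/-- the moment map on `N_l` -/
def momL (S : Sit H c₁ c₂ a₁ a₂) (l : ℕ) (hl : l ≤ p) : (NM k S l hl).V →ₗ[k] (CM k c₂).V :=
  mom l ∘ₗ LinearMap.snd k _ _ ∘ₗ (NL k p l).subtype

lemma isH_of_gen (S : Sit H c₁ c₂ a₁ a₂) (A B : Mo k H) (f : A.V →ₗ[k] B.V)
    (h1 : ∀ v, f (A.ρ a₁ v) = B.ρ a₁ (f v)) (h2 : ∀ v, f (A.ρ a₂ v) = B.ρ a₂ (f v)) :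
    IsH A B f := by
  intro h
  refine S.ind (fun h => ∀ v, f (A.ρ h v) = B.ρ h (f v)) ?_ ?_ ?_ h
  · intro v
    rw [map_one, map_one]
    rfl
  · intro h ih v
    rw [map_mul, map_mul, Module.End.mul_apply, Module.End.mul_apply, h1, ih]
  · intro h ih v
    rw [map_mul, map_mul, Module.End.mul_apply, Module.End.mul_apply, h2, ih]

lemma momL_isH (S : Sit H c₁ c₂ a₁ a₂) (l : ℕ) (hl : l < p) (hl1 : 1 ≤ l) :
    IsH (NM k S l hl.le) (CM k c₂) (momL S l hl.le) := by
  obtain ⟨l, rfl⟩ : ∃ m, l = m + 1 := ⟨l - 1, by omega⟩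
  apply isH_of_gen S
  · intro v
    change mom (l + 1) (rhoF k c₁ c₂ a₁ v.1.2) = rhoC k c₂ a₁ (mom (l + 1) v.1.2)
    rw [rhoF_a1 c₁ c₂ a₁ S.h11 S.h12, map_add, mom_X_succ l hl, v.2.2 l (by omega),
      rhoC_a1 a₁ S.h12, zero_add]
  · intro v
    change mom (l + 1) (rhoF k c₁ c₂ a₂ v.1.2) = rhoC k c₂ a₂ (mom (l + 1) v.1.2)
    ext j
    rw [rhoC_a2 a₂ S.h22, rhoF_a2 c₁ c₂ a₂ S.h21 S.h22, map_add, Pi.add_apply, mom_Y]
    ring

/-- the inclusion -/
def incL (S : Sit H c₁ c₂ a₁ a₂) (l : ℕ) (hl : l + 1 ≤ p) :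
    (NM k S (l + 1) hl).V →ₗ[k] (NM k S l (by omega)).V :=
  Submodule.inclusion (fun v hv => ⟨hv.1, fun n hn => hv.2 n (by omega)⟩ :
    NL k p (l + 1) ≤ NL k p l)

lemma mem_mom_surj (l : ℕ) (hl : l < p) (hl1 : 1 ≤ l) (φ : ZMod p → k) :
    ∃ v ∈ NL k p l, mom l v.2 = φ := by
  obtain ⟨l, rfl⟩ : ∃ m, l = m + 1 := ⟨l - 1, by omega⟩
  let η : ZMod p × ZMod p → k := fun x => if x.1 = 0 then φ x.2 else 0
  refine ⟨(-Y1 ((X1 ^ l : Module.End k _) η), (X1 ^ (l + 1) : Module.End k _) η), ⟨?_, ?_⟩, ?_⟩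
  · rw [map_neg, XY, pow_succ', Module.End.mul_apply, neg_add_cancel]
  · intro n hn
    rw [mom_pow (l + 1) n (by omega), if_pos hn]
  · rw [mom_pow (l + 1) (l + 1) hl, if_neg (by omega), Nat.sub_self]
    ext j
    rw [mom_apply, Finset.sum_eq_single 0]
    · simp [η]
    · intro b _ hb
      simp [η, hb]
    · intro h
      exact absurd (Finset.mem_univ _) h

lemma mom_ses (S : Sit H c₁ c₂ a₁ a₂) (l : ℕ) (hl : l + 1 ≤ p) (hl1 : 1 ≤ l) :
    IsSES (NM k S (l + 1) hl) (NM k S l (by omega)) (CM k c₂) (incL S l hl)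
      (momL S l (by omega)) where
  hf := fun h v => rfl
  hg := momL_isH S l (by omega) hl1
  inj := Submodule.inclusion_injective _
  surj := by
    intro φ
    obtain ⟨v, hv, h⟩ := mem_mom_surj (k := k) l (by omega : l < p) hl1 φ
    exact ⟨⟨v, hv⟩, h⟩
  exact := by
    ext v
    constructor
    · rintro ⟨w, rfl⟩
      exact w.2.2 l (Nat.lt_succ_self l)
    · intro hv
      refine ⟨⟨v.1, v.2.1, fun n hn => ?_⟩, rfl⟩
      rcases Nat.lt_succ_iff_lt_or_eq.1 hn with h | h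
      · exact v.2.2 n h
      · subst h
        exact hv

/-- the last step -/
lemma base_pf [Finite H] (S : Sit H c₁ c₂ a₁ a₂) (Hs : Subgroup H) (hHs : Hs ≠ ⊤)
    (hi : Iso (CM k c₂) (perm k H (H ⧸ Hs))) : PF (NM k S p le_rfl) := by
  let g : (NM k S p le_rfl).V →ₗ[k] (CM k c₂).V :=
    (LinearMap.funLeft k k (fun j : ZMod p => ((0 : ZMod p), j))) ∘ₗ LinearMap.fst k _ _ ∘ₗ
      (NL k p p).subtype
  have hg0 : ∀ v j, g v j = v.1.1 (0, j) := fun v j => rfl
  have hsnd : ∀ v : (NM k S p le_rfl).V, v.1.2 = 0 := fun v => eq_zero_of_mom _ v.2.2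
  have hfst : ∀ v : (NM k S p le_rfl).V, X1 v.1.1 = 0 := by
    intro v
    have := v.2.1
    rw [hsnd v, map_zero, add_zero] at this
    exact this
  have hconst : ∀ (v : (NM k S p le_rfl).V) (i j : ZMod p), v.1.1 (i, j) = v.1.1 (0, j) := by
    intro v i j
    have h1 : ∀ n : ℕ, v.1.1 ((n : ZMod p), j) = v.1.1 (0, j) := by
      intro n
      induction n with
      | zero => simp
      | succ n ih =>
        have h2 := congrFun (hfst v) (((n + 1 : ℕ) : ZMod p), j)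
        simp only [X1, LinearMap.coe_mk, AddHom.coe_mk, Pi.zero_apply] at h2
        push_cast at h2 ⊢
        rw [add_sub_cancel_right, ih] at h2
        exact (sub_eq_zero.1 h2).symm
    have := h1 i.val
    rwa [ZMod.natCast_zmod_val] at this
  have hinj : Function.Injective g := by
    rw [← LinearMap.ker_eq_bot, LinearMap.ker_eq_bot']
    intro v hv
    apply Subtype.ext
    apply Prod.ext
    · ext x
      change v.1.1 (x.1, x.2) = 0
      rw [hconst v x.1 x.2]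
      exact congrFun hv x.2
    · exact hsnd v
  have hsurj : Function.Surjective g := by
    intro φ
    refine ⟨⟨(fun x => φ x.2, 0), ?_, fun n _ => by simp⟩, rfl⟩
    ext x
    simp [X1]
  have hgH : IsH (NM k S p le_rfl) (CM k c₂) g := by
    apply isH_of_gen S
    · intro v
      change (fun j => rhoF k c₁ c₂ a₁ v.1.1 (0, j)) = rhoC k c₂ a₁ (fun j => v.1.1 (0, j))
      rw [rhoC_a1 a₁ S.h12, rhoF_a1 c₁ c₂ a₁ S.h11 S.h12, hfst v, zero_add]
    · intro v
      change (fun j => rhoF k c₁ c₂ a₂ v.1.1 (0, j)) = rhoC k c₂ a₂ (fun j => v.1.1 (0, j))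
      ext j
      rw [rhoC_a2 a₂ S.h22, rhoF_a2 c₁ c₂ a₂ S.h21 S.h22]
      simp [Y1]
  obtain ⟨A, f, hses⟩ := ses_ker g hgH hsurj
  refine PF.ext A _ _ f g Hs hses (PF.zero A ?_) hHs hi
  have h1 : LinearMap.range f = ⊥ := by
    rw [hses.exact, LinearMap.ker_eq_bot]
    exact hinj
  have h2 : ∀ a : A.V, a = 0 := by
    intro a
    apply hses.inj
    rw [map_zero]
    have : f a ∈ LinearMap.range f := ⟨a, rfl⟩
    rw [h1] at this
    exact this
  have : Subsingleton A.V := ⟨fun a b => by rw [h2 a, h2 b]⟩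
  exact finrank_zero_of_subsingleton

lemma pf_NM [Finite H] (S : Sit H c₁ c₂ a₁ a₂) (Hs : Subgroup H) (hHs : Hs ≠ ⊤)
    (hi : Iso (CM k c₂) (perm k H (H ⧸ Hs))) (l : ℕ) (hl : l ≤ p) (hl1 : 1 ≤ l) :
    PF (NM k S l hl) := by
  have key : ∀ m l (hl : l ≤ p), 1 ≤ l → p - l = m → PF (NM k S l hl) := by
    intro m
    induction m with
    | zero =>
      intro l hl _ h
      obtain rfl : l = p := by omega
      exact base_pf S Hs hHs hi
    | succ m ih =>
      intro l hl hl1 h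
      exact PF.ext _ _ _ _ _ Hs (mom_ses S l (by omega) hl1) (ih (l + 1) (by omega) (by omega)
        (by omega)) hHs hi
  exact key _ l hl hl1 rfl

/-- the quotient piece is a permutation module -/
lemma CM_iso [Finite H] (S : Sit H c₁ c₂ a₁ a₂) : Iso (CM k c₂) (perm k H (H ⧸ c₂.ker)) := by
  have hs : Function.Surjective c₂ := by
    intro x
    refine ⟨a₂ ^ (x.toAdd.val), ?_⟩
    rw [map_pow, S.h22]
    apply Multiplicative.toAdd.injective
    rw [toAdd_pow, toAdd_ofAdd]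
    simp
  let e0 := QuotientGroup.quotientKerEquivOfSurjective c₂ hs
  let e1 : (H ⧸ c₂.ker) ≃ ZMod p := e0.toEquiv.trans Multiplicative.toAdd
  have he1 : ∀ h : H, e1 (h : H ⧸ c₂.ker) = (c₂ h).toAdd := fun h => rfl
  refine ⟨LinearEquiv.funCongrLeft k k e1, ?_⟩
  intro g f
  refine funext fun q => ?_
  change rhoC k c₂ g f (e1 q) = f (e1 (g⁻¹ • q))
  induction q using QuotientGroup.induction_on with
  | H h =>
    have e2 : g⁻¹ • ((h : H) : H ⧸ c₂.ker) = ((g⁻¹ * h : H) : H ⧸ c₂.ker) := rfl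
    rw [e2, he1, he1]
    change f ((c₂ h).toAdd - (c₂ g).toAdd) = f _
    congr 1
    rw [map_mul, map_inv, toAdd_mul, toAdd_inv, sub_eq_neg_add]

lemma ker_ne_top (S : Sit H c₁ c₂ a₁ a₂) : c₂.ker ≠ ⊤ := by
  intro h
  have h1 : a₂ ∈ c₂.ker := h ▸ Subgroup.mem_top _
  rw [MonoidHom.mem_ker, S.h22] at h1
  have h2 : (1 : ZMod p) = 0 := congrArg Multiplicative.toAdd h1
  exact one_ne_zero h2


/-- the operator `g`: `(g f)(i,j) = f(i-j,j)` -/
def gop : (ZMod p × ZMod p → k) →ₗ[k] (ZMod p × ZMod p → k) :=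
  LinearMap.funLeft k k (fun x => (x.1 - x.2, x.2))

lemma gop_apply (f : ZMod p × ZMod p → k) (x : ZMod p × ZMod p) :
    gop f x = f (x.1 - x.2, x.2) := rfl

/-- the map `φ` on pairs -/
def phi0 : ((ZMod p × ZMod p → k) × (ZMod p × ZMod p → k)) →ₗ[k]
    ((ZMod p × ZMod p → k) × (ZMod p × ZMod p → k)) where
  toFun v := (gop v.1 + gop v.2, fun x => v.2 (x.1 - 1 - x.2, x.2))
  map_add' v w := by
    ext x
    · simp only [Prod.fst_add, Prod.snd_add, map_add, Pi.add_apply]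
      ring
    · rfl
  map_smul' c v := by
    ext x
    · simp only [Prod.smul_fst, Prod.smul_snd, map_smul, Pi.add_apply, Pi.smul_apply, smul_eq_mul,
        RingHom.id_apply]
      ring
    · rfl

lemma rel_of_mem {l : ℕ} {v : (ZMod p × ZMod p → k) × (ZMod p × ZMod p → k)}
    (hv : v ∈ NL k p l) (i j : ZMod p) :
    v.1 (i - 1, j) - v.1 (i, j) + (v.2 (i, j - 1) - v.2 (i, j)) = 0 :=
  congrFun hv.1 (i, j)

lemma phi0_mem (v : (ZMod p × ZMod p → k) × (ZMod p × ZMod p → k)) (hv : v ∈ NL k p 0) :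
    phi0 v ∈ NL k p 0 := by
  refine ⟨?_, fun n hn => absurd hn (Nat.not_lt_zero n)⟩
  ext ⟨i, j⟩
  have h1 := rel_of_mem hv (i - j) j
  have e1 : i - j - 1 = i - 1 - j := by ring
  have e2 : i - 1 - (j - 1) = i - j := by ring
  rw [e1] at h1
  simp only [phi0, X1, Y1, LinearMap.coe_mk, AddHom.coe_mk, Pi.add_apply, Pi.zero_apply,
    gop_apply]
  rw [e2]
  linear_combination h1

/-- `φ` on `N` -/
def phiN (S : Sit H c₁ c₂ a₁ a₂) : (NM k S 0 (Nat.zero_le p)).V →ₗ[k]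
    (NM k S 0 (Nat.zero_le p)).V :=
  LinearMap.restrict phi0 (fun v hv => phi0_mem v hv)

/-- the functional `u` -/
def uN (S : Sit H c₁ c₂ a₁ a₂) : (NM k S 0 (Nat.zero_le p)).V →ₗ[k] (triv k H).V :=
  (LinearMap.proj (0 : ZMod p) : (ZMod p → k) →ₗ[k] k) ∘ₗ mom 0 ∘ₗ LinearMap.snd k _ _ ∘ₗ
    (NL k p 0).subtype

lemma uN_apply (S : Sit H c₁ c₂ a₁ a₂) (v : (NM k S 0 (Nat.zero_le p)).V) :
    uN S v = ∑ i : ZMod p, v.1.2 (i, 0) := by
  change ∑ i : ZMod p, ((i.val.choose 0 : ℕ) : k) * v.1.2 (i, 0) = _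
  simp

/-- the functional `w` -/
def wN (S : Sit H c₁ c₂ a₁ a₂) : (NM k S 0 (Nat.zero_le p)).V →ₗ[k] (triv k H).V :=
  (∑ j : ZMod p, (LinearMap.proj ((0 : ZMod p), j) : (ZMod p × ZMod p → k) →ₗ[k] k)) ∘ₗ
    LinearMap.fst k _ _ ∘ₗ (NL k p 0).subtype

lemma wN_apply (S : Sit H c₁ c₂ a₁ a₂) (v : (NM k S 0 (Nat.zero_le p)).V) :
    wN S v = ∑ j : ZMod p, v.1.1 (0, j) := by
  change (∑ j : ZMod p, (LinearMap.proj ((0 : ZMod p), j) : (ZMod p × ZMod p → k) →ₗ[k] k))
    v.1.1 = _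
  rw [LinearMap.sum_apply]
  rfl

lemma shift_const (F : ZMod p → k) (h : ∀ j, F (j - 1) = F j) (j : ZMod p) : F j = F 0 := by
  have h1 : ∀ n : ℕ, F (n : ZMod p) = F 0 := by
    intro n
    induction n with
    | zero => simp
    | succ n ih =>
      rw [← h, Nat.cast_succ, add_sub_cancel_right, ih]
  have := h1 j.val
  rwa [ZMod.natCast_zmod_val] at this

lemma col_const (v : (ZMod p × ZMod p → k) × (ZMod p × ZMod p → k)) (hv : v ∈ NL k p 0)
    (j : ZMod p) : ∑ i : ZMod p, v.2 (i, j) = ∑ i : ZMod p, v.2 (i, 0) := by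
  refine shift_const (fun j => ∑ i : ZMod p, v.2 (i, j)) (fun j => ?_) j
  have h1 : ∑ i : ZMod p, (v.1 (i - 1, j) - v.1 (i, j) + (v.2 (i, j - 1) - v.2 (i, j))) = 0 :=
    Finset.sum_eq_zero fun i _ => rel_of_mem hv i j
  rw [Finset.sum_add_distrib, Finset.sum_sub_distrib, Finset.sum_sub_distrib] at h1
  have h2 : ∑ i : ZMod p, v.1 (i - 1, j) = ∑ i : ZMod p, v.1 (i, j) :=
    Fintype.sum_equiv (Equiv.subRight (1 : ZMod p)) _ _ fun i => rfl
  rw [h2, sub_self, zero_add] at h1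
  exact sub_eq_zero.1 h1

lemma row_const (v : (ZMod p × ZMod p → k) × (ZMod p × ZMod p → k)) (hv : v ∈ NL k p 0)
    (i : ZMod p) : ∑ j : ZMod p, v.1 (i, j) = ∑ j : ZMod p, v.1 (0, j) := by
  refine shift_const (fun i => ∑ j : ZMod p, v.1 (i, j)) (fun i => ?_) i
  have h1 : ∑ j : ZMod p, (v.1 (i - 1, j) - v.1 (i, j) + (v.2 (i, j - 1) - v.2 (i, j))) = 0 :=
    Finset.sum_eq_zero fun j _ => rel_of_mem hv i j
  rw [Finset.sum_add_distrib, Finset.sum_sub_distrib, Finset.sum_sub_distrib] at h1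
  have h2 : ∑ j : ZMod p, v.2 (i, j - 1) = ∑ j : ZMod p, v.2 (i, j) :=
    Fintype.sum_equiv (Equiv.subRight (1 : ZMod p)) _ _ fun i => rfl
  rw [h2, sub_self, add_zero] at h1
  exact sub_eq_zero.1 h1

lemma uN_isH (S : Sit H c₁ c₂ a₁ a₂) : IsH (NM k S 0 (Nat.zero_le p)) (triv k H) (uN S) := by
  intro h v
  have h0 : (triv k H).ρ h (uN S v) = uN S v := rfl
  rw [h0, uN_apply, uN_apply]
  change ∑ i : ZMod p, v.1.2 (i - (c₁ h).toAdd, 0 - (c₂ h).toAdd) = _
  exact (Fintype.sum_equiv (Equiv.subRight ((c₁ h).toAdd)) _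
    (fun i => v.1.2 (i, 0 - (c₂ h).toAdd)) fun i => rfl).trans (col_const v.1 v.2 _)

lemma wN_isH (S : Sit H c₁ c₂ a₁ a₂) : IsH (NM k S 0 (Nat.zero_le p)) (triv k H) (wN S) := by
  intro h v
  have h0 : (triv k H).ρ h (wN S v) = wN S v := rfl
  rw [h0, wN_apply, wN_apply]
  change ∑ j : ZMod p, v.1.1 (0 - (c₁ h).toAdd, j - (c₂ h).toAdd) = _
  exact (Fintype.sum_equiv (Equiv.subRight ((c₂ h).toAdd)) _
    (fun j => v.1.1 (0 - (c₁ h).toAdd, j)) fun i => rfl).trans (row_const v.1 v.2 _)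

lemma u_phi (S : Sit H c₁ c₂ a₁ a₂) : uN (k := k) S ∘ₗ phiN S = uN S := by
  ext v
  rw [LinearMap.comp_apply, uN_apply, uN_apply]
  change ∑ i : ZMod p, v.1.2 (i - 1 - 0, 0) = _
  exact Fintype.sum_equiv (Equiv.subRight (1 : ZMod p)) _ _ fun i => by simp

lemma sum_single (c : k) : ∑ i : ZMod p, (if i = 0 then c else 0) = c := by
  simp

lemma sum_range_zmod (F : ZMod p → k) :
    ∑ j : ZMod p, F j = ∑ n ∈ Finset.range p, F (n : ZMod p) := by
  refine Finset.sum_bij' (fun j _ => j.val) (fun n _ => (n : ZMod p)) ?_ ?_ ?_ ?_ ?_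
  · intro j _
    exact Finset.mem_range.2 (ZMod.val_lt j)
  · intro n _
    exact Finset.mem_univ _
  · intro j _
    exact ZMod.natCast_zmod_val j
  · intro n hn
    exact ZMod.val_natCast_of_lt (Finset.mem_range.1 hn)
  · intro j _
    simp

lemma w_phi (S : Sit H c₁ c₂ a₁ a₂) : wN (k := k) S ∘ₗ phiN S = wN S + uN S := by
  ext v
  rw [LinearMap.comp_apply, LinearMap.add_apply, wN_apply, wN_apply, uN_apply]
  change (∑ j : ZMod p, (v.1.1 (0 - j, j) + v.1.2 (0 - j, j)) : k) =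
    (∑ j : ZMod p, v.1.1 (0, j) : k) + (∑ i : ZMod p, v.1.2 (i, 0) : k)
  have hp : 0 < p := (Fact.out : p.Prime).pos
  have hrow : ∀ (n : ℕ) (j : ZMod p), v.1.1 (-(n : ZMod p), j) - v.1.1 (0, j) =
      ∑ l ∈ Finset.range n, (v.1.2 (-(l : ZMod p), j) - v.1.2 (-(l : ZMod p), j - 1)) := by
    intro n j
    induction n with
    | zero => simp
    | succ n ih =>
      rw [Finset.sum_range_succ, ← ih]
      have h1 := rel_of_mem v.2 (-(n : ZMod p)) j
      have e1 : -((n + 1 : ℕ) : ZMod p) = -(n : ZMod p) - 1 := by push_cast; ring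
      rw [e1]
      linear_combination h1
  have key : ∀ n : ℕ, ∑ j ∈ Finset.range (n + 1), (v.1.1 (0 - (j : ZMod p), (j : ZMod p)) +
      v.1.2 (0 - (j : ZMod p), (j : ZMod p)) - v.1.1 (0, (j : ZMod p))) =
      ∑ l ∈ Finset.range (n + 1), v.1.2 (-(l : ZMod p), (n : ZMod p)) := by
    intro n
    induction n with
    | zero => simp
    | succ n ih =>
      rw [Finset.sum_range_succ, ih, Finset.sum_range_succ _ (n + 1)]
      have h1 := hrow (n + 1) ((n + 1 : ℕ) : ZMod p)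
      have e1 : (((n + 1 : ℕ) : ZMod p)) - 1 = (n : ZMod p) := by push_cast; ring
      rw [e1, Finset.sum_sub_distrib] at h1
      rw [zero_sub]
      linear_combination h1
  obtain ⟨q, hq⟩ : ∃ q, p = q + 1 := ⟨p - 1, by omega⟩
  have h2 := key q
  rw [← hq] at h2
  have h3 : ∑ l ∈ Finset.range p, v.1.2 (-(l : ZMod p), (q : ZMod p)) =
      ∑ i : ZMod p, v.1.2 (i, 0) := by
    rw [← col_const v.1 v.2 (q : ZMod p), ← sum_range_zmod (fun l => v.1.2 (-l, (q : ZMod p)))]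
    exact Fintype.sum_equiv (Equiv.neg (ZMod p)) _ _ fun i => rfl
  rw [h3, ← sum_range_zmod (fun j => v.1.1 (0 - j, j) + v.1.2 (0 - j, j) - v.1.1 (0, j)),
    Finset.sum_sub_distrib] at h2
  linear_combination h2

end Rep

end CHbaux

open CHbaux

variable {p : ℕ} [Fact p.Prime] {k : Type} [Field k] [CharP k p]

/-- `H ≅ (ℤ/p)²` generated by `a₁, a₂`, `α` the automorphism `a₁ ↦ a₁, a₂ ↦ a₁ a₂`. -/
theorem heis_data (H : Type) [Group H] [Finite H] (a₁ a₂ : H) (h12 : a₁ * a₂ = a₂ * a₁)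
    (h1 : a₁ ^ p = 1) (h2 : a₂ ^ p = 1)
    (hb : ∀ h : H, ∃! ij : Fin p × Fin p, h = a₁ ^ (ij.1 : ℕ) * a₂ ^ (ij.2 : ℕ))
    (α : H →* H) (hα1 : α a₁ = a₁) (hα2 : α a₂ = a₁ * a₂) :
    ∃ (N A : Mo k H) (u w : N.V →ₗ[k] (triv k H).V) (φ : N.V →ₗ[k] N.V) (f : A.V →ₗ[k] N.V),
      IsH N (triv k H) w ∧ IsSES A N (triv k H) f u ∧ PF A ∧
      (∀ (h : H) (n : N.V), φ (N.ρ h n) = N.ρ (α h) (φ n)) ∧
      u ∘ₗ φ = u ∧ w ∘ₗ φ = w + u := by
  have hp : p.Prime := Fact.out
  have hcomm : Commute a₁ a₂ := h12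
  -- the coordinate isomorphism
  let ψ : Multiplicative (ZMod p × ZMod p) →* H :=
    { toFun := fun x => a₁ ^ x.toAdd.1.val * a₂ ^ x.toAdd.2.val
      map_one' := by simp
      map_mul' := fun x y => by
        rw [toAdd_mul, Prod.fst_add, Prod.snd_add, ZMod.val_add, ZMod.val_add,
          ← pow_eq_pow_mod _ h1, ← pow_eq_pow_mod _ h2, pow_add, pow_add]
        have := (hcomm.pow_pow y.toAdd.1.val x.toAdd.2.val).eq
        calc a₁ ^ x.toAdd.1.val * a₁ ^ y.toAdd.1.val * (a₂ ^ x.toAdd.2.val * a₂ ^ y.toAdd.2.val) =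
            a₁ ^ x.toAdd.1.val * (a₁ ^ y.toAdd.1.val * a₂ ^ x.toAdd.2.val) * a₂ ^ y.toAdd.2.val := by
              simp only [mul_assoc]
          _ = _ := by rw [this]; simp only [mul_assoc] }
  have hψ : ∀ x, ψ x = a₁ ^ x.toAdd.1.val * a₂ ^ x.toAdd.2.val := fun x => rfl
  have hinj : Function.Injective ψ := by
    intro x y hxy
    obtain ⟨ij, -, hu⟩ := hb (ψ x)
    have e1 := hu (⟨x.toAdd.1.val, ZMod.val_lt _⟩, ⟨x.toAdd.2.val, ZMod.val_lt _⟩) (hψ x)
    have e2 := hu (⟨y.toAdd.1.val, ZMod.val_lt _⟩, ⟨y.toAdd.2.val, ZMod.val_lt _⟩)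
      (hxy.trans (hψ y))
    rw [← e2] at e1
    apply Multiplicative.toAdd.injective
    rw [Prod.ext_iff, Fin.ext_iff, Fin.ext_iff] at e1
    exact Prod.ext (ZMod.val_injective p e1.1) (ZMod.val_injective p e1.2)
  have hsurj : Function.Surjective ψ := by
    intro h
    obtain ⟨ij, hij, -⟩ := hb h
    refine ⟨Multiplicative.ofAdd ((ij.1 : ℕ), (ij.2 : ℕ)), ?_⟩
    rw [hψ, toAdd_ofAdd, hij]
    simp only
    rw [ZMod.val_natCast_of_lt ij.1.2, ZMod.val_natCast_of_lt ij.2.2]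
  let e : Multiplicative (ZMod p × ZMod p) ≃* H := MulEquiv.ofBijective ψ ⟨hinj, hsurj⟩
  let c₁ : H →* Multiplicative (ZMod p) :=
    (AddMonoidHom.toMultiplicative (AddMonoidHom.fst (ZMod p) (ZMod p))).comp e.symm.toMonoidHom
  let c₂ : H →* Multiplicative (ZMod p) :=
    (AddMonoidHom.toMultiplicative (AddMonoidHom.snd (ZMod p) (ZMod p))).comp e.symm.toMonoidHom
  have hone : Fact (1 < p) := ⟨hp.one_lt⟩
  have he1 : e.symm a₁ = Multiplicative.ofAdd (1, 0) := by
    rw [MulEquiv.symm_apply_eq]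
    change a₁ = a₁ ^ (1 : ZMod p).val * a₂ ^ (0 : ZMod p).val
    rw [ZMod.val_one, ZMod.val_zero]
    simp
  have he2 : e.symm a₂ = Multiplicative.ofAdd (0, 1) := by
    rw [MulEquiv.symm_apply_eq]
    change a₂ = a₁ ^ (0 : ZMod p).val * a₂ ^ (1 : ZMod p).val
    rw [ZMod.val_one, ZMod.val_zero]
    simp
  have S : Sit H c₁ c₂ a₁ a₂ :=
    { h11 := by
        change Multiplicative.ofAdd ((e.symm a₁).toAdd.1) = _
        rw [he1]; rfl
      h12 := by
        change Multiplicative.ofAdd ((e.symm a₁).toAdd.2) = _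
        rw [he1]; rfl
      h21 := by
        change Multiplicative.ofAdd ((e.symm a₂).toAdd.1) = _
        rw [he2]; rfl
      h22 := by
        change Multiplicative.ofAdd ((e.symm a₂).toAdd.2) = _
        rw [he2]; rfl
      gen := fun h => by
        obtain ⟨ij, hij, -⟩ := hb h
        exact ⟨_, _, hij⟩ }
  have hα : ∀ h, c₂ (α h) = c₂ h ∧ c₁ (α h) = c₁ h * c₂ h := by
    intro h
    refine S.ind (fun h => c₂ (α h) = c₂ h ∧ c₁ (α h) = c₁ h * c₂ h) ?_ ?_ ?_ h
    · simp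
    · rintro h ⟨h3, h4⟩
      rw [map_mul, map_mul, map_mul, map_mul, map_mul, h3, h4, hα1, S.h11, S.h12]
      exact ⟨rfl, by rw [one_mul, mul_assoc]⟩
    · rintro h ⟨h3, h4⟩
      rw [map_mul, map_mul, map_mul, map_mul, map_mul, h3, h4, hα2, map_mul, map_mul, S.h11, S.h12,
        S.h21, S.h22]
      refine ⟨by rw [one_mul], ?_⟩
      rw [mul_one, one_mul, mul_left_comm]
  have hpos : 1 ≤ p := hp.one_lt.le
  refine ⟨NM k S 0 (Nat.zero_le p), NM k S 1 hpos, uN S, wN S, phiN S, incL S 0 hpos, wN_isH S,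
    ?_, pf_NM S c₂.ker (ker_ne_top S) (CM_iso S) 1 hpos le_rfl, ?_, u_phi S, w_phi S⟩
  · refine ⟨fun h v => rfl, uN_isH S, Submodule.inclusion_injective _, ?_, ?_⟩
    · intro c
      refine ⟨⟨(0, fun x => if x.1 = 0 then c else 0), ?_, fun n hn => absurd hn
        (Nat.not_lt_zero n)⟩, ?_⟩
      · ext x
        simp [Y1]
      · refine (uN_apply S _).trans ?_
        exact sum_single (k := k) c
    · ext v
      constructor
      · rintro ⟨w, rfl⟩
        rw [LinearMap.mem_ker]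
        exact congrFun (w.2.2 0 (by omega)) 0
      · intro hv
        rw [LinearMap.mem_ker] at hv
        replace hv := (uN_apply S v).symm.trans hv
        refine ⟨⟨v.1, v.2.1, fun n hn => ?_⟩, rfl⟩
        obtain rfl : n = 0 := by omega
        ext j
        rw [mom_apply]
        have := col_const v.1 v.2 j
        refine (Finset.sum_congr rfl fun i _ => ?_).trans (this.trans hv)
        simp
  · intro h n
    obtain ⟨h3, h4⟩ := hα h
    apply Subtype.ext
    apply Prod.ext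
    · ext ⟨i, j⟩
      change n.1.1 (i - j - (c₁ h).toAdd, j - (c₂ h).toAdd) +
        n.1.2 (i - j - (c₁ h).toAdd, j - (c₂ h).toAdd) =
        n.1.1 (i - (c₁ (α h)).toAdd - (j - (c₂ (α h)).toAdd), j - (c₂ (α h)).toAdd) +
        n.1.2 (i - (c₁ (α h)).toAdd - (j - (c₂ (α h)).toAdd), j - (c₂ (α h)).toAdd)
      rw [h3, h4, toAdd_mul]
      have e3 : i - ((c₁ h).toAdd + (c₂ h).toAdd) - (j - (c₂ h).toAdd) =
        i - j - (c₁ h).toAdd := by ring
      rw [e3]
    · ext ⟨i, j⟩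
      change n.1.2 (i - 1 - j - (c₁ h).toAdd, j - (c₂ h).toAdd) =
        n.1.2 (i - (c₁ (α h)).toAdd - 1 - (j - (c₂ (α h)).toAdd), j - (c₂ (α h)).toAdd)
      rw [h3, h4, toAdd_mul]
      have e3 : i - ((c₁ h).toAdd + (c₂ h).toAdd) - 1 - (j - (c₂ h).toAdd) =
        i - 1 - j - (c₁ h).toAdd := by ring
      rw [e3]

end Pool.Agent.GamI
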