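import Pool.Agent.GamI.TIa

/-! # TId: the operator on tensor induction given by an element normalising `H` -/

set_option autoImplicit false
set_option linter.unusedSectionVars false

open scoped TensorProduct
open Module

noncomputable section

namespace Pool.Agent.GamI

variable {k : Type} [Field k] {S : Type} [Group S] [Finite S]

/-- right translation on cosets -/
def TIdR (H : Subgroup S) (g : S) (hg : ∀ h ∈ H, g * h * g⁻¹ ∈ H) : S ⧸ H → S ⧸ H :=
  Quotient.lift (fun s : S => (QuotientGroup.mk (s * g⁻¹) : S ⧸ H)) (by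
    intro a b hab
    have h1 : a⁻¹ * b ∈ H := QuotientGroup.leftRel_apply.1 hab
    refine (QuotientGroup.eq).2 ?_
    have h2 := hg _ h1
    have h3 : (a * g⁻¹)⁻¹ * (b * g⁻¹) = g * (a⁻¹ * b) * g⁻¹ := by group
    rw [h3]
    exact h2)

lemma TIdR_mk (H : Subgroup S) (g : S) (hg : ∀ h ∈ H, g * h * g⁻¹ ∈ H) (s : S) :
    TIdR H g hg (QuotientGroup.mk s) = QuotientGroup.mk (s * g⁻¹) := rfl

lemma TIdR_out (H : Subgroup S) (g : S) (hg : ∀ h ∈ H, g * h * g⁻¹ ∈ H) (c : S ⧸ H) :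
    TIdR H g hg c = QuotientGroup.mk (c.out * g⁻¹) := by
  conv_lhs => rw [← QuotientGroup.out_eq' c]
  rfl

lemma TIdR_smul (H : Subgroup S) (g : S) (hg : ∀ h ∈ H, g * h * g⁻¹ ∈ H) (s : S) (c : S ⧸ H) :
    TIdR H g hg (s • c) = s • TIdR H g hg c := by
  induction c using Quotient.inductionOn with
  | _ t =>
    show (QuotientGroup.mk (s * t * g⁻¹) : S ⧸ H) = QuotientGroup.mk (s * (t * g⁻¹))
    rw [mul_assoc]

lemma TIdR_bij (H : Subgroup S) (g : S) (hg : ∀ h ∈ H, g * h * g⁻¹ ∈ H) :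
    Function.Bijective (TIdR H g hg) := by
  have hs : Function.Surjective (TIdR H g hg) := by
    intro d
    induction d using Quotient.inductionOn with
    | _ t =>
      refine ⟨QuotientGroup.mk (t * g), ?_⟩
      rw [TIdR_mk, mul_assoc, mul_inv_cancel, mul_one]
  exact ⟨Finite.injective_iff_surjective.2 hs, hs⟩

/-- right translation as an equivalence -/
def TIdE (H : Subgroup S) (g : S) (hg : ∀ h ∈ H, g * h * g⁻¹ ∈ H) : S ⧸ H ≃ S ⧸ H :=
  Equiv.ofBijective _ (TIdR_bij H g hg)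

lemma TIdE_apply (H : Subgroup S) (g : S) (hg : ∀ h ∈ H, g * h * g⁻¹ ∈ H) (c : S ⧸ H) :
    TIdE H g hg c = TIdR H g hg c := rfl

lemma TIdE_symm_smul (H : Subgroup S) (g : S) (hg : ∀ h ∈ H, g * h * g⁻¹ ∈ H) (s : S)
    (d : S ⧸ H) : (TIdE H g hg).symm (s • d) = s • (TIdE H g hg).symm d := by
  rw [Equiv.symm_apply_eq, TIdE_apply, TIdR_smul, ← TIdE_apply, Equiv.apply_symm_apply]

/-- the cocycle of right translation -/
def TIdk (H : Subgroup S) (g : S) (hg : ∀ h ∈ H, g * h * g⁻¹ ∈ H) (c : S ⧸ H) : H :=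
  ⟨((TIdR H g hg c).out)⁻¹ * (c.out * g⁻¹), by
    rw [← QuotientGroup.eq, QuotientGroup.out_eq', TIdR_out]⟩

lemma TIdk_rel (H : Subgroup S) (g : S) (hg : ∀ h ∈ H, g * h * g⁻¹ ∈ H) (s : S) (c : S ⧸ H) :
    TIdk H g hg (s • c) * ⟨g * (hc H s c : H) * g⁻¹, hg _ (hc H s c).2⟩ =
      hc H s (TIdR H g hg c) * TIdk H g hg c := by
  apply Subtype.ext
  simp only [Subgroup.coe_mul, TIdk, hc_coe, TIdR_smul]
  group

/-- the operator -/
def TIdOp (H : Subgroup S) (g : S) (hg : ∀ h ∈ H, g * h * g⁻¹ ∈ H) (N : Mo k H)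
    (φ : N.V →ₗ[k] N.V) : (ti H N).V →ₗ[k] (ti H N).V :=
  (PiTensorProduct.reindex k (fun _ : S ⧸ H => N.V) (TIdE H g hg)).toLinearMap ∘ₗ
    PiTensorProduct.map (fun c => N.ρ (TIdk H g hg c) ∘ₗ φ)

lemma TIdOp_tprod (H : Subgroup S) (g : S) (hg : ∀ h ∈ H, g * h * g⁻¹ ∈ H) (N : Mo k H)
    (φ : N.V →ₗ[k] N.V) (v : S ⧸ H → N.V) :
    TIdOp H g hg N φ (PiTensorProduct.tprod k v) =
      PiTensorProduct.tprod k (fun d => N.ρ (TIdk H g hg ((TIdE H g hg).symm d))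
        (φ (v ((TIdE H g hg).symm d)))) := by
  have h1 : PiTensorProduct.map (fun c => N.ρ (TIdk H g hg c) ∘ₗ φ)
      (PiTensorProduct.tprod k v) = PiTensorProduct.tprod k
        (fun c => (N.ρ (TIdk H g hg c) ∘ₗ φ) (v c)) := PiTensorProduct.map_tprod _ _
  show (PiTensorProduct.reindex k (fun _ : S ⧸ H => N.V) (TIdE H g hg))
    (PiTensorProduct.map (fun c => N.ρ (TIdk H g hg c) ∘ₗ φ) (PiTensorProduct.tprod k v)) = _
  rw [h1]
  erw [PiTensorProduct.reindex_tprod]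
  rfl

lemma TId_perm (H : Subgroup S) (σ : S ⧸ H ≃ S ⧸ H) (u : S ⧸ H → k) :
    (PiTensorProduct.tprod k (fun d => u (σ d)) : ⨂[k] _ : S ⧸ H, k) =
      PiTensorProduct.tprod k u := by
  classical
  have : Fintype (S ⧸ H) := Fintype.ofFinite _
  apply (PiTensorProduct.constantBaseRingEquiv (S ⧸ H) k).injective
  rw [PiTensorProduct.constantBaseRingEquiv_tprod, PiTensorProduct.constantBaseRingEquiv_tprod]
  exact Equiv.prod_comp σ u

theorem cop_exists (H : Subgroup S) (g : S) (hg : ∀ h ∈ H, g * h * g⁻¹ ∈ H) (N : Mo k H)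
    (φ : N.V →ₗ[k] N.V)
    (hφ : ∀ (h : H) (n : N.V), φ (N.ρ h n) = N.ρ ⟨g * h * g⁻¹, hg h h.2⟩ (φ n)) :
    ∃ c : (ti H N).V →ₗ[k] (ti H N).V, IsH (ti H N) (ti H N) c ∧
      ∀ w : N.V →ₗ[k] (triv k H).V, IsH N (triv k H) w →
        (tm H fun _ => w) ∘ₗ c = tm H (fun _ => w ∘ₗ φ) := by
  refine ⟨TIdOp H g hg N φ, ?_, ?_⟩
  · apply TE_isH_of_comp
    intro s
    apply TIa_ext
    intro v
    rw [LinearMap.comp_apply, LinearMap.comp_apply, TIa_rho, TIdOp_tprod, TIdOp_tprod, TIa_rho]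
    congr 1
    funext d
    obtain ⟨c, rfl⟩ : ∃ c, d = TIdR H g hg (s • c) := by
      obtain ⟨c, hc⟩ := (TIdR_bij H g hg).2 d
      exact ⟨s⁻¹ • c, by rw [smul_inv_smul, hc]⟩
    have h1 : (TIdE H g hg).symm (TIdR H g hg (s • c)) = s • c := by
      rw [← TIdE_apply, Equiv.symm_apply_apply]
    have h2 : s⁻¹ • TIdR H g hg (s • c) = TIdR H g hg c := by
      rw [TIdR_smul, inv_smul_smul]
    have h3 : (TIdE H g hg).symm (TIdR H g hg c) = c := by
      rw [← TIdE_apply, Equiv.symm_apply_apply]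
    rw [h1, h2, h3, inv_smul_smul, hφ]
    have h4 := TIdk_rel H g hg s c
    rw [← Module.End.mul_apply, ← map_mul, h4, map_mul, Module.End.mul_apply]
  · intro w hw
    apply TIa_ext
    intro v
    rw [LinearMap.comp_apply, TIdOp_tprod, tm_tprod, tm_tprod]
    refine Eq.trans ?_ (TId_perm (k := k) H (TIdE H g hg).symm (fun c => w (φ (v c))))
    congr 1
    funext d
    exact hw _ _

end Pool.Agent.GamI
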