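import Pool.Agent.GamI.CHa
import Pool.Agent.GamI.CHb
import Pool.Agent.GamI.TId

/-! # CHc: a `p`-group carrying a nonzero rank functional which is null on all `k[S/K]`
is elementary abelian (a form of Chouinard's theorem) -/

set_option autoImplicit false

open scoped TensorProduct
open Module

noncomputable section

namespace Pool.Agent.GamI

variable {p : ℕ} [Fact p.Prime] {k : Type} [Field k] [CharP k p]

theorem heis_case {S : Type} [Group S] [Finite S] (hS : IsPGroup p S) (s : RankFn k S)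
    (hs : s.NullPerm) (a z g : S) (ha : a ^ p = 1) (hz : z ^ p = 1) (hz1 : z ≠ 1)
    (hza : z * a = a * z) (hgz : g * z = z * g) (hga : g * a * g⁻¹ = z * a)
    (haz : a ∉ Subgroup.zpowers z) : s.val (triv k S) = 0 := by
  have hp : p.Prime := Fact.out
  have hcom : Commute z a := hza
  have hconj : ∀ i j : ℤ, g * (z ^ i * a ^ j) * g⁻¹ = z ^ (i + j) * a ^ j := by
    intro i j
    have h1 : g * z * g⁻¹ = z := by rw [hgz, mul_inv_cancel_right]
    have h2 : g * (z ^ i * a ^ j) * g⁻¹ = (g * z * g⁻¹) ^ i * (g * a * g⁻¹) ^ j := by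
      rw [conj_zpow, conj_zpow]
      group
    rw [h2, h1, hga, hcom.mul_zpow, zpow_add, mul_assoc]
  let H : Subgroup S :=
    { carrier := {h | ∃ i j : ℤ, h = z ^ i * a ^ j}
      one_mem' := ⟨0, 0, by simp⟩
      mul_mem' := by
        rintro _ _ ⟨i, j, rfl⟩ ⟨i', j', rfl⟩
        refine ⟨i + i', j + j', ?_⟩
        have h1 : a ^ j * z ^ i' = z ^ i' * a ^ j := ((hcom.zpow_zpow i' j).eq).symm
        rw [zpow_add, zpow_add, mul_assoc, mul_assoc, ← mul_assoc (a ^ j), h1]
        simp only [mul_assoc]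
      inv_mem' := by
        rintro _ ⟨i, j, rfl⟩
        refine ⟨-i, -j, ?_⟩
        rw [mul_inv_rev, ← zpow_neg, ← zpow_neg]
        exact ((hcom.zpow_zpow (-i) (-j)).eq).symm }
  have hg : ∀ h ∈ H, g * h * g⁻¹ ∈ H := by
    rintro _ ⟨i, j, rfl⟩
    exact ⟨i + j, j, hconj i j⟩
  let a₁ : H := ⟨z, 1, 0, by simp⟩
  let a₂ : H := ⟨a, 0, 1, by simp⟩
  let α : H →* H :=
    { toFun := fun h => ⟨g * h * g⁻¹, hg h h.2⟩
      map_one' := by
        apply Subtype.ext
        simp
      map_mul' := by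
        intro x y
        apply Subtype.ext
        simp [mul_assoc] }
  have hordz : orderOf z = p := orderOf_eq_prime hz hz1
  have hzi : ∀ i j : ℤ, (i - j) % p = 0 → z ^ i = z ^ j := by
    intro i j h
    have h1 : i = j + p * ((i - j) / p) := by
      have := Int.emod_add_mul_ediv (i - j) p
      rw [h] at this
      linarith
    rw [h1, zpow_add, zpow_mul, zpow_natCast, hz, one_zpow, mul_one]
  have hai : ∀ i j : ℤ, (i - j) % p = 0 → a ^ i = a ^ j := by
    intro i j h
    have h1 : i = j + p * ((i - j) / p) := by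
      have := Int.emod_add_mul_ediv (i - j) p
      rw [h] at this
      linarith
    rw [h1, zpow_add, zpow_mul, zpow_natCast, ha, one_zpow, mul_one]
  have hpz : (0 : ℤ) < p := by exact_mod_cast hp.pos
  have hb : ∀ h : H, ∃! ij : Fin p × Fin p, h = a₁ ^ (ij.1 : ℕ) * a₂ ^ (ij.2 : ℕ) := by
    rintro ⟨_, i, j, rfl⟩
    have h1 : ∀ i : ℤ, ∃ n : Fin p, ((n : ℕ) : ℤ) = i % p := by
      intro i
      have h2 := Int.emod_nonneg i hpz.ne'
      have h3 := Int.emod_lt_of_pos i hpz
      refine ⟨⟨(i % p).toNat, by omega⟩, ?_⟩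
      simp [h2]
    obtain ⟨m, hm⟩ := h1 i
    obtain ⟨n, hn⟩ := h1 j
    refine ⟨(m, n), ?_, ?_⟩
    · apply Subtype.ext
      change z ^ i * a ^ j = z ^ (m : ℕ) * a ^ (n : ℕ)
      rw [← zpow_natCast, ← zpow_natCast, hm, hn]
      congr 1
      · apply hzi
        rw [Int.sub_emod, Int.emod_emod_of_dvd _ dvd_rfl]
        simp
      · apply hai
        rw [Int.sub_emod, Int.emod_emod_of_dvd _ dvd_rfl]
        simp
    · rintro ⟨m', n'⟩ h
      have h2 := congrArg Subtype.val h
      change z ^ i * a ^ j = z ^ (m' : ℕ) * a ^ (n' : ℕ) at h2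
      have h3 : z ^ i * a ^ j = z ^ (m : ℕ) * a ^ (n : ℕ) := by
        rw [← zpow_natCast, ← zpow_natCast, hm, hn]
        congr 1
        · apply hzi
          rw [Int.sub_emod, Int.emod_emod_of_dvd _ dvd_rfl]
          simp
        · apply hai
          rw [Int.sub_emod, Int.emod_emod_of_dvd _ dvd_rfl]
          simp
      rw [h3] at h2
      have h4 : a ^ ((n : ℤ) - (n' : ℤ)) = z ^ ((m' : ℤ) - (m : ℤ)) := by
        rw [zpow_sub, zpow_sub, zpow_natCast, zpow_natCast, zpow_natCast, zpow_natCast]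
        have h5 : z ^ (m : ℕ) * (a ^ (n : ℕ) * (a ^ (n' : ℕ))⁻¹) = z ^ (m' : ℕ) := by
          rw [← mul_assoc, h2, mul_inv_cancel_right]
        rw [← h5]
        have h6 : Commute (z ^ (m : ℕ)) (a ^ (n : ℕ) * (a ^ (n' : ℕ))⁻¹) :=
          (hcom.pow_pow _ _).mul_right ((hcom.pow_pow _ _).inv_right)
        rw [h6.eq, mul_inv_cancel_right]
      have h5 : n = n' := by
        by_contra hne
        apply haz
        have hne' : ((n : ℕ) : ℤ) - (n' : ℕ) ≠ 0 := by
          intro h
          apply hne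
          apply Fin.ext
          omega
        have hcop : IsCoprime (((n : ℕ) : ℤ) - (n' : ℕ)) (p : ℤ) := by
          rw [Int.isCoprime_iff_gcd_eq_one]
          have h7 : Nat.Coprime (((n : ℕ) : ℤ) - (n' : ℕ)).natAbs p := by
            apply Nat.Coprime.symm
            rw [Nat.Prime.coprime_iff_not_dvd hp]
            intro hd
            have := Nat.le_of_dvd (by omega) hd
            have h8 := n.2
            have h9 := n'.2
            omega
          exact h7
        obtain ⟨b, c, hbc⟩ := hcop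
        have h7 : a = (a ^ (((n : ℕ) : ℤ) - (n' : ℕ))) ^ b := by
          rw [← zpow_mul]
          have h8 : (((n : ℕ) : ℤ) - (n' : ℕ)) * b = 1 + p * (-c) := by linarith
          rw [h8, zpow_add, zpow_mul, zpow_natCast, ha, one_zpow, mul_one, zpow_one]
        rw [h7, h4, ← zpow_mul]
        exact ⟨_, rfl⟩
      subst h5
      have h6 : z ^ (m : ℕ) = z ^ (m' : ℕ) := mul_right_cancel h2
      have h7 : m = m' := by
        apply Fin.ext
        exact pow_injOn_Iio_orderOf (by simp [hordz]) (by simp [hordz]) h6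
      rw [h7]
  have h12 : a₁ * a₂ = a₂ * a₁ := Subtype.ext hza
  have hα1 : α a₁ = a₁ := by
    apply Subtype.ext
    change g * z * g⁻¹ = z
    rw [hgz, mul_inv_cancel_right]
  have hα2 : α a₂ = a₁ * a₂ := Subtype.ext hga
  obtain ⟨N, A, u, w, φ, f, hw, hses, hPF, hφ, huφ, hwφ⟩ :=
    heis_data (p := p) (k := k) H a₁ a₂ h12 (Subtype.ext hz) (Subtype.ext ha) hb α hα1 hα2
  obtain ⟨c, hc, hcw⟩ := cop_exists H g hg N φ hφ
  have hA0 := ti_pf hS s hs H A hPF
  obtain ⟨h6, h7⟩ := (ti_ses hS s hs H hses).2.2 hA0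
  have hcu := hcw u hses.hg
  rw [huφ] at hcu
  have hcw' := hcw w hw
  rw [hwφ] at hcw'
  have hid : IsH (ti H N) (ti H N) LinearMap.id := IsH.id _
  have hc1 : IsH (ti H N) (ti H N) (c - LinearMap.id) := hc.sub hid
  have htu := tm_isH H hses.hg
  have htw := tm_isH H hw
  have h8 := s.sylv hc1 htu
  have h9 : (tm H fun _ => u) ∘ₗ (c - LinearMap.id) = 0 := by
    rw [LinearMap.comp_sub, hcu, LinearMap.comp_id, sub_self]
  rw [h9, s.s_zero, h6, add_zero] at h8
  have h10 : s.s (ti H N) (ti H N) (c - LinearMap.id) ≤ 0 := by linarith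
  have h11 := s.comp_le_r _ _ _ _ _ hc1 htw
  have h12' : (tm H fun _ => w) ∘ₗ (c - LinearMap.id) = (tm H fun _ => w + u) - tm H fun _ => w := by
    rw [LinearMap.comp_sub, hcw', LinearMap.comp_id]
  rw [h12'] at h11
  have h13 := ti_add_null hS s hs H w u hw hses.hg
  have htwu := tm_isH H (hw.add hses.hg)
  have h14 := s.sub_le (htwu.sub htw) ((htwu.sub htw).sub htu)
  rw [h13, sub_sub_cancel] at h14
  have h15 := s.val_nonneg (ti H N)
  rw [← s.val_iso (ti_triv H), h7]
  linarith

theorem elab_of_functional {S : Type} [Group S] [Finite S] (hS : IsPGroup p S) (s : RankFn k S)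
    (hs : s.NullPerm) (h0 : 0 < s.val (triv k S)) :
    (∀ a b : S, a * b = b * a) ∧ (∀ a : S, a ^ p = 1) ∧ Nontrivial S := by
  have hp : p.Prime := Fact.out
  have hnt : Nontrivial S := by
    by_contra h
    have hsub : Subsingleton S := not_nontrivial_iff_subsingleton.1 h
    refine h0.ne' (s.val_of_proj ⟨LinearMap.id, ?_⟩)
    have h1 : subFin (⊤ : Subgroup S) = {1} := by
      ext x
      simp [subFin, Subsingleton.elim x 1]
    rw [trH, h1, Finset.sum_singleton]
    exact cj_isH (IsH.id _)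
  have hexp : ∀ a : S, a ^ p = 1 := by
    intro a
    by_contra h
    obtain ⟨n, hn⟩ := (IsPGroup.iff_orderOf.1 hS) a
    have hn2 : 2 ≤ n := by
      by_contra hlt
      apply h
      rw [← orderOf_dvd_iff_pow_eq_one, hn]
      calc p ^ n ∣ p ^ 1 := pow_dvd_pow p (by omega)
        _ = p := pow_one p
    have h1 : orderOf (a ^ (p ^ (n - 2))) = p ^ 2 := by
      rw [orderOf_pow_of_dvd (pow_ne_zero _ hp.ne_zero) (by rw [hn]; exact pow_dvd_pow p (by omega)), hn,
        Nat.pow_div (by omega) hp.pos]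
      congr 1
      omega
    exact h0.ne' (cyclic_case hS s hs _ h1)
  refine ⟨?_, hexp, hnt⟩
  by_contra hab
  push Not at hab
  obtain ⟨b, c, hbc⟩ := hab
  have hq : IsPGroup p (S ⧸ Subgroup.center S) := hS.to_quotient _
  have hqn : Nontrivial (S ⧸ Subgroup.center S) := by
    rw [← not_subsingleton_iff_nontrivial]
    intro hsub
    rw [QuotientGroup.subsingleton_iff] at hsub
    have h1 : b ∈ Subgroup.center S := by
      rw [hsub]
      trivial
    exact hbc ((Subgroup.mem_center_iff.1 h1 c).symm)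
  have hcn := hq.center_nontrivial
  obtain ⟨⟨q, hq1⟩, hq2⟩ := exists_ne (1 : Subgroup.center (S ⧸ Subgroup.center S))
  obtain ⟨a, rfl⟩ := QuotientGroup.mk_surjective q
  have haZ : a ∉ Subgroup.center S := by
    intro h
    apply hq2
    apply Subtype.ext
    exact (QuotientGroup.eq_one_iff a).2 h
  have hex : ∃ g : S, g * a ≠ a * g := by
    by_contra hcon
    push Not at hcon
    exact haZ (Subgroup.mem_center_iff.2 hcon)
  obtain ⟨g, hg⟩ := hex
  set z := g * a * g⁻¹ * a⁻¹ with hz
  have hzc : z ∈ Subgroup.center S := by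
    rw [← QuotientGroup.eq_one_iff, hz]
    have h1 := Subgroup.mem_center_iff.1 hq1 (g : S ⧸ Subgroup.center S)
    rw [QuotientGroup.mk_mul, QuotientGroup.mk_mul, QuotientGroup.mk_mul, h1, QuotientGroup.mk_inv,
      QuotientGroup.mk_inv, mul_inv_cancel_right, mul_inv_cancel]
  have hzcom := Subgroup.mem_center_iff.1 hzc
  refine h0.ne' (heis_case hS s hs a z g (hexp a) (hexp z) ?_ ?_ ?_ ?_ ?_)
  · intro h
    apply hg
    rw [hz] at h
    have h1 : g * a * g⁻¹ = a := by
      rw [mul_inv_eq_one] at h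
      exact h
    rw [mul_inv_eq_iff_eq_mul] at h1
    exact h1
  · exact (hzcom a).symm
  · exact hzcom g
  · rw [hz]
    group
  · rintro ⟨n, hn⟩
    apply haZ
    rw [← hn]
    exact Subgroup.zpow_mem _ hzc n

end Pool.Agent.GamI
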