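import Pool.Agent.GamI.Defs3
import Pool.Agent.GamI.TE

set_option autoImplicit false

open scoped TensorProduct
open Module Polynomial

noncomputable section

namespace Pool.Agent.GamI

namespace CIaux

variable {K : Type} [Field K]

/-- an element of `P K n` -/
def pm (n : ℕ) (f : K[X]) (h : f ∈ degreeLT K n) : (P K n).V := ⟨f, h⟩

lemma Xmem {n i : ℕ} (hi : i < n) : (X : K[X]) ^ i ∈ degreeLT K n := by
  rw [mem_degreeLT, degree_X_pow]
  exact_mod_cast hi

/-- the first factor in the outer variable, the second one in the inner variable -/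
def bet : K[X] ⊗[K] K[X] →ₗ[K] K[X][X] :=
  TensorProduct.lift (LinearMap.mk₂ K (fun f g => f.map C * C g)
    (fun f f' g => by rw [Polynomial.map_add, add_mul])
    (fun c f g => by
      rw [Polynomial.smul_eq_C_mul, Polynomial.map_mul, Polynomial.map_C, Algebra.smul_def]
      rw [mul_assoc]; rfl)
    (fun f g g' => by rw [map_add, mul_add])
    (fun c f g => by
      rw [Polynomial.smul_eq_C_mul, map_mul, Algebra.smul_def]
      rw [← mul_assoc, mul_comm (f.map C), mul_assoc]; rfl))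

@[simp] lemma bet_tmul (f g : K[X]) : bet (f ⊗ₜ[K] g) = f.map C * C g := rfl

/-- restricted to `P_n ⊗ P_m` -/
def betP (n m : ℕ) : (P K n).V ⊗[K] (P K m).V →ₗ[K] K[X][X] :=
  bet ∘ₗ TensorProduct.map (degreeLT K n).subtype (degreeLT K m).subtype

lemma betP_tmul (n m : ℕ) (f : (P K n).V) (g : (P K m).V) :
    betP n m (f ⊗ₜ[K] g) = (f.1 : K[X]).map C * C (g.1 : K[X]) := rfl

lemma exists_rep (n : ℕ) {N : Type} [AddCommGroup N] [Module K N] (F : (P K n).V ⊗[K] N) :
    ∃ g : Fin n → N, F = ∑ i : Fin n, (pm n (X ^ (i : ℕ)) (Xmem i.2)) ⊗ₜ[K] g i := by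
  induction F using TensorProduct.induction_on with
  | zero => exact ⟨0, by simp⟩
  | add a b ha hb =>
    obtain ⟨g, rfl⟩ := ha
    obtain ⟨g', rfl⟩ := hb
    refine ⟨g + g', ?_⟩
    rw [← Finset.sum_add_distrib]
    refine Finset.sum_congr rfl fun i _ => ?_
    rw [Pi.add_apply, TensorProduct.tmul_add]
  | tmul f x =>
    refine ⟨fun i => (f.1 : K[X]).coeff i • x, ?_⟩
    have hf : f = ∑ i : Fin n, (f.1 : K[X]).coeff i • (pm n (X ^ (i : ℕ)) (Xmem i.2)) := by
      apply Subtype.ext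
      have h1 : ((∑ i : Fin n, (f.1 : K[X]).coeff i • (pm n (X ^ (i : ℕ)) (Xmem i.2)) : (P K n).V).1
          : K[X]) = ∑ i : Fin n, (f.1 : K[X]).coeff i • (X : K[X]) ^ (i : ℕ) := by
        erw [AddSubmonoidClass.coe_finsetSum]
        rfl
      rw [h1]
      apply Polynomial.ext
      intro j
      rw [finsetSum_coeff]
      simp only [coeff_smul, coeff_X_pow, smul_eq_mul, mul_ite, mul_one, mul_zero]
      by_cases hj : j < n
      · rw [Finset.sum_eq_single (⟨j, hj⟩ : Fin n)]
        · simp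
        · intro b _ hb
          rw [if_neg]
          intro h
          exact hb (Fin.ext h.symm)
        · intro h
          exact absurd (Finset.mem_univ _) h
      · rw [Finset.sum_eq_zero]
        · have := (mem_degreeLT.1 f.2)
          exact coeff_eq_zero_of_degree_lt (lt_of_lt_of_le this (by exact_mod_cast not_lt.1 hj))
        · intro i _
          rw [if_neg]
          intro h
          exact hj (h ▸ i.2)
    conv_lhs => rw [hf]
    rw [TensorProduct.sum_tmul]
    refine Finset.sum_congr rfl fun i _ => ?_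
    rw [TensorProduct.smul_tmul]


lemma betP_rep (n m : ℕ) (g : Fin n → (P K m).V) :
    betP n m (∑ i : Fin n, (pm n (X ^ (i : ℕ)) (Xmem i.2)) ⊗ₜ[K] g i) =
      ∑ i : Fin n, X ^ (i : ℕ) * C ((g i).1 : K[X]) := by
  rw [map_sum]
  refine Finset.sum_congr rfl fun i _ => ?_
  rw [betP_tmul]
  simp [pm]

lemma coeff_rep (n m : ℕ) (g : Fin n → (P K m).V) (j : Fin n) :
    (∑ i : Fin n, X ^ (i : ℕ) * C ((g i).1 : K[X])).coeff (j : ℕ) = (g j).1 := by
  rw [finsetSum_coeff]
  rw [Finset.sum_eq_single j]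
  · rw [coeff_mul_C, coeff_X_pow_self, one_mul]
  · intro b _ hb
    rw [coeff_mul_C, coeff_X_pow, if_neg, zero_mul]
    intro h
    exact hb (Fin.ext h.symm)
  · intro h
    exact absurd (Finset.mem_univ _) h

lemma betP_inj (n m : ℕ) : Function.Injective (betP (K := K) n m) := by
  rw [← LinearMap.ker_eq_bot, LinearMap.ker_eq_bot']
  intro F hF
  obtain ⟨g, rfl⟩ := exists_rep n F
  rw [betP_rep] at hF
  refine Finset.sum_eq_zero fun i _ => ?_
  have h1 := coeff_rep n m g i
  rw [hF, coeff_zero] at h1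
  have h2 : g i = 0 := Subtype.ext h1.symm
  rw [h2, TensorProduct.tmul_zero]

/-- simultaneous translation in both variables -/
def tau (t : K) : K[X][X] →+* K[X][X] :=
  (taylorAlgHom (C t : K[X])).toRingHom.comp (mapRingHom (taylorAlgHom t).toRingHom)

lemma tau_apply (t : K) (F : K[X][X]) :
    tau t F = taylor (C t) (F.map (taylorAlgHom t).toRingHom) := rfl

lemma taylor_map_C (t : K) (f : K[X]) : taylor (C t) (f.map C) = (taylor t f).map C := by
  rw [taylor_apply, taylor_apply, Polynomial.map_comp]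
  simp

lemma tau_mapC (t : K) (f : K[X]) : tau t (f.map C) = (taylor t f).map C := by
  rw [tau_apply, Polynomial.map_map]
  have : ((taylorAlgHom t).toRingHom.comp (C : K →+* K[X])) = C := by
    refine RingHom.ext fun x => ?_
    exact taylor_C t x
  rw [this, taylor_map_C]

lemma tau_C (t : K) (g : K[X]) : tau t (C g) = C (taylor t g) := by
  rw [tau_apply, map_C, taylor_C]
  rfl

lemma tau_X_sub (t : K) : tau t (X - C X) = X - C X := by
  rw [map_sub, tau_C]
  rw [tau_apply, map_X, taylor_X, taylor_X]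
  rw [map_add]
  ring

lemma betP_equiv (n m : ℕ) (t : K) (F : (P K n).V ⊗[K] (P K m).V) :
    betP n m (TensorProduct.map ((P K n).ρ (Multiplicative.ofAdd t))
      ((P K m).ρ (Multiplicative.ofAdd t)) F) = tau t (betP n m F) := by
  induction F using TensorProduct.induction_on with
  | zero => rw [map_zero, map_zero, map_zero]
  | add a b ha hb =>
    rw [map_add, map_add, ha, hb, map_add, map_add]
  | tmul f g =>
    rw [TensorProduct.map_tmul, betP_tmul, betP_tmul, map_mul, tau_mapC, tau_C]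
    rfl

end CIaux

end Pool.Agent.GamI

namespace Pool.Agent.GamI
namespace CIaux
variable {K : Type} [Field K]

lemma deg_CX (n : ℕ) : ((C (X : K[X]) - X) ^ n).degree = (n : WithBot ℕ) := by
  have h1 : (C (X : K[X]) - X).degree = 1 := by
    rw [degree_sub_eq_right_of_degree_lt]
    · exact degree_X
    · rw [degree_X]
      exact lt_of_le_of_lt degree_C_le (by norm_num)
  rw [degree_pow, h1, nsmul_eq_mul, mul_one]

/-- the main algebraic lemma: divisibility -/
lemma key_dvd (p : ℕ) [Fact p.Prime] [CharP K p] (a c : ℕ) (ha : 1 ≤ a) (hc : 1 ≤ c)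
    (hac : a + c = p + 1) (F : K[X][X]) (hF : F.degree < p)
    (hG : ∀ l, a - 1 ≤ l → l < p → ((C X - X) ^ (a - 1) * F).coeff l = 0) :
    (X - C X) ^ c ∣ F := by
  have hp : 0 < p := (Fact.out : p.Prime).pos
  have : CharP K[X][X] p := inferInstance
  set G := (C X - X) ^ (a - 1) * F with hGdef
  have hmon : (X - C (X : K[X])).Monic := monic_X_sub_C _
  have hsub : (C (X : K[X]) - X) = (-1) * (X - C X) := by ring
  have hXp : ((X : K[X][X]) ^ p).Monic := monic_X_pow p
  have hdecomp : G %ₘ X ^ p + X ^ p * (G /ₘ X ^ p) = G := modByMonic_add_div G (X ^ p)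
  set G0 := G %ₘ X ^ p with hG0
  set G1 := G /ₘ X ^ p with hG1
  have hd0 : G0.degree < ((a - 1 : ℕ) : WithBot ℕ) := by
    rw [degree_lt_iff_coeff_zero]
    intro m hm
    by_cases hmp : m < p
    · have h1 : G.coeff m = 0 := hG m hm hmp
      rw [← hdecomp, coeff_add, coeff_X_pow_mul', if_neg (not_le.2 hmp), add_zero] at h1
      exact h1
    · have h1 : G0.degree < ((X : K[X][X]) ^ p).degree := degree_modByMonic_lt _ hXp
      rw [degree_X_pow] at h1
      exact coeff_eq_zero_of_degree_lt (lt_of_lt_of_le h1 (by exact_mod_cast not_lt.1 hmp))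
  have hd1 : G1.degree < ((a - 1 : ℕ) : WithBot ℕ) := by
    rw [degree_lt_iff_coeff_zero]
    intro m hm
    have h1 : G.coeff (m + p) = 0 := by
      apply coeff_eq_zero_of_degree_lt
      rw [hGdef]
      by_cases hF0 : F = 0
      · rw [hF0, mul_zero, degree_zero]
        exact WithBot.bot_lt_coe _
      · have h2 : ((C (X : K[X]) - X) ^ (a - 1)).degree = ((a - 1 : ℕ) : WithBot ℕ) := deg_CX _
        rw [degree_mul, h2, degree_eq_natDegree hF0]
        have h4 : F.natDegree < p := (natDegree_lt_iff_degree_lt hF0).2 hF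
        exact_mod_cast (by omega : a - 1 + F.natDegree < m + p)
    rw [← hdecomp, coeff_add] at h1
    have h5 : G0.coeff (m + p) = 0 := by
      apply coeff_eq_zero_of_degree_lt
      refine lt_of_lt_of_le hd0 ?_
      exact_mod_cast (by omega : a - 1 ≤ m + p)
    rwa [h5, zero_add, coeff_X_pow_mul] at h1
  have hfrob : (X - C (X : K[X])) ^ p = X ^ p - (C X) ^ p := sub_pow_char _ _
  have hdvd : (X - C (X : K[X])) ^ (a - 1) ∣ G0 + (C X) ^ p * G1 := by
    have e1 : G0 + (C X) ^ p * G1 = G - (X - C (X : K[X])) ^ p * G1 := by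
      rw [hfrob, ← hdecomp]
      ring
    rw [e1]
    refine dvd_sub ?_ ?_
    · rw [hGdef, hsub, mul_pow]
      exact ⟨(-1) ^ (a - 1) * F, by ring⟩
    · exact Dvd.dvd.mul_right (pow_dvd_pow _ (by omega)) _
  have hzero : G0 + (C X) ^ p * G1 = 0 := by
    by_contra hne
    have hm : ((X - C (X : K[X])) ^ (a - 1)).Monic := hmon.pow _
    refine hm.not_dvd_of_degree_lt hne ?_ hdvd
    have h2 : ((X - C (X : K[X])) ^ (a - 1)).degree = ((a - 1 : ℕ) : WithBot ℕ) := by
      rw [degree_pow, degree_X_sub_C, nsmul_eq_mul, mul_one]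
    rw [h2]
    refine lt_of_le_of_lt (degree_add_le _ _) (max_lt hd0 ?_)
    rw [← C_pow]
    refine lt_of_le_of_lt ?_ hd1
    rw [degree_mul]
    by_cases hz : (X : K[X]) ^ p = 0
    · exact absurd hz (pow_ne_zero _ X_ne_zero)
    · rw [degree_C hz, zero_add]
  have hGeq : G = (X - C (X : K[X])) ^ p * G1 := by
    rw [hfrob, ← hdecomp]
    linear_combination hzero
  have hne : (X - C (X : K[X])) ^ (a - 1) ≠ 0 := (hmon.pow _).ne_zero
  have h6 : (X - C (X : K[X])) ^ (a - 1) * ((-1) ^ (a - 1) * F) =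
      (X - C (X : K[X])) ^ (a - 1) * ((X - C (X : K[X])) ^ c * G1) := by
    rw [← mul_assoc, ← mul_assoc, ← pow_add]
    have h7 : a - 1 + c = p := by omega
    rw [h7, ← hGeq, hGdef, hsub, mul_pow]
    ring
  have h8 := mul_left_cancel₀ hne h6
  refine ⟨(-1) ^ (a - 1) * G1, ?_⟩
  have h9 : ((-1 : K[X][X]) ^ (a - 1)) * (-1) ^ (a - 1) = 1 := by
    have h10 : (-1 : K[X][X]) * (-1) = 1 := by ring
    rw [← mul_pow, h10, one_pow]
  calc F = ((-1 : K[X][X]) ^ (a - 1) * (-1) ^ (a - 1)) * F := by rw [h9, one_mul]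
    _ = (-1) ^ (a - 1) * ((-1) ^ (a - 1) * F) := by ring
    _ = (-1) ^ (a - 1) * ((X - C X) ^ c * G1) := by rw [h8]
    _ = _ := by ring

lemma key_zero (c : ℕ) (F : K[X][X]) (hF : (Bivariate.swap F).degree < c)
    (h : (X - C X) ^ c ∣ F) : F = 0 := by
  obtain ⟨Q, rfl⟩ := h
  by_contra hne
  have hne' : Bivariate.swap ((X - C X) ^ c * Q : K[X][X]) ≠ 0 := by
    intro h0
    apply hne
    have := congrArg Bivariate.swap h0
    rwa [Bivariate.swap_swap_apply, map_zero] at this
  rw [map_mul, map_pow, map_sub, Bivariate.swap_X, Bivariate.swap_Y] at hF hne'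
  have h2 : ((C (X : K[X]) - X) ^ c).degree = (c : WithBot ℕ) := deg_CX _
  rw [degree_mul, h2] at hF
  have hQ : Bivariate.swap Q ≠ 0 := right_ne_zero_of_mul hne'
  rw [degree_eq_natDegree hQ] at hF
  have : c + (Bivariate.swap Q).natDegree < c := by exact_mod_cast hF
  omega


/-- `Λ(h) = [R^{p-1}] ((R - T')^{c-1} h(R))` -/
def Lam (p c : ℕ) : K[X] →ₗ[K] K[X] where
  toFun h := ((X - C X) ^ (c - 1) * h.map C).coeff (p - 1)
  map_add' f g := by rw [Polynomial.map_add, mul_add, coeff_add]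
  map_smul' r f := by
    rw [Polynomial.smul_eq_C_mul, Polynomial.map_mul, Polynomial.map_C, RingHom.id_apply,
      Polynomial.smul_eq_C_mul]
    rw [← mul_assoc, mul_comm _ (C (C r)), mul_assoc, coeff_C_mul]

lemma Lam_apply (p c : ℕ) (h : K[X]) :
    Lam p c h = ((X - C X) ^ (c - 1) * h.map C).coeff (p - 1) := rfl

lemma Lam_formula (p c : ℕ) (hcp : c ≤ p) (h : K[X]) :
    Lam p c h = ∑ m ∈ Finset.range (c - 1 + 1), (-X) ^ (c - 1 - m) * ((c - 1).choose m : K[X]) *
      C (h.coeff (p - 1 - m)) := by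
  rw [Lam_apply, sub_eq_add_neg, add_pow, Finset.sum_mul, finsetSum_coeff]
  refine Finset.sum_congr rfl fun m hm => ?_
  rw [Finset.mem_range] at hm
  have e1 : (X : K[X][X]) ^ m * (-C (X : K[X])) ^ (c - 1 - m) * ((c - 1).choose m : K[X][X]) *
      h.map C = X ^ m * (C ((-X) ^ (c - 1 - m) * ((c - 1).choose m : K[X])) * h.map C) := by
    have e2 : C ((-X : K[X]) ^ (c - 1 - m)) = (-C (X : K[X])) ^ (c - 1 - m) := by
      rw [C_pow]
      congr 1
      exact map_neg (C : K[X] →+* K[X][X]) X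
    have e3 : C (((c - 1).choose m : ℕ) : K[X]) = (((c - 1).choose m : ℕ) : K[X][X]) :=
      map_natCast (C : K[X] →+* K[X][X]) _
    rw [C_mul, e2, e3]
    ring
  rw [e1, coeff_X_pow_mul', if_pos (by omega), coeff_C_mul, coeff_map]

lemma Lam_degree (p c : ℕ) (hc : 1 ≤ c) (hcp : c ≤ p) (h : K[X]) : Lam p c h ∈ degreeLT K c := by
  rw [Lam_formula p c hcp]
  refine Submodule.sum_mem _ fun m hm => ?_
  rw [mem_degreeLT]
  refine lt_of_le_of_lt (b := ((c - 1 : ℕ) : WithBot ℕ)) ?_ (by exact_mod_cast (by omega))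
  refine (degree_mul_le _ _).trans ?_
  refine (add_le_add (degree_mul_le _ _) degree_C_le).trans ?_
  rw [add_zero]
  refine (add_le_add (b := ((c - 1 - m : ℕ) : WithBot ℕ)) ?_
    (degree_natCast_le _)).trans ?_
  · rw [neg_pow]
    refine (degree_mul_le _ _).trans ?_
    rw [degree_X_pow]
    have h3 : ((-1 : K[X]) ^ (c - 1 - m)).degree = 0 := by
      rw [degree_pow, degree_neg, degree_one, nsmul_zero]
    rw [h3, zero_add]
  · rw [add_zero]
    exact_mod_cast Nat.sub_le _ _

lemma Lam_coeff (p c : ℕ) (hc : 1 ≤ c) (hcp : c ≤ p) (h : K[X]) (j : ℕ) (hj : j < c) :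
    (Lam p c h).coeff j = ((-1) ^ j * ((c - 1).choose j : K)) * h.coeff (p - c + j) := by
  rw [Lam_formula p c hcp, finsetSum_coeff, Finset.sum_eq_single (c - 1 - j)]
  · rw [coeff_mul_C]
    have e1 : c - 1 - (c - 1 - j) = j := by omega
    rw [e1]
    have e2 : p - 1 - (c - 1 - j) = p - c + j := by omega
    rw [e2, neg_pow]
    rw [Nat.choose_symm (by omega)]
    have e3 : ((-1 : K[X]) ^ j * X ^ j * ((c - 1).choose j : K[X])) =
        C ((-1) ^ j * ((c - 1).choose j : K)) * X ^ j := by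
      rw [C_mul, C_pow, C_neg, C_1, C_eq_natCast]
      ring
    rw [e3, coeff_C_mul, coeff_X_pow_self, mul_one]
  · intro m hm hne
    rw [Finset.mem_range] at hm
    rw [coeff_mul_C, neg_pow]
    have e3 : ((-1 : K[X]) ^ (c - 1 - m) * X ^ (c - 1 - m) * ((c - 1).choose m : K[X])) =
        C ((-1) ^ (c - 1 - m) * ((c - 1).choose m : K)) * X ^ (c - 1 - m) := by
      rw [C_mul, C_pow, C_neg, C_1, C_eq_natCast]
      ring
    rw [e3, coeff_C_mul, coeff_X_pow, if_neg (by omega), mul_zero, zero_mul]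
  · intro h
    exact absurd (Finset.mem_range.2 (by omega)) h

lemma coeff_taylor_inv (p : ℕ) [Fact p.Prime] [CharP K p] (s : K[X]) (H : K[X][X])
    (hH : H.natDegree ≤ 2 * p - 2) : (taylor s H).coeff (p - 1) = H.coeff (p - 1) := by
  have hp : 0 < p := (Fact.out : p.Prime).pos
  have : CharP K[X] p := inferInstance
  rw [taylor_coeff]
  have h1 : hasseDeriv (p - 1) H = C (H.coeff (p - 1)) := by
    apply Polynomial.ext
    intro n
    rw [hasseDeriv_coeff]
    rcases Nat.eq_zero_or_pos n with h0 | h0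
    · subst h0
      simp
    · rw [coeff_C, if_neg (by omega)]
      by_cases hn : n + (p - 1) ≤ 2 * p - 2
      · have h2 : p ∣ (n + (p - 1)).choose (p - 1) := by
          have h3 : n + (p - 1) = (n - 1) + p * 1 := by omega
          rw [← (CharP.cast_eq_zero_iff (ZMod p) p _)]
          have := Choose.choose_modEq_choose_mod_mul_choose_div_nat (p := p) (n := n + (p - 1))
            (k := p - 1)
          rw [h3] at this ⊢
          have h4 : ((n - 1) + p * 1) % p = n - 1 := by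
            rw [Nat.add_mul_mod_self_left, Nat.mod_eq_of_lt (by omega)]
          have h5 : (p - 1) % p = p - 1 := Nat.mod_eq_of_lt (by omega)
          rw [h4, h5, Nat.choose_eq_zero_of_lt (show n - 1 < p - 1 by omega), zero_mul] at this
          rw [(ZMod.natCast_eq_natCast_iff _ _ _).2 this]
          simp
        have h6 : (((n + (p - 1)).choose (p - 1) : ℕ) : K[X]) = 0 :=
          (CharP.cast_eq_zero_iff K[X] p _).2 h2
        rw [h6, zero_mul]
      · rw [coeff_eq_zero_of_natDegree_lt (by omega), mul_zero]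
  rw [h1, eval_C]

lemma Lam_taylor (p c : ℕ) [Fact p.Prime] [CharP K p] (t : K) (h : K[X])
    (hh : h.natDegree + (c - 1) ≤ 2 * p - 2) : Lam p c (taylor t h) = taylor t (Lam p c h) := by
  have e1 : taylor t (Lam p c h) =
      (((X - C X) ^ (c - 1) * h.map C).map (taylorAlgHom t).toRingHom).coeff (p - 1) := by
    rw [coeff_map]
    rfl
  have e2 : (taylor t h).map C = taylor (C t) (h.map C) := (taylor_map_C t h).symm
  have e3 : (h.map C).map (taylorAlgHom t).toRingHom = h.map C := by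
    rw [Polynomial.map_map]
    have : ((taylorAlgHom t).toRingHom.comp (C : K →+* K[X])) = C := by
      refine RingHom.ext fun x => ?_
      exact taylor_C t x
    rw [this]
  have e4 : (C (X : K[X])).map (taylorAlgHom t).toRingHom = C (X + C t) := by
    rw [map_C]
    congr 1
    exact taylor_X t
  rw [e1, Lam_apply, e2]
  have e5 : ((X : K[X][X]) - C X) ^ (c - 1) * taylor (C t) (h.map C) =
      taylor (C t) ((X - C (X + C t)) ^ (c - 1) * h.map C) := by
    rw [taylor_mul, taylor_pow, map_sub, taylor_X, taylor_C]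
    congr 2
    rw [C_add]
    ring
  have e6 : ((X - C X) ^ (c - 1) * h.map C).map (taylorAlgHom t).toRingHom =
      (X - C (X + C t)) ^ (c - 1) * h.map C := by
    rw [Polynomial.map_mul, Polynomial.map_pow, Polynomial.map_sub, e3, e4, map_X]
  rw [e5, e6]
  apply coeff_taylor_inv p
  refine natDegree_mul_le.trans ?_
  refine (add_le_add (natDegree_pow_le) (natDegree_map_le)).trans ?_
  rw [natDegree_X_sub_C]
  omega

end CIaux
end Pool.Agent.GamI

namespace Pool.Agent.GamI
namespace CIaux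
variable {K : Type} [Field K]

/-- the map `φ` -/
def phi (p a c : ℕ) (hc : 1 ≤ c) (hcp : c ≤ p) :
    (P K p).V ⊗[K] (P K a).V →ₗ[K] (P K c).V :=
  LinearMap.codRestrict (degreeLT K c) (Lam p c ∘ₗ LinearMap.mul' K K[X] ∘ₗ
    TensorProduct.map (degreeLT K p).subtype (degreeLT K a).subtype)
    (fun _ => Lam_degree p c hc hcp _)

lemma phi_tmul (p a c : ℕ) (hc : 1 ≤ c) (hcp : c ≤ p) (f : (P K p).V) (g : (P K a).V) :
    ((phi p a c hc hcp (f ⊗ₜ[K] g)).1 : K[X]) = Lam p c (f.1 * g.1) := rfl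

lemma mulX_mem (p a c : ℕ) (hac : a + c = p + 1) (i : ℕ) (g : K[X])
    (hg : g ∈ degreeLT K c) (ha : 1 ≤ a) : X ^ (a - 1 - i) * g ∈ degreeLT K p := by
  rw [mem_degreeLT] at hg ⊢
  by_cases h0 : g = 0
  · subst h0
    rw [mul_zero, degree_zero]
    exact WithBot.bot_lt_coe _
  rw [degree_eq_natDegree h0] at hg
  have hg' : g.natDegree < c := by exact_mod_cast hg
  rw [degree_mul, degree_X_pow, degree_eq_natDegree h0]
  exact_mod_cast (by omega : a - 1 - i + g.natDegree < p)

/-- multiplication by a power of `X` -/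
def mulX (p a c : ℕ) (ha : 1 ≤ a) (hac : a + c = p + 1) (i : ℕ) : (P K c).V →ₗ[K] (P K p).V :=
  LinearMap.codRestrict (degreeLT K p)
    ((LinearMap.mulLeft K ((X : K[X]) ^ (a - 1 - i))) ∘ₗ (degreeLT K c).subtype)
    (fun g => mulX_mem p a c hac i _ g.2 ha)

lemma mulX_val (p a c : ℕ) (ha : 1 ≤ a) (hac : a + c = p + 1) (i : ℕ) (g : (P K c).V) :
    ((mulX p a c ha hac i g).1 : K[X]) = X ^ (a - 1 - i) * g.1 := rfl

/-- the coefficients -/
def co (K : Type) [Field K] (a i : ℕ) : K := (-1) ^ i * ((a - 1).choose i : K)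

/-- the map `ι` -/
def iot (p a c : ℕ) (ha : 1 ≤ a) (hac : a + c = p + 1) :
    (P K c).V →ₗ[K] (P K p).V ⊗[K] (P K a).V :=
  ∑ i : Fin a, co K a i • ((TensorProduct.mk K (P K p).V (P K a).V).flip
    (pm a (X ^ (i : ℕ)) (Xmem i.2)) ∘ₗ mulX p a c ha hac i)

lemma iot_apply (p a c : ℕ) (ha : 1 ≤ a) (hac : a + c = p + 1) (g : (P K c).V) :
    iot p a c ha hac g = ∑ i : Fin a, co K a i •
      (mulX p a c ha hac i g ⊗ₜ[K] pm a (X ^ (i : ℕ)) (Xmem i.2)) := by
  rw [iot, LinearMap.sum_apply]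
  rfl

lemma betP_iot (p a c : ℕ) (ha : 1 ≤ a) (hac : a + c = p + 1) (g : (P K c).V) :
    betP p a (iot p a c ha hac g) = (X - C X) ^ (a - 1) * (g.1 : K[X]).map C := by
  rw [iot_apply, map_sum]
  have e0 : ((X : K[X][X]) - C X) ^ (a - 1) = (-C (X : K[X]) + X) ^ (a - 1) := by
    congr 1
    ring
  rw [e0, add_pow]
  have ha' : a - 1 + 1 = a := by omega
  rw [ha', Finset.sum_mul, Finset.sum_range]
  refine Finset.sum_congr rfl fun i _ => ?_
  rw [map_smul, betP_tmul, mulX_val, Polynomial.map_mul, Polynomial.map_pow, map_X]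
  have e1 : (((pm a (X ^ (i : ℕ)) (Xmem i.2) : (P K a).V)).1 : K[X]) = X ^ (i : ℕ) := rfl
  rw [e1, Algebra.smul_def]
  have e2 : algebraMap K K[X][X] (co K a i) = (-1) ^ (i : ℕ) * (((a - 1).choose i : ℕ) : K[X][X]) := by
    rw [co, map_mul, map_pow, map_neg, map_one, map_natCast]
  rw [e2, C_pow]
  have e3 : (-C (X : K[X])) ^ (i : ℕ) = (-1) ^ (i : ℕ) * C X ^ (i : ℕ) := by
    rw [← mul_pow]
    congr 1
    ring
  rw [e3]
  ring

set_option linter.unusedSectionVars false

variable (p : ℕ) [Fact p.Prime] [CharP K p]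

lemma phi_isH (a c : ℕ) (hc : 1 ≤ c) (ha : 1 ≤ a) (hcp : c ≤ p) (hac : a + c = p + 1) :
    IsH ((P K p).tens (P K a)) (P K c) (phi p a c hc hcp) := by
  intro t v
  change phi p a c hc hcp (TensorProduct.map ((P K p).ρ t) ((P K a).ρ t) v) = _
  induction v using TensorProduct.induction_on with
  | zero => rw [map_zero]; erw [map_zero, map_zero]
  | add x y hx hy => rw [map_add]; erw [map_add, map_add, hx, hy, map_add]
  | tmul f g =>
    rw [TensorProduct.map_tmul]
    apply Subtype.ext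
    erw [phi_tmul]
    have e1 : (((P K c).ρ t (phi p a c hc hcp (f ⊗ₜ[K] g))).1 : K[X]) =
      taylor t.toAdd (Lam p c (f.1 * g.1)) := rfl
    have e2 : ((((P K p).ρ t f).1 : K[X]) * ((P K a).ρ t g).1) = taylor t.toAdd (f.1 * g.1) := by
      rw [taylor_mul]
      rfl
    refine Eq.trans ?_ e1.symm
    rw [e2, Lam_taylor]
    have h1 := mem_degreeLT.1 f.2
    have h2 := mem_degreeLT.1 g.2
    have h3 : (f.1 : K[X]).natDegree ≤ p - 1 := by
      by_cases h0 : (f.1 : K[X]) = 0
      · rw [h0, natDegree_zero]; omega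
      · have := (natDegree_lt_iff_degree_lt h0).2 h1
        omega
    have h4 : (g.1 : K[X]).natDegree ≤ a - 1 := by
      by_cases h0 : (g.1 : K[X]) = 0
      · rw [h0, natDegree_zero]; omega
      · have := (natDegree_lt_iff_degree_lt h0).2 h2
        omega
    have h5 : ((f.1 : K[X]) * g.1).natDegree ≤ _ := natDegree_mul_le
    omega

lemma iot_isH (a c : ℕ) (ha : 1 ≤ a) (hac : a + c = p + 1) :
    IsH (P K c) ((P K p).tens (P K a)) (iot p a c ha hac) := by
  intro t v
  apply betP_inj p a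
  have h1 := betP_equiv p a t.toAdd (iot p a c ha hac v)
  refine Eq.trans ?_ h1.symm
  refine (betP_iot p a c ha hac _).trans ?_
  rw [betP_iot, map_mul, map_pow, tau_X_sub, tau_mapC]
  rfl


/-- the composite `ρ₁ ∘ (1 ⊗ ι) = (1 ⊗ φ) ∘ σ₁` -/
def Xi (a c : ℕ) (ha : 1 ≤ a) (hc : 1 ≤ c) (hcp : c ≤ p) (hac : a + c = p + 1) :
    (P K p).V ⊗[K] (P K c).V →ₗ[K] (P K p).V ⊗[K] (P K c).V :=
  (phi p a c hc hcp).lTensor (P K p).V ∘ₗ
    (TensorProduct.leftComm K (P K p).V (P K p).V (P K a).V).toLinearMap ∘ₗ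
    (iot p a c ha hac).lTensor (P K p).V

/-- the coefficient of the second factor -/
def gam (c : ℕ) (j : ℕ) : (P K p).V ⊗[K] (P K c).V →ₗ[K] K[X] :=
  TensorProduct.lift (LinearMap.mk₂ K (fun f g => (g.1 : K[X]).coeff j • (f.1 : K[X]))
    (fun f f' g => by
      change _ • (f.1 + f'.1 : K[X]) = _
      rw [smul_add])
    (fun r f g => by
      change _ • (r • f.1 : K[X]) = _
      rw [smul_comm])
    (fun f g g' => by
      change (g.1 + g'.1 : K[X]).coeff j • _ = _
      rw [coeff_add, add_smul])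
    (fun r f g => by
      change (r • g.1 : K[X]).coeff j • _ = _
      rw [coeff_smul, smul_assoc]))

lemma gam_tmul (c j : ℕ) (f : (P K p).V) (g : (P K c).V) :
    gam p c j (f ⊗ₜ[K] g) = (g.1 : K[X]).coeff j • (f.1 : K[X]) := rfl

lemma gam_Xi (a c : ℕ) (ha : 1 ≤ a) (hc : 1 ≤ c) (hcp : c ≤ p) (hac : a + c = p + 1) (j : ℕ)
    (hj : j < c) (F : (P K p).V ⊗[K] (P K c).V) :
    gam p c j (Xi p a c ha hc hcp hac F) =
      C ((-1) ^ j * ((c - 1).choose j : K)) *
        ((C X - X) ^ (a - 1) * betP p c F).coeff (p - c + j) := by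
  induction F using TensorProduct.induction_on with
  | zero => simp only [map_zero, mul_zero, coeff_zero]
  | add x y hx hy => rw [map_add, map_add, hx, hy, map_add, mul_add, coeff_add, mul_add]
  | tmul f g =>
    have e1 : Xi p a c ha hc hcp hac (f ⊗ₜ[K] g) = ∑ i : Fin a, co K a i •
        (mulX p a c ha hac i g ⊗ₜ[K] phi p a c hc hcp (f ⊗ₜ[K] pm a (X ^ (i : ℕ)) (Xmem i.2))) := by
      rw [Xi, LinearMap.comp_apply, LinearMap.comp_apply, LinearMap.lTensor_tmul, iot_apply,
        TensorProduct.tmul_sum, map_sum, map_sum]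
      refine Finset.sum_congr rfl fun i _ => ?_
      rw [TensorProduct.tmul_smul, map_smul, map_smul]
      rfl
    rw [e1, map_sum]
    have e2 : ((C (X : K[X]) - X) ^ (a - 1) * betP p c (f ⊗ₜ[K] g)).coeff (p - c + j) =
        ∑ i : Fin a, X ^ (a - 1 - (i : ℕ)) * C (co K a i) * C (((f.1 : K[X]) *
          X ^ (i : ℕ)).coeff (p - c + j)) * (g.1 : K[X]) := by
      have e0 : (C (X : K[X]) - X) ^ (a - 1) = (-X + C (X : K[X])) ^ (a - 1) := by
        congr 1
        ring
      rw [e0, add_pow]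
      have ha' : a - 1 + 1 = a := by omega
      rw [ha', Finset.sum_mul, Finset.sum_range, finsetSum_coeff]
      refine Finset.sum_congr rfl fun i _ => ?_
      rw [betP_tmul]
      have e3 : (-X : K[X][X]) ^ (i : ℕ) * C (X : K[X]) ^ (a - 1 - (i : ℕ)) *
          ((a - 1).choose i : K[X][X]) * ((f.1 : K[X]).map C * C (g.1 : K[X])) =
          C (X ^ (a - 1 - (i : ℕ)) * C (co K a i)) * ((f.1 * X ^ (i : ℕ)).map C) * C (g.1 : K[X]) := by
        rw [Polynomial.map_mul, Polynomial.map_pow, map_X, C_mul, C_pow, co]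
        have e4 : (-X : K[X][X]) ^ (i : ℕ) = (-1) ^ (i : ℕ) * X ^ (i : ℕ) := by
          rw [← mul_pow]
          congr 1
          ring
        have e5 : C (C ((-1) ^ (i : ℕ) * (((a - 1).choose i : ℕ) : K))) =
            (-1) ^ (i : ℕ) * (((a - 1).choose i : ℕ) : K[X][X]) := by
          rw [map_mul, map_mul, map_pow, map_pow, map_neg, map_neg, map_one, map_one, map_natCast,
            map_natCast]
        rw [e4, e5]
        ring
      rw [e3, coeff_mul_C, coeff_C_mul, coeff_map]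
    rw [e2, Finset.mul_sum]
    refine Finset.sum_congr rfl fun i _ => ?_
    rw [map_smul, gam_tmul, phi_tmul, mulX_val, Lam_coeff p c hc hcp _ j hj]
    have e6 : (((pm a (X ^ (i : ℕ)) (Xmem i.2) : (P K a).V)).1 : K[X]) = X ^ (i : ℕ) := rfl
    rw [e6, Polynomial.smul_eq_C_mul, Polynomial.smul_eq_C_mul, C_mul]
    ring

lemma Xi_inj (a c : ℕ) (ha : 1 ≤ a) (hc : 1 ≤ c) (hcp : c ≤ p) (hac : a + c = p + 1) :
    Function.Injective (Xi (K := K) p a c ha hc hcp hac) := by
  have hp : p.Prime := Fact.out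
  rw [← LinearMap.ker_eq_bot, LinearMap.ker_eq_bot']
  intro F hF
  apply betP_inj p c
  rw [map_zero]
  obtain ⟨g, rfl⟩ := exists_rep p F
  have hrep := betP_rep p c g
  have hd : (betP p c (∑ i : Fin p, (pm p (X ^ (i : ℕ)) (Xmem i.2)) ⊗ₜ[K] g i)).degree < p := by
    rw [hrep]
    refine (degree_sum_le _ _).trans_lt ?_
    rw [Finset.sup_lt_iff (WithBot.bot_lt_coe _)]
    intro i _
    refine (degree_mul_le _ _).trans_lt ?_
    rw [degree_X_pow]
    refine (add_le_add le_rfl degree_C_le).trans_lt ?_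
    rw [add_zero]
    exact_mod_cast i.2
  apply key_zero c
  · rw [hrep, map_sum]
    refine (degree_sum_le _ _).trans_lt ?_
    rw [Finset.sup_lt_iff (WithBot.bot_lt_coe _)]
    intro i _
    rw [map_mul, map_pow, Bivariate.swap_Y, Bivariate.swap_C, ← C_pow]
    refine (degree_mul_le _ _).trans_lt ?_
    refine (add_le_add degree_C_le (degree_map_le)).trans_lt ?_
    rw [zero_add]
    exact mem_degreeLT.1 (g i).2
  · apply key_dvd p a c ha hc hac _ hd
    intro l hl hlp
    obtain ⟨j, rfl⟩ : ∃ j, l = p - c + j := ⟨l - (p - c), by omega⟩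
    have hj : j < c := by omega
    have h1 := gam_Xi p a c ha hc hcp hac j hj
      (∑ i : Fin p, (pm p (X ^ (i : ℕ)) (Xmem i.2)) ⊗ₜ[K] g i)
    rw [hF, map_zero] at h1
    have h2 : ((-1) ^ j * ((c - 1).choose j : K)) ≠ 0 := by
      refine mul_ne_zero (pow_ne_zero _ (neg_ne_zero.2 one_ne_zero)) ?_
      rw [Ne, CharP.cast_eq_zero_iff K p]
      intro hdvd
      have h3 : p ∣ (c - 1).factorial := by
        rw [← Nat.choose_mul_factorial_mul_factorial (show j ≤ c - 1 by omega)]
        exact (hdvd.mul_right _).mul_right _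
      rw [hp.dvd_factorial] at h3
      omega
    rcases mul_eq_zero.1 h1.symm with h4 | h4
    · exact absurd ((C_eq_zero).1 h4) h2
    · exact h4

end CIaux
end Pool.Agent.GamI

namespace Pool.Agent.GamI

theorem digit (p : ℕ) [Fact p.Prime] (K : Type) [Field K] [CharP K p] (a c : ℕ) (ha : 1 ≤ a)
    (hc : 1 ≤ c) (hac : a + c = p + 1) :
    ∃ (ι : (P K c).V →ₗ[K] ((P K p).tens (P K a)).V)
      (φ : ((P K p).tens (P K a)).V →ₗ[K] (P K c).V)
      (ρ : ((P K p).tens ((P K p).tens (P K a))).V →ₗ[K] ((P K p).tens (P K c)).V)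
      (σ : ((P K p).tens (P K c)).V →ₗ[K] ((P K p).tens ((P K p).tens (P K a))).V),
      IsH (P K c) ((P K p).tens (P K a)) ι ∧ IsH ((P K p).tens (P K a)) (P K c) φ ∧
      IsH ((P K p).tens ((P K p).tens (P K a))) ((P K p).tens (P K c)) ρ ∧
      IsH ((P K p).tens (P K c)) ((P K p).tens ((P K p).tens (P K a))) σ ∧
      ρ ∘ₗ ι.lTensor (P K p).V = LinearMap.id ∧ φ.lTensor (P K p).V ∘ₗ σ = LinearMap.id := by
  have hcp : c ≤ p := by omega
  let ι : (P K c).V →ₗ[K] (P K p).V ⊗[K] (P K a).V := CIaux.iot p a c ha hac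
  let φ : (P K p).V ⊗[K] (P K a).V →ₗ[K] (P K c).V := CIaux.phi p a c hc hcp
  let L := TensorProduct.leftComm K (P K p).V (P K p).V (P K a).V
  have hι : IsH (P K c) ((P K p).tens (P K a)) ι := CIaux.iot_isH p a c ha hac
  have hφ : IsH ((P K p).tens (P K a)) (P K c) φ := CIaux.phi_isH p a c hc ha hcp hac
  have hL : IsH ((P K p).tens ((P K p).tens (P K a))) ((P K p).tens ((P K p).tens (P K a)))
      L.toLinearMap := by
    intro g v
    change L (TensorProduct.map ((P K p).ρ g) (TensorProduct.map ((P K p).ρ g) ((P K a).ρ g)) v) =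
      TensorProduct.map ((P K p).ρ g) (TensorProduct.map ((P K p).ρ g) ((P K a).ρ g)) (L v)
    have : L.toLinearMap ∘ₗ
        (TensorProduct.map ((P K p).ρ g) (TensorProduct.map ((P K p).ρ g) ((P K a).ρ g))) =
        (TensorProduct.map ((P K p).ρ g) (TensorProduct.map ((P K p).ρ g) ((P K a).ρ g))) ∘ₗ
          L.toLinearMap := by
      ext x y z
      rfl
    exact LinearMap.congr_fun this v
  have hφ' : IsH ((P K p).tens ((P K p).tens (P K a))) ((P K p).tens (P K c))
      (φ.lTensor (P K p).V) := IsH.lT hφ (P K p)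
  have hι' : IsH ((P K p).tens (P K c)) ((P K p).tens ((P K p).tens (P K a)))
      (ι.lTensor (P K p).V) := IsH.lT hι (P K p)
  let Ξ := CIaux.Xi (K := K) p a c ha hc hcp hac
  have hΞdef : Ξ = φ.lTensor (P K p).V ∘ₗ L.toLinearMap ∘ₗ ι.lTensor (P K p).V := rfl
  have hΞ : IsH ((P K p).tens (P K c)) ((P K p).tens (P K c)) Ξ := by
    rw [hΞdef]
    exact IsH.comp hφ' (IsH.comp hL hι')
  let e : ((P K p).V ⊗[K] (P K c).V) ≃ₗ[K] ((P K p).V ⊗[K] (P K c).V) :=
    LinearEquiv.ofInjectiveEndo Ξ (CIaux.Xi_inj p a c ha hc hcp hac)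
  have he : e.toLinearMap = Ξ := by
    ext x
    rfl
  have hes : IsH ((P K p).tens (P K c)) ((P K p).tens (P K c)) e.symm.toLinearMap := by
    apply IsH.symm (A := (P K p).tens (P K c)) (B := (P K p).tens (P K c)) (e := e)
    rw [he]
    exact hΞ
  refine ⟨ι, φ, e.symm.toLinearMap ∘ₗ φ.lTensor (P K p).V ∘ₗ L.toLinearMap,
    (L.toLinearMap ∘ₗ ι.lTensor (P K p).V) ∘ₗ e.symm.toLinearMap, hι, hφ,
    IsH.comp hes (IsH.comp hφ' hL), IsH.comp (IsH.comp hL hι') hes, ?_, ?_⟩
  · have : (e.symm.toLinearMap ∘ₗ φ.lTensor (P K p).V ∘ₗ L.toLinearMap) ∘ₗ ι.lTensor (P K p).V =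
        e.symm.toLinearMap ∘ₗ Ξ := rfl
    refine this.trans ?_
    rw [← he]
    ext x
    simp
  · have : φ.lTensor (P K p).V ∘ₗ (L.toLinearMap ∘ₗ ι.lTensor (P K p).V) ∘ₗ e.symm.toLinearMap =
        Ξ ∘ₗ e.symm.toLinearMap := rfl
    refine this.trans ?_
    rw [← he]
    exact LinearMap.ext fun x => e.apply_symm_apply x

end Pool.Agent.GamI
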