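import Pool.Agent.GamI.CB
import Pool.Agent.GamI.CP
import Pool.Agent.GamI.CR

/-! # CK: killing by classes in `H¹(E,K)` -/

set_option autoImplicit false
set_option linter.unusedSectionVars false

open scoped TensorProduct
open Module

noncomputable section

namespace Pool.Agent.GamI

variable {K : Type} [Field K] {E : Type} [Group E] [Finite E]
variable {U W W' L L' : Mo K E}

namespace CKAux

open Polynomial

/-- the constant polynomial one -/
def one (K : Type) [Field K] : (P K 2).V :=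
  ⟨1, by
    rw [mem_degreeLT]
    exact lt_of_le_of_lt degree_one_le (by norm_num)⟩

/-- the variable -/
def var (K : Type) [Field K] : (P K 2).V :=
  ⟨X, by
    rw [mem_degreeLT]
    exact lt_of_le_of_lt degree_X_le (by norm_num)⟩

/-- the coefficients -/
def cf (K : Type) [Field K] (n : ℕ) : (P K 2).V →ₗ[K] K where
  toFun f := f.1.coeff n
  map_add' f g := by
    change (f.1 + g.1).coeff n = _
    simp
  map_smul' c f := by
    change (c • f.1).coeff n = _
    simp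

lemma decomp (K : Type) [Field K] (f : (P K 2).V) :
    f = cf K 0 f • one K + cf K 1 f • var K := by
  apply Subtype.ext
  change f.1 = f.1.coeff 0 • (1 : K[X]) + f.1.coeff 1 • (X : K[X])
  have hf : f.1.degree < 2 := mem_degreeLT.1 f.2
  ext n
  rcases n with _ | _ | n
  · simp
  · simp [coeff_one]
  · have : f.1.coeff (n + 2) = 0 := by
      apply coeff_eq_zero_of_degree_lt
      refine lt_of_lt_of_le hf ?_
      exact_mod_cast Nat.le_add_left 2 n
    simp [this, coeff_one, coeff_X]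

lemma cf_one0 (K : Type) [Field K] : cf K 0 (one K) = 1 := by
  change (1 : K[X]).coeff 0 = 1
  simp

lemma cf_one1 (K : Type) [Field K] : cf K 1 (one K) = 0 := by
  change (1 : K[X]).coeff 1 = 0
  simp [coeff_one]

lemma cf_var0 (K : Type) [Field K] : cf K 0 (var K) = 0 := by
  change (X : K[X]).coeff 0 = 0
  simp

lemma cf_var1 (K : Type) [Field K] : cf K 1 (var K) = 1 := by
  change (X : K[X]).coeff 1 = 1
  simp

lemma act_one (μ : E →* Multiplicative K) (e : E) : (Pm 2 μ).ρ e (one K) = one K := by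
  apply Subtype.ext
  change taylor (μ e).toAdd (1 : K[X]) = 1
  simp

lemma act_var (μ : E →* Multiplicative K) (e : E) :
    (Pm 2 μ).ρ e (var K) = var K + (μ e).toAdd • one K := by
  apply Subtype.ext
  change taylor (μ e).toAdd (X : K[X]) = X + (μ e).toAdd • (1 : K[X])
  simp [smul_eq_C_mul]

/-- the coefficient maps on the tensor product -/
def vv (μ : E →* Multiplicative K) (L : Mo K E) (n : ℕ) : ((Pm 2 μ).tens L).V →ₗ[K] L.V :=
  (TensorProduct.lid K L.V).toLinearMap ∘ₗ (cf K n).rTensor L.V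

lemma vv_tmul (μ : E →* Multiplicative K) (L : Mo K E) (n : ℕ) (f : (P K 2).V) (l : L.V) :
    vv μ L n (f ⊗ₜ[K] l : (P K 2).V ⊗[K] L.V) = cf K n f • l := by
  change (TensorProduct.lid K L.V) ((cf K n).rTensor L.V (f ⊗ₜ[K] l)) = _
  simp

/-- the inclusions -/
def ii (μ : E →* Multiplicative K) (L : Mo K E) (f : (P K 2).V) :
    L.V →ₗ[K] ((Pm 2 μ).tens L).V :=
  TensorProduct.mk K (P K 2).V L.V f

lemma ii_apply (μ : E →* Multiplicative K) (L : Mo K E) (f : (P K 2).V) (l : L.V) :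
    ii μ L f l = (f ⊗ₜ[K] l : (P K 2).V ⊗[K] L.V) := rfl

lemma tdecomp (μ : E →* Multiplicative K) (L : Mo K E) (z : ((Pm 2 μ).tens L).V) :
    z = ii μ L (one K) (vv μ L 0 z) + ii μ L (var K) (vv μ L 1 z) := by
  have h : (LinearMap.id : ((Pm 2 μ).tens L).V →ₗ[K] ((Pm 2 μ).tens L).V) =
      ii μ L (one K) ∘ₗ vv μ L 0 + ii μ L (var K) ∘ₗ vv μ L 1 := by
    refine TensorProduct.ext' fun f l => ?_
    have e0 := vv_tmul μ L 0 f l
    have e1 := vv_tmul μ L 1 f l
    have e2 : (f ⊗ₜ[K] l : (P K 2).V ⊗[K] L.V) =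
        (one K ⊗ₜ[K] (cf K 0 f • l) : (P K 2).V ⊗[K] L.V) + var K ⊗ₜ[K] (cf K 1 f • l) := by
      conv_lhs => rw [decomp K f]
      rw [TensorProduct.add_tmul, TensorProduct.smul_tmul, TensorProduct.smul_tmul]
    have e3 : ii μ L (one K) (vv μ L 0 (f ⊗ₜ[K] l : (P K 2).V ⊗[K] L.V)) +
        ii μ L (var K) (vv μ L 1 (f ⊗ₜ[K] l : (P K 2).V ⊗[K] L.V)) =
        (one K ⊗ₜ[K] (cf K 0 f • l) : (P K 2).V ⊗[K] L.V) + var K ⊗ₜ[K] (cf K 1 f • l) := by
      rw [e0, e1, ii_apply, ii_apply]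
      rfl
    exact e2.trans e3.symm
  exact LinearMap.congr_fun h z

lemma vv0 (μ : E →* Multiplicative K) (L : Mo K E) (a b : L.V) :
    vv μ L 0 (ii μ L (one K) a + ii μ L (var K) b) = a := by
  rw [map_add, ii_apply, ii_apply, vv_tmul, vv_tmul, cf_one0, cf_var0]
  simp

lemma vv1 (μ : E →* Multiplicative K) (L : Mo K E) (a b : L.V) :
    vv μ L 1 (ii μ L (one K) a + ii μ L (var K) b) = b := by
  rw [map_add, ii_apply, ii_apply, vv_tmul, vv_tmul, cf_one1, cf_var1]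
  simp

lemma act (μ : E →* Multiplicative K) (L : Mo K E) (a b : L.V) (e : E) :
    ((Pm 2 μ).tens L).ρ e (ii μ L (one K) a + ii μ L (var K) b) =
      ii μ L (one K) (L.ρ e a + (μ e).toAdd • L.ρ e b) + ii μ L (var K) (L.ρ e b) := by
  rw [map_add]
  have h : ∀ (f : (P K 2).V) (l : L.V), ((Pm 2 μ).tens L).ρ e (ii μ L f l) =
      ii μ L ((Pm 2 μ).ρ e f) (L.ρ e l) := by
    intro f l
    exact TensorProduct.map_tmul ((Pm 2 μ).ρ e) (L.ρ e) f l
  rw [h, h, act_one, act_var]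
  simp only [ii_apply]
  rw [TensorProduct.add_tmul, TensorProduct.tmul_add, TensorProduct.smul_tmul]
  abel

end CKAux

open CKAux in
/-- `0 → L → P_2(μ) ⊗ L → L → 0`, and `Kill` is liftability along it -/
theorem vses (U : Mo K E) (μ : E →* Multiplicative K) (L : Mo K E) :
    ∃ (i : L.V →ₗ[K] ((Pm 2 μ).tens L).V) (v : ((Pm 2 μ).tens L).V →ₗ[K] L.V),
      IsSES L ((Pm 2 μ).tens L) L i v ∧
      (Kill U μ L ↔ ∀ ζ : U.V →ₗ[K] L.V, IsH U L ζ →
        ∃ ξ : U.V →ₗ[K] ((Pm 2 μ).tens L).V, IsH U ((Pm 2 μ).tens L) ξ ∧ v ∘ₗ ξ = ζ) := by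
  refine ⟨ii μ L (one K), vv μ L 1, ⟨?_, ?_, ?_, ?_, ?_⟩, ?_, ?_⟩
  · intro e l
    have := act μ L l 0 e
    simp only [map_zero, add_zero, smul_zero] at this
    exact this.symm
  · intro e z
    rw [tdecomp μ L z, act, vv1, vv1]
  · intro a b hab
    have h0 := vv0 μ L a 0
    have h1 := vv0 μ L b 0
    rw [map_zero, add_zero] at h0 h1
    rw [← h0, ← h1, hab]
  · intro b
    refine ⟨ii μ L (var K) b, ?_⟩
    have h0 := vv1 μ L 0 b
    rwa [map_zero, zero_add] at h0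
  · ext z
    constructor
    · rintro ⟨a, rfl⟩
      have h0 := vv1 μ L a 0
      rw [map_zero, add_zero] at h0
      exact h0
    · intro hz
      have hz' : vv μ L 1 z = 0 := hz
      refine ⟨vv μ L 0 z, ?_⟩
      conv_rhs => rw [tdecomp μ L z, hz', map_zero, add_zero]
  · intro hK ζ hζ
    obtain ⟨θ, hθ⟩ := hK ζ hζ
    refine ⟨ii μ L (one K) ∘ₗ θ + ii μ L (var K) ∘ₗ ζ, ?_, ?_⟩
    · intro e u
      simp only [LinearMap.add_apply, LinearMap.comp_apply]
      rw [act, hθ, hζ e u]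
    · refine LinearMap.ext fun u => ?_
      simp only [LinearMap.add_apply, LinearMap.comp_apply]
      rw [vv1]
  · intro h ζ hζ
    obtain ⟨ξ, hξ, hv⟩ := h ζ hζ
    refine ⟨vv μ L 0 ∘ₗ ξ, fun e u => ?_⟩
    have h1 : ∀ u, vv μ L 1 (ξ u) = ζ u := fun u => LinearMap.congr_fun hv u
    simp only [LinearMap.comp_apply]
    rw [hξ e u]
    conv_lhs => rw [tdecomp μ L (ξ u), act, vv0]
    rw [h1]

theorem kill_iff (U : Mo K E) (μ : E →* Multiplicative K) (L : Mo K E) :
    Kill U μ L ↔ kk U ((Pm 2 μ).tens L) = 2 * kk U L := by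
  obtain ⟨i, v, h, hk⟩ := vses U μ L
  rw [hk, ← kk_eq_iff h U, two_mul]

theorem kill_of_nn (U : Mo K E) (μ : E →* Multiplicative K) (L : Mo K E)
    (h : 2 * nn U L ≤ nn U ((Pm 2 μ).tens L)) : Kill U μ L := by
  obtain ⟨i, v, hs, hk⟩ := vses U μ L
  rw [hk]
  exact lift_of_nn_ge hs U (by omega)

theorem kill_iso (μ : E →* Multiplicative K) (h : Iso L L') (hK : Kill U μ L) : Kill U μ L' := by
  obtain ⟨e, he⟩ := h
  intro ζ hζ
  obtain ⟨θ, hθ⟩ := hK (e.symm.toLinearMap ∘ₗ ζ) ((IsH.symm he).comp hζ)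
  refine ⟨e.toLinearMap ∘ₗ θ, fun g u => ?_⟩
  have h1 : ∀ x, e (L.ρ g x) = L'.ρ g (e x) := fun x => he g x
  simp only [LinearMap.comp_apply, LinearEquiv.coe_coe]
  rw [hθ g u, map_add, map_smul, h1, h1]
  simp

/-- linear combinations -/
theorem kill_lin (U L : Mo K E) {ι : Type} [Fintype ι] (μ : ι → (E →* Multiplicative K))
    (a : ι → K) (y : E →* Multiplicative K) (hy : ∀ e, (y e).toAdd = ∑ i, a i * (μ i e).toAdd)
    (hK : ∀ i, Kill U (μ i) L) : Kill U y L := by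
  intro ζ hζ
  choose θ hθ using fun i => hK i ζ hζ
  refine ⟨∑ i, a i • θ i, fun e u => ?_⟩
  simp only [LinearMap.sum_apply, LinearMap.smul_apply]
  simp only [hθ, smul_add, Finset.sum_add_distrib, map_sum, map_smul]
  rw [hy e, Finset.sum_smul]
  simp only [smul_smul]

/-- (uses `nn_double`) the doubling lemma for a short exact sequence with invisible middle term -/
theorem nn_double_V (U : Mo K E) (μ : E →* Multiplicative K) {L F L' : Mo K E}
    {f : L.V →ₗ[K] F.V} {g : F.V →ₗ[K] L'.V} (h : IsSES L F L' f g) (hF : nn U F = 0)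
    (hF2 : nn U ((Pm 2 μ).tens F) = 0) (hL : Kill U μ L) (hL' : Kill U μ L') :
    nn U ((Pm 2 μ).tens L') = 2 * nn U L' := by
  obtain ⟨i1, v1, h1, -⟩ := vses U μ L
  obtain ⟨i2, v2, h2, -⟩ := vses U μ F
  obtain ⟨i3, v3, h3, -⟩ := vses U μ L'
  exact nn_double h (h.lT (Pm 2 μ)) h1 h2 h3 hF hF2 ((kill_iff U μ L).1 hL)
    ((kill_iff U μ L').1 hL')

end Pool.Agent.GamI
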