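import Pool.Agent.GamI.Defs3
import Pool.Agent.GamI.TE
import Pool.Agent.GamI.TR

/-! # CL: the operator `Θ` -/

set_option autoImplicit false

open scoped TensorProduct
open Module Polynomial

noncomputable section

namespace Pool.Agent.GamI

variable {K : Type} [Field K] {E : Type} [Group E]

namespace CLAux

theorem cj_apply {A B : Mo K E} (g : E) (θ : A.V →ₗ[K] B.V) (v : A.V) :
    cj A B g θ v = B.ρ g (θ (A.ρ g⁻¹ v)) := rfl

theorem ρ_inv (A : Mo K E) (g : E) (v : A.V) : A.ρ g (A.ρ g⁻¹ v) = v := by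
  rw [← Module.End.mul_apply, ← map_mul, mul_inv_cancel, map_one, Module.End.one_apply]

theorem ρ_inv' (A : Mo K E) (g : E) (v : A.V) : A.ρ g⁻¹ (A.ρ g v) = v := by
  rw [← Module.End.mul_apply, ← map_mul, inv_mul_cancel, map_one, Module.End.one_apply]

theorem cj_mul {A B : Mo K E} (g h : E) (θ : A.V →ₗ[K] B.V) :
    cj A B (g * h) θ = cj A B g (cj A B h θ) := by
  ext v
  simp only [cj_apply, mul_inv_rev, map_mul, Module.End.mul_apply]

theorem cj_one {A B : Mo K E} (θ : A.V →ₗ[K] B.V) : cj A B 1 θ = θ := by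
  ext v
  simp only [cj_apply, inv_one, map_one, Module.End.one_apply]

theorem cj_add {A B : Mo K E} (g : E) (θ θ' : A.V →ₗ[K] B.V) :
    cj A B g (θ + θ') = cj A B g θ + cj A B g θ' := by
  ext v
  simp [cj_apply]

theorem cj_sub {A B : Mo K E} (g : E) (θ θ' : A.V →ₗ[K] B.V) :
    cj A B g (θ - θ') = cj A B g θ - cj A B g θ' := by
  ext v
  simp [cj_apply]

theorem cj_smul {A B : Mo K E} (g : E) (c : K) (θ : A.V →ₗ[K] B.V) :
    cj A B g (c • θ) = c • cj A B g θ := by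
  ext v
  simp [cj_apply]

theorem cj_comp_l {A B C : Mo K E} (g : E) (θ : A.V →ₗ[K] B.V) (f : B.V →ₗ[K] C.V)
    (hf : IsH B C f) : cj A C g (f ∘ₗ θ) = f ∘ₗ cj A B g θ := by
  ext v
  simp only [cj_apply, LinearMap.comp_apply]
  rw [hf]

theorem cj_comp_r {A B C : Mo K E} (g : E) (θ : B.V →ₗ[K] C.V) (f : A.V →ₗ[K] B.V)
    (hf : IsH A B f) : cj A C g (θ ∘ₗ f) = cj B C g θ ∘ₗ f := by
  ext v
  simp only [cj_apply, LinearMap.comp_apply]
  rw [hf]

theorem cjH {A B : Mo K E} (g : E) {f : A.V →ₗ[K] B.V} (hf : IsH A B f) :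
    cj A B g f = f := by
  ext v
  rw [cj_apply, hf, ρ_inv]

theorem isHOn_of_cj {A B : Mo K E} {E' : Subgroup E} {f : A.V →ₗ[K] B.V}
    (h : ∀ e ∈ E', cj A B e f = f) : IsHOn E' A B f := by
  intro e he v
  have h1 := LinearMap.congr_fun (h e he) (A.ρ e v)
  rw [cj_apply, ρ_inv'] at h1
  exact h1.symm

theorem cj_of_isHOn {A B : Mo K E} {E' : Subgroup E} {f : A.V →ₗ[K] B.V}
    (h : IsHOn E' A B f) {e : E} (he : e ∈ E') : cj A B e f = f := by
  ext v
  rw [cj_apply, ← h e he, ρ_inv]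

theorem coeff_taylor_top (q : ℕ) (hq : 0 < q) (r : K) (f : K[X]) (hf : f ∈ degreeLT K q) :
    (taylor r f).coeff (q - 1) = f.coeff (q - 1) := by
  rw [mem_degreeLT] at hf
  have h1 : f.natDegree ≤ q - 1 := by
    by_cases h0 : f = 0
    · simp [h0]
    · have := (natDegree_lt_iff_degree_lt h0).2 hf
      omega
  rcases Nat.lt_or_ge f.natDegree (q - 1) with h2 | h2
  · rw [coeff_eq_zero_of_natDegree_lt h2, coeff_eq_zero_of_natDegree_lt]
    rwa [natDegree_taylor]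
  · have h3 : f.natDegree = q - 1 := le_antisymm h1 h2
    have h4 : (taylor r f).natDegree = q - 1 := by rw [natDegree_taylor, h3]
    rw [← h3] 
    have h5 : (taylor r f).leadingCoeff = f.leadingCoeff := leadingCoeff_taylor ..
    rw [leadingCoeff, leadingCoeff, natDegree_taylor] at h5
    exact h5

end CLAux

open CLAux

/-- multiplication by `T` modulo an additive polynomial -/
theorem TL_P (q : ℕ) (hq : 0 < q) (π : K[X]) (hπ : π.Monic) (hd : π.natDegree = q)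
    (hadd : ∀ t : K, taylor t π = π + C (π.eval t)) (lam y : E →* Multiplicative K)
    (hy : ∀ e, (y e).toAdd = π.eval (lam e).toAdd) :
    ∃ Θ : (Pm q lam).V →ₗ[K] (Pm q lam).V, TL (Pm q lam) lam y Θ (ellq K q hq) := by
  have hmem : ∀ f : degreeLT K q, X * f.1 - C (f.1.coeff (q - 1)) * π ∈ degreeLT K q := by
    intro f
    rw [mem_degreeLT, degree_lt_iff_coeff_zero]
    intro m hm
    have hfm : ∀ n, q ≤ n → f.1.coeff n = 0 := by
      have := mem_degreeLT.1 f.2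
      rw [degree_lt_iff_coeff_zero] at this
      exact this
    obtain ⟨m, rfl⟩ : ∃ m', m = m' + 1 := ⟨m - 1, by omega⟩
    rw [coeff_sub, coeff_X_mul, coeff_C_mul]
    rcases Nat.eq_or_lt_of_le hm with h1 | h1
    · have h2 : m = q - 1 := by omega
      have h3 : π.coeff (m + 1) = 1 := by
        rw [← h1, ← hd]
        exact hπ
      rw [h3, h2]
      ring
    · have h3 : π.coeff (m + 1) = 0 := coeff_eq_zero_of_natDegree_lt (by rw [hd]; exact h1)
      rw [hfm m (by omega), h3]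
      ring
  let Θ : (P K q).V →ₗ[K] (P K q).V :=
    { toFun := fun f => ⟨X * f.1 - C (f.1.coeff (q - 1)) * π, hmem f⟩
      map_add' := fun f g => by
        apply Subtype.ext
        change X * (f.1 + g.1) - C ((f.1 + g.1).coeff (q - 1)) * π =
          (X * f.1 - C (f.1.coeff (q - 1)) * π) + (X * g.1 - C (g.1.coeff (q - 1)) * π)
        rw [coeff_add, C_add]
        ring
      map_smul' := fun c f => by
        apply Subtype.ext
        change X * (c • f.1) - C ((c • f.1).coeff (q - 1)) * π =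
          c • (X * f.1 - C (f.1.coeff (q - 1)) * π)
        rw [coeff_smul, smul_eq_C_mul, smul_eq_C_mul, smul_eq_mul, C_mul]
        ring }
  have hΘ : ∀ f : (P K q).V, (Θ f).1 = X * f.1 - C (f.1.coeff (q - 1)) * π := fun _ => rfl
  have hell : ∀ f : (P K q).V, (ellq K q hq f).1 = C (f.1.coeff (q - 1)) := fun _ => rfl
  have hρ : ∀ (e : E) (f : (Pm q lam).V), ((Pm q lam).ρ e f).1 = taylor (lam e).toAdd f.1 :=
    fun _ _ => rfl
  refine ⟨Θ, ?_, ?_⟩
  · intro e f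
    apply Subtype.ext
    rw [hρ]
    change C (((Pm q lam).ρ e f).1.coeff (q - 1)) = taylor (lam e).toAdd (C (f.1.coeff (q - 1)))
    rw [hρ, coeff_taylor_top q hq _ _ f.2, taylor_C]
  · intro e
    refine LinearMap.ext fun f => Subtype.ext ?_
    change taylor (lam e).toAdd (X * ((Pm q lam).ρ e⁻¹ f).1 -
      C (((Pm q lam).ρ e⁻¹ f).1.coeff (q - 1)) * π) =
      (X * f.1 - C (f.1.coeff (q - 1)) * π) + (lam e).toAdd • f.1 -
        (y e).toAdd • C (f.1.coeff (q - 1))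
    have h1 : taylor (lam e).toAdd ((Pm q lam).ρ e⁻¹ f).1 = f.1 := by
      rw [← hρ, ρ_inv]
    have h2 : ((Pm q lam).ρ e⁻¹ f).1.coeff (q - 1) = f.1.coeff (q - 1) := by
      rw [hρ, coeff_taylor_top q hq _ _ f.2]
    rw [map_sub, taylor_mul, taylor_mul, h1, h2, taylor_C, taylor_X, hadd, ← hy, smul_eq_C_mul,
      smul_eq_C_mul]
    ring

theorem TL_tens {lam y : E →* Multiplicative K} (X W : Mo K E) (Θ ℓ : X.V →ₗ[K] X.V)
    (h : TL X lam y Θ ℓ) : TL (X.tens W) lam y (Θ.rTensor W.V) (ℓ.rTensor W.V) := by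
  refine ⟨h.1.rT W, fun e => ?_⟩
  have h1 : cj (X.tens W) (X.tens W) e (Θ.rTensor W.V) = (cj X X e Θ).rTensor W.V := by
    apply TensorProduct.ext'
    intro x w
    change (X.ρ e (Θ (X.ρ e⁻¹ x))) ⊗ₜ[K] (W.ρ e (W.ρ e⁻¹ w)) =
      (X.ρ e (Θ (X.ρ e⁻¹ x))) ⊗ₜ[K] w
    rw [ρ_inv]
  rw [h1, h.2 e, LinearMap.rTensor_sub, LinearMap.rTensor_add, LinearMap.rTensor_smul,
    LinearMap.rTensor_smul, LinearMap.rTensor_id]
  rfl

theorem TL_retr {lam y : E →* Multiplicative K} {U V : Mo K E} (i : U.V →ₗ[K] V.V)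
    (r : V.V →ₗ[K] U.V) (hi : IsH U V i) (hr : IsH V U r) (hri : r ∘ₗ i = LinearMap.id)
    (Θ ℓ : V.V →ₗ[K] V.V) (h : TL V lam y Θ ℓ) : TL U lam y (r ∘ₗ Θ ∘ₗ i) (r ∘ₗ ℓ ∘ₗ i) := by
  refine ⟨hr.comp (h.1.comp hi), fun e => ?_⟩
  rw [cj_comp_l e _ r hr, cj_comp_r e _ i hi, h.2 e]
  ext v
  have h1 : r (i v) = v := LinearMap.congr_fun hri v
  simp only [LinearMap.comp_apply, LinearMap.add_apply, LinearMap.sub_apply, LinearMap.smul_apply,
    LinearMap.id_apply, map_add, map_sub, map_smul, h1]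

/-- naturality modulo `(g-1)Hom_{E'}` -/
theorem TL_nat {lam y : E →* Multiplicative K} (E' : Subgroup E) (g : E)
    (hy : ∀ e, y e = 1 ↔ e ∈ E') (hg : g ∉ E') {A U : Mo K E} {ΘA ℓA : A.V →ₗ[K] A.V}
    {ΘU ℓU : U.V →ₗ[K] U.V} (hA : TL A lam y ΘA ℓA) (hU : TL U lam y ΘU ℓU)
    (β : A.V →ₗ[K] U.V) (hβ : IsH A U β) : ℓU ∘ₗ β - β ∘ₗ ℓA ∈ Bd E' g A U := by
  set D : A.V →ₗ[K] U.V := ΘU ∘ₗ β - β ∘ₗ ΘA with hD
  have hcj : ∀ e, cj A U e D = D - (y e).toAdd • (ℓU ∘ₗ β - β ∘ₗ ℓA) := by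
    intro e
    rw [hD, cj_sub, cj_comp_r e _ β hβ, cj_comp_l e _ β hβ, hA.2 e, hU.2 e]
    ext v
    simp only [LinearMap.comp_apply, LinearMap.add_apply, LinearMap.sub_apply,
      LinearMap.smul_apply, LinearMap.id_apply, map_add, map_sub, map_smul, smul_sub]
    abel
  have hyg : (y g).toAdd ≠ 0 := by
    intro h
    exact hg ((hy g).1 (Multiplicative.toAdd.injective h))
  refine ⟨(-((y g).toAdd)⁻¹) • D, ?_, ?_⟩
  · apply isHOn_of_cj
    intro e he
    have h1 : (y e).toAdd = 0 := by rw [(hy e).2 he]; rfl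
    rw [cj_smul, hcj, h1, zero_smul, sub_zero]
  · rw [cj_smul, hcj, ← smul_sub, sub_sub_cancel_left, smul_neg, neg_smul, neg_neg, smul_smul,
      inv_mul_cancel₀ hyg, one_smul]

/-- if all `ζ ℓ` are in `(g-1)Hom_{E'}` then `λ` kills -/
theorem kill_of_bd {lam y : E →* Multiplicative K} (E' : Subgroup E) (g : E)
    (hy : ∀ e, y e = 1 ↔ e ∈ E') (hg : g ∉ E') (hgen : ∀ e : E, ∃ n : ℕ, ∃ e' ∈ E', e = g ^ n * e')
    {U : Mo K E} {Θ ℓ : U.V →ₗ[K] U.V} (hU : TL U lam y Θ ℓ) (L : Mo K E)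
    (h : ∀ ζ : U.V →ₗ[K] L.V, IsH U L ζ → ζ ∘ₗ ℓ ∈ Bd E' g U L) : Kill U lam L := by
  intro ζ hζ
  obtain ⟨ξ, hξ, hξ2⟩ := h ζ hζ
  set D : U.V →ₗ[K] L.V := ζ ∘ₗ Θ + (y g).toAdd • ξ with hD
  have hcomp : ∀ e, cj U L e (ζ ∘ₗ Θ) = ζ ∘ₗ Θ + (lam e).toAdd • ζ - (y e).toAdd • (ζ ∘ₗ ℓ) := by
    intro e
    rw [cj_comp_l e _ ζ hζ, hU.2 e]
    ext v
    simp only [LinearMap.comp_apply, LinearMap.add_apply, LinearMap.sub_apply,
      LinearMap.smul_apply, LinearMap.id_apply, map_add, map_sub, map_smul]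
  have hE' : ∀ e ∈ E', cj U L e D = D + (lam e).toAdd • ζ := by
    intro e he
    have h1 : (y e).toAdd = 0 := by rw [(hy e).2 he]; rfl
    rw [hD, cj_add, cj_smul, hcomp, cj_of_isHOn hξ he, h1, zero_smul, sub_zero]
    abel
  have hgD : cj U L g D = D + (lam g).toAdd • ζ := by
    have h1 : cj U L g ξ = ξ + ζ ∘ₗ ℓ := by rw [hξ2]; abel
    rw [hD, cj_add, cj_smul, hcomp, h1, smul_add]
    abel
  have hmul : ∀ e e', cj U L e D = D + (lam e).toAdd • ζ → cj U L e' D = D + (lam e').toAdd • ζ →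
      cj U L (e * e') D = D + (lam (e * e')).toAdd • ζ := by
    intro e e' h1 h2
    rw [cj_mul, h2, cj_add, cj_smul, cjH e hζ, h1, map_mul, toAdd_mul, add_smul]
    abel
  have hpow : ∀ n : ℕ, cj U L (g ^ n) D = D + (lam (g ^ n)).toAdd • ζ := by
    intro n
    induction n with
    | zero =>
      rw [pow_zero, cj_one, map_one, toAdd_one, zero_smul, add_zero]
    | succ n ih =>
      rw [pow_succ]
      exact hmul _ _ ih hgD
  have hall : ∀ e, cj U L e D = D + (lam e).toAdd • ζ := by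
    intro e
    obtain ⟨n, e', he', rfl⟩ := hgen e
    exact hmul _ _ (hpow n) (hE' e' he')
  refine ⟨-D, fun e u => ?_⟩
  have h1 := LinearMap.congr_fun (hall e⁻¹) u
  have hl : (lam e⁻¹).toAdd = -(lam e).toAdd := by rw [map_inv, toAdd_inv]
  rw [cj_apply, inv_inv, hl] at h1
  have h2 := congrArg (L.ρ e) h1
  rw [ρ_inv] at h2
  rw [LinearMap.neg_apply, h2]
  simp only [LinearMap.add_apply, LinearMap.smul_apply, map_add, map_smul, LinearMap.neg_apply,
    map_neg, neg_smul, neg_add, neg_neg]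

lemma Bd_comp_l (E' : Subgroup E) (g : E) {U L L' : Mo K E} (ξ : U.V →ₗ[K] L.V)
    (hξ : ξ ∈ Bd E' g U L) (f : L.V →ₗ[K] L'.V) (hf : IsH L L' f) : f ∘ₗ ξ ∈ Bd E' g U L' := by
  obtain ⟨η, h1, h2⟩ := hξ
  refine ⟨f ∘ₗ η, fun e he v => ?_, ?_⟩
  · rw [LinearMap.comp_apply, h1 e he, hf, LinearMap.comp_apply]
  · rw [h2, cj_comp_l g _ f hf, LinearMap.comp_sub]

lemma Bd_comp_r (E' : Subgroup E) (g : E) {U U' L : Mo K E} (ξ : U.V →ₗ[K] L.V)
    (hξ : ξ ∈ Bd E' g U L) (f : U'.V →ₗ[K] U.V) (hf : IsH U' U f) : ξ ∘ₗ f ∈ Bd E' g U' L := by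
  obtain ⟨η, h1, h2⟩ := hξ
  refine ⟨η ∘ₗ f, fun e he v => ?_, ?_⟩
  · rw [LinearMap.comp_apply, hf, h1 e he, LinearMap.comp_apply]
  · rw [h2, cj_comp_r g _ f hf, LinearMap.sub_comp]

end Pool.Agent.GamI
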