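import Pool.Agent.GamI.Defs3
import Pool.Agent.GamI.TE

/-! # CQ: digits and self-duality of `P_{p^m}` -/

set_option autoImplicit false

open scoped TensorProduct
open Module Polynomial

noncomputable section

namespace Pool.Agent.GamI

namespace CQAux

theorem finrank_PV (K : Type) [Field K] (n : ℕ) : finrank K (P K n).V = n := by
  have h := (degreeLTEquiv K n).finrank_eq
  rw [finrank_fin_fun] at h
  exact h

theorem ρP (K : Type) [Field K] (n : ℕ) (e : Multiplicative K) (f : (P K n).V) :
    ((P K n).ρ e f).1 = taylor e.toAdd f.1 := rfl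

theorem taylor_expand (p : ℕ) [Fact p.Prime] (K : Type) [Field K] [CharP K p] (t : K)
    (f : K[X]) : taylor t (expand K p f) = expand K p (taylor (t ^ p) f) := by
  induction f using Polynomial.induction_on' with
  | add f g hf hg => rw [map_add, map_add, hf, hg, map_add, map_add]
  | monomial n a =>
    rw [expand_monomial, taylor_monomial, taylor_monomial, map_mul, expand_C, map_pow, map_add,
      expand_X, expand_C, mul_comm n p, pow_mul, add_pow_char, C_pow]

theorem prod_mem (p : ℕ) (hp : 0 < p) (K : Type) [Field K] (n : ℕ) (f g : K[X])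
    (hf : f ∈ degreeLT K p) (hg : g ∈ degreeLT K n) : f * expand K p g ∈ degreeLT K (p * n) := by
  by_cases hf0 : f = 0
  · rw [hf0, zero_mul]; exact Submodule.zero_mem _
  by_cases hg0 : g = 0
  · rw [hg0, map_zero, mul_zero]; exact Submodule.zero_mem _
  rw [mem_degreeLT] at hf hg ⊢
  have h1 := (natDegree_lt_iff_degree_lt hf0).2 hf
  have h2 := (natDegree_lt_iff_degree_lt hg0).2 hg
  have hne : f * expand K p g ≠ 0 := mul_ne_zero hf0 (by rwa [Ne, expand_eq_zero hp])
  rw [← natDegree_lt_iff_degree_lt hne]
  refine lt_of_le_of_lt natDegree_mul_le ?_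
  rw [natDegree_expand]
  calc f.natDegree + g.natDegree * p < p + g.natDegree * p := by omega
    _ = p * (g.natDegree + 1) := by ring
    _ ≤ p * n := Nat.mul_le_mul_left _ h2

end CQAux

open CQAux

/-- `f₀ ⊗ f₁ ↦ f₀(T) f₁(T^p)` -/
theorem digits_iso (p : ℕ) [Fact p.Prime] (K : Type) [Field K] [CharP K p] (n : ℕ) :
    Iso (P K (p * n)) ((P K p).tens ((P K n).res (tw p 1 (MonoidHom.id (Multiplicative K))))) := by
  have hp : p.Prime := Fact.out
  let φ : (P K p).V ⊗[K] (P K n).V →ₗ[K] (P K (p * n)).V :=
    TensorProduct.lift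
      (LinearMap.mk₂ K (fun (f : degreeLT K p) (g : degreeLT K n) =>
        (⟨f.1 * expand K p g.1, prod_mem p hp.pos K n f.1 g.1 f.2 g.2⟩ : degreeLT K (p * n)))
        (fun f f' g => Subtype.ext (add_mul _ _ _))
        (fun c f g => Subtype.ext (smul_mul_assoc _ _ _))
        (fun f g g' => Subtype.ext (by
          change f.1 * expand K p (g.1 + g'.1) = f.1 * expand K p g.1 + f.1 * expand K p g'.1
          rw [map_add, mul_add]))
        (fun c f g => Subtype.ext (by
          change f.1 * expand K p (c • g.1) = c • (f.1 * expand K p g.1)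
          rw [map_smul, mul_smul_comm])))
  have hφ : ∀ (f : (P K p).V) (g : (P K n).V), (φ (f ⊗ₜ[K] g)).1 = f.1 * expand K p g.1 :=
    fun _ _ => rfl
  apply Iso.symm
  refine iso_of_bij (A := (P K p).tens ((P K n).res (tw p 1 (MonoidHom.id (Multiplicative K)))))
    (B := P K (p * n)) φ ?_ ?_
  · intro e
    have h : φ ∘ₗ ((P K p).tens ((P K n).res (tw p 1 (MonoidHom.id (Multiplicative K))))).ρ e =
        (P K (p * n)).ρ e ∘ₗ φ := by
      apply TensorProduct.ext'
      intro f g
      apply Subtype.ext
      change taylor e.toAdd f.1 * expand K p (taylor (iterateFrobenius K p 1 e.toAdd)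
        (show (P K n).V from g).1) = taylor e.toAdd (f.1 * expand K p (show (P K n).V from g).1)
      rw [taylor_mul, taylor_expand, iterateFrobenius_def, pow_one]
    intro v
    exact LinearMap.congr_fun h v
  · have hsurj : Function.Surjective φ := by
      intro f
      classical
      have h1 : Submodule.span K ↑((Finset.range (p * n)).image fun n => X ^ n : Finset K[X]) ≤
          Submodule.map (degreeLT K (p * n)).subtype (LinearMap.range φ) := by
        rw [Submodule.span_le]
        intro x hx
        rw [Finset.mem_coe, Finset.mem_image] at hx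
        obtain ⟨i, hi, rfl⟩ := hx
        rw [Finset.mem_range] at hi
        have hi0 : i % p < p := Nat.mod_lt _ hp.pos
        have hi1 : i / p < n := Nat.div_lt_of_lt_mul hi
        refine ⟨φ ((⟨X ^ (i % p), ?_⟩ : degreeLT K p) ⊗ₜ[K] (⟨X ^ (i / p), ?_⟩ : degreeLT K n)),
          ⟨_, rfl⟩, ?_⟩
        · rw [mem_degreeLT, degree_X_pow]
          exact_mod_cast hi0
        · rw [mem_degreeLT, degree_X_pow]
          exact_mod_cast hi1
        · change X ^ (i % p) * expand K p (X ^ (i / p)) = X ^ i
          rw [map_pow, expand_X, ← pow_mul, ← pow_add, Nat.mod_add_div]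
      have h2 : f.1 ∈ Submodule.span K
          ↑((Finset.range (p * n)).image fun n => X ^ n : Finset K[X]) := by
        have h3 := f.2
        have h4 := degreeLT_eq_span_X_pow (R := K) (n := p * n)
        exact h4.le h3
      obtain ⟨y, ⟨x, rfl⟩, hy⟩ := h1 h2
      exact ⟨x, Subtype.ext hy⟩
    have hfin : finrank K ((P K p).V ⊗[K] (P K n).V) = finrank K (P K (p * n)).V := by
      rw [finrank_tensorProduct, finrank_PV, finrank_PV, finrank_PV]
    exact ⟨(LinearMap.injective_iff_surjective_of_finrank_eq_finrank hfin).2 hsurj, hsurj⟩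

/-- the invariant form `(f,g) ↦ coeff_{q-1}(fg)`, `q = p^m` -/
theorem selfdual (p : ℕ) [Fact p.Prime] (K : Type) [Field K] [CharP K p] (m : ℕ) :
    Iso (P K (p ^ m)) ((P K (p ^ m)).hom (triv K (Multiplicative K))) := by
  have hp : p.Prime := Fact.out
  set q := p ^ m with hq
  have hq0 : 0 < q := pow_pos hp.pos m
  -- invariance of the coefficient
  have hinv : ∀ (t : K) (h : K[X]), h ∈ degreeLT K (2 * q - 1) →
      (taylor t h).coeff (q - 1) = h.coeff (q - 1) := by
    intro t
    have hle : degreeLT K (2 * q - 1) ≤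
        LinearMap.ker ((lcoeff K (q - 1)) ∘ₗ (taylor t) - lcoeff K (q - 1)) := by
      classical
      rw [degreeLT_eq_span_X_pow, Submodule.span_le]
      intro x hx
      rw [Finset.mem_coe, Finset.mem_image] at hx
      obtain ⟨l, hl, rfl⟩ := hx
      rw [Finset.mem_range] at hl
      rw [SetLike.mem_coe, LinearMap.mem_ker]
      change (taylor t (X ^ l)).coeff (q - 1) - (X ^ l : K[X]).coeff (q - 1) = 0
      rw [taylor_X_pow]
      rcases Nat.lt_trichotomy l (q - 1) with h | h | h
      · rw [coeff_X_pow, if_neg (by omega), coeff_eq_zero_of_natDegree_lt, sub_zero]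
        rw [natDegree_pow_X_add_C]
        exact h
      · have h1 : ((X + C t) ^ l).coeff l = (1 : K) := by
          have h2 := (monic_X_add_C t).pow l
          have h3 : ((X + C t) ^ l : K[X]).natDegree = l := natDegree_pow_X_add_C l t
          have h4 : ((X + C t) ^ l : K[X]).leadingCoeff = 1 := h2
          rw [leadingCoeff, h3] at h4
          exact h4
        rw [← h, h1, coeff_X_pow, if_pos rfl, sub_self]
      · have h1 : l = q + (l - q) := by omega
        rw [coeff_X_pow, if_neg (by omega), sub_zero, h1, pow_add, hq, add_pow_char_pow, ← hq,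
          ← C_pow, add_mul, coeff_add, coeff_C_mul,
          coeff_eq_zero_of_natDegree_lt (p := (X + C t) ^ (l - q)) (by
            rw [natDegree_pow_X_add_C]; omega), mul_zero, add_zero, coeff_X_pow_mul',
          if_neg (by omega)]
    intro h hh
    have h1 := hle hh
    rw [LinearMap.mem_ker] at h1
    exact sub_eq_zero.1 h1
  have hmul : ∀ f g : degreeLT K q, f.1 * g.1 ∈ degreeLT K (2 * q - 1) := by
    intro f g
    by_cases hf0 : f.1 = 0
    · rw [hf0, zero_mul]; exact Submodule.zero_mem _
    by_cases hg0 : g.1 = 0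
    · rw [hg0, mul_zero]; exact Submodule.zero_mem _
    have h1 := (natDegree_lt_iff_degree_lt hf0).2 (mem_degreeLT.1 f.2)
    have h2 := (natDegree_lt_iff_degree_lt hg0).2 (mem_degreeLT.1 g.2)
    rw [mem_degreeLT, ← natDegree_lt_iff_degree_lt (mul_ne_zero hf0 hg0)]
    refine lt_of_le_of_lt natDegree_mul_le ?_
    omega
  let Ψ : (P K q).V →ₗ[K] ((P K q).V →ₗ[K] K) :=
    LinearMap.mk₂ K (fun (f g : degreeLT K q) => (f.1 * g.1).coeff (q - 1))
      (fun f f' g => by
        change ((f.1 + f'.1) * g.1).coeff (q - 1) = _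
        rw [add_mul, coeff_add])
      (fun c f g => by
        change ((c • f.1) * g.1).coeff (q - 1) = _
        rw [smul_mul_assoc, coeff_smul])
      (fun f g g' => by
        change (f.1 * (g.1 + g'.1)).coeff (q - 1) = _
        rw [mul_add, coeff_add])
      (fun c f g => by
        change (f.1 * (c • g.1)).coeff (q - 1) = _
        rw [mul_smul_comm, coeff_smul])
  have hΨ : ∀ f g : (P K q).V, Ψ f g = (f.1 * g.1).coeff (q - 1) := fun _ _ => rfl
  refine iso_of_bij (A := P K q) (B := (P K q).hom (triv K (Multiplicative K))) Ψ ?_ ?_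
  · intro e f
    refine LinearMap.ext fun g => ?_
    change Ψ ((P K q).ρ e f) g = Ψ f ((P K q).ρ e⁻¹ g)
    rw [hΨ, hΨ, ρP, ← hinv e.toAdd _ (hmul f ((P K q).ρ e⁻¹ g)), taylor_mul]
    congr 2
    rw [← ρP, ← Module.End.mul_apply, ← map_mul, mul_inv_cancel, map_one, Module.End.one_apply]
  · have hinj : Function.Injective Ψ := by
      rw [← LinearMap.ker_eq_bot, LinearMap.ker_eq_bot']
      intro f hf
      apply Subtype.ext
      apply Polynomial.ext
      intro i
      change f.1.coeff i = 0
      by_cases hi : i < q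
      · have hmem : (X ^ (q - 1 - i) : K[X]) ∈ degreeLT K q := by
          rw [mem_degreeLT, degree_X_pow]
          have : q - 1 - i < q := by omega
          exact_mod_cast this
        have h1 := LinearMap.congr_fun hf (⟨_, hmem⟩ : degreeLT K q)
        have h2 : (f.1 * X ^ (q - 1 - i)).coeff (q - 1) = 0 := h1
        rw [coeff_mul_X_pow', if_pos (by omega)] at h2
        have h3 : q - 1 - (q - 1 - i) = i := by omega
        rwa [h3] at h2
      · have h1 := mem_degreeLT.1 f.2
        rw [degree_lt_iff_coeff_zero] at h1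
        exact h1 i (not_lt.1 hi)
    have hfin : finrank K (P K q).V = finrank K ((P K q).V →ₗ[K] K) := by
      rw [Module.finrank_linearMap, finrank_self, mul_one]
    exact ⟨hinj, (LinearMap.injective_iff_surjective_of_finrank_eq_finrank hfin).1 hinj⟩

end Pool.Agent.GamI
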