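import Pool.Agent.GamI.CS

/-! # CZ: if all the test modules are killed then `U` is projective -/

set_option autoImplicit false
set_option linter.unusedSectionVars false

open scoped TensorProduct
open Module

noncomputable section

namespace Pool.Agent.GamI

variable {p : ℕ} [Fact p.Prime] {K : Type} [Field K] [CharP K p] {E : Type} [Group E] [Finite E]

lemma tw_tw (i : ℕ) (μ : E →* Multiplicative K) : tw p i (tw p 1 μ) = tw p (i + 1) μ := by
  refine MonoidHom.ext fun e => ?_
  change Multiplicative.ofAdd (iterateFrobenius K p i (iterateFrobenius K p 1 (μ e).toAdd)) =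
    Multiplicative.ofAdd (iterateFrobenius K p (i + 1) (μ e).toAdd)
  rw [iterateFrobenius_add_apply]

lemma Lm_iso (cs : List ℕ) (μ : E →* Multiplicative K) {Z Z' : Mo K E} (h : Iso Z Z') :
    Iso (Lm p cs μ Z) (Lm p cs μ Z') := by
  induction cs generalizing μ with
  | nil => exact h
  | cons c cs ih => exact (Iso.refl (Pm c μ)).tens (ih (tw p 1 μ))

/-- `Lm cs μ Z ≅ Lm cs μ k ⊗ Z` -/
lemma Lm_tens (cs : List ℕ) (μ : E →* Multiplicative K) (Z : Mo K E) :
    Iso (Lm p cs μ Z) ((Lm p cs μ (triv K E)).tens Z) := by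
  induction cs generalizing μ with
  | nil => exact (iso_triv_tens Z).symm
  | cons c cs ih =>
    exact ((Iso.refl (Pm c μ)).tens (ih (tw p 1 μ))).trans
      (iso_assoc (Pm c μ) (Lm p cs (tw p 1 μ) (triv K E)) Z).symm

namespace CZAux

lemma Lm_ones (m : ℕ) (μ : E →* Multiplicative K) (Z : Mo K E) :
    Iso (Lm p (List.replicate m 1) μ Z) Z := by
  induction m generalizing μ with
  | zero => exact Iso.refl Z
  | succ m ih =>
    have e1 : Iso (Pm 1 μ) (triv K E) := (iso_P_one K).res μ
    exact (e1.tens (ih (tw p 1 μ))).trans (iso_triv_tens Z)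

lemma tw_zero (μ : E →* Multiplicative K) : tw p 0 μ = μ := by
  refine MonoidHom.ext fun e => ?_
  change Multiplicative.ofAdd (iterateFrobenius K p 0 (μ e).toAdd) = μ e
  simp

end CZAux

open CZAux

theorem kill_twists (U : Mo K E) (y : E →* Multiplicative K)
    (hF : ∀ W : Mo K E, nn U (W.tens (Pm p y)) = 0) (m : ℕ) (μ : E →* Multiplicative K)
    (hK : ∀ cs : List ℕ, cs.length = m → (∀ c ∈ cs, 1 ≤ c ∧ c ≤ p) → ∀ b, 1 ≤ b → b < p →
      Kill U μ (Lm p cs μ (Pm b y))) :
    ∀ i ≤ m, ∀ b, 1 ≤ b → b < p → Kill U (tw p i μ) (Pm b y) := by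
  have hp : 2 ≤ p := (Fact.out : p.Prime).two_le
  induction m generalizing μ with
  | zero =>
    intro i hi b hb hb'
    obtain rfl : i = 0 := by omega
    rw [tw_zero]
    exact hK [] rfl (by simp) b hb hb'
  | succ m ih =>
    intro i hi b hb hb'
    rcases i with _ | i
    · rw [tw_zero]
      refine kill_iso μ (Lm_ones (m + 1) μ (Pm b y)) (hK _ (by simp) ?_ b hb hb')
      intro c hc
      rw [List.eq_of_mem_replicate hc]
      omega
    · rw [← tw_tw]
      refine ih (tw p 1 μ) ?_ i (by omega) b hb hb'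
      intro cs hcs hc b hb hb'
      obtain ⟨f, g, hfg⟩ := pses_comp p K b hb'.le
      have hs := (hfg.res y).lT (Lm p cs (tw p 1 μ) (triv K E))
      have hFF : ∀ W : Mo K E,
          nn U (W.tens ((Lm p cs (tw p 1 μ) (triv K E)).tens (Pm p y))) = 0 := by
        intro W
        rw [← nn_iso U (iso_assoc W (Lm p cs (tw p 1 μ) (triv K E)) (Pm p y))]
        exact hF _
      have key : ∀ b, 1 ≤ b → b < p → ∀ j, 1 ≤ j → j ≤ p → Kill U μ
          ((Pm j μ).tens ((Lm p cs (tw p 1 μ) (triv K E)).tens (Pm b y))) := by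
        intro b hb hb' j hj hj'
        refine kill_iso μ ((Iso.refl (Pm j μ)).tens (Lm_tens cs (tw p 1 μ) (Pm b y))) ?_
        refine hK (j :: cs) (by simp [hcs]) ?_ b hb hb'
        intro c hc'
        rcases List.mem_cons.1 hc' with rfl | h
        · exact ⟨hj, hj'⟩
        · exact hc c h
      refine kill_iso (tw p 1 μ) (Lm_tens cs (tw p 1 μ) (Pm b y)).symm ?_
      exact stage U μ hs hFF (key (p - b) (by omega) (by omega)) (key b hb hb')

theorem proj_of_kill (hE : IsPGroup p E) (U : Mo K E) (y : E →* Multiplicative K)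
    (hF : ∀ W : Mo K E, nn U (W.tens (Pm p y)) = 0) (m : ℕ) (μ : E →* Multiplicative K)
    (a : ℕ → K) (hy : ∀ e, (y e).toAdd = ∑ i ∈ Finset.range (m + 1), a i * (tw p i μ e).toAdd)
    (hK : ∀ cs : List ℕ, cs.length = m → (∀ c ∈ cs, 1 ≤ c ∧ c ≤ p) → ∀ b, 1 ≤ b → b < p →
      Kill U μ (Lm p cs μ (Pm b y))) : Proj U := by
  refine last_stage U hE y hF fun b hb hb' => ?_
  refine kill_lin U (Pm b y) (fun i : Fin (m + 1) => tw p i μ) (fun i => a i) y ?_ ?_
  · intro e
    rw [hy e, Finset.sum_range]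
  · intro i
    exact kill_twists U y hF m μ hK i (by omega) b hb hb'

end Pool.Agent.GamI
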