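import Pool.Agent.GamI.CI
import Pool.Agent.GamI.CQ
import Pool.Agent.GamI.CZ

/-! # CM: the approximation maps for several digits; extension and lifting -/

set_option autoImplicit false

open scoped TensorProduct
open Module Polynomial

noncomputable section

namespace Pool.Agent.GamI

variable {p : ℕ} [Fact p.Prime] {K : Type} [Field K] [CharP K p] {E : Type} [Group E]

/-- relatively `X`-split approximation of `L` by `A` -/
def Approx (X L A : Mo K E) (ι : L.V →ₗ[K] A.V) (φ : A.V →ₗ[K] L.V) : Prop :=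
  IsH L A ι ∧ IsH A L φ ∧
  (∃ ρ : (X.tens A).V →ₗ[K] (X.tens L).V, IsH (X.tens A) (X.tens L) ρ ∧
    ρ ∘ₗ ι.lTensor X.V = LinearMap.id) ∧
  (∃ σ : (X.tens L).V →ₗ[K] (X.tens A).V, IsH (X.tens L) (X.tens A) σ ∧
    φ.lTensor X.V ∘ₗ σ = LinearMap.id)

/-- the complementary digits -/
def compl (p : ℕ) (cs : List ℕ) : List ℕ := cs.map fun c => p + 1 - c

/-! ### plain linear algebra -/

section Plain

variable {X X' L L' A A' : Type} [AddCommGroup X] [AddCommGroup X'] [AddCommGroup L]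
  [AddCommGroup L'] [AddCommGroup A] [AddCommGroup A'] [Module K X] [Module K X'] [Module K L]
  [Module K L'] [Module K A] [Module K A']

private lemma pl_iso (e : L ≃ₗ[K] A) :
    e.symm.toLinearMap.lTensor X ∘ₗ e.toLinearMap.lTensor X = LinearMap.id := by
  refine TensorProduct.ext' fun x l => ?_
  simp

private lemma pl_c1 (eX : X ≃ₗ[K] X') (eA : A ≃ₗ[K] A') (ι : L →ₗ[K] A)
    (ρ : X ⊗[K] A →ₗ[K] X ⊗[K] L) (h : ρ ∘ₗ ι.lTensor X = LinearMap.id) :
    (TensorProduct.map eX.toLinearMap LinearMap.id ∘ₗ ρ ∘ₗ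
      TensorProduct.map eX.symm.toLinearMap eA.symm.toLinearMap) ∘ₗ
      (eA.toLinearMap ∘ₗ ι).lTensor X' = LinearMap.id := by
  refine TensorProduct.ext' fun x l => ?_
  have := congrArg (fun F => F (eX.symm x ⊗ₜ[K] l)) h
  simp at this
  simp [this]

private lemma pl_c2 (eX : X ≃ₗ[K] X') (eA : A ≃ₗ[K] A') (φ : A →ₗ[K] L)
    (σ : X ⊗[K] L →ₗ[K] X ⊗[K] A) (h : φ.lTensor X ∘ₗ σ = LinearMap.id) :
    (φ ∘ₗ eA.symm.toLinearMap).lTensor X' ∘ₗ
      (TensorProduct.map eX.toLinearMap eA.toLinearMap ∘ₗ σ ∘ₗ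
        TensorProduct.map eX.symm.toLinearMap LinearMap.id) = LinearMap.id := by
  have h1 : (φ ∘ₗ eA.symm.toLinearMap).lTensor X' ∘ₗ
      TensorProduct.map eX.toLinearMap eA.toLinearMap =
      TensorProduct.map eX.toLinearMap LinearMap.id ∘ₗ φ.lTensor X := by
    refine TensorProduct.ext' fun x l => ?_
    simp
  rw [← LinearMap.comp_assoc, h1, LinearMap.comp_assoc, ← LinearMap.comp_assoc _ σ, h,
    LinearMap.id_comp]
  refine TensorProduct.ext' fun x l => ?_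
  simp

end Plain

private def ExA (X L A : Mo K E) : Prop := ∃ ι φ, Approx X L A ι φ

private lemma exA_iso {X L A : Mo K E} (h : Iso L A) : ExA X L A := by
  obtain ⟨e, he⟩ := h
  exact ⟨e.toLinearMap, e.symm.toLinearMap, he, he.symm, ⟨e.symm.toLinearMap.lTensor X.V,
    IsH.lT he.symm X, pl_iso e⟩, ⟨e.toLinearMap.lTensor X.V, IsH.lT he X, pl_iso e⟩⟩

private lemma exA_congr {X X' L A A' : Mo K E} (hX : Iso X X') (hA : Iso A A') (h : ExA X L A) :
    ExA X' L A' := by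
  obtain ⟨eX, heX⟩ := hX
  obtain ⟨eA, heA⟩ := hA
  obtain ⟨ι, φ, h1, h2, ⟨ρ, h3, h4⟩, ⟨σ, h5, h6⟩⟩ := h
  exact ⟨eA.toLinearMap ∘ₗ ι, φ ∘ₗ eA.symm.toLinearMap, heA.comp h1, h2.comp heA.symm,
    ⟨TensorProduct.map eX.toLinearMap LinearMap.id ∘ₗ ρ ∘ₗ
      TensorProduct.map eX.symm.toLinearMap eA.symm.toLinearMap,
      (IsH.map heX (IsH.id L)).comp (h3.comp (IsH.map heX.symm heA.symm)), pl_c1 eX eA ι ρ h4⟩,
    ⟨TensorProduct.map eX.toLinearMap eA.toLinearMap ∘ₗ σ ∘ₗ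
      TensorProduct.map eX.symm.toLinearMap LinearMap.id,
      (IsH.map heX heA).comp (h5.comp (IsH.map heX.symm (IsH.id L))), pl_c2 eX eA φ σ h6⟩⟩

section Plain

variable {X X' L L' A A' : Type} [AddCommGroup X] [AddCommGroup X'] [AddCommGroup L]
  [AddCommGroup L'] [AddCommGroup A] [AddCommGroup A'] [Module K X] [Module K X'] [Module K L]
  [Module K L'] [Module K A] [Module K A']

private lemma pl_t1 (ι : L →ₗ[K] A) (ι' : L' →ₗ[K] A')
    (ρ : X ⊗[K] A →ₗ[K] X ⊗[K] L) (h : ρ ∘ₗ ι.lTensor X = LinearMap.id)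
    (ρ' : X' ⊗[K] A' →ₗ[K] X' ⊗[K] L') (h' : ρ' ∘ₗ ι'.lTensor X' = LinearMap.id) :
    ((TensorProduct.tensorTensorTensorComm K X L X' L').toLinearMap ∘ₗ
      TensorProduct.map ρ ρ' ∘ₗ
      (TensorProduct.tensorTensorTensorComm K X X' A A').toLinearMap) ∘ₗ
      (TensorProduct.map ι ι').lTensor (X ⊗[K] X') = LinearMap.id := by
  have h1 : (TensorProduct.tensorTensorTensorComm K X X' A A').toLinearMap ∘ₗ
      (TensorProduct.map ι ι').lTensor (X ⊗[K] X') =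
      TensorProduct.map (ι.lTensor X) (ι'.lTensor X') ∘ₗ
        (TensorProduct.tensorTensorTensorComm K X X' L L').toLinearMap := by
    refine TensorProduct.ext_fourfold' fun a b c d => ?_
    simp
  rw [LinearMap.comp_assoc, LinearMap.comp_assoc, h1, ← LinearMap.comp_assoc _ _
    (TensorProduct.map ρ ρ'), ← TensorProduct.map_comp, h, h']
  refine TensorProduct.ext_fourfold' fun a b c d => ?_
  simp

private lemma pl_t2 (φ : A →ₗ[K] L) (φ' : A' →ₗ[K] L')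
    (σ : X ⊗[K] L →ₗ[K] X ⊗[K] A) (h : φ.lTensor X ∘ₗ σ = LinearMap.id)
    (σ' : X' ⊗[K] L' →ₗ[K] X' ⊗[K] A') (h' : φ'.lTensor X' ∘ₗ σ' = LinearMap.id) :
    (TensorProduct.map φ φ').lTensor (X ⊗[K] X') ∘ₗ
    ((TensorProduct.tensorTensorTensorComm K X A X' A').toLinearMap ∘ₗ
      TensorProduct.map σ σ' ∘ₗ
      (TensorProduct.tensorTensorTensorComm K X X' L L').toLinearMap) = LinearMap.id := by
  have h1 : (TensorProduct.map φ φ').lTensor (X ⊗[K] X') ∘ₗ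
      (TensorProduct.tensorTensorTensorComm K X A X' A').toLinearMap =
        (TensorProduct.tensorTensorTensorComm K X L X' L').toLinearMap ∘ₗ
      TensorProduct.map (φ.lTensor X) (φ'.lTensor X') := by
    refine TensorProduct.ext_fourfold' fun a b c d => ?_
    simp
  rw [← LinearMap.comp_assoc, h1, LinearMap.comp_assoc,
    ← LinearMap.comp_assoc _ (TensorProduct.map σ σ'), ← TensorProduct.map_comp, h, h']
  refine TensorProduct.ext_fourfold' fun a b c d => ?_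
  simp

end Plain

private lemma isH_ttt (A B C D : Mo K E) :
    IsH ((A.tens B).tens (C.tens D)) ((A.tens C).tens (B.tens D))
      (TensorProduct.tensorTensorTensorComm K A.V B.V C.V D.V).toLinearMap := by
  intro g v
  have h1 : (TensorProduct.tensorTensorTensorComm K A.V B.V C.V D.V).toLinearMap ∘ₗ
      TensorProduct.map (TensorProduct.map (A.ρ g) (B.ρ g)) (TensorProduct.map (C.ρ g) (D.ρ g)) =
      TensorProduct.map (TensorProduct.map (A.ρ g) (C.ρ g)) (TensorProduct.map (B.ρ g) (D.ρ g)) ∘ₗ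
      (TensorProduct.tensorTensorTensorComm K A.V B.V C.V D.V).toLinearMap := by
    refine TensorProduct.ext_fourfold' fun a b c d => ?_
    simp
  exact congrArg (fun F => F v) h1

private lemma iso_ttt (A B C D : Mo K E) :
    Iso ((A.tens B).tens (C.tens D)) ((A.tens C).tens (B.tens D)) :=
  ⟨TensorProduct.tensorTensorTensorComm K A.V B.V C.V D.V, isH_ttt A B C D⟩

private lemma exA_tens {X X' L L' A A' : Mo K E} (h : ExA X L A) (h' : ExA X' L' A') :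
    ExA (X.tens X') (L.tens L') (A.tens A') := by
  obtain ⟨ι, φ, h1, h2, ⟨ρ, h3, h4⟩, ⟨σ, h5, h6⟩⟩ := h
  obtain ⟨ι', φ', h1', h2', ⟨ρ', h3', h4'⟩, ⟨σ', h5', h6'⟩⟩ := h'
  exact ⟨TensorProduct.map ι ι', TensorProduct.map φ φ', IsH.map h1 h1', IsH.map h2 h2',
    ⟨_, (isH_ttt X L X' L').comp ((IsH.map h3 h3').comp (isH_ttt X X' A A')),
      pl_t1 ι ι' ρ h4 ρ' h4'⟩,
    ⟨_, (isH_ttt X A X' A').comp ((IsH.map h5 h5').comp (isH_ttt X X' L L')),
      pl_t2 φ φ' σ h6 σ' h6'⟩⟩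

private lemma exA_res {F : Type} [Group F] (j : F →* E) {X L A : Mo K E} (h : ExA X L A) :
    ExA (X.res j) (L.res j) (A.res j) := by
  obtain ⟨ι, φ, h1, h2, ⟨ρ, h3, h4⟩, ⟨σ, h5, h6⟩⟩ := h
  exact ⟨ι, φ, h1.res j, h2.res j, ⟨ρ, h3.res j, h4⟩, ⟨σ, h5.res j, h6⟩⟩

private lemma exA_digit (a c : ℕ) (ha : 1 ≤ a) (hc : 1 ≤ c) (hac : a + c = p + 1) :
    ExA (P K p) (P K c) ((P K p).tens (P K a)) := by
  obtain ⟨ι, φ, ρ, σ, h1, h2, h3, h4, h5, h6⟩ := digit p K a c ha hc hac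
  exact ⟨ι, φ, h1, h2, ⟨ρ, h3, h5⟩, ⟨σ, h4, h6⟩⟩

private lemma digits_iso_Pm (n : ℕ) (μ : E →* Multiplicative K) :
    Iso ((Pm p μ).tens (Pm n (tw p 1 μ))) (Pm (p * n) μ) :=
  ((digits_iso p K n).res μ).symm

private def cstP (K : Type) [Field K] : K →ₗ[K] (P K 1).V where
  toFun c := ⟨C c, by
    rw [mem_degreeLT]
    exact lt_of_le_of_lt degree_C_le (by norm_num)⟩
  map_add' a b := by
    apply Subtype.ext
    change C (a + b) = C a + C b
    simp
  map_smul' c a := by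
    apply Subtype.ext
    change C (c • a) = c • C a
    simp [smul_eq_C_mul]

private lemma iso_triv_Pm1 (μ : E →* Multiplicative K) : Iso (triv K E) (Pm 1 μ) := by
  refine iso_of_bij (A := triv K E) (B := Pm 1 μ) (cstP K) ?_ ⟨?_, ?_⟩
  · intro g v
    apply Subtype.ext
    exact (taylor_C (μ g).toAdd (show K from v)).symm
  · intro a b hab
    exact C_injective (R := K) (congrArg Subtype.val hab)
  · rintro ⟨f, hf⟩
    have hf' : f.degree < ((1 : ℕ) : WithBot ℕ) := mem_degreeLT.1 hf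
    have h0 : f.degree ≤ 0 := by
      by_cases hf0 : f = 0
      · simp [hf0]
      · rw [degree_eq_natDegree hf0] at hf' ⊢
        have : f.natDegree < 1 := by exact_mod_cast hf'
        have : f.natDegree = 0 := by omega
        simp [this]
    refine ⟨f.coeff 0, ?_⟩
    apply Subtype.ext
    change C (f.coeff 0) = f
    exact (eq_C_of_degree_le_zero h0).symm

private lemma exA_main (cs : List ℕ) (hcs : ∀ c ∈ cs, 1 ≤ c ∧ c ≤ p) (μ : E →* Multiplicative K)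
    (Z : Mo K E) : ExA (Pm (p ^ cs.length) μ) (Lm p cs μ Z)
        ((Pm (p ^ cs.length) μ).tens (Lm p (compl p cs) μ Z)) := by
  induction cs generalizing μ with
  | nil =>
    apply exA_iso
    exact (iso_triv_tens Z).symm.trans ((iso_triv_Pm1 μ).tens (Iso.refl Z))
  | cons c cs ih =>
    have hc := hcs c (by simp)
    have ih' := ih (fun c' h => hcs c' (by simp [h])) (tw p 1 μ)
    have hd : ExA (Pm p μ) (Pm c μ) ((Pm p μ).tens (Pm (p + 1 - c) μ)) :=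
      exA_res μ (exA_digit (p := p) (K := K) (p + 1 - c) c (by omega) hc.1 (by omega))
    have ht := exA_tens hd ih'
    have e1 : Iso ((Pm p μ).tens (Pm (p ^ cs.length) (tw p 1 μ)))
        (Pm (p ^ (c :: cs).length) μ) := by
      have := digits_iso_Pm (p := p) (p ^ cs.length) μ
      rw [List.length_cons, pow_succ']
      exact this
    refine exA_congr e1 ?_ ht
    exact (iso_ttt _ _ _ _).trans (e1.tens (Iso.refl _))

theorem approx_exists (cs : List ℕ) (hcs : ∀ c ∈ cs, 1 ≤ c ∧ c ≤ p) (μ : E →* Multiplicative K)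
    (Z : Mo K E) :
    ∃ (ι : (Lm p cs μ Z).V →ₗ[K] ((Pm (p ^ cs.length) μ).tens (Lm p (compl p cs) μ Z)).V)
      (φ : ((Pm (p ^ cs.length) μ).tens (Lm p (compl p cs) μ Z)).V →ₗ[K] (Lm p cs μ Z).V),
      Approx (Pm (p ^ cs.length) μ) (Lm p cs μ Z)
        ((Pm (p ^ cs.length) μ).tens (Lm p (compl p cs) μ Z)) ι φ :=
  exA_main cs hcs μ Z

section Plain

variable {X L A W : Type} [AddCommGroup X] [AddCommGroup L] [AddCommGroup A] [AddCommGroup W]
  [Module K X] [Module K L] [Module K A] [Module K W]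

private lemma pl_inv (rX : Representation K E X) (g : E) (x : X) : rX g⁻¹ (rX g x) = x := by
  rw [← Module.End.mul_apply, ← map_mul]
  simp

private lemma pl_inv' (rX : Representation K E X) (g : E) (x : X) : rX g (rX g⁻¹ x) = x := by
  rw [← Module.End.mul_apply, ← map_mul]
  simp

private lemma pl_ext (rX : Representation K E X) (rL : Representation K E L)
    (rA : Representation K E A) (rW : Representation K E W) (ι : L →ₗ[K] A)
    (ρ : X ⊗[K] A →ₗ[K] X ⊗[K] L)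
    (hρ : ∀ g v, ρ (TensorProduct.map (rX g) (rA g) v) = TensorProduct.map (rX g) (rL g) (ρ v))
    (hι : ρ ∘ₗ ι.lTensor X = LinearMap.id) (η : L →ₗ[K] (X →ₗ[K] W))
    (hη : ∀ g l, η (rL g l) = rW g ∘ₗ η l ∘ₗ rX g⁻¹) :
    ∃ β : A →ₗ[K] (X →ₗ[K] W), (∀ g a, β (rA g a) = rW g ∘ₗ β a ∘ₗ rX g⁻¹) ∧ β ∘ₗ ι = η := by
  let u : X ⊗[K] L →ₗ[K] W := TensorProduct.lift (LinearMap.flip η)
  let u' : X ⊗[K] A →ₗ[K] W := u ∘ₗ ρ
  let β : A →ₗ[K] (X →ₗ[K] W) := LinearMap.flip (TensorProduct.curry u')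
  have hu : ∀ g v, u (TensorProduct.map (rX g) (rL g) v) = rW g (u v) := by
    intro g v
    have : u ∘ₗ TensorProduct.map (rX g) (rL g) = rW g ∘ₗ u := by
      refine TensorProduct.ext' fun x l => ?_
      simp [u, hη]
    exact congrArg (fun F => F v) this
  refine ⟨β, fun g a => ?_, ?_⟩
  · refine LinearMap.ext fun x => ?_
    change u (ρ (x ⊗ₜ[K] (rA g a))) = rW g (u (ρ (rX g⁻¹ x ⊗ₜ[K] a)))
    rw [← hu, ← hρ, TensorProduct.map_tmul, pl_inv']
  · refine LinearMap.ext fun l => LinearMap.ext fun x => ?_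
    change u (ρ (x ⊗ₜ[K] ι l)) = η l x
    have := congrArg (fun F => F (x ⊗ₜ[K] l)) hι
    have h6 : ρ (x ⊗ₜ[K] ι l) = x ⊗ₜ[K] l := this
    rw [h6]
    rfl

private def pl_Psi [Module.Finite K X] (e : X ≃ₗ[K] (X →ₗ[K] K)) (L : Type) [AddCommGroup L]
    [Module K L] : X ⊗[K] L ≃ₗ[K] (X →ₗ[K] L) :=
  (TensorProduct.congr e (LinearEquiv.refl K L)).trans (dualTensorHomEquiv K X L)

private lemma pl_Psi_tmul [Module.Finite K X] (e : X ≃ₗ[K] (X →ₗ[K] K)) (x : X) (l : L) (x' : X) :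
    pl_Psi e L (x ⊗ₜ[K] l) x' = e x x' • l := by
  simp [pl_Psi, dualTensorHomEquiv]

private lemma pl_Psi_nat [Module.Finite K X] (e : X ≃ₗ[K] (X →ₗ[K] K)) (φ : A →ₗ[K] L)
    (t : X ⊗[K] A) : φ ∘ₗ pl_Psi e A t = pl_Psi e L (φ.lTensor X t) := by
  have : (LinearMap.llcomp K X A L φ) ∘ₗ (pl_Psi e A).toLinearMap =
      (pl_Psi e L).toLinearMap ∘ₗ φ.lTensor X := by
    refine TensorProduct.ext' fun x a => LinearMap.ext fun x' => ?_
    simp [pl_Psi_tmul]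
  exact congrArg (fun F => F t) this

private lemma pl_Psi_eq [Module.Finite K X] (e : X ≃ₗ[K] (X →ₗ[K] K))
    (rX : Representation K E X) (rL : Representation K E L)
    (he : ∀ g x, e (rX g x) = e x ∘ₗ rX g⁻¹) (g : E) (t : X ⊗[K] L) :
    pl_Psi e L (TensorProduct.map (rX g) (rL g) t) = rL g ∘ₗ pl_Psi e L t ∘ₗ rX g⁻¹ := by
  refine LinearMap.ext fun x' => ?_
  induction t with
  | zero => simp
  | add a b ha hb => simp only [map_add, LinearMap.add_apply, ha, hb, LinearMap.comp_apply]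
  | tmul x l => simp [pl_Psi_tmul, he]

private lemma pl_lift [Module.Finite K X] (rX : Representation K E X) (rL : Representation K E L)
    (rA : Representation K E A) (rW : Representation K E W) (e : X ≃ₗ[K] (X →ₗ[K] K))
    (he : ∀ g x, e (rX g x) = e x ∘ₗ rX g⁻¹) (φ : A →ₗ[K] L)
    (σ : X ⊗[K] L →ₗ[K] X ⊗[K] A)
    (hσ : ∀ g v, σ (TensorProduct.map (rX g) (rL g) v) = TensorProduct.map (rX g) (rA g) (σ v))
    (hφ : φ.lTensor X ∘ₗ σ = LinearMap.id) (ζ : X ⊗[K] W →ₗ[K] L)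
    (hζ : ∀ g v, ζ (TensorProduct.map (rX g) (rW g) v) = rL g (ζ v)) :
    ∃ κ : X ⊗[K] W →ₗ[K] A, (∀ g v, κ (TensorProduct.map (rX g) (rW g) v) = rA g (κ v)) ∧
      φ ∘ₗ κ = ζ := by
  let Z : W →ₗ[K] (X →ₗ[K] L) := LinearMap.flip (TensorProduct.curry ζ)
  let Q : W →ₗ[K] (X →ₗ[K] A) := (pl_Psi e A).toLinearMap ∘ₗ σ ∘ₗ (pl_Psi e L).symm.toLinearMap ∘ₗ Z
  let κ : X ⊗[K] W →ₗ[K] A := TensorProduct.lift (LinearMap.flip Q)
  have hZ : ∀ g w, Z (rW g w) = rL g ∘ₗ Z w ∘ₗ rX g⁻¹ := by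
    intro g w
    refine LinearMap.ext fun x => ?_
    change ζ (x ⊗ₜ[K] rW g w) = rL g (ζ (rX g⁻¹ x ⊗ₜ[K] w))
    rw [← hζ, TensorProduct.map_tmul, pl_inv']
  have hs : ∀ (g : E) (f : X →ₗ[K] L), (pl_Psi e L).symm (rL g ∘ₗ f ∘ₗ rX g⁻¹) =
      TensorProduct.map (rX g) (rL g) ((pl_Psi e L).symm f) := by
    intro g f
    rw [LinearEquiv.symm_apply_eq, pl_Psi_eq e rX rL he]
    simp
  have hQ : ∀ g w, Q (rW g w) = rA g ∘ₗ Q w ∘ₗ rX g⁻¹ := by
    intro g w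
    change pl_Psi e A (σ ((pl_Psi e L).symm (Z (rW g w)))) = _
    rw [hZ, hs, hσ, pl_Psi_eq e rX rA he]
    rfl
  refine ⟨κ, fun g v => ?_, ?_⟩
  · have : κ ∘ₗ TensorProduct.map (rX g) (rW g) = rA g ∘ₗ κ := by
      refine TensorProduct.ext' fun x w => ?_
      change Q (rW g w) (rX g x) = rA g (Q w x)
      rw [hQ]
      simp
    exact congrArg (fun F => F v) this
  · refine TensorProduct.ext' fun x w => ?_
    change φ (Q w x) = ζ (x ⊗ₜ[K] w)
    have h1 : φ ∘ₗ Q w = Z w := by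
      change φ ∘ₗ pl_Psi e A (σ ((pl_Psi e L).symm (Z w))) = Z w
      rw [pl_Psi_nat]
      have := congrArg (fun F => F ((pl_Psi e L).symm (Z w))) hφ
      have h2 : φ.lTensor X (σ ((pl_Psi e L).symm (Z w))) = (pl_Psi e L).symm (Z w) := this
      rw [h2]
      simp
    exact congrArg (fun F => F x) h1

end Plain

/-- extension property, for `X` self-dual -/
theorem approx_ext {X L A U : Mo K E} (hX : Iso X (X.hom (triv K E))) {ι : L.V →ₗ[K] A.V}
    {φ : A.V →ₗ[K] L.V} (h : Approx X L A ι φ) (hU : InX X U) (η : L.V →ₗ[K] U.V)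
    (hη : IsH L U η) : ∃ β : A.V →ₗ[K] U.V, IsH A U β ∧ β ∘ₗ ι = η := by
  obtain ⟨W, hW⟩ := hU
  obtain ⟨j, r, hj, hr, hrj⟩ := hW.trans (((hX.tens (Iso.refl W)).trans (iso_hom X W).symm).retr)
  obtain ⟨h1, h2, ⟨ρ, h3, h4⟩, -⟩ := h
  have hjη : IsH L (X.hom W) (j ∘ₗ η) := hj.comp hη
  obtain ⟨β, hβ, hβι⟩ := pl_ext X.ρ L.ρ A.ρ W.ρ ι ρ h3 h4 (j ∘ₗ η) hjη
  have hβ' : IsH A (X.hom W) β := hβ
  refine ⟨r ∘ₗ β, hr.comp hβ', LinearMap.ext fun l => ?_⟩
  have e1 : β (ι l) = j (η l) := congrArg (fun F => F l) hβι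
  have e2 : r (j (η l)) = η l := congrArg (fun F => F (η l)) hrj
  exact (congrArg r e1).trans e2

/-- lifting property, for `X` self-dual -/
theorem approx_lift {X L A U : Mo K E} (hX : Iso X (X.hom (triv K E))) {ι : L.V →ₗ[K] A.V}
    {φ : A.V →ₗ[K] L.V} (h : Approx X L A ι φ) (hU : InX X U) (ζ : U.V →ₗ[K] L.V)
    (hζ : IsH U L ζ) : ∃ κ : U.V →ₗ[K] A.V, IsH U A κ ∧ φ ∘ₗ κ = ζ := by
  obtain ⟨W, j, r, hj, hr, hrj⟩ := hU
  obtain ⟨h1, h2, -, ⟨σ, h5, h6⟩⟩ := h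
  obtain ⟨e, he⟩ := hX
  have hζr : IsH (X.tens W) L (ζ ∘ₗ r) := hζ.comp hr
  have he' : ∀ (g : E) (x : X.V), (e (X.ρ g x) : X.V →ₗ[K] K) =
      (show X.V →ₗ[K] K from e x) ∘ₗ X.ρ g⁻¹ := fun g x => he g x
  obtain ⟨κ, hκ, hφκ⟩ := pl_lift X.ρ L.ρ A.ρ W.ρ e he' φ σ h5 h6 (ζ ∘ₗ r) hζr
  have hκ' : IsH (X.tens W) A κ := hκ
  refine ⟨κ ∘ₗ j, hκ'.comp hj, LinearMap.ext fun l => ?_⟩
  have e1 : φ (κ (j l)) = ζ (r (j l)) := congrArg (fun F => F (j l)) hφκ
  have e2 : r (j l) = l := congrArg (fun F => F l) hrj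
  change φ (κ (j l)) = ζ l
  rw [e1, e2]

theorem selfdual_Pm (m : ℕ) (μ : E →* Multiplicative K) :
    Iso (Pm (p ^ m) μ) ((Pm (p ^ m) μ).hom (triv K E)) := by
  have h := (selfdual p K m).res μ
  obtain ⟨e, he⟩ := h
  refine ⟨e, fun g v => ?_⟩
  refine (he g v).trans ?_
  refine LinearMap.ext fun w => ?_
  change (show (P K (p ^ m)).V →ₗ[K] K from e v) ((P K (p ^ m)).ρ (μ g)⁻¹ w) =
    (show (P K (p ^ m)).V →ₗ[K] K from e v) ((P K (p ^ m)).ρ (μ g⁻¹) w)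
  rw [map_inv μ g]

end Pool.Agent.GamI
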