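import Pool.Agent.GamI.CM

/-! # CN: the action of `E'` on the test modules is polynomial in `λ` -/

set_option autoImplicit false

open scoped TensorProduct
open Module Polynomial

noncomputable section

namespace Pool.Agent.GamI

variable {p : ℕ} [Fact p.Prime] {K : Type} [Field K] [CharP K p] {E : Type} [Group E]

/-- `e ∈ E'` acts on `A` by a polynomial of degree `≤ N` in `λ(e)`, with coefficient of `λ^N`
equal to `τ` -/
def PolyAct (E' : Subgroup E) (lam : E →* Multiplicative K) (A : Mo K E) (N : ℕ)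
    (τ : A.V →ₗ[K] A.V) : Prop :=
  ∃ D : ℕ → (A.V →ₗ[K] A.V), D N = τ ∧
    ∀ e ∈ E', A.ρ e = ∑ n ∈ Finset.range (N + 1), (lam e).toAdd ^ n • D n

/-- the degree of the action on `Lm` -/
def degL (p : ℕ) : List ℕ → ℕ
  | [] => 0
  | c :: cs => (c - 1) + p * degL p cs

theorem degL_compl (cs : List ℕ) (hcs : ∀ c ∈ cs, 1 ≤ c ∧ c ≤ p) :
    degL p cs + degL p (compl p cs) = p ^ cs.length - 1 := by
  induction cs with
  | nil => simp [compl, degL]
  | cons c cs ih =>
    have hc := hcs c (by simp)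
    have ih' := ih (fun c' h => hcs c' (by simp [h]))
    have hp : 1 ≤ p ^ cs.length := Nat.one_le_pow _ _ (by omega)
    have e1 : p * degL p cs + p * degL p (compl p cs) = p * (p ^ cs.length - 1) := by
      rw [← ih']
      ring
    have e2 : p * (p ^ cs.length - 1) = p ^ (cs.length + 1) - p := by
      rw [Nat.mul_sub, pow_succ']
      simp
    have e3 : p ≤ p ^ (cs.length + 1) := by
      rw [pow_succ']
      exact Nat.le_mul_of_pos_right p (by omega)
    have e4 : compl p (c :: cs) = (p + 1 - c) :: compl p cs := rfl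
    rw [e4, List.length_cons]
    simp only [degL]
    omega

private lemma pa_congr {E' : Subgroup E} {lam : E →* Multiplicative K} {A : Mo K E} {N : ℕ}
    {τ τ' : A.V →ₗ[K] A.V} (hA : PolyAct E' lam A N τ) (h : τ = τ') :
    PolyAct E' lam A N τ' := h ▸ hA

private lemma pl_cauchy {V W : Type} [AddCommGroup V] [AddCommGroup W] [Module K V] [Module K W]
    (a : K) (N M : ℕ) (D : ℕ → (V →ₗ[K] V)) (D' : ℕ → (W →ₗ[K] W)) :
    TensorProduct.map (∑ n ∈ Finset.range (N + 1), a ^ n • D n)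
      (∑ n ∈ Finset.range (M + 1), a ^ n • D' n) =
    ∑ n ∈ Finset.range (N + M + 1), a ^ n •
      ∑ x ∈ (Finset.range (N + 1) ×ˢ Finset.range (M + 1)).filter (fun x => x.1 + x.2 = n),
        TensorProduct.map (D x.1) (D' x.2) := by
  have h1 : TensorProduct.map (∑ n ∈ Finset.range (N + 1), a ^ n • D n)
      (∑ n ∈ Finset.range (M + 1), a ^ n • D' n) =
      ∑ x ∈ Finset.range (N + 1) ×ˢ Finset.range (M + 1),
        a ^ (x.1 + x.2) • TensorProduct.map (D x.1) (D' x.2) := by
    rw [Finset.sum_product, ← TensorProduct.mapBilinear_apply (R := K)]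
    simp only [map_sum, LinearMap.sum_apply, map_smul, LinearMap.smul_apply]
    rw [Finset.sum_comm]
    refine Finset.sum_congr rfl fun n _ => ?_
    rw [Finset.smul_sum]
    refine Finset.sum_congr rfl fun m _ => ?_
    rw [TensorProduct.mapBilinear_apply, smul_smul, ← pow_add, add_comm m n]
  rw [h1, ← Finset.sum_fiberwise_of_maps_to (g := fun x => x.1 + x.2)
    (t := Finset.range (N + M + 1))]
  · refine Finset.sum_congr rfl fun n _ => ?_
    rw [Finset.smul_sum]
    refine Finset.sum_congr rfl fun x hx => ?_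
    rw [(Finset.mem_filter.1 hx).2]
  · intro x hx
    simp only [Finset.mem_product, Finset.mem_range] at hx ⊢
    omega

private lemma pl_cauchy_top {V W : Type} [AddCommGroup V] [AddCommGroup W] [Module K V]
    [Module K W] (N M : ℕ) (D : ℕ → (V →ₗ[K] V)) (D' : ℕ → (W →ₗ[K] W)) :
    ∑ x ∈ (Finset.range (N + 1) ×ˢ Finset.range (M + 1)).filter (fun x => x.1 + x.2 = N + M),
        TensorProduct.map (D x.1) (D' x.2) = TensorProduct.map (D N) (D' M) := by
  have : (Finset.range (N + 1) ×ˢ Finset.range (M + 1)).filter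
        (fun x => x.1 + x.2 = N + M) = {(N, M)} := by
    ext ⟨x, y⟩
    simp only [Finset.mem_filter, Finset.mem_product, Finset.mem_range, Finset.mem_singleton,
      Prod.mk.injEq]
    omega
  rw [this, Finset.sum_singleton]

private lemma pa_tens {E' : Subgroup E} {lam : E →* Multiplicative K} {A B : Mo K E} {N M : ℕ}
    {τ : A.V →ₗ[K] A.V} {τ' : B.V →ₗ[K] B.V} (hA : PolyAct E' lam A N τ)
    (hB : PolyAct E' lam B M τ') :
    PolyAct E' lam (A.tens B) (N + M) (TensorProduct.map τ τ') := by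
  obtain ⟨D, hD, hA⟩ := hA
  obtain ⟨D', hD', hB⟩ := hB
  refine ⟨fun n => ∑ x ∈ (Finset.range (N + 1) ×ˢ Finset.range (M + 1)).filter
    (fun x => x.1 + x.2 = n), TensorProduct.map (D x.1) (D' x.2), ?_, fun e he => ?_⟩
  · rw [← hD, ← hD']
    exact pl_cauchy_top N M D D'
  · have h := pl_cauchy (lam e).toAdd N M D D'
    rw [← hA e he, ← hB e he] at h
    exact h

private lemma pa_frob {E' : Subgroup E} {lam : E →* Multiplicative K} {A : Mo K E} {N : ℕ}
    {τ : A.V →ₗ[K] A.V} (hA : PolyAct E' (tw p 1 lam) A N τ) :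
    PolyAct E' lam A (p * N) τ := by
  obtain ⟨D, hD, hA⟩ := hA
  have hp : 0 < p := (Fact.out : p.Prime).pos
  refine ⟨fun n => if p ∣ n then D (n / p) else 0, ?_, fun e he => ?_⟩
  · simp [hp, hD]
  · rw [hA e he]
    have h1 : ∀ n, (tw p 1 lam e).toAdd ^ n = (lam e).toAdd ^ (p * n) := by
      intro n
      have : (tw p 1 lam e).toAdd = (lam e).toAdd ^ p := by
        change iterateFrobenius K p 1 (lam e).toAdd = _
        rw [iterateFrobenius_def, pow_one]
      rw [this, pow_mul]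
    have h2 : ∑ n ∈ Finset.range (p * N + 1),
        (lam e).toAdd ^ n • (if p ∣ n then D (n / p) else 0) =
        ∑ n ∈ (Finset.range (N + 1)).image (fun n => p * n),
          (lam e).toAdd ^ n • (if p ∣ n then D (n / p) else 0) := by
      symm
      refine Finset.sum_subset ?_ ?_
      · intro n hn
        simp only [Finset.mem_image, Finset.mem_range] at hn ⊢
        obtain ⟨m, hm, rfl⟩ := hn
        have : p * m ≤ p * N := Nat.mul_le_mul_left p (by omega)
        omega
      · intro n hn hn'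
        simp only [Finset.mem_image, Finset.mem_range, not_exists, not_and] at hn hn'
        rw [if_neg, smul_zero]
        rintro ⟨m, rfl⟩
        refine hn' m ?_ rfl
        by_contra h
        have : p * (N + 1) ≤ p * m := Nat.mul_le_mul_left p (by omega)
        have : p * (N + 1) = p * N + p := by ring
        omega
    rw [h2, Finset.sum_image]
    · refine Finset.sum_congr rfl fun n _ => ?_
      simp [h1, hp]
    · intro a _ b _ hab
      exact Nat.eq_of_mul_eq_mul_left hp hab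

private lemma hasse_deg (c n : ℕ) (f : K[X]) (hf : f.degree < c) : (hasseDeriv n f).degree < c := by
  rw [degree_lt_iff_coeff_zero] at hf ⊢
  intro m hm
  rw [hasseDeriv_coeff, hf (m + n) (by omega), mul_zero]

private lemma taylor_eq_sum_hasse (c : ℕ) (hc : 1 ≤ c) (f : K[X]) (hf : f.degree < c) (t : K) :
    taylor t f = ∑ n ∈ Finset.range c, t ^ n • hasseDeriv n f := by
  ext k
  rw [taylor_coeff, eval_eq_sum_range' (n := c)]
  · rw [finsetSum_coeff]
    refine Finset.sum_congr rfl fun n _ => ?_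
    rw [coeff_smul, hasseDeriv_coeff, hasseDeriv_coeff, smul_eq_mul, add_comm n k,
      Nat.choose_symm_add]
    ring
  · by_cases h0 : hasseDeriv k f = 0
    · rw [h0, natDegree_zero]
      exact hc
    · exact (natDegree_lt_iff_degree_lt h0).2 (hasse_deg c k f hf)

private lemma hasse_top (c : ℕ) (hc : 1 ≤ c) (f : K[X]) (hf : f.degree < c) :
    hasseDeriv (c - 1) f = C (f.coeff (c - 1)) := by
  rw [degree_lt_iff_coeff_zero] at hf
  ext n
  rw [hasseDeriv_coeff, coeff_C]
  split_ifs with h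
  · subst h
    simp
  · rw [hf (n + (c - 1)) (by omega), mul_zero]

/-- the Hasse derivative on `P_c` -/
private def hasP (K : Type) [Field K] (c n : ℕ) : (P K c).V →ₗ[K] (P K c).V :=
  ((hasseDeriv n : K[X] →ₗ[K] K[X]).domRestrict (degreeLT K c)).codRestrict (degreeLT K c)
    fun f => mem_degreeLT.2 (hasse_deg c n f.1 (mem_degreeLT.1 f.2))

private def oneP (K : Type) [Field K] (c : ℕ) (hc : 1 ≤ c) : (P K c).V :=
  ⟨1, by
    rw [mem_degreeLT, degree_one]
    exact_mod_cast hc⟩

private def topP (K : Type) [Field K] (c : ℕ) (hc : 1 ≤ c) : (P K c).V :=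
  ⟨X ^ (c - 1), by
    rw [mem_degreeLT, degree_X_pow]
    exact_mod_cast (by omega : c - 1 < c)⟩

private def coefP (K : Type) [Field K] (c : ℕ) : (P K c).V →ₗ[K] K :=
  (lcoeff K (c - 1)).domRestrict (degreeLT K c)

private lemma coefP_inv (c : ℕ) (hc : 1 ≤ c) (t : Multiplicative K) (f : (P K c).V) :
    coefP K c ((P K c).ρ t f) = coefP K c f := by
  change (taylor t.toAdd f.1).coeff (c - 1) = f.1.coeff (c - 1)
  rw [taylor_coeff, hasse_top c hc f.1 (mem_degreeLT.1 f.2), eval_C]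

private lemma oneP_inv (c : ℕ) (hc : 1 ≤ c) (t : Multiplicative K) :
    (P K c).ρ t (oneP K c hc) = oneP K c hc := by
  apply Subtype.ext
  change taylor t.toAdd (1 : K[X]) = 1
  simp

private lemma coefP_top (c : ℕ) (hc : 1 ≤ c) : coefP K c (topP K c hc) = 1 := by
  change (X ^ (c - 1) : K[X]).coeff (c - 1) = 1
  simp

private lemma hasP_top (c : ℕ) (hc : 1 ≤ c) (f : (P K c).V) :
    hasP K c (c - 1) f = coefP K c f • oneP K c hc := by
  apply Subtype.ext
  change hasseDeriv (c - 1) f.1 = f.1.coeff (c - 1) • (1 : K[X])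
  rw [hasse_top c hc f.1 (mem_degreeLT.1 f.2), smul_eq_C_mul, mul_one]

private lemma pa_P (c : ℕ) (hc : 1 ≤ c) (lam : E →* Multiplicative K) (E' : Subgroup E) :
    PolyAct E' lam (Pm c lam) (c - 1) (hasP K c (c - 1)) := by
  refine ⟨fun n => hasP K c n, rfl, fun e _ => ?_⟩
  refine LinearMap.ext fun f => ?_
  apply Subtype.ext
  have h := taylor_eq_sum_hasse c hc f.1 (mem_degreeLT.1 f.2) (lam e).toAdd
  have h2 : c - 1 + 1 = c := by omega
  rw [h2, LinearMap.sum_apply]
  have h3 := map_sum (degreeLT K c).subtype (fun n => (lam e).toAdd ^ n • hasP K c n f)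
    (Finset.range c)
  exact h.trans h3.symm

section Plain

variable {V W Z : Type} [AddCommGroup V] [AddCommGroup W] [AddCommGroup Z] [Module K V]
  [Module K W] [Module K Z]

private lemma pl_vac_inj (v : V) (ψ : V →ₗ[K] K) (hψ : ψ v = 1)
    (vac : Z →ₗ[K] W) (hvac : Function.Injective vac) :
    Function.Injective ((TensorProduct.mk K V W v) ∘ₗ vac) := by
  have h1 : Function.Injective ((TensorProduct.lid K W).toLinearMap ∘ₗ (ψ.rTensor W) ∘ₗ
      ((TensorProduct.mk K V W v) ∘ₗ vac)) := by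
    intro a b hab
    simp [hψ] at hab
    exact hvac hab
  intro a b hab
  apply h1
  simp only [LinearMap.comp_apply] at hab ⊢
  rw [hab]

private lemma pl_top_surj (t : V) (ψ : V →ₗ[K] K) (hψ : ψ t = 1)
    (top : W →ₗ[K] Z) (htop : Function.Surjective top) :
    Function.Surjective ((TensorProduct.lid K Z).toLinearMap ∘ₗ TensorProduct.map ψ top) := by
  intro z
  obtain ⟨w, hw⟩ := htop z
  refine ⟨t ⊗ₜ[K] w, ?_⟩
  simp [hψ, hw]

private lemma pl_vt (v : V) (ψ : V →ₗ[K] K) (H : V →ₗ[K] V) (hH : ∀ f, H f = ψ f • v)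
    (vac : Z →ₗ[K] W) (top : W →ₗ[K] Z) :
    ((TensorProduct.mk K V W v) ∘ₗ vac) ∘ₗ
      ((TensorProduct.lid K Z).toLinearMap ∘ₗ TensorProduct.map ψ top) =
      TensorProduct.map H (vac ∘ₗ top) := by
  refine TensorProduct.ext' fun x w => ?_
  simp [hH, TensorProduct.smul_tmul]

private lemma pl_top_eqv (ψ : V →ₗ[K] K) (R : V →ₗ[K] V) (hR : ψ ∘ₗ R = ψ) (RW : W →ₗ[K] W)
    (RZ : Z →ₗ[K] Z) (top : W →ₗ[K] Z) (htop : ∀ w, top (RW w) = RZ (top w)) (v : V ⊗[K] W) :
    ((TensorProduct.lid K Z).toLinearMap ∘ₗ TensorProduct.map ψ top) (TensorProduct.map R RW v) =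
      RZ (((TensorProduct.lid K Z).toLinearMap ∘ₗ TensorProduct.map ψ top) v) := by
  have : ((TensorProduct.lid K Z).toLinearMap ∘ₗ TensorProduct.map ψ top) ∘ₗ
      TensorProduct.map R RW =
      RZ ∘ₗ ((TensorProduct.lid K Z).toLinearMap ∘ₗ TensorProduct.map ψ top) := by
    refine TensorProduct.ext' fun x w => ?_
    have hx : ψ (R x) = ψ x := congrArg (fun F => F x) hR
    simp [hx, htop]
  exact congrArg (fun F => F v) this

end Plain

private def evP (K : Type) [Field K] (c : ℕ) : (P K c).V →ₗ[K] K :=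
  (lcoeff K 0).domRestrict (degreeLT K c)

private lemma evP_one (c : ℕ) (hc : 1 ≤ c) : evP K c (oneP K c hc) = 1 := by
  change (1 : K[X]).coeff 0 = 1
  simp

/-- constants and leading coefficients -/
theorem vac_top (cs : List ℕ) (hcs : ∀ c ∈ cs, 1 ≤ c) (lam : E →* Multiplicative K) (Z : Mo K E)
    (E' : Subgroup E) (hZ : ∀ e ∈ E', Z.ρ e = LinearMap.id) :
    ∃ (vac : Z.V →ₗ[K] (Lm p cs lam Z).V) (top : (Lm p cs lam Z).V →ₗ[K] Z.V),
      IsH Z (Lm p cs lam Z) vac ∧ IsH (Lm p cs lam Z) Z top ∧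
      Function.Injective vac ∧ Function.Surjective top ∧
      PolyAct E' lam (Lm p cs lam Z) (degL p cs) (vac ∘ₗ top) := by
  induction cs generalizing lam with
  | nil =>
    refine ⟨LinearMap.id, LinearMap.id, IsH.id Z, IsH.id Z, fun a b h => h, fun a => ⟨a, rfl⟩, ?_⟩
    refine ⟨fun _ => LinearMap.id, rfl, fun e he => ?_⟩
    refine (hZ e he).trans ?_
    simp [degL]
    rfl
  | cons c cs ih =>
    obtain ⟨vac, top, h1, h2, h3, h4, h5⟩ := ih (fun c' h => hcs c' (by simp [h])) (tw p 1 lam)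
    have hc := hcs c (by simp)
    let L' : Mo K E := Lm p cs (tw p 1 lam) Z
    let vac' : Z.V →ₗ[K] ((P K c).V ⊗[K] L'.V) := (TensorProduct.mk K _ _ (oneP K c hc)) ∘ₗ vac
    let top' : ((P K c).V ⊗[K] L'.V) →ₗ[K] Z.V :=
      (TensorProduct.lid K Z.V).toLinearMap ∘ₗ TensorProduct.map (coefP K c) top
    refine ⟨vac', top', ?_, ?_, ?_, ?_, ?_⟩
    · intro g z
      change oneP K c hc ⊗ₜ[K] vac (Z.ρ g z) =
        ((P K c).ρ (lam g) (oneP K c hc)) ⊗ₜ[K] (L'.ρ g (vac z))
      rw [oneP_inv, h1 g z]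
    · intro g v
      exact pl_top_eqv (coefP K c) ((P K c).ρ (lam g))
        (LinearMap.ext fun f => coefP_inv c hc (lam g) f) (L'.ρ g) (Z.ρ g) top (h2 g) v
    · exact pl_vac_inj (oneP K c hc) (evP K c) (evP_one c hc) vac h3
    · exact pl_top_surj (topP K c hc) (coefP K c) (coefP_top c hc) top h4
    · have h6 := pa_tens (pa_P c hc lam E') (pa_frob h5)
      have h7 := pl_vt (oneP K c hc) (coefP K c) (hasP K c (c - 1)) (hasP_top c hc) vac top
      have h8 : vac' ∘ₗ top' = TensorProduct.map (hasP K c (c - 1)) (vac ∘ₗ top) := h7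
      exact pa_congr (A := Lm p (c :: cs) lam Z) h6 h8.symm

section Lagr

variable {F : Type} [Group F] (S : Finset F) (q : ℕ) (hS : S.card = q) (hq : 0 < q)
  (hmul : ∀ a ∈ S, ∀ b ∈ S, a * b⁻¹ ∈ S) (h1 : (1 : F) ∈ S)
  (v : F → K) (hv : Function.Injective v) (hvm : ∀ a b, v (a * b⁻¹) = v a - v b)

include hS hmul h1 hv hvm in
private lemma lagr_sum : ∃ D : K, D ≠ 0 ∧ ∀ f : K[X], f.degree < q →
    ∑ e ∈ S, f.eval (v e) = D * f.coeff (q - 1) := by
  classical
  have hv1 : v 1 = 0 := by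
    have := hvm 1 1
    simpa using this
  refine ⟨∏ e ∈ S.erase 1, v e, ?_, fun f hf => ?_⟩
  · rw [Finset.prod_ne_zero_iff]
    intro e he h0
    rw [← hv1] at h0
    exact (Finset.mem_erase.1 he).1 (hv h0)
  · have h := Lagrange.coeff_eq_sum (s := S) (v := v) hv.injOn (P := f) (by rw [hS]; exact hf)
    have hden : ∀ i ∈ S, ∏ j ∈ S.erase i, (v i - v j) = ∏ e ∈ S.erase 1, v e := by
      intro i hi
      refine Finset.prod_bij' (fun j _ => i * j⁻¹) (fun j _ => j⁻¹ * i) ?_ ?_ ?_ ?_ ?_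
      · intro j hj
        rw [Finset.mem_erase] at hj ⊢
        refine ⟨fun h => hj.1 (mul_inv_eq_one.1 h).symm, hmul i hi j hj.2⟩
      · intro j hj
        rw [Finset.mem_erase] at hj ⊢
        refine ⟨fun h => hj.1 ?_, ?_⟩
        · have : j⁻¹ = 1 := by simpa using h
          simpa using this
        · have hj' : j⁻¹ ∈ S := by simpa using hmul 1 h1 j hj.2
          have hi' : i⁻¹ ∈ S := by simpa using hmul 1 h1 i hi
          simpa using hmul j⁻¹ hj' i⁻¹ hi'
      · intro j _
        simp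
      · intro j _
        simp
      · intro j _
        rw [hvm]
    rw [hS] at h
    rw [h, Finset.mul_sum]
    refine Finset.sum_congr rfl fun e he => ?_
    rw [hden e he]
    have hD : ∏ e ∈ S.erase 1, v e ≠ 0 := by
      rw [Finset.prod_ne_zero_iff]
      intro e he h0
      rw [← hv1] at h0
      exact (Finset.mem_erase.1 he).1 (hv h0)
    field_simp

include hS hq hmul h1 hv hvm in
private lemma lagr_pow : ∃ D : K, D ≠ 0 ∧ (∀ j ≤ q - 1, ∑ e ∈ S, v e ^ j = if j = q - 1 then D else 0) ∧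
    ∑ e ∈ S, taylor (v e) (X ^ (q - 1) : K[X]) = C D := by
  obtain ⟨D, hD, h⟩ := lagr_sum S q hS hmul h1 v hv hvm
  have hp : ∀ j ≤ q - 1, ∑ e ∈ S, v e ^ j = if j = q - 1 then D else 0 := by
    intro j hj
    have := h (X ^ j) (by rw [degree_X_pow]; exact_mod_cast (by omega : j < q))
    simp only [eval_pow, eval_X, coeff_X_pow] at this
    rw [this]
    split_ifs with h1 h2 h2
    · simp
    · omega
    · omega
    · simp
  refine ⟨D, hD, hp, ?_⟩
  ext k
  rw [finsetSum_coeff, coeff_C]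
  have h2 : ∀ e, (taylor (v e) (X ^ (q - 1) : K[X])).coeff k =
      ((q - 1).choose k : K) * v e ^ (q - 1 - k) := by
    intro e
    rw [taylor_X_pow, coeff_X_add_C_pow]
    ring
  simp only [h2]
  rw [← Finset.mul_sum]
  by_cases hk : k ≤ q - 1
  · rw [hp _ (by omega)]
    by_cases hk0 : k = 0
    · simp [hk0]
    · rw [if_neg (by omega), if_neg hk0, mul_zero]
  · rw [Nat.choose_eq_zero_of_lt (by omega), if_neg (by omega)]
    simp

end Lagr

/-- comparison of leading coefficients (`q = |E'|` points) -/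
theorem top_formula (E' : Subgroup E) (lam : E →* Multiplicative K) (hlam : Function.Injective lam)
    (q : ℕ) (hq : 0 < q) (hE' : Nat.card E' = q) {B L : Mo K E} {NB NL : ℕ}
    {τB : B.V →ₗ[K] B.V} {τL : L.V →ₗ[K] L.V} (hB : PolyAct E' lam B NB τB)
    (hL : PolyAct E' lam L NL τL) (hN : NB + NL = q - 1)
    (ζ : ((Pm q lam).tens B).V →ₗ[K] L.V) (hζ : IsHOn E' ((Pm q lam).tens B) L ζ) (b : B.V)
    (one top : (Pm q lam).V) (h1 : (one.1 : K[X]) = 1) (ht : (top.1 : K[X]) = X ^ (q - 1)) :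
    ζ (one ⊗ₜ[K] b) = (-1 : K) ^ NB • τL (ζ (top ⊗ₜ[K] τB b)) := by
  classical
  obtain ⟨DB, rfl, hDB⟩ := hB
  obtain ⟨DL, rfl, hDL⟩ := hL
  have : Finite E' := Nat.finite_of_card_ne_zero (by omega)
  let S : Finset E := (Set.toFinite (E' : Set E)).toFinset
  have hmem : ∀ e, e ∈ S ↔ e ∈ E' := fun e => by simp [S]
  have hS : S.card = q := by
    have e1 := Set.ncard_eq_toFinset_card (E' : Set E) (Set.toFinite (E' : Set E))
    have e2 := Nat.card_coe_set_eq (E' : Set E)
    rw [← hE']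
    exact (e2.trans e1).symm
  let v : E → K := fun e => (lam e).toAdd
  obtain ⟨D, hD, hp, hT⟩ := lagr_pow S q hS hq (fun a ha b hb => by
    rw [hmem] at ha hb ⊢
    exact E'.mul_mem ha (E'.inv_mem hb)) ((hmem 1).2 E'.one_mem) v
    (fun a b hab => hlam (Multiplicative.toAdd.injective hab)) (fun a b => by
      simp [v, sub_eq_add_neg])
  have hTop : ∑ e ∈ S, (Pm q lam).ρ e top = D • one := by
    apply Subtype.ext
    have h3 := map_sum (degreeLT K q).subtype (fun e => (Pm q lam).ρ e top) S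
    refine h3.trans ?_
    have h4 : ∀ e, (degreeLT K q).subtype ((Pm q lam).ρ e top) =
        taylor (v e) (X ^ (q - 1) : K[X]) := by
      intro e
      rw [← ht]
      rfl
    refine (Finset.sum_congr rfl (fun e _ => h4 e)).trans (hT.trans ?_)
    change C D = D • one.1
    rw [h1, smul_eq_C_mul, mul_one]
  have key : ∑ e ∈ S, L.ρ e (ζ (top ⊗ₜ[K] B.ρ e⁻¹ b)) = D • ζ (one ⊗ₜ[K] b) := by
    have h3 : ∀ e ∈ S, L.ρ e (ζ (top ⊗ₜ[K] B.ρ e⁻¹ b)) =
        ζ (((Pm q lam).ρ e top) ⊗ₜ[K] b) := by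
      intro e he
      have h4 := hζ e ((hmem e).1 he) (top ⊗ₜ[K] B.ρ e⁻¹ b)
      rw [← h4]
      change ζ (((Pm q lam).ρ e top) ⊗ₜ[K] (B.ρ e (B.ρ e⁻¹ b))) = _
      have h5 : B.ρ e (B.ρ e⁻¹ b) = b := by
        rw [← Module.End.mul_apply, ← map_mul]
        simp
      rw [h5]
    let Φ : (Pm q lam).V →ₗ[K] L.V := ζ ∘ₗ ((TensorProduct.mk K (Pm q lam).V B.V).flip b)
    have h6 : ∑ e ∈ S, Φ ((Pm q lam).ρ e top) = D • Φ one := by
      rw [← map_sum, hTop, map_smul]
    exact (Finset.sum_congr rfl h3).trans h6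
  have key2 : ∑ e ∈ S, L.ρ e (ζ (top ⊗ₜ[K] B.ρ e⁻¹ b)) =
      (D * (-1) ^ NB) • DL NL (ζ (top ⊗ₜ[K] DB NB b)) := by
    let Ψ : B.V →ₗ[K] L.V := ζ ∘ₗ (TensorProduct.mk K (Pm q lam).V B.V top)
    have hΨ : ∀ x, ζ (top ⊗ₜ[K] x) = Ψ x := fun x => rfl
    simp only [hΨ]
    have h3 : ∀ e ∈ S, L.ρ e (Ψ (B.ρ e⁻¹ b)) = ∑ n ∈ Finset.range (NL + 1),
        ∑ m ∈ Finset.range (NB + 1), (v e ^ (n + m) * (-1) ^ m) • DL n (Ψ (DB m b)) := by
      intro e he
      have he' := (hmem e).1 he
      rw [hDL e he', hDB e⁻¹ (E'.inv_mem he')]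
      have h4 : (lam e⁻¹).toAdd = - v e := by simp [v]
      rw [h4]
      simp only [LinearMap.sum_apply, LinearMap.smul_apply, map_sum, map_smul, Finset.smul_sum,
        smul_smul]
      rw [Finset.sum_comm]
      refine Finset.sum_congr rfl fun n _ => Finset.sum_congr rfl fun m _ => ?_
      congr 1
      rw [neg_pow (v e) m]
      change (-1) ^ m * v e ^ m * v e ^ n = _
      ring
    rw [Finset.sum_congr rfl h3, Finset.sum_comm]
    have h5 : ∀ n ∈ Finset.range (NL + 1), ∑ e ∈ S, ∑ m ∈ Finset.range (NB + 1),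
        (v e ^ (n + m) * (-1) ^ m) • DL n (Ψ (DB m b)) =
        if n = NL then (D * (-1) ^ NB) • DL NL (Ψ (DB NB b)) else 0 := by
      intro n hn
      have hn' := Finset.mem_range.1 hn
      rw [Finset.sum_comm]
      have h6 : ∀ m ∈ Finset.range (NB + 1), ∑ e ∈ S,
          (v e ^ (n + m) * (-1) ^ m) • DL n (Ψ (DB m b)) =
          if m = NB then (if n = NL then (D * (-1) ^ NB) • DL NL (Ψ (DB NB b)) else 0) else 0 := by
        intro m hm
        have hm' := Finset.mem_range.1 hm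
        rw [← Finset.sum_smul, ← Finset.sum_mul, hp (n + m) (by omega)]
        by_cases h7 : m = NB
        · by_cases h8 : n = NL
          · rw [if_pos (by omega), if_pos h7, if_pos h8, h7, h8]
          · rw [if_neg (by omega), if_pos h7, if_neg h8, zero_mul, zero_smul]
        · rw [if_neg (by omega), if_neg h7, zero_mul, zero_smul]
      rw [Finset.sum_congr rfl h6, Finset.sum_ite_eq' , if_pos (by simp)]
    rw [Finset.sum_congr rfl h5, Finset.sum_ite_eq', if_pos (by simp)]
  rw [key2] at key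
  have := congrArg (fun w => D⁻¹ • w) key
  simp only [smul_smul, inv_mul_cancel₀ hD, one_smul] at this
  rw [← this]
  congr 1
  field_simp

end Pool.Agent.GamI
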