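import Pool.Agent.GamI.Defs3
import Pool.Agent.GamI.TE
import Pool.Agent.GamI.TR

/-! # CW: the duality pairing -/

set_option autoImplicit false

open scoped TensorProduct
open Module

noncomputable section

namespace Pool.Agent.GamI

namespace CWAux

variable {K : Type} [Field K]

lemma cj_mul {G : Type} [Group G] (A B : Mo K G) (g h : G) (f : A.V →ₗ[K] B.V) :
    cj A B (g * h) f = cj A B g (cj A B h f) := by
  refine LinearMap.ext fun v => ?_
  simp [cj, map_mul, mul_inv_rev]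

lemma cj_one {G : Type} [Group G] (A B : Mo K G) (f : A.V →ₗ[K] B.V) : cj A B 1 f = f := by
  refine LinearMap.ext fun v => ?_
  simp [cj]

lemma rho_inv_self {G : Type} [Group G] (A : Mo K G) (g : G) (v : A.V) :
    A.ρ g⁻¹ (A.ρ g v) = v := by
  have h := congrArg (fun f : A.V →ₗ[K] A.V => f v) (map_mul A.ρ g⁻¹ g)
  simpa using h.symm

lemma rho_self_inv {G : Type} [Group G] (A : Mo K G) (g : G) (v : A.V) :
    A.ρ g (A.ρ g⁻¹ v) = v := by
  have h := congrArg (fun f : A.V →ₗ[K] A.V => f v) (map_mul A.ρ g g⁻¹)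
  simpa using h.symm

lemma cj_comp {G : Type} [Group G] (A B C : Mo K G) (g : G) (f : A.V →ₗ[K] B.V)
    (f' : B.V →ₗ[K] C.V) : cj A C g (f' ∘ₗ f) = cj B C g f' ∘ₗ cj A B g f := by
  refine LinearMap.ext fun v => ?_
  simp [cj, rho_inv_self]

lemma cj_add {G : Type} [Group G] (A B : Mo K G) (g : G) (f f' : A.V →ₗ[K] B.V) :
    cj A B g (f + f') = cj A B g f + cj A B g f' := by
  refine LinearMap.ext fun v => ?_
  simp [cj]

lemma cj_sub {G : Type} [Group G] (A B : Mo K G) (g : G) (f f' : A.V →ₗ[K] B.V) :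
    cj A B g (f - f') = cj A B g f - cj A B g f' := by
  refine LinearMap.ext fun v => ?_
  simp [cj]

lemma cj_smul {G : Type} [Group G] (A B : Mo K G) (g : G) (c : K) (f : A.V →ₗ[K] B.V) :
    cj A B g (c • f) = c • cj A B g f := by
  refine LinearMap.ext fun v => ?_
  simp [cj]

lemma cj_sum {G : Type} [Group G] (A B : Mo K G) (g : G) {ι : Type} (s : Finset ι)
    (f : ι → (A.V →ₗ[K] B.V)) :
    cj A B g (∑ i ∈ s, f i) = ∑ i ∈ s, cj A B g (f i) := by
  refine LinearMap.ext fun v => ?_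
  simp [cj]

lemma cj_of_on {G : Type} [Group G] {H : Subgroup G} {A B : Mo K G} {f : A.V →ₗ[K] B.V}
    (hf : IsHOn H A B f) {h : G} (hh : h ∈ H) : cj A B h f = f := by
  refine LinearMap.ext fun v => ?_
  simp only [cj, LinearMap.comp_apply]
  rw [← hf h hh, rho_self_inv]

lemma on_of_cj {G : Type} [Group G] {H : Subgroup G} {A B : Mo K G} {f : A.V →ₗ[K] B.V}
    (hf : ∀ h ∈ H, cj A B h f = f) : IsHOn H A B f := by
  intro h hh v
  have h1 := LinearMap.congr_fun (hf h hh) (A.ρ h v)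
  simp only [cj, LinearMap.comp_apply, rho_inv_self] at h1
  exact h1.symm

lemma trace_cj {G : Type} [Group G] (A : Mo K G) (g : G) (f : A.V →ₗ[K] A.V) :
    LinearMap.trace K A.V (cj A A g f) = LinearMap.trace K A.V f := by
  unfold cj
  rw [LinearMap.trace_comp_comm']
  congr 1
  refine LinearMap.ext fun v => ?_
  simp [rho_inv_self]

/-- perfectness of the trace pairing: nondegeneracy -/
lemma eq_zero_of_trace {V W : Type} [AddCommGroup V] [Module K V] [Module.Finite K V]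
    [AddCommGroup W] [Module K W] [Module.Finite K W] (η : V →ₗ[K] W)
    (h : ∀ ξ : W →ₗ[K] V, LinearMap.trace K V (ξ ∘ₗ η) = 0) : η = 0 := by
  refine LinearMap.ext fun v => ?_
  by_contra hne
  obtain ⟨f, hf, -⟩ := Submodule.exists_le_ker_of_notMem (p := (⊥ : Submodule K W))
    (v := η v) (by simpa using hne)
  have h1 := h (f.smulRight v)
  have h2 : (f.smulRight v) ∘ₗ η = (f ∘ₗ η).smulRight v := by
    refine LinearMap.ext fun w => ?_
    simp
  rw [h2, LinearMap.trace_smulRight] at h1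
  exact hf h1

/-- perfectness of the trace pairing: every functional is a trace -/
lemma exists_trace {V W : Type} [AddCommGroup V] [Module K V] [Module.Finite K V]
    [AddCommGroup W] [Module K W] [Module.Finite K W] (φ : (W →ₗ[K] V) →ₗ[K] K) :
    ∃ η : V →ₗ[K] W, ∀ ξ : W →ₗ[K] V, φ ξ = LinearMap.trace K V (ξ ∘ₗ η) := by
  classical
  let T : (V →ₗ[K] W) →ₗ[K] ((W →ₗ[K] V) →ₗ[K] K) :=
    LinearMap.mk₂ K (fun η ξ => LinearMap.trace K V (ξ ∘ₗ η))
      (fun a b c => by simp [LinearMap.comp_add])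
      (fun a b c => by simp [LinearMap.comp_smul])
      (fun a b c => by simp [LinearMap.add_comp])
      (fun a b c => by simp [LinearMap.smul_comp])
  have hinj : Function.Injective T := by
    rw [← LinearMap.ker_eq_bot, LinearMap.ker_eq_bot']
    intro η hη
    exact eq_zero_of_trace η fun ξ => LinearMap.congr_fun hη ξ
  have hdim : finrank K (V →ₗ[K] W) = finrank K ((W →ₗ[K] V) →ₗ[K] K) := by
    rw [show finrank K ((W →ₗ[K] V) →ₗ[K] K) = finrank K (W →ₗ[K] V) from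
      Subspace.dual_finrank_eq (K := K) (V := W →ₗ[K] V)]
    rw [Module.finrank_linearMap, Module.finrank_linearMap, mul_comm]
  have hsurj : Function.Surjective T :=
    (LinearMap.injective_iff_surjective_of_finrank_eq_finrank hdim).1 hinj
  obtain ⟨η, hη⟩ := hsurj φ
  exact ⟨η, fun ξ => by rw [← hη]; rfl⟩

variable {E : Type} [CommGroup E] [Finite E]

lemma trace_sum_comp {V W : Type} [AddCommGroup V] [Module K V]
    [AddCommGroup W] [Module K W] {ι : Type} (s : Finset ι)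
    (f : ι → (V →ₗ[K] W)) (g : W →ₗ[K] V) :
    LinearMap.trace K W ((∑ i ∈ s, f i) ∘ₗ g) = ∑ i ∈ s, LinearMap.trace K W (f i ∘ₗ g) := by
  rw [← map_sum]
  congr 1
  refine LinearMap.ext fun v => ?_
  simp

/-- the sum over a subgroup is invariant under inversion -/
lemma sum_inv {M : Type} [AddCommMonoid M] (H : Subgroup E) (F : E → M) :
    ∑ h ∈ subFin H, F h⁻¹ = ∑ h ∈ subFin H, F h := by
  classical
  refine Finset.sum_bij' (fun h _ => h⁻¹) (fun h _ => h⁻¹) ?_ ?_ ?_ ?_ ?_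
  · intro h hh
    rw [mem_subFin] at hh ⊢
    exact H.inv_mem hh
  · intro h hh
    rw [mem_subFin] at hh ⊢
    exact H.inv_mem hh
  · intro h _
    exact inv_inv h
  · intro h _
    exact inv_inv h
  · intro h _
    rfl

/-- moving the trace: if `a : B → C`, `b : A → B`, `c : C → A` with `a`, `c` equivariant on `H`,
then `trace (a (tr b) c) = trace (a b c)` summed -/
lemma trace_move {A U : Mo K E} (H : Subgroup E) (δ : U.V →ₗ[K] A.V) (θ : A.V →ₗ[K] U.V) :
    LinearMap.trace K A.V (δ ∘ₗ trH H A U θ) = LinearMap.trace K A.V (trH H U A δ ∘ₗ θ) := by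
  unfold trH
  rw [trace_sum_comp, ← sum_inv H (fun h => LinearMap.trace K A.V (cj U A h δ ∘ₗ θ))]
  have h1 : δ ∘ₗ (∑ h ∈ subFin H, cj A U h θ) = ∑ h ∈ subFin H, δ ∘ₗ cj A U h θ := by
    refine LinearMap.ext fun v => ?_
    simp
  rw [h1, map_sum]
  refine Finset.sum_congr rfl fun h _ => ?_
  rw [← trace_cj A h (cj U A h⁻¹ δ ∘ₗ θ), cj_comp A U A, ← cj_mul, mul_inv_cancel, cj_one]


/-- the key vanishing lemma -/
lemma key {U : Mo K E} (H : Subgroup E) (δ ψ θ : U.V →ₗ[K] U.V) (hδ : trH H U U δ = 0)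
    (hψ : IsHOn H U U ψ) (hθ : trH H U U θ = LinearMap.id) :
    LinearMap.trace K U.V (δ ∘ₗ ψ) = 0 := by
  have h1 : δ ∘ₗ ψ = (δ ∘ₗ ψ) ∘ₗ trH H U U θ := by rw [hθ, LinearMap.comp_id]
  rw [h1, trace_move, trH_comp_r H δ ψ hψ, hδ]
  simp

lemma trH_cj (H : Subgroup E) {U W : Mo K E} (g : E) (θ : U.V →ₗ[K] W.V) :
    trH H U W (cj U W g θ) = cj U W g (trH H U W θ) := by
  unfold trH
  rw [cj_sum]
  refine Finset.sum_congr rfl fun h _ => ?_
  rw [← cj_mul, ← cj_mul, mul_comm]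

lemma tr_diff (H : Subgroup E) {U : Mo K E} (g : E) (θ : U.V →ₗ[K] U.V)
    (hθ : trH H U U θ = LinearMap.id) : trH H U U (cj U U g θ - θ) = 0 := by
  have h1 : trH H U U (cj U U g θ - θ) = trH H U U (cj U U g θ) - trH H U U θ := by
    unfold trH
    rw [← Finset.sum_sub_distrib]
    exact Finset.sum_congr rfl fun h _ => cj_sub _ _ _ _ _
  rw [h1, trH_cj, hθ]
  refine sub_eq_zero.2 ?_
  refine LinearMap.ext fun v => ?_
  simp [cj, rho_self_inv]

/-- invariance of the pairing under replacing `θ` by a conjugate -/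
lemma pair_theta (H : Subgroup E) {U L : Mo K E} (g : E) (θ : U.V →ₗ[K] U.V)
    (hθ : trH H U U θ = LinearMap.id) (ξ : U.V →ₗ[K] L.V) (hξ : IsHOn H U L ξ)
    (η : L.V →ₗ[K] U.V) (hη : IsHOn H L U η) :
    LinearMap.trace K L.V (ξ ∘ₗ cj U U g θ ∘ₗ η) = LinearMap.trace K L.V (ξ ∘ₗ θ ∘ₗ η) := by
  have h0 : LinearMap.trace K L.V (ξ ∘ₗ (cj U U g θ - θ) ∘ₗ η) = 0 := by
    rw [LinearMap.trace_comp_comm', LinearMap.comp_assoc]
    refine key H _ _ θ (tr_diff H g θ hθ) ?_ hθ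
    intro h hh v
    simp only [LinearMap.comp_apply]
    rw [hξ h hh, hη h hh]
  have h1 : ξ ∘ₗ (cj U U g θ - θ) ∘ₗ η = ξ ∘ₗ cj U U g θ ∘ₗ η - ξ ∘ₗ θ ∘ₗ η := by
    refine LinearMap.ext fun v => ?_
    simp
  rw [h1, map_sub] at h0
  exact sub_eq_zero.1 h0

/-- invariance of the pairing -/
lemma pair_inv (H : Subgroup E) {U L : Mo K E} (g : E) (θ : U.V →ₗ[K] U.V)
    (hθ : trH H U U θ = LinearMap.id) (ξ : U.V →ₗ[K] L.V) (hξ : IsHOn H U L ξ)
    (η : L.V →ₗ[K] U.V) (hη : IsHOn H L U η) :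
    LinearMap.trace K L.V (cj U L g ξ ∘ₗ θ ∘ₗ η) =
      LinearMap.trace K L.V (ξ ∘ₗ θ ∘ₗ cj L U g⁻¹ η) := by
  have hη' : IsHOn H L U (cj L U g⁻¹ η) := by
    refine on_of_cj fun h hh => ?_
    rw [← cj_mul, mul_comm, cj_mul, cj_of_on hη hh]
  have h1 : cj U L g ξ ∘ₗ θ ∘ₗ η = cj L L g (ξ ∘ₗ cj U U g⁻¹ θ ∘ₗ cj L U g⁻¹ η) := by
    rw [cj_comp L U L, cj_comp L U U, ← cj_mul, ← cj_mul, mul_inv_cancel, cj_one, cj_one]
  rw [h1, trace_cj, pair_theta H g⁻¹ θ hθ ξ hξ _ hη']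

end CWAux

open CWAux

variable {K : Type} [Field K] {E : Type} [CommGroup E] [Finite E]

theorem pair_exists (E' : Subgroup E) (g : E)
    (hgen : ∀ e : E, ∃ n : ℕ, ∃ e' ∈ E', e = g ^ n * e') {U L : Mo K E} (θ : U.V →ₗ[K] U.V)
    (hθ : trH E' U U θ = LinearMap.id) (ξ : U.V →ₗ[K] L.V) (hξ : IsHOn E' U L ξ)
    (hb : ξ ∉ Bd E' g U L) :
    ∃ η : L.V →ₗ[K] U.V, IsH L U η ∧ LinearMap.trace K L.V (ξ ∘ₗ θ ∘ₗ η) ≠ 0 := by
  obtain ⟨φ, hφ, hker⟩ := Submodule.exists_le_ker_of_notMem hb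
  obtain ⟨η₀, hη₀⟩ := exists_trace φ
  have hη : IsHOn E' L U (trH E' L U η₀) := trH_isHOn E' η₀
  have hval : ∀ ξ' : U.V →ₗ[K] L.V, IsHOn E' U L ξ' →
      LinearMap.trace K L.V (ξ' ∘ₗ θ ∘ₗ trH E' L U η₀) = φ ξ' := by
    intro ξ' hξ'
    rw [← LinearMap.comp_assoc, trace_move, trH_comp_l E' θ ξ' hξ', hθ, LinearMap.comp_id, hη₀]
  refine ⟨trH E' L U η₀, ?_, by rw [hval ξ hξ]; exact hφ⟩
  have hg : cj L U g⁻¹ (trH E' L U η₀) = trH E' L U η₀ := by
    have hη' : IsHOn E' L U (cj L U g⁻¹ (trH E' L U η₀)) := by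
      refine on_of_cj fun h hh => ?_
      rw [← cj_mul, mul_comm, cj_mul, cj_of_on hη hh]
    have hd : IsHOn E' L U (cj L U g⁻¹ (trH E' L U η₀) - trH E' L U η₀) := by
      intro h hh v
      simp only [LinearMap.sub_apply, map_sub]
      rw [hη' h hh, hη h hh]
    have hz : ∀ ξ' : U.V →ₗ[K] L.V, IsHOn E' U L ξ' →
        LinearMap.trace K L.V (ξ' ∘ₗ θ ∘ₗ (cj L U g⁻¹ (trH E' L U η₀) - trH E' L U η₀)) = 0 := by
      intro ξ' hξ'
      have h1 : ξ' ∘ₗ θ ∘ₗ (cj L U g⁻¹ (trH E' L U η₀) - trH E' L U η₀) =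
          ξ' ∘ₗ θ ∘ₗ cj L U g⁻¹ (trH E' L U η₀) - ξ' ∘ₗ θ ∘ₗ trH E' L U η₀ := by
        refine LinearMap.ext fun v => ?_
        simp
      rw [h1, map_sub, ← pair_inv E' g θ hθ ξ' hξ' _ hη]
      have hcξ : IsHOn E' U L (cj U L g ξ') := by
        refine on_of_cj fun h hh => ?_
        rw [← cj_mul, mul_comm, cj_mul, cj_of_on hξ' hh]
      rw [hval _ hcξ, hval _ hξ', ← map_sub]
      have hm : cj U L g ξ' - ξ' ∈ Bd E' g U L := ⟨ξ', hξ', rfl⟩
      exact hker hm
    have h0 : cj L U g⁻¹ (trH E' L U η₀) - trH E' L U η₀ = 0 := by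
      refine eq_zero_of_trace _ fun ξ₀ => ?_
      have h2 := hz (trH E' U L ξ₀) (trH_isHOn E' ξ₀)
      rw [LinearMap.trace_comp_comm', trace_move, trH_comp_r E' θ _ hd, hθ,
        LinearMap.id_comp] at h2
      rw [LinearMap.trace_comp_comm']
      exact h2
    exact sub_eq_zero.1 h0
  have hg' : cj L U g (trH E' L U η₀) = trH E' L U η₀ := by
    conv_lhs => rw [← hg]
    rw [← cj_mul, mul_inv_cancel, cj_one]
  rw [isH_iff_cj]
  intro e
  obtain ⟨n, e', he', rfl⟩ := hgen e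
  rw [cj_mul, cj_of_on hη he']
  induction n with
  | zero => rw [pow_zero, cj_one]
  | succ n ih => rw [pow_succ, cj_mul, hg', ih]

theorem pair_nat (E' : Subgroup E) {A U L : Mo K E} (θA : A.V →ₗ[K] A.V) (θU : U.V →ₗ[K] U.V)
    (hA : trH E' A A θA = LinearMap.id) (hU : trH E' U U θU = LinearMap.id)
    (ξ : U.V →ₗ[K] L.V) (hξ : IsHOn E' U L ξ) (β : A.V →ₗ[K] U.V) (hβ : IsHOn E' A U β)
    (ι : L.V →ₗ[K] A.V) (hι : IsHOn E' L A ι) :
    LinearMap.trace K L.V (ξ ∘ₗ β ∘ₗ θA ∘ₗ ι) = LinearMap.trace K L.V (ξ ∘ₗ θU ∘ₗ β ∘ₗ ι) := by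
  have h1 : LinearMap.trace K L.V (ξ ∘ₗ β ∘ₗ θA ∘ₗ ι) =
      LinearMap.trace K U.V (trH E' U U θU ∘ₗ (β ∘ₗ θA ∘ₗ ι ∘ₗ ξ)) := by
    rw [hU, LinearMap.id_comp, LinearMap.trace_comp_comm']
    congr 1
  have h2 : trH E' U U (β ∘ₗ θA ∘ₗ ι ∘ₗ ξ) = β ∘ₗ ι ∘ₗ ξ := by
    rw [trH_comp_l E' _ β hβ]
    have h3 : IsHOn E' U A (ι ∘ₗ ξ) := by
      intro h hh v
      simp only [LinearMap.comp_apply]
      rw [hξ h hh, hι h hh]
    rw [trH_comp_r E' θA (ι ∘ₗ ξ) h3, hA, LinearMap.id_comp]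
  rw [h1, LinearMap.trace_comp_comm', trace_move, h2, LinearMap.trace_comp_comm',
    ← LinearMap.comp_assoc, ← LinearMap.comp_assoc, LinearMap.trace_comp_comm']
  rfl

theorem pair_bd (E' : Subgroup E) (g : E) {U L : Mo K E} (θ : U.V →ₗ[K] U.V)
    (hθ : trH E' U U θ = LinearMap.id) (ξ : U.V →ₗ[K] L.V) (hξ : ξ ∈ Bd E' g U L)
    (η : L.V →ₗ[K] U.V) (hη : IsH L U η) : LinearMap.trace K L.V (ξ ∘ₗ θ ∘ₗ η) = 0 := by
  obtain ⟨ξ', hξ', rfl⟩ := hξ
  have h1 : (cj U L g ξ' - ξ') ∘ₗ θ ∘ₗ η = cj U L g ξ' ∘ₗ θ ∘ₗ η - ξ' ∘ₗ θ ∘ₗ η := by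
    refine LinearMap.ext fun v => ?_
    simp
  rw [h1, map_sub, pair_inv E' g θ hθ ξ' hξ' η (hη.on E'), cj_isH hη, sub_self]

/-- an endomorphism commuting with `g` and killing the `g`-fixed vectors is in the image of `g-1`
when the fixed space of `g` is one-dimensional (unipotent case) -/
theorem scalar_plus_bd {p : ℕ} [Fact p.Prime] [CharP K p] (g : E) (hg : g ^ p = 1) (D : Mo K E)
    (hD : finrank K D.V < p) (hD0 : 0 < finrank K D.V)
    (h1 : ∀ v w : D.V, D.ρ g v = v → D.ρ g w = w → v ≠ 0 → ∃ c : K, w = c • v)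
    (f : D.V →ₗ[K] D.V) (hf : f ∘ₗ D.ρ g = D.ρ g ∘ₗ f) :
    ∃ (t : K) (f₁ : D.V →ₗ[K] D.V), f = t • LinearMap.id + (cj D D g f₁ - f₁) := by
  classical
  set N : Module.End K D.V := D.ρ g - 1 with hN
  have hNp : N ^ p = 0 := by
    have hp : ((D.ρ g : Module.End K D.V) - 1) ^ p = (D.ρ g) ^ p - 1 ^ p := by
      haveI : CharP (Module.End K D.V) p := by
        haveI : Nontrivial D.V := Module.finrank_pos_iff.1 hD0
        exact charP_of_injective_algebraMap (algebraMap K (Module.End K D.V)).injective p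
      exact sub_pow_char_of_commute p (Commute.one_right _)
    rw [hN, hp, ← map_pow, hg, map_one, one_pow, sub_self]
  haveI : Nontrivial D.V := Module.finrank_pos_iff.1 hD0
  -- a fixed vector
  obtain ⟨v, hv0, hv⟩ : ∃ v : D.V, v ≠ 0 ∧ D.ρ g v = v := by
    by_contra hcon
    push Not at hcon
    have hinj : Function.Injective N := by
      rw [injective_iff_map_eq_zero]
      intro w hw
      by_contra hw0
      refine hcon w hw0 ?_
      have : D.ρ g w - w = 0 := hw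
      exact sub_eq_zero.1 this
    have hpow : ∀ n : ℕ, Function.Injective (N ^ n : Module.End K D.V) := by
      intro n
      induction n with
      | zero => intro a b hab; simpa using hab
      | succ n ih =>
        intro a b hab
        rw [pow_succ, Module.End.mul_apply, Module.End.mul_apply] at hab
        exact hinj (ih hab)
    obtain ⟨w, hw⟩ := exists_ne (0 : D.V)
    refine hw (hpow p ?_)
    rw [hNp]
    simp
  have hfg : ∀ w : D.V, f (D.ρ g w) = D.ρ g (f w) := fun w => LinearMap.congr_fun hf w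
  obtain ⟨t, ht⟩ := h1 v (f v) hv (by rw [← hfg, hv]) hv0
  refine ⟨t, ?_⟩
  set f' : D.V →ₗ[K] D.V := f - t • LinearMap.id with hf'
  have hf'g : ∀ w : D.V, f' (D.ρ g w) = D.ρ g (f' w) := by
    intro w
    simp [hf', hfg]
  have hf'k : ∀ w : D.V, D.ρ g w = w → f' w = 0 := by
    intro w hw
    obtain ⟨c, rfl⟩ := h1 v w hv hw hv0
    have : f' v = 0 := by
      simp [hf', ht]
    rw [map_smul, this, smul_zero]
  -- the range of `cj g - 1`
  let R : Submodule K (D.V →ₗ[K] D.V) :=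
    { carrier := {a | ∃ b : D.V →ₗ[K] D.V, a = cj D D g b - b}
      zero_mem' := ⟨0, by
        refine LinearMap.ext fun v => ?_
        simp [cj]⟩
      add_mem' := by
        rintro a b ⟨c, rfl⟩ ⟨d, rfl⟩
        exact ⟨c + d, by rw [cj_add]; abel⟩
      smul_mem' := by
        rintro c a ⟨b, rfl⟩
        exact ⟨c • b, by rw [cj_smul, smul_sub]⟩ }
  have hmem : f' ∈ R := by
    by_contra hnot
    obtain ⟨φ, hφ, hker⟩ := Submodule.exists_le_ker_of_notMem hnot
    obtain ⟨ψ, hψ⟩ := exists_trace φ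
    have hcomm : cj D D g⁻¹ ψ = ψ := by
      refine sub_eq_zero.1 (eq_zero_of_trace _ fun a => ?_)
      have h2 : φ (cj D D g a - a) = 0 := hker ⟨a, rfl⟩
      rw [map_sub, hψ, hψ] at h2
      have h3 : LinearMap.trace K D.V (cj D D g a ∘ₗ ψ) =
          LinearMap.trace K D.V (a ∘ₗ cj D D g⁻¹ ψ) := by
        rw [← trace_cj D g (a ∘ₗ cj D D g⁻¹ ψ), cj_comp D D D, ← cj_mul, mul_inv_cancel, cj_one]
      have h4 : a ∘ₗ (cj D D g⁻¹ ψ - ψ) = a ∘ₗ cj D D g⁻¹ ψ - a ∘ₗ ψ := by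
        refine LinearMap.ext fun v => ?_
        simp
      rw [h4, map_sub, ← h3]
      exact h2
    have hψg : ∀ w : D.V, ψ (D.ρ g w) = D.ρ g (ψ w) := by
      intro w
      have h2 := LinearMap.congr_fun hcomm w
      simp only [cj, LinearMap.comp_apply, inv_inv] at h2
      rw [← h2, rho_self_inv]
    -- `a = f' ψ` is nilpotent
    set a : Module.End K D.V := f' ∘ₗ ψ with ha
    have hag : ∀ w : D.V, a (N w) = N (a w) := by
      intro w
      change f' (ψ (D.ρ g w - w)) = D.ρ g (f' (ψ w)) - f' (ψ w)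
      rw [map_sub, map_sub, hψg, hf'g]
    have hak : ∀ w : D.V, N w = 0 → a w = 0 := by
      intro w hw
      have hw' : D.ρ g w = w := sub_eq_zero.1 hw
      refine hf'k _ ?_
      rw [← hψg, hw']
    have hnil : ∀ n : ℕ, ∀ w : D.V, (N ^ n : Module.End K D.V) w = 0 →
        (a ^ n : Module.End K D.V) w = 0 := by
      intro n
      induction n with
      | zero => intro w hw; simpa using hw
      | succ n ih =>
        intro w hw
        rw [pow_succ, Module.End.mul_apply]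
        refine ih _ ?_
        have hc : ∀ m : ℕ, ∀ w : D.V, (N ^ m : Module.End K D.V) (a w) =
            a ((N ^ m : Module.End K D.V) w) := by
          intro m
          induction m with
          | zero => intro w; simp
          | succ m ihm =>
            intro w
            rw [pow_succ', Module.End.mul_apply, Module.End.mul_apply, ihm, hag]
        rw [hc]
        refine hak _ ?_
        rw [pow_succ', Module.End.mul_apply] at hw
        exact hw
    have hnilp : IsNilpotent a := ⟨p, by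
      refine LinearMap.ext fun w => ?_
      rw [hnil p w (by rw [hNp]; simp)]
      simp⟩
    have htr := (LinearMap.isNilpotent_trace_of_isNilpotent hnilp).eq_zero
    exact hφ (by rw [hψ]; exact htr)
  obtain ⟨f₁, hf₁⟩ := hmem
  exact ⟨f₁, by rw [← hf₁, hf']; abel⟩

end Pool.Agent.GamI
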