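import Pool.Agent.GamI.CN
import Pool.Agent.GamI.CL
import Pool.Agent.GamI.CW

/-! # CO: `λ · Hom(A_c, L_c)` is at most one-dimensional -/

set_option autoImplicit false

open scoped TensorProduct
open Module Polynomial

noncomputable section

namespace Pool.Agent.GamI

variable {p : ℕ} [Fact p.Prime] {K : Type} [Field K] [CharP K p] {E : Type} [CommGroup E] [Finite E]

/-- the leading coefficient -/
private def cqCO {K : Type} [Field K] {E : Type} [Group E] (q : ℕ)
    (lam : E →* Multiplicative K) : (Pm q lam).V →ₗ[K] K where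
  toFun f := f.1.coeff (q - 1)
  map_add' f g := by
    change (f.1 + g.1).coeff (q - 1) = _
    simp
  map_smul' c f := by
    change (c • f.1).coeff (q - 1) = _
    simp

private lemma coeff_taylor_CO {K : Type} [Field K] (q : ℕ) (hq : 0 < q) (t : K) (f : K[X])
    (hf : f ∈ degreeLT K q) : (taylor t f).coeff (q - 1) = f.coeff (q - 1) := by
  have hd : f.natDegree ≤ q - 1 := by
    rw [mem_degreeLT] at hf
    by_cases h0 : f = 0
    · simp [h0]
    · have := (natDegree_lt_iff_degree_lt h0).2 hf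
      omega
  rcases Nat.lt_or_ge f.natDegree (q - 1) with h | h
  · rw [coeff_eq_zero_of_natDegree_lt h, coeff_eq_zero_of_natDegree_lt]
    rwa [natDegree_taylor]
  · have he : f.natDegree = q - 1 := le_antisymm hd h
    have := leadingCoeff_taylor (r := t) (f := f)
    rw [leadingCoeff, leadingCoeff, natDegree_taylor, he] at this
    exact this

private lemma cq_rho_CO {K : Type} [Field K] {E : Type} [Group E] (q : ℕ) (hq : 0 < q)
    (lam : E →* Multiplicative K) (e : E) (f : (Pm q lam).V) :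
    cqCO q lam ((Pm q lam).ρ e f) = cqCO q lam f :=
  coeff_taylor_CO q hq _ f.1 f.2

private lemma ellq_isH_CO {K : Type} [Field K] {E : Type} [Group E] (q : ℕ) (hq : 0 < q)
    (lam : E →* Multiplicative K) : IsH (Pm q lam) (Pm q lam) (ellq K q hq) := by
  intro e f
  apply Subtype.ext
  change C (((taylor (lam e).toAdd f.1) : K[X]).coeff (q - 1)) =
    taylor (lam e).toAdd (C (f.1.coeff (q - 1)))
  rw [coeff_taylor_CO q hq _ f.1 f.2, taylor_C]

/-- the map `f ⊗ b ↦ coeff_{q-1}(f) vac (f₀ (top b))` -/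
private def LamCO {K : Type} [Field K] {E : Type} [Group E] (q : ℕ)
    (lam : E →* Multiplicative K) {Z B L : Mo K E} (vac : Z.V →ₗ[K] L.V) (top : B.V →ₗ[K] Z.V)
    (f₀ : Z.V →ₗ[K] Z.V) : ((Pm q lam).tens B).V →ₗ[K] L.V :=
  (TensorProduct.lid K L.V).toLinearMap ∘ₗ TensorProduct.map (cqCO q lam) (vac ∘ₗ f₀ ∘ₗ top)

/-- pure tensors -/
private def tmCO {K : Type} [Field K] {E : Type} [Group E] {A B : Mo K E} (a : A.V) (b : B.V) :
    (A.tens B).V := a ⊗ₜ[K] b

private lemma extCO {K : Type} [Field K] {E : Type} [Group E] {A B L : Mo K E}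
    {f g : (A.tens B).V →ₗ[K] L.V} (h : ∀ a b, f (tmCO a b) = g (tmCO a b)) : f = g :=
  TensorProduct.ext' h

private lemma LamCO_tmul {K : Type} [Field K] {E : Type} [Group E] (q : ℕ)
    (lam : E →* Multiplicative K) {Z B L : Mo K E} (vac : Z.V →ₗ[K] L.V) (top : B.V →ₗ[K] Z.V)
    (f₀ : Z.V →ₗ[K] Z.V) (f : (Pm q lam).V) (b : B.V) :
    LamCO q lam vac top f₀ (tmCO f b) = cqCO q lam f • vac (f₀ (top b)) := rfl

private lemma LamCO_sub {K : Type} [Field K] {E : Type} [Group E] (q : ℕ)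
    (lam : E →* Multiplicative K) {Z B L : Mo K E} (vac : Z.V →ₗ[K] L.V) (top : B.V →ₗ[K] Z.V)
    (f₀ f₁ : Z.V →ₗ[K] Z.V) :
    LamCO q lam vac top (f₀ - f₁) = LamCO q lam vac top f₀ - LamCO q lam vac top f₁ := by
  apply extCO
  intro f b
  rw [LinearMap.sub_apply, LamCO_tmul, LamCO_tmul, LamCO_tmul]
  simp [smul_sub]

private lemma LamCO_smul {K : Type} [Field K] {E : Type} [Group E] (q : ℕ)
    (lam : E →* Multiplicative K) {Z B L : Mo K E} (vac : Z.V →ₗ[K] L.V) (top : B.V →ₗ[K] Z.V)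
    (t : K) (f₀ : Z.V →ₗ[K] Z.V) :
    LamCO q lam vac top (t • f₀) = t • LamCO q lam vac top f₀ := by
  apply extCO
  intro f b
  rw [LinearMap.smul_apply, LamCO_tmul, LamCO_tmul]
  simp only [LinearMap.smul_apply, map_smul]
  rw [smul_comm]

private lemma LamCO_inj {K : Type} [Field K] {E : Type} [Group E] (q : ℕ)
    (lam : E →* Multiplicative K) {Z B L : Mo K E} (vac : Z.V →ₗ[K] L.V)
    (hv : Function.Injective vac) (top : B.V →ₗ[K] Z.V)
    (ht : Function.Surjective top) (tp : (Pm q lam).V) (htp : cqCO q lam tp = 1)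
    (f₀ f₁ : Z.V →ₗ[K] Z.V) (h : LamCO q lam vac top f₀ = LamCO q lam vac top f₁) : f₀ = f₁ := by
  ext z
  obtain ⟨b, rfl⟩ := ht z
  have := congrArg (fun F => F (tmCO tp b)) h
  simp only [LamCO_tmul, htp, one_smul] at this
  exact hv this

private lemma LamCO_cj {K : Type} [Field K] {E : Type} [Group E] (q : ℕ) (hq : 0 < q)
    (lam : E →* Multiplicative K) {Z B L : Mo K E} (vac : Z.V →ₗ[K] L.V) (hvac : IsH Z L vac)
    (top : B.V →ₗ[K] Z.V) (htop : IsH B Z top) (f₀ : Z.V →ₗ[K] Z.V) (g : E) :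
    cj ((Pm q lam).tens B) L g (LamCO q lam vac top f₀) = LamCO q lam vac top (cj Z Z g f₀) := by
  apply extCO
  intro f b
  change L.ρ g (LamCO q lam vac top f₀ (tmCO ((Pm q lam).ρ g⁻¹ f) (B.ρ g⁻¹ b))) = _
  rw [LamCO_tmul, LamCO_tmul, cq_rho_CO q hq, htop g⁻¹ b, map_smul, ← hvac g]
  rfl

private lemma LamCO_on {K : Type} [Field K] {E : Type} [Group E] (q : ℕ) (hq : 0 < q)
    (lam : E →* Multiplicative K) {Z B L : Mo K E} (vac : Z.V →ₗ[K] L.V) (hvac : IsH Z L vac)
    (top : B.V →ₗ[K] Z.V) (htop : IsH B Z top) (f₀ : Z.V →ₗ[K] Z.V) (E' : Subgroup E)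
    (hZ : ∀ e ∈ E', Z.ρ e = LinearMap.id) :
    IsHOn E' ((Pm q lam).tens B) L (LamCO q lam vac top f₀) := by
  intro e he v
  have hcj := LamCO_cj q hq lam vac hvac top htop f₀ e
  have h1 : cj Z Z e f₀ = f₀ := by
    rw [cj, hZ e he, hZ e⁻¹ (E'.inv_mem he)]
    rfl
  rw [h1] at hcj
  have h2 : L.ρ e (LamCO q lam vac top f₀ (((Pm q lam).tens B).ρ e⁻¹
      (((Pm q lam).tens B).ρ e v))) = LamCO q lam vac top f₀ (((Pm q lam).tens B).ρ e v) :=
    congrArg (fun F => F (((Pm q lam).tens B).ρ e v)) hcj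
  rw [← h2]
  congr 2
  rw [← Module.End.mul_apply, ← map_mul]
  simp

private lemma fix_CO (b : ℕ) (hb' : b < p) (t : K) (ht : t ≠ 0) (f : K[X]) (hf : f ∈ degreeLT K b)
    (h : taylor t f = f) : f = C (f.coeff 0) := by
  have hp := Fact.out (p := p.Prime)
  by_cases h0 : f.natDegree = 0
  · exact eq_C_of_natDegree_eq_zero h0
  · exfalso
    have hf0 : f ≠ 0 := by
      rintro rfl
      exact h0 natDegree_zero
    have hd : f.natDegree < b := (natDegree_lt_iff_degree_lt hf0).2 (mem_degreeLT.1 hf)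
    set d := f.natDegree with hdd
    have h1 : (taylor t f).coeff (d - 1) = f.coeff (d - 1) + (d : K) * t * f.coeff d := by
      have hf' : f = ∑ i ∈ Finset.range (d + 1), monomial i (f.coeff i) :=
        as_sum_range f
      have h2 : (taylor t f).coeff (d - 1) = ∑ i ∈ Finset.range (d + 1),
          f.coeff i * (t ^ (i - (d - 1)) * (i.choose (d - 1) : K)) := by
        conv_lhs => rw [hf']
        rw [map_sum, finsetSum_coeff]
        refine Finset.sum_congr rfl fun i _ => ?_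
        rw [taylor_monomial, coeff_C_mul, coeff_X_add_C_pow]
      rw [h2]
      obtain ⟨e, he⟩ : ∃ e, d = e + 1 := ⟨d - 1, by omega⟩
      rw [he, Finset.sum_range_succ, Finset.sum_range_succ, Finset.sum_eq_zero]
      · simp only [Nat.add_sub_cancel, Nat.sub_self, pow_zero, Nat.choose_self, Nat.cast_one,
          mul_one, zero_add]
        rw [Nat.choose_succ_self_right]
        have : e + 1 - e = 1 := by omega
        rw [this]
        push_cast
        ring
      · intro i hi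
        rw [Nat.choose_eq_zero_of_lt]
        · simp
        · have := Finset.mem_range.1 hi
          omega
    rw [h] at h1
    have h2 : (d : K) * t * f.coeff d = 0 := by
      have := h1
      linear_combination -this
    have h3 : (d : K) ≠ 0 := by
      intro h4
      rw [CharP.cast_eq_zero_iff K p] at h4
      exact absurd (Nat.le_of_dvd (Nat.pos_of_ne_zero h0) h4) (by omega)
    have h5 : f.coeff d ≠ 0 := by
      rw [hdd]
      exact leadingCoeff_ne_zero.2 hf0
    exact (mul_ne_zero (mul_ne_zero h3 ht) h5) h2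

private lemma one_dim_aux (lam : E →* Multiplicative K) (hlam : Function.Injective lam)
    (E' : Subgroup E) (g : E) (y : E →* Multiplicative K) (q : ℕ) (hE' : Nat.card E' = q)
    (hy : ∀ e, y e = 1 ↔ e ∈ E') (hg : g ∉ E') (hq : 0 < q) (b : ℕ) (hb : 1 ≤ b)
    (hb' : b < p) (B L : Mo K E) (vL : (Pm b y).V →ₗ[K] L.V) (tL : L.V →ₗ[K] (Pm b y).V)
    (vB : (Pm b y).V →ₗ[K] B.V) (tB : B.V →ₗ[K] (Pm b y).V)
    (hvL : IsH (Pm b y) L vL) (htL : IsH L (Pm b y) tL) (ivL : Function.Injective vL)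
    (hvB : IsH (Pm b y) B vB) (htB : IsH B (Pm b y) tB) (stB : Function.Surjective tB)
    (NL NB : ℕ) (hdeg : NL + NB = q - 1)
    (pL : PolyAct E' lam L NL (vL ∘ₗ tL)) (pB : PolyAct E' lam B NB (vB ∘ₗ tB)) :
    ∃ ω : ((Pm q lam).tens B).V →ₗ[K] L.V,
      IsHOn E' ((Pm q lam).tens B) L ω ∧
      ∀ ζ : ((Pm q lam).tens B).V →ₗ[K] L.V,
        IsH ((Pm q lam).tens B) L ζ →
        ∃ t : K, ζ ∘ₗ ellA q hq lam B - t • ω ∈ Bd E' g ((Pm q lam).tens B) L := by
  have hZ : ∀ e ∈ E', (Pm b y).ρ e = LinearMap.id := by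
    intro e he
    have h1 : y e = 1 := (hy e).2 he
    change (P K b).ρ (y e) = _
    rw [h1, map_one]
    rfl
  let one : (Pm q lam).V := ⟨1, by
    rw [mem_degreeLT]
    exact lt_of_le_of_lt degree_one_le (by exact_mod_cast hq)⟩
  let top : (Pm q lam).V := ⟨X ^ (q - 1), by
    rw [mem_degreeLT, degree_X_pow]
    exact_mod_cast (by omega : q - 1 < q)⟩
  have htop : cqCO q lam top = 1 := by
    change ((X : K[X]) ^ (q - 1)).coeff (q - 1) = 1
    simp
  refine ⟨LamCO q lam vL tB LinearMap.id, LamCO_on q hq lam vL hvL tB htB _ E' hZ, ?_⟩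
  intro ζ hζ
  -- the operator ψ
  let ψ : (Pm b y).V →ₗ[K] (Pm b y).V := (-1 : K) ^ NB • (tL ∘ₗ ζ ∘ₗ
    (TensorProduct.mk K (Pm q lam).V B.V top) ∘ₗ vB)
  have hmain : ζ ∘ₗ ellA q hq lam B = LamCO q lam vL tB ψ := by
    apply extCO
    intro f c
    rw [LamCO_tmul]
    have h1 : ellA q hq lam B (tmCO f c) = (cqCO q lam f) • (tmCO one c) := by
      have h3 : ellq K q hq f = (cqCO q lam f) • one := by
        apply Subtype.ext
        change C (f.1.coeff (q - 1)) = (f.1.coeff (q - 1)) • (1 : K[X])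
        rw [smul_eq_C_mul, mul_one]
      have h5 : ∀ (r : K) (u : (Pm q lam).V), tmCO (r • u) c = r • tmCO (B := B) u c :=
        fun r u => (TensorProduct.smul_tmul' r u c).symm
      rw [← h5, ← h3]
      rfl
    rw [LinearMap.comp_apply, h1]
    have h2 : ζ (tmCO one c) = (-1 : K) ^ NB • (vL ∘ₗ tL) (ζ (tmCO top ((vB ∘ₗ tB) c))) :=
      top_formula E' lam hlam q hq hE' pB pL (by omega) ζ (fun e _ v => hζ e v) c one top
      rfl rfl
    rw [map_smul, h2]
    have h4 : ψ (tB c) = (-1 : K) ^ NB • tL (ζ (tmCO top (vB (tB c)))) := rfl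
    rw [h4, map_smul]
    rfl
  have hcomm : cj (Pm b y) (Pm b y) g ψ = ψ := by
    apply LamCO_inj q lam vL ivL tB stB top htop
    rw [← LamCO_cj q hq lam vL hvL tB htB ψ g, ← hmain]
    apply cj_isH
    exact IsH.comp hζ (IsH.rT (ellq_isH_CO q hq lam) B)
  have hcomm' : ψ ∘ₗ (Pm b y).ρ g = (Pm b y).ρ g ∘ₗ ψ := by
    have h1 := congrArg (fun F => F ∘ₗ (Pm b y).ρ g) hcomm
    have h2 : (Pm b y).ρ g⁻¹ ∘ₗ (Pm b y).ρ g = LinearMap.id := by
      change (Pm b y).ρ g⁻¹ * (Pm b y).ρ g = 1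
      rw [← map_mul, inv_mul_cancel, map_one]
    have h3 : ((Pm b y).ρ g ∘ₗ ψ ∘ₗ (Pm b y).ρ g⁻¹) ∘ₗ (Pm b y).ρ g = (Pm b y).ρ g ∘ₗ ψ := by
      rw [LinearMap.comp_assoc, LinearMap.comp_assoc, h2, LinearMap.comp_id]
    exact h1.symm.trans h3
  have hgp : g ^ p = 1 := by
    apply hlam
    rw [map_pow, map_one]
    apply Multiplicative.toAdd.injective
    rw [toAdd_pow, toAdd_one, nsmul_eq_mul, CharP.cast_eq_zero, zero_mul]
  have hfr : finrank K (Pm b y).V = b := by
    have := (degreeLTEquiv K b).finrank_eq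
    rw [Module.finrank_fin_fun] at this
    exact this
  have hyg : (y g).toAdd ≠ 0 := by
    intro h
    apply hg
    rw [← hy]
    exact Multiplicative.toAdd.injective h
  obtain ⟨t, f₁, hf₁⟩ := scalar_plus_bd (p := p) g hgp (Pm b y) (by rw [hfr]; exact hb')
    (by rw [hfr]; omega) (by
      intro v w hv hw hv0
      have hv1 : (v.1 : K[X]) = C (v.1.coeff 0) :=
        fix_CO (p := p) b hb' _ hyg v.1 v.2 (congrArg Subtype.val hv)
      have hw1 : (w.1 : K[X]) = C (w.1.coeff 0) :=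
        fix_CO (p := p) b hb' _ hyg w.1 w.2 (congrArg Subtype.val hw)
      have hv2 : v.1.coeff 0 ≠ 0 := by
        intro h
        apply hv0
        apply Subtype.ext
        rw [hv1, h, C_0]
        rfl
      refine ⟨w.1.coeff 0 / v.1.coeff 0, ?_⟩
      apply Subtype.ext
      change w.1 = (w.1.coeff 0 / v.1.coeff 0) • v.1
      have h5 : (w.1.coeff 0 / v.1.coeff 0) • v.1 =
          (w.1.coeff 0 / v.1.coeff 0) • C (v.1.coeff 0) := congrArg _ hv1
      rw [h5, smul_C, smul_eq_mul, div_mul_cancel₀ _ hv2]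
      exact hw1) ψ hcomm'
  refine ⟨t, LamCO q lam vL tB f₁, LamCO_on q hq lam vL hvL tB htB _ E' hZ, ?_⟩
  rw [hmain, LamCO_cj q hq lam vL hvL tB htB f₁ g, ← LamCO_sub, ← LamCO_smul,
    ← LamCO_sub]
  congr 1
  rw [hf₁]
  abel

theorem one_dim (lam : E →* Multiplicative K) (hlam : Function.Injective lam) (m : ℕ)
    (E' : Subgroup E) (g : E) (y : E →* Multiplicative K) (hE' : Nat.card E' = p ^ m)
    (hE : Nat.card E = p ^ (m + 1))
    (hy : ∀ e, y e = 1 ↔ e ∈ E') (hg : g ∉ E') (hq : 0 < p ^ m)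
    (cs : List ℕ) (hl : cs.length = m) (hcs : ∀ c ∈ cs, 1 ≤ c ∧ c ≤ p) (b : ℕ) (hb : 1 ≤ b)
    (hb' : b < p) :
    ∃ ω : ((Pm (p ^ m) lam).tens (Lm p (compl p cs) lam (Pm b y))).V →ₗ[K]
        (Lm p cs lam (Pm b y)).V,
      IsHOn E' ((Pm (p ^ m) lam).tens (Lm p (compl p cs) lam (Pm b y))) (Lm p cs lam (Pm b y)) ω ∧
      ∀ ζ : ((Pm (p ^ m) lam).tens (Lm p (compl p cs) lam (Pm b y))).V →ₗ[K]
          (Lm p cs lam (Pm b y)).V,
        IsH ((Pm (p ^ m) lam).tens (Lm p (compl p cs) lam (Pm b y))) (Lm p cs lam (Pm b y)) ζ →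
        ∃ t : K, ζ ∘ₗ ellA (p ^ m) hq lam (Lm p (compl p cs) lam (Pm b y)) - t • ω ∈
          Bd E' g ((Pm (p ^ m) lam).tens (Lm p (compl p cs) lam (Pm b y)))
            (Lm p cs lam (Pm b y)) := by
  have hZ : ∀ e ∈ E', (Pm b y).ρ e = LinearMap.id := by
    intro e he
    have h1 : y e = 1 := (hy e).2 he
    change (P K b).ρ (y e) = _
    rw [h1, map_one]
    rfl
  have hcs' : ∀ c ∈ compl p cs, 1 ≤ c := by
    intro c hc
    obtain ⟨d, hd, rfl⟩ := List.mem_map.1 hc
    have := hcs d hd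
    omega
  obtain ⟨vL, tL, hvL, htL, ivL, stL, pL⟩ := vac_top (p := p) cs (fun c hc => (hcs c hc).1) lam
    (Pm b y) E' hZ
  obtain ⟨vB, tB, hvB, htB, ivB, stB, pB⟩ := vac_top (p := p) (compl p cs) hcs' lam
    (Pm b y) E' hZ
  have hdeg := degL_compl (p := p) cs hcs
  rw [hl] at hdeg
  exact one_dim_aux (p := p) lam hlam E' g y (p ^ m) hE' hy hg hq b hb hb' _ _ vL tL vB tB hvL htL
    ivL hvB htB stB _ _ hdeg pL pB

end Pool.Agent.GamI
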