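import Pool.Agent.GamI.CK

/-! # CS: the Frobenius stage lemma -/

set_option autoImplicit false
set_option linter.unusedSectionVars false

open scoped TensorProduct
open Module

noncomputable section

namespace Pool.Agent.GamI

variable {p : ℕ} [Fact p.Prime] {K : Type} [Field K] [CharP K p] {E : Type} [Group E] [Finite E]

namespace CSAux

lemma convex (n : ℕ → ℕ) (h0 : n 0 = 0) (N : ℕ) (h : ∀ j < N, 2 * n (j + 1) ≤ n j + n (j + 2)) :
    ∀ j ≤ N, n 1 + n j ≤ n (j + 1) := by
  intro j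
  induction j with
  | zero => intro _; rw [h0]; exact le_rfl
  | succ j ih =>
    intro hj
    have h1 := ih (by omega)
    have h2 := h j (by omega)
    rw [show j + 1 + 1 = j + 2 from rfl]
    omega

lemma convex' (n : ℕ → ℕ) (h0 : n 0 = 0) (N : ℕ) (h : ∀ j < N, 2 * n (j + 1) ≤ n j + n (j + 2)) :
    ∀ j ≤ N + 1, j * n 1 ≤ n j := by
  intro j
  induction j with
  | zero => intro _; omega
  | succ j ih =>
    intro hj
    have h1 := ih (by omega)
    have h2 := convex n h0 N h j (by omega)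
    rw [Nat.succ_mul]
    omega

lemma nn_zero_of_finrank {K : Type} [Field K] {E : Type} [Group E] [Finite E] (U W : Mo K E)
    (h : finrank K W.V = 0) : nn U W = 0 := by
  have h1 : kk U W = 0 := by
    have h2 : kk U W ≤ finrank K (U.V →ₗ[K] W.V) := Submodule.finrank_le _
    rw [Module.finrank_linearMap, h, mul_zero] at h2
    omega
  have h3 : nn U W ≤ kk U W := Nat.sub_le _ _
  omega

end CSAux

open CSAux

/-- one step of convexity: `2 n(P_j ⊗ L') ≤ n(P_{j-1} ⊗ L') + n(P_{j+1} ⊗ L')` -/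
theorem convex_step (U : Mo K E) (μ : E →* Multiplicative K) {L F L' : Mo K E}
    {f : L.V →ₗ[K] F.V} {g : F.V →ₗ[K] L'.V} (h : IsSES L F L' f g)
    (hF : ∀ W : Mo K E, nn U (W.tens F) = 0) (j : ℕ)
    (hL : Kill U μ ((Pm (j + 1) μ).tens L)) (hL' : Kill U μ ((Pm (j + 1) μ).tens L')) :
    2 * nn U ((Pm (j + 1) μ).tens L') ≤ nn U ((Pm j μ).tens L') + nn U ((Pm (j + 2) μ).tens L') := by
  have h1 := nn_double_V U μ (h.lT (Pm (j + 1) μ)) (hF _)
    (by rw [← nn_iso U (iso_assoc _ _ _)]; exact hF _) hL hL'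
  obtain ⟨a, b, hab⟩ := pses_mult K j
  have h2 := nn_ses ((hab.res μ).rT L') U
  have h3 : nn U ((((P K 2).tens (P K (j + 1))).res μ).tens L') =
      nn U ((Pm 2 μ).tens ((Pm (j + 1) μ).tens L')) :=
    nn_iso U (iso_assoc (Pm 2 μ) (Pm (j + 1) μ) L')
  rw [← h1, ← h3]
  exact h2

theorem stage (U : Mo K E) (μ : E →* Multiplicative K) {L F L' : Mo K E}
    {f : L.V →ₗ[K] F.V} {g : F.V →ₗ[K] L'.V} (h : IsSES L F L' f g)
    (hF : ∀ W : Mo K E, nn U (W.tens F) = 0)
    (hL : ∀ j, 1 ≤ j → j ≤ p → Kill U μ ((Pm j μ).tens L))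
    (hL' : ∀ j, 1 ≤ j → j ≤ p → Kill U μ ((Pm j μ).tens L')) : Kill U (tw p 1 μ) L' := by
  apply kill_of_nn
  have hp : 2 ≤ p := (Fact.out : p.Prime).two_le
  set n : ℕ → ℕ := fun j => nn U ((Pm j μ).tens L') with hn
  have h0 : n 0 = 0 := by
    apply nn_zero_of_finrank
    change finrank K ((P K 0).V ⊗[K] L'.V) = 0
    rw [Module.finrank_tensorProduct, finrank_P_zero, zero_mul]
  have hc : ∀ j < p, 2 * n (j + 1) ≤ n j + n (j + 2) := by
    intro j hj
    exact convex_step U μ h hF j (hL _ (by omega) (by omega)) (hL' _ (by omega) (by omega))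
  have h1 := convex n h0 p hc (p - 1) (by omega)
  have h2 := convex n h0 p hc p le_rfl
  rw [show p - 1 + 1 = p by omega] at h1
  have h3 : n 1 = nn U L' := by
    have e1 : Iso (Pm 1 μ) (triv K E) := (iso_P_one K).res μ
    exact nn_iso U ((e1.tens (Iso.refl L')).trans (iso_triv_tens L'))
  obtain ⟨a, b, hab⟩ := pses_frob p K
  have h4 := nn_ses ((hab.res μ).rT L') U
  have h5 : n (p + 1) ≤ nn U ((Pm 2 (tw p 1 μ)).tens L') + n (p - 1) := h4
  omega

/-- the final stage -/
theorem last_stage (U : Mo K E) (hE : IsPGroup p E) (y : E →* Multiplicative K)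
    (hF : ∀ W : Mo K E, nn U (W.tens (Pm p y)) = 0)
    (hK : ∀ b, 1 ≤ b → b < p → Kill U y (Pm b y)) : Proj U := by
  have hp : 2 ≤ p := (Fact.out : p.Prime).two_le
  set n : ℕ → ℕ := fun j => nn U (Pm j y) with hn
  have h0 : n 0 = 0 := nn_zero_of_finrank _ _ (finrank_P_zero K)
  have hpz : nn U (Pm p y) = 0 := by
    rw [← nn_iso U (iso_triv_tens (Pm p y))]
    exact hF _
  have hc : ∀ j < p - 1, 2 * n (j + 1) ≤ n j + n (j + 2) := by
    intro j hj
    obtain ⟨a, b, hab⟩ := pses_comp p K (j + 1) (by omega)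
    have h1 := nn_double_V U y (hab.res y) hpz (hF _) (hK (p - (j + 1)) (by omega) (by omega))
      (hK (j + 1) (by omega) (by omega))
    obtain ⟨a', b', hab'⟩ := pses_mult K j
    have h2 := nn_ses (hab'.res y) U
    have h3 : nn U ((Pm 2 y).tens (Pm (j + 1) y)) ≤ n j + n (j + 2) := h2
    have h4 : nn U ((Pm 2 y).tens (Pm (j + 1) y)) = 2 * n (j + 1) := h1
    omega
  have h5 := convex' n h0 (p - 1) hc p (by omega)
  have h6 : n p = 0 := hpz
  rw [h6] at h5
  have h7 : n 1 = 0 := by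
    rcases Nat.eq_zero_or_pos (n 1) with h | h
    · exact h
    · have : 0 < p * n 1 := Nat.mul_pos (by omega) h
      omega
  have h8 : nn U (triv K E) = 0 := by
    have e1 : Iso (Pm 1 y) (triv K E) := (iso_P_one K).res y
    rw [← nn_iso U e1]
    exact h7
  exact proj_of_nn U (nn_zero_of_triv hE U h8 U)

end Pool.Agent.GamI
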