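import Pool.Agent.GamI.Defs3
import Pool.Agent.GamI.TE
import Pool.Agent.GamI.TR

/-! # DD: decomposition into modules of local type; the eigenvalue is an algebraic integer -/

set_option autoImplicit false

open scoped TensorProduct
open Module

noncomputable section

namespace Pool.Agent.GamI

variable {K : Type} [Field K] {E : Type} [Group E] [Finite E]

private lemma DD_isH_pow {U : Mo K E} {f : U.V →ₗ[K] U.V} (hf : IsH U U f) (n : ℕ) :
    IsH U U ((f : Module.End K U.V) ^ n) := by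
  induction n with
  | zero =>
      intro g v
      simp
  | succ n ih =>
      intro g v
      rw [pow_succ, Module.End.mul_apply, Module.End.mul_apply, hf g v]
      exact ih g (f v)

/-- Fitting: a nonzero module which is not of local type splits -/
theorem fitting (U : Mo K E) (h0 : 0 < finrank K U.V) (h : ¬ Loc U) :
    ∃ A B : Mo K E, Iso U (A.prod B) ∧ 0 < finrank K A.V ∧ 0 < finrank K B.V := by
  have hnt : Nontrivial U.V := Module.finrank_pos_iff.1 h0
  have h1 : ∃ f : U.V →ₗ[K] U.V, IsH U U f ∧ (∀ n : ℕ, (f : Module.End K U.V) ^ n ≠ 0) ∧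
      ¬ Function.Bijective f := by
    by_contra hcon
    apply h
    refine ⟨hnt, fun f hf => ?_⟩
    by_contra h2
    rw [not_or] at h2
    exact hcon ⟨f, hf, fun n hn => h2.1 ⟨n, hn⟩, h2.2⟩
  obtain ⟨f, hf, hn, hb⟩ := h1
  obtain ⟨N, hN⟩ := Filter.eventually_atTop.1
    (LinearMap.eventually_isCompl_ker_pow_range_pow (f : Module.End K U.V))
  set n := N + 1 with hndef
  have hc : IsCompl (LinearMap.ker ((f : Module.End K U.V) ^ n))
      (LinearMap.range ((f : Module.End K U.V) ^ n)) := hN n (Nat.le_succ N)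
  have hfn := DD_isH_pow hf n
  have hk : ∀ g, LinearMap.ker ((f : Module.End K U.V) ^ n) ≤
      (LinearMap.ker ((f : Module.End K U.V) ^ n)).comap (U.ρ g) := by
    intro g v hv
    rw [Submodule.mem_comap, LinearMap.mem_ker]
    have := hfn g v
    rw [this, LinearMap.mem_ker.1 hv, map_zero]
  have hr : ∀ g, LinearMap.range ((f : Module.End K U.V) ^ n) ≤
      (LinearMap.range ((f : Module.End K U.V) ^ n)).comap (U.ρ g) := by
    rintro g v ⟨w, rfl⟩
    rw [Submodule.mem_comap]
    exact ⟨U.ρ g w, hfn g w⟩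
  refine ⟨U.sub _ hk, U.sub _ hr, ?_, ?_, ?_⟩
  · apply Iso.symm
    refine ⟨Submodule.prodEquivOfIsCompl _ _ hc, ?_⟩
    rintro g ⟨a, b⟩
    change U.ρ g a.1 + U.ρ g b.1 = U.ρ g (a.1 + b.1)
    exact (map_add (U.ρ g) a.1 b.1).symm
  · change 0 < finrank K (LinearMap.ker ((f : Module.End K U.V) ^ n))
    rw [Module.finrank_pos_iff]
    by_contra hc'
    rw [Submodule.nontrivial_iff_ne_bot, not_not, LinearMap.ker_eq_bot] at hc'
    apply hb
    have hi : Function.Injective f := by
      intro x y hxy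
      apply hc'
      rw [hndef, pow_succ, Module.End.mul_apply, Module.End.mul_apply, hxy]
    exact ⟨hi, LinearMap.injective_iff_surjective.1 hi⟩
  · change 0 < finrank K (LinearMap.range ((f : Module.End K U.V) ^ n))
    rw [Module.finrank_pos_iff]
    by_contra hc'
    rw [Submodule.nontrivial_iff_ne_bot, not_not, LinearMap.range_eq_bot] at hc'
    exact hn n hc'

private lemma DD_retr_of_bij {U A : Mo K E} {i : U.V →ₗ[K] A.V} {r : A.V →ₗ[K] U.V}
    (hi : IsH U A i) (hr : IsH A U r) (h : Function.Bijective (r ∘ₗ i)) : Retr U A := by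
  let e : U.V ≃ₗ[K] U.V := LinearEquiv.ofBijective (r ∘ₗ i) h
  have he : IsH U U e.toLinearMap := by
    intro g v
    exact IsH.comp hr hi g v
  refine ⟨i, e.symm.toLinearMap ∘ₗ r, hi, IsH.comp (IsH.symm he) hr, ?_⟩
  ext v
  exact e.symm_apply_apply v

/-- a module of local type which is a retract of a direct sum is a retract of a summand -/
theorem loc_retr_prod (U A B : Mo K E) (hU : Loc U) (h : Retr U (A.prod B)) :
    Retr U A ∨ Retr U B := by
  obtain ⟨i, r, hi, hr, hri⟩ := h
  let iA : U.V →ₗ[K] A.V := (LinearMap.fst K A.V B.V) ∘ₗ i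
  let iB : U.V →ₗ[K] B.V := (LinearMap.snd K A.V B.V) ∘ₗ i
  let rA : A.V →ₗ[K] U.V := r ∘ₗ (LinearMap.inl K A.V B.V)
  let rB : B.V →ₗ[K] U.V := r ∘ₗ (LinearMap.inr K A.V B.V)
  have hiA : IsH U A iA := by
    intro g v
    change (i (U.ρ g v)).1 = _
    rw [hi g v]
    rfl
  have hiB : IsH U B iB := by
    intro g v
    change (i (U.ρ g v)).2 = _
    rw [hi g v]
    rfl
  have hrA : IsH A U rA := by
    intro g v
    change r ((A.ρ g v, 0) : A.V × B.V) = U.ρ g (r ((v, 0) : A.V × B.V))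
    rw [← hr g]
    congr 1
    change _ = ((A.ρ g v, B.ρ g 0) : A.V × B.V)
    rw [map_zero]
  have hrB : IsH B U rB := by
    intro g v
    change r ((0, B.ρ g v) : A.V × B.V) = U.ρ g (r ((0, v) : A.V × B.V))
    rw [← hr g]
    congr 1
    change _ = ((A.ρ g 0, B.ρ g v) : A.V × B.V)
    rw [map_zero]
  have hsum : (rA ∘ₗ iA) + (rB ∘ₗ iB) = LinearMap.id := by
    ext v
    have h1 : r (i v) = v := by
      have := LinearMap.congr_fun hri v
      exact this
    change r (((i v).1, 0) : A.V × B.V) + r ((0, (i v).2) : A.V × B.V) = v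
    have h2 : ∀ x : A.V × B.V, ((x.1, 0) : A.V × B.V) + ((0, x.2) : A.V × B.V) = x := by
      intro x
      ext <;> simp
    have h3 : ∀ x : A.V × B.V, r ((x.1, 0) : A.V × B.V) + r ((0, x.2) : A.V × B.V) = r x := by
      intro x
      have h4 : r (((x.1, 0) : A.V × B.V) + ((0, x.2) : A.V × B.V)) =
          r ((x.1, 0) : A.V × B.V) + r ((0, x.2) : A.V × B.V) :=
        LinearMap.map_add r _ _
      rw [← h4]
      exact congrArg r (h2 x)
    exact (h3 (i v)).trans h1
  rcases hU.2 _ (IsH.comp hrA hiA) with ⟨n, hn⟩ | hb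
  · right
    apply DD_retr_of_bij hiB hrB
    have hnil : IsNilpotent ((rA ∘ₗ iA : U.V →ₗ[K] U.V) : Module.End K U.V) := ⟨n, hn⟩
    have hu : IsUnit (1 - ((rA ∘ₗ iA : U.V →ₗ[K] U.V) : Module.End K U.V)) :=
      IsNilpotent.isUnit_one_sub hnil
    have heq : (1 - ((rA ∘ₗ iA : U.V →ₗ[K] U.V) : Module.End K U.V)) = (rB ∘ₗ iB : U.V →ₗ[K] U.V) := by
      rw [sub_eq_iff_eq_add, add_comm]
      exact hsum.symm
    rw [heq] at hu
    exact (Module.End.isUnit_iff _).1 hu
  · left
    exact DD_retr_of_bij hiA hrA hb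

theorem loc_retr_loc (U A : Mo K E) (hU : Loc U) (hA : Loc A) (h : Retr U A) : Iso U A := by
  obtain ⟨i, r, hi, hr, hri⟩ := h
  have hriv : ∀ v, r (i v) = v := fun v => LinearMap.congr_fun hri v
  have hinj : Function.Injective i := fun x y hxy => by rw [← hriv x, ← hriv y, hxy]
  rcases hA.2 _ (IsH.comp hi hr) with ⟨n, hn⟩ | hb
  · exfalso
    obtain ⟨u, hu⟩ := @exists_ne U.V hU.1 0
    have hpow : ∀ m : ℕ, (((i ∘ₗ r : A.V →ₗ[K] A.V) : Module.End K A.V) ^ m) (i u) = i u := by
      intro m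
      induction m with
      | zero => simp
      | succ m ih =>
          rw [pow_succ, Module.End.mul_apply]
          change (((i ∘ₗ r : A.V →ₗ[K] A.V) : Module.End K A.V) ^ m) (i (r (i u))) = i u
          rw [hriv, ih]
    have h1 := hpow n
    rw [hn, LinearMap.zero_apply] at h1
    exact hu (hinj (by rw [← h1, map_zero]))
  · exact iso_of_bij i hi ⟨hinj, fun a => by
      obtain ⟨b, hb'⟩ := hb.2 a
      exact ⟨r b, hb'⟩⟩

private lemma DD_single (n : ℕ) : ∀ A : Mo K E, finrank K A.V ≤ n →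
    ∃ (κ : Type) (_ : Finite κ) (T : κ → Mo K E), (∀ j, Loc (T j)) ∧
      ∀ U : Mo K E, Loc U → Retr U A → ∃ j, Iso U (T j) := by
  induction n with
  | zero =>
      intro A hA
      refine ⟨Empty, inferInstance, fun x => x.elim, fun x => x.elim, ?_⟩
      rintro U hU ⟨i, r, -, -, hri⟩
      exfalso
      have hriv : ∀ v, r (i v) = v := fun v => LinearMap.congr_fun hri v
      have : Subsingleton A.V := Module.finrank_zero_iff.1 (Nat.le_zero.1 hA)
      obtain ⟨u, hu⟩ := @exists_ne U.V hU.1 0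
      apply hu
      rw [← hriv u, Subsingleton.elim (i u) 0, map_zero]
  | succ n ih =>
      intro A hA
      by_cases h0 : finrank K A.V = 0
      · exact ih A (by omega)
      by_cases hL : Loc A
      · exact ⟨Unit, inferInstance, fun _ => A, fun _ => hL, fun U hU h => ⟨(), loc_retr_loc U A hU hL h⟩⟩
      obtain ⟨B, C, hiso, hB, hC⟩ := fitting A (Nat.pos_of_ne_zero h0) hL
      have hdim : finrank K A.V = finrank K B.V + finrank K C.V := by
        rw [Iso.finrank hiso]
        exact Module.finrank_prod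
      obtain ⟨κ₁, hf₁, T₁, hT₁, hU₁⟩ := ih B (by omega)
      obtain ⟨κ₂, hf₂, T₂, hT₂, hU₂⟩ := ih C (by omega)
      refine ⟨κ₁ ⊕ κ₂, inferInstance, Sum.elim T₁ T₂, ?_, ?_⟩
      · rintro (j | j)
        · exact hT₁ j
        · exact hT₂ j
      · intro U hU h
        rcases loc_retr_prod U B C hU (h.trans hiso.retr) with h' | h'
        · obtain ⟨j, hj⟩ := hU₁ U hU h'
          exact ⟨Sum.inl j, hj⟩
        · obtain ⟨j, hj⟩ := hU₂ U hU h'
          exact ⟨Sum.inr j, hj⟩

/-- finitely many modules of local type account for all local-type retracts of a finite family -/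
theorem finite_locals {ι : Type} [Finite ι] (A : ι → Mo K E) :
    ∃ (κ : Type) (_ : Finite κ) (T : κ → Mo K E), (∀ j, Loc (T j)) ∧
      ∀ U : Mo K E, Loc U → (∃ i, Retr U (A i)) → ∃ j, Iso U (T j) := by
  have h : ∀ i, ∃ (κ : Type) (_ : Finite κ) (T : κ → Mo K E), (∀ j, Loc (T j)) ∧
      ∀ U : Mo K E, Loc U → Retr U (A i) → ∃ j, Iso U (T j) := fun i => DD_single _ (A i) le_rfl
  choose κ hκ T hT hU using h
  refine ⟨Σ i, κ i, inferInstance, fun x => T x.1 x.2, fun x => hT x.1 x.2, ?_⟩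
  rintro U hL ⟨i, hi⟩
  obtain ⟨j, hj⟩ := hU i U hL hi
  exact ⟨⟨i, j⟩, hj⟩

theorem inX_retr {X U V : Mo K E} (h : Retr U V) (hV : InX X V) : InX X U := by
  obtain ⟨W, hW⟩ := hV
  exact ⟨W, h.trans hW⟩

theorem inX_tens {X U : Mo K E} (hU : InX X U) (M : Mo K E) : InX X (U.tens M) := by
  obtain ⟨W, hW⟩ := hU
  exact ⟨W.tens M, (hW.tens (Retr.refl M)).trans (iso_assoc X W M).retr⟩

theorem inX_hom (X : Mo K E) : InX X (X.hom X) :=
  ⟨X.hom (triv K E), ((iso_hom X X).trans (iso_comm _ _)).retr⟩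

end Pool.Agent.GamI
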