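import Pool.Agent.GamI.DD

/-! # DE: the eigenvalue is an algebraic integer -/

set_option autoImplicit false

open scoped TensorProduct
open Module

noncomputable section

namespace Pool.Agent.GamI

variable {K : Type} [Field K] {E : Type} [Group E] [Finite E]

/-- values of additive functions on `InX X` are nonnegative integer combinations -/
theorem expand {X : Mo K E} {κ : Type} [Fintype κ] (T : κ → Mo K E)
    (hT : ∀ U : Mo K E, InX X U → Loc U → Proj U ∨ ∃ j, InX X (T j) ∧ Iso U (T j))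
    (σ : Mo K E → ℝ) (hσ : IsSigma σ) (U : Mo K E) (hU : InX X U) :
    ∃ n : κ → ℕ, (∀ j, ¬ InX X (T j) → n j = 0) ∧ σ U = ∑ j, (n j : ℝ) * σ (T j) := by
  classical
  obtain ⟨d, hd⟩ : ∃ d, finrank K U.V = d := ⟨_, rfl⟩
  induction d using Nat.strong_induction_on generalizing U with
  | _ d ih =>
    by_cases hp : Proj U
    · exact ⟨0, fun _ _ => rfl, by rw [hσ.proj U hp]; simp⟩
    have hpos : 0 < finrank K U.V := by
      by_contra h0
      exact hp (proj_of_finrank_zero (by omega))
    by_cases hl : Loc U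
    · rcases hT U hU hl with h | ⟨j, hj, hiso⟩
      · exact absurd h hp
      · refine ⟨Pi.single j 1, ?_, ?_⟩
        · intro i hi
          rw [Pi.single_apply, if_neg]
          rintro rfl
          exact hi hj
        · rw [hσ.iso _ _ hiso, Finset.sum_eq_single j]
          · simp
          · intro i _ hi
            simp [Pi.single_apply, hi]
          · simp
    · obtain ⟨A, B, hAB, hA, hB⟩ := fitting U hpos hl
      have hfr : finrank K U.V = finrank K A.V + finrank K B.V := by
        rw [hAB.finrank]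
        exact Module.finrank_prod
      have hAU : Retr A U := (retr_prod_left A B).trans hAB.symm.retr
      have hBU : Retr B U := (retr_prod_right A B).trans hAB.symm.retr
      obtain ⟨n, hn, hn'⟩ := ih _ (by omega) A (inX_retr hAU hU) rfl
      obtain ⟨m, hm, hm'⟩ := ih _ (by omega) B (inX_retr hBU hU) rfl
      refine ⟨n + m, fun j hj => by simp [hn j hj, hm j hj], ?_⟩
      rw [hσ.iso _ _ hAB, hσ.prod, hn', hm', ← Finset.sum_add_distrib]
      refine Finset.sum_congr rfl fun j _ => ?_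
      rw [Pi.add_apply]
      push_cast
      ring

/-- an eigenvalue of an integer matrix with a nonzero real eigenvector is integral -/
theorem integral_of_eigen {κ : Type} [Fintype κ] [DecidableEq κ] (B : Matrix κ κ ℤ) (v : κ → ℝ)
    (hv : v ≠ 0) (γ : ℝ) (h : ∀ i, γ * v i = ∑ j, (B i j : ℝ) * v j) : IsIntegral ℤ γ := by
  refine ⟨B.charpoly, B.charpoly_monic, ?_⟩
  have h1 : (Matrix.scalar κ γ - B.map (Int.castRingHom ℝ)).det = 0 := by
    rw [← Matrix.exists_mulVec_eq_zero_iff]
    refine ⟨v, hv, ?_⟩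
    rw [Matrix.sub_mulVec]
    funext i
    have h2 : (Matrix.scalar κ γ).mulVec v i = γ * v i := by
      rw [Matrix.scalar_apply, Matrix.mulVec_diagonal]
    have h3 : (B.map (Int.castRingHom ℝ)).mulVec v i = ∑ j, (B i j : ℝ) * v j := rfl
    rw [Pi.sub_apply, h2, h3, h i, Pi.zero_apply, sub_self]
  rw [← Matrix.eval_charpoly, Matrix.charpoly_map, Polynomial.eval_map] at h1
  exact h1

theorem eigen_integral (X MK : Mo K E) {ι : Type} [Finite ι] (A : ι → Mo K E)
    (hA : ∀ U : Mo K E, InX X U → Loc U → Proj U ∨ ∃ i, Retr U (A i))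
    (σ : Mo K E → ℝ) (hσ : IsSigma σ) (γ : ℝ) (hγ : ∀ N : Mo K E, σ (N.tens MK) = γ * σ N)
    (h0 : ∃ U, InX X U ∧ σ U ≠ 0) : IsIntegral ℤ γ := by
  classical
  obtain ⟨κ, hκ, T, -, hT⟩ := finite_locals A
  have := Fintype.ofFinite κ
  have hT' : ∀ U : Mo K E, InX X U → Loc U → Proj U ∨ ∃ j, InX X (T j) ∧ Iso U (T j) := by
    intro U hU hl
    rcases hA U hU hl with h | h
    · exact Or.inl h
    · obtain ⟨j, hj⟩ := hT U hl h
      exact Or.inr ⟨j, inX_retr hj.symm.retr hU, hj⟩
  have hex : ∀ U : Mo K E, InX X U → ∃ n : κ → ℕ, (∀ j, ¬ InX X (T j) → n j = 0) ∧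
      σ U = ∑ j, (n j : ℝ) * σ (T j) := fun U hU => expand T hT' σ hσ U hU
  let v : κ → ℝ := fun j => if InX X (T j) then σ (T j) else 0
  have hv' : ∀ n : κ → ℕ, (∀ j, ¬ InX X (T j) → n j = 0) →
      ∑ j, (n j : ℝ) * σ (T j) = ∑ j, (n j : ℝ) * v j := by
    intro n hn
    refine Finset.sum_congr rfl fun j _ => ?_
    by_cases hj : InX X (T j)
    · simp [v, hj]
    · simp [hn j hj]
  have hB : ∀ i, ∃ n : κ → ℤ, γ * v i = ∑ j, (n j : ℝ) * v j := by
    intro i
    by_cases hi : InX X (T i)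
    · obtain ⟨n, hn, hn'⟩ := hex _ (inX_tens hi MK)
      refine ⟨fun j => n j, ?_⟩
      rw [hγ, hv' n hn] at hn'
      simp only [v, hi, if_true]
      rw [hn']
      simp [v]
    · exact ⟨0, by simp [v, hi]⟩
  choose B hB using hB
  refine integral_of_eigen (Matrix.of B) v ?_ γ hB
  intro hv0
  obtain ⟨U, hU, hU'⟩ := h0
  obtain ⟨n, hn, hn'⟩ := hex U hU
  rw [hv' n hn, hv0] at hn'
  exact hU' (by simpa using hn')

end Pool.Agent.GamI
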