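import Mathlib

/-!
# Basic definitions for the integrality of the gamma invariant (MP_d74811_al)

`Mo k G` : finite-dimensional representations over a field `k` of a group `G`, bundled.
-/

set_option autoImplicit false

open scoped TensorProduct

noncomputable section

namespace Pool.Agent.GamI

/-- Finite-dimensional representations, bundled. -/
structure Mo (k : Type) [Field k] (G : Type) [Group G] where
  /-- the carrier -/
  V : Type
  [acg : AddCommGroup V]
  [mod : Module k V]
  [fin : Module.Finite k V]
  /-- the action -/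
  ρ : Representation k G V

attribute [instance] Mo.acg Mo.mod Mo.fin

/-- Equivariance of a linear map between two representations (possibly infinite-dimensional). -/
def Eqv {k G V W : Type} [CommRing k] [Monoid G] [AddCommGroup V] [Module k V] [AddCommGroup W]
    [Module k W] (ρ : Representation k G V) (σ : Representation k G W) (f : V →ₗ[k] W) : Prop :=
  ∀ (g : G) (v : V), f (ρ g v) = σ g (f v)

section Ops

variable {k : Type} [Field k] {G : Type} [Group G]

/-- Equivariance of a linear map between bundled representations. -/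
def IsH (A B : Mo k G) (f : A.V →ₗ[k] B.V) : Prop :=
  ∀ (g : G) (v : A.V), f (A.ρ g v) = B.ρ g (f v)

/-- Two bundled representations are isomorphic. -/
def Iso (A B : Mo k G) : Prop := ∃ e : A.V ≃ₗ[k] B.V, IsH A B e.toLinearMap

/-- `A` is a retract (direct summand up to isomorphism) of `B`. -/
def Retr (A B : Mo k G) : Prop :=
  ∃ (i : A.V →ₗ[k] B.V) (r : B.V →ₗ[k] A.V), IsH A B i ∧ IsH B A r ∧ r ∘ₗ i = LinearMap.id

variable (k G) in
/-- The trivial one-dimensional representation. -/
def triv : Mo k G := ⟨k, 1⟩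

/-- Direct sum. -/
def Mo.prod (A B : Mo k G) : Mo k G := ⟨A.V × B.V, A.ρ.prod B.ρ⟩

/-- Tensor product with diagonal action. -/
def Mo.tens (A B : Mo k G) : Mo k G := ⟨A.V ⊗[k] B.V, A.ρ.tprod B.ρ⟩

/-- The space of linear maps, with the conjugation action. -/
def Mo.hom (A B : Mo k G) : Mo k G := ⟨A.V →ₗ[k] B.V, A.ρ.linHom B.ρ⟩

/-- Restriction along a group homomorphism. -/
def Mo.res {H : Type} [Group H] (A : Mo k G) (j : H →* G) : Mo k H := ⟨A.V, A.ρ.comp j⟩

/-- Subrepresentation. -/
def Mo.sub (A : Mo k G) (W : Submodule k A.V) (h : ∀ g, W ≤ W.comap (A.ρ g)) : Mo k G :=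
  ⟨W, A.ρ.subrepresentation W h⟩

/-- Quotient representation. -/
def Mo.quo (A : Mo k G) (W : Submodule k A.V) (h : ∀ g, W ≤ W.comap (A.ρ g)) : Mo k G :=
  ⟨A.V ⧸ W, A.ρ.quotient W h⟩

/-- The permutation representation `k^X` (functions on `X`) of a finite `G`-set. -/
def permRep (k : Type) [Field k] (G : Type) [Group G] (X : Type) [MulAction G X] :
    Representation k G (X → k) where
  toFun g := LinearMap.funLeft k k (fun x : X => g⁻¹ • x)
  map_one' := by
    ext x
    simp [LinearMap.funLeft]
  map_mul' g h := by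
    ext x
    simp [LinearMap.funLeft, mul_smul]

variable (k G) in
/-- The permutation representation of a finite `G`-set, bundled. -/
def perm (X : Type) [Finite X] [MulAction G X] : Mo k G := ⟨X → k, permRep k G X⟩

/-- `0 → A → B → C → 0` is a short exact sequence of representations. -/
structure IsSES (A B C : Mo k G) (f : A.V →ₗ[k] B.V) (g : B.V →ₗ[k] C.V) : Prop where
  hf : IsH A B f
  hg : IsH B C g
  inj : Function.Injective f
  surj : Function.Surjective g
  exact : LinearMap.range f = LinearMap.ker g

/-- The conjugation action on linear maps. -/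
def cj (A B : Mo k G) (g : G) (θ : A.V →ₗ[k] B.V) : A.V →ₗ[k] B.V :=
  B.ρ g ∘ₗ θ ∘ₗ A.ρ g⁻¹

/-- The elements of a subgroup of a finite group as a finset. -/
def subFin {G : Type} [Group G] [Finite G] (H : Subgroup G) : Finset G :=
  (Set.toFinite (H : Set G)).toFinset

/-- Trace over a subgroup: `∑_{h ∈ H} h θ h⁻¹`. -/
def trH [Finite G] (H : Subgroup G) (A B : Mo k G) (θ : A.V →ₗ[k] B.V) : A.V →ₗ[k] B.V :=
  ∑ h ∈ subFin H, cj A B h θ

/-- Higman's criterion: the identity is a trace from the trivial subgroup.
For finite-dimensional representations of a finite group this is equivalent to projectivity. -/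
def Proj [Finite G] (A : Mo k G) : Prop :=
  ∃ θ : A.V →ₗ[k] A.V, trH ⊤ A A θ = LinearMap.id

/-- The subgroup version: the identity is an `H`-trace. -/
def ProjOn [Finite G] (H : Subgroup G) (A : Mo k G) : Prop :=
  ∃ θ : A.V →ₗ[k] A.V, trH H A A θ = LinearMap.id

/-- Equivariance with respect to a subgroup. -/
def IsHOn (H : Subgroup G) (A B : Mo k G) (f : A.V →ₗ[k] B.V) : Prop :=
  ∀ h ∈ H, ∀ v : A.V, f (A.ρ h v) = B.ρ h (f v)

/-- Tensor power: `M^{⊗ n}` in the form used by the frozen statement:
`A ⊗ M ⊗ ⋯ ⊗ M` (`n` factors `M`). -/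
def Tn (M : Mo k G) : ℕ → Mo k G → Mo k G
  | 0, A => A
  | n + 1, A => Tn M n (A.tens M)

end Ops

/-! ### Rank functionals -/

/-- A rank functional on the finite-dimensional representations of a finite group: a real number
for each linear map (meaningful for equivariant maps). -/
structure RankFn (k : Type) [Field k] (G : Type) [Group G] [Finite G] where
  /-- the value on a linear map -/
  s : ∀ (A B : Mo k G), (A.V →ₗ[k] B.V) → ℝ
  nonneg : ∀ A B f, 0 ≤ s A B f
  comp_le_r : ∀ (A B C : Mo k G) (f : A.V →ₗ[k] B.V) (g : B.V →ₗ[k] C.V),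
    IsH A B f → IsH B C g → s A C (g ∘ₗ f) ≤ s A B f
  comp_le_l : ∀ (A B C : Mo k G) (f : A.V →ₗ[k] B.V) (g : B.V →ₗ[k] C.V),
    IsH A B f → IsH B C g → s A C (g ∘ₗ f) ≤ s B C g
  prod : ∀ (A B C D : Mo k G) (f : A.V →ₗ[k] B.V) (g : C.V →ₗ[k] D.V),
    IsH A B f → IsH C D g → s (A.prod C) (B.prod D) (f.prodMap g) = s A B f + s C D g
  proj : ∀ A : Mo k G, Proj A → s A A LinearMap.id = 0
  ses : ∀ (A B C : Mo k G) (f : A.V →ₗ[k] B.V) (g : B.V →ₗ[k] C.V),
    IsSES A B C f g → s A B f + s B C g = s B B LinearMap.id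
  frob : ∀ (A B C D : Mo k G) (f : A.V →ₗ[k] B.V) (g : B.V →ₗ[k] C.V) (h : C.V →ₗ[k] D.V),
    IsH A B f → IsH B C g → IsH C D h →
    s A C (g ∘ₗ f) + s B D (h ∘ₗ g) ≤ s B C g + s A D (h ∘ₗ g ∘ₗ f)

/-- The value of a rank functional on an object. -/
def RankFn.val {k : Type} [Field k] {G : Type} [Group G] [Finite G] (s : RankFn k G)
    (A : Mo k G) : ℝ := s.s A A LinearMap.id

/-- `s` is an eigenfunctional for tensoring with `M`, with eigenvalue `γ`. -/
def RankFn.Eig {k : Type} [Field k] {G : Type} [Group G] [Finite G] (s : RankFn k G)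
    (M : Mo k G) (γ : ℝ) : Prop :=
  ∀ (A B : Mo k G) (f : A.V →ₗ[k] B.V), IsH A B f →
    s.s (A.tens M) (B.tens M) (f.rTensor M.V) = γ * s.s A B f

/-- `s` vanishes on the permutation representations `k[G/K]`, `K` a proper subgroup. -/
def RankFn.NullPerm {k : Type} [Field k] {G : Type} [Group G] [Finite G] (s : RankFn k G) : Prop :=
  ∀ K : Subgroup G, K ≠ ⊤ → s.val (perm k G (G ⧸ K)) = 0

/-- The shift inequalities. -/
def RankFn.Shift {k : Type} [Field k] {G : Type} [Group G] [Finite G] (s : RankFn k G) : Prop :=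
  ∀ (A B C : Mo k G) (f : A.V →ₗ[k] B.V) (g : B.V →ₗ[k] C.V), IsSES A B C f g →
    s.val A ≤ s.val B + s.val C ∧ s.val C ≤ s.val A + s.val B

/-! ### Polynomial modules -/

open Polynomial

/-- The additive group of a commutative ring acts on polynomials by translation. -/
def polyRep (R : Type) [CommRing R] : Representation R (Multiplicative R) R[X] where
  toFun t := taylor t.toAdd
  map_one' := by
    ext
    simp
  map_mul' s t := by
    refine LinearMap.ext fun f => ?_
    simp [Module.End.mul_apply, taylor_taylor]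

lemma degreeLT_taylor (R : Type) [CommRing R] (n : ℕ) (t : R) :
    degreeLT R n ≤ (degreeLT R n).comap (taylor t) := by
  intro f hf
  rw [Submodule.mem_comap, mem_degreeLT, degree_taylor]
  exact mem_degreeLT.1 hf

/-- `P K n`: polynomials of degree `< n` over the field `K`, with the translation action of the
additive group of `K`. -/
def P (K : Type) [Field K] (n : ℕ) : Mo K (Multiplicative K) where
  V := degreeLT K n
  fin := Module.Finite.equiv (degreeLTEquiv K n).symm
  ρ := (polyRep K).subrepresentation (degreeLT K n) fun t => degreeLT_taylor K n t.toAdd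

/-- `Pm n μ`: polynomials of degree `< n`, `e ∈ E` acting by `T ↦ T + μ e`. -/
abbrev Pm {K : Type} [Field K] {E : Type} [Group E] (n : ℕ) (μ : E →* Multiplicative K) :
    Mo K E := (P K n).res μ

/-- The `i`-fold Frobenius twist of an additive function. -/
def tw {K : Type} [Field K] {E : Type} [Group E] (p : ℕ) [Fact p.Prime] [CharP K p] (i : ℕ)
    (μ : E →* Multiplicative K) : E →* Multiplicative K :=
  (AddMonoidHom.toMultiplicative ((iterateFrobenius K p i : K →+* K) : K →+ K)).comp μ

end Pool.Agent.GamI
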