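import Pool.Agent.GamI.Defs

/-! # Definitions for the localisation part (infinite-dimensional modules, graded families) -/

set_option autoImplicit false

open scoped TensorProduct
open Polynomial

noncomputable section

namespace Pool.Agent.GamI

section Hat

variable {k G W : Type} [Field k] [Group G] [Finite G] [AddCommGroup W] [Module k W]

/-- finite-dimensional invariant subspaces of a representation -/
structure FS (ρ : Representation k G W) where
  /-- the subspace -/
  F : Submodule k W
  fin : Module.Finite k F
  inv : ∀ g, F ≤ F.comap (ρ g)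

/-- the subrepresentation -/
def FS.mo {ρ : Representation k G W} (F : FS ρ) : Mo k G :=
  { V := F.F, fin := F.fin, ρ := ρ.subrepresentation F.F F.inv }

/-- The value of a rank functional on an arbitrary representation:
`sup_F inf_{F' ⊇ F} s(F → F')`. -/
def hatS (s : RankFn k G) (ρ : Representation k G W) : ENNReal :=
  ⨆ F : FS ρ, ⨅ F' : {F' : FS ρ // F.F ≤ F'.F},
    ENNReal.ofReal (s.s F.mo F'.1.mo (Submodule.inclusion F'.2))

end Hat

section RestrictScalars

variable (k : Type) [Field k] {K : Type} [Field K] [Algebra k K] {G : Type} [Group G]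

/-- the `k`-module structure on a `K`-vector space -/
abbrev rsMod (A : Mo K G) : Module k A.V := Module.compHom A.V (algebraMap k K)

/-- the underlying `k`-linear representation of a `K`-linear one -/
def rsRep (A : Mo K G) : letI := rsMod k A; Representation k G A.V :=
  letI := rsMod k A
  haveI : IsScalarTower k K A.V := ⟨fun a b c => by
    change (a • b) • c = (algebraMap k K a) • b • c
    rw [Algebra.smul_def, mul_smul]⟩
  { toFun := fun g => (A.ρ g).restrictScalars k
    map_one' := by ext; simp
    map_mul' := fun g h => by ext; simp }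

/-- the value of a rank functional over `k` on a representation over `K` -/
def hatK [Finite G] (s : RankFn k G) (A : Mo K G) : ENNReal :=
  letI := rsMod k A
  hatS s (rsRep k A)

/-- base change -/
def baseCh (K : Type) [Field K] [Algebra k K] (M : Mo k G) : Mo K G where
  V := K ⊗[k] M.V
  ρ :=
    { toFun := fun g => (M.ρ g).baseChange K
      map_one' := by
        ext
        simp
      map_mul' := fun g h => by
        ext
        simp }

end RestrictScalars

/-! ### graded families -/

section Graded

variable (k : Type) [Field k] (E : Type) [Group E]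

/-- A commutative `k`-algebra `R` with a family of finite-dimensional subspaces `gr m` (`m : ℤ`)
and an additive function `lam : E → R` with `lam e • gr m ⊆ gr (m+1)`. -/
structure GA where
  /-- the ring -/
  R : Type
  [cr : CommRing R]
  [alg : Algebra k R]
  /-- the pieces -/
  gr : ℤ → Submodule k R
  fin : ∀ m, Module.Finite k (gr m)
  /-- the additive function -/
  lam : E →* Multiplicative R
  hlam : ∀ (e : E) (m : ℤ) (x : R), x ∈ gr m → (lam e).toAdd * x ∈ gr (m + 1)

attribute [instance] GA.cr GA.alg

variable {k E}

/-- homogeneous polynomials of total degree `d` and of degree `< n` in `T` -/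
def GA.XS (D : GA k E) (n : ℕ) (d : ℤ) : Submodule k D.R[X] where
  carrier := {f | (∀ j, n ≤ j → f.coeff j = 0) ∧ ∀ j : ℕ, f.coeff j ∈ D.gr (d - j)}
  zero_mem' := by simp
  add_mem' := by
    rintro a b ⟨ha, ha'⟩ ⟨hb, hb'⟩
    exact ⟨fun j hj => by simp [ha j hj, hb j hj],
      fun j => by simpa using (D.gr _).add_mem (ha' j) (hb' j)⟩
  smul_mem' := by
    rintro c a ⟨ha, ha'⟩
    exact ⟨fun j hj => by simp [ha j hj], fun j => by simpa using (D.gr _).smul_mem c (ha' j)⟩

lemma GA.gr_pow (D : GA k E) (e : E) (i : ℕ) (m : ℤ) (x : D.R) (hx : x ∈ D.gr m) :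
    (D.lam e).toAdd ^ i * x ∈ D.gr (m + i) := by
  induction i with
  | zero => simpa using hx
  | succ i ih =>
    have := D.hlam e _ _ ih
    rw [pow_succ', mul_assoc]
    push_cast
    rwa [← add_assoc]

lemma GA.XS_taylor (D : GA k E) (n : ℕ) (d : ℤ) (e : E) (f : D.R[X]) (hf : f ∈ D.XS n d) :
    taylor (D.lam e).toAdd f ∈ D.XS n d := by
  obtain ⟨h1, h2⟩ := hf
  have key : ∀ j, (taylor (D.lam e).toAdd f).coeff j =
      ∑ i ∈ Finset.range n, ((D.lam e).toAdd ^ (i - j) * ((i.choose j : ℕ) : D.R)) * f.coeff i := by
    intro j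
    have hf' : f = ∑ i ∈ Finset.range n, monomial i (f.coeff i) := by
      apply Polynomial.ext
      intro l
      simp only [finsetSum_coeff, coeff_monomial]
      rw [Finset.sum_ite_eq' (Finset.range n) l]
      split_ifs with h
      · rfl
      · exact h1 l (by simpa using h)
    conv_lhs => rw [hf']
    rw [map_sum, finsetSum_coeff]
    refine Finset.sum_congr rfl fun i _ => ?_
    rw [taylor_monomial, coeff_C_mul, coeff_X_add_C_pow]
    ring
  refine ⟨fun j hj => ?_, fun j => ?_⟩
  · rw [key]
    refine Finset.sum_eq_zero fun i hi => ?_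
    rw [Nat.choose_eq_zero_of_lt (lt_of_lt_of_le (Finset.mem_range.1 hi) hj)]
    simp
  · rw [key]
    refine Submodule.sum_mem _ fun i _ => ?_
    by_cases hij : j ≤ i
    · have h3 := D.gr_pow e (i - j) _ _ (h2 i)
      have h4 : (d - (i : ℤ) + ((i - j : ℕ) : ℤ)) = d - j := by
        push_cast [Nat.cast_sub hij]
        ring
      rw [h4] at h3
      have h5 : (D.lam e).toAdd ^ (i - j) * ((i.choose j : ℕ) : D.R) * f.coeff i =
          (i.choose j) • ((D.lam e).toAdd ^ (i - j) * f.coeff i) := by
        rw [nsmul_eq_mul]
        ring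
      rw [h5]
      exact Submodule.smul_of_tower_mem _ _ h3
    · rw [Nat.choose_eq_zero_of_lt (not_le.1 hij)]
      simp

lemma GA.XS_finite (D : GA k E) (n : ℕ) (d : ℤ) : Module.Finite k (D.XS n d) := by
  have := D.fin
  let φ : D.XS n d →ₗ[k] ((j : Fin n) → D.gr (d - (j : ℕ))) :=
    { toFun := fun f j => ⟨f.1.coeff j, f.2.2 j⟩
      map_add' := fun f g => by ext; simp
      map_smul' := fun c f => by ext; simp }
  have hφ : Function.Injective φ := by
    intro f g hfg
    apply Subtype.ext
    apply Polynomial.ext
    intro j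
    by_cases hj : j < n
    · have := congrFun hfg ⟨j, hj⟩
      exact congrArg Subtype.val this
    · rw [f.2.1 j (not_lt.1 hj), g.2.1 j (not_lt.1 hj)]
  exact Module.Finite.of_injective φ hφ

/-- the family as a finite-dimensional representation of `E` over `k` -/
def GA.XM (D : GA k E) (n : ℕ) (d : ℤ) : Mo k E where
  V := D.XS n d
  fin := D.XS_finite n d
  ρ :=
    { toFun := fun e =>
        { toFun := fun f => ⟨taylor (D.lam e).toAdd f.1, D.XS_taylor n d e f.1 f.2⟩
          map_add' := fun f g => by ext; simp
          map_smul' := fun c f => by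
            apply Subtype.ext
            simp only [RingHom.id_apply]
            rw [Submodule.coe_smul_of_tower, Submodule.coe_smul_of_tower]
            exact ((taylor (D.lam e).toAdd).restrictScalars k).map_smul c f.1 }
      map_one' := by
        ext f
        simp
      map_mul' := fun e e' => by
        refine LinearMap.ext fun f => Subtype.ext ?_
        simp [Module.End.mul_apply, taylor_taylor] }

/-- the universal linear form `∑ x_i(e) X_i` -/
def linF {p : ℕ} [Fact p.Prime] [CharP k p] {r : ℕ} (x : Fin r → (E →* Multiplicative (ZMod p)))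
    (e : E) : MvPolynomial (Fin r) k :=
  ∑ i, (ZMod.castHom (dvd_refl p) k (x i e).toAdd) • MvPolynomial.X i

lemma linF_hom {p : ℕ} [Fact p.Prime] [CharP k p] {r : ℕ}
    (x : Fin r → (E →* Multiplicative (ZMod p))) (e : E) :
    (linF (k := k) x e).IsHomogeneous 1 := by
  rw [← MvPolynomial.mem_homogeneousSubmodule]
  refine Submodule.sum_mem _ fun i _ => Submodule.smul_mem _ _ ?_
  exact MvPolynomial.isHomogeneous_X k i

/-- `(MvPolynomial (Fin r) k) ⧸ 𝔞` with its grading (for `𝔞` homogeneous) and the universal
additive function `e ↦ ∑ x_i(e) X_i`. -/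
def gq {p : ℕ} [Fact p.Prime] [CharP k p] {r : ℕ} (x : Fin r → (E →* Multiplicative (ZMod p)))
    (𝔞 : Ideal (MvPolynomial (Fin r) k)) : GA k E where
  R := MvPolynomial (Fin r) k ⧸ 𝔞
  gr m := if 0 ≤ m then
    (MvPolynomial.homogeneousSubmodule (Fin r) k m.toNat).map
      (Ideal.Quotient.mkₐ k 𝔞).toLinearMap else ⊥
  fin m := by
    rw [Module.Finite.iff_fg]
    split_ifs
    · exact (MvPolynomial.homogeneousSubmodule_fg (Fin r) k m.toNat).map _
    · exact Submodule.fg_bot
  lam :=
    { toFun := fun e => Multiplicative.ofAdd (Ideal.Quotient.mk 𝔞 (linF x e))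
      map_one' := by simp [linF]
      map_mul' := fun e e' => by
        rw [← ofAdd_add, ← map_add, linF, linF, linF, ← Finset.sum_add_distrib]
        congr 2
        refine Finset.sum_congr rfl fun i _ => ?_
        rw [map_mul, toAdd_mul, map_add, add_smul] }
  hlam := by
    intro e m y hy
    split_ifs at hy with h
    · rw [if_pos (by omega)]
      obtain ⟨f, hf, rfl⟩ := hy
      refine ⟨linF x e * f, ?_, by simp⟩
      have h1 : (m + 1).toNat = 1 + m.toNat := by omega
      rw [h1]
      exact (linF_hom x e).mul hf
    · rw [Submodule.mem_bot] at hy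
      subst hy
      simp

/-- the class of a polynomial, as an element of `(gq x 𝔞).R` -/
def gqmk {p : ℕ} [Fact p.Prime] [CharP k p] {r : ℕ} (x : Fin r → (E →* Multiplicative (ZMod p)))
    (𝔞 : Ideal (MvPolynomial (Fin r) k)) (f : MvPolynomial (Fin r) k) : (gq x 𝔞).R :=
  (Ideal.Quotient.mk 𝔞 f : MvPolynomial (Fin r) k ⧸ 𝔞)

end Graded

end Pool.Agent.GamI
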