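import Pool.Agent.GamI.DE
import Pool.Agent.GamI.CF
import Pool.Agent.GamI.BA
import Pool.Agent.GamI.AU
import Pool.Agent.GamI.AG
import Pool.Agent.GamI.AF
import Pool.Agent.GamI.CHc

/-! # Main: assembly -/

set_option autoImplicit false

open scoped TensorProduct
open Module CategoryTheory MonoidalCategory

noncomputable section

namespace Pool.Agent.GamI

/-- an elementary abelian `p`-group has order a power of `p` -/
theorem card_elab {p : ℕ} [Fact p.Prime] (E : Type) [Group E] [Finite E] [Nontrivial E]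
    (h : IsPGroup p E) : ∃ m, Nat.card E = p ^ (m + 1) := by
  obtain ⟨n, hn⟩ := (IsPGroup.iff_card).1 h
  cases n with
  | zero =>
    rw [pow_zero] at hn
    have := Finite.one_lt_card (α := E)
    omega
  | succ n => exact ⟨n, hn⟩

theorem integral_pgroup {p : ℕ} [Fact p.Prime] {k : Type} [Field k] [CharP k p] {S : Type}
    [Group S] [Finite S] (hS : IsPGroup p S) (M : Mo k S) (γ : ℝ) (hγ : 1 ≤ γ)
    (h1 : ∀ n, γ ^ n ≤ cT (Tn M n (triv k S)))
    (h2 : Filter.Tendsto (fun n : ℕ => (cT (Tn M n (triv k S)) : ℝ) ^ ((1 : ℝ) / (n : ℝ)))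
      Filter.atTop (nhds γ)) : IsIntegral ℤ γ := by
  obtain ⟨H, s, h0, he, hn⟩ := exists_rankFn hS M γ hγ h1 h2
  have hH : IsPGroup p H := hS.to_subgroup H
  obtain ⟨hcomm, hexp, hnt⟩ := elab_of_functional hH s hn h0
  let _ : CommGroup H := { (inferInstance : Group H) with mul_comm := hcomm }
  obtain ⟨m, hm⟩ := card_elab H hH
  obtain ⟨K, _, _, _, lam, σ, hinj, hσ, heig, hpos⟩ :=
    localise (E := H) hexp m hm (M.res H.subtype) γ (by linarith) s h0 hn he
  obtain ⟨ι, _, A, hA⟩ := finite_type lam hinj m hm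
  exact eigen_integral (Pm (p ^ m) lam) (baseCh k K (M.res H.subtype)) A hA σ hσ γ heig
    ⟨_, inX_hom _, ne_of_gt hpos⟩

theorem main (p : ℕ) (hp : p.Prime) (k : Type) [Field k] [CharP k p] (G : Type) [Group G]
    [Finite G] (M : FDRep k G) :
    IsIntegral ℤ (Filter.limsup (fun n : ℕ => (coreDim M n : ℝ) ^ ((1 : ℝ) / (n : ℝ)))
      Filter.atTop) := by
  have : Fact p.Prime := ⟨hp⟩
  obtain ⟨S⟩ : Nonempty (Sylow p G) := inferInstance
  have hS : IsPGroup p (S : Subgroup G) := S.isPGroup'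
  rcases growth hS ((ofFD M).res (S : Subgroup G).subtype) with h | ⟨γ, hγ, h1, h2⟩
  · rw [limsup_coreDim_zero S M h]
    exact isIntegral_zero
  · rw [limsup_coreDim S M γ hγ h1 h2]
    exact integral_pgroup hS _ γ hγ h1 h2

end Pool.Agent.GamI
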