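import Pool.Agent.GamI.Defs

/-! # Tensor induction -/

set_option autoImplicit false

open scoped TensorProduct

noncomputable section

namespace Pool.Agent.GamI

section Cocycle

variable {S : Type} [Group S] (H : Subgroup S)

/-- the cocycle `τ(s c)⁻¹ s τ(c) ∈ H` -/
def hc (s : S) (c : S ⧸ H) : H :=
  ⟨((s • c).out)⁻¹ * (s * c.out), by
    rw [← QuotientGroup.eq]
    conv_lhs => rw [QuotientGroup.out_eq']
    conv_lhs => rw [← QuotientGroup.out_eq' c]
    rfl⟩

lemma hc_coe (s : S) (c : S ⧸ H) : ((hc H s c : H) : S) = ((s • c).out)⁻¹ * (s * c.out) := rfl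

lemma hc_mul (s t : S) (c : S ⧸ H) : hc H (s * t) c = hc H s (t • c) * hc H t c := by
  apply Subtype.ext
  simp only [hc_coe, Subgroup.coe_mul, mul_smul]
  group

lemma hc_one (c : S ⧸ H) : hc H 1 c = 1 := by
  apply Subtype.ext
  simp [hc_coe]

end Cocycle

variable {k : Type} [Field k] {S : Type} [Group S] (H : Subgroup S)

/-- the underlying operator of `s` -/
def tiOp (N : Mo k H) (s : S) : (⨂[k] _ : S ⧸ H, N.V) →ₗ[k] (⨂[k] _ : S ⧸ H, N.V) :=
  (PiTensorProduct.reindex k (fun _ : S ⧸ H => N.V) (MulAction.toPerm s)).toLinearMap ∘ₗ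
    PiTensorProduct.map (fun c => N.ρ (hc H s c))

lemma tiOp_tprod (N : Mo k H) (s : S) (v : S ⧸ H → N.V) :
    tiOp H N s (PiTensorProduct.tprod k v) =
      PiTensorProduct.tprod k (fun c => N.ρ (hc H s (s⁻¹ • c)) (v (s⁻¹ • c))) := by
  simp only [tiOp, LinearMap.comp_apply, PiTensorProduct.map_tprod]
  erw [PiTensorProduct.reindex_tprod]
  rfl

/-- tensor induction of representations -/
def tiRep (N : Mo k H) : Representation k S (⨂[k] _ : S ⧸ H, N.V) where
  toFun s := tiOp H N s
  map_one' := by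
    ext v
    simp only [LinearMap.compMultilinearMap_apply, tiOp_tprod, Module.End.one_apply]
    congr 1
    funext c
    have h1 : (1 : S)⁻¹ • c = c := by rw [inv_one, one_smul]
    rw [h1]
    simp [hc_one]
  map_mul' s t := by
    ext v
    simp only [LinearMap.compMultilinearMap_apply, tiOp_tprod, Module.End.mul_apply]
    congr 1
    funext c
    have h1 : (s * t)⁻¹ • c = t⁻¹ • s⁻¹ • c := by rw [mul_inv_rev, mul_smul]
    rw [h1, hc_mul]
    have h2 : t • t⁻¹ • s⁻¹ • c = s⁻¹ • c := smul_inv_smul _ _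
    rw [h2]
    simp

/-- tensor induction, bundled -/
def ti [Finite S] (N : Mo k H) : Mo k S := ⟨⨂[k] _ : S ⧸ H, N.V, tiRep H N⟩

/-- tensor product of a family of linear maps -/
def tm [Finite S] {A B : Mo k H} (θ : S ⧸ H → (A.V →ₗ[k] B.V)) : (ti H A).V →ₗ[k] (ti H B).V :=
  PiTensorProduct.map θ

end Pool.Agent.GamI
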