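import Pool.Agent.GamI.TIDef
import Pool.Agent.GamI.TE

/-! # TIa: elementary properties of tensor induction -/

set_option autoImplicit false
set_option linter.unusedSectionVars false

open scoped TensorProduct
open Module

noncomputable section

namespace Pool.Agent.GamI

variable {k : Type} [Field k] {S : Type} [Group S] [Finite S] (H : Subgroup S)
variable {A B C : Mo k H}

lemma TIa_ext {M : Type} [AddCommGroup M] [Module k M] (f g : (ti H A).V →ₗ[k] M)
    (h : ∀ v : S ⧸ H → A.V, f (PiTensorProduct.tprod k v) = g (PiTensorProduct.tprod k v)) :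
    f = g := by
  apply PiTensorProduct.ext
  ext v
  exact h v

lemma tm_tprod (θ : S ⧸ H → (A.V →ₗ[k] B.V)) (v : S ⧸ H → A.V) :
    tm H θ (PiTensorProduct.tprod k v) = PiTensorProduct.tprod k (fun c => θ c (v c)) :=
  PiTensorProduct.map_tprod θ v

lemma tm_comp (θ : S ⧸ H → (A.V →ₗ[k] B.V)) (θ' : S ⧸ H → (B.V →ₗ[k] C.V)) :
    tm H (fun c => θ' c ∘ₗ θ c) = tm H θ' ∘ₗ tm H θ := by
  apply TIa_ext
  intro v
  rw [tm_tprod, LinearMap.comp_apply, tm_tprod, tm_tprod]
  rfl

lemma tm_id : tm H (fun _ => (LinearMap.id : A.V →ₗ[k] A.V)) = LinearMap.id := by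
  apply TIa_ext
  intro v
  rw [tm_tprod]
  rfl

lemma TIa_hc_inv (s : S) (c : S ⧸ H) : hc H s⁻¹ c = (hc H s (s⁻¹ • c))⁻¹ := by
  have h := hc_mul H s s⁻¹ c
  rw [mul_inv_cancel, hc_one] at h
  exact (inv_eq_of_mul_eq_one_right h.symm).symm

lemma TIa_rho (A : Mo k H) (s : S) (v : S ⧸ H → A.V) :
    (ti H A).ρ s (PiTensorProduct.tprod k v) =
      PiTensorProduct.tprod k (fun c => A.ρ (hc H s (s⁻¹ • c)) (v (s⁻¹ • c))) :=
  tiOp_tprod H A s v

/-- conjugation formula -/
lemma tm_conj (s : S) (θ : S ⧸ H → (A.V →ₗ[k] B.V)) :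
    cj (ti H A) (ti H B) s (tm H θ) =
      tm H (fun c => cj A B (hc H s (s⁻¹ • c)) (θ (s⁻¹ • c))) := by
  apply TIa_ext
  intro v
  show (ti H B).ρ s (tm H θ ((ti H A).ρ s⁻¹ (PiTensorProduct.tprod k v))) = _
  rw [TIa_rho, tm_tprod, TIa_rho, tm_tprod]
  congr 1
  funext c
  have h1 : s⁻¹⁻¹ • s⁻¹ • c = c := by rw [inv_inv, smul_inv_smul]
  rw [h1, TIa_hc_inv]
  rfl

lemma tm_isH {f : A.V →ₗ[k] B.V} (hf : IsH A B f) : IsH (ti H A) (ti H B) (tm H fun _ => f) := by
  rw [isH_iff_cj]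
  intro s
  rw [tm_conj]
  congr 1
  funext c
  exact cj_isH hf

lemma tm_eq_zero (θ : S ⧸ H → (A.V →ₗ[k] B.V)) (c : S ⧸ H) (h : θ c = 0) : tm H θ = 0 := by
  apply TIa_ext
  intro v
  rw [tm_tprod, LinearMap.zero_apply]
  show PiTensorProduct.tprod k (fun c => θ c (v c)) = (0 : ⨂[k] _ : S ⧸ H, B.V)
  refine MultilinearMap.map_coord_zero _ c ?_
  rw [h]
  rfl

open Classical in
/-- expansion of a tensor product of sums -/
lemma tm_add [Fintype (S ⧸ H)] (θ θ' : S ⧸ H → (A.V →ₗ[k] B.V)) :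
    tm H (fun c => θ c + θ' c) =
      ∑ J : Finset (S ⧸ H), tm H (fun c => if c ∈ J then θ c else θ' c) := by
  apply TIa_ext
  intro v
  rw [tm_tprod, LinearMap.sum_apply]
  have h := MultilinearMap.map_add_univ (PiTensorProduct.tprod k) (fun c => θ c (v c))
    (fun c => θ' c (v c))
  refine h.trans (Finset.sum_congr rfl fun J _ => ?_)
  rw [tm_tprod]
  congr 1
  funext c
  by_cases hc : c ∈ J
  · simp [hc]
  · simp [hc]

open Classical in
/-- expansion of a tensor product of finite sums -/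
lemma tm_sum [Fintype (S ⧸ H)] {X : Type} [Fintype X] (θ : X → (A.V →ₗ[k] B.V)) :
    tm H (fun _ => ∑ x, θ x) = ∑ φ : (S ⧸ H → X), tm H (fun c => θ (φ c)) := by
  apply TIa_ext
  intro v
  rw [tm_tprod, LinearMap.sum_apply]
  have h := MultilinearMap.map_sum (PiTensorProduct.tprod k (s := fun _ : S ⧸ H => B.V))
    (g := fun (c : S ⧸ H) (x : X) => θ x (v c))
  refine (congrArg _ (funext fun c => ?_)).trans (h.trans (Finset.sum_congr rfl fun φ _ => ?_))
  · rw [LinearMap.sum_apply]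
  · rw [tm_tprod]

lemma ti_triv : Iso (ti H (triv k H)) (triv k S) := by
  classical
  have : Fintype (S ⧸ H) := Fintype.ofFinite _
  let e : (⨂[k] _ : S ⧸ H, k) ≃ₗ[k] k :=
    (PiTensorProduct.constantBaseRingEquiv (S ⧸ H) k).toLinearEquiv
  have he : ∀ v : S ⧸ H → k, e (PiTensorProduct.tprod k v) = ∏ c, v c := fun v =>
    PiTensorProduct.constantBaseRingEquiv_tprod v
  refine ⟨e, ?_⟩
  intro s w
  have key : e.toLinearMap ∘ₗ (ti H (triv k H)).ρ s = e.toLinearMap := by
    apply TIa_ext H (A := triv k H)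
    intro v
    change S ⧸ H → k at v
    have h1 : (ti H (triv k H)).ρ s (PiTensorProduct.tprod k v) =
        PiTensorProduct.tprod k (fun c => v (s⁻¹ • c)) := TIa_rho H (triv k H) s v
    show e ((ti H (triv k H)).ρ s (PiTensorProduct.tprod k v)) = e (PiTensorProduct.tprod k v)
    have h2 : ∏ c, v (s⁻¹ • c) = ∏ c, v c := Equiv.prod_comp (MulAction.toPerm s⁻¹) v
    refine (congrArg e h1).trans ((he _).trans (h2.trans (he v).symm))
  exact LinearMap.congr_fun key w

lemma ti_iso (h : Iso A B) : Iso (ti H A) (ti H B) := by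
  obtain ⟨e, he⟩ := h
  have h1 : (tm H fun _ => e.symm.toLinearMap) ∘ₗ (tm H fun _ => e.toLinearMap) =
      (LinearMap.id : (ti H A).V →ₗ[k] (ti H A).V) := by
    rw [← tm_comp, ← tm_id]
    congr 1
    funext c
    ext v
    simp
  have h2 : (tm H fun _ => e.toLinearMap) ∘ₗ (tm H fun _ => e.symm.toLinearMap) =
      (LinearMap.id : (ti H B).V →ₗ[k] (ti H B).V) := by
    rw [← tm_comp, ← tm_id]
    congr 1
    funext c
    ext v
    simp
  refine iso_of_bij (tm H fun _ => e.toLinearMap) (tm_isH H he) ⟨?_, ?_⟩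
  · exact Function.LeftInverse.injective (g := (tm H fun _ => e.symm.toLinearMap))
      fun v => LinearMap.congr_fun h1 v
  · exact Function.RightInverse.surjective (g := (tm H fun _ => e.symm.toLinearMap))
      fun v => LinearMap.congr_fun h2 v

lemma tm_surj {f : A.V →ₗ[k] B.V} (hf : Function.Surjective f) :
    Function.Surjective (tm H fun _ => f) := by
  obtain ⟨g, hg⟩ := LinearMap.exists_rightInverse_of_surjective f (LinearMap.range_eq_top.2 hf)
  have h2 : (tm H fun _ => f) ∘ₗ (tm H fun _ => g) =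
      (LinearMap.id : (ti H B).V →ₗ[k] (ti H B).V) := by
    rw [← tm_comp, ← tm_id]
    congr 1
    funext c
    exact hg
  exact Function.RightInverse.surjective (g := (tm H fun _ => g))
      fun v => LinearMap.congr_fun h2 v

lemma tm_inj {f : A.V →ₗ[k] B.V} (hf : Function.Injective f) :
    Function.Injective (tm H fun _ => f) := by
  obtain ⟨g, hg⟩ := LinearMap.exists_leftInverse_of_injective f (LinearMap.ker_eq_bot.2 hf)
  have h2 : (tm H fun _ => g) ∘ₗ (tm H fun _ => f) =
      (LinearMap.id : (ti H A).V →ₗ[k] (ti H A).V) := by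
    rw [← tm_comp, ← tm_id]
    congr 1
    funext c
    exact hg
  exact Function.LeftInverse.injective (g := (tm H fun _ => g))
      fun v => LinearMap.congr_fun h2 v

end Pool.Agent.GamI
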